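import Mathlib

/-!
# NST: base file

The ultrapower `Lx M` of a field `M`, standard sets `St D`, the extension `Fs F` of a
multiplicative function with finitely many values, diagonal arguments.
Project NST (helper85): ideas row 1782, MP_32850b_lc.
-/

set_option autoImplicit false
set_option linter.unusedSectionVars false

noncomputable section

namespace NST

open Filter Polynomial

/-- the nonprincipal ultrafilter on `ℕ` -/
abbrev Uf : Ultrafilter ℕ := hyperfilter ℕ

/-- the ultrapower of `M` -/
abbrev Lx (M : Type) : Type := Germ (Uf : Filter ℕ) M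

/-- the class of a sequence -/
def mk {M : Type} (x : ℕ → M) : Lx M := (x : Germ (Uf : Filter ℕ) M)

/-- the class of a constant sequence -/
def cst {M : Type} (m : M) : Lx M := mk fun _ => m

section General

variable {M N : Type}

theorem mk_eq {x y : ℕ → M} : mk x = mk y ↔ ∀ᶠ n in (Uf : Filter ℕ), x n = y n := Germ.coe_eq

theorem exists_mk (x : Lx M) : ∃ f : ℕ → M, mk f = x := by
  induction x using Germ.inductionOn with
  | h f => exact ⟨f, rfl⟩

theorem cst_inj {a b : M} : cst a = cst b ↔ a = b := by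
  unfold cst
  rw [mk_eq]
  constructor
  · intro h
    exact h.exists.choose_spec
  · intro h
    exact Eventually.of_forall fun _ => h

/-- the extension of a standard set -/
def St (D : Set M) : Set (Lx M) := {x | Germ.LiftPred (fun m => m ∈ D) x}

theorem mem_St {D : Set M} {x : ℕ → M} : mk x ∈ St D ↔ ∀ᶠ n in (Uf : Filter ℕ), x n ∈ D := Iff.rfl

theorem cst_mem_St {D : Set M} {m : M} : cst m ∈ St D ↔ m ∈ D := by
  unfold cst
  rw [mem_St]
  constructor
  · intro h
    exact h.exists.choose_spec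
  · intro h
    exact Eventually.of_forall fun _ => h

theorem St_mono {D E : Set M} (h : D ⊆ E) : St D ⊆ St E := by
  intro x hx
  obtain ⟨f, rfl⟩ := exists_mk x
  rw [mem_St] at hx ⊢
  exact hx.mono fun n hn => h hn

theorem St_inter (D E : Set M) : St (D ∩ E) = St D ∩ St E := by
  ext x
  obtain ⟨f, rfl⟩ := exists_mk x
  rw [Set.mem_inter_iff, mem_St, mem_St, mem_St]
  exact eventually_and

theorem notMem_St {D : Set M} {x : Lx M} : x ∉ St D ↔ x ∈ St Dᶜ := by
  obtain ⟨f, rfl⟩ := exists_mk x
  rw [mem_St, mem_St]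
  exact (Ultrafilter.eventually_not (f := Uf)).symm

theorem not_eventually {P : ℕ → Prop} :
    (¬ ∀ᶠ n in (Uf : Filter ℕ), P n) ↔ ∀ᶠ n in (Uf : Filter ℕ), ¬ P n :=
  (Ultrafilter.eventually_not (f := Uf)).symm

theorem eventually_or' {P Q : ℕ → Prop} : (∀ᶠ n in (Uf : Filter ℕ), P n ∨ Q n) ↔
    (∀ᶠ n in (Uf : Filter ℕ), P n) ∨ ∀ᶠ n in (Uf : Filter ℕ), Q n :=
  Ultrafilter.eventually_or (f := Uf)

/-- all large numbers are in the ultrafilter -/
theorem eventually_ge (k : ℕ) : ∀ᶠ n in (Uf : Filter ℕ), k ≤ n := by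
  have h : {n : ℕ | k ≤ n} ∈ (hyperfilter ℕ : Filter ℕ) := by
    apply mem_hyperfilter_of_finite_compl
    refine (Set.finite_lt_nat k).subset ?_
    intro n hn
    simpa using hn
  exact h

/-- the limit of a sequence in a finite type -/
theorem exists_lim {G : Type} [Finite G] (f : ℕ → G) :
    ∃ g, ∀ᶠ n in (Uf : Filter ℕ), f n = g := by
  classical
  cases nonempty_fintype G
  by_contra h
  push Not at h
  have h1 : ∀ g, ∀ᶠ n in (Uf : Filter ℕ), ¬ f n = g := h
  have h2 : ∀ᶠ n in (Uf : Filter ℕ), ∀ g, ¬ f n = g := eventually_all.2 h1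
  obtain ⟨n, hn⟩ := h2.exists
  exact hn (f n) rfl

/-- Diagonal levels: if the decreasing properties `P i` hold almost everywhere, there is a level
function `l` with `P (l n) n` for all `n` which is almost everywhere large. -/
theorem exists_level (P : ℕ → ℕ → Prop) (h0 : ∀ n, P 0 n) (h : ∀ i, ∀ᶠ n in (Uf : Filter ℕ), P i n) :
    ∃ l : ℕ → ℕ, (∀ n, ∀ i ≤ l n, P i n) ∧ ∀ k, ∀ᶠ n in (Uf : Filter ℕ), k ≤ l n := by
  classical
  let Q : ℕ → ℕ → Prop := fun k n => ∀ i ≤ k, P i n
  have hQ0 : ∀ n, Q 0 n := fun n i hi => by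
    obtain rfl : i = 0 := by omega
    exact h0 n
  refine ⟨fun n => Nat.findGreatest (fun k => Q k n) n, fun n => ?_, fun k => ?_⟩
  · exact Nat.findGreatest_spec (P := fun k => Q k n) (Nat.zero_le n) (hQ0 n)
  · have h1 : ∀ᶠ n in (Uf : Filter ℕ), Q k n := by
      have : ∀ᶠ n in (Uf : Filter ℕ), ∀ i ∈ Finset.range (k + 1), P i n :=
        (Finset.eventually_all _).2 fun i _ => h i
      exact this.mono fun n hn i hi => hn i (Finset.mem_range.2 (by omega))
    filter_upwards [h1, eventually_ge k] with n hn hk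
    exact Nat.le_findGreatest hk hn

/-- a map of ultrapowers -/
def mapL (f : M → N) : Lx M → Lx N := Germ.map f

@[simp] theorem mapL_mk (f : M → N) (x : ℕ → M) : mapL f (mk x) = mk fun n => f (x n) := rfl

@[simp] theorem mapL_cst (f : M → N) (m : M) : mapL f (cst m) = cst (f m) := rfl

end General

section Field

variable {M : Type} [Field M]

theorem mk_add (x y : ℕ → M) : mk x + mk y = mk fun n => x n + y n := rfl
theorem mk_sub (x y : ℕ → M) : mk x - mk y = mk fun n => x n - y n := rfl
theorem mk_mul (x y : ℕ → M) : mk x * mk y = mk fun n => x n * y n := rfl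
theorem mk_neg (x : ℕ → M) : -mk x = mk fun n => -x n := rfl
theorem mk_inv (x : ℕ → M) : (mk x)⁻¹ = mk fun n => (x n)⁻¹ := rfl
theorem mk_div (x y : ℕ → M) : mk x / mk y = mk fun n => x n / y n := rfl
theorem mk_pow (x : ℕ → M) (k : ℕ) : (mk x) ^ k = mk fun n => x n ^ k := rfl
theorem mk_zero : (0 : Lx M) = mk fun _ => 0 := rfl
theorem mk_one : (1 : Lx M) = mk fun _ => 1 := rfl
theorem mk_natCast (k : ℕ) : (k : Lx M) = mk fun _ => (k : M) := rfl

theorem cst_add (x y : M) : cst (x + y) = cst x + cst y := rfl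
theorem cst_sub (x y : M) : cst (x - y) = cst x - cst y := rfl
theorem cst_mul (x y : M) : cst (x * y) = cst x * cst y := rfl
theorem cst_neg (x : M) : cst (-x) = -cst x := rfl
theorem cst_inv (x : M) : cst x⁻¹ = (cst x)⁻¹ := rfl
theorem cst_div (x y : M) : cst (x / y) = cst x / cst y := rfl
theorem cst_pow (x : M) (k : ℕ) : cst (x ^ k) = cst x ^ k := rfl
theorem cst_zero : cst (0 : M) = 0 := rfl
theorem cst_one : cst (1 : M) = 1 := rfl
theorem cst_natCast (k : ℕ) : cst (k : M) = (k : Lx M) := rfl

theorem cst_ne_zero {m : M} (h : m ≠ 0) : cst m ≠ 0 := fun h' => h (cst_inj.1 h')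

theorem mk_ne_zero {x : ℕ → M} : mk x ≠ 0 ↔ ∀ᶠ n in (Uf : Filter ℕ), x n ≠ 0 := by
  rw [← not_eventually, ← mk_eq (y := fun _ => (0 : M))]
  exact Iff.rfl

/-- constants, as a ring homomorphism -/
def cstR : M →+* Lx M where
  toFun := cst
  map_one' := rfl
  map_mul' _ _ := rfl
  map_zero' := rfl
  map_add' _ _ := rfl

@[simp] theorem cstR_apply (m : M) : cstR m = cst m := rfl

instance instCharZeroLx [CharZero M] : CharZero (Lx M) :=
  charZero_of_injective_ringHom (f := (cstR : M →+* Lx M)) fun _ _ h => cst_inj.1 h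

/-- the map of ultrapowers given by a ring homomorphism, as a ring homomorphism -/
def mapR {N : Type} [Field N] (f : M →+* N) : Lx M →+* Lx N where
  toFun := mapL f
  map_one' := by
    rw [mk_one, mapL_mk]
    simp only [map_one]
    rfl
  map_mul' x y := by
    obtain ⟨x, rfl⟩ := exists_mk x
    obtain ⟨y, rfl⟩ := exists_mk y
    rw [mk_mul]
    simp only [mapL_mk, map_mul]
    rfl
  map_zero' := by
    rw [mk_zero, mapL_mk]
    simp only [map_zero]
    rfl
  map_add' x y := by
    obtain ⟨x, rfl⟩ := exists_mk x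
    obtain ⟨y, rfl⟩ := exists_mk y
    rw [mk_add]
    simp only [mapL_mk, map_add]
    rfl

@[simp] theorem mapR_mk {N : Type} [Field N] (f : M →+* N) (x : ℕ → M) :
    mapR f (mk x) = mk fun n => f (x n) := rfl

@[simp] theorem mapR_cst {N : Type} [Field N] (f : M →+* N) (m : M) :
    mapR f (cst m) = cst (f m) := rfl

end Field

section Values

variable {M G : Type} [Field M] [CommGroupWithZero G] [Finite G]

/-- the extension of a function with finitely many values, as a map -/
def FsFun (F : M → G) (x : Lx M) : G :=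
  Classical.choose (exists_lim fun n => F (Classical.choose (exists_mk x) n))

theorem FsFun_mk_iff (F : M → G) (x : ℕ → M) (g : G) :
    FsFun F (mk x) = g ↔ ∀ᶠ n in (Uf : Filter ℕ), F (x n) = g := by
  have h1 := Classical.choose_spec
    (exists_lim fun n => F (Classical.choose (exists_mk (mk x)) n))
  have h2 : ∀ᶠ n in (Uf : Filter ℕ), Classical.choose (exists_mk (mk x)) n = x n :=
    mk_eq.1 (Classical.choose_spec (exists_mk (mk x)))
  change ∀ᶠ n in (Uf : Filter ℕ), F (Classical.choose (exists_mk (mk x)) n) = FsFun F (mk x) at h1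
  have h3 : ∀ᶠ n in (Uf : Filter ℕ), F (x n) = FsFun F (mk x) := by
    filter_upwards [h1, h2] with n h1 h2
    rw [← h2, h1]
  constructor
  · rintro rfl
    exact h3
  · intro h
    obtain ⟨n, hn, hn'⟩ := (h3.and h).exists
    rw [← hn, hn']

/-- the extension of a multiplicative function with finitely many values to the ultrapower -/
def Fs (F : M →*₀ G) : Lx M →*₀ G where
  toFun := FsFun F
  map_zero' := by
    rw [mk_zero, FsFun_mk_iff]
    simp
  map_one' := by
    rw [mk_one, FsFun_mk_iff]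
    simp
  map_mul' x y := by
    obtain ⟨x, rfl⟩ := exists_mk x
    obtain ⟨y, rfl⟩ := exists_mk y
    rw [mk_mul, FsFun_mk_iff]
    filter_upwards [(FsFun_mk_iff F x _).1 rfl, (FsFun_mk_iff F y _).1 rfl] with n h1 h2
    rw [map_mul, h1, h2]

theorem Fs_mk_iff {F : M →*₀ G} {x : ℕ → M} {g : G} :
    Fs F (mk x) = g ↔ ∀ᶠ n in (Uf : Filter ℕ), F (x n) = g := FsFun_mk_iff F x g

@[simp] theorem Fs_cst (F : M →*₀ G) (m : M) : Fs F (cst m) = F m := by
  unfold cst
  rw [Fs_mk_iff]
  exact Eventually.of_forall fun _ => rfl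

end Values

end NST
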