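import Pool.Agent.NST.TA

/-!
# NST: API for valuation rings (nonunits, elements congruent to `1`, comap)
-/

set_option autoImplicit false

noncomputable section

namespace NST

open Filter Polynomial

section Val

variable {L L' : Type} [Field L] [Field L'] {V W : ValuationSubring L} {x y : L}

theorem nu_iff : x ∈ V.nonunits ↔ x = 0 ∨ x⁻¹ ∉ V := V.mem_nonunits_iff_or

theorem nu_mem (h : x ∈ V.nonunits) : x ∈ V := ValuationSubring.nonunits_subset h

theorem one_notMem_nu : (1 : L) ∉ V.nonunits := by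
  rw [nu_iff]
  simp [V.one_mem]

theorem nu_mul (hy : y ∈ V) (hx : x ∈ V.nonunits) : y * x ∈ V.nonunits := by
  rw [ValuationSubring.mem_nonunits_iff] at hx ⊢
  rw [map_mul]
  have h1 : V.valuation y ≤ 1 := (V.valuation_le_one_iff y).2 hy
  calc V.valuation y * V.valuation x ≤ 1 * V.valuation x := by gcongr
    _ < 1 := by rwa [one_mul]

theorem nu_mul' (hx : x ∈ V.nonunits) (hy : y ∈ V) : x * y ∈ V.nonunits := by
  rw [mul_comm]
  exact nu_mul hy hx

theorem inv_nu_of_notMem (h : x ∉ V) : x⁻¹ ∈ V.nonunits := by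
  rw [ValuationSubring.inv_mem_nonunits_iff]
  exact Or.inr h

theorem inv_mem_of_notMem_nu (h : x ∉ V.nonunits) : x⁻¹ ∈ V := by
  by_contra h'
  exact h (nu_iff.2 (Or.inr h'))

/-- `x` is congruent to `1` -/
theorem ne_zero_of_one (h : x - 1 ∈ V.nonunits) : x ≠ 0 := by
  rintro rfl
  have h1 : -(0 - 1 : L) ∈ V.nonunits := V.nonunits.neg_mem h
  rw [zero_sub, neg_neg] at h1
  exact one_notMem_nu h1

theorem mem_of_one (h : x - 1 ∈ V.nonunits) : x ∈ V := by
  have h1 := V.add_mem _ _ (nu_mem h) V.one_mem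
  simpa using h1

theorem notMem_nu_of_one (h : x - 1 ∈ V.nonunits) : x ∉ V.nonunits := by
  intro h'
  have h1 : x - (x - 1) ∈ V.nonunits := V.nonunits.sub_mem h' h
  rw [sub_sub_cancel] at h1
  exact one_notMem_nu h1

theorem inv_mem_of_one (h : x - 1 ∈ V.nonunits) : x⁻¹ ∈ V :=
  inv_mem_of_notMem_nu (notMem_nu_of_one h)

theorem one_inv (h : x - 1 ∈ V.nonunits) : x⁻¹ - 1 ∈ V.nonunits := by
  have h0 := ne_zero_of_one h
  have h1 : x⁻¹ - 1 = (-x⁻¹) * (x - 1) := by
    field_simp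
    ring
  rw [h1]
  exact nu_mul (V.neg_mem _ (inv_mem_of_one h)) h

theorem one_mul' (h : x - 1 ∈ V.nonunits) (h' : y - 1 ∈ V.nonunits) : x * y - 1 ∈ V.nonunits := by
  have h1 : x * y - 1 = x * (y - 1) + (x - 1) := by ring
  rw [h1]
  exact V.nonunits.add_mem (nu_mul (mem_of_one h) h') h

theorem one_div (h : x - 1 ∈ V.nonunits) (h' : y - 1 ∈ V.nonunits) : x / y - 1 ∈ V.nonunits := by
  rw [div_eq_mul_inv]
  exact one_mul' h (one_inv h')

theorem one_pow' (h : x - 1 ∈ V.nonunits) (n : ℕ) : x ^ n - 1 ∈ V.nonunits := by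
  induction n with
  | zero => simp
  | succ n ih =>
    rw [pow_succ]
    exact one_mul' ih h

theorem nu_pow_mem (n : ℕ) (h : x ^ n ∈ V) (hn : 0 < n) : x ∈ V := by
  rw [← V.valuation_le_one_iff] at h ⊢
  rw [map_pow] at h
  exact (pow_le_one_iff_of_nonneg zero_le (by omega)).1 h

theorem nu_of_le (h : V ≤ W) (hx : x ∈ W.nonunits) : x ∈ V.nonunits :=
  (ValuationSubring.nonunits_le_nonunits (A := V) (B := W)).2 h hx

theorem le_of_nu (h : ∀ x, x ∈ W.nonunits → x ∈ V.nonunits) : V ≤ W :=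
  (ValuationSubring.nonunits_le_nonunits (A := V) (B := W)).1 h

theorem eq_of_nu (h : ∀ x, x ∈ V.nonunits ↔ x ∈ W.nonunits) : V = W :=
  le_antisymm (le_of_nu fun x hx => (h x).2 hx) (le_of_nu fun x hx => (h x).1 hx)

theorem mem_comap' {V : ValuationSubring L'} (f : L →+* L') : x ∈ V.comap f ↔ f x ∈ V := Iff.rfl

theorem nu_comap {V : ValuationSubring L'} (f : L →+* L') :
    x ∈ (V.comap f).nonunits ↔ f x ∈ V.nonunits := by
  rw [nu_iff, nu_iff, map_eq_zero, mem_comap', map_inv₀]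

theorem ne_top_iff : V ≠ ⊤ ↔ ∃ x, x ≠ 0 ∧ x ∈ V.nonunits := by
  constructor
  · intro h
    have h1 : ∃ x : L, x ∉ V := by
      by_contra h'
      push Not at h'
      exact h (eq_top_iff.2 fun x _ => h' x)
    obtain ⟨x, hx⟩ := h1
    refine ⟨x⁻¹, ?_, inv_nu_of_notMem hx⟩
    intro h0
    rw [inv_eq_zero] at h0
    exact hx (h0 ▸ V.zero_mem)
  · rintro ⟨x, hx, h⟩ rfl
    rw [nu_iff] at h
    rcases h with h | h
    · exact hx h
    · exact h trivial

/-- roots of monic polynomials with coefficients in `V` are in `V` -/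
theorem mem_of_root {V : ValuationSubring L'} (f : L →+* L') {p : L[X]} (hp : p.Monic)
    (h : ∀ i, i < p.natDegree → f (p.coeff i) ∈ V) {z : L'} (hz : p.eval₂ f z = 0) : z ∈ V := by
  by_contra hzV
  have hz0 : z ≠ 0 := by
    rintro rfl
    exact hzV V.zero_mem
  have hn : z⁻¹ ∈ V.nonunits := inv_nu_of_notMem hzV
  rw [eval₂_eq_sum_range, Finset.sum_range_succ, hp.coeff_natDegree, map_one, one_mul] at hz
  have h2 : (1 : L') = -∑ i ∈ Finset.range p.natDegree, f (p.coeff i) * z⁻¹ ^ (p.natDegree - i) := by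
    have h3 : z ^ p.natDegree ≠ 0 := pow_ne_zero _ hz0
    have h4 : ∑ i ∈ Finset.range p.natDegree, f (p.coeff i) * z⁻¹ ^ (p.natDegree - i) =
        (∑ i ∈ Finset.range p.natDegree, f (p.coeff i) * z ^ i) * (z ^ p.natDegree)⁻¹ := by
      rw [Finset.sum_mul]
      refine Finset.sum_congr rfl fun i hi => ?_
      rw [Finset.mem_range] at hi
      have h5 : z ^ p.natDegree = z ^ i * z ^ (p.natDegree - i) := by
        rw [← pow_add]
        congr 1
        omega
      rw [h5, mul_inv, inv_pow]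
      have h6 : z ^ i ≠ 0 := pow_ne_zero _ hz0
      field_simp
    rw [h4, eq_neg_of_add_eq_zero_left hz]
    field_simp
  refine one_notMem_nu (V := V) ?_
  rw [h2]
  refine V.nonunits.neg_mem (V.nonunits.sum_mem fun i hi => ?_)
  rw [Finset.mem_range] at hi
  refine nu_mul (h i hi) ?_
  obtain ⟨m, hm⟩ : ∃ m, p.natDegree - i = m + 1 := ⟨p.natDegree - i - 1, by omega⟩
  rw [hm, pow_succ]
  exact nu_mul (pow_mem (nu_mem hn) _) hn

/-- roots of monic polynomials with lower coefficients in the maximal ideal are in it -/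
theorem nu_of_root {V : ValuationSubring L'} (f : L →+* L') {p : L[X]} (hp : p.Monic)
    (h : ∀ i, i < p.natDegree → f (p.coeff i) ∈ V.nonunits) {z : L'} (hz : p.eval₂ f z = 0) :
    z ∈ V.nonunits := by
  by_contra hzV
  have hz1 : z ∈ V := mem_of_root f hp (fun i hi => nu_mem (h i hi)) hz
  have hz0 : z ≠ 0 := by
    rintro rfl
    exact hzV V.nonunits.zero_mem
  have hi : z⁻¹ ∈ V := inv_mem_of_notMem_nu hzV
  rw [eval₂_eq_sum_range, Finset.sum_range_succ, hp.coeff_natDegree, map_one, one_mul] at hz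
  have h1 : z ^ p.natDegree ∈ V.nonunits := by
    rw [← neg_eq_of_add_eq_zero_right hz]
    refine V.nonunits.neg_mem (V.nonunits.sum_mem fun i hi => ?_)
    rw [Finset.mem_range] at hi
    exact nu_mul' (h i hi) (pow_mem hz1 _)
  have h2 : z⁻¹ ^ p.natDegree * z ^ p.natDegree = 1 := by
    rw [← mul_pow, inv_mul_cancel₀ hz0, _root_.one_pow]
  exact one_notMem_nu (V := V) (h2 ▸ nu_mul (pow_mem hi _) h1)

end Val

end NST
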