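import Pool.Agent.NST.TC

/-!
# NST: ordered fields: the order valuation ring of the ultrapower, the natural valuation ring,
valuation rings of the ultrapower given by standard ones
-/

set_option autoImplicit false

noncomputable section

namespace NST

open Filter Polynomial

section Ordered

variable (K : Type) [Field K] [LinearOrder K] [IsStrictOrderedRing K]

/-- the valuation ring of the order topology: elements bounded by a constant -/
def Vord : ValuationSubring (Lx K) where
  carrier := {x | ∃ e : K, x ∈ St {a | |a| ≤ e}}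
  mul_mem' := by
    rintro x y ⟨e, he⟩ ⟨e', he'⟩
    obtain ⟨x, rfl⟩ := exists_mk x
    obtain ⟨y, rfl⟩ := exists_mk y
    refine ⟨e * e', ?_⟩
    rw [mem_St] at he he'
    rw [mk_mul, mem_St]
    filter_upwards [he, he'] with n h h'
    replace h : |x n| ≤ e := h
    replace h' : |y n| ≤ e' := h'
    change |x n * y n| ≤ e * e'
    rw [abs_mul]
    exact mul_le_mul h h' (abs_nonneg _) (le_trans (abs_nonneg _) h)
  one_mem' := ⟨1, by rw [mk_one, mem_St]; exact Eventually.of_forall fun _ => by simp⟩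
  add_mem' := by
    rintro x y ⟨e, he⟩ ⟨e', he'⟩
    obtain ⟨x, rfl⟩ := exists_mk x
    obtain ⟨y, rfl⟩ := exists_mk y
    refine ⟨e + e', ?_⟩
    rw [mem_St] at he he'
    rw [mk_add, mem_St]
    filter_upwards [he, he'] with n h h'
    replace h : |x n| ≤ e := h
    replace h' : |y n| ≤ e' := h'
    change |x n + y n| ≤ e + e'
    exact le_trans (abs_add_le _ _) (add_le_add h h')
  zero_mem' := ⟨0, by rw [mk_zero, mem_St]; exact Eventually.of_forall fun _ => by simp⟩
  neg_mem' := by
    rintro x ⟨e, he⟩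
    obtain ⟨x, rfl⟩ := exists_mk x
    refine ⟨e, ?_⟩
    rw [mem_St] at he
    rw [mk_neg, mem_St]
    filter_upwards [he] with n h
    replace h : |x n| ≤ e := h
    change |-x n| ≤ e
    rwa [abs_neg]
  mem_or_inv_mem' := by
    intro x
    obtain ⟨x, rfl⟩ := exists_mk x
    have h : ∀ᶠ n in (Uf : Filter ℕ), |x n| ≤ 1 ∨ |(x n)⁻¹| ≤ 1 := by
      refine Eventually.of_forall fun n => ?_
      rcases le_total |x n| 1 with h | h
      · exact Or.inl h
      · right
        rw [abs_inv]
        exact inv_le_one_of_one_le₀ h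
    rw [eventually_or'] at h
    rcases h with h | h
    · exact Or.inl ⟨1, mem_St.2 h⟩
    · refine Or.inr ⟨1, ?_⟩
      change (mk x)⁻¹ ∈ _
      rw [mk_inv]
      exact mem_St.2 h

/-- the natural valuation ring: the convex hull of `ℤ` -/
def natV : ValuationSubring K where
  carrier := {x | ∃ n : ℕ, |x| ≤ n}
  mul_mem' := by
    rintro x y ⟨n, hn⟩ ⟨m, hm⟩
    refine ⟨n * m, ?_⟩
    rw [abs_mul, Nat.cast_mul]
    exact mul_le_mul hn hm (abs_nonneg _) (le_trans (abs_nonneg _) hn)
  one_mem' := ⟨1, by simp⟩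
  add_mem' := by
    rintro x y ⟨n, hn⟩ ⟨m, hm⟩
    refine ⟨n + m, ?_⟩
    rw [Nat.cast_add]
    exact le_trans (abs_add_le _ _) (add_le_add hn hm)
  zero_mem' := ⟨0, by simp⟩
  neg_mem' := by
    rintro x ⟨n, hn⟩
    exact ⟨n, by rwa [abs_neg]⟩
  mem_or_inv_mem' := by
    intro x
    rcases le_total |x| 1 with h | h
    · exact Or.inl ⟨1, by simpa using h⟩
    · refine Or.inr ⟨1, ?_⟩
      rw [abs_inv, Nat.cast_one]
      exact inv_le_one_of_one_le₀ h

variable {K}

/-- convex valuation rings -/
def Cvx (O : ValuationSubring K) : Prop := ∀ x y : K, |x| ≤ |y| → y ∈ O → x ∈ O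

/-- `π : O → k` presents `k` as the ordered residue field of `O` -/
structure OR (O : ValuationSubring K) (k : Type) [Field k] [LinearOrder k] [IsStrictOrderedRing k]
    (π : O →+* k) : Prop where
  surj : Function.Surjective π
  ker : ∀ a : O, π a = 0 ↔ (a : K) ∈ O.nonunits
  mono : ∀ a b : O, (a : K) ≤ b → π a ≤ π b

variable (K)

/-- elements near `-1` meet finitely many square classes -/
def SqU : Prop := ∃ C : Finset K, ∀ x : K, |x + 1| ≤ 1 / 2 → ∃ c ∈ C, ∃ y, x = c * y ^ 2

/-- good ordered fields -/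
structure Gd : Prop where
  cnt : Countable K
  op : ∀ q : ℕ, q.Prime → OpA K q
  sq : SqU K

/-- `x` is integral over the natural valuation ring of `K`: a root of a monic polynomial whose
coefficients are bounded by natural numbers -/
def Itg {E : Type} [Field E] [Algebra K E] (x : E) : Prop :=
  ∃ p : K[X], p.Monic ∧ (∀ i, ∃ n : ℕ, |p.coeff i| ≤ n) ∧ aeval x p = 0

/-- units over the natural valuation ring -/
def UnE {E : Type} [Field E] [Algebra K E] (x : E) : Prop := x ≠ 0 ∧ Itg K x ∧ Itg K x⁻¹

/-- the units of `E` meet finitely many classes modulo `q`-th powers -/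
def FinU (E : Type) [Field E] [Algebra K E] (q : ℕ) : Prop :=
  ∃ B : Finset E, ∀ x : E, UnE K x → ∃ b ∈ B, ∃ y : E, x = b * y ^ q

/-- finitely many unit power classes, in all finite extensions and for all primes -/
def FinA : Prop :=
  ∀ (E : Type) [Field E] [Algebra K E] [FiniteDimensional K E] (q : ℕ), q.Prime → FinU K E q

end Ordered

section General

variable {K N : Type} [Field K] [Field N]

/-- the valuation ring of the ultrapower given by a standard one: elements `x` with `x e ∈ B` for
some constant `e ≠ 0` -/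
def tV (B : ValuationSubring N) : ValuationSubring (Lx N) where
  carrier := {x | ∃ e : N, e ≠ 0 ∧ x ∈ St {a | a * e ∈ B}}
  mul_mem' := by
    rintro x y ⟨e, he0, he⟩ ⟨e', he0', he'⟩
    obtain ⟨x, rfl⟩ := exists_mk x
    obtain ⟨y, rfl⟩ := exists_mk y
    refine ⟨e * e', mul_ne_zero he0 he0', ?_⟩
    rw [mem_St] at he he'
    rw [mk_mul, mem_St]
    filter_upwards [he, he'] with n h h'
    replace h : x n * e ∈ B := h
    replace h' : y n * e' ∈ B := h'
    change x n * y n * (e * e') ∈ B
    have h1 : x n * y n * (e * e') = (x n * e) * (y n * e') := by ring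
    rw [h1]
    exact B.mul_mem _ _ h h'
  one_mem' := ⟨1, one_ne_zero, by
    rw [mk_one, mem_St]
    exact Eventually.of_forall fun _ => by simp [B.one_mem]⟩
  add_mem' := by
    rintro x y ⟨e, he0, he⟩ ⟨e', he0', he'⟩
    obtain ⟨x, rfl⟩ := exists_mk x
    obtain ⟨y, rfl⟩ := exists_mk y
    rw [mem_St] at he he'
    rcases B.mem_or_inv_mem (e / e') with h0 | h0
    · refine ⟨e, he0, ?_⟩
      rw [mk_add, mem_St]
      filter_upwards [he, he'] with n h h'
      replace h : x n * e ∈ B := h
      replace h' : y n * e' ∈ B := h'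
      change (x n + y n) * e ∈ B
      have h1 : (x n + y n) * e = x n * e + (y n * e') * (e / e') := by
        field_simp
      rw [h1]
      exact B.add_mem _ _ h (B.mul_mem _ _ h' h0)
    · refine ⟨e', he0', ?_⟩
      rw [mk_add, mem_St]
      filter_upwards [he, he'] with n h h'
      replace h : x n * e ∈ B := h
      replace h' : y n * e' ∈ B := h'
      change (x n + y n) * e' ∈ B
      have h1 : (x n + y n) * e' = (x n * e) * (e / e')⁻¹ + y n * e' := by
        field_simp
      rw [h1]
      exact B.add_mem _ _ (B.mul_mem _ _ h h0) h'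
  zero_mem' := ⟨1, one_ne_zero, by
    rw [mk_zero, mem_St]
    exact Eventually.of_forall fun _ => by simp [B.zero_mem]⟩
  neg_mem' := by
    rintro x ⟨e, he0, he⟩
    obtain ⟨x, rfl⟩ := exists_mk x
    refine ⟨e, he0, ?_⟩
    rw [mem_St] at he
    rw [mk_neg, mem_St]
    filter_upwards [he] with n h
    replace h : x n * e ∈ B := h
    change -x n * e ∈ B
    rw [neg_mul]
    exact B.neg_mem _ h
  mem_or_inv_mem' := by
    intro x
    obtain ⟨x, rfl⟩ := exists_mk x
    have h : ∀ᶠ n in (Uf : Filter ℕ), x n * 1 ∈ B ∨ (x n)⁻¹ * 1 ∈ B := by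
      refine Eventually.of_forall fun n => ?_
      simpa using B.mem_or_inv_mem (x n)
    rw [eventually_or'] at h
    rcases h with h | h
    · exact Or.inl ⟨1, one_ne_zero, mem_St.2 h⟩
    · refine Or.inr ⟨1, one_ne_zero, ?_⟩
      change (mk x)⁻¹ ∈ _
      rw [mk_inv]
      exact mem_St.2 h

/-- `O` has only one extension along `f` -/
def UnI (f : K →+* N) (O : ValuationSubring K) : Prop :=
  ∀ V₁ V₂ : ValuationSubring N, V₁.comap f = O → V₂.comap f = O → V₁ = V₂

/-- `O` has only one extension to each finite Galois extension -/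
def UnsS (O : ValuationSubring K) : Prop :=
  ∀ (N : Type) [Field N] [Algebra K N] [FiniteDimensional K N] [IsGalois K N],
    UnI (algebraMap K N) O

/-- Hensel's lemma for `O`, in terms of elements of `K` -/
def Hen (O : ValuationSubring K) : Prop :=
  ∀ f : K[X], f.Monic → (∀ i, f.coeff i ∈ O) → ∀ a₀ ∈ O, f.eval a₀ ∈ O.nonunits →
    f.derivative.eval a₀ ∉ O.nonunits → ∃ a, f.eval a = 0 ∧ a - a₀ ∈ O.nonunits

/-- the residue field of `O` is real closed (for convex `O`), in terms of elements of `K` -/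
def RCr (O : ValuationSubring K) : Prop :=
  (∀ c ∈ O, ∃ b ∈ O, b ^ 2 - c ∈ O.nonunits ∨ b ^ 2 + c ∈ O.nonunits) ∧
  ∀ p : K[X], p.Monic → Odd p.natDegree → (∀ i, p.coeff i ∈ O) → ∃ x ∈ O, p.eval x ∈ O.nonunits

end General

section API

variable {K : Type} [Field K] [LinearOrder K] [IsStrictOrderedRing K]

theorem mem_Vord {x : Lx K} : x ∈ Vord K ↔ ∃ e : K, x ∈ St {a | |a| ≤ e} := Iff.rfl

theorem mem_natV {x : K} : x ∈ natV K ↔ ∃ n : ℕ, |x| ≤ n := Iff.rfl

theorem mem_tV {N : Type} [Field N] {B : ValuationSubring N} {x : Lx N} :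
    x ∈ tV B ↔ ∃ e : N, e ≠ 0 ∧ x ∈ St {a | a * e ∈ B} := Iff.rfl

theorem Cvx.natV_le {O : ValuationSubring K} (h : Cvx O) : natV K ≤ O := by
  intro x hx
  obtain ⟨n, hn⟩ := mem_natV.1 hx
  refine h x n ?_ (natCast_mem O n)
  rwa [Nat.abs_cast]

theorem Cvx.of_le {O : ValuationSubring K} (h : natV K ≤ O) : Cvx O := by
  intro x y hxy hy
  by_cases h0 : y = 0
  · subst h0
    rw [abs_zero] at hxy
    have : x = 0 := abs_eq_zero.1 (le_antisymm hxy (abs_nonneg _))
    rw [this]
    exact O.zero_mem
  · have h1 : x / y ∈ O := by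
      refine h (mem_natV.2 ⟨1, ?_⟩)
      rw [abs_div, Nat.cast_one]
      exact (div_le_one (abs_pos.2 h0)).2 hxy
    have h2 := O.mul_mem _ _ h1 hy
    rwa [div_mul_cancel₀ _ h0] at h2

theorem natV_cvx : Cvx (natV K) := Cvx.of_le le_rfl

end API

end NST
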