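import Pool.Agent.NST.TC

/-!
# NST: target AC (when everything is a `q`-th power the field is real closed)
-/

set_option autoImplicit false

noncomputable section

namespace NST

open Polynomial IntermediateField

/-- an automorphism of prime order `q` fixes the `q`-th roots of unity -/
theorem AC_root {K N : Type} [Field K] [Field N] [Algebra K N] (q : ℕ) (hq : q.Prime) (ζ : N)
    (hζ : IsPrimitiveRoot ζ q) (τ : N ≃ₐ[K] N) (hτ : τ ^ q = 1) : τ ζ = ζ := by
  have hfact : Fact q.Prime := ⟨hq⟩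
  have hne : NeZero q := ⟨hq.ne_zero⟩
  have h1 : (τ ζ) ^ q = 1 := by rw [← map_pow, hζ.pow_eq_one, map_one]
  obtain ⟨i, hi, hiζ⟩ := hζ.eq_pow_of_pow_eq_one h1
  have h2 : ∀ m : ℕ, (τ ^ m) ζ = ζ ^ (i ^ m) := by
    intro m
    induction m with
    | zero => simp
    | succ m ih =>
      rw [pow_succ', AlgEquiv.mul_apply, ih, map_pow, ← hiζ, ← pow_mul, pow_succ']
  have hζ0 : ζ ≠ 0 := hζ.ne_zero hq.ne_zero
  have hmod : ∀ a : ℕ, ζ ^ a = ζ ^ 1 ↔ ((a : ℕ) : ZMod q) = ((1 : ℕ) : ZMod q) := by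
    intro a
    have e1 : ζ ^ a = ζ ^ 1 ↔ ζ ^ ((a : ℤ) - (1 : ℕ)) = 1 := by
      rw [zpow_sub₀ hζ0, zpow_natCast, zpow_natCast, div_eq_one_iff_eq (pow_ne_zero _ hζ0)]
    rw [e1, hζ.zpow_eq_one_iff_dvd, ← ZMod.intCast_zmod_eq_zero_iff_dvd]
    push_cast
    rw [sub_eq_zero]
  have h3 : ζ ^ (i ^ q) = ζ ^ 1 := by
    rw [← h2 q, hτ, pow_one]
    rfl
  have h5 := (hmod _).1 h3
  rw [Nat.cast_pow, ZMod.pow_card] at h5
  rw [← hiζ, (hmod i).2 h5, pow_one]

/-- no automorphism of prime order `q` fixes `j` -/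
theorem AC_cyc (K N : Type) [Field K] [Field N] [Algebra K N] [FiniteDimensional K N]
    [IsGalois K N] (q : ℕ) (hq : q.Prime) (ζ j : N) (hζ : IsPrimitiveRoot ζ q) (τ : N ≃ₐ[K] N)
    (hτ : orderOf τ = q) (hj : τ j = j)
    (hFul : ∀ E : IntermediateField K N, j ∈ E → ζ ∈ E → ∀ x ∈ E, ∃ y ∈ E, x = y ^ q) : False := by
  have hne : NeZero q := ⟨hq.ne_zero⟩
  have hτq : τ ^ q = 1 := by rw [← hτ]; exact pow_orderOf_eq_one τ
  set H : Subgroup (N ≃ₐ[K] N) := Subgroup.zpowers τ with hH
  set E : IntermediateField K N := fixedField H with hE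
  have hfix : ∀ x : N, τ x = x → x ∈ E := by
    intro x hx
    rw [hE, mem_fixedField_iff]
    have h1 : H ≤ MulAction.stabilizer (N ≃ₐ[K] N) x := by
      rw [hH, Subgroup.zpowers_le, MulAction.mem_stabilizer_iff]
      exact hx
    intro f hf
    exact MulAction.mem_stabilizer_iff.1 (h1 hf)
  have hjE : j ∈ E := hfix j hj
  have hζE : ζ ∈ E := hfix ζ (AC_root q hq ζ hζ τ hτq)
  have hrank : Module.finrank E N = q := by
    rw [hE, finrank_fixedField_eq_card, hH, Nat.card_zpowers, hτ]
  have hcyc : IsCyclic (N ≃ₐ[E] N) := by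
    have hfact : Fact q.Prime := ⟨hq⟩
    refine isCyclic_of_prime_card (p := q) ?_
    rw [IsGalois.card_aut_eq_finrank, hrank]
  have hprim : (primitiveRoots (Module.finrank E N) E).Nonempty := by
    refine ⟨⟨ζ, hζE⟩, ?_⟩
    rw [hrank, mem_primitiveRoots hq.pos]
    exact IsPrimitiveRoot.of_map_of_injective (f := algebraMap E N) hζ
      (algebraMap E N).injective
  obtain ⟨δ, ⟨x, hx⟩, hδ⟩ := exists_root_adjoin_eq_top_of_isCyclic E N hprim
  rw [hrank] at hx
  obtain ⟨y, hyE, hy⟩ := hFul E hjE hζE (x : N) x.2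
  have hx' : (x : N) = δ ^ q := hx
  have hδE : δ ∈ E := by
    by_cases hy0 : y = 0
    · rw [hx', hy0, zero_pow hq.ne_zero] at hy
      have := pow_eq_zero_iff hq.ne_zero |>.1 hy
      rw [this]
      exact E.zero_mem
    · have h1 : (δ / y) ^ q = 1 := by
        rw [div_pow, ← hx', ← hy, div_self]
        rw [hy]
        exact pow_ne_zero _ hy0
      obtain ⟨i, _, hi⟩ := hζ.eq_pow_of_pow_eq_one h1
      have h2 : δ = ζ ^ i * y := by
        rw [hi, div_mul_cancel₀ _ hy0]
      rw [h2]
      exact E.mul_mem (pow_mem hζE i) hyE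
  have h3 : E⟮δ⟯ = ⊥ := by
    rw [adjoin_simple_eq_bot_iff, IntermediateField.mem_bot]
    exact ⟨⟨δ, hδE⟩, rfl⟩
  rw [h3] at hδ
  have h4 : Module.finrank E N = 1 := by
    rw [← IntermediateField.finrank_top', ← hδ]
    exact IntermediateField.finrank_bot
  rw [hrank] at h4
  exact hq.ne_one h4

section Closure

variable {K A : Type} [Field K] [Field A] [Algebra K A]

theorem AC_nor [Normal K A] (s : Set A) (hs : s.Finite) :
    ∃ N : IntermediateField K A, FiniteDimensional K N ∧ Normal K N ∧ s ⊆ N := by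
  have h1 : FiniteDimensional K (adjoin K s) := by
    have := hs.to_subtype
    exact finiteDimensional_adjoin fun x _ => Normal.isIntegral inferInstance x
  refine ⟨normalClosure K (adjoin K s) A, inferInstance, inferInstance, ?_⟩
  intro x hx
  exact (le_normalClosure (adjoin K s)) (subset_adjoin K _ hx)

theorem AC_dvd (N N' : IntermediateField K A) [Normal K N] [Normal K N'] (hNN : N ≤ N')
    (σ : A ≃ₐ[K] A) : orderOf (AlgEquiv.restrictNormalHom N σ) ∣
      orderOf (AlgEquiv.restrictNormalHom N' σ) := by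
  refine orderOf_dvd_of_pow_eq_one ?_
  set m := orderOf (AlgEquiv.restrictNormalHom N' σ) with hm
  have h1 : AlgEquiv.restrictNormalHom N' (σ ^ m) = 1 := by
    rw [map_pow, hm]
    exact pow_orderOf_eq_one _
  rw [← map_pow]
  ext x
  have h2 := AlgEquiv.restrictNormalHom_apply N (σ ^ m) x
  have h3 := AlgEquiv.restrictNormalHom_apply N' (σ ^ m) ⟨x, hNN x.2⟩
  rw [h1] at h3
  rw [h2, ← h3]
  rfl

end Closure

theorem AC_step (K N : Type) [Field K] [CharZero K] [Field N] [Algebra K N]
    [FiniteDimensional K N] [Normal K N]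
    (h : ∀ (E : Type) [Field E] [Algebra K E] [FiniteDimensional K E] (q : ℕ) (ζ j : E), q.Prime →
      IsPrimitiveRoot ζ q → j ^ 2 = -1 → Ful E q) (j : N) (hj : j ^ 2 = -1) (g : N ≃ₐ[K] N)
    (hgj : g j = j) (q : ℕ) (hq : q.Prime) (ζ : N) (hζ : IsPrimitiveRoot ζ q)
    (hdvd : q ∣ orderOf g) : False := by
  have hgpos : 0 < orderOf g := orderOf_pos g
  have hpj : ∀ m : ℕ, (g ^ m) j = j := by
    intro m
    induction m with
    | zero => rfl
    | succ m ih => rw [pow_succ, AlgEquiv.mul_apply, hgj, ih]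
  have hdiv : orderOf g / q ≠ 0 := by
    have := Nat.div_pos (Nat.le_of_dvd hgpos hdvd) hq.pos
    omega
  have hord : orderOf (g ^ (orderOf g / q)) = q := by
    rw [orderOf_pow_of_dvd hdiv (Nat.div_dvd_of_dvd hdvd), Nat.div_div_self hdvd hgpos.ne']
  have hgal : IsGalois K N := { }
  refine AC_cyc K N q hq ζ j hζ (g ^ (orderOf g / q)) hord (hpj _) ?_
  intro E hjE hζE x hx
  have h5 := h E q ⟨ζ, hζE⟩ ⟨j, hjE⟩ hq
    (IsPrimitiveRoot.of_map_of_injective (f := algebraMap E N) hζ (algebraMap E N).injective)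
    (Subtype.ext hj)
  obtain ⟨y, hy⟩ := h5 ⟨x, hx⟩
  exact ⟨y, y.2, congrArg Subtype.val hy⟩

theorem AC_fix (K A : Type) [Field K] [CharZero K] [Field A] [Algebra K A]
    [Normal K A] [IsAlgClosed A]
    (h : ∀ (E : Type) [Field E] [Algebra K E] [FiniteDimensional K E] (q : ℕ) (ζ j : E), q.Prime →
      IsPrimitiveRoot ζ q → j ^ 2 = -1 → Ful E q) (j : A) (hj : j ^ 2 = -1) (σ : A ≃ₐ[K] A)
    (hσ : σ j = j) (α : A) : σ α = α := by
  have hchar : CharZero A := charZero_of_injective_algebraMap (algebraMap K A).injective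
  by_contra hα
  obtain ⟨N, hNf, hNn, hN⟩ := AC_nor (K := K) (A := A) {α} (Set.finite_singleton α)
  have hNα : α ∈ N := hN rfl
  have hg : AlgEquiv.restrictNormalHom N σ ≠ 1 := by
    intro h1
    have h2 := AlgEquiv.restrictNormalHom_apply N σ ⟨α, hNα⟩
    rw [h1] at h2
    exact hα h2.symm
  obtain ⟨q, hq, hqn⟩ := Nat.exists_prime_and_dvd
    (show orderOf (AlgEquiv.restrictNormalHom N σ) ≠ 1 from fun h1 => hg (orderOf_eq_one_iff.1 h1))
  have hqA : NeZero (q : A) := ⟨Nat.cast_ne_zero.2 hq.ne_zero⟩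
  obtain ⟨ζ, hζ0⟩ := IsAlgClosed.exists_root (cyclotomic q A)
    (by
      rw [degree_cyclotomic]
      have := Nat.totient_pos.2 hq.pos
      exact_mod_cast this.ne')
  have hζ : IsPrimitiveRoot ζ q := isRoot_cyclotomic_iff.1 hζ0
  obtain ⟨M, hMf, hMn, hM⟩ := AC_nor (K := K) (A := A) {j, ζ} (by simp)
  have hSf : FiniteDimensional K ↥(N ⊔ M) := inferInstance
  have hSn : Normal K ↥(N ⊔ M) := inferInstance
  generalize hS : N ⊔ M = S at hSf hSn
  have hNS : N ≤ S := hS ▸ le_sup_left
  have hMS : M ≤ S := hS ▸ le_sup_right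
  have hjS : j ∈ S := hMS (hM (by simp))
  have hζS : ζ ∈ S := hMS (hM (by simp))
  refine AC_step K S h ⟨j, hjS⟩ (Subtype.ext hj) (AlgEquiv.restrictNormalHom S σ) ?_ q hq
    ⟨ζ, hζS⟩ (IsPrimitiveRoot.of_map_of_injective (f := algebraMap S A) hζ
      (algebraMap S A).injective) (hqn.trans (AC_dvd N S hNS σ))
  apply Subtype.ext
  rw [AlgEquiv.restrictNormalHom_apply]
  exact hσ

theorem AC_mem (K A : Type) [Field K] [CharZero K] [Field A] [Algebra K A]
    [Normal K A] [IsAlgClosed A]
    (h : ∀ (E : Type) [Field E] [Algebra K E] [FiniteDimensional K E] (q : ℕ) (ζ j : E), q.Prime →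
      IsPrimitiveRoot ζ q → j ^ 2 = -1 → Ful E q) (j : A) (hj : j ^ 2 = -1) (α : A) :
    α ∈ K⟮j⟯ := by
  have hn : Normal K⟮j⟯ A := Normal.tower_top_of_normal K K⟮j⟯ A
  have hgal : IsGalois K⟮j⟯ A := { }
  have h1 : α ∈ (⊥ : IntermediateField K⟮j⟯ A) := by
    rw [InfiniteGalois.mem_bot_iff_fixed]
    intro f
    refine AC_fix K A h j hj (f.restrictScalars K) ?_ α
    exact f.commutes ⟨j, mem_adjoin_simple_self K j⟩
  rw [IntermediateField.mem_bot] at h1
  obtain ⟨y, rfl⟩ := h1
  exact y.2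

/-- every element is `x + y j` -/
theorem AC_repr (K A : Type) [Field K] [Field A] [Algebra K A] (j : A) (hj : j ^ 2 = -1) (α : A)
    (hα : α ∈ K⟮j⟯) : ∃ x y : K, α = algebraMap K A x + algebraMap K A y * j := by
  have hint : IsIntegral K j := by
    refine ⟨X ^ 2 + C 1, monic_X_pow_add_C 1 two_ne_zero, ?_⟩
    simp [hj]
  have h1 : α ∈ Algebra.adjoin K {j} := by
    rw [← adjoin_simple_toSubalgebra_of_isAlgebraic hint.isAlgebraic]
    exact hα
  refine Algebra.adjoin_induction (p := fun α _ => ∃ x y : K,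
    α = algebraMap K A x + algebraMap K A y * j) ?_ ?_ ?_ ?_ h1
  · intro z hz
    rw [Set.mem_singleton_iff.1 hz]
    exact ⟨0, 1, by simp⟩
  · intro r
    exact ⟨r, 0, by simp⟩
  · rintro z w _ _ ⟨x, y, rfl⟩ ⟨x', y', rfl⟩
    refine ⟨x + x', y + y', ?_⟩
    rw [map_add, map_add]
    ring
  · rintro z w _ _ ⟨x, y, rfl⟩ ⟨x', y', rfl⟩
    refine ⟨x * x' - y * y', x * y' + y * x', ?_⟩
    rw [map_sub, map_mul, map_mul, map_add, map_mul, map_mul]
    linear_combination (algebraMap K A y * algebraMap K A y') * hj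

theorem p_AC : T_AC := by
  intro K _ _ _ h
  obtain ⟨j, hj⟩ := IsAlgClosed.exists_pow_nat_eq (-1 : AlgebraicClosure K) (n := 2) (by norm_num)
  have hmem := AC_mem K (AlgebraicClosure K) h j hj
  have hrep := fun α => AC_repr K (AlgebraicClosure K) j hj α (hmem α)
  have hjK : ∀ x : K, algebraMap K (AlgebraicClosure K) x ≠ j := by
    intro x hx
    have h1 : algebraMap K (AlgebraicClosure K) (x ^ 2) =
        algebraMap K (AlgebraicClosure K) (-1) := by
      rw [map_pow, hx, hj, map_neg, map_one]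
    have h2 := (algebraMap K (AlgebraicClosure K)).injective h1
    have h3 := sq_nonneg x
    rw [h2] at h3
    linarith
  have hlin : ∀ x y : K, algebraMap K (AlgebraicClosure K) x +
      algebraMap K (AlgebraicClosure K) y * j = 0 → x = 0 ∧ y = 0 := by
    intro x y hxy
    by_cases hy : y = 0
    · rw [hy, map_zero, zero_mul, add_zero, map_eq_zero] at hxy
      exact ⟨hxy, hy⟩
    · exfalso
      refine hjK (-x / y) ?_
      have hy' : algebraMap K (AlgebraicClosure K) y ≠ 0 := by
        rwa [Ne, map_eq_zero]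
      rw [map_div₀, map_neg, div_eq_iff hy']
      linear_combination -hxy
  refine IsRealClosed.of_linearOrderedField ?_ ?_
  · intro a ha
    obtain ⟨z, hz⟩ := IsAlgClosed.exists_pow_nat_eq (algebraMap K (AlgebraicClosure K) a) (n := 2)
      (by norm_num)
    obtain ⟨x, y, rfl⟩ := hrep z
    have h1 := hlin (x ^ 2 - y ^ 2 - a) (2 * (x * y)) (by
      rw [map_sub, map_sub, map_pow, map_pow, map_mul, map_mul, map_ofNat]
      linear_combination hz - (algebraMap K (AlgebraicClosure K) y) ^ 2 * hj)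
    have h2 : x * y = 0 := by
      have := h1.2
      rcases mul_eq_zero.1 this with h | h
      · norm_num at h
      · exact h
    rcases mul_eq_zero.1 h2 with h3 | h3
    · have h4 : a = -y ^ 2 := by
        have := h1.1
        rw [h3] at this
        linear_combination -this
      have h5 : a = 0 := le_antisymm (by rw [h4]; nlinarith [sq_nonneg y]) ha
      rw [h5]
      exact IsSquare.zero
    · refine ⟨x, ?_⟩
      have := h1.1
      rw [h3] at this
      linear_combination -this
  · intro f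
    induction hn : f.natDegree using Nat.strong_induction_on generalizing f with
    | _ n ih =>
      intro hodd
      have hf0 : f ≠ 0 := by
        rintro rfl
        simp at hn
        subst hn
        simp at hodd
      have hfu : ¬ IsUnit f := by
        intro hu
        rw [natDegree_eq_zero_of_isUnit hu] at hn
        subst hn
        simp at hodd
      obtain ⟨g, hg, hgf⟩ := WfDvdMonoid.exists_irreducible_factor hfu hf0
      obtain ⟨k, rfl⟩ := hgf
      have hk0 : k ≠ 0 := right_ne_zero_of_mul hf0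
      have hg0 : g ≠ 0 := hg.ne_zero
      rw [natDegree_mul hg0 hk0] at hn
      have hgpos : 0 < g.natDegree := hg.natDegree_pos
      rcases Nat.even_or_odd g.natDegree with he | ho
      · have hk : Odd k.natDegree := by
          rw [← hn] at hodd
          exact (Nat.odd_add'.1 hodd).2 he
        obtain ⟨x, hx⟩ := ih k.natDegree (by omega) rfl hk
        exact ⟨x, by rw [IsRoot, eval_mul, hx, mul_zero]⟩
      · obtain ⟨β, hβ⟩ := IsAlgClosed.exists_aeval_eq_zero (AlgebraicClosure K) g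
          (degree_pos_of_irreducible hg).ne'
        obtain ⟨x, y, hxy⟩ := hrep β
        have hmin : minpoly K β ∣ (X - C x) ^ 2 + C (y ^ 2) := by
          refine minpoly.dvd K β ?_
          simp only [map_add, map_pow, map_sub, aeval_X, aeval_C]
          rw [hxy]
          linear_combination (algebraMap K (AlgebraicClosure K) y) ^ 2 * hj
        have hdeg : ((X - C x) ^ 2 + C (y ^ 2)).natDegree = 2 := by
          rw [natDegree_add_C, natDegree_pow, natDegree_X_sub_C]
        have hne : (X - C x) ^ 2 + C (y ^ 2) ≠ 0 := by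
          intro h0
          rw [h0] at hdeg
          simp at hdeg
        have h2 := natDegree_le_of_dvd hmin hne
        rw [hdeg, ← minpoly.eq_of_irreducible hg hβ, natDegree_mul_C
          (inv_ne_zero (leadingCoeff_ne_zero.2 hg0))] at h2
        have h3 : g.natDegree = 1 := by
          obtain ⟨m, hm⟩ := ho
          omega
        obtain ⟨x', hx'⟩ := exists_root_of_degree_eq_one
          ((degree_eq_iff_natDegree_eq_of_pos one_pos).2 h3)
        exact ⟨x', by rw [IsRoot, eval_mul, hx', zero_mul]⟩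

end NST
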