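import Pool.Agent.NST.TB

/-!
# NST-AP: idempotents are approximated by standard elements
-/

set_option autoImplicit false

noncomputable section

namespace NST

open Filter Polynomial

namespace AP_

/-- the elements of step (1) -/
theorem step {M : Type} [Field M] {D : ℕ → Set M} {f' : ℕ → M} {j : ℕ}
    (h1 : ∀ m, ∀ᶠ r in (Uf : Filter ℕ), f' r * f' r - f' r ∈ D m)
    (h2 : ∀ φ : M, ∀ᶠ r in (Uf : Filter ℕ), φ - f' r ∉ D j) (m N : ℕ) :
    ∃ φ : ℕ → M, (∀ k < N, φ k * φ k - φ k ∈ D m) ∧ ∀ k < N, ∀ i < k, φ i - φ k ∉ D j := by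
  classical
  induction N with
  | zero => exact ⟨fun _ => 0, fun k hk => absurd hk (by omega), fun k hk => absurd hk (by omega)⟩
  | succ N ih =>
    obtain ⟨φ, ha, hb⟩ := ih
    have h3 : ∀ᶠ r in (Uf : Filter ℕ), ∀ i ∈ Finset.range N, φ i - f' r ∉ D j :=
      (Finset.eventually_all _).2 fun i _ => h2 (φ i)
    obtain ⟨r, hr1, hr2⟩ := ((h1 m).and h3).exists
    have e1 : Function.update φ N (f' r) N = f' r := Function.update_self _ _ _
    have e2 : ∀ k, k < N → Function.update φ N (f' r) k = φ k := fun k hk =>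
      Function.update_of_ne (by omega) _ _
    refine ⟨Function.update φ N (f' r), fun k hk => ?_, fun k hk i hi => ?_⟩
    · rcases Nat.lt_or_ge k N with h | h
      · rw [e2 k h]
        exact ha k h
      · obtain rfl : k = N := by omega
        rw [e1]
        exact hr1
    · rcases Nat.lt_or_ge k N with h | h
      · rw [e2 k h, e2 i (by omega)]
        exact hb k h i hi
      · obtain rfl : k = N := by omega
        rw [e1, e2 i hi]
        exact hr2 i (Finset.mem_range.2 hi)

theorem sub_mem {K : Type} [Field K] (A : ValuationSubring K) {x y : K} (hx : x ∈ A.nonunits)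
    (hy : y ∈ A.nonunits) : x - y ∈ A.nonunits := by
  rw [ValuationSubring.mem_nonunits_iff] at hx hy ⊢
  exact (Valuation.map_sub _ x y).trans_lt (max_lt hx hy)

theorem idem {K : Type} [Field K] (A : ValuationSubring K) {x : K}
    (hx : x * x - x ∈ A.nonunits) (h : x ∉ A.nonunits) : x - 1 ∈ A.nonunits := by
  rw [ValuationSubring.mem_nonunits_iff] at hx h ⊢
  by_contra h1
  have e : x * x - x = x * (x - 1) := by ring
  rw [e, map_mul] at hx
  exact absurd hx (not_lt.2 (one_le_mul (not_lt.1 h) (not_lt.1 h1)))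

end AP_

theorem p_AP : T_AP := by
  classical
  intro M _ n V D hD hVD f hf j
  by_contra hcon
  push Not at hcon
  obtain ⟨f', rfl⟩ := exists_mk f
  have h1 : ∀ m, ∀ᶠ r in (Uf : Filter ℕ), f' r * f' r - f' r ∈ D m := by
    intro m
    have := (hVD _).1 hf m
    rw [mk_mul, mk_sub, mem_St] at this
    exact this
  have h2 : ∀ φ : M, ∀ᶠ r in (Uf : Filter ℕ), φ - f' r ∉ D j := by
    intro φ
    have h3 := hcon φ
    rw [cst, mk_sub, mem_St, not_eventually] at h3
    exact h3
  have h3 := fun m => AP_.step h1 h2 m (2 ^ n + 1)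
  choose φ ha hb using h3
  let g : Fin (2 ^ n + 1) → Lx M := fun k => mk fun m => φ m k
  have hg : ∀ k l, g k * g k - g k ∈ (V l).nonunits := by
    intro k
    apply (hVD _).2
    intro i
    change mk (fun m => φ m k * φ m k - φ m k) ∈ St (D i)
    rw [mem_St]
    filter_upwards [eventually_ge i] with m hm
    exact hD hm (ha m k k.2)
  have hne : ∀ i k : Fin (2 ^ n + 1), i < k → g i - g k ∉ St (D j) := by
    intro i k hik
    change mk (fun m => φ m i - φ m k) ∉ St (D j)
    rw [mem_St, not_eventually]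
    exact Eventually.of_forall fun m => hb m k k.2 i hik
  let P : Fin (2 ^ n + 1) → Finset (Fin n) := fun k =>
    Finset.univ.filter fun l => g k ∈ (V l).nonunits
  have hcard : Fintype.card (Finset (Fin n)) < Fintype.card (Fin (2 ^ n + 1)) := by
    rw [Fintype.card_finset, Fintype.card_fin, Fintype.card_fin]
    omega
  obtain ⟨a, b, hab, hP⟩ := Fintype.exists_ne_map_eq_of_card_lt P hcard
  have key : ∀ a b : Fin (2 ^ n + 1), P a = P b → g a - g b ∈ St (D j) := by
    intro a b hP
    refine (hVD _).1 (fun l => ?_) j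
    have hl : g a ∈ (V l).nonunits ↔ g b ∈ (V l).nonunits := by
      have := Finset.ext_iff.1 hP l
      simpa [P] using this
    by_cases h : g a ∈ (V l).nonunits
    · exact AP_.sub_mem _ h (hl.1 h)
    · have h4 := AP_.sub_mem _ (AP_.idem _ (hg a l) h) (AP_.idem _ (hg b l) fun h' => h (hl.2 h'))
      rwa [sub_sub_sub_cancel_right] at h4
  rcases lt_or_gt_of_ne hab with h | h
  · exact hne a b h (key a b hP)
  · exact hne b a h (key b a hP.symm)

end NST
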