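import Pool.Agent.NST.TA

set_option autoImplicit false

namespace NST

theorem p_BZ : T_BZ := by
  intro L _ R hR
  rw [IsBezout.iff_span_pair_isPrincipal]
  intro a b
  by_cases hb : b = 0
  · refine ⟨a, ?_⟩
    rw [hb, Set.pair_comm]
    simp [Ideal.span]
  · have hbL : (b : L) ≠ 0 := fun h => hb (Subtype.ext h)
    obtain ⟨m, hm, hne, hr⟩ := hR ((a : L) / (b : L))
    set r : R := ⟨((a : L) / (b : L) + m)⁻¹, hr⟩ with hrdef
    set m' : R := ⟨m, hm⟩ with hmdef
    have h1 : b = r * (a + m' * b) := by
      apply Subtype.ext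
      change (b : L) = ((a : L) / (b : L) + m)⁻¹ * ((a : L) + m * (b : L))
      have h2 : (a : L) + m * (b : L) = (b : L) * ((a : L) / (b : L) + m) := by
        field_simp
      rw [h2]
      rw [mul_comm (b : L), ← mul_assoc, inv_mul_cancel₀ hne, one_mul]
    have h3 : a = (1 - m' * r) * (a + m' * b) := by
      have h4 : (1 - m' * r) * (a + m' * b) = (a + m' * b) - m' * (r * (a + m' * b)) := by ring
      rw [h4, ← h1]
      ring
    refine ⟨a + m' * b, ?_⟩
    apply le_antisymm
    · rw [Ideal.span_le]
      intro x hx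
      simp only [Set.mem_insert_iff, Set.mem_singleton_iff] at hx
      rcases hx with hx | hx
      · rw [hx]
        exact Ideal.mem_span_singleton'.2 ⟨1 - m' * r, h3.symm⟩
      · rw [hx]
        exact Ideal.mem_span_singleton'.2 ⟨r, h1.symm⟩
    · change Ideal.span {a + m' * b} ≤ _
      rw [Ideal.span_le]
      intro x hx
      rw [Set.mem_singleton_iff] at hx
      rw [hx]
      exact Ideal.add_mem _ (Ideal.subset_span (by simp))
        (Ideal.mul_mem_left _ _ (Ideal.subset_span (by simp)))

end NST
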