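import Pool.Agent.NST.TA

/-!
# NST-C1: the infinitesimals are bounded
-/

set_option autoImplicit false

noncomputable section

namespace NST

open Filter Polynomial

theorem p_C1 (h1 : T_L1L) (h2 : T_L2L) (h3 : T_GB) : T_C1 := by
  classical
  intro M G _ _ _ _ F d hV hN e he e' he'
  by_cases h0 : e = 0
  · rw [h0, zero_mul, add_zero, map_one]
  have ha : e⁻¹ ≠ 0 := inv_ne_zero h0
  obtain ⟨a, haa⟩ : ∃ a, a = e⁻¹ := ⟨_, rfl⟩
  have ha0 : a ≠ 0 := by rw [haa]; exact ha
  have hea : a * e = 1 := by rw [haa, inv_mul_cancel₀ h0]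
  obtain ⟨c, hcc⟩ : ∃ c, c = Fs F a := ⟨_, rfl⟩
  have hc : c ≠ 0 := by
    rw [hcc]
    exact (map_ne_zero (Fs F)).2 ha0
  have hav : ∀ v : M, Fs F (a + cst v) = c := by
    intro v
    have : a + cst v = a * (1 + e * cst v) := by
      rw [mul_add, mul_one, ← mul_assoc, hea, one_mul]
    rw [this, map_mul, he v, mul_one, hcc]
  obtain ⟨w, hww⟩ : ∃ w, w = a + e' := ⟨_, rfl⟩
  have hwe : w = a * (1 + e * e') := by
    rw [hww, mul_add, mul_one, ← mul_assoc, hea, one_mul]
  have hw : Fs F w ≠ 0 := by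
    intro hw
    have hw0 : w = 0 := (map_eq_zero (Fs F)).1 hw
    have hE : e' = -a := by
      rw [hww] at hw0
      exact (neg_eq_of_add_eq_zero_right hw0).symm
    have hr : ∀ r : M, r ≠ 0 → F r * c = 1 := by
      intro r hr
      have h4 := he' (-r)
      have h5 : (1 : Lx M) + e' * cst (-r) = cst r * (a + cst r⁻¹) := by
        rw [hE, cst_neg, cst_inv, mul_add, mul_inv_cancel₀ (cst_ne_zero hr)]
        ring
      rw [h5, map_mul, Fs_cst, hav] at h4
      exact h4
    have hc1 : c = 1 := by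
      have := hr 1 one_ne_zero
      rwa [map_one, one_mul] at this
    obtain ⟨m, hm, hm1⟩ := hN
    apply hm1
    have := hr m hm
    rwa [hc1, mul_one] at this
  suffices hfin : Fs F w = c by
    rw [hwe, map_mul, ← hcc] at hfin
    exact mul_left_cancel₀ hc (by rw [hfin, mul_one])
  by_contra hne
  choose! U hU using h1 M G F d hV
  obtain ⟨Q, hQ0, hQ⟩ := h2 M G F d hV (Fs F w) c hw hc hne
  cases nonempty_fintype G
  let UU : Finset M := Finset.univ.biUnion fun p : G × G => U p.1 p.2
  have hUU : ∀ c1 c2, U c1 c2 ⊆ UU := by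
    intro c1 c2 x hx
    exact Finset.mem_biUnion.2 ⟨(c1, c2), Finset.mem_univ _, hx⟩
  let T : Finset M := Finset.image₂ (fun u P => u * P⁻¹) UU Q
  let C : M → (Q → G) := fun m P => Fs F (w + cst (m * (P : M)))
  obtain ⟨e0, e1, g0, g1, g2⟩ := h3 M (Q → G) C T
  have claim : ∀ m : M, Good C T m → ∀ P ∈ Q, Fs F (w + cst (m * P)) = c := by
    rintro m ⟨n, hn, hg⟩ P hP
    by_contra hgc
    have hP0 := hQ0 P hP
    have hnM : (n : M) ≠ 0 := Nat.cast_ne_zero.2 hn.ne'
    have hN0 : cst (n : M) ≠ 0 := cst_ne_zero hnM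
    have hFn : F (n : M) ≠ 0 := (map_ne_zero F).2 hnM
    have hne' : c / F (n : M) ≠ Fs F (w + cst (m * P)) / F (n : M) := by
      intro h
      apply hgc
      have := congrArg (fun z => z * F (n : M)) h
      simp only [div_mul_cancel₀ _ hFn] at this
      exact this.symm
    refine hU _ _ hne' ((a + cst (m * P)) / cst (n : M)) (e' / cst (n : M)) ?_
    intro u hu
    have huT : u * P⁻¹ ∈ T := Finset.mem_image₂_of_mem (hUU _ _ hu) hP
    have h4 : Fs F (w + cst ((m + n * (u * P⁻¹)) * P)) = Fs F (w + cst (m * P)) :=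
      congrFun (hg _ huT) ⟨P, hP⟩
    have h5 : (m + n * (u * P⁻¹)) * P = m * P + n * u := by
      field_simp
    rw [h5] at h4
    refine ⟨?_, ?_, ?_⟩
    · have : (a + cst (m * P)) / cst (n : M) + cst u = (a + cst (m * P + n * u)) / cst (n : M) := by
        rw [cst_add (m * P), cst_mul (n : M) u]
        field_simp
        ring
      rw [this, map_div₀, Fs_cst, hav]
    · have : (a + cst (m * P)) / cst (n : M) + e' / cst (n : M) + cst u =
          (w + cst (m * P + n * u)) / cst (n : M) := by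
        rw [hww, cst_add (m * P), cst_mul (n : M) u]
        field_simp
        ring
      rw [this, map_div₀, Fs_cst, h4]
    · have : (1 : Lx M) + e' / cst (n : M) * cst u = 1 + e' * cst (u / n) := by
        rw [cst_div]
        ring
      rw [this]
      exact he' _
  exact hQ w e0 e1 ⟨rfl, fun P hP => ⟨claim _ g0 P hP, claim _ g1 P hP, claim _ g2 P hP⟩⟩

end NST
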