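import Pool.Agent.NST.TB

set_option autoImplicit false

namespace NST

open Polynomial

theorem CC_dvd {L : Type} [Field L] {n : ℕ} (A : Matrix (Fin n) (Fin n) L) (p : L[X])
    (h : aeval A p = 0) : ∃ q : L[X], A.charpoly * q = p ^ n := by
  set x : Matrix (Fin n) (Fin n) L[X] := Matrix.scalar (Fin n) (X : L[X]) with hx
  set a : Matrix (Fin n) (Fin n) L[X] := (C : L →+* L[X]).mapMatrix A with ha
  have hc : Commute x a := Matrix.scalar_commute _ (fun r => Commute.all _ _) a
  have h1 : aeval x p = Matrix.scalar (Fin n) p := by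
    have e := Polynomial.aeval_algHom_apply
      ((Algebra.ofId L[X] (Matrix (Fin n) (Fin n) L[X])).restrictScalars L) (X : L[X]) p
    rw [aeval_X_left_apply] at e
    exact e
  have h2 : aeval a p = 0 := by
    have e := Polynomial.aeval_algHom_apply
      ((Algebra.ofId L L[X]).mapMatrix : Matrix (Fin n) (Fin n) L →ₐ[L] Matrix (Fin n) (Fin n) L[X])
      A p
    rw [h, map_zero] at e
    exact e
  have h3 : ∃ D, (x - a) * D = aeval x p - aeval a p := by
    refine ⟨∑ i ∈ Finset.range (p.natDegree + 1),
      p.coeff i • ∑ j ∈ Finset.range i, x ^ j * a ^ (i - 1 - j), ?_⟩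
    rw [aeval_eq_sum_range, aeval_eq_sum_range, ← Finset.sum_sub_distrib, Finset.mul_sum]
    refine Finset.sum_congr rfl fun i _ => ?_
    rw [mul_smul_comm, hc.mul_geom_sum₂, smul_sub]
  obtain ⟨D, hD⟩ := h3
  rw [h1, h2, sub_zero] at hD
  refine ⟨D.det, ?_⟩
  have h4 := congrArg Matrix.det hD
  rw [Matrix.det_mul] at h4
  have h5 : (Matrix.scalar (Fin n) p).det = p ^ n := by
    rw [Matrix.scalar_apply, Matrix.det_diagonal]
    simp
  rw [h5] at h4
  exact h4

theorem CC_act {L L' : Type} [Field L] [Field L'] (f : L →+* L') {n : ℕ} (B : Fin n → L')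
    (A : Matrix (Fin n) (Fin n) L) (z : L') (h : ∀ j, z * B j = ∑ i, f (A i j) * B i) (p : L[X]) :
    ∀ j, ∑ i, f ((aeval A p) i j) * B i = p.eval₂ f z * B j := by
  induction p using Polynomial.induction_on with
  | C c =>
    intro j
    rw [aeval_C, eval₂_C]
    rw [Finset.sum_eq_single j]
    · simp [Matrix.algebraMap_matrix_apply]
    · intro i _ hij
      simp [Matrix.algebraMap_matrix_apply, hij]
    · simp
  | add p q hp hq =>
    intro j
    rw [map_add, eval₂_add, add_mul, ← hp j, ← hq j, ← Finset.sum_add_distrib]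
    refine Finset.sum_congr rfl fun i _ => ?_
    rw [Matrix.add_apply, map_add, add_mul]
  | monomial m c ih =>
    intro j
    rw [pow_succ, ← mul_assoc, map_mul, aeval_X, eval₂_mul, eval₂_X, mul_assoc, h j,
      Finset.mul_sum]
    have e1 : ∀ i, f ((aeval A (C c * X ^ m) * A) i j) * B i =
        ∑ l, f (A l j) * (f ((aeval A (C c * X ^ m)) i l) * B i) := by
      intro i
      rw [Matrix.mul_apply, map_sum, Finset.sum_mul]
      refine Finset.sum_congr rfl fun l _ => ?_
      rw [map_mul]
      ring
    rw [Finset.sum_congr rfl fun i _ => e1 i, Finset.sum_comm]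
    refine Finset.sum_congr rfl fun l _ => ?_
    rw [← Finset.mul_sum, ih l]
    ring

theorem CC_mul {L : Type} [Field L] {V : ValuationSubring L} {P Q : L[X]} (hP : P.Monic)
    (hQ : Q.Monic) (h1 : ∀ i, i < P.natDegree → P.coeff i ∈ V.nonunits)
    (h2 : ∀ i, i < Q.natDegree → Q.coeff i ∈ V.nonunits) :
    ∀ i, i < (P * Q).natDegree → (P * Q).coeff i ∈ V.nonunits := by
  have key : ∀ R : L[X], R.Monic → (∀ i, i < R.natDegree → R.coeff i ∈ V.nonunits) →
      ∀ i, R.coeff i ∈ V := by
    intro R hR h i
    rcases lt_trichotomy i R.natDegree with hi | hi | hi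
    · exact nu_mem (h i hi)
    · rw [hi, hR.coeff_natDegree]
      exact V.one_mem
    · rw [coeff_eq_zero_of_natDegree_lt hi]
      exact V.zero_mem
  intro i hi
  rw [hP.natDegree_mul hQ] at hi
  rw [coeff_mul]
  refine V.nonunits.sum_mem fun x hx => ?_
  have hx' := Finset.HasAntidiagonal.mem_antidiagonal.1 hx
  by_cases hc : x.1 < P.natDegree
  · exact nu_mul' (h1 x.1 hc) (key Q hQ h2 x.2)
  · exact nu_mul (key P hP h1 x.1) (h2 x.2 (by omega))

theorem CC_pow {L : Type} [Field L] {V : ValuationSubring L} {P : L[X]} (hP : P.Monic)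
    (h1 : ∀ i, i < P.natDegree → P.coeff i ∈ V.nonunits) (n : ℕ) :
    ∀ i, i < (P ^ n).natDegree → (P ^ n).coeff i ∈ V.nonunits := by
  induction n with
  | zero =>
    intro i hi
    simp at hi
  | succ n ih =>
    rw [pow_succ]
    exact CC_mul (hP.pow n) hP ih h1

theorem p_CC (h1 : T_CV) (h2 : T_GS) : T_CC := by
  intro L L' _ _ f V n B A z hn hB hA
  have hdeg : A.charpoly.natDegree = n := by
    rw [Matrix.charpoly_natDegree_eq_dim, Fintype.card_fin]
  have hmon : A.charpoly.Monic := A.charpoly_monic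
  constructor
  · intro h
    obtain ⟨p, hp, hpn, hpz⟩ := h1 L L' f V z h
    have hpA : aeval A p = 0 := by
      ext i j
      have e := CC_act f B A z hA p j
      rw [hpz, zero_mul] at e
      exact hB (fun i => (aeval A p) i j) e i
    obtain ⟨q, hq⟩ := CC_dvd A p hpA
    have hqm : q.Monic := by
      have : (A.charpoly * q).Monic := by
        rw [hq]
        exact hp.pow n
      exact hmon.of_mul_monic_left this
    have h3 := h2 L V A.charpoly q (p ^ n) hmon hqm hq (CC_pow hp hpn n)
    rw [hdeg] at h3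
    exact h3
  · intro h V' hV'
    have hB0 : B ≠ 0 := by
      intro h0
      have e := hB (fun _ => 1) (by simp [h0]) ⟨0, hn⟩
      exact one_ne_zero e
    have hroot : A.charpoly.eval₂ f z = 0 := by
      rw [eval₂_eq_eval_map, ← Matrix.charpoly_map, Matrix.eval_charpoly,
        ← Matrix.exists_vecMul_eq_zero_iff]
      refine ⟨B, hB0, ?_⟩
      ext j
      rw [Matrix.vecMul_sub, Pi.sub_apply, Matrix.scalar_apply, Matrix.vecMul_diagonal]
      have e : (Matrix.vecMul B (A.map f)) j = z * B j := by
        rw [hA j]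
        simp only [Matrix.vecMul, dotProduct, Matrix.map_apply]
        exact Finset.sum_congr rfl fun i _ => mul_comm _ _
      rw [e]
      simp [mul_comm]
    refine nu_of_root f hmon ?_ hroot
    intro i hi
    rw [hdeg] at hi
    have := h i hi
    rw [← hV', nu_comap] at this
    exact this

end NST
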