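import Pool.Agent.NST.TC

/-!
# NST: target CG (common Galois extension)
-/

set_option autoImplicit false

noncomputable section

namespace NST

open Filter Polynomial

theorem p_CG : T_CG := by
  intro K E N _ _ _ _ _ _ _ _
  let Ω := AlgebraicClosure K
  let φ : E →ₐ[K] Ω := IsAlgClosed.lift
  let ψ : N →ₐ[K] Ω := IsAlgClosed.lift
  have : FiniteDimensional K φ.fieldRange :=
    Module.Finite.of_surjective φ.rangeRestrict.toLinearMap φ.rangeRestrict_surjective
  have : FiniteDimensional K ψ.fieldRange :=
    Module.Finite.of_surjective ψ.rangeRestrict.toLinearMap ψ.rangeRestrict_surjective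
  let F : IntermediateField K Ω := φ.fieldRange ⊔ ψ.fieldRange
  have : FiniteDimensional K F := IntermediateField.finiteDimensional_sup _ _
  let P : IntermediateField K Ω := IntermediateField.normalClosure K F Ω
  have : FiniteDimensional K P := normalClosure.is_finiteDimensional K F Ω
  have : Normal K P := normalClosure.normal K F Ω
  have hF : F ≤ P := IntermediateField.le_normalClosure F
  refine ⟨P, inferInstance, inferInstance, inferInstance, { }, ⟨?_⟩, ⟨?_⟩⟩
  · exact (IntermediateField.inclusion ((le_sup_left : φ.fieldRange ≤ F).trans hF)).comp
      φ.rangeRestrict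
  · exact (IntermediateField.inclusion ((le_sup_right : ψ.fieldRange ≤ F).trans hF)).comp
      ψ.rangeRestrict

end NST
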