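import Pool.Agent.NST.TB

/-!
NST, target CH: every valuation subring of a field is the comap of a valuation subring along a field
homomorphism (Chevalley's extension theorem).
-/

set_option autoImplicit false

namespace NST

/-- The image of the nonunits of `V` as an ideal of the image of `V`. -/
def CH_I {L L' : Type} [Field L] [Field L'] (f : L →+* L') (V : ValuationSubring L) :
    Ideal (V.toSubring.map f) where
  carrier := {a | ∃ x ∈ V.nonunits, f x = (a : L')}
  add_mem' := by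
    rintro a b ⟨x, hx, hxa⟩ ⟨y, hy, hyb⟩
    exact ⟨x + y, V.nonunits.add_mem hx hy, by rw [map_add, hxa, hyb]; rfl⟩
  zero_mem' := ⟨0, V.nonunits.zero_mem, by rw [map_zero]; rfl⟩
  smul_mem' := by
    rintro ⟨c, y, hy, rfl⟩ a ⟨x, hx, hxa⟩
    refine ⟨y * x, ?_, by rw [map_mul, hxa]; rfl⟩
    have hy' : V.valuation y ≤ 1 := (V.valuation_le_one_iff y).mpr hy
    rw [ValuationSubring.mem_nonunits_iff, map_mul]
    exact lt_of_le_of_lt (mul_le_of_le_one_left' hy') (V.mem_nonunits_iff.mp hx)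

theorem CH_I_ne_top {L L' : Type} [Field L] [Field L'] (f : L →+* L') (V : ValuationSubring L) :
    CH_I f V ≠ ⊤ := by
  intro h
  have h1 : (1 : V.toSubring.map f) ∈ CH_I f V := by rw [h]; trivial
  obtain ⟨x, hx, hx1⟩ := h1
  have hx1' : f x = f 1 := by rw [hx1, map_one]; rfl
  have hx2 : x = 1 := f.injective hx1'
  rw [hx2, ValuationSubring.mem_nonunits_iff, map_one] at hx
  exact lt_irrefl _ hx

theorem p_CH : T_CH := by
  intro L L' _ _ f V
  obtain ⟨B, hAB, hIB⟩ := Ideal.image_subset_nonunits_valuationSubring (CH_I f V) (CH_I_ne_top f V)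
  refine ⟨B, ?_⟩
  apply le_antisymm
  · intro x hx
    by_contra hxV
    have hx0 : x ≠ 0 := by
      rintro rfl
      exact hxV V.zero_mem
    have hinv : x⁻¹ ∈ V.nonunits := V.inv_mem_nonunits_iff.mpr (Or.inr hxV)
    have hinvV : x⁻¹ ∈ V.toSubring := V.nonunits_subset hinv
    have hm : f x⁻¹ ∈ B.nonunits :=
      hIB ⟨⟨f x⁻¹, x⁻¹, hinvV, rfl⟩, ⟨x⁻¹, hinv, rfl⟩, rfl⟩
    rw [map_inv₀] at hm
    rcases B.inv_mem_nonunits_iff.mp hm with h0 | h1
    · exact hx0 ((map_eq_zero f).mp h0)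
    · exact h1 (ValuationSubring.mem_comap.mp hx)
  · intro x hx
    exact ValuationSubring.mem_comap.mpr (hAB ⟨x, hx, rfl⟩)

end NST
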