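import Pool.Agent.NST.TB

/-!
# NST, job CM: monadic valuation rings are minimal
-/

set_option autoImplicit false

noncomputable section

namespace NST

open Filter Polynomial

/-- diagonal sequences lie in all the standard sets -/
theorem CM_diag {M : Type} {D : ℕ → Set M} (hD : Antitone D) {x : ℕ → M}
    (hx : ∀ᶠ n in (Uf : Filter ℕ), x n ∈ D n) (i : ℕ) : mk x ∈ St (D i) := by
  rw [mem_St]
  filter_upwards [hx, eventually_ge i] with n hn hi
  exact hD hi hn

/-- dividing by a standard element is continuous -/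
theorem CM_div {M : Type} [Field M] {V : ValuationSubring (Lx M)} (hc : ∀ u : M, cst u ∈ V)
    {D : ℕ → Set M} (hD : Antitone D) (hV : ∀ x, x ∈ V.nonunits ↔ ∀ i, x ∈ St (D i)) (m : M)
    (n : ℕ) : ∃ j, ∀ x ∈ D j, x / m ∈ D n := by
  by_contra hcon
  push Not at hcon
  choose x hx hx' using hcon
  have h1 : mk x ∈ V.nonunits :=
    (hV _).2 (CM_diag hD (Eventually.of_forall hx))
  have h2 : mk x * cst m⁻¹ ∈ V.nonunits := nu_mul' h1 (hc _)
  have h3 : (mk fun k => x k * m⁻¹) ∈ St (D n) := (hV _).1 h2 n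
  rw [mem_St] at h3
  obtain ⟨k, hk⟩ := h3.exists
  rw [← div_eq_mul_inv] at hk
  exact hx' k hk

theorem p_CM : T_CM := by
  intro M _ V W hV hW hle
  obtain ⟨D, hD, hDV⟩ := hV.mon
  obtain ⟨G, -, hGW⟩ := hW.mon
  refine le_antisymm hle (le_of_nu fun x hx => ?_)
  suffices hsub : ∀ i, ∃ j, D j ⊆ G i by
    rw [hGW]
    intro i
    obtain ⟨j, hj⟩ := hsub i
    exact St_mono hj ((hDV x).1 hx j)
  intro i
  by_contra hcon
  push Not at hcon
  obtain ⟨s, hs0, hs⟩ := ne_top_iff.1 hW.ne_top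
  obtain ⟨s', rfl⟩ := exists_mk s
  have hz : ∀ n, ∃ z, z ∉ G i ∧ z / s' n ∈ D n := by
    intro n
    obtain ⟨j, hj⟩ := CM_div hV.cst_mem hD hDV (s' n) n
    obtain ⟨z, hz, hz'⟩ := Set.not_subset.1 (hcon j)
    exact ⟨z, hz', hj z hz⟩
  choose z hz hz' using hz
  have h1 : mk z / mk s' ∈ V.nonunits :=
    (hDV _).2 (CM_diag hD (Eventually.of_forall hz'))
  have h2 : mk z ∈ W.nonunits := by
    have h3 : mk z / mk s' * mk s' ∈ W.nonunits := nu_mul (hle (nu_mem h1)) hs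
    rwa [div_mul_cancel₀ _ hs0] at h3
  have h4 := (hGW _).1 h2 i
  rw [mem_St] at h4
  obtain ⟨n, hn⟩ := h4.exists
  exact hz n hn

end NST
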