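import Pool.Agent.NST.TB

set_option autoImplicit false

noncomputable section

namespace NST

open Filter Polynomial

theorem p_CN (h1 : T_UB) (h2 : T_UM) (h3 : T_CC) : T_CN := by
  intro E E' _ _ _ n b V z
  have hn : 0 < n := by
    rcases Nat.eq_zero_or_pos n with h | h
    · subst h
      exfalso
      have h0 : (1 : E') = 0 := by
        rw [← b.sum_repr (1 : E')]
        simp
      exact one_ne_zero h0
    · exact h
  obtain ⟨z', rfl⟩ := exists_mk z
  obtain ⟨hind, -, hmul, -⟩ := h1 E E' n b
  have key := h3 (Lx E) (Lx E') (mapR (algebraMap E E')) V n (fun i => cst (b i))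
    (Matrix.of fun i j => (mk fun m => Algebra.leftMulMatrix b (z' m) i j : Lx E)) (mk z') hn hind
    (fun j => by
      have := hmul (mk z') j
      exact this)
  rw [key]
  have h4 := (h2 E n (fun m => Algebra.leftMulMatrix b (z' m))).2
  constructor
  · intro h i hi
    have h5 := h i hi
    rw [h4 i] at h5
    exact h5
  · intro h i hi
    rw [h4 i]
    exact h i hi

end NST
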