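import Pool.Agent.NST.TB

set_option autoImplicit false

noncomputable section

namespace NST

namespace CO_

variable {L L' : Type} [Field L] [Field L']

/-- the subring `f(O₁) + A₂.nonunits` -/
def rg (f : L →+* L') (O₁ : ValuationSubring L) (A₂ : ValuationSubring L')
    (h : ∀ a ∈ O₁, f a ∈ A₂) : Subring L' where
  carrier := {x | ∃ a ∈ O₁, ∃ z ∈ A₂.nonunits, x = f a + z}
  mul_mem' := by
    rintro _ _ ⟨a, ha, z, hz, rfl⟩ ⟨b, hb, w, hw, rfl⟩
    refine ⟨a * b, O₁.mul_mem _ _ ha hb, f a * w + z * f b + z * w, ?_, ?_⟩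
    · exact A₂.nonunits.add_mem (A₂.nonunits.add_mem (nu_mul (h a ha) hw) (nu_mul' hz (h b hb)))
        (nu_mul (nu_mem hz) hw)
    · rw [map_mul]
      ring
  one_mem' := ⟨1, O₁.one_mem, 0, A₂.nonunits.zero_mem, by simp⟩
  add_mem' := by
    rintro _ _ ⟨a, ha, z, hz, rfl⟩ ⟨b, hb, w, hw, rfl⟩
    refine ⟨a + b, O₁.add_mem _ _ ha hb, z + w, A₂.nonunits.add_mem hz hw, ?_⟩
    rw [map_add]
    ring
  zero_mem' := ⟨0, O₁.zero_mem, 0, A₂.nonunits.zero_mem, by simp⟩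
  neg_mem' := by
    rintro _ ⟨a, ha, z, hz, rfl⟩
    refine ⟨-a, O₁.neg_mem _ ha, -z, A₂.nonunits.neg_mem hz, ?_⟩
    rw [map_neg]
    ring

/-- the ideal `f(O₁.nonunits) + A₂.nonunits` -/
def idl (f : L →+* L') (O₁ : ValuationSubring L) (A₂ : ValuationSubring L')
    (h : ∀ a ∈ O₁, f a ∈ A₂) : Ideal (rg f O₁ A₂ h) where
  carrier := {x | ∃ a ∈ O₁.nonunits, ∃ z ∈ A₂.nonunits, (x : L') = f a + z}
  add_mem' := by
    rintro x y ⟨a, ha, z, hz, hx⟩ ⟨b, hb, w, hw, hy⟩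
    refine ⟨a + b, O₁.nonunits.add_mem ha hb, z + w, A₂.nonunits.add_mem hz hw, ?_⟩
    rw [Subring.coe_add, hx, hy, map_add]
    ring
  zero_mem' := ⟨0, O₁.nonunits.zero_mem, 0, A₂.nonunits.zero_mem, by simp⟩
  smul_mem' := by
    rintro ⟨r, b, hb, w, hw, rfl⟩ x ⟨a, ha, z, hz, hx⟩
    refine ⟨b * a, nu_mul hb ha, f b * z + w * f a + w * z, ?_, ?_⟩
    · exact A₂.nonunits.add_mem (A₂.nonunits.add_mem (nu_mul (h b hb) hz)
        (nu_mul' hw (h a (nu_mem ha)))) (nu_mul (nu_mem hw) hz)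
    · rw [smul_eq_mul, Subring.coe_mul, hx, map_mul]
      ring

end CO_

open CO_ in
theorem p_CO : T_CO := by
  intro L L' _ _ f O₁ O₂ A₂ hle hcom
  have h : ∀ a ∈ O₁, f a ∈ A₂ := by
    intro a ha
    have h1 : a ∈ O₂ := hle ha
    rw [← hcom] at h1
    exact h1
  have hI : idl f O₁ A₂ h ≠ ⊤ := by
    intro htop
    have h1 : (1 : rg f O₁ A₂ h) ∈ idl f O₁ A₂ h := by
      rw [htop]
      trivial
    obtain ⟨a, ha, z, hz, h2⟩ := h1
    have h3 : f (1 - a) ∈ A₂.nonunits := by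
      rw [map_sub, map_one]
      have : (1 : L') - f a = z := by
        rw [Subring.coe_one] at h2
        rw [h2]
        ring
      rw [this]
      exact hz
    have h4 : 1 - a ∈ O₂.nonunits := by
      rw [← hcom]
      exact (nu_comap f).2 h3
    have h5 : 1 - a ∈ O₁.nonunits := nu_of_le hle h4
    have h6 := O₁.nonunits.add_mem h5 ha
    rw [sub_add_cancel] at h6
    exact one_notMem_nu h6
  obtain ⟨A₁, hR, hP⟩ := Ideal.image_subset_nonunits_valuationSubring (idl f O₁ A₂ h) hI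
  have hmem : ∀ x ∈ rg f O₁ A₂ h, x ∈ A₁ := fun x hx => hR hx
  have hnu : ∀ a ∈ O₁.nonunits, ∀ z ∈ A₂.nonunits, f a + z ∈ A₁.nonunits := by
    intro a ha z hz
    apply hP
    exact ⟨⟨f a + z, a, nu_mem ha, z, hz, rfl⟩, ⟨a, ha, z, hz, rfl⟩, rfl⟩
  refine ⟨A₁, ?_, ?_⟩
  · apply le_of_nu
    intro x hx
    have := hnu 0 O₁.nonunits.zero_mem x hx
    rwa [map_zero, zero_add] at this
  · ext x
    constructor
    · intro hx
      have hx' : f x ∈ A₁ := hx
      by_contra hn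
      have h1 : x⁻¹ ∈ O₁.nonunits := inv_nu_of_notMem hn
      have h2 := hnu _ h1 0 A₂.nonunits.zero_mem
      rw [add_zero] at h2
      have h3 := nu_mul hx' h2
      have hx0 : x ≠ 0 := by
        rintro rfl
        exact hn O₁.zero_mem
      rw [← map_mul, mul_inv_cancel₀ hx0, map_one] at h3
      exact one_notMem_nu h3
    · intro hx
      show f x ∈ A₁
      apply hmem
      exact ⟨x, hx, 0, A₂.nonunits.zero_mem, by simp⟩

end NST
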