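import Pool.Agent.NST.TA

/-!
# NST: the Chinese remainder theorem for finitely many incomparable valuation rings
-/

set_option autoImplicit false

noncomputable section

namespace NST

theorem CR_pick {κ : Type} [Finite κ] (bad : κ → ℕ → Prop)
    (h : ∀ k c c', bad k c → bad k c' → c = c') : ∃ c, 0 < c ∧ ∀ k, ¬ bad k c := by
  have hf : (({0} : Set ℕ) ∪ ⋃ k, {c | bad k c}).Finite := by
    refine (Set.finite_singleton 0).union (Set.finite_iUnion fun k => ?_)
    refine Set.Subsingleton.finite ?_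
    intro c hc c' hc'
    exact h k c c' hc hc'
  obtain ⟨c, hc⟩ := hf.exists_notMem
  simp only [Set.mem_union, Set.mem_singleton_iff, Set.mem_iUnion, Set.mem_ofPred_eq, not_or,
    not_exists] at hc
  exact ⟨c, Nat.pos_of_ne_zero hc.1, hc.2⟩

theorem CR_mul1 {Γ : Type} [LinearOrderedCommGroupWithZero Γ] {a b : Γ} (ha : a ≤ 1) (hb : b < 1) :
    a * b < 1 :=
  lt_of_le_of_lt (mul_le_of_le_one_left' ha) hb

theorem CR_mul2 {Γ : Type} [LinearOrderedCommGroupWithZero Γ] {a b : Γ} (ha : a < 1) (hb : b ≤ 1) :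
    a * b < 1 :=
  lt_of_le_of_lt (mul_le_of_le_one_right' hb) ha

section Val

variable {L Γ : Type} [Field L] [CharZero L] [LinearOrderedCommGroupWithZero Γ]

theorem CR_natle (v : Valuation L Γ) (c : ℕ) : v (c : L) ≤ 1 := by
  induction c with
  | zero => simp
  | succ c ih =>
    push_cast
    exact (v.map_add _ _).trans (max_le ih (by simp))

theorem CR_nat (v : Valuation L Γ) (h : ∀ c : ℕ, 0 < c → v ((c : L)⁻¹) ≤ 1) (c : ℕ) (hc : 0 < c) :
    v (c : L) = 1 := by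
  refine le_antisymm (CR_natle v c) ?_
  have h1 := h c hc
  rw [map_inv₀] at h1
  have hne : v (c : L) ≠ 0 := by
    rw [Valuation.ne_zero_iff]
    exact_mod_cast hc.ne'
  exact (inv_le_one₀ (zero_lt_iff.mpr hne)).mp h1

theorem CR_uniq (v : Valuation L Γ) (h : ∀ c : ℕ, 0 < c → v ((c : L)⁻¹) ≤ 1) (x : L) (c c' : ℕ)
    (h1 : v (x + c) < 1) (h2 : v (x + c') < 1) : c = c' := by
  by_contra hne
  wlog hlt : c < c' generalizing c c'
  · exact this c' c h2 h1 (Ne.symm hne) (lt_of_le_of_ne (not_lt.mp hlt) (Ne.symm hne))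
  have e : ((c' - c : ℕ) : L) = (x + c') - (x + c) := by
    rw [Nat.cast_sub hlt.le]; ring
  have h3 : v ((c' - c : ℕ) : L) < 1 := by
    rw [e]
    exact lt_of_le_of_lt (v.map_sub _ _) (max_lt h2 h1)
  rw [CR_nat v h _ (Nat.sub_pos_of_lt hlt)] at h3
  exact lt_irrefl _ h3

omit [CharZero L] in
/-- adding an element of value `1` to one of larger value -/
theorem CR_big (v : Valuation L Γ) {x y : L} (hx : 1 < v x) (hy : v y ≤ 1) : v (x + y) = v x := by
  exact v.map_add_eq_of_lt_left (lt_of_le_of_lt hy hx)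

omit [CharZero L] in
theorem CR_one (v : Valuation L Γ) {x y : L} (hy : v y = 1) (h : v (x - y) < 1) : v x = 1 := by
  have h1 : v ((x - y) + y) = v y := v.map_add_eq_of_lt_right (by rw [hy]; exact h)
  rw [sub_add_cancel, hy] at h1
  exact h1

end Val

section Fam

variable {L : Type} [Field L] [CharZero L] {n : ℕ} (V : Fin n → ValuationSubring L)

theorem CR_inv (hc : ∀ k, ∀ c : ℕ, 0 < c → ((c : L))⁻¹ ∈ V k) (x : L) :
    ∃ c : ℕ, 0 < c ∧ x + c ≠ 0 ∧ ∀ k, 1 ≤ (V k).valuation (x + c) := by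
  obtain ⟨c, h0, h⟩ := CR_pick (κ := Option (Fin n))
    (fun k c => match k with
      | none => x + (c : L) = 0
      | some k => (V k).valuation (x + c) < 1) (by
    intro k c c' h1 h2
    cases k with
    | none =>
      have h3 : (c : L) = c' := add_left_cancel ((show x + (c : L) = 0 from h1).trans
        (show x + (c' : L) = 0 from h2).symm)
      exact_mod_cast h3
    | some k =>
      exact CR_uniq _ (fun c hc' => (ValuationSubring.valuation_le_one_iff _ _).mpr (hc k c hc'))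
        x c c' h1 h2)
  exact ⟨c, h0, h none, fun k => not_lt.mp (h (some k))⟩

/-- (1) in terms of inverses -/
theorem CR_inv' (hc : ∀ k, ∀ c : ℕ, 0 < c → ((c : L))⁻¹ ∈ V k) (x : L) :
    ∃ c : ℕ, 0 < c ∧ x + c ≠ 0 ∧ ∀ k, (V k).valuation ((x + c)⁻¹) ≤ 1 := by
  obtain ⟨c, h0, h1, h2⟩ := CR_inv V hc x
  refine ⟨c, h0, h1, fun k => ?_⟩
  rw [map_inv₀]
  exact inv_le_one_of_one_le₀ (h2 k)

theorem CR_nat' (hc : ∀ k, ∀ c : ℕ, 0 < c → ((c : L))⁻¹ ∈ V k) (k : Fin n) (c : ℕ) (h0 : 0 < c) :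
    (V k).valuation (c : L) = 1 :=
  CR_nat _ (fun c h => (ValuationSubring.valuation_le_one_iff _ _).mpr (hc k c h)) c h0

/-- `r ∈ R`, small at `j`, a unit at `i` -/
theorem CR_half (hc : ∀ k, ∀ c : ℕ, 0 < c → ((c : L))⁻¹ ∈ V k) (i j : Fin n)
    (hij : ¬ V i ≤ V j) :
    ∃ r : L, (∀ k, (V k).valuation r ≤ 1) ∧ (V j).valuation r < 1 ∧ (V i).valuation r = 1 := by
  obtain ⟨a, hai, haj⟩ := SetLike.not_le_iff_exists.mp hij
  have hai' : (V i).valuation a ≤ 1 := (ValuationSubring.valuation_le_one_iff _ _).mpr hai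
  have haj' : 1 < (V j).valuation a := by
    rw [← not_le]
    exact fun h => haj ((ValuationSubring.valuation_le_one_iff _ _).mp h)
  obtain ⟨c, h0, h1, h2⟩ := CR_inv V hc a
  refine ⟨(a + c)⁻¹, fun k => ?_, ?_, ?_⟩
  · rw [map_inv₀]
    exact inv_le_one_of_one_le₀ (h2 k)
  · rw [map_inv₀, CR_big _ haj' (CR_nat' V hc j c h0).le]
    exact inv_lt_one_of_one_lt₀ haj'
  · have h3 : (V i).valuation (a + c) ≤ 1 :=
      ((V i).valuation.map_add _ _).trans (max_le hai' (CR_nat' V hc i c h0).le)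
    rw [map_inv₀, le_antisymm h3 (h2 i), inv_one]

/-- (2) -/
theorem CR_two (hc : ∀ k, ∀ c : ℕ, 0 < c → ((c : L))⁻¹ ∈ V k) (i j : Fin n)
    (hij : ¬ V i ≤ V j) (hji : ¬ V j ≤ V i) :
    ∃ e : L, (∀ k, (V k).valuation e ≤ 1) ∧ (V i).valuation e < 1 ∧
      (V j).valuation (e - 1) < 1 := by
  obtain ⟨r, hr, hrj, hri⟩ := CR_half V hc i j hij
  obtain ⟨s, hs, hsi, hsj⟩ := CR_half V hc j i hji
  have hyj : (V j).valuation (r / s) < 1 := by
    rw [map_div₀, hsj, div_one]; exact hrj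
  have hs0 : (V i).valuation s ≠ 0 := by
    rw [Valuation.ne_zero_iff]
    rintro rfl
    rw [map_zero] at hsj
    exact zero_ne_one hsj
  have hyi : 1 < (V i).valuation (r / s) := by
    rw [map_div₀, hri, one_div]
    exact (one_lt_inv₀ (zero_lt_iff.mpr hs0)).mpr hsi
  obtain ⟨c, h0, h1, h2⟩ := CR_inv V hc (r / s)
  have hcv : ∀ k, (V k).valuation (c : L) = 1 := fun k => CR_nat' V hc k c h0
  refine ⟨c * (r / s + c)⁻¹, fun k => ?_, ?_, ?_⟩
  · rw [map_mul, hcv, one_mul, map_inv₀]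
    exact inv_le_one_of_one_le₀ (h2 k)
  · rw [map_mul, hcv, one_mul, map_inv₀, CR_big _ hyi (hcv i).le]
    exact inv_lt_one_of_one_lt₀ hyi
  · have e1 : (c : L) * (r / s + c)⁻¹ - 1 = -((r / s) * (r / s + c)⁻¹) := by
      field_simp
      ring
    have h3 : (V j).valuation (r / s + c) = 1 := by
      rw [(V j).valuation.map_add_eq_of_lt_right (by rw [hcv]; exact hyj), hcv]
    rw [e1, Valuation.map_neg, map_mul, map_inv₀, h3, inv_one, mul_one]
    exact hyj

/-- (3) -/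
theorem CR_three (hV : ∀ k l, k ≠ l → ¬ V k ≤ V l)
    (hc : ∀ k, ∀ c : ℕ, 0 < c → ((c : L))⁻¹ ∈ V k) (j : Fin n) :
    ∃ f : L, (∀ k, (V k).valuation f ≤ 1) ∧ (∀ i, i ≠ j → (V i).valuation f < 1) ∧
      (V j).valuation (f - 1) < 1 := by
  classical
  have h : ∀ i, i ≠ j → ∃ e : L, (∀ k, (V k).valuation e ≤ 1) ∧ (V i).valuation e < 1 ∧
      (V j).valuation (e - 1) < 1 :=
    fun i hi => CR_two V hc i j (hV i j hi) (hV j i hi.symm)
  choose! e he1 he2 he3 using h
  refine ⟨∏ i ∈ Finset.univ.erase j, e i, fun k => ?_, fun i hi => ?_, ?_⟩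
  · rw [map_prod]
    exact Finset.prod_le_one' fun i hi => he1 i (Finset.ne_of_mem_erase hi) k
  · rw [← Finset.mul_prod_erase _ _ (Finset.mem_erase.mpr ⟨hi, Finset.mem_univ i⟩), map_mul, map_prod]
    refine CR_mul2 (he2 i hi) (Finset.prod_le_one' fun l hl => ?_)
    exact he1 l (Finset.ne_of_mem_erase (Finset.mem_of_mem_erase hl)) i
  · refine Finset.prod_induction _ (fun x => (V j).valuation (x - 1) < 1) ?_ ?_ ?_
    · intro x y hx hy
      have e2 : x * y - 1 = (x - 1) * y + (y - 1) := by ring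
      have hy1 : (V j).valuation y = 1 := CR_one _ (map_one _) hy
      rw [e2]
      refine lt_of_le_of_lt (Valuation.map_add _ _ _) (max_lt ?_ hy)
      rw [map_mul, hy1, mul_one]
      exact hx
    · simp
    · intro i hi
      exact he3 i (Finset.ne_of_mem_erase hi)

/-- (4) -/
theorem CR_four (hc : ∀ k, ∀ c : ℕ, 0 < c → ((c : L))⁻¹ ∈ V k) (k : Fin n) (f : L)
    (hf2 : ∀ i, i ≠ k → (V i).valuation f < 1)
    (hf3 : (V k).valuation (f - 1) < 1) (a : L) (ha : a ∈ V k) :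
    ∃ a' : L, (∀ i, (V i).valuation a' ≤ 1) ∧ (V k).valuation (a' - a) < 1 := by
  have ha' : (V k).valuation a ≤ 1 := (ValuationSubring.valuation_le_one_iff _ _).mpr ha
  obtain ⟨c, h0, h1, h2⟩ := CR_inv V hc a
  have hcv : ∀ k, (V k).valuation (c : L) = 1 := fun k => CR_nat' V hc k c h0
  set r : L := (a + c)⁻¹ with hr
  have hr1 : ∀ i, (V i).valuation r ≤ 1 := fun i => by
    rw [hr, map_inv₀]; exact inv_le_one_of_one_le₀ (h2 i)
  have hrk : (V k).valuation r = 1 := by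
    have h3 : (V k).valuation (a + c) ≤ 1 :=
      ((V k).valuation.map_add _ _).trans (max_le ha' (hcv k).le)
    rw [hr, map_inv₀, le_antisymm h3 (h2 k), inv_one]
  have hr0 : r ≠ 0 := inv_ne_zero h1
  have hr2 : ∀ i, (V i).valuation (r - 1) ≤ 1 := fun i =>
    ((V i).valuation.map_sub _ _).trans (max_le (hr1 i) (by rw [map_one]))
  set u : L := r * f + (1 - f) with hu
  have huk' : (V k).valuation (u - r) < 1 := by
    have e1 : u - r = (r - 1) * (f - 1) := by rw [hu]; ring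
    rw [e1, map_mul]
    exact CR_mul1 (hr2 k) hf3
  have huv : ∀ i, (V i).valuation u = 1 := by
    intro i
    by_cases hi : i = k
    · subst hi
      exact CR_one _ hrk huk'
    · refine CR_one _ (map_one _) ?_
      have e1 : u - 1 = (r - 1) * f := by rw [hu]; ring
      rw [e1, map_mul]
      exact CR_mul1 (hr2 i) (hf2 i hi)
  have hu0 : u ≠ 0 := by
    intro h
    have := huv k
    rw [h, map_zero] at this
    exact zero_ne_one this
  have hcr : ∀ i, (V i).valuation (1 - c * r) ≤ 1 := fun i =>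
    ((V i).valuation.map_sub _ _).trans (max_le (by rw [map_one])
      (by rw [map_mul, hcv, one_mul]; exact hr1 i))
  refine ⟨(1 - c * r) * u⁻¹, fun i => ?_, ?_⟩
  · rw [map_mul, map_inv₀, huv, inv_one, mul_one]
    exact hcr i
  · have e1 : a = (1 - c * r) * r⁻¹ := by
      rw [hr]
      field_simp
      ring
    have e2 : (1 - c * r) * u⁻¹ - a = -((1 - c * r) * (u - r) * (u⁻¹ * r⁻¹)) := by
      conv_lhs => rw [e1]
      field_simp
      ring
    rw [e2, Valuation.map_neg, map_mul, map_mul, map_mul, map_inv₀, map_inv₀, huv, hrk, inv_one,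
      mul_one, mul_one]
    exact CR_mul1 (hcr k) huk'

theorem CR_main (hV : ∀ k l, k ≠ l → ¬ V k ≤ V l)
    (hc : ∀ k, ∀ c : ℕ, 0 < c → ((c : L))⁻¹ ∈ V k) :
    (∀ x : L, ∃ c : ℕ, 0 < c ∧ x + c ≠ 0 ∧ ∀ k, (x + c)⁻¹ ∈ V k) ∧
    ∀ a : Fin n → L, (∀ k, a k ∈ V k) →
      ∃ x : L, (∀ k, x ∈ V k) ∧ ∀ k, x - a k ∈ (V k).nonunits := by
  refine ⟨fun x => ?_, fun a ha => ?_⟩
  · obtain ⟨c, h0, h1, h2⟩ := CR_inv' V hc x
    exact ⟨c, h0, h1, fun k => (ValuationSubring.valuation_le_one_iff _ _).mp (h2 k)⟩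
  · choose f hf1 hf2 hf3 using CR_three V hV hc
    have h4 : ∀ k, ∃ a' : L, (∀ i, (V i).valuation a' ≤ 1) ∧ (V k).valuation (a' - a k) < 1 :=
      fun k => CR_four V hc k (f k) (fun i hi => hf2 k i hi) (hf3 k) (a k) (ha k)
    choose b hb1 hb2 using h4
    refine ⟨∑ k, f k * b k, fun i => ?_, fun k => ?_⟩
    · rw [← ValuationSubring.valuation_le_one_iff]
      refine Valuation.map_sum_le _ fun k _ => ?_
      rw [map_mul]
      exact mul_le_one' (hf1 k i) (hb1 k i)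
    · rw [ValuationSubring.mem_nonunits_iff]
      have e1 : ∑ l, f l * b l - a k =
          ((f k - 1) * b k + (b k - a k)) + ∑ l ∈ Finset.univ.erase k, f l * b l := by
        rw [← Finset.add_sum_erase _ _ (Finset.mem_univ k)]
        ring
      rw [e1]
      refine lt_of_le_of_lt (Valuation.map_add _ _ _) (max_lt ?_ ?_)
      · refine lt_of_le_of_lt (Valuation.map_add _ _ _) (max_lt ?_ (hb2 k))
        rw [map_mul]
        exact CR_mul2 (hf3 k) (hb1 k k)
      · refine Valuation.map_sum_lt _ one_ne_zero fun l hl => ?_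
        rw [map_mul]
        exact CR_mul2 (hf2 l k (Finset.ne_of_mem_erase hl).symm) (hb1 l k)

end Fam

/-- the statement of CR in characteristic zero -/
theorem p_CR0 : ∀ (L : Type) [Field L] [CharZero L] (n : ℕ) (V : Fin n → ValuationSubring L),
    (∀ k l, k ≠ l → ¬ V k ≤ V l) → (∀ k, ∀ c : ℕ, 0 < c → ((c : L))⁻¹ ∈ V k) →
    (∀ x : L, ∃ c : ℕ, 0 < c ∧ x + c ≠ 0 ∧ ∀ k, (x + c)⁻¹ ∈ V k) ∧
    ∀ a : Fin n → L, (∀ k, a k ∈ V k) →
      ∃ x : L, (∀ k, x ∈ V k) ∧ ∀ k, x - a k ∈ (V k).nonunits :=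
  fun _ _ _ _ V hV hc => CR_main V hV hc

theorem p_CR : T_CR := p_CR0

end NST
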