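import Pool.Agent.NST.TA

/-!
# NST-CX: boundedly many pairwise comaximal nonunits
-/

set_option autoImplicit false

noncomputable section

namespace NST

open Filter Polynomial

namespace CX_

variable {M G : Type} [Field M] [CommGroupWithZero G] [Finite G]

/-- `Fs F` is zero only at zero -/
lemma Fs_ne_zero (F : M →*₀ G) {x : Lx M} (hx : x ≠ 0) : Fs F x ≠ 0 :=
  (map_ne_zero (Fs F)).2 hx

/-- `1 + e ≠ 0` for infinitesimal `e` -/
lemma one_add_ne {F : M →*₀ G} {R : Subring (Lx M)} (hR : Rg F R) {e : Lx M} (he : e ∈ II F) :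
    1 + e ≠ 0 := by
  intro h
  have h1 := hR.one e he
  rw [h, map_zero] at h1
  exact zero_ne_one h1

/-- finite sums of infinitesimals -/
lemma sum_mem {F : M →*₀ G} {R : Subring (Lx M)} (hR : Rg F R) {ι : Type} (s : Finset ι)
    (f : ι → Lx M) (h : ∀ i ∈ s, f i ∈ II F) : ∑ i ∈ s, f i ∈ II F := by
  classical
  induction s using Finset.induction_on with
  | empty => simpa using hR.zero
  | insert a s ha ih =>
    rw [Finset.sum_insert ha]
    exact hR.add _ (h a (Finset.mem_insert_self a s)) _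
      (ih fun i hi => h i (Finset.mem_insert_of_mem hi))

/-- the element belonging to one of several pairwise comaximal nonunits -/
lemma exists_c [CharZero M] (h1 : T_SE) (F : M →*₀ G) (d : ℕ) (hV : VCf F d) (hN : Ntr F)
    (R : Subring (Lx M)) (S : Finset M) (hR : Rg F R) (hS : SB F S) {N : ℕ} (p : Fin N → R)
    (hu : ∀ i, ¬ IsUnit (p i)) (h0 : ∀ i, (p i : Lx M) ≠ 0)
    (hc : ∀ i j, i ≠ j → IsCoprime (p i) (p j)) (i : Fin N) :
    ∃ c : Lx M, Fs F (1 + c / p i) ≠ 1 ∧ 1 + c / p i ≠ 0 ∧ (1 + c / p i)⁻¹ ∈ R ∧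
      ∀ j, j ≠ i → c / p j ∈ II F := by
  classical
  set q : R := ∏ j ∈ Finset.univ.erase i, p j with hq
  have hco : IsCoprime q (p i) := by
    rw [hq]
    exact IsCoprime.prod_left fun j hj => hc j i (Finset.ne_of_mem_erase hj)
  obtain ⟨α, β, hab⟩ := hco
  have hab' : (α : Lx M) * q + β * p i = 1 := by
    have := congrArg (Subtype.val : R → Lx M) hab
    simpa using this
  -- the inverse is not bounded
  have hinv : ((p i : Lx M))⁻¹ ∉ R := by
    intro h
    apply hu i
    refine IsUnit.of_mul_eq_one ⟨_, h⟩ ?_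
    apply Subtype.ext
    change (p i : Lx M) * (p i : Lx M)⁻¹ = 1
    exact mul_inv_cancel₀ (h0 i)
  rw [hR.mem] at hinv
  have hinv' : ∃ ε ∈ II F, Fs F (1 + ε * (p i : Lx M)⁻¹) ≠ 1 := by
    by_contra hcon
    push Not at hcon
    exact hinv hcon
  obtain ⟨ε, hε, hne⟩ := hinv'
  have hβε : (β : Lx M) * ε ∈ II F := hR.mul _ β.2 _ hε
  have hαε : (α : Lx M) * ε ∈ II F := hR.mul _ α.2 _ hε
  have hne1 : 1 + (β : Lx M) * ε ≠ 0 := one_add_ne hR hβε
  set ε' : Lx M := (1 + (β : Lx M) * ε)⁻¹ * ((α : Lx M) * ε) with hε'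
  have hε'I : ε' ∈ II F := hR.mul _ (hR.inv _ hβε) _ hαε
  set z : Lx M := ε' * q / p i with hz
  have hfac : 1 + ε * (p i : Lx M)⁻¹ = (1 + (β : Lx M) * ε) * (1 + z) := by
    have hpi := h0 i
    have e1 : (1 + (β : Lx M) * ε) * ε' = (α : Lx M) * ε := by
      rw [hε', mul_inv_cancel_left₀ hne1]
    have e2 : (1 + (β : Lx M) * ε) * (1 + z) =
        1 + (β : Lx M) * ε + ((1 + (β : Lx M) * ε) * ε') * q / p i := by
      rw [hz]
      ring
    rw [e2, e1]
    have e3 : (β : Lx M) = (1 - (α : Lx M) * q) / p i := by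
      rw [eq_div_iff hpi]
      linear_combination hab'
    rw [e3]
    ring
  have hz1 : Fs F (1 + z) ≠ 1 := by
    intro h
    apply hne
    rw [hfac, map_mul, h, mul_one]
    exact hR.one _ hβε
  have hzI : z ∉ II F := fun h => hz1 (hR.one z h)
  obtain ⟨m, hm1, hm2, hm3⟩ := h1 M G F d hV hN R S hR hS z hzI
  have hcz : cst m * (ε' * q) / p i = z * cst m := by
    rw [hz]
    ring
  refine ⟨cst m * (ε' * q), ?_, ?_, ?_, ?_⟩
  · rw [hcz]
    exact hm3
  · rw [hcz]
    exact hm1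
  · rw [hcz]
    have : (1 + z * cst m)⁻¹ = 1 - cst m * (z / (1 + z * cst m)) := by
      field_simp
      ring
    rw [this]
    exact R.sub_mem R.one_mem (R.mul_mem (hR.cst m) hm2)
  · intro j hj
    have hdvd : p j ∣ q := by
      rw [hq]
      exact Finset.dvd_prod_of_mem p (Finset.mem_erase.2 ⟨hj, Finset.mem_univ j⟩)
    obtain ⟨r, hr⟩ := hdvd
    have hr' : (q : Lx M) = p j * r := by
      have := congrArg (Subtype.val : R → Lx M) hr
      simpa using this
    have : cst m * (ε' * q) / p j = (cst m * (r : Lx M)) * ε' := by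
      rw [hr', div_eq_iff (h0 j)]
      ring
    rw [this]
    exact hR.mul _ (R.mul_mem (hR.cst m) r.2) _ hε'I

end CX_

open CX_ in
/-- boundedly many pairwise comaximal nonunits -/
theorem p_CX (h1 : T_SE) : T_CX := by
  classical
  intro M G _ _ _ _ F d hV hN R S hR hS
  cases nonempty_fintype G
  refine ⟨(d + 1) * Fintype.card G + 2, fun p hu => ?_⟩
  by_contra hcon
  push Not at hcon
  have hc : ∀ i j, i ≠ j → IsCoprime (p i) (p j) := hcon
  have h0' : ∀ i, p i ≠ 0 := by
    intro i hi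
    obtain ⟨j, hj⟩ : ∃ j : Fin ((d + 1) * Fintype.card G + 2), i ≠ j := by
      have : Nontrivial (Fin ((d + 1) * Fintype.card G + 2)) :=
        Fin.nontrivial_iff_two_le.2 (by omega)
      obtain ⟨j, hj⟩ := exists_ne i
      exact ⟨j, hj.symm⟩
    have h := hc i j hj
    rw [hi, isCoprime_zero_left] at h
    exact hu j h
  have h0 : ∀ i, (p i : Lx M) ≠ 0 := fun i h => h0' i (Subtype.ext h)
  have hex := exists_c h1 F d hV hN R S hR hS p hu h0 hc
  choose c hc1 hc2 hc3 hc4 using hex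
  -- the values
  have key : ∀ (i : Fin ((d + 1) * Fintype.card G + 2))
      (T : Finset (Fin ((d + 1) * Fintype.card G + 2))),
      Fs F ((p i : Lx M) + ∑ j ∈ T, c j) = Fs F (p i) ↔ i ∉ T := by
    intro i T
    have hoff : ∀ T' : Finset (Fin ((d + 1) * Fintype.card G + 2)), i ∉ T' →
        (∑ j ∈ T', c j) / p i ∈ II F := by
      intro T' hT'
      rw [Finset.sum_div]
      refine sum_mem hR _ _ fun j hj => hc4 j i ?_
      rintro rfl
      exact hT' hj
    constructor
    · intro h hi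
      have hsum : ∑ j ∈ T, c j = c i + ∑ j ∈ T.erase i, c j := (Finset.add_sum_erase T c hi).symm
      have ht := hoff (T.erase i) (Finset.notMem_erase i T)
      have hfac : (p i : Lx M) + ∑ j ∈ T, c j = p i * (1 + c i / p i) *
          (1 + (1 + c i / p i)⁻¹ * ((∑ j ∈ T.erase i, c j) / p i)) := by
        rw [hsum, mul_add, mul_one, mul_assoc (p i : Lx M), mul_inv_cancel_left₀ (hc2 i),
          mul_div_cancel₀ _ (h0 i), mul_add, mul_one, mul_div_cancel₀ _ (h0 i), add_assoc]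
      rw [hfac, map_mul, map_mul, hR.one _ (hR.mul _ (hc3 i) _ ht), mul_one] at h
      exact hc1 i (mul_left_cancel₀ (Fs_ne_zero F (h0 i)) (by rw [h, mul_one]))
    · intro hi
      have hfac : (p i : Lx M) + ∑ j ∈ T, c j = p i * (1 + (∑ j ∈ T, c j) / p i) := by
        rw [mul_add, mul_one, mul_div_cancel₀ _ (h0 i)]
      rw [hfac, map_mul, hR.one _ (hoff T hi), mul_one]
  -- pigeonhole
  obtain ⟨g, hg⟩ := Fintype.exists_lt_card_fiber_of_mul_lt_card
    (f := fun i : Fin ((d + 1) * Fintype.card G + 2) => Fs F (p i : Lx M)) (n := d) (by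
      rw [Fintype.card_fin]
      nlinarith)
  obtain ⟨i0, hi0⟩ : (Finset.univ.filter fun i => Fs F (p i : Lx M) = g).Nonempty :=
    Finset.card_pos.1 (by omega)
  have hg0 : g ≠ 0 := by
    rw [← (Finset.mem_filter.1 hi0).2]
    exact Fs_ne_zero F (h0 i0)
  obtain ⟨A, hA, hAc⟩ := Finset.exists_subset_card_eq hg.le
  let e : Fin d ↪o Fin ((d + 1) * Fintype.card G + 2) := A.orderEmbOfFin hAc
  have heg : ∀ k, Fs F (p (e k) : Lx M) = g := fun k =>
    (Finset.mem_filter.1 (hA (A.orderEmbOfFin_mem hAc k))).2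
  have hxy : ∀ (k : Fin d) (T : Finset (Fin d)),
      Fs F ((p (e k) : Lx M) + ∑ j ∈ (Tᶜ).map e.toEmbedding, c j) = g ↔ k ∈ T := by
    intro k T
    rw [← heg k, key (e k) ((Tᶜ).map e.toEmbedding)]
    simp
  choose x' hx' using fun k : Fin d => exists_mk (p (e k) : Lx M)
  choose y' hy' using fun T : Finset (Fin d) =>
    exists_mk (∑ j ∈ (Tᶜ).map e.toEmbedding, c j : Lx M)
  have hev : ∀ k T, ∀ᶠ n in (Uf : Filter ℕ), (F (x' k n + y' T n) = g ↔ k ∈ T) := by
    intro k T
    have h := hxy k T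
    rw [← hx' k, ← hy' T, mk_add, Fs_mk_iff] at h
    by_cases hk : k ∈ T
    · filter_upwards [h.2 hk] with n hn
      exact ⟨fun _ => hk, fun _ => hn⟩
    · have h' := not_eventually.1 (fun h2 => hk (h.1 h2))
      filter_upwards [h'] with n hn
      exact ⟨fun h2 => absurd h2 hn, fun h2 => absurd h2 hk⟩
  have hall : ∀ᶠ n in (Uf : Filter ℕ), ∀ k T, (F (x' k n + y' T n) = g ↔ k ∈ T) :=
    eventually_all.2 fun k => eventually_all.2 fun T => hev k T
  obtain ⟨n, hn⟩ := hall.exists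
  exact hV (fun k => x' k n) (fun T => y' T n) g hg0 hn

end NST
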