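import Pool.Agent.NST.TB

/-!
# NST: target EM (extensions of monadic rings are monadic, and there are finitely many)
-/

set_option autoImplicit false

noncomputable section

namespace NST

open Filter Polynomial

namespace EM_

/-- the standard sets of the intersection of the maximal ideals of the extensions -/
def Dx {E E' : Type} [Field E] [Field E'] [Algebra E E'] {n : ℕ} (b : Module.Basis (Fin n) E E')
    (D : ℕ → Set E) (i : ℕ) : Set E' :=
  {z | ∀ j ∈ Finset.range n, (Algebra.leftMulMatrix b z).charpoly.coeff j ∈ D i}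

theorem Dx_antitone {E E' : Type} [Field E] [Field E'] [Algebra E E'] {n : ℕ}
    (b : Module.Basis (Fin n) E E') (D : ℕ → Set E) (h : Antitone D) : Antitone (Dx b D) := by
  intro i j hij z hz l hl
  exact h hij (hz l hl)

theorem mem_Dx {E E' : Type} [Field E] [Field E'] [Algebra E E'] {n : ℕ}
    (b : Module.Basis (Fin n) E E') (D : ℕ → Set E) (z : Lx E') (i : ℕ) :
    z ∈ St (Dx b D i) ↔ ∀ j, j < n →
      mapL (fun x => (Algebra.leftMulMatrix b x).charpoly.coeff j) z ∈ St (D i) := by
  obtain ⟨x, rfl⟩ := exists_mk z
  have h1 : mk x ∈ St (Dx b D i) ↔ ∀ j ∈ Finset.range n,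
      ∀ᶠ m in (Uf : Filter ℕ), (Algebra.leftMulMatrix b (x m)).charpoly.coeff j ∈ D i := by
    rw [mem_St]
    exact Finset.eventually_all _
  rw [h1]
  constructor
  · intro h j hj
    rw [mapL_mk, mem_St]
    exact h j (Finset.mem_range.2 hj)
  · intro h j hj
    have h2 := h j (Finset.mem_range.1 hj)
    rw [mapL_mk, mem_St] at h2
    exact h2

/-- constants are in every extension of a ring that contains the constants -/
theorem cst_mem {E E' : Type} [Field E] [Field E'] [Algebra E E'] [FiniteDimensional E E']
    (V : ValuationSubring (Lx E)) (hc : ∀ u : E, cst u ∈ V) (W : ValuationSubring (Lx E'))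
    (hW : W.comap (mapR (algebraMap E E')) = V) (u : E') : cst u ∈ W := by
  have hu : IsIntegral E u := Algebra.IsIntegral.isIntegral u
  have hp := minpoly.monic hu
  refine mem_of_root (mapR (algebraMap E E')) (hp.map (cstR : E →+* Lx E)) ?_ ?_
  · intro i _
    rw [coeff_map, cstR_apply]
    have h1 := hc ((minpoly E u).coeff i)
    rw [← hW] at h1
    exact h1
  · rw [eval₂_map]
    have h2 : (mapR (algebraMap E E')).comp (cstR : E →+* Lx E) =
        (cstR : E' →+* Lx E').comp (algebraMap E E') := by
      ext v
      rfl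
    have h3 : (cst u : Lx E') = (cstR : E' →+* Lx E') u := rfl
    rw [h2, h3, ← Polynomial.hom_eval₂]
    have h4 : eval₂ (algebraMap E E') u (minpoly E u) = 0 := minpoly.aeval E u
    rw [h4, map_zero]

end EM_

theorem p_EM (h1 : T_UB) (h2 : T_FE) (h3 : T_IC) (h4 : T_CN) (h5 : T_SP) : T_EM := by
  intro E E' _ _ _ _ _ V hV
  have hch : CharZero E' := charZero_of_injective_algebraMap (algebraMap E E').injective
  set b := Module.finBasis E E' with hb
  obtain ⟨-, -, -, hfin⟩ := h1 E E' _ b
  have hint : (mapR (algebraMap E E')).IsIntegral := hfin.to_isIntegral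
  have hRC : RC0 V := by
    intro c _
    have h := hV.cst_mem ((c : E)⁻¹)
    rw [cst_inv, cst_natCast] at h
    exact h
  have hS := h2 (Lx E) (Lx E') (mapR (algebraMap E E')) hfin V hRC
  refine ⟨hS, ?_⟩
  obtain ⟨m, W, hWi, hWr⟩ := hS.fin_param
  have hWm : ∀ k, (W k).comap (mapR (algebraMap E E')) = V := by
    intro k
    have h : W k ∈ Set.range W := ⟨k, rfl⟩
    rw [hWr] at h
    exact h
  obtain ⟨D, hD, hmem⟩ := hV.mon
  have key : ∀ k, Mon (W k) := by
    refine h5 E' m W (EM_.Dx b D) (EM_.Dx_antitone b D hD) ?_ ?_ ?_ ?_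
    · intro x
      have e1 : (∀ k, x ∈ (W k).nonunits) ↔
          ∀ V' : ValuationSubring (Lx E'), V'.comap (mapR (algebraMap E E')) = V →
            x ∈ V'.nonunits := by
        constructor
        · intro h V' hV'
          have h6 : V' ∈ Set.range W := by
            rw [hWr]
            exact hV'
          obtain ⟨k, rfl⟩ := h6
          exact h k
        · intro h k
          exact h _ (hWm k)
      rw [e1, h4 E E' _ b V x]
      constructor
      · intro h i
        rw [EM_.mem_Dx]
        intro j hj
        exact (hmem _).1 (h j hj) i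
      · intro h j hj
        rw [hmem]
        intro i
        exact (EM_.mem_Dx b D x i).1 (h i) j hj
    · intro k hk
      apply hV.ne_top
      rw [← hWm k, hk]
      rfl
    · intro k u
      exact EM_.cst_mem V hV.cst_mem (W k) (hWm k) u
    · intro k l hkl hle
      apply hkl
      apply hWi
      exact h3 (Lx E) (Lx E') (mapR (algebraMap E E')) hint (W k) (W l) hle
        ((hWm k).trans (hWm l).symm)
  intro V' hV'
  have h6 : V' ∈ Set.range W := by
    rw [hWr]
    exact hV'
  obtain ⟨k, rfl⟩ := h6
  exact key k

end NST
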