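import Pool.Agent.NST.TB

/-!
# NST: a valuation ring has finitely many extensions to a finite extension
-/

set_option autoImplicit false

noncomputable section

namespace NST

open Filter Polynomial

/-- elements which separate the valuation rings are linearly independent -/
theorem FE_indep {L L' : Type} [Field L] [Field L'] [Algebra L L'] (V : ValuationSubring L)
    (n : ℕ) (W : Fin n → ValuationSubring L')
    (hW : ∀ k, (W k).comap (algebraMap L L') = V) (e : Fin n → L')
    (he1 : ∀ k, e k - 1 ∈ (W k).nonunits) (he2 : ∀ k j, j ≠ k → e k ∈ (W j).nonunits) :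
    LinearIndependent L e := by
  classical
  rw [Fintype.linearIndependent_iff]
  intro g hg
  by_contra hc
  push Not at hc
  obtain ⟨i, hi⟩ := hc
  have : Nonempty (Fin n) := ⟨i⟩
  obtain ⟨l, hl⟩ := Finite.exists_max fun k => V.valuation (g k)
  have hgl : g l ≠ 0 := by
    intro h0
    have h1 := hl i
    rw [h0, map_zero] at h1
    exact hi ((map_eq_zero _).1 (le_antisymm h1 zero_le))
  have hc1 : ∀ k, g k / g l ∈ V := by
    intro k
    rw [← V.valuation_le_one_iff, map_div₀]
    exact div_le_one_of_le₀ (hl k) zero_le
  have hsum : ∑ k, algebraMap L L' (g k / g l) * e k = 0 := by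
    have h2 : ∑ k, algebraMap L L' (g k / g l) * e k =
        (algebraMap L L' (g l))⁻¹ * ∑ k, g k • e k := by
      rw [Finset.mul_sum]
      apply Finset.sum_congr rfl
      intro k _
      rw [Algebra.smul_def, map_div₀]
      ring
    rw [h2, hg, mul_zero]
  rw [← Finset.add_sum_erase _ _ (Finset.mem_univ l), div_self hgl, map_one, one_mul] at hsum
  have hel : e l = -∑ k ∈ Finset.univ.erase l, algebraMap L L' (g k / g l) * e k :=
    eq_neg_of_add_eq_zero_left hsum
  have hmem : e l ∈ (W l).nonunits := by
    rw [hel]
    apply neg_mem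
    apply sum_mem
    intro k hk
    have hkl : k ≠ l := (Finset.mem_erase.1 hk).1
    refine nu_mul ?_ (he2 k l hkl.symm)
    rw [← mem_comap', hW l]
    exact hc1 k
  exact notMem_nu_of_one (he1 l) hmem

theorem p_FE (h1 : T_CR) (h2 : T_IC) : T_FE := by
  classical
  intro L L' _ _ _ f hf V hV
  have : CharZero L' := charZero_of_injective_ringHom f.injective
  let _ := f.toAlgebra
  have : Module.Finite L L' := hf
  by_contra hinf
  have hinf' : {V' : ValuationSubring L' | V'.comap f = V}.Infinite := hinf
  set d := Module.finrank L L' with hd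
  let emb := hinf'.natEmbedding
  let W : Fin (d + 1) → ValuationSubring L' := fun k => (emb k).1
  have hW : ∀ k, (W k).comap (algebraMap L L') = V := fun k => (emb k).2
  have hinj : Function.Injective W := by
    intro k l hkl
    exact Fin.ext (emb.injective (Subtype.ext hkl))
  have hint : f.IsIntegral := hf.to_isIntegral
  have hinc : ∀ k l, k ≠ l → ¬ W k ≤ W l := by
    intro k l hkl hle
    exact hkl (hinj (h2 L L' f hint (W k) (W l) hle ((hW k).trans (hW l).symm)))
  have hrc : ∀ k, ∀ c : ℕ, 0 < c → ((c : L'))⁻¹ ∈ W k := by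
    intro k c hc
    have h3 := hV c hc
    rw [← hW k, mem_comap', map_inv₀, map_natCast] at h3
    exact h3
  have hcr := (h1 L' (d + 1) W hinc hrc).2
  have he : ∀ k : Fin (d + 1), ∃ x : L', (x - 1 ∈ (W k).nonunits) ∧
      ∀ j, j ≠ k → x ∈ (W j).nonunits := by
    intro k
    obtain ⟨x, -, hx⟩ := hcr (fun j => if j = k then 1 else 0) (by
      intro j
      split_ifs
      · exact (W j).one_mem
      · exact (W j).zero_mem)
    refine ⟨x, ?_, ?_⟩
    · have := hx k
      rwa [if_pos rfl] at this
    · intro j hj
      have := hx j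
      rwa [if_neg hj, sub_zero] at this
  choose e he1 he2 using he
  have hli := FE_indep V (d + 1) W hW e he1 he2
  have := hli.fintype_card_le_finrank
  rw [Fintype.card_fin, ← hd] at this
  omega

end NST
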