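import Pool.Agent.NST.TA

set_option autoImplicit false

namespace NST

/-- a Bezout domain in which every `N` nonunits contain a pair that is not coprime has finitely many
maximal ideals -/
theorem p_FM : T_FM := by
  intro R _ _ _ N hN
  by_contra hinf
  rw [not_finite_iff_infinite] at hinf
  let P : Fin N → MaximalSpectrum R := fun i => Infinite.natEmbedding (MaximalSpectrum R) i.val
  have hP : Function.Injective P := fun i j h =>
    Fin.ext ((Infinite.natEmbedding (MaximalSpectrum R)).injective h)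
  have hx : ∀ i j : Fin N, ∃ x : R,
      i ≠ j → x ∈ (P i).asIdeal ∧ 1 - x ∈ (P j).asIdeal := by
    intro i j
    by_cases hij : i = j
    · exact ⟨0, fun h => absurd hij h⟩
    · have hne : (P i).asIdeal ≠ (P j).asIdeal := fun h => hij (hP (MaximalSpectrum.ext h))
      have hsup : (P i).asIdeal ⊔ (P j).asIdeal = ⊤ :=
        Ideal.IsMaximal.coprime_of_ne (P i).isMaximal (P j).isMaximal hne
      have h1 : (1 : R) ∈ (P i).asIdeal ⊔ (P j).asIdeal := by rw [hsup]; trivial
      obtain ⟨a, ha, b, hb, hab⟩ := Submodule.mem_sup.1 h1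
      refine ⟨a, fun _ => ⟨ha, ?_⟩⟩
      rw [← hab, add_sub_cancel_left]
      exact hb
  choose x hx using hx
  classical
  let S : Fin N → Finset R := fun i =>
    ((Finset.univ.filter fun j => j ≠ i).image fun j => x i j) ∪
      ((Finset.univ.filter fun j => j ≠ i).image fun j => 1 - x j i)
  let I : Fin N → Ideal R := fun i => Ideal.span (S i : Set R)
  have hI : ∀ i, I i ≤ (P i).asIdeal := by
    intro i
    refine Ideal.span_le.2 ?_
    intro y hy
    have hy' : y ∈ S i := hy
    rcases Finset.mem_union.1 hy' with h | h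
    · obtain ⟨j, hj, rfl⟩ := Finset.mem_image.1 h
      exact (hx i j (Ne.symm (Finset.mem_filter.1 hj).2)).1
    · obtain ⟨j, hj, rfl⟩ := Finset.mem_image.1 h
      exact (hx j i (Finset.mem_filter.1 hj).2).2
  have hpr : ∀ i, ∃ p : R, I i = Ideal.span {p} := by
    intro i
    have : (I i).IsPrincipal := IsBezout.isPrincipal_of_FG (I i) ⟨S i, rfl⟩
    exact ⟨_, (Ideal.span_singleton_generator (I i)).symm⟩
  choose p hp using hpr
  obtain ⟨i, j, hij, hc⟩ := hN p (by
    intro i hu
    have h1 : p i ∈ I i := by rw [hp i]; exact Ideal.mem_span_singleton_self _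
    exact (P i).isMaximal.ne_top (Ideal.eq_top_of_isUnit_mem _ (hI i h1) hu))
  apply hc
  have h1 : x i j ∈ I i := Ideal.subset_span (Finset.mem_union_left _
    (Finset.mem_image_of_mem _ (Finset.mem_filter.2 ⟨Finset.mem_univ _, Ne.symm hij⟩)))
  have h2 : 1 - x i j ∈ I j := Ideal.subset_span (Finset.mem_union_right _
    (Finset.mem_image.2 ⟨i, Finset.mem_filter.2 ⟨Finset.mem_univ _, hij⟩, rfl⟩))
  rw [hp i, Ideal.mem_span_singleton] at h1
  rw [hp j, Ideal.mem_span_singleton] at h2
  obtain ⟨a, ha⟩ := h1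
  obtain ⟨b, hb⟩ := h2
  refine ⟨a, b, ?_⟩
  rw [mul_comm a, mul_comm b, ← ha, ← hb]
  ring

end NST
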