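import Pool.Agent.NST.TC

set_option autoImplicit false

noncomputable section

namespace NST

open Filter Polynomial

theorem FU_loc {E : Type} [Field E] {q : ℕ} {V : ValuationSubring (Lx E)} {w : Lx E}
    (h : LP q V w) : ∃ z, z ≠ 0 ∧ w * z ^ q - 1 ∈ V.nonunits := by
  obtain ⟨z, hz⟩ := h
  by_cases h0 : z = 0
  · subst h0
    rcases Nat.eq_zero_or_pos q with hq | hq
    · subst hq
      refine ⟨1, one_ne_zero, ?_⟩
      rw [pow_zero] at hz ⊢
      exact hz
    · exfalso
      have h1 := ne_zero_of_one hz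
      apply h1
      rw [zero_pow hq.ne', mul_zero]
  · exact ⟨z, h0, hz⟩

theorem p_FU (h1 : T_AA) : T_FU := by
  intro E _ _ q s hs w hw hloc
  rcases s.eq_empty_or_nonempty with he | ⟨V₀, hV₀⟩
  · subst he
    exact hs.pow w hw (fun V hV => absurd hV (Set.notMem_empty V))
  · have h2 : ∀ V : ValuationSubring (Lx E), ∃ z : Lx E, z ≠ 0 ∧
        (V ∈ s → w * z ^ q - 1 ∈ V.nonunits) := by
      intro V
      by_cases hV : V ∈ s
      · obtain ⟨z, hz, hz'⟩ := FU_loc (hloc V hV)
        exact ⟨z, hz, fun _ => hz'⟩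
      · exact ⟨1, one_ne_zero, fun h => absurd h hV⟩
    choose z hz0 hz using h2
    obtain ⟨x, hx⟩ := h1 E s hs.fin hs.mon z z (fun V _ => hz0 V)
    have hx' : ∀ V ∈ s, x / z V - 1 ∈ V.nonunits := by
      intro V hV
      have h3 := hx V hV
      have h4 : (x - z V) / z V = x / z V - 1 := by
        rw [sub_div, div_self (hz0 V)]
      rw [h4] at h3
      exact h3
    have hx0 : x ≠ 0 := by
      intro h0
      apply ne_zero_of_one (hx' V₀ hV₀)
      rw [h0, zero_div]
    have h5 : ∀ V ∈ s, w * x ^ q - 1 ∈ V.nonunits := by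
      intro V hV
      have h6 : w * x ^ q = (w * z V ^ q) * (x / z V) ^ q := by
        rw [div_pow, mul_assoc, mul_div_cancel₀ _ (pow_ne_zero q (hz0 V))]
      rw [h6]
      exact one_mul' (hz V hV) (one_pow' (hx' V hV) q)
    obtain ⟨y, hy⟩ := hs.pow (w * x ^ q) (mul_ne_zero hw (pow_ne_zero q hx0)) h5
    refine ⟨y / x, ?_⟩
    rw [div_pow, ← hy, mul_div_cancel_right₀ _ (pow_ne_zero q hx0)]

end NST
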