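import Pool.Agent.NST.TA

set_option autoImplicit false

namespace NST

theorem p_G0 : T_G0 := by
  intro M κ _ _ _ C T
  classical
  obtain ⟨a, ha, b, c, h⟩ := Combinatorics.exists_mono_homothetic_copy (insert (0 : M) T) C
  refine ⟨b, a, ha, ?_⟩
  intro t ht
  have h1 := h t (Finset.mem_insert_of_mem ht)
  have h0 := h 0 (Finset.mem_insert_self 0 T)
  rw [smul_zero, zero_add] at h0
  rw [nsmul_eq_mul, add_comm] at h1
  rw [h1, h0]

end NST
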