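import Pool.Agent.NST.TC

/-!
# NST-GA: going up in Galois extensions
-/

set_option autoImplicit false

noncomputable section

namespace NST

open Filter Polynomial

namespace GA_

theorem mapR_comp (E F N : Type) [Field E] [Field F] [Field N] [Algebra E F] [Algebra F N]
    [Algebra E N] [IsScalarTower E F N] :
    mapR (algebraMap E N) = (mapR (algebraMap F N)).comp (mapR (algebraMap E F)) := by
  ext x
  obtain ⟨x, rfl⟩ := exists_mk x
  rw [RingHom.comp_apply, mapR_mk, mapR_mk, mapR_mk]
  congr 1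
  funext n
  exact IsScalarTower.algebraMap_apply E F N (x n)

theorem comap_comp (E F N : Type) [Field E] [Field F] [Field N] [Algebra E F] [Algebra F N]
    [Algebra E N] [IsScalarTower E F N] (V : ValuationSubring (Lx N)) :
    (V.comap (mapR (algebraMap F N))).comap (mapR (algebraMap E F)) =
      V.comap (mapR (algebraMap E N)) := by
  ext x
  rw [mem_comap', mem_comap', mem_comap', mapR_comp E F N]
  rfl

end GA_

theorem p_GA (h1 : T_NZ1) (h2 : T_STP) (h3 : T_GA1) (h4 : T_OT) : T_GA := by
  intro E N _ _ _ _ _ _ q ζ j V hq hζ hj hO hF hV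
  have : Fact q.Prime := ⟨hq⟩
  have hfin : Finite (N ≃ₐ[E] N) := inferInstance
  obtain ⟨P⟩ : Nonempty (Sylow q (N ≃ₐ[E] N)) := inferInstance
  let F : IntermediateField E N := IntermediateField.fixedField (P : Subgroup (N ≃ₐ[E] N))
  have : CharZero F := charZero_of_injective_algebraMap (algebraMap E F).injective
  have hcard : Module.finrank F N = Nat.card (P : Subgroup (N ≃ₐ[E] N)) :=
    IntermediateField.finrank_fixedField_eq_card _
  obtain ⟨m, hm⟩ : ∃ m, Nat.card (P : Subgroup (N ≃ₐ[E] N)) = q ^ m := by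
    obtain ⟨m, hm⟩ := (IsPGroup.iff_card (p := q)).1 P.isPGroup'
    exact ⟨m, hm⟩
  have hidx : Module.finrank E F = (P : Subgroup (N ≃ₐ[E] N)).index := by
    have e1 : Module.finrank E F * Module.finrank F N = Module.finrank E N :=
      Module.finrank_mul_finrank E F N
    have e2 : Nat.card (N ≃ₐ[E] N) = Module.finrank E N := IsGalois.card_aut_eq_finrank E N
    have e3 := (P : Subgroup (N ≃ₐ[E] N)).card_mul_index
    rw [e2, ← e1, hcard, mul_comm] at e3
    have e4 : 0 < Nat.card (P : Subgroup (N ≃ₐ[E] N)) := Nat.card_pos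
    exact (Nat.eq_of_mul_eq_mul_right e4 e3).symm
  have hcop : (Module.finrank E F).Coprime q := by
    rw [hidx]
    exact ((hq.coprime_iff_not_dvd).2 P.not_dvd_index).symm
  obtain ⟨z, hz⟩ := h1 E F q hq.pos hcop hF
  obtain ⟨hF', V', hV', hVV⟩ := h2 E F q ζ V z hq hζ hO hV hz
  have hζ' : IsPrimitiveRoot (algebraMap E F ζ) q :=
    hζ.map_of_injective (algebraMap E F).injective
  have hj' : (algebraMap E F j) ^ 2 = -1 := by
    rw [← map_pow, hj, map_neg, map_one]
  obtain ⟨hN, W, hW, hWV⟩ := h3 m F N q (algebraMap E F ζ) (algebraMap E F j) V' hq hζ' hj'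
    (by rw [hcard, hm]) (h4 E F q hO) hF' hV'
  refine ⟨hN, W, hW, ?_⟩
  rw [← GA_.comap_comp E F N, hWV, hVV]

end NST
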