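import Pool.Agent.NST.TC

/-!
# NST: Galois extensions of prime power degree
-/

set_option autoImplicit false

noncomputable section

namespace NST

open Filter Polynomial

theorem GA1_id {E : Type} [Field E] (x : Lx E) : mapR (RingHom.id E) x = x := by
  obtain ⟨x, rfl⟩ := exists_mk x
  simp

theorem GA1_comp {E F N : Type} [Field E] [Field F] [Field N] (g : F →+* N) (f : E →+* F) :
    mapR (g.comp f) = (mapR g).comp (mapR f) := by
  ext x
  obtain ⟨x, rfl⟩ := exists_mk x
  simp

theorem GA1_inv {E N : Type} [Field E] [Field N] (g : N →+* E) (f : E →+* N)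
    (h : g.comp f = RingHom.id E) (V : ValuationSubring (Lx E)) :
    (V.comap (mapR g)).comap (mapR f) = V := by
  rw [ValuationSubring.comap_comap, ← GA1_comp, h]
  ext x
  rw [mem_comap', GA1_id]

/-- degree one -/
theorem GA1_zero (h1 : T_SG) {E N : Type} [Field E] [Field N] (f : E →+* N)
    (hf : Function.Bijective f) (q : ℕ) (V : ValuationSubring (Lx E)) (hE : ¬ Ful E q)
    (hV : Opn q V) : ¬ Ful N q ∧ ∃ V' : ValuationSubring (Lx N), Opn q V' ∧
      V'.comap (mapR f) = V := by
  let σ : E ≃+* N := RingEquiv.ofBijective f hf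
  have hσ : (σ.symm : N →+* E).comp f = RingHom.id E := by
    ext x
    exact σ.symm_apply_apply x
  have hσ' : f.comp (σ.symm : N →+* E) = RingHom.id N := by
    ext x
    exact σ.apply_symm_apply x
  refine ⟨?_, V.comap (mapR (σ.symm : N →+* E)), ⟨h1 N E σ.symm V hV.mon, ?_⟩,
    GA1_inv _ _ hσ V⟩
  · intro hN
    apply hE
    intro x
    obtain ⟨y, hy⟩ := hN (f x)
    obtain ⟨z, rfl⟩ := hf.2 y
    refine ⟨z, hf.1 ?_⟩
    rw [hy, map_pow]
  · intro x hx
    rw [nu_comap, map_sub, map_one] at hx
    obtain ⟨y, hy⟩ := hV.pow _ hx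
    refine ⟨mapR f y, ?_⟩
    rw [← map_pow, ← hy, ← RingHom.comp_apply, ← GA1_comp, hσ', GA1_id]

theorem p_GA1 (h1 : T_SG) (h2 : T_NZ2) (h3 : T_STP) (h4 : T_OT) : T_GA1 := by
  intro m
  induction m with
  | zero =>
    intro E N _ _ _ _ _ _ q ζ j V hq hζ hj hfr hA hF hV
    rw [pow_zero] at hfr
    have hb : Function.Bijective (algebraMap E N) := by
      refine ⟨(algebraMap E N).injective, fun x => ?_⟩
      have h5 : (⊥ : Subalgebra E N) = ⊤ := Subalgebra.bot_eq_top_of_finrank_eq_one hfr
      have h6 : x ∈ (⊥ : Subalgebra E N) := by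
        rw [h5]
        trivial
      exact Algebra.mem_bot.1 h6
    exact GA1_zero h1 _ hb q V hF hV
  | succ m ih =>
    intro E N _ _ _ _ _ _ q ζ j V hq hζ hj hfr hA hF hV
    have : Fact q.Prime := ⟨hq⟩
    have hcard : Nat.card (N ≃ₐ[E] N) = q ^ (m + 1) := by
      rw [← hfr]
      exact IsGalois.card_aut_eq_finrank E N
    obtain ⟨H, hH⟩ := Sylow.exists_subgroup_card_pow_prime (G := N ≃ₐ[E] N) q (n := m)
      (by rw [hcard]; exact pow_dvd_pow q (by omega))
    have hidx : H.index = q := by
      have h5 := H.card_mul_index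
      rw [hcard, hH, pow_succ] at h5
      exact Nat.eq_of_mul_eq_mul_left (pow_pos hq.pos m) h5
    have hn : H.Normal := by
      apply Subgroup.normal_of_index_eq_minFac_card
      rw [hidx, hcard, Nat.pow_minFac (by omega), hq.minFac_eq]
    set F := IntermediateField.fixedField H with hFdef
    have hgal1 : IsGalois E F := IsGalois.of_fixedField_normal_subgroup H
    have hgal2 : IsGalois F N := inferInstance
    have hfr2 : Module.finrank F N = q ^ m := by
      rw [hFdef, IntermediateField.finrank_fixedField_eq_card, hH]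
    have hfr1 : Module.finrank E F = q := by
      have h5 := Module.finrank_mul_finrank E F N
      rw [hfr, hfr2, pow_succ'] at h5
      exact Nat.eq_of_mul_eq_mul_right (pow_pos hq.pos m) h5
    obtain ⟨z, hz⟩ := h2 E F q ζ j hq hζ hj hfr1
    obtain ⟨hF2, VF, hVF, hVFc⟩ := h3 E F q ζ V z hq hζ hA hV hz
    have hA2 : OpA F q := h4 E F q hA
    have hζ2 : IsPrimitiveRoot (algebraMap E F ζ) q :=
      hζ.map_of_injective (algebraMap E F).injective
    have hj2 : (algebraMap E F j) ^ 2 = -1 := by
      rw [← map_pow, hj, map_neg, map_one]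
    obtain ⟨hN, V', hV', hVc⟩ := ih F N q (algebraMap E F ζ) (algebraMap E F j) VF hq hζ2 hj2
      hfr2 hA2 hF2 hVF
    refine ⟨hN, V', hV', ?_⟩
    rw [IsScalarTower.algebraMap_eq E F N, GA1_comp, ← ValuationSubring.comap_comap, hVc, hVFc]

end NST
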