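import Pool.Agent.NST.TA

/-!
# NST-GB: the Brauer form of Gallai's theorem
-/

set_option autoImplicit false

noncomputable section

namespace NST

theorem p_GB (h1 : T_G0) (h2 : T_FG) : T_GB := by
  classical
  intro M κ _ _ _ C T
  obtain ⟨T', hT'⟩ := h2 M κ T
  obtain ⟨e, n, hn, he⟩ := h1 M κ C (Finset.image₂ (fun t s => t + s) (insert 0 T') (insert 0 T))
  have he' : ∀ t ∈ insert (0 : M) T', ∀ s ∈ insert (0 : M) T, C (e + n * (t + s)) = C e :=
    fun t ht s hs => he _ (Finset.mem_image₂_of_mem ht hs)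
  obtain ⟨b, hb, k, hk, hbk⟩ := hT' fun x => C (n * x)
  refine ⟨e + n * b, e, ⟨n, hn, fun t ht => ?_⟩, ⟨n, hn, fun t ht => ?_⟩, ⟨n * k, Nat.mul_pos hn hk,
    fun t ht => ?_⟩⟩
  · have a1 := he' b (Finset.mem_insert_of_mem hb) t (Finset.mem_insert_of_mem ht)
    have a2 := he' b (Finset.mem_insert_of_mem hb) 0 (Finset.mem_insert_self _ _)
    rw [add_zero] at a2
    rw [a2, ← a1]
    congr 1
    ring
  · have a1 := he' 0 (Finset.mem_insert_self _ _) t (Finset.mem_insert_of_mem ht)
    rw [zero_add] at a1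
    exact a1
  · have a1 : C (n * (b + k * t)) = C (n * b) := hbk t ht
    have a2 : (e + n * b - e : M) = n * b := by ring
    rw [a2, ← a1]
    congr 1
    push_cast
    ring

end NST
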