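import Pool.Agent.NST.TB

/-!
# NST-GS: Gauss lemma for monic factors modulo the maximal ideal
-/

set_option autoImplicit false

noncomputable section

namespace NST

open Filter Polynomial

namespace GS_

lemma mem_nu {L : Type} [Field L] (V : ValuationSubring L) (x : V) :
    (x : L) ∈ V.nonunits ↔ IsLocalRing.residue V x = 0 := by
  rw [IsLocalRing.residue_eq_zero_iff, ValuationSubring.mem_nonunits_iff_exists_mem_maximalIdeal]
  constructor
  · rintro ⟨h, h'⟩
    exact h'
  · intro h
    exact ⟨x.2, h⟩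

end GS_

theorem p_GS : T_GS := by
  intro L _ V P Q R hP hQ hPQ hR i hi
  have hRm : R.Monic := hPQ ▸ hP.mul hQ
  -- lift `R` to `V[X]`
  have hlift : R ∈ Polynomial.lifts (algebraMap V L) := by
    rw [Polynomial.lifts_iff_coeff_lifts]
    intro n
    rcases lt_trichotomy n R.natDegree with h | h | h
    · exact ⟨⟨R.coeff n, V.nonunits_subset (hR n h)⟩, rfl⟩
    · refine ⟨1, ?_⟩
      rw [h, hRm.coeff_natDegree, map_one]
    · refine ⟨0, ?_⟩
      rw [Polynomial.coeff_eq_zero_of_natDegree_lt h, map_zero]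
  obtain ⟨f, hf, hfdeg, hfm⟩ := Polynomial.lifts_and_natDegree_eq_and_monic hlift hRm
  have hinj : Function.Injective (algebraMap V L) := Subtype.val_injective
  obtain ⟨P', hP'⟩ := IsIntegrallyClosed.eq_map_mul_C_of_dvd L hfm (g := P)
    (by rw [hf]; exact ⟨Q, hPQ.symm⟩)
  obtain ⟨Q', hQ'⟩ := IsIntegrallyClosed.eq_map_mul_C_of_dvd L hfm (g := Q)
    (by rw [hf]; exact ⟨P, by rw [mul_comm]; exact hPQ.symm⟩)
  rw [hP.leadingCoeff, C_1, mul_one] at hP'
  rw [hQ.leadingCoeff, C_1, mul_one] at hQ'
  have hP'm : P'.Monic := Polynomial.monic_of_injective hinj (by rw [hP']; exact hP)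
  have hPQ' : P' * Q' = f := by
    apply Polynomial.map_injective _ hinj
    rw [Polynomial.map_mul, hP', hQ', hf, hPQ]
  have hfres : f.map (IsLocalRing.residue V) = X ^ f.natDegree := by
    ext n
    rw [coeff_map, coeff_X_pow]
    rcases lt_trichotomy n f.natDegree with h | h | h
    · rw [if_neg h.ne, ← GS_.mem_nu]
      have h1 : ((f.coeff n : V) : L) = R.coeff n := by
        rw [← hf, coeff_map]; rfl
      rw [h1]
      exact hR n (hfdeg ▸ h)
    · rw [if_pos h, h, hfm.coeff_natDegree, map_one]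
    · rw [if_neg h.ne', Polynomial.coeff_eq_zero_of_natDegree_lt h, map_zero]
  have hdvd : P'.map (IsLocalRing.residue V) ∣ X ^ f.natDegree := by
    rw [← hfres, ← hPQ', Polynomial.map_mul]
    exact dvd_mul_right _ _
  obtain ⟨j, -, hj⟩ := (dvd_prime_pow Polynomial.prime_X _).1 hdvd
  have hj' : P'.map (IsLocalRing.residue V) = X ^ j :=
    Polynomial.eq_of_monic_of_associated (hP'm.map _) (monic_X_pow j) hj
  have hdeg : P.natDegree = j := by
    have h1 : (P'.map (IsLocalRing.residue V)).natDegree = P'.natDegree := hP'm.natDegree_map _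
    have h2 : P.natDegree = P'.natDegree := by
      rw [← hP', hP'm.natDegree_map]
    rw [h2, ← h1, hj', natDegree_X_pow]
  have hco : P.coeff i = ((P'.coeff i : V) : L) := by
    rw [← hP', coeff_map]; rfl
  rw [hco, GS_.mem_nu, ← coeff_map, hj', coeff_X_pow, if_neg (by omega)]

end NST
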