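import Pool.Agent.NST.TB

set_option autoImplicit false

noncomputable section

namespace NST

open Polynomial

theorem IC_norm {L : Type} [Field L] (U : ValuationSubring L) (p : L[X]) (hp : p.Monic) :
    ∃ a : L, a ≠ 0 ∧ (∀ i, a * p.coeff i ∈ U) ∧
      ∃ m, m ≤ p.natDegree ∧ a * p.coeff m ∉ U.nonunits ∧
        ∀ i, m < i → a * p.coeff i ∈ U.nonunits := by
  classical
  obtain ⟨M, hM, hmax⟩ := Finset.exists_max_image (Finset.range (p.natDegree + 1))
    (fun i => U.valuation (p.coeff i)) ⟨0, by simp⟩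
  have hlead : p.coeff p.natDegree = 1 := hp.coeff_natDegree
  have hM0 : p.coeff M ≠ 0 := by
    intro h0
    have h1 := hmax p.natDegree (by simp)
    rw [hlead, h0, map_one, map_zero] at h1
    exact absurd h1 (by simp)
  have hvM : U.valuation (p.coeff M) ≠ 0 := by
    rw [Ne, map_eq_zero]
    exact hM0
  have hU : ∀ i, (p.coeff M)⁻¹ * p.coeff i ∈ U := by
    intro i
    by_cases hi : i ≤ p.natDegree
    · rw [← U.valuation_le_one_iff, map_mul, map_inv₀]
      have h1 := hmax i (by simp; omega)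
      rw [inv_mul_le_iff₀ (zero_lt_iff.2 hvM), mul_one]
      exact h1
    · have h0 : p.coeff i = 0 := coeff_eq_zero_of_natDegree_lt (by omega)
      rw [h0, mul_zero]
      exact U.zero_mem
  refine ⟨(p.coeff M)⁻¹, inv_ne_zero hM0, hU, ?_⟩
  have hex : ∃ m, m ≤ p.natDegree ∧ (p.coeff M)⁻¹ * p.coeff m ∉ U.nonunits :=
    ⟨M, by simpa [Nat.lt_succ_iff] using hM, by rw [inv_mul_cancel₀ hM0]; exact one_notMem_nu⟩
  let P : ℕ → Prop := fun m => m ≤ p.natDegree ∧ (p.coeff M)⁻¹ * p.coeff m ∉ U.nonunits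
  obtain ⟨m0, hm0⟩ := hex
  have hg : P (Nat.findGreatest P p.natDegree) := Nat.findGreatest_spec (P := P) hm0.1 hm0
  refine ⟨Nat.findGreatest P p.natDegree, hg.1, hg.2, ?_⟩
  intro i hi
  by_cases hid : i ≤ p.natDegree
  · by_contra hc
    exact Nat.findGreatest_is_greatest (P := P) hi hid ⟨hid, hc⟩
  · have h0 : p.coeff i = 0 := coeff_eq_zero_of_natDegree_lt (by omega)
    rw [h0, mul_zero]
    exact zero_mem _

theorem p_IC : T_IC := by
  classical
  intro L L' _ _ f hf V W hVW hcomap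
  refine le_antisymm hVW ?_
  intro x hxW
  by_contra hxV
  obtain ⟨p, hp, hpx⟩ := hf x
  obtain ⟨a, ha0, haU, m, hmN, hm, hgt⟩ := IC_norm (V.comap f) p hp
  set y : L' := x⁻¹ with hy
  have hx0 : x ≠ 0 := by
    rintro rfl
    exact hxV V.zero_mem
  have hyV : y ∈ V := nu_mem (inv_nu_of_notMem hxV)
  have hsum : ∑ i ∈ Finset.range (p.natDegree + 1), f (a * p.coeff i) * x ^ i = 0 := by
    have h1 : p.eval₂ f x = ∑ i ∈ Finset.range (p.natDegree + 1), f (p.coeff i) * x ^ i :=
      eval₂_eq_sum_range f x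
    have h2 : p.eval₂ f x = 0 := hpx
    rw [h2] at h1
    calc ∑ i ∈ Finset.range (p.natDegree + 1), f (a * p.coeff i) * x ^ i
        = f a * ∑ i ∈ Finset.range (p.natDegree + 1), f (p.coeff i) * x ^ i := by
          rw [Finset.mul_sum]
          refine Finset.sum_congr rfl fun i _ => ?_
          rw [map_mul, mul_assoc]
      _ = 0 := by rw [← h1, mul_zero]
  have hmem : m ∈ Finset.range (p.natDegree + 1) := by simp; omega
  have hxy : ∀ k : ℕ, x ^ k * y ^ k = 1 := by
    intro k
    rw [← mul_pow, hy, mul_inv_cancel₀ hx0, one_pow]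
  have hterm : ∀ i ∈ (Finset.range (p.natDegree + 1)).erase m,
      f (a * p.coeff i) * x ^ i * (x * y ^ m) ∈ V := by
    intro i hi
    have him : i ≠ m := (Finset.mem_erase.1 hi).1
    rcases lt_or_gt_of_ne him with h | h
    · obtain ⟨k, rfl⟩ : ∃ k, m = i + 1 + k := ⟨m - (i + 1), by omega⟩
      have h1 : f (a * p.coeff i) * x ^ i * (x * y ^ (i + 1 + k)) = f (a * p.coeff i) * y ^ k := by
        have h2 : x ^ i * (x * y ^ (i + 1 + k)) = y ^ k := by
          have h3 : x ^ i * (x * y ^ (i + 1 + k)) = (x ^ (i + 1) * y ^ (i + 1)) * y ^ k := by ring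
          rw [h3, hxy, one_mul]
        rw [mul_assoc, h2]
      rw [h1]
      exact V.mul_mem _ _ (haU i) (pow_mem hyV k)
    · obtain ⟨k, rfl⟩ : ∃ k, i = m + k := ⟨i - m, by omega⟩
      have h1 : f (a * p.coeff (m + k)) * x ^ (m + k) * (x * y ^ m)
          = x ^ (k + 1) * f (a * p.coeff (m + k)) := by
        have h2 : x ^ (m + k) * (x * y ^ m) = x ^ (k + 1) := by
          have h3 : x ^ (m + k) * (x * y ^ m) = (x ^ m * y ^ m) * x ^ (k + 1) := by ring
          rw [h3, hxy, one_mul]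
        rw [mul_assoc, h2, mul_comm]
      rw [h1]
      have h4 : f (a * p.coeff (m + k)) ∈ W.nonunits := by
        have h5 := hgt (m + k) h
        rw [hcomap, nu_comap] at h5
        exact h5
      exact nu_mem (nu_of_le hVW (nu_mul (pow_mem hxW (k + 1)) h4))
  have hkey : f (a * p.coeff m) * x ∈ V := by
    have h1 : ∑ i ∈ Finset.range (p.natDegree + 1), f (a * p.coeff i) * x ^ i * (x * y ^ m) = 0 := by
      rw [← Finset.sum_mul, hsum, zero_mul]
    rw [← Finset.add_sum_erase _ _ hmem] at h1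
    have h2 : f (a * p.coeff m) * x ^ m * (x * y ^ m) = f (a * p.coeff m) * x := by
      have h3 : f (a * p.coeff m) * x ^ m * (x * y ^ m)
          = f (a * p.coeff m) * x * (x ^ m * y ^ m) := by ring
      rw [h3, hxy, mul_one]
    rw [h2] at h1
    rw [eq_neg_of_add_eq_zero_left h1]
    exact V.neg_mem _ (sum_mem hterm)
  have hunit : (f (a * p.coeff m))⁻¹ ∈ V := by
    have h1 : f (a * p.coeff m) ∉ V.nonunits := by
      rw [← nu_comap]
      exact hm
    exact inv_mem_of_notMem_nu h1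
  have hne : f (a * p.coeff m) ≠ 0 := by
    intro h0
    apply hm
    rw [nu_comap, h0]
    exact zero_mem _
  apply hxV
  have h6 : x = (f (a * p.coeff m))⁻¹ * (f (a * p.coeff m) * x) := by
    rw [← mul_assoc, inv_mul_cancel₀ hne, one_mul]
  rw [h6]
  exact V.mul_mem _ _ hunit hkey

end NST
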