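import Pool.Agent.NST.TA

/-!
# NST: the set `II F` is monadic (target `T_IM`)
-/

set_option autoImplicit false

namespace NST

open Filter

/-- `II F` is monadic. -/
theorem p_IM : T_IM := by
  intro M G _ _ _ _ F
  obtain ⟨u, hu⟩ := exists_surjective_nat M
  refine ⟨fun i => {x | ∀ j ≤ i, F (1 + x * u j) = 1}, ?_, ?_⟩
  · intro i i' h x hx j hj
    exact hx j (hj.trans h)
  · intro x
    obtain ⟨f, rfl⟩ := exists_mk x
    constructor
    · intro hx i
      rw [mem_St]
      have h : ∀ᶠ n in (Uf : Filter ℕ), ∀ j ∈ Finset.range (i + 1), F (1 + f n * u j) = 1 := by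
        refine (Finset.eventually_all _).2 fun j _ => ?_
        have hj := hx (u j)
        have e : (1 : Lx M) + mk f * cst (u j) = mk fun n => 1 + f n * u j := rfl
        rw [e, Fs_mk_iff] at hj
        exact hj
      exact h.mono fun n hn j hj => hn j (Finset.mem_range.2 (by omega))
    · intro hx v
      obtain ⟨i, rfl⟩ := hu v
      have h := hx i
      rw [mem_St] at h
      have e : (1 : Lx M) + mk f * cst (u i) = mk fun n => 1 + f n * u i := rfl
      rw [e, Fs_mk_iff]
      exact h.mono fun n hn => hn i le_rfl

end NST
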