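import Pool.Agent.NST.TA

/-!
# NST-IN: some translate has a bounded inverse
-/

set_option autoImplicit false

noncomputable section

namespace NST

theorem p_IN (h1 : T_G0) : T_IN := by
  classical
  intro M G _ _ _ _ F R S hR hS w
  obtain ⟨m, n, hn, hg⟩ := h1 M G (fun m => Fs F (w + cst m)) (insert 1 S)
  have hn0 : (n : M) ≠ 0 := Nat.cast_ne_zero.2 (Nat.pos_iff_ne_zero.1 hn)
  have hw : w + cst m ≠ 0 := by
    intro h0
    have h2 := hg 1 (Finset.mem_insert_self _ _)
    simp only [mul_one] at h2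
    rw [cst_add, ← add_assoc, h0, zero_add, map_zero, Fs_cst, map_eq_zero] at h2
    exact hn0 h2
  refine ⟨m, hw, ?_⟩
  have hx : cst (n : M) * (w + cst m)⁻¹ ∈ R := by
    rw [hR.mem]
    apply hS
    intro s hs
    have h2 := hg s (Finset.mem_insert_of_mem hs)
    have h3 : 1 + cst (n : M) * (w + cst m)⁻¹ * cst s =
        (w + cst (m + n * s)) * (w + cst m)⁻¹ := by
      rw [cst_add, cst_mul, ← add_assoc, add_mul (w + cst m), mul_inv_cancel₀ hw]
      ring
    rw [h3, map_mul, map_inv₀]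
    simp only at h2
    rw [h2]
    exact mul_inv_cancel₀ ((map_ne_zero _).2 hw)
  have h4 : (w + cst m)⁻¹ = cst (n : M)⁻¹ * (cst (n : M) * (w + cst m)⁻¹) := by
    rw [← mul_assoc, ← cst_mul, inv_mul_cancel₀ hn0, cst_one, one_mul]
  rw [h4]
  exact R.mul_mem (hR.cst _) hx

end NST
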