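import Pool.Agent.NST.TA

/-!
# NST: the infinitesimals are the Jacobson radical (job NST-JC, helper23)
-/

set_option autoImplicit false

noncomputable section

namespace NST

open Filter Polynomial

section JCgen

variable {L : Type} [Field L]

theorem JC_mem {A : ValuationSubring L} {x : L} : x ∈ A ↔ A.valuation x ≤ 1 :=
  (A.valuation_le_one_iff x).symm

theorem JC_nu {A : ValuationSubring L} {x : L} : x ∈ A.nonunits ↔ A.valuation x < 1 :=
  ValuationSubring.mem_nonunits_iff A

theorem JC_le {A : ValuationSubring L} {x : L} (h : x ∈ A.nonunits) : x ∈ A :=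
  JC_mem.2 (JC_nu.1 h).le

theorem JC_add {A : ValuationSubring L} {x y : L} (hx : x ∈ A.nonunits) (hy : y ∈ A.nonunits) :
    x + y ∈ A.nonunits := by
  rw [JC_nu] at *
  exact (A.valuation.map_add x y).trans_lt (max_lt hx hy)

theorem JC_neg {A : ValuationSubring L} {x : L} (hx : x ∈ A.nonunits) : -x ∈ A.nonunits := by
  rw [JC_nu] at *
  rwa [Valuation.map_neg]

theorem JC_sub {A : ValuationSubring L} {x y : L} (hx : x ∈ A.nonunits) (hy : y ∈ A.nonunits) :
    x - y ∈ A.nonunits := by
  rw [sub_eq_add_neg]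
  exact JC_add hx (JC_neg hy)

theorem JC_mul {A : ValuationSubring L} {x y : L} (hx : x ∈ A) (hy : y ∈ A.nonunits) :
    x * y ∈ A.nonunits := by
  rw [JC_nu] at *
  rw [JC_mem] at hx
  rw [map_mul]
  calc A.valuation x * A.valuation y ≤ 1 * A.valuation y := mul_le_mul_left hx _
    _ < 1 := by rwa [one_mul]

theorem JC_zero (A : ValuationSubring L) : (0 : L) ∈ A.nonunits := by
  rw [JC_nu, map_zero]
  exact zero_lt_one

theorem JC_one (A : ValuationSubring L) : (1 : L) ∉ A.nonunits := by
  rw [JC_nu, map_one]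
  exact lt_irrefl _

theorem JC_not {A : ValuationSubring L} {x : L} (hx : x ∈ A.nonunits) (h0 : x ≠ 0) : x⁻¹ ∉ A := by
  intro h
  have h1 := JC_mul h hx
  rw [inv_mul_cancel₀ h0] at h1
  exact JC_one A h1

theorem JC_inv {A : ValuationSubring L} {x : L} (hx : x ∉ A.nonunits) : x ≠ 0 ∧ x⁻¹ ∈ A := by
  have h0 : x ≠ 0 := by
    rintro rfl
    exact hx (JC_zero A)
  refine ⟨h0, ?_⟩
  rw [JC_nu, not_lt] at hx
  rw [JC_mem, map_inv₀]
  exact inv_le_one_of_one_le₀ hx

theorem JC_sum {A : ValuationSubring L} {ι : Type} (s : Finset ι) (f : ι → L)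
    (h : ∀ i ∈ s, f i ∈ A.nonunits) : ∑ i ∈ s, f i ∈ A.nonunits := by
  classical
  induction s using Finset.induction_on with
  | empty => simpa using JC_zero A
  | insert a s ha ih =>
    rw [Finset.sum_insert ha]
    exact JC_add (h a (Finset.mem_insert_self a s))
      (ih fun i hi => h i (Finset.mem_insert_of_mem hi))

/-- if `y` is a unit of `A` and `x - y` a nonunit then `x` is a unit -/
theorem JC_near {A : ValuationSubring L} {x y : L} (hy : y ∉ A.nonunits)
    (h : x - y ∈ A.nonunits) : x ∉ A.nonunits := by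
  intro hx
  apply hy
  have h1 := JC_sub hx h
  rwa [sub_sub_cancel] at h1

end JCgen

section JCmain

variable {M G : Type} [Field M] [CharZero M] [CommGroupWithZero G] [Finite G]

theorem JC_sumI {F : M →*₀ G} {R : Subring (Lx M)} (hR : Rg F R) {ι : Type} (s : Finset ι)
    (f : ι → Lx M) (h : ∀ i ∈ s, f i ∈ II F) : ∑ i ∈ s, f i ∈ II F := by
  classical
  induction s using Finset.induction_on with
  | empty => simpa using hR.zero
  | insert a s ha ih =>
    rw [Finset.sum_insert ha]
    exact hR.add _ (h a (Finset.mem_insert_self a s)) _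
      (ih fun i hi => h i (Finset.mem_insert_of_mem hi))

theorem JC_root (h2 : T_RA) {F : M →*₀ G} {R : Subring (Lx M)} (hR : Rg F R) (b : Lx M)
    (hb : b ∈ R) (N : ℕ) (h : b ^ N ∈ II F) : b ∈ II F := by
  have key : ∀ m : ℕ, b ^ 2 ^ m ∈ II F → b ∈ II F := by
    intro m
    induction m with
    | zero =>
      intro h
      simpa using h
    | succ m ih =>
      intro h
      apply ih
      apply h2 M G F R hR _ (R.pow_mem hb _)
      rw [← sq, ← pow_mul, ← pow_succ]
      exact h
  apply key N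
  have h3 : N ≤ 2 ^ N := Nat.lt_two_pow_self.le
  obtain ⟨d, hd⟩ := Nat.exists_eq_add_of_le h3
  rw [hd, add_comm N d, pow_add]
  exact hR.mul _ (R.pow_mem hb _) _ h

theorem JC_core (h1 : T_CR) (h2 : T_RA) (F : M →*₀ G) (R : Subring (Lx M)) (hR : Rg F R) (n : ℕ)
    (V : Fin n → ValuationSubring (Lx M)) (hn : 0 < n)
    (hV : ∀ x, x ∈ R ↔ ∀ k, x ∈ V k) (hinc : ∀ k l, k ≠ l → ¬ V k ≤ V l) (x : Lx M) :
    x ∈ II F ↔ ∀ k, x ∈ (V k).nonunits := by
  classical
  have hnat : ∀ c : ℕ, 0 < c → ((c : Lx M))⁻¹ ∈ R := by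
    intro c _
    have := hR.cst ((c : M)⁻¹)
    rwa [cst_inv, cst_natCast] at this
  have hnatk : ∀ k, ∀ c : ℕ, 0 < c → ((c : Lx M))⁻¹ ∈ V k := fun k c hc => (hV _).1 (hnat c hc) k
  obtain ⟨hA, hB⟩ := h1 (Lx M) n V hinc hnatk
  have hc0 : ∀ c : ℕ, 0 < c → (c : Lx M) ≠ 0 := fun c hc => Nat.cast_ne_zero.2 (by omega)
  have hcu : ∀ k, ∀ c : ℕ, 0 < c → (c : Lx M) ∉ (V k).nonunits := by
    intro k c hc h
    exact JC_not h (hc0 c hc) (hnatk k c hc)
  constructor
  · intro hx k
    by_contra hk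
    obtain ⟨hx0, hxi⟩ := JC_inv hk
    obtain ⟨b, hb1, hb2⟩ := hB (fun j => if j = k then -x⁻¹ else 0) (by
      intro j
      split_ifs with h
      · rw [h]
        exact neg_mem hxi
      · exact zero_mem _)
    have hbR : b ∈ R := (hV b).2 hb1
    have h3 := hb2 k
    rw [if_pos rfl, sub_neg_eq_add] at h3
    have h4 : x * (b + x⁻¹) ∈ (V k).nonunits := JC_mul ((hV x).1 (hR.sub x hx) k) h3
    have h5 : x * (b + x⁻¹) = 1 + b * x := by
      field_simp
      ring
    rw [h5] at h4
    have h6 : b * x ∈ II F := hR.mul b hbR x hx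
    have h7 : (1 + b * x) ≠ 0 := by
      intro h0
      have := hR.one _ h6
      rw [h0, map_zero] at this
      exact zero_ne_one this
    exact JC_not h4 h7 ((hV _).1 (hR.inv _ h6) k)
  · intro hx
    by_contra hxI
    have hxR : x ∈ R := (hV x).2 fun k => JC_le (hx k)
    have hx0 : x ≠ 0 := by
      rintro rfl
      exact hxI hR.zero
    -- the set `K₁` of the indices of type (B)
    have hK : ∃ k, ¬ ∃ (N : ℕ) (s : Lx M), s ∈ R ∧ s ∉ (V k).nonunits ∧ s * x ^ N ∈ II F := by
      by_contra hcon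
      push Not at hcon
      choose N s hsR hsk hsI using hcon
      have hch : ∀ k, ∃ y : Lx M, (∀ j, y ∈ V j) ∧ (y - (s k)⁻¹ ∈ (V k).nonunits) ∧
          ∀ j, j ≠ k → y ∈ (V j).nonunits := by
        intro k
        obtain ⟨y, hy1, hy2⟩ := hB (fun j => if j = k then (s k)⁻¹ else 0) (by
          intro j
          split_ifs with h
          · rw [h]
            exact (JC_inv (hsk k)).2
          · exact zero_mem _)
        refine ⟨y, hy1, ?_, ?_⟩
        · have := hy2 k
          rwa [if_pos rfl] at this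
        · intro j hj
          have := hy2 j
          rwa [if_neg hj, sub_zero] at this
      choose y hy1 hy2 hy3 using hch
      have hu : ∀ j, ∑ k, s k * y k ∉ (V j).nonunits := by
        intro j
        apply JC_near (JC_one (V j))
        rw [← Finset.add_sum_erase Finset.univ _ (Finset.mem_univ j), add_sub_right_comm]
        apply JC_add
        · have h3 : s j * y j - 1 = s j * (y j - (s j)⁻¹) := by
            rw [mul_sub, mul_inv_cancel₀ (JC_inv (hsk j)).1]
          rw [h3]
          exact JC_mul ((hV _).1 (hsR j) j) (hy2 j)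
        · apply JC_sum
          intro i hi
          exact JC_mul ((hV _).1 (hsR i) j) (hy3 i j (Finset.ne_of_mem_erase hi).symm)
      have hui : (∑ k, s k * y k)⁻¹ ∈ R := (hV _).2 fun j => (JC_inv (hu j)).2
      have hu0 : (∑ k, s k * y k) ≠ 0 := (JC_inv (hu ⟨0, hn⟩)).1
      have h4 : (∑ k, s k * y k) * x ^ (∑ k, N k) ∈ II F := by
        rw [Finset.sum_mul]
        apply JC_sumI hR
        intro k _
        rw [← Finset.add_sum_erase Finset.univ _ (Finset.mem_univ k), pow_add]
        have h5 : s k * y k * (x ^ N k * x ^ (∑ i ∈ Finset.univ.erase k, N i)) =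
            (y k * x ^ (∑ i ∈ Finset.univ.erase k, N i)) * (s k * x ^ N k) := by ring
        rw [h5]
        exact hR.mul _ (R.mul_mem ((hV _).2 (hy1 k)) (R.pow_mem hxR _)) _ (hsI k)
      have h6 : x ^ (∑ k, N k) ∈ II F := by
        have := hR.mul _ hui _ h4
        rwa [← mul_assoc, inv_mul_cancel₀ hu0, one_mul] at this
      exact hxI (JC_root h2 hR x hxR _ h6)
    obtain ⟨k0, hk0⟩ := hK
    have hdiv : ∀ k, (¬ ∃ (N : ℕ) (s : Lx M), s ∈ R ∧ s ∉ (V k).nonunits ∧ s * x ^ N ∈ II F) →
        ∀ z ∈ II F, z / x ^ 2 ∈ V k := by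
      intro k hk z hz
      by_contra hcon
      have hz0 : z ≠ 0 := by
        rintro rfl
        rw [zero_div] at hcon
        exact hcon (zero_mem _)
      have h3 : x ^ 2 / z ∈ V k := by
        rcases (V k).mem_or_inv_mem (z / x ^ 2) with h | h
        · exact absurd h hcon
        · rwa [inv_div] at h
      obtain ⟨c, hc, hc1, hc2⟩ := hA (x ^ 2 / z)
      apply hk
      refine ⟨2, (x ^ 2 / z + c)⁻¹, (hV _).2 hc2, ?_, ?_⟩
      · intro h4
        have h5 := JC_not h4 (inv_ne_zero hc1)
        rw [inv_inv] at h5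
        exact h5 (add_mem h3 (natCast_mem (V k) c))
      · have h6 : (x ^ 2 / z + c)⁻¹ * x ^ 2 = (1 - c * (x ^ 2 / z + c)⁻¹) * z := by
          have h7 : (x ^ 2 / z + c)⁻¹ * (x ^ 2 / z + c) = 1 := inv_mul_cancel₀ hc1
          have h8 : x ^ 2 = (x ^ 2 / z) * z := by field_simp
          have h9 : (x ^ 2 / z + c)⁻¹ * (x ^ 2 / z) = 1 - c * (x ^ 2 / z + c)⁻¹ := by
            rw [← h7]
            ring
          calc (x ^ 2 / z + c)⁻¹ * x ^ 2 = (x ^ 2 / z + c)⁻¹ * ((x ^ 2 / z) * z) := by rw [← h8]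
            _ = (x ^ 2 / z + c)⁻¹ * (x ^ 2 / z) * z := by ring
            _ = (1 - c * (x ^ 2 / z + c)⁻¹) * z := by rw [h9]
        rw [h6]
        exact hR.mul _ (sub_mem (one_mem R) (R.mul_mem (natCast_mem R c) ((hV _).2 hc2))) _ hz
    -- the element `e`
    obtain ⟨e, he1, he2⟩ := hB (fun k => if (∃ (N : ℕ) (s : Lx M), s ∈ R ∧ s ∉ (V k).nonunits ∧
        s * x ^ N ∈ II F) then 1 else 0) (by
      intro j
      split_ifs with h
      · exact one_mem _
      · exact zero_mem _)
    have heR : e ∈ R := (hV e).2 he1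
    have hgood : ∃ c : ℕ, 0 < c ∧ ∀ k, (x + c * e) / x ∉ (V k).nonunits := by
      by_contra hcon
      push Not at hcon
      choose g hg using fun c : Fin (n + 1) => hcon (c.1 + 1) (by omega)
      obtain ⟨c, c', hcc, hgg⟩ := Fintype.exists_ne_map_eq_of_card_lt g (by simp)
      have h3 := hg c
      have h4 := hg c'
      rw [← hgg] at h4
      have key : ∀ (a a' : ℕ), a < a' → (x + a * e) / x ∈ (V (g c)).nonunits →
          (x + a' * e) / x ∈ (V (g c)).nonunits → False := by
        intro a a' haa h5 h6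
        apply hcu (g c) (a' - a) (by omega)
        have h7 : (((a' - a : ℕ)) : Lx M) = a' * ((x + a * e) / x) - a * ((x + a' * e) / x) := by
          rw [Nat.cast_sub haa.le]
          field_simp
          ring
        rw [h7]
        exact JC_sub (JC_mul (natCast_mem _ _) h5) (JC_mul (natCast_mem _ _) h6)
      rcases Nat.lt_or_gt_of_ne (fun h => hcc (Fin.ext h) : c.1 ≠ c'.1) with h | h
      · exact key (c.1 + 1) (c'.1 + 1) (by omega) h3 h4
      · exact key (c'.1 + 1) (c.1 + 1) (by omega) h4 h3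
    obtain ⟨c, hc, hcg⟩ := hgood
    have hb0 : x + c * e ≠ 0 := by
      have := (JC_inv (hcg k0)).1
      intro h
      rw [h, zero_div] at this
      exact this rfl
    have hbR : x + c * e ∈ R := R.add_mem hxR (R.mul_mem (natCast_mem R c) heR)
    have hq : ∀ z ∈ II F, z / (x + c * e) ^ 2 ∈ R := by
      intro z hz
      rw [hV]
      intro k
      by_cases hk : ∃ (N : ℕ) (s : Lx M), s ∈ R ∧ s ∉ (V k).nonunits ∧ s * x ^ N ∈ II F
      · have h3 := he2 k
        rw [if_pos hk] at h3
        have h4 : (x + c * e) ∉ (V k).nonunits := by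
          apply JC_near (hcu k c hc)
          have h5 : x + c * e - c = x + c * (e - 1) := by ring
          rw [h5]
          exact JC_add (hx k) (JC_mul (natCast_mem _ _) h3)
        rw [div_eq_mul_inv, ← inv_pow]
        exact mul_mem ((hV _).1 (hR.sub z hz) k) (pow_mem (JC_inv h4).2 2)
      · have h3 := (JC_inv (hcg k)).2
        rw [inv_div] at h3
        have h4 : z / (x + c * e) ^ 2 = z / x ^ 2 * (x / (x + c * e)) ^ 2 := by
          field_simp
        rw [h4]
        exact mul_mem (hdiv k hk z hz) (pow_mem h3 2)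
    have hcol : (x + c * e)⁻¹ ∈ R := by
      apply hR.colon
      intro z hz
      have h3 : (x + c * e)⁻¹ * z = (x + c * e) * (z / (x + c * e) ^ 2) := by
        field_simp
      apply h2 M G F R hR
      · rw [h3]
        exact R.mul_mem hbR (hq z hz)
      · have h4 : (x + c * e)⁻¹ * z * ((x + c * e)⁻¹ * z) = (z / (x + c * e) ^ 2) * z := by
          field_simp
        rw [h4]
        exact hR.mul _ (hq z hz) _ hz
    have h5 : (x + c * e) ∈ (V k0).nonunits := by
      have h3 := he2 k0
      rw [if_neg hk0, sub_zero] at h3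
      exact JC_add (hx k0) (JC_mul (natCast_mem _ _) h3)
    exact JC_not h5 hb0 ((hV _).1 hcol k0)

end JCmain

/-- JC with the missing hypothesis: `II F` is not zero (`T_JC` of TA.lean is false for `n = 0`) -/
def T_JCe : Prop :=
  ∀ (M G : Type) [Field M] [CharZero M] [CommGroupWithZero G] [Finite G] (F : M →*₀ G)
    (R : Subring (Lx M)), Rg F R → (∃ e ∈ II F, e ≠ 0) →
    ∀ (n : ℕ) (V : Fin n → ValuationSubring (Lx M)),
    (∀ x, x ∈ R ↔ ∀ k, x ∈ V k) → (∀ k l, k ≠ l → ¬ V k ≤ V l) →
    ∀ x, x ∈ II F ↔ ∀ k, x ∈ (V k).nonunits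

theorem p_JCe (h1 : T_CR) (h2 : T_RA) : T_JCe := by
  intro M G _ _ _ _ F R hR hne n V hV hinc x
  refine JC_core h1 h2 F R hR n V ?_ hV hinc x
  rcases Nat.eq_zero_or_pos n with rfl | h
  · exfalso
    obtain ⟨e, he, he0⟩ := hne
    have h3 : e⁻¹ ∈ R := (hV _).2 fun k => k.elim0
    have h4 := hR.mul _ h3 _ he
    rw [inv_mul_cancel₀ he0] at h4
    exact hR.ne h4
  · exact h

end NST
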