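import Pool.Agent.NST.TA

/-!
# NST: target L1
-/

set_option autoImplicit false

namespace NST

theorem L1_step (M G : Type) [Field M] [CommGroupWithZero G] (F : M →*₀ G) (c1 c2 : G)
    (h1 : c1 ≠ 0) (h2 : c2 ≠ 0)
    (hU : ∀ U : Finset M, ∃ a b : M, ∀ u ∈ U, F (a + u) = c1 ∧ F (a + b + u) = c2 ∧
      F (1 + b * u) = 1) (k : ℕ) :
    ∃ a b : ℕ → M, ∀ j < k, ∀ S ⊆ Finset.range k,
      (j ∈ S → F (a j + ∑ l ∈ S, b l) = c2) ∧ (j ∉ S → F (a j + ∑ l ∈ S, b l) = c1) := by
  classical
  induction k with
  | zero => exact ⟨fun _ => 0, fun _ => 0, fun j hj => by omega⟩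
  | succ k ih =>
    obtain ⟨a, b, hab⟩ := ih
    obtain ⟨a', b', h'⟩ := hU
      ((Finset.range k).powerset.image (fun S => ∑ l ∈ S, b l) ∪
        ((Finset.range k) ×ˢ (Finset.range k).powerset).image
          (fun p => (a p.1 + ∑ l ∈ p.2, b l)⁻¹))
    have hy : ∀ S ⊆ Finset.range k, F (a' + ∑ l ∈ S, b l) = c1 ∧
        F (a' + b' + ∑ l ∈ S, b l) = c2 := by
      intro S hS
      have := h' (∑ l ∈ S, b l) (Finset.mem_union_left _
        (Finset.mem_image_of_mem (fun S => ∑ l ∈ S, b l) (Finset.mem_powerset.2 hS)))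
      exact ⟨this.1, this.2.1⟩
    have hv : ∀ j < k, ∀ S ⊆ Finset.range k, F (1 + b' * (a j + ∑ l ∈ S, b l)⁻¹) = 1 := by
      intro j hj S hS
      have h3 : (j, S) ∈ (Finset.range k) ×ˢ (Finset.range k).powerset :=
        Finset.mem_product.2 ⟨Finset.mem_range.2 hj, Finset.mem_powerset.2 hS⟩
      have := h' ((a j + ∑ l ∈ S, b l)⁻¹) (Finset.mem_union_right _
        (Finset.mem_image_of_mem (fun p : ℕ × Finset ℕ => (a p.1 + ∑ l ∈ p.2, b l)⁻¹) h3))
      exact this.2.2
    refine ⟨Function.update a k a', Function.update b k b', fun j hj S hS => ?_⟩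
    have hsum : ∀ T : Finset ℕ, k ∉ T → ∑ l ∈ T, Function.update b k b' l = ∑ l ∈ T, b l := by
      intro T hT
      refine Finset.sum_congr rfl fun l hl => ?_
      rw [Function.update_of_ne]
      rintro rfl
      exact hT hl
    have hsub : ∀ T : Finset ℕ, T ⊆ Finset.range (k + 1) → k ∉ T → T ⊆ Finset.range k := by
      intro T hT hk l hl
      have := Finset.mem_range.1 (hT hl)
      rw [Finset.mem_range]
      have h4 : l ≠ k := by
        rintro rfl
        exact hk hl
      omega
    by_cases hk : k ∈ S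
    · have hS0 : k ∉ S.erase k := Finset.notMem_erase k S
      have hSs : S.erase k ⊆ Finset.range k :=
        hsub _ ((Finset.erase_subset k S).trans hS) hS0
      have hs : ∑ l ∈ S, Function.update b k b' l = b' + ∑ l ∈ S.erase k, b l := by
        rw [← Finset.add_sum_erase S _ hk, hsum _ hS0, Function.update_self]
      rw [hs]
      by_cases hjk : j = k
      · subst hjk
        rw [Function.update_self]
        refine ⟨fun _ => ?_, fun h => absurd hk h⟩
        rw [← add_assoc]
        exact (hy _ hSs).2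
      · have hjk' : j < k := by omega
        rw [Function.update_of_ne hjk]
        have h5 := hab j hjk' _ hSs
        have h6 : F (a j + ∑ l ∈ S.erase k, b l) ≠ 0 := by
          by_cases hj : j ∈ S.erase k
          · rw [h5.1 hj]
            exact h2
          · rw [h5.2 hj]
            exact h1
        have h7 : a j + ∑ l ∈ S.erase k, b l ≠ 0 := by
          intro h
          rw [h, map_zero] at h6
          exact h6 rfl
        have h8 : a j + (b' + ∑ l ∈ S.erase k, b l) =
            (a j + ∑ l ∈ S.erase k, b l) * (1 + b' * (a j + ∑ l ∈ S.erase k, b l)⁻¹) := by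
          field_simp
          ring
        have h9 : F (a j + (b' + ∑ l ∈ S.erase k, b l)) = F (a j + ∑ l ∈ S.erase k, b l) := by
          rw [h8, map_mul, hv j hjk' _ hSs, mul_one]
        rw [h9]
        constructor
        · intro hj
          exact h5.1 (Finset.mem_erase.2 ⟨hjk, hj⟩)
        · intro hj
          exact h5.2 fun h => hj (Finset.mem_of_mem_erase h)
    · have hSs : S ⊆ Finset.range k := hsub _ hS hk
      rw [hsum S hk]
      by_cases hjk : j = k
      · subst hjk
        rw [Function.update_self]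
        exact ⟨fun h => absurd h hk, fun _ => (hy _ hSs).1⟩
      · have hjk' : j < k := by omega
        rw [Function.update_of_ne hjk]
        exact hab j hjk' _ hSs

theorem p_L1 : T_L1 := by
  classical
  intro M G _ _ _ F d hVC c1 c2 hc
  by_contra hcon
  push Not at hcon
  by_cases h1 : c1 = 0
  · obtain ⟨a, b, h⟩ := hcon {0, 1}
    have h3 := (h 0 (by simp)).1
    have h4 := (h 1 (by simp)).1
    rw [h1, map_eq_zero] at h3 h4
    rw [add_zero] at h3
    rw [h3, zero_add] at h4
    exact one_ne_zero h4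
  by_cases h2 : c2 = 0
  · obtain ⟨a, b, h⟩ := hcon {0, 1}
    have h3 := (h 0 (by simp)).2.1
    have h4 := (h 1 (by simp)).2.1
    rw [h2, map_eq_zero] at h3 h4
    rw [add_zero] at h3
    rw [h3, zero_add] at h4
    exact one_ne_zero h4
  obtain ⟨a, b, hab⟩ := L1_step M G F c1 c2 h1 h2 hcon d
  refine hVC (fun i => a i) (fun S => ∑ l ∈ S.image (fun i : Fin d => (i : ℕ)), b l) c2 h2 ?_
  intro i S
  have hS : S.image (fun i : Fin d => (i : ℕ)) ⊆ Finset.range d := by
    intro l hl
    obtain ⟨i, _, rfl⟩ := Finset.mem_image.1 hl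
    exact Finset.mem_range.2 i.2
  have h3 := hab i i.2 _ hS
  have h4 : (i : ℕ) ∈ S.image (fun i : Fin d => (i : ℕ)) ↔ i ∈ S := by
    constructor
    · intro h
      obtain ⟨j, hj, hij⟩ := Finset.mem_image.1 h
      rwa [← Fin.ext hij]
    · intro h
      exact Finset.mem_image_of_mem (fun i : Fin d => (i : ℕ)) h
  constructor
  · intro h
    by_contra hi
    rw [← h4] at hi
    exact hc ((h3.2 hi).symm.trans h)
  · intro h
    exact h3.1 (h4.2 h)

end NST
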