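import Pool.Agent.NST.TA

/-!
# NST-L1L: transfer of L1 to the ultrapower
-/

set_option autoImplicit false

namespace NST

open Filter Polynomial

theorem p_L1L (h1 : T_L1) : T_L1L := by
  intro M G _ _ _ F d hF c1 c2 hc
  obtain ⟨U, hU⟩ := h1 M G F d hF c1 c2 hc
  refine ⟨U, fun a b h => ?_⟩
  obtain ⟨a, rfl⟩ := exists_mk a
  obtain ⟨b, rfl⟩ := exists_mk b
  have key : ∀ᶠ n in (Uf : Filter ℕ), ∀ u ∈ U,
      F (a n + u) = c1 ∧ F (a n + b n + u) = c2 ∧ F (1 + b n * u) = 1 := by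
    refine (Finset.eventually_all U).2 fun u hu => ?_
    obtain ⟨h2, h3, h4⟩ := h u hu
    have e2 : mk a + cst u = mk fun n => a n + u := rfl
    have e3 : mk a + mk b + cst u = mk fun n => a n + b n + u := rfl
    have e4 : 1 + mk b * cst u = mk fun n => 1 + b n * u := rfl
    rw [e2, Fs_mk_iff] at h2
    rw [e3, Fs_mk_iff] at h3
    rw [e4, Fs_mk_iff] at h4
    filter_upwards [h2, h3, h4] with n h2 h3 h4
    exact ⟨h2, h3, h4⟩
  obtain ⟨n, hn⟩ := key.exists
  exact hU (a n) (b n) hn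

end NST
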