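import Pool.Agent.NST.TA

/-!
# NST-L2 (second use of NIP)
-/

set_option autoImplicit false

noncomputable section

namespace NST

open Filter Polynomial

namespace L2_

variable {M G : Type} [Field M] [CommGroupWithZero G]

/-- the point `y S` of level `k` -/
def yy (z e0 e1 : ℕ → M) (k : ℕ) (S : Finset ℕ) : M :=
  1 + ∑ l ∈ Finset.range k, (if l ∈ S then e1 l else e0 l) * z l

/-- the point `x j` -/
def xx (z e1 : ℕ → M) (j : ℕ) : M := - e1 j * z j

lemma yy_succ (z e0 e1 : ℕ → M) (k : ℕ) (S : Finset ℕ) :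
    yy z e0 e1 (k + 1) S = yy z e0 e1 k S + (if k ∈ S then e1 k else e0 k) * z k := by
  simp only [yy, Finset.sum_range_succ, add_assoc]

lemma yy_congr {z e0 e1 z' e0' e1' : ℕ → M} (k : ℕ) (hz : ∀ l < k, z l = z' l)
    (h0 : ∀ l < k, e0 l = e0' l) (h1 : ∀ l < k, e1 l = e1' l) (S : Finset ℕ) :
    yy z e0 e1 k S = yy z' e0' e1' k S := by
  simp only [yy]
  congr 1
  refine Finset.sum_congr rfl fun l hl => ?_
  have hl' := Finset.mem_range.mp hl
  rw [hz l hl', h0 l hl', h1 l hl']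

lemma yy_inter (z e0 e1 : ℕ → M) (k : ℕ) (S : Finset ℕ) :
    yy z e0 e1 k S = yy z e0 e1 k (S ∩ Finset.range k) := by
  simp only [yy]
  congr 1
  refine Finset.sum_congr rfl fun l hl => ?_
  have : (l ∈ S ∩ Finset.range k) ↔ l ∈ S := by
    rw [Finset.mem_inter]; exact and_iff_left hl
  by_cases h : l ∈ S
  · rw [if_pos h, if_pos (this.mpr h)]
  · rw [if_neg h, if_neg (fun h' => h (this.mp h'))]

/-- the induction statement -/
def Stt (F : M →*₀ G) (κ : G) (k : ℕ) (z e0 e1 : ℕ → M) : Prop :=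
  (∀ S : Finset ℕ, F (yy z e0 e1 k S) = κ ^ k) ∧
  ∀ j < k, ∀ S : Finset ℕ, F (xx z e1 j + yy z e0 e1 k S) = if j ∈ S then κ ^ (k - 1) else κ ^ k

lemma move (F : M →*₀ G) {w P e : M} {c0 c : G} (hw : w ≠ 0) (hP : P ≠ 0) (h0 : F w = c0)
    (h : F (w + e * P⁻¹) = c) : F (P + e * w⁻¹) = F P * (c / c0) := by
  have e1 : P + e * w⁻¹ = P * w⁻¹ * (w + e * P⁻¹) := by
    field_simp
  rw [e1, map_mul, map_mul, map_inv₀, h0, h, mul_assoc, mul_comm c0⁻¹ c, div_eq_mul_inv]

lemma step (F : M →*₀ G) {c0 c : G} (hc0 : c0 ≠ 0) (hc : c ≠ 0)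
    (H : ∀ Q : Finset M, (∀ P ∈ Q, P ≠ 0) → ∃ w e0 e1 : M, F w = c0 ∧ ∀ P ∈ Q,
      F (w + e0 * P) = c ∧ F (w + e1 * P) = c ∧ F (w + (e0 - e1) * P) = c)
    (k : ℕ) (z e0 e1 : ℕ → M) (hS : Stt F (c / c0) k z e0 e1) :
    ∃ z' e0' e1' : ℕ → M, Stt F (c / c0) (k + 1) z' e0' e1' := by
  classical
  set κ : G := c / c0 with hκ
  have hκ0 : κ ≠ 0 := div_ne_zero hc hc0
  obtain ⟨hY, hX⟩ := hS
  have hYne : ∀ S, yy z e0 e1 k S ≠ 0 := fun S h => by
    have := hY S
    rw [h, map_zero] at this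
    exact pow_ne_zero k hκ0 this.symm
  have hXne : ∀ j < k, ∀ S, xx z e1 j + yy z e0 e1 k S ≠ 0 := fun j hj S h => by
    have := hX j hj S
    rw [h, map_zero] at this
    by_cases hjS : j ∈ S
    · rw [if_pos hjS] at this; exact pow_ne_zero _ hκ0 this.symm
    · rw [if_neg hjS] at this; exact pow_ne_zero _ hκ0 this.symm
  set Q : Finset M := ((Finset.range k).powerset.image fun S => (yy z e0 e1 k S)⁻¹) ∪
    (((Finset.range k).powerset ×ˢ Finset.range k).image fun p =>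
      (xx z e1 p.2 + yy z e0 e1 k p.1)⁻¹) with hQ
  have hQne : ∀ P ∈ Q, P ≠ 0 := by
    intro P hP
    rcases Finset.mem_union.mp hP with h | h
    · obtain ⟨S, _, rfl⟩ := Finset.mem_image.mp h
      exact inv_ne_zero (hYne S)
    · obtain ⟨p, hp, rfl⟩ := Finset.mem_image.mp h
      exact inv_ne_zero (hXne p.2 (Finset.mem_range.mp (Finset.mem_product.mp hp).2) p.1)
  obtain ⟨w, a0, a1, hw0, hw⟩ := H Q hQne
  have hwne : w ≠ 0 := fun h => by
    rw [h, map_zero] at hw0; exact hc0 hw0.symm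
  have memY : ∀ S, (yy z e0 e1 k S)⁻¹ ∈ Q := fun S => by
    rw [yy_inter]
    exact Finset.mem_union_left _ (Finset.mem_image.mpr ⟨S ∩ Finset.range k,
      Finset.mem_powerset.mpr Finset.inter_subset_right, rfl⟩)
  have memX : ∀ j < k, ∀ S, (xx z e1 j + yy z e0 e1 k S)⁻¹ ∈ Q := fun j hj S => by
    rw [yy_inter]
    exact Finset.mem_union_right _ (Finset.mem_image.mpr ⟨(S ∩ Finset.range k, j),
      Finset.mem_product.mpr ⟨Finset.mem_powerset.mpr Finset.inter_subset_right,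
        Finset.mem_range.mpr hj⟩, rfl⟩)
  -- moving a value
  have mv : ∀ P : M, P ≠ 0 → P⁻¹ ∈ Q → F (P + a0 * w⁻¹) = F P * κ ∧ F (P + a1 * w⁻¹) = F P * κ ∧
      F (P + (a0 - a1) * w⁻¹) = F P * κ := fun P hP hPQ =>
    ⟨move F hwne hP hw0 (hw _ hPQ).1, move F hwne hP hw0 (hw _ hPQ).2.1,
      move F hwne hP hw0 (hw _ hPQ).2.2⟩
  refine ⟨Function.update z k w⁻¹, Function.update e0 k a0, Function.update e1 k a1, ?_⟩
  set z' := Function.update z k w⁻¹ with hz'
  set e0' := Function.update e0 k a0 with he0'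
  set e1' := Function.update e1 k a1 with he1'
  have hyk : ∀ S, yy z' e0' e1' k S = yy z e0 e1 k S := fun S =>
    yy_congr k (fun l hl => by rw [hz', Function.update_of_ne (ne_of_lt hl)])
      (fun l hl => by rw [he0', Function.update_of_ne (ne_of_lt hl)])
      (fun l hl => by rw [he1', Function.update_of_ne (ne_of_lt hl)]) S
  have hxk : ∀ j < k, xx z' e1' j = xx z e1 j := fun j hj => by
    rw [xx, xx, hz', he1', Function.update_of_ne (ne_of_lt hj), Function.update_of_ne (ne_of_lt hj)]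
  have hzk : z' k = w⁻¹ := by rw [hz', Function.update_self]
  have h0k : e0' k = a0 := by rw [he0', Function.update_self]
  have h1k : e1' k = a1 := by rw [he1', Function.update_self]
  refine ⟨fun S => ?_, fun j hj S => ?_⟩
  · rw [yy_succ, hyk, hzk, h0k, h1k, pow_succ, ← hY S]
    by_cases hkS : k ∈ S
    · rw [if_pos hkS]; exact (mv _ (hYne S) (memY S)).2.1
    · rw [if_neg hkS]; exact (mv _ (hYne S) (memY S)).1
  · rcases Nat.lt_succ_iff_lt_or_eq.mp hj with hj | rfl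
    · have hk : k - 1 + 1 = k := Nat.sub_add_cancel (Nat.one_le_of_lt hj)
      rw [yy_succ, hyk, hzk, h0k, h1k, hxk j hj, ← add_assoc, Nat.add_sub_cancel]
      have key : F (xx z e1 j + yy z e0 e1 k S + (if k ∈ S then a1 else a0) * w⁻¹) =
          F (xx z e1 j + yy z e0 e1 k S) * κ := by
        by_cases hkS : k ∈ S
        · rw [if_pos hkS]; exact (mv _ (hXne j hj S) (memX j hj S)).2.1
        · rw [if_neg hkS]; exact (mv _ (hXne j hj S) (memX j hj S)).1
      rw [key, hX j hj S]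
      by_cases hjS : j ∈ S
      · rw [if_pos hjS, if_pos hjS, ← pow_succ, hk]
      · rw [if_neg hjS, if_neg hjS, ← pow_succ]
    · rw [yy_succ, hyk, xx, hzk, h0k, h1k, Nat.add_sub_cancel]
      by_cases hjS : j ∈ S
      · rw [if_pos hjS, if_pos hjS, ← hY S]
        congr 1
        ring
      · rw [if_neg hjS, if_neg hjS, pow_succ, ← hY S,
          ← (mv _ (hYne S) (memY S)).2.2]
        congr 1
        ring

end L2_

open L2_ in
theorem p_L2 : T_L2 := by
  intro M G _ _ _ F d hV c0 c hc0 hc hne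
  by_contra hcon
  push Not at hcon
  have H : ∀ Q : Finset M, (∀ P ∈ Q, P ≠ 0) → ∃ w e0 e1 : M, F w = c0 ∧ ∀ P ∈ Q,
      F (w + e0 * P) = c ∧ F (w + e1 * P) = c ∧ F (w + (e0 - e1) * P) = c := hcon
  have hκ0 : c / c0 ≠ 0 := div_ne_zero hc hc0
  have hκ1 : c / c0 ≠ 1 := fun h => hne ((div_eq_one_iff_eq hc0).mp h).symm
  have all : ∀ k : ℕ, ∃ z e0 e1 : ℕ → M, Stt F (c / c0) k z e0 e1 := by
    intro k
    induction k with
    | zero =>
      refine ⟨fun _ => 0, fun _ => 0, fun _ => 0, fun S => ?_, fun j hj => absurd hj (Nat.not_lt_zero j)⟩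
      simp only [yy, Finset.range_zero, Finset.sum_empty, add_zero, map_one, pow_zero]
    | succ k ih =>
      obtain ⟨z, e0, e1, h⟩ := ih
      exact step F hc0 hc H k z e0 e1 h
  rcases Nat.eq_zero_or_pos d with rfl | hd
  · exact hV (fun i => i.elim0) (fun _ => 0) 1 one_ne_zero (fun i => i.elim0)
  · obtain ⟨z, e0, e1, -, hX⟩ := all d
    refine hV (fun i => xx z e1 i) (fun S => yy z e0 e1 d (S.map Fin.valEmbedding))
      ((c / c0) ^ (d - 1)) (pow_ne_zero _ hκ0) fun i S => ?_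
    have hmem : ((i : ℕ) ∈ S.map Fin.valEmbedding) ↔ i ∈ S := by
      rw [← Fin.valEmbedding_apply, Finset.mem_map' Fin.valEmbedding]
    rw [hX i i.isLt]
    by_cases hi : i ∈ S
    · rw [if_pos (hmem.mpr hi)]
      exact ⟨fun _ => hi, fun _ => rfl⟩
    · rw [if_neg fun h => hi (hmem.mp h)]
      refine ⟨fun h => ?_, fun h => absurd h hi⟩
      exfalso
      have h2 : (c / c0) ^ (d - 1) * (c / c0) = (c / c0) ^ (d - 1) * 1 := by
        rw [mul_one, ← pow_succ, Nat.sub_add_cancel hd, h]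
      exact hκ1 (mul_left_cancel₀ (pow_ne_zero _ hκ0) h2)

end NST
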