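import Pool.Agent.NST.TA

/-!
# NST: L2L, transfer of L2 to the ultrapower
-/

set_option autoImplicit false

namespace NST

open Filter

namespace L2L_

theorem aux {M G : Type} [Field M] [CommGroupWithZero G] [Finite G] (F : M →*₀ G) (w : ℕ → M)
    (e : M) (c : G) (h : Fs F (mk w + cst e) = c) :
    ∀ᶠ n in (Uf : Filter ℕ), F (w n + e) = c := by
  rw [cst, mk_add] at h
  exact Fs_mk_iff.1 h

end L2L_

/-- transfer of L2 -/
theorem p_L2L (h1 : T_L2) : T_L2L := by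
  intro M G _ _ _ F d hd c0 c hc0 hc hne
  obtain ⟨Q, hQ0, hQ⟩ := h1 M G F d hd c0 c hc0 hc hne
  refine ⟨Q, hQ0, ?_⟩
  rintro w e0 e1 ⟨hw, hP⟩
  obtain ⟨w, rfl⟩ := exists_mk w
  have h2 : ∀ᶠ n in (Uf : Filter ℕ), F (w n) = c0 := Fs_mk_iff.1 hw
  have h3 : ∀ᶠ n in (Uf : Filter ℕ), ∀ P ∈ Q, F (w n + e0 * P) = c ∧ F (w n + e1 * P) = c ∧
      F (w n + (e0 - e1) * P) = c := by
    refine (Finset.eventually_all _).2 fun P hPQ => ?_
    obtain ⟨ha, hb, hc'⟩ := hP P hPQ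
    filter_upwards [L2L_.aux F w _ c ha, L2L_.aux F w _ c hb, L2L_.aux F w _ c hc'] with n a b c'
    exact ⟨a, b, c'⟩
  obtain ⟨n, hn0, hn⟩ := (h2.and h3).exists
  exact hQ (w n) e0 e1 ⟨hn0, hn⟩

end NST
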