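import Pool.Agent.NST.TB

/-!
# NST: target LF, improving idempotents
-/

set_option autoImplicit false
set_option linter.unusedSectionVars false

noncomputable section

namespace NST

open Filter

section LFlemmas

variable {M : Type} [Field M]

theorem LF_sub {L : Type} [Field L] (V : ValuationSubring L) {a b : L} (ha : a ∈ V.nonunits)
    (hb : b ∈ V.nonunits) : a - b ∈ V.nonunits := by
  rw [ValuationSubring.mem_nonunits_iff] at *
  exact Valuation.map_sub_lt _ ha hb

theorem LF_mul {L : Type} [Field L] (V : ValuationSubring L) {a b : L} (ha : a ∈ V.nonunits)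
    (hb : b ∈ V) : a * b ∈ V.nonunits := by
  rw [ValuationSubring.mem_nonunits_iff] at *
  rw [← ValuationSubring.valuation_le_one_iff] at hb
  rw [map_mul]
  exact (mul_le_of_le_one_right' hb).trans_lt ha

theorem LF_zero {L : Type} [Field L] (V : ValuationSubring L) : (0 : L) ∈ V.nonunits := by
  rw [ValuationSubring.mem_nonunits_iff, map_zero]
  exact zero_lt_one

/-- representatives of a nonzero element without zeros -/
theorem LF_rep {c : Lx M} (hc : c ≠ 0) : ∃ c' : ℕ → M, mk c' = c ∧ ∀ n, c' n ≠ 0 := by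
  classical
  obtain ⟨g, rfl⟩ := exists_mk c
  refine ⟨fun n => if g n = 0 then 1 else g n, ?_, ?_⟩
  · rw [mk_eq]
    rw [mk_ne_zero] at hc
    exact hc.mono fun n hn => if_neg hn
  · intro n
    by_cases h : g n = 0
    · simp [h]
    · simp [h]

end LFlemmas

theorem p_LF (h1 : T_AP) (h2 : T_SC) : T_LF := by
  intro M _ n V D hD hI hV f hf c hc
  obtain ⟨f', rfl⟩ := exists_mk f
  obtain ⟨c', rfl, hc'⟩ := LF_rep hc
  -- the elements of AP
  have hAP := h1 M n V D hD hI (mk f') hf
  choose φ hφ using hAP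
  have hφ' : ∀ j, ∀ᶠ m in (Uf : Filter ℕ), φ j - f' m ∈ D j := by
    intro j
    have h := hφ j
    unfold cst at h
    rw [mk_sub, mem_St] at h
    exact h
  -- division by a standard element
  have hdiv : ∀ r, ∀ᶠ m in (Uf : Filter ℕ), f' m * (1 - f' m) / c' r ∈ D r := by
    intro r
    have h3 : ∀ k, (mk f' - mk f' * mk f') * cst (c' r)⁻¹ ∈ (V k).nonunits := by
      intro k
      apply LF_mul (V k) _ (hV k _)
      have h := LF_sub (V k) (LF_zero (V k)) (hf k)
      rw [zero_sub, neg_sub] at h
      exact h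
    have h4 := (hI _).1 h3 r
    unfold cst at h4
    rw [mk_mul, mk_sub, mk_mul, mem_St] at h4
    refine h4.mono fun m hm => ?_
    have h5 : f' m * (1 - f' m) / c' r = (f' m - f' m * f' m) * (c' r)⁻¹ := by
      rw [div_eq_mul_inv]
      ring
    rw [h5]
    exact hm
  have hex : ∀ r, ∃ m, f' m * (1 - f' m) / c' r ∈ D r ∧ ∀ j ∈ Finset.range (r + 1), φ j - f' m ∈ D j := by
    intro r
    have h3 : ∀ᶠ m in (Uf : Filter ℕ), ∀ j ∈ Finset.range (r + 1), φ j - f' m ∈ D j :=
      (Finset.eventually_all _).2 fun j _ => hφ' j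
    exact ((hdiv r).and h3).exists
  choose m hm1 hm2 using hex
  have h0 : ∀ j, (0 : M) ∈ D j := by
    intro j
    have h := (hI (cst 0)).1 (fun k => by
      rw [cst_zero]
      exact LF_zero (V k)) j
    exact cst_mem_St.1 h
  refine ⟨mk fun r => f' (m r), ?_, ?_⟩
  · rw [hI]
    intro i
    have hsc := h2 M D hD (fun x y z hx hy hz => by
      rw [← hI] at hx hy hz ⊢
      intro k
      exact LF_sub (V k) (LF_sub (V k) (hx k) (hy k)) (hz k)) i
    obtain ⟨j, hj⟩ := hsc
    rw [mk_sub, mem_St]
    filter_upwards [hφ' j, eventually_ge j] with r hr hjr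
    have h5 := hj _ hr _ (hm2 r j (Finset.mem_range.2 (by omega))) _ (h0 j)
    have h6 : φ j - f' r - (φ j - f' (m r)) - 0 = f' (m r) - f' r := by ring
    rw [h6] at h5
    exact h5
  · rw [hI]
    intro i
    have h7 : (mk fun r => f' (m r)) * (1 - mk fun r => f' (m r)) / mk c' =
        mk fun r => f' (m r) * (1 - f' (m r)) / c' r := rfl
    rw [h7, mem_St]
    filter_upwards [eventually_ge i] with r hr
    exact hD hr (hm1 r)

end NST
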