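import Pool.Agent.NST.TA

/-!
# NST-NE: there are nonzero infinitesimals
-/

set_option autoImplicit false

noncomputable section

namespace NST

open Filter

/-- nonzero infinitesimals exist -/
theorem p_NE (h1 : T_G0) : T_NE := by
  classical
  intro M G _ _ _ _ _ F
  obtain ⟨f, hf⟩ := exists_surjective_nat M
  let U : ℕ → Finset M := fun n => insert 1 ((Finset.range n).image f)
  have hG : ∀ n, ∃ e k : M, e ≠ 0 ∧ k ≠ 0 ∧ ∀ t ∈ U n, F (e + k * t) = F e := by
    intro n
    obtain ⟨e, k, hk, he⟩ := h1 M G (fun m => F m) (U n)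
    have hk' : (k : M) ≠ 0 := Nat.cast_ne_zero.2 hk.ne'
    refine ⟨e, k, ?_, hk', he⟩
    rintro rfl
    have h := he 1 (Finset.mem_insert_self _ _)
    simp only [zero_add, mul_one, map_zero] at h
    exact hk' (by simpa using h)
  choose e k he hk h using hG
  refine ⟨mk fun n => k n / e n, ?_, ?_⟩
  · intro u
    change Fs F (mk fun n => 1 + k n / e n * u) = 1
    rw [Fs_mk_iff]
    obtain ⟨i, rfl⟩ := hf u
    filter_upwards [eventually_ge (i + 1)] with n hn
    have hu : f i ∈ U n :=
      Finset.mem_insert_of_mem (Finset.mem_image_of_mem f (Finset.mem_range.2 (by omega)))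
    have h2 := h n (f i) hu
    have h3 : 1 + k n / e n * f i = (e n + k n * f i) / e n := by
      field_simp [he n]
    rw [h3, map_div₀, h2]
    exact div_self (by simpa using he n)
  · rw [mk_ne_zero]
    exact Eventually.of_forall fun n => div_ne_zero (hk n) (he n)

end NST
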