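import Pool.Agent.NST.TB

/-!
# NST: target NM (norms of elements congruent to `1`)
-/

set_option autoImplicit false

noncomputable section

namespace NST

open Filter Polynomial

theorem NM_mk_sum {M : Type} [Field M] (s : Finset ℕ) (g : ℕ → ℕ → M) :
    mk (fun m => ∑ i ∈ s, g i m) = ∑ i ∈ s, mk (g i) := by
  classical
  induction s using Finset.induction_on with
  | empty =>
    simp only [Finset.sum_empty]
    rfl
  | insert a s ha ih =>
    rw [Finset.sum_insert ha, ← ih, mk_add]
    congr 1
    funext m
    rw [Finset.sum_insert ha]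

theorem NM_norm {E E' : Type} [Field E] [Field E'] [Algebra E E'] {n : ℕ}
    (b : Module.Basis (Fin n) E E') (x : E') :
    Algebra.norm E (1 + x) - 1 =
      ∑ i ∈ Finset.range n, (-1) ^ (n + i) * (Algebra.leftMulMatrix b x).charpoly.coeff i := by
  have h1 : Algebra.norm E (1 + x) = (1 + Algebra.leftMulMatrix b x).det := by
    rw [Algebra.norm_eq_matrix_det b, map_add, map_one]
  have h2 : (Algebra.leftMulMatrix b x).charpoly.eval (-1) =
      (-1) ^ n * (1 + Algebra.leftMulMatrix b x).det := by
    rw [Matrix.eval_charpoly]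
    have h3 : Matrix.scalar (Fin n) (-1 : E) - Algebra.leftMulMatrix b x =
        -(1 + Algebra.leftMulMatrix b x) := by
      rw [map_neg, map_one]
      abel
    rw [h3, Matrix.det_neg, Fintype.card_fin]
  have h4 : (-1 : E) ^ n * (-1) ^ n = 1 := by
    rw [← mul_pow]
    simp
  have h5 : (1 + Algebra.leftMulMatrix b x).det =
      (-1) ^ n * (Algebra.leftMulMatrix b x).charpoly.eval (-1) := by
    rw [h2, ← mul_assoc, h4, one_mul]
  have hn : (Algebra.leftMulMatrix b x).charpoly.natDegree = n := by
    rw [Matrix.charpoly_natDegree_eq_dim, Fintype.card_fin]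
  have hm : (Algebra.leftMulMatrix b x).charpoly.coeff n = 1 := by
    have := (Matrix.charpoly_monic (Algebra.leftMulMatrix b x)).coeff_natDegree
    rwa [hn] at this
  rw [h1, h5, eval_eq_sum_range, hn, Finset.sum_range_succ, hm, mul_add, one_mul, h4,
    add_sub_cancel_right, Finset.mul_sum]
  refine Finset.sum_congr rfl fun i _ => ?_
  rw [pow_add]
  ring

theorem p_NM (h3 : T_CN) : T_NM := by
  intro E E' _ _ _ _ V z hz
  have b := Module.finBasis E E'
  have h := (h3 E E' _ b V z).1 hz
  obtain ⟨f, rfl⟩ := exists_mk z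
  have h1 : mapL (fun x => Algebra.norm E x) (1 + mk f) - 1 =
      ∑ i ∈ Finset.range (Module.finrank E E'), (-1) ^ (Module.finrank E E' + i) *
        mapL (fun x => (Algebra.leftMulMatrix b x).charpoly.coeff i) (mk f) := by
    have h2 : mapL (fun x => Algebra.norm E x) (1 + mk f) - 1 =
        mk (fun m => Algebra.norm E (1 + f m) - 1) := rfl
    rw [h2]
    have h4 : (fun m => Algebra.norm E (1 + f m) - 1) =
        fun m => ∑ i ∈ Finset.range (Module.finrank E E'), (-1) ^ (Module.finrank E E' + i) *
          (Algebra.leftMulMatrix b (f m)).charpoly.coeff i := by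
      funext m
      exact NM_norm b (f m)
    rw [h4, NM_mk_sum]
    rfl
  rw [h1]
  refine V.nonunits.sum_mem fun i hi => ?_
  rw [Finset.mem_range] at hi
  exact nu_mul (pow_mem (V.neg_mem _ V.one_mem) _) (h i hi)

end NST
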