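import Pool.Agent.NST.TC

/-!
# NST: NZ1 (degree prime to `q`) (helper14)
-/

set_option autoImplicit false

namespace NST

/-- NZ1 -/
theorem p_NZ1 : T_NZ1 := by
  intro E E' _ _ _ _ q hq hco hF
  unfold Ful at hF
  push Not at hF
  obtain ⟨a, ha⟩ := hF
  refine ⟨algebraMap E E' a, ?_⟩
  rintro ⟨y, hy⟩
  rw [Algebra.norm_algebraMap] at hy
  have ha0 : a ≠ 0 := by
    rintro rfl
    exact ha 0 (by rw [zero_pow hq.ne'])
  have hy0 : y ≠ 0 := by
    rintro rfl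
    rw [zero_pow hq.ne'] at hy
    exact pow_ne_zero _ ha0 hy
  have hb := Nat.gcd_eq_gcd_ab (Module.finrank E E') q
  rw [hco.gcd_eq_one] at hb
  set u := Nat.gcdA (Module.finrank E E') q
  set v := Nat.gcdB (Module.finrank E E') q
  refine ha (y ^ u * a ^ v) ?_
  have h1 : a = a ^ (1 : ℤ) := (zpow_one a).symm
  have hb' : (1 : ℤ) = (Module.finrank E E' : ℤ) * u + (q : ℤ) * v := by
    exact_mod_cast hb
  calc a = a ^ (1 : ℤ) := h1
    _ = a ^ ((Module.finrank E E' : ℤ) * u + (q : ℤ) * v) := by rw [← hb']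
    _ = (a ^ (Module.finrank E E' : ℤ)) ^ u * (a ^ (q : ℤ)) ^ v := by
        rw [zpow_add₀ ha0, zpow_mul, zpow_mul]
    _ = (y ^ (q : ℤ)) ^ u * (a ^ (q : ℤ)) ^ v := by
        rw [zpow_natCast a, hy, zpow_natCast y]
    _ = (y ^ u * a ^ v) ^ q := by
        rw [mul_pow, ← zpow_natCast (y ^ u), ← zpow_natCast (a ^ v), ← zpow_mul, ← zpow_mul,
          ← zpow_mul, ← zpow_mul, mul_comm u, mul_comm v]

end NST
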