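import Pool.Agent.NST.TC

/-!
NST, target NZ2: a Galois extension of prime degree `q` of a field with a primitive `q`-th root of
unity and a square root of `-1` has an element whose norm is not a `q`-th power.
-/

set_option autoImplicit false

noncomputable section

namespace NST

open Polynomial

theorem p_NZ2 : T_NZ2 := by
  intro E E' _ _ _ _ _ _ q ζ j hq hζ hj hfr
  have hpos : 0 < Module.finrank E E' := Module.finrank_pos
  have hK : (primitiveRoots (Module.finrank E E') E).Nonempty :=
    ⟨ζ, (mem_primitiveRoots hpos).mpr (by rw [hfr]; exact hζ)⟩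
  have : Fact q.Prime := ⟨hq⟩
  have : IsCyclic Gal(E'/E) := by
    apply isCyclic_of_prime_card (p := q)
    rw [IsGalois.card_aut_eq_finrank, hfr]
  obtain ⟨α, ⟨d, hd⟩, hα⟩ := exists_root_adjoin_eq_top_of_isCyclic E E' hK
  have hirr : Irreducible (X ^ (Module.finrank E E') - C d : E[X]) :=
    irreducible_X_pow_sub_C_of_root_adjoin_eq_top hd.symm hα
  rw [hfr] at hirr hd
  have hint : IsIntegral E α := IsIntegral.of_finite E α
  have hmonic : (X ^ q - C d : E[X]).Monic := monic_X_pow_sub_C d hq.ne_zero
  have hmin : minpoly E α = X ^ q - C d := by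
    refine (minpoly.eq_of_irreducible_of_monic hirr ?_ hmonic).symm
    rw [map_sub, map_pow, aeval_X, aeval_C, hd, sub_self]
  have hadj : Algebra.adjoin E {α} = ⊤ := by
    have h1 := IntermediateField.adjoin_simple_toSubalgebra_of_isAlgebraic (F := E) (α := α)
      hint.isAlgebraic
    rw [← h1, hα]
    rfl
  let pb : PowerBasis E E' := PowerBasis.ofAdjoinEqTop hint hadj
  have hgen : pb.gen = α := PowerBasis.ofAdjoinEqTop_gen hint hadj
  have hnorm := Algebra.PowerBasis.norm_gen_eq_coeff_zero_minpoly pb
  have hdim : pb.dim = q := by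
    rw [← pb.natDegree_minpoly, hgen, hmin, natDegree_X_pow_sub_C]
  rw [hgen, hmin, hdim] at hnorm
  have hc : (X ^ q - C d : E[X]).coeff 0 = - d := by
    rw [coeff_sub, coeff_X_pow, coeff_C_zero, if_neg hq.ne_zero.symm, zero_sub]
  rw [hc] at hnorm
  have hno : ∀ u : E, d ≠ u ^ q := by
    intro u hu
    have hroot : IsRoot (X ^ q - C d : E[X]) u := by
      rw [IsRoot, eval_sub, eval_pow, eval_X, eval_C, hu, sub_self]
    have h1 := degree_eq_one_of_irreducible_of_root hirr hroot
    rw [degree_X_pow_sub_C hq.pos] at h1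
    have h2 : q = 1 := by exact_mod_cast h1
    exact hq.one_lt.ne' h2
  refine ⟨α, ?_⟩
  rintro ⟨y, hy⟩
  rw [hnorm] at hy
  rcases hq.eq_two_or_odd' with h2 | hodd
  · subst h2
    refine hno (j * y) ?_
    have : -d = y ^ 2 := by rw [← hy]; ring
    rw [mul_pow, hj, ← this]
    ring
  · refine hno y ?_
    rw [← hy, hodd.neg_one_pow]
    ring

end NST
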