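import Pool.Agent.NST.TC

set_option autoImplicit false

noncomputable section

namespace NST

open Filter Polynomial

/-- adjunction of a `q`-th root -/
theorem ON_root (N : Type) [Field N] (q : ℕ) (hq : 0 < q) (d : N) :
    ∃ (N' : Type) (_ : Field N') (_ : Algebra N N') (_ : FiniteDimensional N N') (δ : N'),
      δ ^ q = algebraMap N N' d ∧ IntermediateField.adjoin N {δ} = ⊤ := by
  have hdeg : (X ^ q - C d : N[X]).natDegree ≠ 0 := by
    rw [natDegree_X_pow_sub_C]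
    omega
  obtain ⟨g, hg, hdvd⟩ := Polynomial.exists_irreducible_of_natDegree_ne_zero hdeg
  have : Fact (Irreducible g) := ⟨hg⟩
  refine ⟨AdjoinRoot g, inferInstance, inferInstance,
    (AdjoinRoot.powerBasis hg.ne_zero).finite, AdjoinRoot.root g, ?_, ?_⟩
  · obtain ⟨h, hh⟩ := hdvd
    have h1 : aeval (AdjoinRoot.root g) (X ^ q - C d : N[X]) = 0 := by
      rw [hh, map_mul, AdjoinRoot.aeval_eq, AdjoinRoot.mk_self, zero_mul]
    rw [map_sub, map_pow, aeval_X, aeval_C, sub_eq_zero] at h1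
    exact h1
  · rw [eq_top_iff]
    intro x _
    refine IntermediateField.algebra_adjoin_le_adjoin N _ ?_
    rw [AdjoinRoot.adjoinRoot_eq_top]
    exact Algebra.mem_top

theorem ON_min {E : Type} [Field E] {q : ℕ} (h : OpF E q) :
    ∃ s : Set (ValuationSubring (Lx E)), Ctl q s ∧
      ∀ s' : Set (ValuationSubring (Lx E)), Ctl q s' → s.ncard ≤ s'.ncard := by
  classical
  have h1 : ∃ n : ℕ, ∃ s : Set (ValuationSubring (Lx E)), Ctl q s ∧ s.ncard = n := by
    obtain ⟨s, hs⟩ := h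
    exact ⟨s.ncard, s, hs, rfl⟩
  obtain ⟨s, hs, hn⟩ := Nat.find_spec h1
  refine ⟨s, hs, fun s' hs' => ?_⟩
  rw [hn]
  exact Nat.find_min' h1 ⟨s', hs', rfl⟩

theorem ON_wit {E : Type} [Field E] [CharZero E] {q : ℕ} (h3 : T_SX)
    {s : Set (ValuationSubring (Lx E))} (hs : Ctl q s)
    (hmin : ∀ s' : Set (ValuationSubring (Lx E)), Ctl q s' → s.ncard ≤ s'.ncard)
    {V₁ : ValuationSubring (Lx E)} (hV : V₁ ∈ s) :
    ∃ a : E, a ≠ 0 ∧ (¬ ∃ y, a = y ^ q) ∧ ∀ V ∈ s, V ≠ V₁ → LP q V (cst a) := by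
  have h1 : ¬ Ctl q (s \ {V₁}) := by
    intro hc
    have h2 := hmin _ hc
    have h4 := Set.ncard_sdiff_singleton_lt_of_mem hV hs.fin
    omega
  have h2 : ∃ x : Lx E, x ≠ 0 ∧ (∀ V ∈ s \ {V₁}, x - 1 ∈ V.nonunits) ∧ ¬ ∃ y, x = y ^ q := by
    by_contra hc
    push Not at hc
    apply h1
    refine ⟨hs.fin.subset Set.sdiff_subset, fun V hV' => hs.mon V hV'.1, fun x hx hx' => ?_⟩
    exact hc x hx hx'
  obtain ⟨x, hx0, hx1, hx2⟩ := h2
  exact h3 E q s hs V₁ hV x hx0 hx2 (fun V hV' hne => hx1 V ⟨hV', hne⟩)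

theorem p_ON (h1 : T_FU) (h2 : T_LO) (h3 : T_SX) (h4 : T_RS) (h5 : NFV.T_KUM) : T_ON := by
  classical
  intro E _ _ q ζ hq hζ hO
  obtain ⟨s, hs, hmin⟩ := ON_min (hO E)
  by_cases hsub : ∀ V ∈ s, ∀ W ∈ s, V = W
  · by_cases hne : s.Nonempty
    · obtain ⟨V, hV⟩ := hne
      right
      refine ⟨V, hs.mon V hV, fun x hx => ?_⟩
      refine hs.pow x (ne_zero_of_one hx) fun W hW => ?_
      rw [← hsub V hV W hW]
      exact hx
    · left
      rw [Set.not_nonempty_iff_eq_empty] at hne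
      intro x
      by_cases hx : x = 0
      · exact ⟨0, by rw [hx, zero_pow hq.ne_zero]⟩
      · rw [← cst_pow_iff]
        refine hs.pow (cst x) (cst_ne_zero hx) fun W hW => ?_
        rw [hne] at hW
        exact absurd hW (Set.notMem_empty _)
  · exfalso
    push Not at hsub
    obtain ⟨V₁, hV₁, V₂, hV₂, hne⟩ := hsub
    obtain ⟨a₁, ha₁0, ha₁q, ha₁⟩ := ON_wit h3 hs hmin hV₁
    obtain ⟨a₂, ha₂0, ha₂q, ha₂⟩ := ON_wit h3 hs hmin hV₂
    obtain ⟨E', iF, iA, iD, δ, hδ, htop⟩ := ON_root E q hq.pos (a₁ * a₂)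
    have iC : CharZero E' := charZero_of_injective_algebraMap (algebraMap E E').injective
    obtain ⟨s', hs'⟩ := hO E'
    set φ : E →+* E' := algebraMap E E' with hφ
    have hφ0 : ∀ x : E, x ≠ 0 → φ x ≠ 0 := fun x hx => by
      rw [Ne, map_eq_zero]
      exact hx
    have hδ0 : δ ≠ 0 := by
      intro h0
      rw [h0, zero_pow hq.ne_zero] at hδ
      exact hφ0 _ (mul_ne_zero ha₁0 ha₂0) hδ.symm
    have hw : ∃ w : E', φ a₁ = w ^ q := by
      rw [← cst_pow_iff]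
      refine h1 E' q s' hs' (cst (φ a₁)) (cst_ne_zero (hφ0 _ ha₁0)) ?_
      intro V' hV'
      have hmV : Mon (V'.comap (mapR (algebraMap E E'))) := h4 E E' V' (hs'.mon V' hV')
      by_cases hVV : V'.comap (mapR (algebraMap E E')) = V₁
      · have h6 : LP q V₁ (cst a₂) := ha₂ V₁ hV₁ hne
        obtain ⟨z, hz⟩ := h6
        rw [← hVV, nu_comap] at hz
        rw [map_sub, map_one, map_mul, map_pow, mapR_cst] at hz
        refine ⟨(cst δ * mapR (algebraMap E E') z)⁻¹, ?_⟩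
        have h7 := one_inv hz
        have h8 : cst (φ a₁) * (cst δ * mapR (algebraMap E E') z)⁻¹ ^ q
            = (cst (algebraMap E E' a₂) * (mapR (algebraMap E E') z) ^ q)⁻¹ := by
          have h9 : (cst δ : Lx E') ^ q = cst (φ a₁) * cst (φ a₂) := by
            rw [← cst_pow, hδ, map_mul, cst_mul]
          have h10 : (cst (φ a₁) : Lx E') ≠ 0 := cst_ne_zero (hφ0 _ ha₁0)
          rw [inv_pow, mul_pow, h9, mul_inv, mul_inv, mul_inv, ← hφ]
          rw [← mul_assoc, ← mul_assoc, mul_inv_cancel₀ h10, one_mul]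
        rw [h8]
        exact h7
      · have h6 : LP q (V'.comap (mapR (algebraMap E E'))) (cst a₁) := by
          by_cases hin : V'.comap (mapR (algebraMap E E')) ∈ s
          · exact ha₁ _ hin hVV
          · exact h2 E q s hs _ hmV hin _ (cst_ne_zero ha₁0)
        obtain ⟨z, hz⟩ := h6
        rw [nu_comap, map_sub, map_one, map_mul, map_pow, mapR_cst] at hz
        exact ⟨mapR (algebraMap E E') z, hz⟩
    obtain ⟨w, hw⟩ := hw
    obtain ⟨j, u, hu0, hju⟩ := h5 E E' q ζ δ (a₁ * a₂) hq hζ hδ htop a₁ w ha₁0 hw.symm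
    have hqj : ¬ q ∣ j := by
      rintro ⟨k, rfl⟩
      apply ha₁q
      refine ⟨(a₁ * a₂) ^ k * u, ?_⟩
      rw [mul_pow, ← pow_mul, mul_comm k q]
      exact hju
    have hcop : Nat.Coprime j q := by
      rw [Nat.coprime_comm, hq.coprime_iff_not_dvd]
      exact hqj
    have g1 : LP q V₂ (cst a₁) := ha₁ V₂ hV₂ (Ne.symm hne)
    have g2 : LP q V₂ (cst (a₁ * a₂) ^ j) := by
      have h6 : (cst (a₁ * a₂) : Lx E) ^ j = cst a₁ * (cst u⁻¹) ^ q := by
        have hu : (cst u : Lx E) ^ q ≠ 0 := pow_ne_zero _ (cst_ne_zero hu0)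
        have h7 : (cst a₁ : Lx E) = cst (a₁ * a₂) ^ j * cst u ^ q := by
          conv_lhs => rw [hju]
          rw [cst_mul, cst_pow, cst_pow]
        rw [h7, cst_inv, inv_pow, mul_assoc, mul_inv_cancel₀ hu, mul_one]
      rw [h6]
      exact g1.mul (LP.of_pow (cst_ne_zero (inv_ne_zero hu0)))
    have g3 : LP q V₂ (cst a₂ ^ j) := by
      have h6 : (cst a₂ : Lx E) ^ j = cst (a₁ * a₂) ^ j * (cst a₁ ^ j)⁻¹ := by
        have h7 : (cst a₁ : Lx E) ^ j ≠ 0 := pow_ne_zero _ (cst_ne_zero ha₁0)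
        rw [cst_mul, mul_pow, mul_comm (cst a₁ ^ j), mul_assoc, mul_inv_cancel₀ h7, mul_one]
      rw [h6]
      exact g2.mul (g1.pow j).inv
    have g4 : LP q V₂ (cst a₂) := by
      obtain ⟨k, hk⟩ : ∃ k : ℕ, j * k ≡ 1 [MOD q] := by
        obtain ⟨k, hk⟩ := Nat.exists_mul_mod_eq_one_of_coprime hcop hq.one_lt
        refine ⟨k, ?_⟩
        rw [Nat.ModEq, hk.2, Nat.mod_eq_of_lt hq.one_lt]
      have hjk : 1 ≤ j * k := by
        rcases Nat.eq_zero_or_pos (j * k) with h0 | h0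
        · rw [h0] at hk
          have h6 := (Nat.modEq_zero_iff_dvd).1 hk.symm
          have := Nat.le_of_dvd one_pos h6
          have := hq.one_lt
          omega
        · exact h0
      obtain ⟨l, hl⟩ := (Nat.modEq_iff_dvd' hjk).1 hk.symm
      have h6 : (cst a₂ : Lx E) = (cst a₂ ^ j) ^ k * ((cst a₂ ^ l)⁻¹) ^ q := by
        have h7 : (cst a₂ : Lx E) ≠ 0 := cst_ne_zero ha₂0
        have h8 : j * k = 1 + l * q := by
          rw [mul_comm l q]
          omega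
        rw [← pow_mul, h8, pow_add, pow_one, inv_pow, ← pow_mul, mul_assoc,
          mul_inv_cancel₀ (pow_ne_zero _ h7), mul_one]
      rw [h6]
      exact (g3.pow k).mul (LP.of_pow (inv_ne_zero (pow_ne_zero _ (cst_ne_zero ha₂0))))
    apply ha₂q
    rw [← cst_pow_iff]
    refine h1 E q s hs (cst a₂) (cst_ne_zero ha₂0) fun V hV => ?_
    by_cases hVV : V = V₂
    · rw [hVV]
      exact g4
    · exact ha₂ V hV hVV

end NST
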