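import Pool.Agent.NST.TC

/-!
# NST: OT, passing to a finite extension
-/

set_option autoImplicit false

noncomputable section

namespace NST

theorem p_OT : T_OT := by
  intro K E _ _ _ _ q h F _ _ _
  let _ : Algebra K F := ((algebraMap E F).comp (algebraMap K E)).toAlgebra
  have : IsScalarTower K E F := IsScalarTower.of_algebraMap_eq fun x => rfl
  have : FiniteDimensional K F := FiniteDimensional.trans K E F
  exact h F

end NST
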