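import Pool.Agent.NST.TC

set_option autoImplicit false

/-! # NST-PE (MP_32850b_lc): persistence of the topology under extensions -/

noncomputable section

namespace NST

open Filter Polynomial

section PE

variable {E E' : Type} [Field E] [Field E'] [Algebra E E']

theorem PE_mul (x y : Lx E') :
    mapL (fun x => Algebra.norm E x) (x * y)
      = mapL (fun x => Algebra.norm E x) x * mapL (fun x => Algebra.norm E x) y := by
  obtain ⟨x, rfl⟩ := exists_mk x
  obtain ⟨y, rfl⟩ := exists_mk y
  rw [mk_mul]
  simp only [mapL_mk, map_mul]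
  rfl

theorem PE_pow (x : Lx E') (q : ℕ) :
    mapL (fun x => Algebra.norm E x) (x ^ q) = (mapL (fun x => Algebra.norm E x) x) ^ q := by
  obtain ⟨x, rfl⟩ := exists_mk x
  rw [mk_pow]
  simp only [mapL_mk, map_pow]
  rfl

end PE

theorem p_PE (h1 : T_AA) (h2 : T_EM) (h3 : T_NM) : T_PE := by
  classical
  intro E E' _ _ _ _ _ q V V' z hq hV hV' hz
  by_contra hne
  have : CharZero E' := charZero_of_injective_algebraMap (algebraMap E E').injective
  obtain ⟨hfin, hmon⟩ := h2 E E' V hV.mon
  set s : Set (ValuationSubring (Lx E')) := {W | W.comap (mapR (algebraMap E E')) = V} with hs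
  have hz0 : z ≠ 0 := by
    rintro rfl
    exact hz ⟨0, by rw [Algebra.norm_zero, zero_pow hq.ne']⟩
  have hcz : cst z ≠ 0 := cst_ne_zero hz0
  obtain ⟨y, hy⟩ := h1 E' (insert V' s) (hfin.insert V')
    (by
      intro W hW
      rcases Set.mem_insert_iff.mp hW with rfl | hW
      · exact hV'.mon
      · exact hmon W hW)
    (fun W => if W = V' then 1 else cst z) (fun W => if W = V' then 1 else cst z)
    (by
      intro W _
      by_cases h : W = V'
      · simp only [if_pos h]
        exact one_ne_zero
      · simp only [if_neg h]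
        exact hcz)
  have hy1 : y - 1 ∈ V'.nonunits := by
    have h := hy V' (Set.mem_insert _ _)
    simpa using h
  have hy2 : ∀ W : ValuationSubring (Lx E'), W.comap (mapR (algebraMap E E')) = V →
      (y - cst z) / cst z ∈ W.nonunits := by
    intro W hW
    have h := hy W (Set.mem_insert_of_mem _ hW)
    have hWV : W ≠ V' := by
      rintro rfl
      exact hne hW
    simp only [if_neg hWV] at h
    exact h
  obtain ⟨t, ht⟩ := hV'.pow y hy1
  have h4 := h3 E E' V ((y - cst z) / cst z) hy2
  obtain ⟨u, hu⟩ := hV.pow _ h4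
  have hN0 : mapL (fun x => Algebra.norm E x) (1 + (y - cst z) / cst z) ≠ 0 := ne_zero_of_one h4
  have hu0 : u ^ q ≠ 0 := by
    rw [← hu]
    exact hN0
  have hyz : y = cst z * (1 + (y - cst z) / cst z) := by
    field_simp
    ring
  have h5 : mapL (fun x => Algebra.norm E x) y = cst (Algebra.norm E z) * u ^ q := by
    rw [← hu]
    conv_lhs => rw [hyz]
    rw [PE_mul, mapL_cst]
  rw [ht, PE_pow] at h5
  have h6 : cst (Algebra.norm E z) = (mapL (fun x => Algebra.norm E x) t / u) ^ q := by
    rw [div_pow, h5, mul_div_assoc, div_self hu0, mul_one]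
  exact hz (cst_pow_iff.mp ⟨_, h6⟩)

end NST
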