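import Pool.Agent.NST.TA

/-!
# NST: the ideal of infinitesimals is radical
-/

set_option autoImplicit false

noncomputable section

namespace NST

open Filter Polynomial

section

variable {M G : Type} [Field M] [CommGroupWithZero G] [Finite G]

lemma RA_ne {F : M →*₀ G} {R : Subring (Lx M)} (h : Rg F R) {e : Lx M} (he : e ∈ II F) :
    1 + e ≠ 0 := by
  intro h0
  have h1 := h.one e he
  rw [h0, map_zero] at h1
  exact zero_ne_one h1

lemma RA_inv {F : M →*₀ G} {R : Subring (Lx M)} (h : Rg F R) {b : Lx M} (hb : b ∈ R)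
    (hbb : b * b ∈ II F) (r : Lx M) (hr : r ∈ R) :
    1 + b * r ≠ 0 ∧ (1 + b * r)⁻¹ ∈ R := by
  have h1 : -((r * r) * (b * b)) ∈ II F := h.neg _ (h.mul _ (R.mul_mem hr hr) _ hbb)
  have h2 := RA_ne h h1
  have h3 := h.inv _ h1
  have h4 : 1 + -((r * r) * (b * b)) = (1 + b * r) * (1 - b * r) := by ring
  rw [h4] at h2 h3
  have h5 : 1 + b * r ≠ 0 := left_ne_zero_of_mul h2
  have h6 : 1 - b * r ≠ 0 := right_ne_zero_of_mul h2
  refine ⟨h5, ?_⟩
  have h7 : (1 + b * r)⁻¹ = (1 - b * r) * ((1 + b * r) * (1 - b * r))⁻¹ := by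
    field_simp
  rw [h7]
  exact R.mul_mem (R.sub_mem R.one_mem (R.mul_mem hb hr)) h3

lemma RA_add {F : M →*₀ G} {R : Subring (Lx M)} (h : Rg F R) {b : Lx M} (hb : b ∈ R)
    (hbb : b * b ∈ II F) (u v : M) :
    Fs F (1 + b * cst (u + v)) = Fs F (1 + b * cst u) * Fs F (1 + b * cst v) := by
  obtain ⟨h1, h2⟩ := RA_inv h hb hbb (cst (u + v)) (h.cst _)
  have h3 : (cst u * cst v * (1 + b * cst (u + v))⁻¹) * (b * b) ∈ II F :=
    h.mul _ (R.mul_mem (R.mul_mem (h.cst _) (h.cst _)) h2) _ hbb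
  have h4 : (1 + b * cst u) * (1 + b * cst v) = (1 + b * cst (u + v)) *
      (1 + (cst u * cst v * (1 + b * cst (u + v))⁻¹) * (b * b)) := by
    have : (1 + b * cst (u + v)) * (1 + (cst u * cst v * (1 + b * cst (u + v))⁻¹) * (b * b)) =
        (1 + b * cst (u + v)) + ((1 + b * cst (u + v)) * (1 + b * cst (u + v))⁻¹) *
          (cst u * cst v * (b * b)) := by ring
    rw [this, mul_inv_cancel₀ h1, cst_add]
    ring
  rw [← map_mul, h4, map_mul, h.one _ h3, mul_one]

end

theorem p_RA : T_RA := by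
  intro M G _ _ _ _ F R h b hb hbb u
  have hpow : ∀ (n : ℕ) (w : M), Fs F (1 + b * cst ((n : M) * w)) = Fs F (1 + b * cst w) ^ n := by
    intro n w
    induction n with
    | zero =>
      rw [Nat.cast_zero, zero_mul, cst_zero, mul_zero, add_zero, map_one, pow_zero]
    | succ n ih =>
      rw [Nat.cast_succ, add_mul, one_mul, RA_add h hb hbb, ih, pow_succ]
  have hk : 0 < Nat.card Gˣ := Nat.card_pos
  have hk' : ((Nat.card Gˣ : ℕ) : M) ≠ 0 := by exact_mod_cast hk.ne'
  set w : M := u / (Nat.card Gˣ : ℕ) with hw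
  have hu : u = (Nat.card Gˣ : ℕ) * w := by
    rw [hw, mul_div_cancel₀ _ hk']
  have hne : Fs F (1 + b * cst w) ≠ 0 := by
    rw [_root_.map_ne_zero]
    exact (RA_inv h hb hbb (cst w) (h.cst w)).1
  rw [hu, hpow]
  have := congrArg Units.val (pow_card_eq_one' (x := Units.mk0 _ hne))
  rw [Units.val_pow_eq_pow_val, Units.val_mk0, Units.val_one] at this
  exact this

end NST
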