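import Pool.Agent.NST.TA

/-!
# NST: target RG, the ring of bounded elements
-/

set_option autoImplicit false
set_option linter.unusedSectionVars false

noncomputable section

namespace NST

open Filter

section RGlemmas

variable {M G : Type} [Field M] [CommGroupWithZero G] [Finite G] {F : M →*₀ G}

theorem RG_mulc {e : Lx M} (he : e ∈ II F) (u : M) : e * cst u ∈ II F := by
  intro v
  have h := he (u * v)
  rw [cst_mul, ← mul_assoc] at h
  exact h

theorem RG_zero : (0 : Lx M) ∈ II F := by
  intro u
  rw [zero_mul, add_zero, map_one]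

theorem RG_neg {e : Lx M} (he : e ∈ II F) : -e ∈ II F := by
  have h := RG_mulc he (-1)
  rw [cst_neg, cst_one, mul_neg, mul_one] at h
  exact h

theorem RG_one {e : Lx M} (he : e ∈ II F) : Fs F (1 + e) = 1 := by
  have h := he 1
  rw [cst_one, mul_one] at h
  exact h

theorem RG_ne : (1 : Lx M) ∉ II F := by
  intro h
  have h1 := h (-1)
  rw [cst_neg, cst_one, one_mul, add_neg_cancel, map_zero] at h1
  exact zero_ne_one h1

theorem RG_ne0 {e : Lx M} (he : Fs F e = 1) : e ≠ 0 := by
  rintro rfl
  rw [map_zero] at he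
  exact zero_ne_one he

theorem RG_div {e : Lx M} (he : e ∈ II F) : e / (1 + e) ∈ II F := by
  intro u
  have h0 : 1 + e ≠ 0 := RG_ne0 (RG_one he)
  have h1 : 1 + e / (1 + e) * cst u = (1 + e * cst (1 + u)) / (1 + e) := by
    rw [cst_add, cst_one]
    field_simp
    ring
  rw [h1, map_div₀, he (1 + u), RG_one he, div_one]

theorem RG_cst (u : M) : cst u ∈ RR F := fun _ he => he u

theorem RG_bd (hC : C1 F) {e : Lx M} (he : e ∈ II F) : 1 + e ∈ RR F := by
  intro d hd
  have h0 : 1 + d ≠ 0 := RG_ne0 (RG_one hd)
  have h1 : 1 + d * (1 + e) = (1 + d) * (1 + d / (1 + d) * e) := by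
    field_simp
    ring
  rw [h1, map_mul, RG_one hd, hC _ (RG_div hd) _ he, one_mul]

theorem RG_inv (hC : C1 F) {e : Lx M} (he : e ∈ II F) : (1 + e)⁻¹ ∈ RR F := by
  have h0 : 1 + e ≠ 0 := RG_ne0 (RG_one he)
  have h1 : (1 + e)⁻¹ = 1 + -(e / (1 + e)) := by
    field_simp
    ring
  rw [h1]
  exact RG_bd hC (RG_neg (RG_div he))

theorem RG_mul {b e : Lx M} (hb : b ∈ RR F) (he : e ∈ II F) : b * e ∈ II F := by
  intro u
  have h := hb _ (RG_mulc he u)
  have h1 : 1 + b * e * cst u = 1 + e * cst u * b := by ring
  rw [h1]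
  exact h

theorem RG_add (hC : C1 F) {e e' : Lx M} (he : e ∈ II F) (he' : e' ∈ II F) : e + e' ∈ II F := by
  intro u
  have h0 : 1 + e * cst u ≠ 0 := RG_ne0 (he u)
  have h1 : 1 + (e + e') * cst u =
      (1 + e * cst u) * (1 + (1 + e * cst u)⁻¹ * (e' * cst u)) := by
    field_simp
    ring
  rw [h1, map_mul, he u, one_mul]
  exact RG_one (RG_mul (RG_inv hC (RG_mulc he u)) (RG_mulc he' u))

/-- the ring of bounded elements -/
def RG_ring (hC : C1 F) : Subring (Lx M) where
  carrier := RR F
  mul_mem' := by
    intro b b' hb hb' e he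
    have h := hb' _ (RG_mul hb he)
    have h1 : 1 + e * (b * b') = 1 + b * e * b' := by ring
    rw [h1]
    exact h
  one_mem' := by
    intro e he
    rw [mul_one]
    exact RG_one he
  add_mem' := by
    intro b b' hb hb' e he
    have h := RG_one (RG_add hC (RG_mul hb he) (RG_mul hb' he))
    have h1 : 1 + e * (b + b') = 1 + (b * e + b' * e) := by ring
    rw [h1]
    exact h
  zero_mem' := by
    intro e _
    rw [mul_zero, add_zero, map_one]
  neg_mem' := by
    intro b hb e he
    have h := hb _ (RG_neg he)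
    have h1 : 1 + e * -b = 1 + -e * b := by ring
    rw [h1]
    exact h

end RGlemmas

theorem p_RG : T_RG := by
  intro M G _ _ _ F hC
  refine ⟨RG_ring hC, ?_⟩
  exact {
    mem := fun b => Iff.rfl
    cst := fun u => RG_cst u
    sub := fun e he e' he' => hC e' he' e he
    zero := RG_zero
    neg := fun e he => RG_neg he
    add := fun e he e' he' => RG_add hC he he'
    mul := fun b hb e he => RG_mul hb he
    one := fun e he => RG_one he
    inv := fun e he => RG_inv hC he
    ne := RG_ne
    colon := by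
      intro b hb e he
      have h := RG_one (hb e he)
      have h1 : 1 + e * b = 1 + b * e := by ring
      rw [h1]
      exact h }

end NST
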