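import Pool.Agent.NST.TB

/-!
# NST-RS: restriction of monadic valuation rings
-/

set_option autoImplicit false

noncomputable section

namespace NST

open Filter Polynomial

theorem RS_comap_ne_top {L L' : Type} [Field L] [Field L'] (f : L →+* L') (hf : f.IsIntegral)
    {V' : ValuationSubring L'} (h : V' ≠ ⊤) : V'.comap f ≠ ⊤ := by
  intro h1
  apply h
  rw [eq_top_iff]
  intro z _
  obtain ⟨p, hp, hz⟩ := hf z
  refine mem_of_root f hp (fun i _ => ?_) hz
  have h2 : p.coeff i ∈ V'.comap f := by
    rw [h1]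
    exact ValuationSubring.mem_top _
  exact h2

theorem p_RS (h1 : T_UB) : T_RS := by
  intro E E' _ _ _ _ V' hV
  have hfin : (mapR (algebraMap E E')).Finite :=
    (h1 E E' (Module.finrank E E') (Module.finBasis E E')).2.2.2
  obtain ⟨D, hD, hD2⟩ := hV.mon
  refine ⟨fun u => ?_, RS_comap_ne_top _ hfin.to_isIntegral hV.ne_top, ?_⟩
  · rw [mem_comap', mapR_cst]
    exact hV.cst_mem _
  · refine ⟨fun i => {u | algebraMap E E' u ∈ D i}, fun i j hij u hu => hD hij hu, fun x => ?_⟩
    rw [nu_comap, hD2]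
    refine forall_congr' fun i => ?_
    obtain ⟨x', rfl⟩ := exists_mk x
    rw [mapR_mk, mem_St, mem_St]
    exact Iff.rfl

end NST
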