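import Pool.Agent.NST.TB

/-!
# NST: SC (shrinking) (helper14)
-/

set_option autoImplicit false

namespace NST

open Filter

/-- SC -/
theorem p_SC : T_SC := by
  intro M _ D hD h k
  by_contra hc
  push Not at hc
  choose a ha b hb c hc' hn using hc
  have hin : ∀ x : ℕ → M, (∀ j, x j ∈ D j) → ∀ i, mk x ∈ St (D i) := by
    intro x hx i
    rw [mem_St]
    exact (eventually_ge i).mono fun n hi => hD hi (hx n)
  have h1 := h (mk a) (mk b) (mk c) (hin a ha) (hin b hb) (hin c hc') k
  rw [mk_sub, mk_sub, mem_St] at h1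
  obtain ⟨n, hn'⟩ := h1.exists
  exact hn n hn'

end NST
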