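import Pool.Agent.NST.TA

/-!
# NST-SE: elements which are not infinitesimal are seen
-/

set_option autoImplicit false

noncomputable section

namespace NST

theorem SE_inv {M G : Type} [Field M] [CharZero M] [CommGroupWithZero G] [Finite G] (F : M →*₀ G)
    (R : Subring (Lx M)) (S : Finset M) (hR : Rg F R) (hS : SB F S) (w : Lx M) (n : ℕ) (hn : 0 < n)
    (hg : ∀ s, (s = 1 ∨ s ∈ S) → Fs F (w + cst (n * s)) = Fs F w) : w ≠ 0 ∧ w⁻¹ ∈ R := by
  have hn0 : (n : M) ≠ 0 := Nat.cast_ne_zero.2 (Nat.pos_iff_ne_zero.1 hn)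
  have hw : w ≠ 0 := by
    intro h0
    have h2 := hg 1 (Or.inl rfl)
    rw [mul_one, h0, zero_add, map_zero, Fs_cst, map_eq_zero] at h2
    exact hn0 h2
  refine ⟨hw, ?_⟩
  have hx : cst (n : M) * w⁻¹ ∈ R := by
    rw [hR.mem]
    apply hS
    intro s hs
    have h2 := hg s (Or.inr hs)
    have h3 : 1 + cst (n : M) * w⁻¹ * cst s = (w + cst (n * s)) * w⁻¹ := by
      rw [cst_mul, add_mul w, mul_inv_cancel₀ hw]
      ring
    rw [h3, map_mul, map_inv₀, h2]
    exact mul_inv_cancel₀ ((map_ne_zero _).2 hw)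
  have h4 : w⁻¹ = cst (n : M)⁻¹ * (cst (n : M) * w⁻¹) := by
    rw [← mul_assoc, ← cst_mul, inv_mul_cancel₀ hn0, cst_one, one_mul]
  rw [h4]
  exact R.mul_mem (hR.cst _) hx

theorem p_SE (h1 : T_L2L) (h2 : T_GB) : T_SE := by
  classical
  intro M G _ _ _ _ F d hV hN R S hR hS z hz
  have hz0 : z ≠ 0 := by
    rintro rfl
    exact hz hR.zero
  obtain ⟨u, hu⟩ : ∃ u : M, Fs F (1 + z * cst u) ≠ 1 := by
    by_contra h
    push Not at h
    exact hz h
  by_cases h0 : 1 + z * cst u = 0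
  · have hu0 : u ≠ 0 := by
      rintro rfl
      rw [cst_zero, mul_zero, add_zero] at h0
      exact one_ne_zero h0
    have hcu : cst u ≠ 0 := cst_ne_zero hu0
    have hz' : z = cst (-u⁻¹) := by
      rw [cst_neg, cst_inv]
      have h3 : z * cst u = -1 := (neg_eq_of_add_eq_zero_right h0).symm
      rw [← mul_one z, ← mul_inv_cancel₀ hcu, ← mul_assoc, h3, neg_one_mul]
    obtain ⟨x, hx, hx1⟩ := hN
    have h5 : 1 + z * cst ((1 - x) * u) = cst x := by
      rw [hz', ← cst_mul, ← cst_one, ← cst_add]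
      congr 1
      field_simp
      ring
    refine ⟨(1 - x) * u, ?_, ?_, ?_⟩
    · rw [h5]
      exact cst_ne_zero hx
    · rw [h5, hz', ← cst_div]
      exact hR.cst _
    · rw [h5, Fs_cst]
      exact hx1
  by_contra hcon
  push Not at hcon
  obtain ⟨w, hww⟩ : ∃ w, w = z⁻¹ + cst u := ⟨_, rfl⟩
  have hzw : z * w = 1 + z * cst u := by
    rw [hww, mul_add, mul_inv_cancel₀ hz0]
  have hw0 : w ≠ 0 := by
    rintro rfl
    rw [mul_zero] at hzw
    exact h0 hzw.symm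
  have hFz : Fs F z ≠ 0 := (map_ne_zero (Fs F)).2 hz0
  have hc : (Fs F z)⁻¹ ≠ 0 := inv_ne_zero hFz
  have hc0 : Fs F w ≠ 0 := (map_ne_zero (Fs F)).2 hw0
  have hne : Fs F w ≠ (Fs F z)⁻¹ := by
    intro h
    apply hu
    rw [← hzw, map_mul, h, mul_inv_cancel₀ hFz]
  obtain ⟨Q, hQ0, hQ⟩ := h1 M G F d hV (Fs F w) (Fs F z)⁻¹ hc0 hc hne
  let T : Finset M := Finset.image₂ (fun s P => s * P⁻¹) (insert 1 S) Q
  let C : M → (Q → G) := fun m P => Fs F (w + cst (m * (P : M)))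
  obtain ⟨e0, e1, g0, g1, g2⟩ := h2 M (Q → G) C T
  have claim : ∀ m : M, Good C T m → ∀ P ∈ Q, Fs F (w + cst (m * P)) = (Fs F z)⁻¹ := by
    rintro m ⟨n, hn, hg⟩ P hP
    have hP0 := hQ0 P hP
    obtain ⟨h3, h4⟩ := SE_inv F R S hR hS (w + cst (m * P)) n hn (by
      intro s hs
      have hsT : s * P⁻¹ ∈ T := Finset.mem_image₂_of_mem (Finset.mem_insert.2 hs) hP
      have h4 : Fs F (w + cst ((m + n * (s * P⁻¹)) * P)) = Fs F (w + cst (m * P)) :=
        congrFun (hg _ hsT) ⟨P, hP⟩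
      have h5 : (m + n * (s * P⁻¹)) * P = m * P + n * s := by
        field_simp
      rw [h5, cst_add, ← add_assoc] at h4
      exact h4)
    have h5 : 1 + z * cst (u + m * P) = z * (w + cst (m * P)) := by
      rw [mul_add z w, hzw, cst_add]
      ring
    have h6 : 1 + z * cst (u + m * P) ≠ 0 := by
      rw [h5]
      exact mul_ne_zero hz0 h3
    have h7 : z / (1 + z * cst (u + m * P)) = (w + cst (m * P))⁻¹ := by
      rw [h5, div_mul_eq_div_div, div_self hz0, one_div]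
    have h8 := hcon (u + m * P) h6 (by rw [h7]; exact h4)
    rw [h5, map_mul] at h8
    exact eq_inv_of_mul_eq_one_right h8
  exact hQ w e0 e1 ⟨rfl, fun P hP => ⟨claim _ g0 P hP, claim _ g1 P hP, claim _ g2 P hP⟩⟩

end NST
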