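import Pool.Agent.NST.TB

/-!
# NST: monadic valuation rings and isomorphisms
-/

set_option autoImplicit false

noncomputable section

namespace NST

open Filter Polynomial

theorem SG_right {E E' : Type} [Field E] [Field E'] (σ : E ≃+* E') (x : Lx E') :
    mapR (σ : E →+* E') (mapR (σ.symm : E' →+* E) x) = x := by
  obtain ⟨x, rfl⟩ := exists_mk x
  simp

theorem p_SG : T_SG := by
  intro E E' _ _ σ V hV
  obtain ⟨D, hD, h⟩ := hV.mon
  refine ⟨fun u => ?_, ?_, fun i => (fun x => σ x) ⁻¹' D i, fun i j hij x hx => hD hij hx,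
    fun x => ?_⟩
  · rw [mem_comap', mapR_cst]
    exact hV.cst_mem _
  · obtain ⟨x, hx, hx'⟩ := ne_top_iff.1 hV.ne_top
    refine ne_top_iff.2 ⟨mapR (σ.symm : E' →+* E) x, ?_, ?_⟩
    · rwa [Ne, map_eq_zero]
    · rw [nu_comap, SG_right]
      exact hx'
  · rw [nu_comap, h]
    obtain ⟨x, rfl⟩ := exists_mk x
    simp only [mapR_mk]
    rfl

end NST
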