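import Pool.Agent.NST.TB

/-!
# NST-SP: splitting the structure theorem into single valuation rings
-/

set_option autoImplicit false

noncomputable section

namespace NST

open Filter Polynomial

section SPsec

variable {M : Type} [Field M]

/-- the idempotent of the ring number `k` -/
theorem SP_idem {L : Type} [Field L] {n : ℕ} (V : Fin n → ValuationSubring L)
    (h2 : ∀ a : Fin n → L, (∀ k, a k ∈ V k) → ∃ x : L, (∀ k, x ∈ V k) ∧ ∀ k, x - a k ∈ (V k).nonunits)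
    (k : Fin n) : ∃ f : L, (∀ j, f ∈ V j) ∧ f - 1 ∈ (V k).nonunits ∧ ∀ j, j ≠ k → f ∈ (V j).nonunits := by
  classical
  obtain ⟨f, hf, hf'⟩ := h2 (fun j => if j = k then 1 else 0) (fun j => by
    by_cases h : j = k
    · simp only [h, if_true]
      exact (V k).one_mem
    · simp only [h, if_false]
      exact (V j).zero_mem)
  refine ⟨f, hf, ?_, fun j hj => ?_⟩
  · have := hf' k
    simpa using this
  · have := hf' j
    simpa [hj] using this

theorem SP_ff {L : Type} [Field L] {n : ℕ} (V : Fin n → ValuationSubring L) (k : Fin n) (f : L)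
    (hf : ∀ j, f ∈ V j) (h1 : f - 1 ∈ (V k).nonunits) (h2 : ∀ j, j ≠ k → f ∈ (V j).nonunits) (j : Fin n) :
    f * f - f ∈ (V j).nonunits := by
  by_cases hj : j = k
  · subst hj
    have h3 : f * f - f = f * (f - 1) := by ring
    rw [h3]
    exact nu_mul (hf _) h1
  · have h3 : f * f - f = (f - 1) * f := by ring
    rw [h3]
    exact nu_mul ((V j).sub_mem (hf j) (V j).one_mem) (h2 j hj)

/-- the maximal ideal of one ring in terms of the intersection of the maximal ideals -/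
theorem SP_iff {L : Type} [Field L] {n : ℕ} (V : Fin n → ValuationSubring L)
    (hc : ∀ x : L, ∃ c : ℕ, 0 < c ∧ x + c ≠ 0 ∧ ∀ k, (x + c)⁻¹ ∈ V k)
    (hx : ∀ a : Fin n → L, (∀ k, a k ∈ V k) → ∃ x : L, (∀ k, x ∈ V k) ∧ ∀ k, x - a k ∈ (V k).nonunits)
    (k : Fin n) (f : L) (hf : ∀ j, f ∈ V j) (h1 : f - 1 ∈ (V k).nonunits)
    (h2 : ∀ j, j ≠ k → f ∈ (V j).nonunits) (z : L) :
    z ∈ (V k).nonunits ↔ ∃ e : L, (∀ j, e - f ∈ (V j).nonunits) ∧ ∀ j, e * z ∈ (V j).nonunits := by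
  classical
  constructor
  · intro hz
    obtain ⟨c, hc0, hc1, hc2⟩ := hc z
    have hck : z + c ∈ V k := (V k).add_mem _ _ (nu_mem hz) (natCast_mem (V k) c)
    obtain ⟨b, hb, hb'⟩ := hx (fun j => if j = k then z + c else 0) (fun j => by
      by_cases h : j = k
      · subst h
        simpa using hck
      · simp only [h, if_false]
        exact (V j).zero_mem)
    have hbk : b - (z + c) ∈ (V k).nonunits := by
      have := hb' k
      simpa using this
    have hrb : (z + c)⁻¹ * b - 1 ∈ (V k).nonunits := by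
      have h3 : (z + c)⁻¹ * b - 1 = (z + c)⁻¹ * (b - (z + c)) := by
        rw [mul_sub, inv_mul_cancel₀ hc1]
      rw [h3]
      exact nu_mul (hc2 k) hbk
    refine ⟨(z + c)⁻¹ * b * f, fun j => ?_, fun j => ?_⟩
    · by_cases hj : j = k
      · subst hj
        have h4 := one_mul' hrb h1
        have h5 := (V j).nonunits.sub_mem h4 h1
        have h6 : (z + c)⁻¹ * b * f - 1 - (f - 1) = (z + c)⁻¹ * b * f - f := by ring
        rwa [h6] at h5
      · exact (V j).nonunits.sub_mem (nu_mul ((V j).mul_mem _ _ (hc2 j) (hb j)) (h2 j hj)) (h2 j hj)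
    · by_cases hj : j = k
      · subst hj
        exact nu_mul ((V j).mul_mem _ _ ((V j).mul_mem _ _ (hc2 j) (hb j)) (hf j)) hz
      · have h7 : (z + c)⁻¹ * b * f * z = ((1 - c * (z + c)⁻¹) * b) * f := by
          have h8 : (z + c)⁻¹ * z = 1 - c * (z + c)⁻¹ := by
            have h9 : (z + c)⁻¹ * (z + c) = 1 := inv_mul_cancel₀ hc1
            linear_combination h9
          rw [← h8]
          ring
        rw [h7]
        refine nu_mul ((V j).mul_mem _ _ ((V j).sub_mem (V j).one_mem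
          ((V j).mul_mem _ _ (natCast_mem (V j) c) (hc2 j))) (hb j)) (h2 j hj)
  · rintro ⟨e, he, hez⟩
    have h3 : e - 1 ∈ (V k).nonunits := by
      have h4 := (V k).nonunits.add_mem (he k) h1
      have h5 : e - f + (f - 1) = e - 1 := by ring
      rwa [h5] at h4
    have h6 : z = e⁻¹ * (e * z) := by
      rw [← mul_assoc, inv_mul_cancel₀ (ne_zero_of_one h3), one_mul]
    rw [h6]
    exact nu_mul (inv_mem_of_one h3) (hez k)

/-- the standard sets of one ring -/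
def SP_N (D : ℕ → Set M) (φ : ℕ → M) (i : ℕ) : Set M :=
  {z | ∃ e : M, e * z ∈ D i ∧ ∀ j ≤ i, ∃ a ∈ D j, ∃ b ∈ D j, φ j - e = a - b}

theorem SP_anti {D : ℕ → Set M} (hD : Antitone D) (φ : ℕ → M) : Antitone (SP_N D φ) := by
  intro i i' h z hz
  obtain ⟨e, he, he'⟩ := hz
  exact ⟨e, hD h he, fun j hj => he' j (hj.trans h)⟩

theorem SP_fwd {D : ℕ → Set M} {φ : ℕ → M} {f' e' z' : ℕ → M}
    (hφ : ∀ j, cst (φ j) - mk f' ∈ St (D j)) (h1 : ∀ j, mk e' - mk f' ∈ St (D j))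
    (h2 : ∀ j, mk e' * mk z' ∈ St (D j)) (i : ℕ) : mk z' ∈ St (SP_N D φ i) := by
  rw [mem_St]
  have h3 : ∀ᶠ n in (Uf : Filter ℕ), ∀ j ∈ Finset.range (i + 1), φ j - f' n ∈ D j ∧ e' n - f' n ∈ D j := by
    refine (Finset.eventually_all _).2 fun j _ => ?_
    have h4 : ∀ᶠ n in (Uf : Filter ℕ), φ j - f' n ∈ D j := hφ j
    have h5 : ∀ᶠ n in (Uf : Filter ℕ), e' n - f' n ∈ D j := h1 j
    exact h4.and h5
  have h6 : ∀ᶠ n in (Uf : Filter ℕ), e' n * z' n ∈ D i := h2 i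
  filter_upwards [h3, h6] with n hn hn'
  refine ⟨e' n, hn', fun j hj => ?_⟩
  obtain ⟨h7, h8⟩ := hn j (Finset.mem_range.2 (by omega))
  exact ⟨_, h7, _, h8, by ring⟩

theorem SP_bwd {D : ℕ → Set M} (hD : Antitone D) {φ : ℕ → M} {f' z' : ℕ → M}
    (hφ : ∀ j, cst (φ j) - mk f' ∈ St (D j))
    (hS : ∀ k, ∃ j, ∀ a ∈ D j, ∀ b ∈ D j, ∀ c ∈ D j, a - b - c ∈ D k)
    (hz : ∀ i, mk z' ∈ St (SP_N D φ i)) :
    ∃ e : Lx M, (∀ i, mk f' - e ∈ St (D i)) ∧ ∀ i, e * mk z' ∈ St (D i) := by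
  classical
  obtain ⟨l, hl, hl'⟩ := exists_level (fun i n => i = 0 ∨ z' n ∈ SP_N D φ (i - 1))
    (fun n => Or.inl rfl) (fun i => by
      have h := hz (i - 1)
      rw [mem_St] at h
      exact h.mono fun n hn => Or.inr hn)
  have h1 : ∀ n, ∃ e : M, l n ≠ 0 → (e * z' n ∈ D (l n - 1) ∧
      ∀ j ≤ l n - 1, ∃ a ∈ D j, ∃ b ∈ D j, φ j - e = a - b) := by
    intro n
    by_cases h0 : l n = 0
    · exact ⟨0, fun h => absurd h0 h⟩
    · rcases hl n (l n) le_rfl with h | h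
      · exact absurd h h0
      · obtain ⟨e, he⟩ := h
        exact ⟨e, fun _ => he⟩
  choose e' he' using h1
  refine ⟨mk e', fun i => ?_, fun i => ?_⟩
  · obtain ⟨j, hj⟩ := hS i
    rw [mk_sub, mem_St]
    have h4 : ∀ᶠ n in (Uf : Filter ℕ), φ j - f' n ∈ D j := hφ j
    filter_upwards [hl' (j + 1), h4] with n hn hn'
    obtain ⟨-, h5⟩ := he' n (by omega)
    obtain ⟨a, ha, b, hb, hab⟩ := h5 j (by omega)
    have h6 : f' n - e' n = a - b - (φ j - f' n) := by
      rw [← hab]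
      ring
    rw [h6]
    exact hj a ha b hb _ hn'
  · rw [mk_mul, mem_St]
    filter_upwards [hl' (i + 1)] with n hn
    exact hD (by omega) (he' n (by omega)).1

end SPsec

theorem p_SP (h1 : T_CR) (h2 : T_AP) (h3 : T_SC) : T_SP := by
  intro M _ _ n V D hD hI hne hc hinc k
  obtain ⟨hC, hX⟩ := h1 (Lx M) n V hinc (fun j c hc0 => by
    have h := hc j ((c : M)⁻¹)
    rwa [cst_inv, cst_natCast] at h)
  obtain ⟨f, hf, hf1, hf2⟩ := SP_idem V hX k
  have hff := SP_ff V k f hf hf1 hf2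
  choose φ hφ using h2 M n V D hD hI f hff
  have hS := h3 M D hD (fun x y z hx hy hz => (hI _).1 fun j =>
    (V j).nonunits.sub_mem ((V j).nonunits.sub_mem ((hI x).2 hx j) ((hI y).2 hy j)) ((hI z).2 hz j))
  obtain ⟨f', rfl⟩ := exists_mk f
  refine ⟨hc k, hne k, SP_N D φ, SP_anti hD φ, fun z => ?_⟩
  obtain ⟨z', rfl⟩ := exists_mk z
  rw [SP_iff V hC hX k (mk f') hf hf1 hf2]
  constructor
  · rintro ⟨e, he, hez⟩ i
    obtain ⟨e', rfl⟩ := exists_mk e
    exact SP_fwd hφ ((hI _).1 he) ((hI _).1 hez) i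
  · intro hz
    obtain ⟨e, he, hez⟩ := SP_bwd hD hφ hS hz
    refine ⟨e, fun j => ?_, (hI _).2 hez⟩
    have h4 := (V j).nonunits.neg_mem ((hI _).2 he j)
    rwa [neg_sub] at h4

end NST
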