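import Pool.Agent.NST.P_JC

/-!
# NST: assembly of the first form of the structure theorem with `T_JCe` instead of `T_JC`
(P_ST of helper66, one line changed)
-/

set_option autoImplicit false

noncomputable section

namespace NST

open Filter Polynomial

/-- the nonunits of the trivial valuation ring -/
theorem ST2_nonunits_top {L : Type} [Field L] (V : ValuationSubring L) (hV : V = ⊤) (e : L)
    (he : e ∈ V.nonunits) : e = 0 := by
  by_contra h0
  have h1 : V.valuation e < 1 := (ValuationSubring.mem_nonunits_iff V).1 he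
  have h2 : e⁻¹ ∈ V := by
    rw [hV]
    exact ValuationSubring.mem_top _
  have h3 : V.valuation e⁻¹ ≤ 1 := (ValuationSubring.valuation_le_one_iff V _).2 h2
  have h4 : V.valuation e * V.valuation e⁻¹ = 1 := by
    rw [← map_mul, mul_inv_cancel₀ h0, map_one]
  have h5 : V.valuation e * V.valuation e⁻¹ < 1 := by
    calc V.valuation e * V.valuation e⁻¹ ≤ V.valuation e * 1 := mul_le_mul_right h3 _
      _ < 1 := by rwa [mul_one]
  exact absurd h4 (ne_of_lt h5)

theorem p_ST2 (h1 : T_C1) (h2 : T_RG) (h3 : T_S0) (h4 : T_IN) (h5 : T_BZ) (h6 : T_CX) (h7 : T_FM)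
    (h8 : T_V0) (h9 : T_JCe) (h10 : T_NE) : T_ST := by
  intro M G _ _ _ _ _ F d hVC hNt
  have hC : C1 F := h1 M G F d hVC hNt
  obtain ⟨R, hR⟩ := h2 M G F hC
  obtain ⟨S, hS⟩ := h3 M G F hC
  have hIN := h4 M G F R S hR hS
  have hIN' : ∀ w : Lx M, ∃ m ∈ R, w + m ≠ 0 ∧ (w + m)⁻¹ ∈ R := by
    intro w
    obtain ⟨m, hm1, hm2⟩ := hIN w
    exact ⟨cst m, hR.cst m, hm1, hm2⟩
  have hB : IsBezout R := h5 (Lx M) R hIN'
  obtain ⟨N, hN⟩ := h6 M G F d hVC hNt R S hR hS
  have hfin : Finite (MaximalSpectrum R) := h7 R N hN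
  obtain ⟨n, V, hV1, hV2⟩ := h8 (Lx M) R hfin hIN'
  have hJ := h9 M G F R hR (h10 M G F) n V hV1 hV2
  refine ⟨n, V, ?_, ?_, hV2, hJ⟩
  · intro k hk
    have hall : ∀ l, l = k := by
      intro l
      by_contra hl
      apply hV2 l k hl
      rw [hk]
      exact le_top
    obtain ⟨e, he1, he2⟩ := h10 M G F
    exact he2 (ST2_nonunits_top (V k) hk e ((hJ e).1 he1 k))
  · intro k u
    exact (hV1 _).1 (hR.cst u) k

end NST
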