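import Pool.Agent.NST.TC

/-!
# NST: one step (job NST-STP, helper23)
-/

set_option autoImplicit false

noncomputable section

namespace NST

open Filter Polynomial

theorem p_STP (h1 : T_OT) (h2 : T_ON) (h3 : T_PE) : T_STP := by
  intro E E' _ _ _ _ _ q ζ V z hq hζ hOp hV hz
  have hnf : ¬ Ful E' q := by
    intro hF
    obtain ⟨y, hy⟩ := hF z
    exact hz ⟨Algebra.norm E y, by rw [hy, map_pow]⟩
  refine ⟨hnf, ?_⟩
  have : CharZero E' := charZero_of_injective_algebraMap (algebraMap E E').injective
  have hζ' : IsPrimitiveRoot (algebraMap E E' ζ) q :=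
    hζ.map_of_injective (algebraMap E E').injective
  rcases h2 E' q _ hq hζ' (h1 E E' q hOp) with h | ⟨V', hV'⟩
  · exact absurd h hnf
  · exact ⟨V', hV', h3 E E' q V V' z hq.pos hV hV' hz⟩

end NST
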