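import Pool.Agent.NST.TC

/-!
# NST: target SX (standard witnesses)
-/

set_option autoImplicit false

noncomputable section

namespace NST

open Filter Polynomial

theorem SX_open (E : Type) [Field E] (q : ℕ) (s : Set (ValuationSubring (Lx E))) (hs : Ctl q s)
    (D : ValuationSubring (Lx E) → ℕ → Set E)
    (hD : ∀ V ∈ s, Antitone (D V) ∧ ∀ x, x ∈ V.nonunits ↔ ∀ i, x ∈ St (D V i)) :
    ∃ i, ∀ x : Lx E, x ≠ 0 → (∀ V ∈ s, x - 1 ∈ St (D V i)) → ∃ y, x = y ^ q := by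
  by_contra hcon
  push Not at hcon
  have h1 : ∀ i, ∃ x : E, x ≠ 0 ∧ (∀ V ∈ s, x - 1 ∈ D V i) ∧ ¬ ∃ y, x = y ^ q := by
    intro i
    obtain ⟨x, hx0, hx1, hx2⟩ := hcon i
    obtain ⟨f, rfl⟩ := exists_mk x
    have a1 : ∀ᶠ n in (Uf : Filter ℕ), f n ≠ 0 := mk_ne_zero.1 hx0
    have a2 : ∀ᶠ n in (Uf : Filter ℕ), ∀ V ∈ s, f n - 1 ∈ D V i := by
      rw [hs.fin.eventually_all]
      intro V hV
      have := hx1 V hV
      rw [mk_one, mk_sub, mem_St] at this
      exact this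
    have a3 : ∀ᶠ n in (Uf : Filter ℕ), ¬ ∃ y, f n = y ^ q := by
      rw [← not_eventually, ← mk_pow_iff]
      push Not
      exact hx2
    obtain ⟨n, ⟨b1, b2⟩, b3⟩ := ((a1.and a2).and a3).exists
    exact ⟨f n, b1, b2, b3⟩
  choose x hx0 hx1 hx2 using h1
  have hm0 : mk x ≠ 0 := mk_ne_zero.2 (Eventually.of_forall hx0)
  have hm1 : ∀ V ∈ s, mk x - 1 ∈ V.nonunits := by
    intro V hV
    rw [(hD V hV).2]
    intro k
    rw [mk_one, mk_sub, mem_St]
    exact (eventually_ge k).mono fun n hn => (hD V hV).1 hn (hx1 n V hV)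
  have hm2 := hs.pow (mk x) hm0 hm1
  rw [mk_pow_iff] at hm2
  obtain ⟨n, hn⟩ := hm2.exists
  exact hx2 n hn

theorem SX_shrink (h2 : T_SC) (E : Type) [Field E] (s : Set (ValuationSubring (Lx E)))
    (hfin : s.Finite) (D : ValuationSubring (Lx E) → ℕ → Set E)
    (hD : ∀ V ∈ s, Antitone (D V) ∧ ∀ x, x ∈ V.nonunits ↔ ∀ i, x ∈ St (D V i)) (i : ℕ) :
    ∃ j, ∀ V ∈ s, ∀ a ∈ D V j, ∀ b ∈ D V j, a - b ∈ D V i := by
  have h3 : ∀ V : ValuationSubring (Lx E), ∃ j, V ∈ s → ∀ a ∈ D V j, ∀ b ∈ D V j, a - b ∈ D V i := by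
    intro V
    by_cases hV : V ∈ s
    · obtain ⟨hanti, hnu⟩ := hD V hV
      obtain ⟨j, hj⟩ := h2 E (D V) hanti (fun x y z hx hy hz => by
        rw [← hnu] at hx hy hz ⊢
        exact V.nonunits.sub_mem (V.nonunits.sub_mem hx hy) hz) i
      refine ⟨j, fun _ a ha b hb => ?_⟩
      have h0 : (0 : E) ∈ D V j := by
        rw [← cst_mem_St, cst_zero]
        exact (hnu 0).1 V.nonunits.zero_mem j
      have := hj a ha b hb 0 h0
      rwa [sub_zero] at this
    · exact ⟨0, fun h => absurd h hV⟩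
  choose jf hjf using h3
  refine ⟨hfin.toFinset.sup jf, ?_⟩
  intro V hV a ha b hb
  have hle : jf V ≤ hfin.toFinset.sup jf := Finset.le_sup (hfin.mem_toFinset.2 hV)
  exact hjf V hV a ((hD V hV).1 hle ha) b ((hD V hV).1 hle hb)

theorem p_SX (h1 : T_AA) (h2 : T_SC) : T_SX := by
  classical
  intro E _ _ q s hs V₁ hV₁ x₁ hx₁ hnp hcong
  have hD0 : ∀ V : ValuationSubring (Lx E), ∃ D : ℕ → Set E,
      V ∈ s → Antitone D ∧ ∀ x, x ∈ V.nonunits ↔ ∀ i, x ∈ St (D i) := by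
    intro V
    by_cases hV : V ∈ s
    · obtain ⟨D, hD⟩ := (hs.mon V hV).mon
      exact ⟨D, fun _ => hD⟩
    · exact ⟨fun _ => ∅, fun h => absurd h hV⟩
  choose D hD using hD0
  obtain ⟨i, hi⟩ := SX_open E q s hs D hD
  obtain ⟨j, hj⟩ := SX_shrink h2 E s hs.fin D hD i
  obtain ⟨f, rfl⟩ := exists_mk x₁
  have a1 : ∀ᶠ n in (Uf : Filter ℕ), f n ≠ 0 := mk_ne_zero.1 hx₁
  have a2 : ∀ᶠ n in (Uf : Filter ℕ), ∀ V ∈ s, V ≠ V₁ → f n - 1 ∈ D V j := by
    rw [hs.fin.eventually_all]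
    intro V hV
    by_cases hne : V = V₁
    · exact Eventually.of_forall fun n h => absurd hne h
    · have h3 := hcong V hV hne
      rw [(hD V hV).2] at h3
      have h4 := h3 j
      rw [mk_one, mk_sub, mem_St] at h4
      exact h4.mono fun n hn _ => hn
  have a3 : ∀ᶠ n in (Uf : Filter ℕ), ¬ ∃ y, f n = y ^ q := by
    rw [← not_eventually, ← mk_pow_iff]
    exact hnp
  obtain ⟨n, ⟨b1, b2⟩, b3⟩ := ((a1.and a2).and a3).exists
  refine ⟨f n, b1, b3, ?_⟩
  intro V hV hne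
  have ha0 : cst (f n) ≠ 0 := cst_ne_zero b1
  obtain ⟨x, hx⟩ := h1 E s hs.fin hs.mon (fun W => if W = V then cst (f n) else 1)
    (fun W => if W = V then cst (f n) else 1) (fun W _ => by
      split_ifs
      · exact ha0
      · exact one_ne_zero)
  have hxV : (x - cst (f n)) / cst (f n) ∈ V.nonunits := by
    have := hx V hV
    simpa using this
  have hxW : ∀ W ∈ s, W ≠ V → x - 1 ∈ W.nonunits := by
    intro W hW hWV
    have := hx W hW
    simpa [hWV] using this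
  have hsub : x - cst (f n) ∈ V.nonunits := by
    have h3 := nu_mul' hxV ((hs.mon V hV).cst_mem (f n))
    rwa [div_mul_cancel₀ _ ha0] at h3
  have hquot : x / cst (f n) - 1 ∈ V.nonunits := by
    have : x / cst (f n) - 1 = (x - cst (f n)) / cst (f n) := by
      rw [sub_div, div_self ha0]
    rw [this]
    exact hxV
  have hx0 : x ≠ 0 := by
    intro h0
    have := ne_zero_of_one hquot
    rw [h0, zero_div] at this
    exact this rfl
  have hxSt : ∀ W ∈ s, x - 1 ∈ St (D W i) := by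
    intro W hW
    by_cases hWV : W = V
    · subst hWV
      have h3 : cst (f n) - x ∈ W.nonunits := by
        have := W.nonunits.neg_mem hsub
        rwa [neg_sub] at this
      rw [(hD W hW).2] at h3
      have h4 := h3 j
      obtain ⟨g, rfl⟩ := exists_mk x
      unfold cst at h4
      rw [mk_sub, mem_St] at h4
      rw [mk_one, mk_sub, mem_St]
      refine h4.mono fun r hr => ?_
      have h5 := hj W hW (f n - 1) (b2 W hW hne) (f n - g r) hr
      have h6 : f n - 1 - (f n - g r) = g r - 1 := by ring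
      rwa [h6] at h5
    · have h3 := hxW W hW hWV
      rw [(hD W hW).2] at h3
      exact h3 i
  obtain ⟨y, hy⟩ := hi x hx0 hxSt
  refine ⟨y⁻¹, ?_⟩
  have h7 : cst (f n) * y⁻¹ ^ q = (x / cst (f n))⁻¹ := by
    rw [inv_pow, ← hy, inv_div, div_eq_mul_inv]
  rw [h7]
  exact one_inv hquot

end NST
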