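import Pool.Agent.NST.TB

/-!
# NST: a finite group acts transitively on the extensions of a valuation ring (helper95)
-/

set_option autoImplicit false

noncomputable section

namespace NST

open Filter Polynomial

namespace TRG_

theorem prod_nu {L' : Type} [Field L'] (V : ValuationSubring L') {H : Type} (s : Finset H)
    (u : H → L') (h : ∀ g ∈ s, u g ∈ V.nonunits) (hs : s.Nonempty) : ∏ g ∈ s, u g ∈ V.nonunits := by
  classical
  obtain ⟨g, hg⟩ := hs
  rw [← Finset.mul_prod_erase s u hg]
  refine nu_mul' (h g hg) (prod_mem fun k hk => nu_mem (h k (Finset.mem_of_mem_erase hk)))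

theorem prod_one {L' : Type} [Field L'] (V : ValuationSubring L') {H : Type} (s : Finset H)
    (u : H → L') (h : ∀ g ∈ s, u g - 1 ∈ V.nonunits) : ∏ g ∈ s, u g - 1 ∈ V.nonunits := by
  classical
  induction s using Finset.induction_on with
  | empty =>
    rw [Finset.prod_empty, sub_self]
    exact V.nonunits.zero_mem
  | insert a s ha ih =>
    rw [Finset.prod_insert ha]
    exact one_mul' (h a (Finset.mem_insert_self a s))
      (ih fun g hg => h g (Finset.mem_insert_of_mem hg))

end TRG_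

theorem p_TRG (h1 : T_CR) (h2 : T_IC) : T_TRG := by
  classical
  intro L L' _ _ _ f hf H _ _ ρ hρ hN V V₁ V₂ hRC hV₁ hV₂
  have : CharZero L' := charZero_of_injective_ringHom f.injective
  by_contra hno
  push Not at hno
  have hcomp : ∀ (W : ValuationSubring L') (g : H), W.comap f = V →
      (W.comap (ρ g : L' →+* L')).comap f = V := by
    intro W g hW
    ext a
    rw [mem_comap', mem_comap']
    have : (ρ g : L' →+* L') (f a) = f a := hρ g a
    rw [this, ← mem_comap', hW]
  let A : Set (ValuationSubring L') := Set.range fun g : H => V₁.comap (ρ g : L' →+* L')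
  let B : Set (ValuationSubring L') := Set.range fun g : H => V₂.comap (ρ g : L' →+* L')
  have hfin : (A ∪ B).Finite := (Set.finite_range _).union (Set.finite_range _)
  have hAB : ∀ W, W ∈ A → W ∈ B → False := by
    rintro W ⟨g, hg⟩ ⟨h, hh⟩
    apply hno (g * h⁻¹)
    ext x
    have e1 : (ρ h : L' →+* L') ((ρ h⁻¹ : L' →+* L') x) = x := by
      have : (ρ h * ρ h⁻¹) x = x := by rw [← map_mul, mul_inv_cancel, map_one]; rfl
      exact this
    have e2 : (ρ (g * h⁻¹) : L' →+* L') x = (ρ g : L' →+* L') ((ρ h⁻¹ : L' →+* L') x) := by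
      have : ρ (g * h⁻¹) x = (ρ g * ρ h⁻¹) x := by rw [← map_mul]
      exact this
    rw [mem_comap', e2, ← mem_comap']
    have e3 : V₁.comap (ρ g : L' →+* L') = V₂.comap (ρ h : L' →+* L') := hg.trans hh.symm
    rw [e3, mem_comap', e1]
  obtain ⟨n, W, hWi, hWr⟩ := hfin.fin_param
  have hWc : ∀ k, (W k).comap f = V := by
    intro k
    have hk : W k ∈ A ∪ B := by
      rw [← hWr]
      exact ⟨k, rfl⟩
    rcases hk with ⟨g, hg⟩ | ⟨g, hg⟩
    · rw [← hg]
      exact hcomp V₁ g hV₁
    · rw [← hg]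
      exact hcomp V₂ g hV₂
  have hinc : ∀ k l, k ≠ l → ¬ W k ≤ W l := by
    intro k l hkl hle
    exact hkl (hWi (h2 L L' f hf (W k) (W l) hle ((hWc k).trans (hWc l).symm)))
  have hrc : ∀ k, ∀ c : ℕ, 0 < c → ((c : L'))⁻¹ ∈ W k := by
    intro k c hc
    have h3 := hRC c hc
    rw [← hWc k, mem_comap', map_inv₀, map_natCast] at h3
    exact h3
  obtain ⟨x, -, hx⟩ := (h1 L' n W hinc hrc).2 (fun k => if W k ∈ A then 0 else 1) (by
    intro k
    split_ifs
    · exact (W k).zero_mem
    · exact (W k).one_mem)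
  have hxA : ∀ g : H, (ρ g : L' →+* L') x ∈ V₁.nonunits := by
    intro g
    have hg : V₁.comap (ρ g : L' →+* L') ∈ Set.range W := by
      rw [hWr]
      exact Or.inl ⟨g, rfl⟩
    obtain ⟨k, hk⟩ := hg
    have h3 := hx k
    rw [if_pos (by rw [hk]; exact ⟨g, rfl⟩), sub_zero, hk, nu_comap] at h3
    exact h3
  have hxB : ∀ g : H, (ρ g : L' →+* L') x - 1 ∈ V₂.nonunits := by
    intro g
    have hgB : V₂.comap (ρ g : L' →+* L') ∈ B := ⟨g, rfl⟩
    have hg : V₂.comap (ρ g : L' →+* L') ∈ Set.range W := by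
      rw [hWr]
      exact Or.inr hgB
    obtain ⟨k, hk⟩ := hg
    have h3 := hx k
    rw [if_neg (by rw [hk]; exact fun h => hAB _ h hgB), hk, nu_comap, map_sub, map_one] at h3
    exact h3
  obtain ⟨a, ha⟩ := hN x
  have hH : (Finset.univ : Finset H).Nonempty := ⟨1, Finset.mem_univ _⟩
  have hA : f a ∈ V₁.nonunits := by
    rw [ha]
    exact TRG_.prod_nu V₁ Finset.univ (fun g => ρ g x) (fun g _ => hxA g) hH
  have hB : f a - 1 ∈ V₂.nonunits := by
    rw [ha]
    exact TRG_.prod_one V₂ Finset.univ (fun g => ρ g x) (fun g _ => hxB g)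
  rw [← nu_comap, hV₁] at hA
  have hB' : a - 1 ∈ V.nonunits := by
    rw [← hV₂, nu_comap, map_sub, map_one]
    exact hB
  exact notMem_nu_of_one hB' hA

end NST
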