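import Pool.Agent.NST.TB

/-!
# NST: TRL, a Galois group acts transitively on the extensions
-/

set_option autoImplicit false

noncomputable section

namespace NST

open Filter Polynomial

namespace TRL_

theorem mk_prod {M ι : Type} [Field M] (s : Finset ι) (F : ι → ℕ → M) :
    (∏ i ∈ s, mk (F i) : Lx M) = mk fun n => ∏ i ∈ s, F i n := by
  classical
  induction s using Finset.induction_on with
  | empty => simp [mk_one]
  | insert a s ha ih =>
    rw [Finset.prod_insert ha, ih, mk_mul]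
    simp only [Finset.prod_insert ha]

variable {E E' : Type} [Field E] [Field E'] [Algebra E E']

/-- the action of an automorphism on the ultrapower -/
def rh (σ : E' ≃ₐ[E] E') : Lx E' ≃+* Lx E' :=
  RingEquiv.ofRingHom (mapR (σ : E' →+* E')) (mapR (σ.symm : E' →+* E'))
    (by
      ext x
      obtain ⟨x, rfl⟩ := exists_mk x
      simp)
    (by
      ext x
      obtain ⟨x, rfl⟩ := exists_mk x
      simp)

theorem rh_mk (σ : E' ≃ₐ[E] E') (x : ℕ → E') : rh σ (mk x) = mk fun n => σ (x n) := rfl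

/-- the action as a homomorphism -/
def rho : (E' ≃ₐ[E] E') →* (Lx E' ≃+* Lx E') where
  toFun := rh
  map_one' := by
    ext x
    obtain ⟨x, rfl⟩ := exists_mk x
    rw [rh_mk]
    rfl
  map_mul' σ τ := by
    ext x
    obtain ⟨x, rfl⟩ := exists_mk x
    rw [rh_mk]
    rfl

end TRL_

theorem p_TRL (h1 : T_UB) (h2 : T_TRG) : T_TRL := by
  classical
  intro E E' _ _ _ _ _ _ V V₁ V₂ hV h3 h4
  have hfin : (mapR (algebraMap E E')).Finite :=
    (h1 E E' _ (Module.finBasis E E')).2.2.2
  have hint : (mapR (algebraMap E E')).IsIntegral := RingHom.Finite.to_isIntegral hfin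
  have hrc : RC0 V := by
    intro c _
    have := hV.cst_mem ((c : E)⁻¹)
    rw [cst_inv, cst_natCast] at this
    exact this
  have h5 : ∀ (σ : E' ≃ₐ[E] E') (a : Lx E), TRL_.rho σ (mapR (algebraMap E E') a) =
      mapR (algebraMap E E') a := by
    intro σ a
    obtain ⟨a, rfl⟩ := exists_mk a
    change TRL_.rh σ _ = _
    rw [mapR_mk, TRL_.rh_mk]
    simp
  have h6 : ∀ x : Lx E', ∃ a : Lx E, mapR (algebraMap E E') a =
      ∏ σ : E' ≃ₐ[E] E', TRL_.rho σ x := by
    intro x
    obtain ⟨x, rfl⟩ := exists_mk x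
    refine ⟨mk fun n => Algebra.norm E (x n), ?_⟩
    rw [mapR_mk]
    have h5 : ∀ σ : E' ≃ₐ[E] E', TRL_.rho σ (mk x) = mk fun n => σ (x n) := fun σ => rfl
    simp only [h5, TRL_.mk_prod, Algebra.norm_eq_prod_automorphisms]
  exact h2 (Lx E) (Lx E') (mapR (algebraMap E E')) hint (E' ≃ₐ[E] E') TRL_.rho h5 h6
    V V₁ V₂ hrc h3 h4

end NST
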