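import Pool.Agent.NST.TB

set_option autoImplicit false

noncomputable section

namespace NST

open Filter Polynomial

/-- classes of sequences, as a ring homomorphism -/
def UB_mkR (M : Type) [Field M] : (ℕ → M) →+* Lx M where
  toFun := mk
  map_one' := rfl
  map_mul' _ _ := rfl
  map_zero' := rfl
  map_add' _ _ := rfl

theorem UB_sum {M : Type} [Field M] {n : ℕ} (f : Fin n → ℕ → M) :
    ∑ i, mk (f i) = mk fun m => ∑ i, f i m := by
  have h := map_sum (UB_mkR M) f Finset.univ
  have h1 : (∑ i, f i) = fun m => ∑ i, f i m := by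
    funext m
    rw [Finset.sum_apply]
  rw [h1] at h
  exact h.symm

theorem UB_comb {E E' : Type} [Field E] [Field E'] [Algebra E E'] {n : ℕ} (b : Fin n → E')
    (f : Fin n → ℕ → E) :
    ∑ i, mapR (algebraMap E E') (mk (f i)) * cst (b i) = mk fun m => ∑ i, f i m • b i := by
  rw [← UB_sum]
  refine Finset.sum_congr rfl fun i _ => ?_
  rw [mapR_mk]
  unfold cst
  rw [mk_mul]
  congr 1
  funext m
  rw [Algebra.smul_def]

theorem UB_fin {A B : Type} [CommRing A] [CommRing B] (f : A →+* B) {n : ℕ} (v : Fin n → B)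
    (h : ∀ z, ∃ c : Fin n → A, z = ∑ i, f (c i) * v i) : f.Finite := by
  unfold RingHom.Finite
  letI : Algebra A B := f.toAlgebra
  let φ : (Fin n → A) →ₗ[A] B :=
    { toFun := fun c => ∑ i, c i • v i
      map_add' := by
        intro c d
        simp only [Pi.add_apply, add_smul, Finset.sum_add_distrib]
      map_smul' := by
        intro a c
        simp only [Pi.smul_apply, smul_assoc, Finset.smul_sum, RingHom.id_apply] }
  refine Module.Finite.of_surjective φ ?_
  intro z
  obtain ⟨c, hc⟩ := h z
  exact ⟨c, hc.symm⟩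

theorem p_UB : T_UB := by
  intro E E' _ _ _ n b
  have h2 : ∀ z : Lx E', ∃ c : Fin n → Lx E, z = ∑ i, mapR (algebraMap E E') (c i) * cst (b i) := by
    intro z
    obtain ⟨x, rfl⟩ := exists_mk z
    refine ⟨fun i => mk fun m => b.repr (x m) i, ?_⟩
    rw [UB_comb]
    congr 1
    funext m
    exact (b.sum_repr (x m)).symm
  refine ⟨?_, h2, ?_, ?_⟩
  · intro c hc i
    choose f hf using fun i => exists_mk (c i)
    have h1 : ∑ i, mapR (algebraMap E E') (mk (f i)) * cst (b i) = 0 := by
      rw [← hc]
      refine Finset.sum_congr rfl fun i _ => ?_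
      rw [hf]
    rw [UB_comb, mk_zero, mk_eq] at h1
    rw [← hf i, mk_zero, mk_eq]
    filter_upwards [h1] with m hm
    exact Fintype.linearIndependent_iff.1 b.linearIndependent (fun i => f i m) hm i
  · intro z j
    obtain ⟨x, rfl⟩ := exists_mk z
    have h1 : ∀ i, mapL (fun x => Algebra.leftMulMatrix b x i j) (mk x) =
        mk fun m => Algebra.leftMulMatrix b (x m) i j := fun i => rfl
    have h3 : ∑ i, mapR (algebraMap E E') (mapL (fun x => Algebra.leftMulMatrix b x i j) (mk x)) *
        cst (b i) = ∑ i, mapR (algebraMap E E') (mk fun m => Algebra.leftMulMatrix b (x m) i j) *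
        cst (b i) := rfl
    rw [h3, UB_comb]
    unfold cst
    rw [mk_mul]
    congr 1
    funext m
    have h4 := b.sum_repr (x m * b j)
    conv_lhs => rw [← h4]
    refine Finset.sum_congr rfl fun i _ => ?_
    rw [Algebra.leftMulMatrix_eq_repr_mul]
  · exact UB_fin _ (fun i => cst (b i)) h2

end NST
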