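import Pool.Agent.NST.TB

/-!
# NST-UM (matrices over the ultrapower)
-/

set_option autoImplicit false

noncomputable section

namespace NST

namespace UM_

/-- `mk` as a ring homomorphism -/
def mkH (E : Type) [Field E] : (ℕ → E) →+* Lx E where
  toFun := mk
  map_zero' := rfl
  map_one' := rfl
  map_add' _ _ := rfl
  map_mul' _ _ := rfl

end UM_

open UM_ in
theorem p_UM : T_UM := by
  intro E _ n A
  let B : Matrix (Fin n) (Fin n) (ℕ → E) := fun i j => fun m => A m i j
  have hB : ∀ m, (Pi.evalRingHom (fun _ : ℕ => E) m).mapMatrix B = A m := fun m => rfl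
  have h0 : (Matrix.of fun i j => (mk fun m => A m i j : Lx E)) = (mkH E).mapMatrix B := rfl
  refine ⟨?_, fun k => ?_⟩
  · rw [h0]
    refine (RingHom.map_det (mkH E) B).symm.trans ?_
    change mk _ = mk _
    congr 1
    funext m
    have h1 := RingHom.map_det (Pi.evalRingHom (fun _ : ℕ => E) m) B
    rw [hB] at h1
    exact h1
  · rw [h0, RingHom.mapMatrix_apply, Matrix.charpoly_map, Polynomial.coeff_map]
    change mk _ = mk _
    congr 1
    funext m
    have h1 := Matrix.charpoly_map B (Pi.evalRingHom (fun _ : ℕ => E) m)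
    have h2 := congrArg (fun p => Polynomial.coeff p k) h1
    simp only [Polynomial.coeff_map] at h2
    exact h2.symm

end NST
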