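import Pool.Agent.NST.TC

/-!
# NST: target UNS (the topology does not split in finite extensions of the base field)
-/

set_option autoImplicit false

noncomputable section

namespace NST

open Filter Polynomial

namespace UNS_

theorem mapR_comp {A B C : Type} [Field A] [Field B] [Field C] (f : A →+* B) (g : B →+* C) :
    mapR (g.comp f) = (mapR g).comp (mapR f) := by
  ext x
  obtain ⟨x, rfl⟩ := exists_mk x
  rfl

theorem comap_mapR_comp {A B C : Type} [Field A] [Field B] [Field C] (f : A →+* B) (g : B →+* C)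
    (W : ValuationSubring (Lx C)) : W.comap (mapR (g.comp f)) = (W.comap (mapR g)).comap (mapR f) := by
  rw [mapR_comp]
  rfl

theorem mapR_symm {P : Type} [Field P] (σ : P ≃+* P) (x : Lx P) :
    mapR (σ.symm : P →+* P) (mapR (σ : P →+* P) x) = x := by
  obtain ⟨x, rfl⟩ := exists_mk x
  rw [mapR_mk, mapR_mk]
  congr 1
  funext n
  exact σ.symm_apply_apply (x n)

/-- conjugates of open rings are open -/
theorem opn_comap (h5 : T_SG) {P : Type} [Field P] (q : ℕ) (V : ValuationSubring (Lx P))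
    (hV : Opn q V) (σ : P ≃+* P) : Opn q (V.comap (mapR (σ : P →+* P))) := by
  refine ⟨h5 P P σ V hV.mon, ?_⟩
  intro x hx
  rw [nu_comap, map_sub, map_one] at hx
  obtain ⟨y, hy⟩ := hV.pow _ hx
  refine ⟨mapR (σ.symm : P →+* P) y, ?_⟩
  rw [← map_pow, ← hy, mapR_symm]

end UNS_

theorem p_UNS (h1 : T_ON) (h2 : T_OT) (h3 : T_CG) (h4 : T_GA) (h5 : T_SG) (h6 : T_UQ)
    (h7 : T_TRL) (h8 : T_CH) (h9 : T_RS) : T_UNS := by
  intro K E _ _ _ _ _ q ζ j hq hζ hj hOp hF
  have hcE : CharZero E := charZero_of_injective_algebraMap (algebraMap K E).injective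
  have hOpE : OpA E q := h2 K E q hOp
  rcases h1 E q ζ hq hζ hOpE with hful | ⟨V, hV⟩
  · exact absurd hful hF
  refine ⟨V, hV, ?_⟩
  intro N _ _ _ V₁ V₂ e1 e2
  obtain ⟨P, iF, iA, hfd, hgal, ⟨σE⟩, ⟨σN⟩⟩ := h3 K E N
  have hcP : CharZero P := charZero_of_injective_algebraMap (algebraMap K P).injective
  let _ : Algebra E P := (σE : E →+* P).toAlgebra
  let _ : Algebra N P := (σN : N →+* P).toAlgebra
  have t1 : IsScalarTower K E P := IsScalarTower.of_algebraMap_eq' σE.comp_algebraMap.symm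
  have t2 : IsScalarTower K N P := IsScalarTower.of_algebraMap_eq' σN.comp_algebraMap.symm
  have t3 : FiniteDimensional E P := Module.Finite.of_restrictScalars_finite K E P
  have t4 : IsGalois E P := IsGalois.tower_top_of_isGalois K E P
  obtain ⟨hnf, V', hV', hcomp⟩ := h4 E P q ζ j V hq hζ hj hOpE hF hV
  have c1 : ∀ W : ValuationSubring (Lx P), W.comap (mapR (algebraMap K P)) =
      (W.comap (mapR (algebraMap E P))).comap (mapR (algebraMap K E)) := by
    intro W
    rw [IsScalarTower.algebraMap_eq K E P, UNS_.comap_mapR_comp]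
  have c2 : ∀ W : ValuationSubring (Lx P), W.comap (mapR (algebraMap K P)) =
      (W.comap (mapR (algebraMap N P))).comap (mapR (algebraMap K N)) := by
    intro W
    rw [IsScalarTower.algebraMap_eq K N P, UNS_.comap_mapR_comp]
  have hT : Mon (V.comap (mapR (algebraMap K E))) := h9 K E V hV.mon
  have hVT : V'.comap (mapR (algebraMap K P)) = V.comap (mapR (algebraMap K E)) := by
    rw [c1, hcomp]
  have uniq : ∀ W : ValuationSubring (Lx P),
      W.comap (mapR (algebraMap K P)) = V.comap (mapR (algebraMap K E)) → W = V' := by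
    intro W hW
    obtain ⟨σ, hσ⟩ := h7 K P _ V' W hT hVT hW
    have h10 : Opn q (V'.comap (mapR ((σ : P ≃+* P) : P →+* P))) :=
      UNS_.opn_comap h5 q V' hV' (σ : P ≃+* P)
    have h11 : V' = V'.comap (mapR ((σ : P ≃+* P) : P →+* P)) := by
      by_contra hne
      exact hnf (h6 P q V' _ hq.pos hV' h10 hne)
    rw [hσ]
    exact h11.symm
  obtain ⟨W₁, hW₁⟩ := h8 (Lx N) (Lx P) (mapR (algebraMap N P)) V₁
  obtain ⟨W₂, hW₂⟩ := h8 (Lx N) (Lx P) (mapR (algebraMap N P)) V₂
  have k1 : W₁ = V' := uniq W₁ (by rw [c2, hW₁, e1])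
  have k2 : W₂ = V' := uniq W₂ (by rw [c2, hW₂, e2])
  rw [← hW₁, ← hW₂, k1, k2]

end NST
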