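import Pool.Agent.NST.TC

set_option autoImplicit false

noncomputable section

namespace NST

theorem UQ_ctl {E : Type} [Field E] {q : ℕ} {V : ValuationSubring (Lx E)} (h : Opn q V) :
    Ctl q ({V} : Set (ValuationSubring (Lx E))) where
  fin := Set.finite_singleton V
  mon := by
    intro W hW
    rw [Set.mem_singleton_iff] at hW
    rw [hW]
    exact h.mon
  pow := fun x _ hx => h.pow x (hx V rfl)

theorem p_UQ (h1 : T_FU) (h2 : T_LO) : T_UQ := by
  intro E _ _ q V W hq hV hW hne x
  by_cases hx : x = 0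
  · exact ⟨0, by rw [hx, zero_pow hq.ne']⟩
  · have hx' : cst x ≠ 0 := cst_ne_zero hx
    have h3 : LP q V (cst x) :=
      h2 E q {W} (UQ_ctl hW) V hV.mon (fun h => hne (Set.mem_singleton_iff.1 h)) (cst x) hx'
    have h4 : ∃ y, cst x = y ^ q := by
      apply h1 E q {V} (UQ_ctl hV) (cst x) hx'
      intro V' hV'
      rw [Set.mem_singleton_iff] at hV'
      rw [hV']
      exact h3
    exact cst_pow_iff.1 h4

end NST
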