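import Pool.Agent.NST.TA

/-!
# NST: `T_V0`, semilocal rings with many inverses are intersections of valuation rings
-/

set_option autoImplicit false

namespace NST

namespace V0_

/-- the localisation at `P` as a valuation subring -/
def VP {L : Type} [Field L] (R : Subring L) (hR : ∀ w : L, ∃ m ∈ R, w + m ≠ 0 ∧ (w + m)⁻¹ ∈ R)
    (P : MaximalSpectrum R) : ValuationSubring L where
  carrier := {x | ∃ s : R, s ∉ P.asIdeal ∧ (s : L) * x ∈ R}
  mul_mem' := by
    rintro x y ⟨s, hs, hsx⟩ ⟨t, ht, hty⟩
    refine ⟨s * t, ?_, ?_⟩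
    · intro h
      rcases P.isMaximal.isPrime.mem_or_mem h with h | h
      · exact hs h
      · exact ht h
    · have : ((s * t : R) : L) * (x * y) = ((s : L) * x) * ((t : L) * y) := by
        push_cast
        ring
      rw [this]
      exact R.mul_mem hsx hty
  one_mem' := by
    refine ⟨1, ?_, ?_⟩
    · exact fun h => P.isMaximal.ne_top ((Ideal.eq_top_iff_one _).2 h)
    · simpa using R.one_mem
  add_mem' := by
    rintro x y ⟨s, hs, hsx⟩ ⟨t, ht, hty⟩
    refine ⟨s * t, ?_, ?_⟩
    · intro h
      rcases P.isMaximal.isPrime.mem_or_mem h with h | h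
      · exact hs h
      · exact ht h
    · have : ((s * t : R) : L) * (x + y) = (t : L) * ((s : L) * x) + (s : L) * ((t : L) * y) := by
        push_cast
        ring
      rw [this]
      exact R.add_mem (R.mul_mem t.2 hsx) (R.mul_mem s.2 hty)
  zero_mem' := by
    refine ⟨1, ?_, ?_⟩
    · exact fun h => P.isMaximal.ne_top ((Ideal.eq_top_iff_one _).2 h)
    · simpa using R.zero_mem
  neg_mem' := by
    rintro x ⟨s, hs, hsx⟩
    refine ⟨s, hs, ?_⟩
    rw [mul_neg]
    exact R.neg_mem hsx
  mem_or_inv_mem' := by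
    intro x
    by_cases hx : x = 0
    · left
      refine ⟨1, ?_, ?_⟩
      · exact fun h => P.isMaximal.ne_top ((Ideal.eq_top_iff_one _).2 h)
      · rw [hx]
        simpa using R.zero_mem
    obtain ⟨m, hm, hne, hinv⟩ := hR x
    have key : (x + m)⁻¹ * x = 1 - m * (x + m)⁻¹ := by
      field_simp
      ring
    by_cases hr : (⟨(x + m)⁻¹, hinv⟩ : R) ∈ P.asIdeal
    · right
      refine ⟨1 - ⟨m, hm⟩ * ⟨(x + m)⁻¹, hinv⟩, ?_, ?_⟩
      · intro h
        have h2 : (⟨m, hm⟩ : R) * ⟨(x + m)⁻¹, hinv⟩ ∈ P.asIdeal := Ideal.mul_mem_left _ _ hr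
        have h3 : (1 : R) ∈ P.asIdeal := by
          have := P.asIdeal.add_mem h h2
          simpa using this
        exact P.isMaximal.ne_top ((Ideal.eq_top_iff_one _).2 h3)
      · have : ((1 - ⟨m, hm⟩ * ⟨(x + m)⁻¹, hinv⟩ : R) : L) * x⁻¹ = (x + m)⁻¹ := by
          have e1 : ((1 - ⟨m, hm⟩ * ⟨(x + m)⁻¹, hinv⟩ : R) : L) = (x + m)⁻¹ * x := by
            rw [key]
            push_cast
            rfl
          rw [e1, mul_assoc, mul_inv_cancel₀ hx, mul_one]
        rw [this]
        exact hinv
    · left
      refine ⟨⟨(x + m)⁻¹, hinv⟩, hr, ?_⟩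
      change (x + m)⁻¹ * x ∈ R
      rw [key]
      exact R.sub_mem R.one_mem (R.mul_mem hm hinv)

lemma mem_VP {L : Type} [Field L] (R : Subring L)
    (hR : ∀ w : L, ∃ m ∈ R, w + m ≠ 0 ∧ (w + m)⁻¹ ∈ R) (P : MaximalSpectrum R) (x : L) :
    x ∈ VP R hR P ↔ ∃ s : R, s ∉ P.asIdeal ∧ (s : L) * x ∈ R := Iff.rfl

end V0_

open V0_ in
theorem p_V0 : T_V0 := by
  intro L _ R hfin hR
  obtain ⟨n, ⟨e⟩⟩ := Finite.exists_equiv_fin (MaximalSpectrum R)
  refine ⟨n, fun k => VP R hR (e.symm k), ?_, ?_⟩
  · intro x
    constructor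
    · intro hx k
      rw [mem_VP]
      refine ⟨1, ?_, ?_⟩
      · exact fun h => (e.symm k).isMaximal.ne_top ((Ideal.eq_top_iff_one _).2 h)
      · simpa using hx
    · intro hx
      let I : Ideal R :=
        { carrier := {s | (s : L) * x ∈ R}
          add_mem' := by
            intro a b ha hb
            change ((a + b : R) : L) * x ∈ R
            have : ((a + b : R) : L) * x = (a : L) * x + (b : L) * x := by
              push_cast
              ring
            rw [this]
            exact R.add_mem ha hb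
          zero_mem' := by
            change ((0 : R) : L) * x ∈ R
            simpa using R.zero_mem
          smul_mem' := by
            intro a b hb
            change ((a * b : R) : L) * x ∈ R
            have : ((a * b : R) : L) * x = (a : L) * ((b : L) * x) := by
              push_cast
              ring
            rw [this]
            exact R.mul_mem a.2 hb }
      have hI : I = ⊤ := by
        by_contra hne
        obtain ⟨M, hM, hIM⟩ := Ideal.exists_le_maximal I hne
        have h1 := hx (e ⟨M, hM⟩)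
        rw [mem_VP] at h1
        obtain ⟨s, hs, hsx⟩ := h1
        apply hs
        rw [e.symm_apply_apply]
        exact hIM hsx
      have h1 : (1 : R) ∈ I := by
        rw [hI]
        trivial
      have h2 : ((1 : R) : L) * x ∈ R := h1
      simpa using h2
  · intro k l hkl hle
    have hne : e.symm k ≠ e.symm l := fun h => hkl (e.symm.injective h)
    have hnle : ¬ (e.symm l).asIdeal ≤ (e.symm k).asIdeal := by
      intro h
      apply hne
      have := (e.symm l).isMaximal.eq_of_le (e.symm k).isMaximal.ne_top h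
      exact MaximalSpectrum.ext this.symm
    obtain ⟨s, hsl, hsk⟩ := Set.not_subset.1 hnle
    have hs0 : (s : L) ≠ 0 := by
      intro h
      apply hsk
      have : s = 0 := Subtype.ext h
      rw [this]
      exact (e.symm k).asIdeal.zero_mem
    have h1 : (s : L)⁻¹ ∈ VP R hR (e.symm k) := by
      rw [mem_VP]
      refine ⟨s, hsk, ?_⟩
      rw [mul_inv_cancel₀ hs0]
      exact R.one_mem
    have h2 := hle h1
    rw [mem_VP] at h2
    obtain ⟨t, ht, htr⟩ := h2
    apply ht
    have : t = ⟨(t : L) * (s : L)⁻¹, htr⟩ * s := by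
      apply Subtype.ext
      change (t : L) = (t : L) * (s : L)⁻¹ * (s : L)
      rw [mul_assoc, inv_mul_cancel₀ hs0, mul_one]
    rw [this]
    exact Ideal.mul_mem_left _ _ hsl

end NST
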