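import Pool.Agent.NST.P_AA
import Pool.Agent.NST.P_AC
import Pool.Agent.NST.P_AP
import Pool.Agent.NST.P_BZ
import Pool.Agent.NST.P_C1
import Pool.Agent.NST.P_CC
import Pool.Agent.NST.P_CG
import Pool.Agent.NST.P_CH
import Pool.Agent.NST.P_CM
import Pool.Agent.NST.P_CN
import Pool.Agent.NST.P_CO
import Pool.Agent.NST.P_CR
import Pool.Agent.NST.P_CV
import Pool.Agent.NST.P_CX
import Pool.Agent.NST.P_EM
import Pool.Agent.NST.P_FE
import Pool.Agent.NST.P_FG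
import Pool.Agent.NST.P_FM
import Pool.Agent.NST.P_FU
import Pool.Agent.NST.P_G0
import Pool.Agent.NST.P_GA
import Pool.Agent.NST.P_GA1
import Pool.Agent.NST.P_GB
import Pool.Agent.NST.P_GS
import Pool.Agent.NST.P_IC
import Pool.Agent.NST.P_IM
import Pool.Agent.NST.P_IN
import Pool.Agent.NST.P_JC
import Pool.Agent.NST.P_L1
import Pool.Agent.NST.P_L1L
import Pool.Agent.NST.P_L2
import Pool.Agent.NST.P_L2L
import Pool.Agent.NST.P_LF
import Pool.Agent.NST.P_LO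
import Pool.Agent.NST.P_NE
import Pool.Agent.NST.P_NM
import Pool.Agent.NST.P_NZ1
import Pool.Agent.NST.P_NZ2
import Pool.Agent.NST.P_ON
import Pool.Agent.NST.P_OT
import Pool.Agent.NST.P_PE
import Pool.Agent.NST.P_RA
import Pool.Agent.NST.P_RG
import Pool.Agent.NST.P_RS
import Pool.Agent.NST.P_S0
import Pool.Agent.NST.P_SC
import Pool.Agent.NST.P_SE
import Pool.Agent.NST.P_SG
import Pool.Agent.NST.P_SP
import Pool.Agent.NST.P_ST2
import Pool.Agent.NST.P_STB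
import Pool.Agent.NST.P_STP
import Pool.Agent.NST.P_SX
import Pool.Agent.NST.P_TRG
import Pool.Agent.NST.P_TRL
import Pool.Agent.NST.P_UB
import Pool.Agent.NST.P_UM
import Pool.Agent.NST.P_UNS
import Pool.Agent.NST.P_UQ
import Pool.Agent.NST.P_V0
import Pool.Agent.NFV.P_KUM

/-!
# NST: assembly of parts A, B, C
-/

set_option autoImplicit false

namespace NST

theorem a_L2L : T_L2L := p_L2L p_L2
theorem a_GB : T_GB := p_GB p_G0 p_FG
theorem a_C1 : T_C1 := p_C1 (p_L1L p_L1) a_L2L a_GB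
theorem a_SE : T_SE := p_SE a_L2L a_GB
theorem a_ST : T_ST :=
  p_ST2 a_C1 p_RG p_S0 (p_IN p_G0) p_BZ (p_CX a_SE) p_FM p_V0 (p_JCe p_CR p_RA) (p_NE p_G0)
theorem a_SP : T_SP := p_SP p_CR p_AP p_SC
theorem a_AA : T_AA := p_AA p_CM (p_LF p_AP p_SC)
theorem a_STB : T_STB := p_STB a_ST p_IM a_SP
theorem a_FE : T_FE := p_FE p_CR p_IC
theorem a_CC : T_CC := p_CC p_CV p_GS
theorem a_TRG : T_TRG := p_TRG p_CR p_IC
theorem a_CN : T_CN := p_CN p_UB p_UM a_CC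
theorem a_NM : T_NM := p_NM a_CN
theorem a_EM : T_EM := p_EM p_UB a_FE p_IC a_CN a_SP
theorem a_RS : T_RS := p_RS p_UB
theorem a_TRL : T_TRL := p_TRL p_UB a_TRG
theorem a_FU : T_FU := p_FU a_AA
theorem a_LO : T_LO := p_LO a_AA
theorem a_UQ : T_UQ := p_UQ a_FU a_LO
theorem a_SX : T_SX := p_SX a_AA p_SC
theorem a_ON : T_ON := p_ON a_FU a_LO a_SX a_RS NFV.p_KUM
theorem a_PE : T_PE := p_PE a_AA a_EM a_NM
theorem a_STP : T_STP := p_STP p_OT a_ON a_PE
theorem a_GA1 : T_GA1 := p_GA1 p_SG p_NZ2 a_STP p_OT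
theorem a_GA : T_GA := p_GA p_NZ1 a_STP a_GA1 p_OT
theorem a_UNS : T_UNS := p_UNS a_ON p_OT p_CG a_GA p_SG a_UQ a_TRL p_CH a_RS

end NST
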