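import Pool.Agent.NST.TD

/-!
# NST: archimedean fields (AR)
-/

set_option autoImplicit false

noncomputable section

namespace NST

open Filter Polynomial

section

variable {E : Type} [Field E]

/-- the valuation ring of the topology induced by an embedding in the complex numbers -/
def AR_V (ι : E →+* ℂ) : ValuationSubring (Lx E) where
  carrier := {x | ∃ m : ℕ, x ∈ St {a | ‖ι a‖ ≤ m}}
  mul_mem' := by
    rintro x y ⟨e, he⟩ ⟨e', he'⟩
    obtain ⟨x, rfl⟩ := exists_mk x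
    obtain ⟨y, rfl⟩ := exists_mk y
    refine ⟨e * e', ?_⟩
    rw [mem_St] at he he'
    rw [mk_mul, mem_St]
    filter_upwards [he, he'] with n h h'
    replace h : ‖ι (x n)‖ ≤ e := h
    replace h' : ‖ι (y n)‖ ≤ e' := h'
    change ‖ι (x n * y n)‖ ≤ ((e * e' : ℕ) : ℝ)
    rw [map_mul, norm_mul, Nat.cast_mul]
    exact mul_le_mul h h' (norm_nonneg _) (le_trans (norm_nonneg _) h)
  one_mem' := ⟨1, by rw [mk_one, mem_St]; exact Eventually.of_forall fun _ => by simp⟩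
  add_mem' := by
    rintro x y ⟨e, he⟩ ⟨e', he'⟩
    obtain ⟨x, rfl⟩ := exists_mk x
    obtain ⟨y, rfl⟩ := exists_mk y
    refine ⟨e + e', ?_⟩
    rw [mem_St] at he he'
    rw [mk_add, mem_St]
    filter_upwards [he, he'] with n h h'
    replace h : ‖ι (x n)‖ ≤ e := h
    replace h' : ‖ι (y n)‖ ≤ e' := h'
    change ‖ι (x n + y n)‖ ≤ ((e + e' : ℕ) : ℝ)
    rw [map_add, Nat.cast_add]
    exact le_trans (norm_add_le _ _) (add_le_add h h')
  zero_mem' := ⟨0, by rw [mk_zero, mem_St]; exact Eventually.of_forall fun _ => by simp⟩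
  neg_mem' := by
    rintro x ⟨e, he⟩
    obtain ⟨x, rfl⟩ := exists_mk x
    refine ⟨e, ?_⟩
    rw [mem_St] at he
    rw [mk_neg, mem_St]
    filter_upwards [he] with n h
    replace h : ‖ι (x n)‖ ≤ e := h
    change ‖ι (-x n)‖ ≤ e
    rwa [map_neg, norm_neg]
  mem_or_inv_mem' := by
    intro x
    obtain ⟨x, rfl⟩ := exists_mk x
    have h : ∀ᶠ n in (Uf : Filter ℕ), ‖ι (x n)‖ ≤ ((1 : ℕ) : ℝ) ∨ ‖ι (x n)⁻¹‖ ≤ ((1 : ℕ) : ℝ) := by
      refine Eventually.of_forall fun n => ?_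
      rw [Nat.cast_one]
      rcases le_total ‖ι (x n)‖ 1 with h | h
      · exact Or.inl h
      · right
        rw [map_inv₀, norm_inv]
        exact inv_le_one_of_one_le₀ h
    rw [eventually_or'] at h
    rcases h with h | h
    · exact Or.inl ⟨1, mem_St.2 h⟩
    · refine Or.inr ⟨1, ?_⟩
      change (mk x)⁻¹ ∈ _
      rw [mk_inv]
      exact mem_St.2 h

theorem AR_mem {ι : E →+* ℂ} {x : ℕ → E} :
    mk x ∈ AR_V ι ↔ ∃ m : ℕ, ∀ᶠ n in (Uf : Filter ℕ), ‖ι (x n)‖ ≤ m := Iff.rfl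

theorem AR_nu {ι : E →+* ℂ} {x : ℕ → E}
    (h : ∀ m : ℕ, ∀ᶠ n in (Uf : Filter ℕ), ‖ι (x n)‖ * (m + 1) ≤ 1) :
    mk x ∈ (AR_V ι).nonunits := by
  rw [nu_iff]
  by_cases h1 : (mk x)⁻¹ ∈ AR_V ι
  · left
    rw [mk_inv, AR_mem] at h1
    obtain ⟨m, hm⟩ := h1
    rw [mk_zero, mk_eq]
    filter_upwards [hm, h m] with n h1 h2
    by_contra h0
    rw [map_inv₀, norm_inv] at h1
    have h3 : 0 < ‖ι (x n)‖ := norm_pos_iff.2 ((map_ne_zero ι).2 h0)
    have h4 : 1 ≤ m * ‖ι (x n)‖ := by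
      have := mul_le_mul_of_nonneg_right h1 h3.le
      rwa [inv_mul_cancel₀ h3.ne'] at this
    nlinarith
  · exact Or.inr h1

theorem AR_comap {K : Type} [Field K] [LinearOrder K] [IsStrictOrderedRing K] [Archimedean K]
    [Algebra K E] (ι₀ : K →+*o ℝ) (ι : E →+* ℂ)
    (h : ∀ a : K, ι (algebraMap K E a) = ((ι₀ a : ℝ) : ℂ)) :
    (AR_V ι).comap (mapR (algebraMap K E)) = Vord K := by
  have hmono : ∀ a b : K, ι₀ a ≤ ι₀ b ↔ a ≤ b := by
    intro a b
    constructor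
    · intro hab
      by_contra h'
      push Not at h'
      have h1 : ι₀ b ≤ ι₀ a := OrderHomClass.mono ι₀ h'.le
      have h2 : ι₀ a = ι₀ b := le_antisymm hab h1
      exact h'.ne' ((ι₀ : K →+* ℝ).injective h2)
    · intro hab
      exact OrderHomClass.mono ι₀ hab
  have habs : ∀ (a : K) (m : ℕ), ‖ι (algebraMap K E a)‖ ≤ m ↔ |a| ≤ m := by
    intro a m
    rw [h, Complex.norm_real, Real.norm_eq_abs, abs_le, abs_le]
    have h1 : ι₀ (m : K) = m := map_natCast ι₀ m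
    have h2 : ι₀ (-(m : K)) = -m := by rw [map_neg, h1]
    rw [← h2, ← h1, hmono, hmono]
  ext x
  obtain ⟨x, rfl⟩ := exists_mk x
  rw [mem_comap', mapR_mk, AR_mem, mem_Vord]
  constructor
  · rintro ⟨m, hm⟩
    refine ⟨m, ?_⟩
    rw [mem_St]
    filter_upwards [hm] with n hn
    exact (habs _ _).1 hn
  · rintro ⟨e, he⟩
    obtain ⟨m, hm⟩ := exists_nat_ge e
    refine ⟨m, ?_⟩
    rw [mem_St] at he
    filter_upwards [he] with n hn
    exact (habs _ _).2 (le_trans hn hm)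

theorem AR_dense [CharZero E] (ι : E →+* ℂ) (j : E) (hj : j ^ 2 = -1) (w : ℂ) (δ : ℝ)
    (hδ : 0 < δ) : ∃ z : E, ‖ι z - w‖ < δ := by
  have h1 : (ι j - Complex.I) * (ι j + Complex.I) = 0 := by
    have h2 : ι j ^ 2 = -1 := by rw [← map_pow, hj, map_neg, map_one]
    have h3 := Complex.I_sq
    linear_combination h2 - h3
  obtain ⟨s, hs, hs1⟩ : ∃ s : ℝ, ι j = s * Complex.I ∧ |s| = 1 := by
    rcases mul_eq_zero.1 h1 with h | h
    · exact ⟨1, by rw [sub_eq_zero.1 h]; simp, by simp⟩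
    · refine ⟨-1, ?_, by simp⟩
      rw [eq_neg_of_add_eq_zero_left h]
      simp
  obtain ⟨a, ha⟩ := exists_rat_near w.re (half_pos hδ)
  obtain ⟨b, hb⟩ := exists_rat_near (s * w.im) (half_pos hδ)
  refine ⟨(a : E) + b * j, ?_⟩
  have hss : s * s = 1 := by
    rw [← abs_mul_abs_self, hs1, one_mul]
  have h4 : ι ((a : E) + b * j) - w =
      (((a : ℝ) - w.re : ℝ) : ℂ) + (((b : ℝ) * s - w.im : ℝ) : ℂ) * Complex.I := by
    rw [map_add, map_mul, map_ratCast, map_ratCast, hs]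
    conv_lhs => rw [← Complex.re_add_im w]
    push_cast
    ring
  have h5 : |(b : ℝ) * s - w.im| = |s * w.im - b| := by
    have : (b : ℝ) * s - w.im = s * (b - s * w.im) := by
      linear_combination w.im * hss
    rw [this, abs_mul, hs1, one_mul, abs_sub_comm]
  rw [h4]
  calc ‖(((a : ℝ) - w.re : ℝ) : ℂ) + (((b : ℝ) * s - w.im : ℝ) : ℂ) * Complex.I‖
      ≤ ‖(((a : ℝ) - w.re : ℝ) : ℂ)‖ + ‖(((b : ℝ) * s - w.im : ℝ) : ℂ) * Complex.I‖ :=
        norm_add_le _ _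
    _ = |(a : ℝ) - w.re| + |(b : ℝ) * s - w.im| := by
        rw [norm_mul, Complex.norm_I, mul_one, Complex.norm_real, Complex.norm_real,
          Real.norm_eq_abs, Real.norm_eq_abs]
    _ < δ / 2 + δ / 2 := by
        rw [h5, abs_sub_comm (a : ℝ)]
        exact add_lt_add ha hb
    _ = δ := add_halves δ

theorem AR_root [CharZero E] (ι : E →+* ℂ) (j : E) (hj : j ^ 2 = -1) (q : ℕ) (hq : 0 < q) (x : E)
    (hx : x ≠ 0) (n : ℕ) : ∃ z : E, ‖ι (x * z ^ q - 1)‖ * (n + 1) ≤ 1 := by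
  obtain ⟨w, hw⟩ := IsAlgClosed.exists_pow_nat_eq (ι x)⁻¹ hq
  have hx' : ι x ≠ 0 := (map_ne_zero ι).2 hx
  have hc : Continuous fun u : ℂ => ι x * u ^ q - 1 := by fun_prop
  have h0 : ι x * w ^ q - 1 = 0 := by
    rw [hw, mul_inv_cancel₀ hx', sub_self]
  have hn : (0 : ℝ) < 1 / (n + 1) := by positivity
  obtain ⟨δ, hδ, h⟩ := Metric.continuous_iff.1 hc w (1 / (n + 1)) hn
  obtain ⟨z, hz⟩ := AR_dense ι j hj w δ hδ
  refine ⟨z, ?_⟩
  have h1 := h (ι z) (by rwa [dist_eq_norm])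
  rw [h0, dist_zero_right] at h1
  rw [map_sub, map_mul, map_pow, map_one]
  rw [lt_div_iff₀ (by positivity)] at h1
  exact h1.le

end

theorem p_AR (h1 : T_AC) (h2 : T_UNS) (h3 : T_RS) (h4 : T_EQ) : T_AR := by
  intro K _ _ _ hG hA
  have := hG.cnt
  refine h1 K ?_
  intro E _ _ _ q ζ j hq hζ hj
  by_contra hF
  obtain ⟨V, hV, hU⟩ := h2 K E q ζ j hq hζ hj (hG.op q hq) hF
  have hT := h4 K hG.sq _ (h3 K E V hV.mon) hU
  have : CharZero E := charZero_of_injective_algebraMap (algebraMap K E).injective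
  let ι₀ : K →+*o ℝ := ConditionallyCompleteLinearOrderedField.inducedOrderRingHom K ℝ
  let _ : Algebra K ℂ := (Complex.ofRealHom.comp (ι₀ : K →+* ℝ)).toAlgebra
  let ι' : E →ₐ[K] ℂ := IsAlgClosed.lift
  let ι : E →+* ℂ := ι'
  have hι : ∀ a : K, ι (algebraMap K E a) = ((ι₀ a : ℝ) : ℂ) := fun a => ι'.commutes a
  have hc := AR_comap ι₀ ι hι
  have hVV : V = AR_V ι := by
    refine hU E V (AR_V ι) rfl ?_
    rw [hT, hc]
  apply hF
  intro x
  by_cases hx : x = 0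
  · exact ⟨0, by rw [hx, zero_pow hq.ne_zero]⟩
  have hz := fun n => AR_root ι j hj q hq.pos x hx n
  choose z hz using hz
  have hn : cst x * (mk z) ^ q - 1 ∈ V.nonunits := by
    rw [hVV]
    have h5 : cst x * (mk z) ^ q - 1 = mk fun n => x * z n ^ q - 1 := rfl
    rw [h5]
    refine AR_nu fun m => ?_
    filter_upwards [eventually_ge m] with n hn
    refine le_trans ?_ (hz n)
    have : (m : ℝ) ≤ n := by exact_mod_cast hn
    gcongr
  obtain ⟨y, hy⟩ := hV.pow _ hn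
  have h0 := ne_zero_of_one hn
  have hz0 : mk z ≠ 0 := by
    intro h
    apply h0
    rw [h, zero_pow hq.ne_zero, mul_zero]
  refine cst_pow_iff.1 ⟨y / mk z, ?_⟩
  rw [div_pow, ← hy, mul_div_assoc, div_self (pow_ne_zero _ hz0), mul_one]

end NST
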