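import Pool.Agent.NST.TG

set_option autoImplicit false

/-! # NST-CI (MP_32850b_lc) -/

open Polynomial

namespace NST

theorem CI_nonunits_of_not_mem {L : Type} [Field L] (V : ValuationSubring L) {x : L} (hx : x ∉ V) :
    x⁻¹ ∈ V.nonunits := by
  rw [ValuationSubring.mem_nonunits_iff_or]
  right
  rwa [inv_inv]

theorem CI_not_mem_of_inv {L : Type} [Field L] (V : ValuationSubring L) {x : L} (hx0 : x ≠ 0)
    (hx : x⁻¹ ∈ V.nonunits) : x ∉ V := by
  rw [ValuationSubring.mem_nonunits_iff_or] at hx
  rcases hx with h | h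
  · exact absurd (inv_eq_zero.mp h) hx0
  · rwa [inv_inv] at h

theorem p_CI : T_CI := by
  intro L L' _ _ f V z hz
  by_cases hz0 : z = 0
  · refine ⟨X, monic_X, ?_, by rw [eval₂_X, hz0]⟩
    intro i
    rw [coeff_X]
    split_ifs
    · exact V.one_mem
    · exact V.zero_mem
  -- the evaluation
  set φ : V →+* L' := f.comp V.subtype with hφ
  set ev : V[X] →+* L' := eval₂RingHom φ z⁻¹ with hev
  set mI : Ideal V := IsLocalRing.maximalIdeal V with hmI
  set J0 : Ideal V[X] := Ideal.comap (constantCoeff : V[X] →+* V) mI with hJ0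
  set J : Ideal ev.range := Ideal.map ev.rangeRestrict J0 with hJ
  have hJtop : J = ⊤ := by
    by_contra hne
    obtain ⟨V', hle, him⟩ := Ideal.image_subset_nonunits_valuationSubring J hne
    have hV' : V'.comap f = V := by
      ext x
      rw [ValuationSubring.mem_comap]
      constructor
      · intro hx
        by_contra hxV
        have h1 := CI_nonunits_of_not_mem V hxV
        have h1' := ValuationSubring.nonunits_subset h1
        have hx0 : x ≠ 0 := by
          rintro rfl
          exact hxV V.zero_mem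
        have h2 : (⟨x⁻¹, h1'⟩ : V) ∈ mI := by
          rw [hmI, ← ValuationSubring.coe_mem_nonunits_iff]
          exact h1
        have h2' : (C (⟨x⁻¹, h1'⟩ : V) : V[X]) ∈ J0 := by
          rw [hJ0, Ideal.mem_comap, constantCoeff_apply, coeff_C_zero]
          exact h2
        have h3 : ev.rangeRestrict (C (⟨x⁻¹, h1'⟩ : V)) ∈ J := Ideal.mem_map_of_mem _ h2'
        have h4 := him ⟨_, h3, rfl⟩
        have h5 : (ev.range.subtype) (ev.rangeRestrict (C (⟨x⁻¹, h1'⟩ : V))) = (f x)⁻¹ := by
          change ev (C (⟨x⁻¹, h1'⟩ : V)) = _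
          rw [hev, coe_eval₂RingHom, eval₂_C, hφ]
          change f x⁻¹ = _
          rw [map_inv₀]
        rw [h5] at h4
        refine CI_not_mem_of_inv V' ?_ h4 hx
        intro h
        exact hx0 ((map_eq_zero f).mp h)
      · intro hx
        apply hle
        refine ⟨C (⟨x, hx⟩ : V), ?_⟩
        rw [hev, coe_eval₂RingHom, eval₂_C]
        rfl
    have h1 := hz V' hV'
    have h2' : (X : V[X]) ∈ J0 := by
      rw [hJ0, Ideal.mem_comap, constantCoeff_apply, coeff_X_zero]
      exact mI.zero_mem
    have h3 : ev.rangeRestrict X ∈ J := Ideal.mem_map_of_mem _ h2'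
    have h4 := him ⟨_, h3, rfl⟩
    have h5 : (ev.range.subtype) (ev.rangeRestrict X) = z⁻¹ := by
      change ev X = _
      rw [hev, coe_eval₂RingHom, eval₂_X]
    rw [h5] at h4
    exact CI_not_mem_of_inv V' hz0 h4 h1
  have h1 : (1 : ev.range) ∈ J := by
    rw [hJtop]
    exact Submodule.mem_top
  rw [hJ, Ideal.mem_map_iff_of_surjective _ ev.rangeRestrict_surjective] at h1
  obtain ⟨q, hq, hq1⟩ := h1
  have hq2 : eval₂ φ z⁻¹ q = 1 := by
    have := congrArg (ev.range.subtype) hq1
    simpa [hev] using this
  have hq0 : q.coeff 0 ∈ mI := by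
    rw [hJ0, Ideal.mem_comap, constantCoeff_apply] at hq
    exact hq
  set N := q.natDegree with hN
  set b : ℕ → L := fun n => ((q.coeff n : V) : L) with hb
  have hbV : ∀ n, V.valuation (b n) ≤ 1 := fun n =>
    (V.valuation_le_one_iff _).mpr (q.coeff n).2
  have hbm : b 0 ∈ V.nonunits := by
    rw [hb]
    exact ValuationSubring.coe_mem_nonunits_iff.mpr hq0
  have hsum : ∑ i ∈ Finset.range (N + 1), f (b i) * z⁻¹ ^ i = 1 := by
    rw [← hq2, eval₂_eq_sum_range]
    rfl
  have hsum2 : ∑ i ∈ Finset.range (N + 1), f (b (N - i)) * z ^ i = z ^ N := by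
    have h := congrArg (fun t => t * z ^ N) hsum
    simp only [one_mul, Finset.sum_mul] at h
    rw [← h, ← Finset.sum_range_reflect]
    refine Finset.sum_congr rfl fun i hi => ?_
    have hi' : i ≤ N := by
      have := Finset.mem_range.mp hi
      omega
    have e1 : N + 1 - 1 - i = N - i := by omega
    have e2 : N - (N - i) = i := by omega
    rw [e1, e2, mul_assoc]
    congr 1
    have e3 : z ^ N = z ^ i * z ^ (N - i) := by
      rw [← pow_add]
      congr 1
      omega
    rw [e3, inv_pow, ← mul_assoc, inv_mul_cancel₀ (pow_ne_zero _ hz0), one_mul]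
  rw [Finset.sum_range_succ, Nat.sub_self] at hsum2
  -- the unit
  set u : L := 1 - b 0 with hu
  have hb0 : V.valuation (b 0) < 1 := V.mem_nonunits_iff.mp hbm
  have huv : V.valuation u = 1 := by
    rw [hu, sub_eq_add_neg, Valuation.map_add_eq_of_lt_left]
    · exact Valuation.map_one _
    · rw [Valuation.map_neg, Valuation.map_one]
      exact hb0
  have hu0 : u ≠ 0 := by
    intro h
    rw [h, Valuation.map_zero] at huv
    exact zero_ne_one huv
  have hfu0 : f u ≠ 0 := fun h => hu0 ((map_eq_zero f).mp h)
  set c : ℕ → L := fun j => -(b (N - j) / u) with hc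
  have hcm : ∀ j, c j ∈ V := by
    intro j
    rw [← V.valuation_le_one_iff, hc]
    simp only
    rw [Valuation.map_neg, map_div₀, huv, div_one]
    exact hbV _
  set r : L[X] := ∑ j ∈ Finset.range N, C (c j) * X ^ j with hr
  have hrc : ∀ i, r.coeff i = if i < N then c i else 0 := by
    intro i
    rw [hr, finsetSum_coeff]
    simp only [coeff_C_mul_X_pow]
    by_cases hi : i < N
    · rw [if_pos hi, Finset.sum_eq_single i]
      · rw [if_pos rfl]
      · intro j _ hj
        rw [if_neg (fun h => hj h.symm)]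
      · intro h
        exact absurd (Finset.mem_range.mpr hi) h
    · rw [if_neg hi]
      refine Finset.sum_eq_zero fun j hj => ?_
      rw [if_neg]
      intro h
      have := Finset.mem_range.mp hj
      omega
  have hrd : r.degree < N := by
    rw [degree_lt_iff_coeff_zero]
    intro m hm
    rw [hrc, if_neg (by omega)]
  have hmon : (X ^ N + r).Monic := monic_X_pow_add hrd
  refine ⟨X ^ N + r, hmon, ?_, ?_⟩
  · intro i
    rw [coeff_add, coeff_X_pow, hrc]
    refine V.add_mem _ _ ?_ ?_
    · split_ifs
      · exact V.one_mem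
      · exact V.zero_mem
    · split_ifs
      · exact hcm i
      · exact V.zero_mem
  · rw [eval₂_add, eval₂_X_pow, hr, eval₂_finsetSum]
    simp only [eval₂_mul, eval₂_C, eval₂_X_pow]
    have h1 : ∑ x ∈ Finset.range N, f (c x) * z ^ x
        = -((∑ x ∈ Finset.range N, f (b (N - x)) * z ^ x) / f u) := by
      rw [Finset.sum_div, ← Finset.sum_neg_distrib]
      refine Finset.sum_congr rfl fun x _ => ?_
      rw [hc]
      simp only [map_neg, map_div₀]
      ring
    rw [h1]
    have h2 : ∑ x ∈ Finset.range N, f (b (N - x)) * z ^ x = z ^ N * f u := by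
      rw [hu, map_sub, map_one]
      linear_combination hsum2
    rw [h2, mul_div_assoc, div_self hfu0]
    ring

end NST
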