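import Pool.Agent.NST.TG

/-!
# NST: a homomorphism which detects the power classes of a subgroup
-/

set_option autoImplicit false

open scoped Classical

namespace NST

noncomputable section

/-- the extension by zero of a homomorphism of the units -/
def CLS_ext {F : Type} [Field F] {H : Type} [CommGroup H] (f : Fˣ →* H) : F →*₀ WithZero H where
  toFun x := if h : x = 0 then 0 else ((f (Units.mk0 x h) : H) : WithZero H)
  map_zero' := by simp
  map_one' := by
    have h1 : (Units.mk0 (1 : F) one_ne_zero) = 1 := Units.ext rfl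
    simp [h1]
  map_mul' x y := by
    by_cases hx : x = 0
    · simp [hx]
    · by_cases hy : y = 0
      · simp [hy]
      · have hxy : x * y ≠ 0 := mul_ne_zero hx hy
        have h2 : Units.mk0 (x * y) hxy = Units.mk0 x hx * Units.mk0 y hy := Units.ext rfl
        simp only [hx, hy, hxy, dif_neg, not_false_iff]
        rw [h2, map_mul, WithZero.coe_mul]

theorem CLS_ext_apply {F : Type} [Field F] {H : Type} [CommGroup H] (f : Fˣ →* H) (x : Fˣ) :
    CLS_ext f (x : F) = ((f x : H) : WithZero H) := by
  have h : (x : F) ≠ 0 := x.ne_zero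
  change (if h : (x : F) = 0 then 0 else ((f (Units.mk0 (x : F) h) : H) : WithZero H)) = _
  rw [dif_neg h]
  congr 2
  exact Units.ext rfl

theorem CLS_vs (K : Type) [Field K] [Finite K] (A : Type) [AddCommGroup A] [Module K A]
    (S : Set A) (hS : S.Finite) : ∃ (W : Type) (_ : AddCommGroup W) (_ : Finite W) (g : A →+ W),
      ∀ x ∈ S, g x = 0 → x = 0 := by
  obtain ⟨W, hW0⟩ : ∃ W : Submodule K A, W = Submodule.span K S := ⟨_, rfl⟩
  have hf : Module.Finite K W := by
    rw [hW0]
    exact Module.Finite.span_of_finite K hS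
  have hWf : Finite W := Module.finite_of_finite K
  obtain ⟨g, hg⟩ := LinearMap.exists_leftInverse_of_injective W.subtype W.ker_subtype
  refine ⟨W, inferInstance, hWf, g.toAddMonoidHom, ?_⟩
  intro x hx h3
  have hW : x ∈ W := by
    rw [hW0]
    exact Submodule.subset_span hx
  have h4 : g (W.subtype ⟨x, hW⟩) = (⟨x, hW⟩ : W) := LinearMap.congr_fun hg _
  have h5 : (⟨x, hW⟩ : W) = 0 := by rw [← h4]; exact h3
  exact congrArg Subtype.val h5

theorem CLS_proj (A : Type) [AddCommGroup A] (q : ℕ) [Fact q.Prime] (hqA : ∀ x : A, q • x = 0)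
    (S : Set A) (hS : S.Finite) : ∃ (W : Type) (_ : AddCommGroup W) (_ : Finite W) (g : A →+ W),
      ∀ x ∈ S, g x = 0 → x = 0 := by
  have : NeZero q := ⟨(Fact.out : q.Prime).ne_zero⟩
  exact @CLS_vs (ZMod q) _ _ A _ (AddCommGroup.zmodModule hqA) S hS

theorem p_CLS : T_CLS := by
  intro F _ q hq U hU
  have : Fact q.Prime := ⟨hq⟩
  obtain ⟨B, hB⟩ := hU
  let P : Subgroup Fˣ := (powMonoidHom q : Fˣ →* Fˣ).range
  let A : Type := Additive (Fˣ ⧸ P)
  let π : Fˣ → A := fun x => Additive.ofMul (QuotientGroup.mk x : Fˣ ⧸ P)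
  have hqA : ∀ x : A, q • x = 0 := by
    intro x
    obtain ⟨y, hy⟩ := QuotientGroup.mk_surjective (Additive.toMul x)
    have hx : x = π y := by
      change x = Additive.ofMul (QuotientGroup.mk y : Fˣ ⧸ P)
      rw [hy]
      rfl
    rw [hx]
    change Additive.ofMul ((QuotientGroup.mk y : Fˣ ⧸ P) ^ q) = Additive.ofMul 1
    rw [← QuotientGroup.mk_pow]
    congr 1
    exact (QuotientGroup.eq_one_iff _).2 ⟨y, rfl⟩
  have hfin : (π '' (U : Set Fˣ)).Finite := by
    refine Set.Finite.subset ((B : Set F).toFinite.image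
      fun b => if h : b = 0 then (0 : A) else π (Units.mk0 b h)) ?_
    rintro _ ⟨x, hx, rfl⟩
    obtain ⟨b, hb, y, hy⟩ := hB x hx
    have hb0 : b ≠ 0 := by
      rintro rfl
      exact x.ne_zero (by rw [hy, zero_mul])
    have hy0 : y ≠ 0 := by
      rintro rfl
      exact x.ne_zero (by rw [hy, zero_pow hq.ne_zero, mul_zero])
    refine ⟨b, hb, ?_⟩
    simp only [dif_neg hb0]
    change Additive.ofMul (QuotientGroup.mk (Units.mk0 b hb0) : Fˣ ⧸ P) =
      Additive.ofMul (QuotientGroup.mk x : Fˣ ⧸ P)
    congr 1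
    refine QuotientGroup.eq.2 ⟨Units.mk0 y hy0, ?_⟩
    apply Units.ext
    simp only [powMonoidHom_apply, Units.val_pow_eq_pow_val, Units.val_mk0, Units.val_mul]
    rw [hy, Units.val_inv_eq_inv_val, Units.val_mk0]
    field_simp
  obtain ⟨W, _, hWf, g, hg⟩ := CLS_proj A q hqA _ hfin
  let f : Fˣ →* Multiplicative W :=
    { toFun := fun x => Multiplicative.ofAdd (g (π x))
      map_one' := by
        have : π 1 = 0 := rfl
        rw [this, map_zero]
        rfl
      map_mul' := by
        intro x y
        have : π (x * y) = π x + π y := rfl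
        rw [this, map_add]
        rfl }
  refine ⟨WithZero (Multiplicative W), inferInstance, ?_, CLS_ext f, ?_, ?_⟩
  · have : Finite (Multiplicative W) := hWf
    exact inferInstanceAs (Finite (Option (Multiplicative W)))
  · intro y hy
    have h1 : CLS_ext f (((Units.mk0 y hy) ^ q : Fˣ) : F) = _ := CLS_ext_apply f _
    rw [Units.val_pow_eq_pow_val, Units.val_mk0] at h1
    rw [h1]
    have h2 : f ((Units.mk0 y hy) ^ q) = 1 := by
      change Multiplicative.ofAdd (g (π ((Units.mk0 y hy) ^ q))) = 1
      have h3 : π ((Units.mk0 y hy) ^ q) = 0 := by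
        change Additive.ofMul (QuotientGroup.mk ((Units.mk0 y hy) ^ q) : Fˣ ⧸ P) =
          Additive.ofMul 1
        congr 1
        exact (QuotientGroup.eq_one_iff _).2 ⟨Units.mk0 y hy, rfl⟩
      rw [h3, map_zero]
      rfl
    rw [h2]
    rfl
  · intro x hx h1
    rw [CLS_ext_apply] at h1
    have h2 : f x = 1 := by
      have : ((f x : Multiplicative W) : WithZero (Multiplicative W)) =
        ((1 : Multiplicative W) : WithZero (Multiplicative W)) := h1
      exact WithZero.coe_injective this
    have h3 : g (π x) = 0 := Multiplicative.ofAdd.injective h2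
    have h6 : π x = 0 := hg _ ⟨x, hx, rfl⟩ h3
    have h7 : (QuotientGroup.mk x : Fˣ ⧸ P) = 1 := Additive.ofMul.injective h6
    obtain ⟨y, hy⟩ := (QuotientGroup.eq_one_iff x).1 h7
    refine ⟨(y : F), ?_⟩
    rw [← hy]
    simp

end

end NST
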