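import Pool.Agent.NST.TD

/-!
# NST: target DI (dichotomy)
-/

set_option autoImplicit false

noncomputable section

namespace NST

open Filter Polynomial

theorem p_DI (h1 : T_AC) (h2 : T_UNS) (h3 : T_RS) (h4 : T_EQ) : T_DI := by
  intro K _ _ _ hG
  by_cases h : ∀ (E : Type) [Field E] [Algebra K E] [FiniteDimensional K E] (q : ℕ) (ζ j : E),
      q.Prime → IsPrimitiveRoot ζ q → j ^ 2 = -1 → Ful E q
  · left
    exact h1 K h
  · right
    push Not at h
    obtain ⟨E, iF, iA, iD, q, ζ, j, hq, hζ, hj, hF⟩ := h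
    obtain ⟨V, hV, hU⟩ := h2 K E q ζ j hq hζ hj (hG.op q hq) hF
    have hc : Countable K := hG.cnt
    have hM := h3 K E V hV.mon
    have hT := h4 K hG.sq _ hM hU
    rw [← hT]
    exact hU

end NST
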