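import Pool.Agent.NST.TG

/-!
# NST: EC, solvability of polynomial systems in elementary subfields (helper13)
-/

set_option autoImplicit false

open FirstOrder FirstOrder.Language FirstOrder.Ring

noncomputable section

namespace NST

namespace EC_

/-- the polynomial with its coefficients as further variables -/
def gen {K₀ : Type} [Field K₀] {n : ℕ} (P : MvPolynomial (Fin n) K₀) :
    FreeCommRing (K₀ ⊕ Fin n) :=
  ∑ s ∈ P.support, FreeCommRing.of (Sum.inl (P.coeff s)) *
    ∏ i, FreeCommRing.of (Sum.inr i) ^ s i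

theorem gen_lift {K₀ K : Type} [Field K₀] [Field K] {n : ℕ} (P : MvPolynomial (Fin n) K₀)
    (ι : K₀ →+* K) (a : Fin n → K) :
    FreeCommRing.lift (Sum.elim (fun c => ι c) a) (gen P) = MvPolynomial.eval₂ ι a P := by
  unfold gen
  rw [MvPolynomial.eval₂_eq']
  simp only [map_sum, map_mul, map_prod, map_pow, FreeCommRing.lift_of, Sum.elim_inl,
    Sum.elim_inr]

/-- the formula -/
def fo {K₀ : Type} [Field K₀] {n m : ℕ} (P : Fin m → MvPolynomial (Fin n) K₀) :
    Language.ring.Formula (K₀ ⊕ Fin n) :=
  Formula.iInf fun j : Fin m =>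
    Term.equal (termOfFreeCommRing (gen (P j))) (termOfFreeCommRing 0)

/-- the formula with the quantifier in the language of ordered rings -/
def fm {K₀ : Type} [Field K₀] {n m : ℕ} (P : Fin m → MvPolynomial (Fin n) K₀) :
    NFV.Lor.Formula K₀ :=
  (LHom.sumInl : Language.ring →ᴸ NFV.Lor).onFormula (Formula.iExs (Fin n) (fo P))

theorem fm_realize {K₀ K : Type} [Field K₀] [Field K] [Ring.CompatibleRing K]
    [Language.order.Structure K] {n m : ℕ} (P : Fin m → MvPolynomial (Fin n) K₀)
    (ι : K₀ →+* K) :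
    (fm P).Realize (fun c => ι c) ↔
      ∃ a : Fin n → K, ∀ j, MvPolynomial.eval₂ ι a (P j) = 0 := by
  unfold fm
  rw [LHom.realize_onFormula, Formula.realize_iExs]
  unfold fo
  simp only [Formula.realize_iInf, Formula.realize_equal, realize_termOfFreeCommRing, gen_lift,
    map_zero]

end EC_

theorem p_EC : T_EC := by
  intro K₀ K _ _ _ _ _ _ _ _ _ _ ι e he n m P h
  have h1 : (EC_.fm P).Realize (fun c => ι c) := (EC_.fm_realize P ι).2 h
  have h2 : (fun c => ι c) = ⇑e ∘ (id : K₀ → K₀) := by
    funext c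
    exact (he c).symm
  rw [h2, e.map_formula] at h1
  exact (EC_.fm_realize P (RingHom.id K₀)).1 h1

end NST
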