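import Pool.Agent.NST.TG

/-!
# Project NST: target T_EH (a henselian local valuation ring satisfies Hensel's lemma over the field)
-/

set_option autoImplicit false

namespace NST

open Polynomial

theorem p_EH : T_EH := by
  intro K _ O hO f hf hc a₀ ha₀ h1 h2
  have e1 : ∀ (g : O[X]) (b : O), (g.map O.subtype).eval (b : K) = ((g.eval b : O) : K) := by
    intro g b
    rw [show (b : K) = O.subtype b from rfl, eval_map, eval₂_at_apply]
    rfl
  have hl : f ∈ lifts O.subtype := by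
    rw [lifts_iff_coeff_lifts]
    intro n
    exact ⟨⟨f.coeff n, hc n⟩, rfl⟩
  obtain ⟨g, hg, _, hgm⟩ := lifts_and_natDegree_eq_and_monic hl hf
  have h3 : g.eval ⟨a₀, ha₀⟩ ∈ IsLocalRing.maximalIdeal O := by
    rw [← O.coe_mem_nonunits_iff, ← e1, hg]
    exact h1
  have h4 : IsUnit (g.derivative.eval ⟨a₀, ha₀⟩) := by
    by_contra h5
    apply h2
    have h6 : g.derivative.eval ⟨a₀, ha₀⟩ ∈ IsLocalRing.maximalIdeal O :=
      (IsLocalRing.mem_maximalIdeal _).2 h5
    rw [← O.coe_mem_nonunits_iff, ← e1, ← derivative_map, hg] at h6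
    exact h6
  obtain ⟨a, ha, hb⟩ := hO.is_henselian g hgm ⟨a₀, ha₀⟩ h3 h4
  refine ⟨(a : K), ?_, ?_⟩
  · rw [← hg, e1, show g.eval a = 0 from ha]
    rfl
  · exact O.coe_mem_nonunits_iff.2 hb

end NST
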