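import Pool.Agent.NST.TG

/-!
# NST: target EL (downward Löwenheim-Skolem for ordered fields)
-/

set_option autoImplicit false

open FirstOrder FirstOrder.Language Cardinal

noncomputable section

namespace NST

namespace EL_

/-- the language of ordered rings is countable -/
theorem card_le : NFV.Lor.card ≤ ℵ₀ := by
  rw [Language.card_sum]
  simp

/-- the formula saying that `x * y = 1` -/
def invF : NFV.Lor.BoundedFormula (Fin 1) 1 :=
  (LHom.sumInl : Language.ring →ᴸ NFV.Lor).onBoundedFormula
    ((((Term.var (Sum.inl 0) : Language.ring.Term (Fin 1 ⊕ Fin 1)) *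
      (Term.var (Sum.inr 0)))).bdEqual 1)

section

variable {K : Type} [Field K] [Ring.CompatibleRing K] [Language.order.Structure K]

theorem invF_realize (v : Fin 1 → K) (w : Fin 1 → K) : invF.Realize v w ↔ v 0 * w 0 = 1 := by
  unfold invF
  rw [LHom.realize_onBoundedFormula]
  simp [BoundedFormula.realize_bdEqual]

theorem inv_mem (S : NFV.Lor.ElementarySubstructure K) (x : S) (hx : (x : K) ≠ 0) :
    ((x : K))⁻¹ ∈ S := by
  have h2 : (invF.ex).Realize (fun _ : Fin 1 => x) default := by
    rw [← S.subtype.map_boundedFormula invF.ex (fun _ : Fin 1 => x) default,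
      BoundedFormula.realize_ex]
    refine ⟨(x : K)⁻¹, ?_⟩
    rw [invF_realize]
    simp [hx, Fin.snoc]
  rw [BoundedFormula.realize_ex] at h2
  obtain ⟨y, hy⟩ := h2
  have h3 := (S.subtype.map_boundedFormula invF (fun _ : Fin 1 => x) _).2 hy
  rw [invF_realize] at h3
  have h4 : (x : K) * (y : K) = 1 := by
    simpa [Fin.snoc] using h3
  rw [← eq_inv_of_mul_eq_one_right h4]
  exact y.2

theorem fun_mem (S : NFV.Lor.ElementarySubstructure K) {n : ℕ} (f : Language.ring.Functions n)
    (x : Fin n → K) (hx : ∀ i, x i ∈ S) :
    Structure.funMap (L := Language.ring) f x ∈ S :=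
  S.toSubstructure.fun_mem (Sum.inl f : NFV.Lor.Functions n) x hx

/-- an elementary substructure is a subfield -/
def sf (S : NFV.Lor.ElementarySubstructure K) : Subfield K where
  carrier := (S : Set K)
  mul_mem' := by
    intro a b ha hb
    have := fun_mem S Ring.mulFunc ![a, b] (by
      intro i
      fin_cases i
      · exact ha
      · exact hb)
    rw [Ring.CompatibleRing.funMap_mul] at this
    exact this
  one_mem' := by
    have := fun_mem S Ring.oneFunc ![] (fun i => i.elim0)
    rw [Ring.CompatibleRing.funMap_one] at this
    exact this
  add_mem' := by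
    intro a b ha hb
    have := fun_mem S Ring.addFunc ![a, b] (by
      intro i
      fin_cases i
      · exact ha
      · exact hb)
    rw [Ring.CompatibleRing.funMap_add] at this
    exact this
  zero_mem' := by
    have := fun_mem S Ring.zeroFunc ![] (fun i => i.elim0)
    rw [Ring.CompatibleRing.funMap_zero] at this
    exact this
  neg_mem' := by
    intro a ha
    have := fun_mem S Ring.negFunc ![a] (by
      intro i
      fin_cases i
      exact ha)
    rw [Ring.CompatibleRing.funMap_neg] at this
    exact this
  inv_mem' := by
    intro a ha
    by_cases h : a = 0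
    · subst h
      rw [inv_zero]
      exact ha
    · exact inv_mem S ⟨a, ha⟩ h

end

section

variable {K : Type} [Field K] [LinearOrder K] [Ring.CompatibleRing K]
  [Language.order.Structure K] [Language.order.OrderedStructure K]

/-- the ring structure on the subfield -/
@[instance_reducible]
def cr (S : NFV.Lor.ElementarySubstructure K) : Ring.CompatibleRing (sf S) :=
  Ring.compatibleRingOfRing (sf S)

/-- the order structure on the subfield -/
@[instance_reducible]
def os (S : NFV.Lor.ElementarySubstructure K) : Language.order.Structure (sf S) :=
  Language.orderStructure (sf S)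

omit [Language.order.OrderedStructure K] in
theorem ost (S : NFV.Lor.ElementarySubstructure K) :
    @Language.OrderedStructure Language.order (sf S) _ _ (os S) := by
  let _ := os S
  exact ⟨fun x => Iff.rfl⟩

/-- the subfield is isomorphic to the substructure -/
def eqv (S : NFV.Lor.ElementarySubstructure K) :
    @Language.Equiv NFV.Lor (sf S) S
      (@Language.sumStructure _ _ (sf S) (cr S).toStructure (os S)) _ :=
  let _ := cr S
  let _ := os S
  { toFun := fun x => ⟨x.1, x.2⟩
    invFun := fun x => ⟨x.1, x.2⟩
    left_inv := fun _ => rfl
    right_inv := fun _ => rfl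
    map_fun' := by
      intro n f x
      apply Subtype.ext
      cases f with
      | inl f =>
        change _ = Structure.funMap (L := Language.ring) f (fun i => ((x i : sf S) : K))
        cases f with
        | add =>
          erw [Ring.CompatibleRing.funMap_add, Ring.CompatibleRing.funMap_add]
          rfl
        | mul =>
          erw [Ring.CompatibleRing.funMap_mul, Ring.CompatibleRing.funMap_mul]
          rfl
        | neg =>
          erw [Ring.CompatibleRing.funMap_neg, Ring.CompatibleRing.funMap_neg]
          rfl
        | zero =>
          erw [Ring.CompatibleRing.funMap_zero (R := sf S) x, Ring.CompatibleRing.funMap_zero]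
          rfl
        | one =>
          erw [Ring.CompatibleRing.funMap_one (R := sf S) x, Ring.CompatibleRing.funMap_one]
          rfl
      | inr f => exact f.elim
    map_rel' := by
      intro n r x
      cases r with
      | inl r => exact r.elim
      | inr r =>
        cases r
        change Structure.RelMap (L := Language.order) (leSymb : Language.order.Relations 2)
          (fun i => ((x i : sf S) : K)) ↔ _
        rw [relMap_leSymb]
        rfl }

end

end EL_

open EL_ in
theorem p_EL : T_EL := by
  intro K _ _ _ _ _ _ s hs
  have : Infinite K := inferInstance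
  obtain ⟨S, hS, hc⟩ := exists_elementarySubstructure_card_eq NFV.Lor (M := K) s
    (ℵ₀ : Cardinal.{0}) le_rfl
    (by simpa using hs.le_aleph0) (by simpa using card_le) (by simp)
  have hcS : Countable S := by
    rw [← Cardinal.mk_le_aleph0_iff]
    simpa using hc.le
  let _ := cr S
  let _ := os S
  have ho := ost S
  refine ⟨sf S, inferInstance, inferInstance, inferInstance, cr S, os S, ost S, (sf S).subtype,
    S.subtype.comp (eqv S).toElementaryEmbedding, hcS, fun a b => Iff.rfl, ?_, fun a => rfl⟩
  intro x hx
  exact ⟨⟨x, hS hx⟩, rfl⟩

end NST
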