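import Pool.Agent.NST.TD

set_option autoImplicit false

noncomputable section

namespace NST

open Filter Polynomial

theorem EQ_fin {K : Type} (C : Finset K) (P : K → ℕ → Prop)
    (h : ∀ᶠ n in (Uf : Filter ℕ), ∃ c ∈ C, P c n) : ∃ c ∈ C, ∀ᶠ n in (Uf : Filter ℕ), P c n := by
  by_contra hc
  push Not at hc
  have h1 : ∀ c ∈ C, ∀ᶠ n in (Uf : Filter ℕ), ¬ P c n := by
    intro c hc'
    exact hc c hc'
  have h2 : ∀ᶠ n in (Uf : Filter ℕ), ∀ c ∈ C, ¬ P c n := (Finset.eventually_all _).2 h1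
  obtain ⟨n, ⟨c, hcC, hP⟩, hn⟩ := (h.and h2).exists
  exact hn c hcC hP

theorem EQ_prime {L : Type} [Field L] {V : ValuationSubring L} {x y : L} (hx : x ∈ V) (hy : y ∈ V)
    (h : x * y ∈ V.nonunits) : x ∈ V.nonunits ∨ y ∈ V.nonunits := by
  rw [ValuationSubring.mem_nonunits_iff] at h
  by_contra hc
  push Not at hc
  have h1 : 1 ≤ V.valuation x := by
    by_contra h1
    exact hc.1 ((ValuationSubring.mem_nonunits_iff V).2 (not_le.1 h1))
  have h2 : 1 ≤ V.valuation y := by
    by_contra h2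
    exact hc.2 ((ValuationSubring.mem_nonunits_iff V).2 (not_le.1 h2))
  have h3 : V.valuation x = 1 := le_antisymm ((V.valuation_le_one_iff x).2 hx) h1
  have h4 : V.valuation y = 1 := le_antisymm ((V.valuation_le_one_iff y).2 hy) h2
  rw [map_mul, h3, h4, _root_.mul_one] at h
  exact lt_irrefl _ h

/-- a quadratic extension with the conjugation -/
theorem EQ_quad {K : Type} [Field K] (c : K) (hc : ∀ b : K, b ^ 2 ≠ c) :
    ∃ (N : Type) (_ : Field N) (_ : Algebra K N) (_ : FiniteDimensional K N) (s : N)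
      (σ : N →+* N), s ^ 2 = algebraMap K N c ∧ σ s = -s ∧
      ∀ a, σ (algebraMap K N a) = algebraMap K N a := by
  have hirr : Irreducible (X ^ 2 - C c : K[X]) := X_pow_sub_C_irreducible_of_prime Nat.prime_two hc
  haveI : Fact (Irreducible (X ^ 2 - C c : K[X])) := ⟨hirr⟩
  have hs : (AdjoinRoot.root (X ^ 2 - C c : K[X])) ^ 2 = algebraMap K _ c := by
    have h := AdjoinRoot.eval₂_root (X ^ 2 - C c : K[X])
    rw [eval₂_sub, eval₂_X_pow, eval₂_C, sub_eq_zero] at h
    exact h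
  have hroot : (X ^ 2 - C c : K[X]).eval₂ (AdjoinRoot.of (X ^ 2 - C c : K[X]))
      (-AdjoinRoot.root (X ^ 2 - C c : K[X])) = 0 := by
    rw [eval₂_sub, eval₂_X_pow, eval₂_C, neg_sq, hs, sub_eq_zero]
    rfl
  refine ⟨AdjoinRoot (X ^ 2 - C c : K[X]), inferInstance, inferInstance,
    (AdjoinRoot.powerBasis hirr.ne_zero).finite, AdjoinRoot.root _,
    AdjoinRoot.lift (AdjoinRoot.of _) (-AdjoinRoot.root _) hroot, hs, ?_, ?_⟩
  · exact AdjoinRoot.lift_root hroot
  · intro a
    exact AdjoinRoot.lift_of hroot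

theorem p_EQ (h1 : T_AA) (h2 : T_VM) (h3 : T_CH) : T_EQ := by
  classical
  intro K _ _ _ _ hSq T hT hU
  by_contra hne
  obtain ⟨hV, hnu⟩ := h2 K
  obtain ⟨x, hx⟩ := h1 K {T, Vord K} (Set.toFinite _) (by
    rintro V (rfl | rfl)
    · exact hT
    · exact hV) (fun V => if V = T then 1 else -1) (fun _ => 1) (fun _ _ => one_ne_zero)
  have hx1 : x - 1 ∈ T.nonunits := by
    have h := hx T (Or.inl rfl)
    rw [if_pos rfl, _root_.div_one] at h
    exact h
  have hx2 : x + 1 ∈ (Vord K).nonunits := by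
    have h := hx (Vord K) (Or.inr rfl)
    rw [if_neg (Ne.symm hne), _root_.div_one, sub_neg_eq_add] at h
    exact h
  obtain ⟨x', rfl⟩ := exists_mk x
  have hx3 : ∀ᶠ n in (Uf : Filter ℕ), |x' n + 1| ≤ 1 / 2 := by
    have h := (hnu _).1 hx2 (1 / 2) (by norm_num)
    rw [mk_one, mk_add, mem_St] at h
    exact h
  obtain ⟨C, hC⟩ := hSq
  obtain ⟨c, hcC, hc⟩ := EQ_fin C (fun c n => ∃ y, x' n = c * y ^ 2)
    (hx3.mono fun n hn => hC _ hn)
  obtain ⟨y', hy'⟩ := hc.choice
  have hxy : mk x' = cst c * mk y' ^ 2 := by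
    unfold cst
    rw [mk_pow, mk_mul, mk_eq]
    exact hy'
  have hc0 : c < 0 := by
    obtain ⟨n, hn, hn'⟩ := (hx3.and hy').exists
    rw [abs_le] at hn
    have hneg : c * y' n ^ 2 < 0 := by
      rw [← hn']
      linarith [hn.2]
    by_contra h0
    push Not at h0
    have := mul_nonneg h0 (sq_nonneg (y' n))
    linarith
  obtain ⟨N, _, _, _, s, σ, hs, hσs, hσ⟩ := EQ_quad c (fun b hb => by
    have := sq_nonneg b
    rw [hb] at this
    linarith)
  set φ := mapR (algebraMap K N) with hφ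
  obtain ⟨V', hV'⟩ := h3 (Lx K) (Lx N) φ T
  set w : Lx N := cst s * φ (mk y') with hw
  have hw2 : w ^ 2 = φ (mk x') := by
    rw [hxy, map_mul, map_pow, hw, _root_.mul_pow, ← cst_pow, hs, hφ, mapR_cst]
  have hnT : ∀ u : Lx K, φ u ∈ V'.nonunits ↔ u ∈ T.nonunits := by
    intro u
    rw [← hV', nu_comap]
  have hprod : (w - 1) * (w + 1) ∈ V'.nonunits := by
    have h4 : (w - 1) * (w + 1) = φ (mk x' - 1) := by
      rw [map_sub, map_one, ← hw2]
      ring
    rw [h4, hnT]
    exact hx1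
  have hwV : w ∈ V' := by
    refine nu_pow_mem 2 ?_ (by norm_num)
    rw [hw2]
    have h5 : mk x' ∈ T := mem_of_one hx1
    rw [← hV'] at h5
    exact h5
  have hw1 : w - 1 ∈ V' := V'.sub_mem hwV V'.one_mem
  have hw1' : w + 1 ∈ V' := V'.add_mem _ _ hwV V'.one_mem
  -- the conjugate ring
  have hVV : V'.comap (mapR σ) = V' := by
    refine hU N _ _ ?_ hV'
    rw [← hV']
    ext u
    rw [mem_comap', mem_comap', mem_comap']
    obtain ⟨u, rfl⟩ := exists_mk u
    rw [mapR_mk, mapR_mk]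
    have h6 : (fun n => σ (algebraMap K N (u n))) = fun n => algebraMap K N (u n) := by
      funext n
      exact hσ _
    rw [h6]
  have hconj : ∀ u : Lx N, u ∈ V'.nonunits → mapR σ u ∈ V'.nonunits := by
    intro u hu
    rw [← nu_comap, hVV]
    exact hu
  have hσw : mapR σ w = -w := by
    rw [hw, map_mul, mapR_cst, hσs, hφ, mapR_mk, mapR_mk, cst_neg, neg_mul]
    congr 2
    congr 1
    funext n
    exact hσ _
  have h2T : (2 : Lx K) ∉ T.nonunits := by
    rw [nu_iff]
    push Not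
    refine ⟨two_ne_zero, ?_⟩
    have h7 : (2 : Lx K)⁻¹ = cst ((2 : K)⁻¹) := rfl
    rw [h7]
    exact hT.cst_mem _
  have h2V : (2 : Lx N) ∉ V'.nonunits := by
    intro h
    apply h2T
    rw [← hnT]
    have h8 : φ 2 = 2 := map_ofNat φ 2
    rw [h8]
    exact h
  rcases EQ_prime hw1 hw1' hprod with h | h
  · have h9 := hconj _ h
    rw [map_sub, map_one, hσw] at h9
    have h10 := V'.nonunits.neg_mem (V'.nonunits.add_mem h h9)
    apply h2V
    have h11 : -(w - 1 + (-w - 1)) = 2 := by ring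
    rwa [h11] at h10
  · have h9 := hconj _ h
    rw [map_add, map_one, hσw] at h9
    have h10 := V'.nonunits.add_mem h h9
    apply h2V
    have h11 : w + 1 + (-w + 1) = 2 := by ring
    rwa [h11] at h10

end NST
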