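import Pool.Agent.NST.TG

/-!
# NST: extension of finite extensions

The extension is `K ⊗ E₀`; that it is a domain, and that `q`-th powers are reflected, is a system
of polynomial equations in the coordinates with respect to a basis of `E₀`.
-/

set_option autoImplicit false

noncomputable section

namespace NST

open scoped TensorProduct

/-- `EC` for arbitrary finite index types -/
theorem EX_ec {K₀ K : Type} [Field K₀] [Field K] {ι : K₀ →+* K} (h : EC ι) (σ τ : Type)
    [Finite σ] [Finite τ] (P : τ → MvPolynomial σ K₀)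
    (hP : ∃ a : σ → K, ∀ j, MvPolynomial.eval₂ ι a (P j) = 0) :
    ∃ a : σ → K₀, ∀ j, MvPolynomial.eval a (P j) = 0 := by
  obtain ⟨n, ⟨e⟩⟩ := Finite.exists_equiv_fin σ
  obtain ⟨m, ⟨f⟩⟩ := Finite.exists_equiv_fin τ
  obtain ⟨a, ha⟩ := hP
  obtain ⟨b, hb⟩ := h n m (fun j => MvPolynomial.rename e (P (f.symm j)))
    ⟨fun i => a (e.symm i), fun j => by
      rw [MvPolynomial.eval₂_rename]
      have : (fun i => a (e.symm i)) ∘ e = a := by
        funext i
        simp
      rw [this]
      exact ha _⟩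
  refine ⟨fun i => b (e i), fun j => ?_⟩
  have h1 := hb (f j)
  rw [MvPolynomial.eval_rename, Equiv.symm_apply_apply] at h1
  exact h1

section mulP

variable {k₀ : Type} [Field k₀] {n : ℕ} (c : Fin n → Fin n → Fin n → k₀) (u : Fin n → k₀)

/-- multiplication of coordinates -/
def EX_mul {R : Type} [CommRing R] (f : k₀ →+* R) (x y : Fin n → R) : Fin n → R :=
  fun k => ∑ i, ∑ j, f (c i j k) * x i * y j

/-- powers of coordinates -/
def EX_pow {R : Type} [CommRing R] (f : k₀ →+* R) (x : Fin n → R) : ℕ → Fin n → R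
  | 0 => fun k => f (u k)
  | q + 1 => EX_mul c f (EX_pow f x q) x

theorem EX_mul_map {R R' : Type} [CommRing R] [CommRing R'] (f : k₀ →+* R) (g : R →+* R')
    (x y : Fin n → R) (k : Fin n) :
    g (EX_mul c f x y k) = EX_mul c (g.comp f) (fun i => g (x i)) (fun i => g (y i)) k := by
  unfold EX_mul
  simp only [map_sum, map_mul, RingHom.comp_apply]

theorem EX_pow_map {R R' : Type} [CommRing R] [CommRing R'] (f : k₀ →+* R) (g : R →+* R')
    (x : Fin n → R) (q : ℕ) (k : Fin n) :
    g (EX_pow c u f x q k) = EX_pow c u (g.comp f) (fun i => g (x i)) q k := by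
  induction q generalizing k with
  | zero => rfl
  | succ q ih =>
    change g (EX_mul c f (EX_pow c u f x q) x k) =
      EX_mul c (g.comp f) (EX_pow c u (g.comp f) (fun i => g (x i)) q) (fun i => g (x i)) k
    rw [EX_mul_map]
    congr 1
    funext i
    exact ih i

variable {R A : Type} [CommRing R] [CommRing A] [Algebra R A] (f : k₀ →+* R) (b : Fin n → A)

theorem EX_mul_eq (hb : ∀ i j, b i * b j = ∑ k, f (c i j k) • b k) (x y : Fin n → R) :
    (∑ i, x i • b i) * (∑ j, y j • b j) = ∑ k, EX_mul c f x y k • b k := by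
  rw [Finset.sum_mul_sum]
  have h1 : ∀ i j, (x i • b i) * (y j • b j) = ∑ k, (f (c i j k) * x i * y j) • b k := by
    intro i j
    rw [smul_mul_smul_comm, hb, Finset.smul_sum]
    refine Finset.sum_congr rfl fun k _ => ?_
    rw [smul_smul]
    congr 1
    ring
  calc ∑ i, ∑ j, (x i • b i) * (y j • b j)
      = ∑ i, ∑ j, ∑ k, (f (c i j k) * x i * y j) • b k :=
        Finset.sum_congr rfl fun i _ => Finset.sum_congr rfl fun j _ => h1 i j
    _ = ∑ k, ∑ i, ∑ j, (f (c i j k) * x i * y j) • b k := by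
        rw [Finset.sum_congr rfl fun i _ => Finset.sum_comm]
        exact Finset.sum_comm
    _ = ∑ k, EX_mul c f x y k • b k := by
        refine Finset.sum_congr rfl fun k _ => ?_
        unfold EX_mul
        rw [Finset.sum_smul]
        exact Finset.sum_congr rfl fun i _ => (Finset.sum_smul).symm

theorem EX_pow_eq (hb : ∀ i j, b i * b j = ∑ k, f (c i j k) • b k)
    (h1 : 1 = ∑ k, f (u k) • b k) (x : Fin n → R) (q : ℕ) :
    (∑ i, x i • b i) ^ q = ∑ k, EX_pow c u f x q k • b k := by
  induction q with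
  | zero => rw [pow_zero]; exact h1
  | succ q ih =>
    rw [pow_succ, ih, EX_mul_eq c f b hb]
    rfl

end mulP

theorem p_EX : T_EX := by
  intro K₀ K _ _ _ ι hEC E₀ _ _ _
  let _ : Algebra K₀ K := ι.toAlgebra
  let e : Module.Basis (Fin (Module.finrank K₀ E₀)) K₀ E₀ := Module.finBasis K₀ E₀
  let e' : Module.Basis (Fin (Module.finrank K₀ E₀)) K (K ⊗[K₀] E₀) :=
    Algebra.TensorProduct.basis K e
  have he' : ∀ i, e' i = (1 : K) ⊗ₜ[K₀] e i := fun i =>
    Algebra.TensorProduct.basis_apply e i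
  have hι : ∀ a, algebraMap K₀ K a = ι a := fun a => rfl
  -- `1 ⊗ z` in coordinates
  have hz : ∀ z : E₀, (1 : K) ⊗ₜ[K₀] z = ∑ k, ι (e.repr z k) • e' k := by
    intro z
    conv_lhs => rw [← e.sum_repr z]
    rw [TensorProduct.tmul_sum]
    refine Finset.sum_congr rfl fun k _ => ?_
    rw [he', TensorProduct.tmul_smul, ← hι, algebraMap_smul]
  set c : Fin (Module.finrank K₀ E₀) → Fin (Module.finrank K₀ E₀) →
    Fin (Module.finrank K₀ E₀) → K₀ := fun i j k => e.repr (e i * e j) k with hc
  set u : Fin (Module.finrank K₀ E₀) → K₀ := fun k => e.repr 1 k with hu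
  have hb0 : ∀ i j, e i * e j = ∑ k, (RingHom.id K₀) (c i j k) • e k := fun i j =>
    (e.sum_repr (e i * e j)).symm
  have h10 : (1 : E₀) = ∑ k, (RingHom.id K₀) (u k) • e k := (e.sum_repr 1).symm
  have hb1 : ∀ i j, e' i * e' j = ∑ k, ι (c i j k) • e' k := by
    intro i j
    rw [he', he', Algebra.TensorProduct.tmul_mul_tmul, one_mul]
    exact hz _
  have h11 : (1 : K ⊗[K₀] E₀) = ∑ k, ι (u k) • e' k := hz 1
  have hcomp : ∀ (σ : Type) (a : σ → K), (MvPolynomial.eval₂Hom ι a).comp
      (MvPolynomial.C : K₀ →+* MvPolynomial σ K₀) = ι := by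
    intro σ a
    ext x
    simp
  have hcomp0 : ∀ (σ : Type) (a : σ → K₀), (MvPolynomial.eval a).comp
      (MvPolynomial.C : K₀ →+* MvPolynomial σ K₀) = RingHom.id K₀ := by
    intro σ a
    ext x
    simp
  -- no zero divisors
  have hdom : ∀ x y : K ⊗[K₀] E₀, x * y = 0 → x = 0 ∨ y = 0 := by
    intro x y hxy
    by_contra hcon
    push Not at hcon
    obtain ⟨hx, hy⟩ := hcon
    obtain ⟨i0, hi0⟩ : ∃ i, e'.repr x i ≠ 0 := by
      by_contra hc2
      push Not at hc2
      apply hx
      apply e'.repr.injective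
      ext i
      rw [hc2 i]
      simp
    obtain ⟨j0, hj0⟩ : ∃ i, e'.repr y i ≠ 0 := by
      by_contra hc2
      push Not at hc2
      apply hy
      apply e'.repr.injective
      ext i
      rw [hc2 i]
      simp
    have hmul : ∀ k, EX_mul c ι (fun i => e'.repr x i) (fun i => e'.repr y i) k = 0 := by
      have h1 : (∑ i, e'.repr x i • e' i) * (∑ j, e'.repr y j • e' j) = 0 := by
        rw [e'.sum_repr, e'.sum_repr]
        exact hxy
      rw [EX_mul_eq c ι e' hb1] at h1
      exact fun k => Fintype.linearIndependent_iff.1 e'.linearIndependent _ h1 k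
    let σ := (Fin (Module.finrank K₀ E₀) ⊕ Fin (Module.finrank K₀ E₀)) ⊕ Bool
    let P : Fin (Module.finrank K₀ E₀) ⊕ Bool → MvPolynomial σ K₀ := fun t =>
      match t with
      | Sum.inl k => EX_mul c MvPolynomial.C (fun i => MvPolynomial.X (Sum.inl (Sum.inl i)))
          (fun i => MvPolynomial.X (Sum.inl (Sum.inr i))) k
      | Sum.inr true => MvPolynomial.X (Sum.inl (Sum.inl i0)) * MvPolynomial.X (Sum.inr true) - 1
      | Sum.inr false =>
          MvPolynomial.X (Sum.inl (Sum.inr j0)) * MvPolynomial.X (Sum.inr false) - 1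
    obtain ⟨a, ha⟩ := EX_ec hEC σ (Fin (Module.finrank K₀ E₀) ⊕ Bool) P
      ⟨fun s => match s with
        | Sum.inl (Sum.inl i) => e'.repr x i
        | Sum.inl (Sum.inr i) => e'.repr y i
        | Sum.inr true => (e'.repr x i0)⁻¹
        | Sum.inr false => (e'.repr y j0)⁻¹, by
        intro t
        rcases t with k | (_ | _)
        · change (MvPolynomial.eval₂Hom ι _) (EX_mul c MvPolynomial.C _ _ k) = 0
          rw [EX_mul_map, hcomp]
          simpa using hmul k
        · simp [P, MvPolynomial.eval₂_sub, MvPolynomial.eval₂_mul, mul_inv_cancel₀ hj0]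
        · simp [P, MvPolynomial.eval₂_sub, MvPolynomial.eval₂_mul, mul_inv_cancel₀ hi0]⟩
    have hk : ∀ k, EX_mul c (RingHom.id K₀) (fun i => a (Sum.inl (Sum.inl i)))
        (fun i => a (Sum.inl (Sum.inr i))) k = 0 := by
      intro k
      have h1 := ha (Sum.inl k)
      change (MvPolynomial.eval a) (EX_mul c MvPolynomial.C _ _ k) = 0 at h1
      rw [EX_mul_map, hcomp0] at h1
      simpa using h1
    have hprod : (∑ i, a (Sum.inl (Sum.inl i)) • e i) * (∑ j, a (Sum.inl (Sum.inr j)) • e j) =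
        0 := by
      rw [EX_mul_eq c (RingHom.id K₀) e hb0]
      exact Finset.sum_eq_zero fun k _ => by rw [hk k, zero_smul]
    have hX : a (Sum.inl (Sum.inl i0)) * a (Sum.inr true) - 1 = 0 := by
      have h1 := ha (Sum.inr true)
      simpa [P] using h1
    have hY : a (Sum.inl (Sum.inr j0)) * a (Sum.inr false) - 1 = 0 := by
      have h1 := ha (Sum.inr false)
      simpa [P] using h1
    rcases mul_eq_zero.1 hprod with h0 | h0
    · have h1 := Fintype.linearIndependent_iff.1 e.linearIndependent _ h0 i0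
      rw [h1, zero_mul, zero_sub] at hX
      exact one_ne_zero (neg_eq_zero.1 hX)
    · have h1 := Fintype.linearIndependent_iff.1 e.linearIndependent _ h0 j0
      rw [h1, zero_mul, zero_sub] at hY
      exact one_ne_zero (neg_eq_zero.1 hY)
  have : Nontrivial (K ⊗[K₀] E₀) := by
    refine ⟨⟨1, 0, ?_⟩⟩
    intro h
    have h2 : ∀ k, ι (u k) = 0 := by
      rw [h11] at h
      exact fun k => Fintype.linearIndependent_iff.1 e'.linearIndependent _ h k
    have h3 : (1 : E₀) = 0 := by
      rw [h10]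
      refine Finset.sum_eq_zero fun k _ => ?_
      have : u k = 0 := (map_eq_zero ι).1 (h2 k)
      rw [RingHom.id_apply, this, zero_smul]
    exact one_ne_zero h3
  have : NoZeroDivisors (K ⊗[K₀] E₀) := ⟨fun {x y} h => hdom x y h⟩
  have : IsDomain (K ⊗[K₀] E₀) := NoZeroDivisors.to_isDomain _
  have hfd : FiniteDimensional K (K ⊗[K₀] E₀) := e'.finiteDimensional_of_finite
  let fld : Field (K ⊗[K₀] E₀) := fieldOfFiniteDimensional K (K ⊗[K₀] E₀)
  refine ⟨K ⊗[K₀] E₀, fld, inferInstance,
    (Algebra.TensorProduct.includeRight : E₀ →ₐ[K₀] K ⊗[K₀] E₀).toRingHom, hfd, ?_, ?_⟩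
  · intro a
    change (Algebra.TensorProduct.includeRight : E₀ →ₐ[K₀] K ⊗[K₀] E₀) (algebraMap K₀ E₀ a) = _
    rw [AlgHom.commutes]
    rfl
  · rintro q z ⟨w, hw⟩
    have hw1 : (1 : K) ⊗ₜ[K₀] z = w ^ q := hw
    rw [hz, ← e'.sum_repr w] at hw1
    have hw2 := EX_pow_eq c u ι e' hb1 h11 (fun i => e'.repr w i) q
    have hw3 : ∑ k, (ι (e.repr z k) - EX_pow c u ι (fun i => e'.repr w i) q k) • e' k = 0 := by
      simp only [sub_smul, Finset.sum_sub_distrib]
      rw [← hw2, sub_eq_zero]
      exact hw1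
    have hw4 := Fintype.linearIndependent_iff.1 e'.linearIndependent _ hw3
    obtain ⟨a, ha⟩ := EX_ec hEC (Fin (Module.finrank K₀ E₀)) (Fin (Module.finrank K₀ E₀))
      (fun k => EX_pow c u MvPolynomial.C MvPolynomial.X q k - MvPolynomial.C (e.repr z k))
      ⟨fun i => e'.repr w i, fun k => by
        change (MvPolynomial.eval₂Hom ι _) _ = 0
        rw [map_sub, EX_pow_map, hcomp]
        have := hw4 k
        rw [sub_eq_zero] at this
        simp [this]⟩
    refine ⟨∑ i, a i • e i, ?_⟩
    rw [EX_pow_eq c u (RingHom.id K₀) e hb0 h10]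
    conv_lhs => rw [← e.sum_repr z]
    refine Finset.sum_congr rfl fun k _ => ?_
    have h1 := ha k
    rw [map_sub, EX_pow_map, hcomp0, sub_eq_zero] at h1
    rw [MvPolynomial.eval_C] at h1
    rw [← h1]
    simp

end NST
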