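import Pool.Agent.NST.TD

/-!
# NST: proof of F1 (finest unsplit coarsening)
-/

set_option autoImplicit false

noncomputable section

namespace NST

/-- the intersection of a set of valuation rings that contain `O` -/
def F1_inf {K : Type} [Field K] (O : ValuationSubring K) (S : Set (ValuationSubring K))
    (hS : ∀ W ∈ S, O ≤ W) : ValuationSubring K where
  carrier := {x | ∀ W ∈ S, x ∈ W}
  mul_mem' := by
    intro a b ha hb W hW
    exact mul_mem (ha W hW) (hb W hW)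
  one_mem' := by
    intro W _
    exact one_mem W
  add_mem' := by
    intro a b ha hb W hW
    exact add_mem (ha W hW) (hb W hW)
  zero_mem' := by
    intro W _
    exact zero_mem W
  neg_mem' := by
    intro a ha W hW
    exact neg_mem (ha W hW)
  mem_or_inv_mem' := by
    intro x
    rcases O.mem_or_inv_mem x with h | h
    · exact Or.inl fun W hW => hS W hW h
    · exact Or.inr fun W hW => hS W hW h

theorem F1_mem {K : Type} [Field K] (O : ValuationSubring K) (S : Set (ValuationSubring K))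
    (hS : ∀ W ∈ S, O ≤ W) (x : K) : x ∈ F1_inf O S hS ↔ ∀ W ∈ S, x ∈ W := Iff.rfl

theorem F1_le {K : Type} [Field K] (O : ValuationSubring K) (S : Set (ValuationSubring K))
    (hS : ∀ W ∈ S, O ≤ W) : O ≤ F1_inf O S hS := fun _ h W hW => hS W hW h

theorem F1_inf_le {K : Type} [Field K] (O : ValuationSubring K) (S : Set (ValuationSubring K))
    (hS : ∀ W ∈ S, O ≤ W) (W : ValuationSubring K) (hW : W ∈ S) : F1_inf O S hS ≤ W :=
  fun _ h => h W hW

theorem p_F1 (h1 : T_OV) (h2 : T_IC) : T_F1 := by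
  intro K N _ _ f hf O
  have hS : ∀ W ∈ {W' : ValuationSubring K | O ≤ W' ∧ UnI f W'}, O ≤ W := fun W hW => hW.1
  refine ⟨F1_inf O {W' | O ≤ W' ∧ UnI f W'} hS, F1_le _ _ _, ?_,
    fun W' h h' => F1_inf_le _ _ _ W' ⟨h, h'⟩⟩
  intro V₁ V₂ hV₁ hV₂
  have hA : ∀ A ∈ {A : ValuationSubring N | V₁ ≤ A ∧ O ≤ A.comap f ∧ UnI f (A.comap f)},
      V₁ ≤ A := fun A h => h.1
  have hc : (F1_inf V₁ {A | V₁ ≤ A ∧ O ≤ A.comap f ∧ UnI f (A.comap f)} hA).comap f =
      F1_inf O {W' | O ≤ W' ∧ UnI f W'} hS := by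
    ext x
    rw [ValuationSubring.mem_comap, F1_mem, F1_mem]
    constructor
    · intro h W' hW'
      obtain ⟨A₂, hA₂, hA₂'⟩ := h1 K N f (F1_inf O {W' | O ≤ W' ∧ UnI f W'} hS) W' V₁
        (F1_inf_le _ _ _ W' hW') hV₁
      have h3 := h A₂ ⟨hA₂, by rw [hA₂']; exact hW'.1, by rw [hA₂']; exact hW'.2⟩
      rw [← hA₂']
      exact h3
    · intro h A hA'
      exact h (A.comap f) hA'.2
  have hle : V₂ ≤ F1_inf V₁ {A | V₁ ≤ A ∧ O ≤ A.comap f ∧ UnI f (A.comap f)} hA := by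
    intro y hy A hA'
    obtain ⟨A₂, hA₂, hA₂'⟩ := h1 K N f (F1_inf O {W' | O ≤ W' ∧ UnI f W'} hS) (A.comap f) V₂
      (F1_inf_le _ _ _ (A.comap f) hA'.2) hV₂
    have h3 : A₂ = A := hA'.2.2 A₂ A hA₂' rfl
    rw [← h3]
    exact hA₂ hy
  have e1 := h2 K N f hf V₁ _ (F1_le V₁ _ hA) (by rw [hc, hV₁])
  have e2 := h2 K N f hf V₂ _ hle (by rw [hc, hV₂])
  rw [e2]
  exact e1

end NST

end
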