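import Pool.Agent.NST.TD

/-!
# NST: target F2 (residue translation)
-/

set_option autoImplicit false

noncomputable section

namespace NST

open Filter Polynomial

namespace F2_

section A

variable {K k : Type} [Field K] [Field k]

theorem map_inv' {W : ValuationSubring K} (π : W →+* k) (x : K) (hx : x ∈ W) (hx' : x⁻¹ ∈ W)
    (h0 : x ≠ 0) : π ⟨x⁻¹, hx'⟩ = (π ⟨x, hx⟩)⁻¹ := by
  have h1 : (⟨x, hx⟩ : W) * ⟨x⁻¹, hx'⟩ = 1 := Subtype.ext (mul_inv_cancel₀ h0)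
  have h2 : π ⟨x, hx⟩ * π ⟨x⁻¹, hx'⟩ = 1 := by rw [← map_mul, h1, map_one]
  exact (inv_eq_of_mul_eq_one_right h2).symm

/-- the composite valuation ring -/
def PP {W : ValuationSubring K} (π : W →+* k)
    (hk : ∀ a : W, π a = 0 ↔ (a : K) ∈ W.nonunits) (O₁ : ValuationSubring k) :
    ValuationSubring K where
  carrier := {x | ∃ h : x ∈ W, π ⟨x, h⟩ ∈ O₁}
  mul_mem' := by
    rintro x y ⟨h, hx⟩ ⟨h', hy⟩
    refine ⟨W.mul_mem _ _ h h', ?_⟩
    have e : (⟨x * y, W.mul_mem _ _ h h'⟩ : W) = ⟨x, h⟩ * ⟨y, h'⟩ := rfl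
    rw [e, map_mul]
    exact O₁.mul_mem _ _ hx hy
  one_mem' := by
    refine ⟨W.one_mem, ?_⟩
    have e : (⟨1, W.one_mem⟩ : W) = 1 := rfl
    rw [e, map_one]
    exact O₁.one_mem
  add_mem' := by
    rintro x y ⟨h, hx⟩ ⟨h', hy⟩
    refine ⟨W.add_mem _ _ h h', ?_⟩
    have e : (⟨x + y, W.add_mem _ _ h h'⟩ : W) = ⟨x, h⟩ + ⟨y, h'⟩ := rfl
    rw [e, map_add]
    exact O₁.add_mem _ _ hx hy
  zero_mem' := by
    refine ⟨W.zero_mem, ?_⟩
    have e : (⟨0, W.zero_mem⟩ : W) = 0 := rfl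
    rw [e, map_zero]
    exact O₁.zero_mem
  neg_mem' := by
    rintro x ⟨h, hx⟩
    refine ⟨W.neg_mem _ h, ?_⟩
    have e : (⟨-x, W.neg_mem _ h⟩ : W) = -⟨x, h⟩ := rfl
    rw [e, map_neg]
    exact O₁.neg_mem _ hx
  mem_or_inv_mem' := by
    intro x
    by_cases hx : x ∈ W
    · rcases O₁.mem_or_inv_mem (π ⟨x, hx⟩) with h | h
      · exact Or.inl ⟨hx, h⟩
      · by_cases h0 : π ⟨x, hx⟩ = 0
        · left
          refine ⟨hx, ?_⟩
          rw [h0]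
          exact O₁.zero_mem
        · right
          have h1 : x ∉ W.nonunits := fun h2 => h0 ((hk ⟨x, hx⟩).2 h2)
          have h2 : x⁻¹ ∈ W := inv_mem_of_notMem_nu h1
          have h3 : x ≠ 0 := by
            rintro rfl
            exact h1 W.nonunits.zero_mem
          refine ⟨h2, ?_⟩
          rw [map_inv' π x hx h2 h3]
          exact h
    · right
      have h1 : x⁻¹ ∈ W.nonunits := inv_nu_of_notMem hx
      refine ⟨nu_mem h1, ?_⟩
      have h2 : π ⟨x⁻¹, nu_mem h1⟩ = 0 := (hk _).2 h1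
      rw [h2]
      exact O₁.zero_mem

/-- the image of a finer valuation ring in the residue field -/
def RR' {A : ValuationSubring K} (ρ : A →+* k) (hs : Function.Surjective ρ)
    (V : ValuationSubring K) (hV : V ≤ A) : ValuationSubring k where
  carrier := {y | ∃ a : A, (a : K) ∈ V ∧ ρ a = y}
  mul_mem' := by
    rintro x y ⟨a, ha, rfl⟩ ⟨b, hb, rfl⟩
    exact ⟨a * b, V.mul_mem _ _ ha hb, map_mul _ _ _⟩
  one_mem' := ⟨1, V.one_mem, map_one _⟩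
  add_mem' := by
    rintro x y ⟨a, ha, rfl⟩ ⟨b, hb, rfl⟩
    exact ⟨a + b, V.add_mem _ _ ha hb, map_add _ _ _⟩
  zero_mem' := ⟨0, V.zero_mem, map_zero _⟩
  neg_mem' := by
    rintro x ⟨a, ha, rfl⟩
    exact ⟨-a, V.neg_mem _ ha, map_neg _ _⟩
  mem_or_inv_mem' := by
    intro y
    obtain ⟨a, rfl⟩ := hs y
    by_cases ha : (a : K) ∈ V
    · exact Or.inl ⟨a, ha, rfl⟩
    · right
      have h1 : (a : K)⁻¹ ∈ V := nu_mem (inv_nu_of_notMem ha)
      have h0 : (a : K) ≠ 0 := by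
        intro h
        rw [h] at ha
        exact ha V.zero_mem
      exact ⟨⟨(a : K)⁻¹, hV h1⟩, h1, map_inv' ρ a a.2 (hV h1) h0⟩

theorem le_of_RR {A : ValuationSubring K} (ρ : A →+* k) (hs : Function.Surjective ρ)
    (hk : ∀ a : A, ρ a = 0 ↔ (a : K) ∈ A.nonunits)
    (V₁ V₂ : ValuationSubring K) (h₁ : V₁ ≤ A) (h₂ : V₂ ≤ A)
    (h : RR' ρ hs V₁ h₁ = RR' ρ hs V₂ h₂) : V₁ ≤ V₂ := by
  intro x hx
  have h3 : ρ ⟨x, h₁ hx⟩ ∈ RR' ρ hs V₁ h₁ := ⟨⟨x, h₁ hx⟩, hx, rfl⟩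
  rw [h] at h3
  obtain ⟨a, ha, hax⟩ := h3
  have h4 : ρ (⟨x, h₁ hx⟩ - a) = 0 := by rw [map_sub, hax, sub_self]
  have h5 : x - (a : K) ∈ A.nonunits := (hk _).1 h4
  have h6 : x - (a : K) ∈ V₂ := nu_mem (nu_of_le h₂ h5)
  have h7 := V₂.add_mem _ _ h6 ha
  rwa [sub_add_cancel] at h7

end A

end F2_

open F2_

theorem p_F2 (h1 : T_OV) : T_F2 := by
  intro K N k n _ _ _ _ f g W A π ρ hπ hρ hkπ hkρ hAW hcompat hUW O₁ hUO
  refine ⟨PP π hkπ O₁, fun x => Iff.rfl, ?_⟩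
  have hPW : PP π hkπ O₁ ≤ W := fun x hx => hx.1
  have hfA : ∀ a : W, f (a : K) ∈ A := by
    intro a
    have h2 : ∀ x : K, x ∈ W → f x ∈ A := by
      intro x hx
      rw [← hAW] at hx
      exact hx
    exact h2 a a.2
  have key : ∀ V : ValuationSubring N, V.comap f = PP π hkπ O₁ → V ≤ A := by
    intro V hV
    obtain ⟨B, hB1, hB2⟩ := h1 K N f (PP π hkπ O₁) W V hPW hV
    have h2 : B = A := hUW B A hB2 hAW
    rwa [h2] at hB1
  have key2 : ∀ (V : ValuationSubring N) (hV : V.comap f = PP π hkπ O₁),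
      (RR' ρ hρ V (key V hV)).comap g = O₁ := by
    intro V hV
    have hVA := key V hV
    ext c
    obtain ⟨a, rfl⟩ := hπ c
    constructor
    · rintro ⟨v, hv, hvc⟩
      have h2 : ρ (⟨f a, hfA a⟩ - v) = 0 := by
        rw [map_sub, hvc, hcompat a (hfA a), sub_self]
      have h3 : f (a : K) - (v : N) ∈ A.nonunits := (hkρ _).1 h2
      have h4 : f (a : K) - (v : N) ∈ V := nu_mem (nu_of_le hVA h3)
      have h5 : f (a : K) ∈ V := by
        have h6 := V.add_mem _ _ h4 hv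
        rwa [sub_add_cancel] at h6
      have h7 : (a : K) ∈ PP π hkπ O₁ := by
        rw [← hV]
        exact h5
      obtain ⟨_, h8⟩ := h7
      exact h8
    · intro hc
      have h7 : (a : K) ∈ PP π hkπ O₁ := ⟨a.2, hc⟩
      rw [← hV] at h7
      exact ⟨⟨f a, hfA a⟩, h7, hcompat a (hfA a)⟩
  intro V₁ V₂ e₁ e₂
  have e : RR' ρ hρ V₁ (key V₁ e₁) = RR' ρ hρ V₂ (key V₂ e₂) :=
    hUO _ _ (key2 V₁ e₁) (key2 V₂ e₂)
  exact le_antisymm (le_of_RR ρ hρ hkρ V₁ V₂ _ _ e) (le_of_RR ρ hρ hkρ V₂ V₁ _ _ e.symm)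

end NST
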