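import Pool.Agent.NST.TD

/-!
# NST: target F3 (if all nontrivial convex valuation rings split, the order topology splits)
-/

set_option autoImplicit false

noncomputable section

namespace NST

open Filter Polynomial

theorem F3_comparable {L : Type} [Field L] {B A C : ValuationSubring L} (hA : B ≤ A)
    (hC : B ≤ C) : A ≤ C ∨ C ≤ A :=
  le_total (⟨A, hA⟩ : {S : ValuationSubring L // B ≤ S}) ⟨C, hC⟩

theorem F3_chain {L : Type} [Field L] {B₀ : ValuationSubring L} (h0 : B₀ ≠ ⊤)
    {s : Set (ValuationSubring L)} (hs : s.Finite)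
    (h : ∀ B ∈ s, ∃ C : ValuationSubring L, C ≠ ⊤ ∧ B₀ ≤ C ∧ B ≤ C) :
    ∃ A : ValuationSubring L, A ≠ ⊤ ∧ B₀ ≤ A ∧ ∀ B ∈ s, B ≤ A := by
  induction s, hs using Set.Finite.induction_on with
  | empty => exact ⟨B₀, h0, le_rfl, fun B hB => absurd hB (Set.notMem_empty B)⟩
  | @insert a t _ _ ih =>
    obtain ⟨A, hA1, hA2, hA3⟩ := ih fun B hB => h B (Set.mem_insert_of_mem a hB)
    obtain ⟨C, hC1, hC2, hC3⟩ := h a (Set.mem_insert a t)
    rcases F3_comparable hA2 hC2 with h1 | h1
    · refine ⟨C, hC1, hC2, fun B hB => ?_⟩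
      rcases Set.mem_insert_iff.1 hB with rfl | hB
      · exact hC3
      · exact (hA3 B hB).trans h1
    · refine ⟨A, hA1, hA2, fun B hB => ?_⟩
      rcases Set.mem_insert_iff.1 hB with rfl | hB
      · exact hC3.trans h1
      · exact hA3 B hB

theorem F3_top {L L' : Type} [Field L] [Field L'] {f : L →+* L'} (hf : f.IsIntegral)
    {A : ValuationSubring L'} (h : A.comap f = ⊤) : A = ⊤ := by
  rw [eq_top_iff]
  intro x _
  obtain ⟨p, hp, hx⟩ := hf x
  refine mem_of_root f hp (fun i _ => ?_) hx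
  have h1 : p.coeff i ∈ A.comap f := by
    rw [h]
    exact ValuationSubring.mem_top _
  exact h1

theorem p_F3 (h1 : T_FE) (h2 : T_CH) (h3 : T_TT) (h4 : T_TE) (h5 : T_CO) (h6 : T_IC) : T_F3 := by
  intro K N _ _ _ _ _ _ _ hN hsp hU
  have hcN : Countable N := (Module.finBasis K N).equivFun.toEquiv.injective.countable
  have hfin : (algebraMap K N).Finite := RingHom.finite_algebraMap.2 inferInstance
  have hint : (algebraMap K N).IsIntegral := hfin.to_isIntegral
  have hRC : RC0 (natV K) := by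
    intro c hc
    rw [mem_natV]
    refine ⟨1, ?_⟩
    have hc1 : (1 : K) ≤ c := by exact_mod_cast hc
    rw [abs_inv, Nat.abs_cast, Nat.cast_one]
    exact inv_le_one_of_one_le₀ hc1
  have hsfin := h1 K N (algebraMap K N) hfin (natV K) hRC
  obtain ⟨B₀, hB₀⟩ := h2 K N (algebraMap K N) (natV K)
  have hne : ∀ B : ValuationSubring N, B.comap (algebraMap K N) = natV K → B ≠ ⊤ := by
    rintro B hB rfl
    apply hN
    rw [← hB, eq_top_iff]
    intro x _
    exact ValuationSubring.mem_top _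
  have htV : ∀ B : ValuationSubring N, B.comap (algebraMap K N) = natV K →
      (tV B).comap (mapR (algebraMap K N)) = Vord K := by
    intro B hB
    refine h3 K N B (hne B hB) ?_
    rw [hB]
    exact natV_cvx
  obtain ⟨A, hA1, hA2, hA3⟩ := F3_chain (hne B₀ hB₀) hsfin (by
    intro B hB
    have hB' : B.comap (algebraMap K N) = natV K := hB
    exact h4 N B₀ B (hne B₀ hB₀) (hne B hB') (hU N _ _ (htV B₀ hB₀) (htV B hB')))
  have hO₂ : natV K ≤ A.comap (algebraMap K N) := by
    intro x hx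
    rw [← hB₀] at hx
    exact hA2 hx
  have hns := hsp _ (Cvx.of_le hO₂) fun h => hA1 (F3_top hint h)
  apply hns
  have key : ∀ A₂ : ValuationSubring N,
      A₂.comap (algebraMap K N) = A.comap (algebraMap K N) → A₂ = A := by
    intro A₂ hA₂
    obtain ⟨B, hBA₂, hB⟩ := h5 K N (algebraMap K N) (natV K) _ A₂ hO₂ hA₂
    have hBA : B ≤ A := hA3 B hB
    rcases F3_comparable hBA₂ hBA with h | h
    · exact h6 K N (algebraMap K N) hint A₂ A h hA₂
    · exact (h6 K N (algebraMap K N) hint A A₂ h hA₂.symm).symm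
  intro V₁ V₂ hV₁ hV₂
  rw [key V₁ hV₁, key V₂ hV₂]

end NST
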