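import Pool.Agent.NST.TD

/-!
# NST, target F4: convex valuation rings of real closed fields do not split
-/

set_option autoImplicit false

noncomputable section

namespace NST

open Polynomial

theorem F4_rep {K N : Type} [Field K] [LinearOrder K] [IsStrictOrderedRing K]
    (hK : IsRealClosed K) [Field N] [Algebra K N] [FiniteDimensional K N]
    (h2 : Module.finrank K N ≤ 2) (z : N) :
    (∃ a : K, z = algebraMap K N a) ∨
      ∃ (a c : K) (j : N), j ^ 2 = -1 ∧ z = algebraMap K N a + algebraMap K N c * j := by
  have hint : IsIntegral K z := Algebra.IsIntegral.isIntegral z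
  have hdeg : (minpoly K z).natDegree ≤ 2 := (minpoly.natDegree_le z).trans h2
  have hpos : 0 < (minpoly K z).natDegree := minpoly.natDegree_pos hint
  rcases Nat.lt_or_ge (minpoly K z).natDegree 2 with h1 | h1
  · have h3 : (minpoly K z).natDegree = 1 := by omega
    rw [minpoly.natDegree_eq_one_iff] at h3
    obtain ⟨a, ha⟩ := h3
    exact Or.inl ⟨a, ha.symm⟩
  · have h3 : (minpoly K z).natDegree = 2 := by omega
    have hm : (minpoly K z).coeff 2 = 1 := by
      have := minpoly.monic hint
      unfold Polynomial.Monic Polynomial.leadingCoeff at this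
      rwa [h3] at this
    have hz : aeval z (minpoly K z) = 0 := minpoly.aeval K z
    rw [Polynomial.aeval_eq_sum_range, h3] at hz
    simp only [Finset.sum_range_succ, Finset.sum_range_zero, hm, Algebra.smul_def, map_one,
      pow_zero, pow_one, mul_one, one_mul, zero_add] at hz
    generalize (minpoly K z).coeff 0 = p0 at hz
    generalize (minpoly K z).coeff 1 = p1 at hz
    have ht : (z + algebraMap K N (p1 / 2)) ^ 2 = algebraMap K N (p1 ^ 2 / 4 - p0) := by
      have h2' : algebraMap K N (p1 / 2) = algebraMap K N p1 / 2 := by
        rw [map_div₀, map_ofNat]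
      have h4' : algebraMap K N (p1 ^ 2 / 4 - p0) = algebraMap K N p1 ^ 2 / 4 -
          algebraMap K N p0 := by
        rw [map_sub, map_div₀, map_pow, map_ofNat]
      have h20 : (2 : N) ≠ 0 := by
        have : CharZero N := charZero_of_injective_algebraMap (algebraMap K N).injective
        exact two_ne_zero
      have h40 : (4 : N) ≠ 0 := by
        have : CharZero N := charZero_of_injective_algebraMap (algebraMap K N).injective
        norm_num
      rw [h2', h4']
      field_simp
      linear_combination 16 * hz
    rcases le_total 0 (p1 ^ 2 / 4 - p0) with he | he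
    · obtain ⟨f, hf⟩ := (IsRealClosed.nonneg_iff_isSquare).1 he
      left
      rw [hf, map_mul] at ht
      have h5 : (z + algebraMap K N (p1 / 2) - algebraMap K N f) *
          (z + algebraMap K N (p1 / 2) + algebraMap K N f) = 0 := by
        linear_combination ht
      rcases mul_eq_zero.1 h5 with h6 | h6
      · refine ⟨f - p1 / 2, ?_⟩
        rw [map_sub]
        linear_combination h6
      · refine ⟨-f - p1 / 2, ?_⟩
        rw [map_sub, map_neg]
        linear_combination h6
    · have he' : 0 ≤ -(p1 ^ 2 / 4 - p0) := by linarith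
      obtain ⟨f, hf⟩ := (IsRealClosed.nonneg_iff_isSquare).1 he'
      have hf' : p1 ^ 2 / 4 - p0 = -(f * f) := by rw [← hf]; ring
      rw [hf', map_neg, map_mul] at ht
      by_cases hf0 : f = 0
      · left
        rw [hf0, map_zero, mul_zero, neg_zero] at ht
        have h6 : z + algebraMap K N (p1 / 2) = 0 := by
          exact pow_eq_zero_iff (two_ne_zero) |>.1 ht
        refine ⟨-(p1 / 2), ?_⟩
        rw [map_neg]
        linear_combination h6
      · right
        have hfN : algebraMap K N f ≠ 0 := by
          rw [Ne, map_eq_zero]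
          exact hf0
        refine ⟨-(p1 / 2), f, (z + algebraMap K N (p1 / 2)) / algebraMap K N f, ?_, ?_⟩
        · rw [div_pow, ht]
          field_simp
        · rw [map_neg]
          field_simp
          ring

theorem F4_j {N : Type} [Field N] (V : ValuationSubring N) (j : N) (hj : j ^ 2 = -1) : j ∈ V := by
  rcases V.mem_or_inv_mem j with h | h
  · exact h
  · have hj0 : j ≠ 0 := by
      rintro rfl
      norm_num at hj
    have h1 : j = -j⁻¹ := by
      field_simp
      linear_combination hj
    rw [h1]
    exact V.neg_mem _ h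

theorem F4_mem {K N : Type} [Field K] [LinearOrder K] [IsStrictOrderedRing K]
    (O : ValuationSubring K) (hO : Cvx O) [Field N] [Algebra K N] (V : ValuationSubring N)
    (hV : V.comap (algebraMap K N) = O) (a c : K) (j : N) (hj : j ^ 2 = -1) :
    algebraMap K N a + algebraMap K N c * j ∈ V ↔ (a ∈ O ∧ c ∈ O) := by
  have hmem : ∀ x : K, algebraMap K N x ∈ V ↔ x ∈ O := by
    intro x
    rw [← hV]
    exact Iff.rfl
  have hjV := F4_j V j hj
  have hone : ∀ x : K, |x| ≤ 1 → x ∈ O := fun x hx => hO x 1 (by rwa [abs_one]) O.one_mem
  constructor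
  · intro hz
    rcases le_total |c| |a| with h | h
    · rcases eq_or_ne a 0 with rfl | ha
      · rw [abs_zero] at h
        have hc : c = 0 := abs_eq_zero.1 (le_antisymm h (abs_nonneg c))
        subst hc
        exact ⟨O.zero_mem, O.zero_mem⟩
      · have hca : |c / a| ≤ 1 := by
          rw [abs_div, div_le_one (abs_pos.2 ha)]
          exact h
        have hu : (1 : K) ≤ 1 + (c / a) ^ 2 := by nlinarith [sq_nonneg (c / a)]
        have hu0 : (1 + (c / a) ^ 2) ≠ 0 := by
          intro h0
          rw [h0] at hu
          linarith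
        have hui : (1 + (c / a) ^ 2)⁻¹ ∈ O := by
          apply hone
          rw [abs_inv, abs_of_pos (by linarith)]
          exact inv_le_one_of_one_le₀ hu
        have hinv : (1 - algebraMap K N (c / a) * j) * algebraMap K N (1 + (c / a) ^ 2)⁻¹ ∈ V := by
          apply V.mul_mem
          · apply V.sub_mem V.one_mem
            exact V.mul_mem _ _ ((hmem _).2 (hone _ hca)) hjV
          · exact (hmem _).2 hui
        have haN : algebraMap K N a ≠ 0 := by
          rw [Ne, map_eq_zero]
          exact ha
        have huN : algebraMap K N (1 + (c / a) ^ 2) ≠ 0 := by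
          rw [Ne, map_eq_zero]
          exact hu0
        have heq : algebraMap K N a = (algebraMap K N a + algebraMap K N c * j) *
            ((1 - algebraMap K N (c / a) * j) * algebraMap K N (1 + (c / a) ^ 2)⁻¹) := by
          rw [map_inv₀, ← mul_assoc, eq_mul_inv_iff_mul_eq₀ huN, map_add, map_one, map_pow,
            map_div₀]
          field_simp
          linear_combination ((algebraMap K N c) ^ 2) * hj
        have haO : a ∈ O := by
          rw [← hmem, heq]
          exact V.mul_mem _ _ hz hinv
        exact ⟨haO, hO c a h haO⟩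
    · rcases eq_or_ne c 0 with rfl | hc
      · rw [abs_zero] at h
        have ha : a = 0 := abs_eq_zero.1 (le_antisymm h (abs_nonneg a))
        subst ha
        exact ⟨O.zero_mem, O.zero_mem⟩
      · have hca : |a / c| ≤ 1 := by
          rw [abs_div, div_le_one (abs_pos.2 hc)]
          exact h
        have hu : (1 : K) ≤ 1 + (a / c) ^ 2 := by nlinarith [sq_nonneg (a / c)]
        have hu0 : (1 + (a / c) ^ 2) ≠ 0 := by
          intro h0
          rw [h0] at hu
          linarith
        have hui : (1 + (a / c) ^ 2)⁻¹ ∈ O := by
          apply hone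
          rw [abs_inv, abs_of_pos (by linarith)]
          exact inv_le_one_of_one_le₀ hu
        have hinv : (algebraMap K N (a / c) - j) * algebraMap K N (1 + (a / c) ^ 2)⁻¹ ∈ V := by
          apply V.mul_mem
          · exact V.sub_mem ((hmem _).2 (hone _ hca)) hjV
          · exact (hmem _).2 hui
        have hcN : algebraMap K N c ≠ 0 := by
          rw [Ne, map_eq_zero]
          exact hc
        have huN : algebraMap K N (1 + (a / c) ^ 2) ≠ 0 := by
          rw [Ne, map_eq_zero]
          exact hu0
        have heq : algebraMap K N c = (algebraMap K N a + algebraMap K N c * j) *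
            ((algebraMap K N (a / c) - j) * algebraMap K N (1 + (a / c) ^ 2)⁻¹) := by
          rw [map_inv₀, ← mul_assoc, eq_mul_inv_iff_mul_eq₀ huN, map_add, map_one, map_pow,
            map_div₀]
          field_simp
          linear_combination ((algebraMap K N c) ^ 2) * hj
        have hcO : c ∈ O := by
          rw [← hmem, heq]
          exact V.mul_mem _ _ hz hinv
        exact ⟨hO a c h hcO, hcO⟩
  · rintro ⟨ha, hc⟩
    exact V.add_mem _ _ ((hmem a).2 ha) (V.mul_mem _ _ ((hmem c).2 hc) hjV)

theorem p_F4 (h1 : T_RK) : T_F4 := by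
  intro K _ _ _ hK O hO N _ _ _ V₁ V₂ hV₁ hV₂
  have h2 := h1 K hK N
  ext z
  rcases F4_rep hK h2 z with ⟨a, rfl⟩ | ⟨a, c, j, hj, rfl⟩
  · have e1 : algebraMap K N a ∈ V₁ ↔ a ∈ O := by rw [← hV₁]; exact Iff.rfl
    have e2 : algebraMap K N a ∈ V₂ ↔ a ∈ O := by rw [← hV₂]; exact Iff.rfl
    rw [e1, e2]
  · rw [F4_mem O hO V₁ hV₁ a c j hj, F4_mem O hO V₂ hV₂ a c j hj]

end NST
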