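import Pool.Agent.NST.TG

/-!
# NST: target FA, finiteness of the unit classes passes to existentially closed subfields
-/

set_option autoImplicit false

noncomputable section

namespace NST

open Filter Polynomial FirstOrder

theorem FA_itg {K₀ K : Type} [Field K₀] [LinearOrder K₀] [IsStrictOrderedRing K₀] [Field K]
    [LinearOrder K] [IsStrictOrderedRing K] {ι : K₀ →+* K} (hle : ∀ a b, a ≤ b ↔ ι a ≤ ι b)
    {E₀ E : Type} [Field E₀] [Algebra K₀ E₀] [Field E] [Algebra K E] {j : E₀ →+* E}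
    (hj : ∀ a, j (algebraMap K₀ E₀ a) = algebraMap K E (ι a)) {x : E₀} (h : Itg K₀ x) :
    Itg K (j x) := by
  obtain ⟨p, hm, hc, hp⟩ := h
  refine ⟨p.map ι, hm.map ι, fun i => ?_, ?_⟩
  · obtain ⟨n, hn⟩ := hc i
    refine ⟨n, ?_⟩
    rw [coeff_map]
    rw [abs_le] at hn ⊢
    constructor
    · have := (hle _ _).1 hn.1
      simpa using this
    · have := (hle _ _).1 hn.2
      simpa using this
  · have hcomp : (algebraMap K E).comp ι = j.comp (algebraMap K₀ E₀) :=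
      RingHom.ext fun a => (hj a).symm
    rw [aeval_def, eval₂_map, hcomp, ← hom_eval₂, ← aeval_def, hp, map_zero]

theorem FA_un {K₀ K : Type} [Field K₀] [LinearOrder K₀] [IsStrictOrderedRing K₀] [Field K]
    [LinearOrder K] [IsStrictOrderedRing K] {ι : K₀ →+* K} (hle : ∀ a b, a ≤ b ↔ ι a ≤ ι b)
    {E₀ E : Type} [Field E₀] [Algebra K₀ E₀] [Field E] [Algebra K E] {j : E₀ →+* E}
    (hj : ∀ a, j (algebraMap K₀ E₀ a) = algebraMap K E (ι a)) {x : E₀} (h : UnE K₀ x) :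
    UnE K (j x) := by
  refine ⟨(map_ne_zero j).2 h.1, FA_itg hle hj h.2.1, ?_⟩
  rw [← map_inv₀]
  exact FA_itg hle hj h.2.2

theorem p_FA (h1 : T_EX) : T_FA := by
  classical
  intro K₀ K _ _ _ _ _ _ ι hec hle hfin E₀ _ _ _ q hq
  obtain ⟨E, _, _, j, hE, hj, hpow⟩ := h1 K₀ K ι hec E₀
  obtain ⟨B, hB⟩ := hfin E q hq
  refine ⟨B.image fun b => if h : ∃ x : E₀, x ≠ 0 ∧ ∃ y : E, j x = b * y ^ q then
    Classical.choose h else 0, fun x hx => ?_⟩
  obtain ⟨b, hb, y, hy⟩ := hB (j x) (FA_un hle hj hx)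
  have hex : ∃ x : E₀, x ≠ 0 ∧ ∃ y : E, j x = b * y ^ q := ⟨x, hx.1, y, hy⟩
  refine ⟨Classical.choose hex, Finset.mem_image.2 ⟨b, hb, by rw [dif_pos hex]⟩, ?_⟩
  obtain ⟨h0, y', hy'⟩ := Classical.choose_spec hex
  set x' := Classical.choose hex
  have hj0 : j x' ≠ 0 := (map_ne_zero j).2 h0
  have hb0 : b ≠ 0 := by
    rintro rfl
    rw [zero_mul] at hy'
    exact hj0 hy'
  have hy0 : y' ^ q ≠ 0 := by
    intro h
    rw [h, mul_zero] at hy'
    exact hj0 hy'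
  obtain ⟨w, hw⟩ := hpow q (x / x') ⟨y / y', by
    rw [map_div₀, hy, hy', div_pow]
    field_simp⟩
  refine ⟨w, ?_⟩
  rw [← hw]
  field_simp

end NST
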