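import Pool.Agent.NST.TG

/-!
# NST-GD: the residue fields of convex valuation rings are good
-/

set_option autoImplicit false

noncomputable section

namespace NST

open Filter Polynomial FirstOrder

theorem p_GD (h1 : T_OF) (h2 : T_VN) (h3 : T_FR) (h4 : T_SQ) : T_GD := by
  intro K _ _ _ _ _ _ _ hN hA W hW k _ _ _ π hπ
  have hc : Countable k := hπ.surj.countable
  refine ⟨hc, ?_, ?_⟩
  · intro q hq E _ _ _
    exact h1 k E q hq (h3 K hA W hW k π hπ E q hq)
      (fun b hb => h2 K hN W hW k π hπ E q b hq.pos hb.1)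
  · exact h4 k (h3 K hA W hW k π hπ k 2 Nat.prime_two)

end NST
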