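import Pool.Agent.NST.TG

/-!
# NST: target GN, the main theorem
-/

set_option autoImplicit false
set_option linter.unusedSectionVars false

noncomputable section

namespace NST

open Filter Polynomial FirstOrder

section GNlemmas

variable {K₀ K : Type} [Field K₀] [LinearOrder K₀] [IsStrictOrderedRing K₀] [Field K]
  [LinearOrder K] [IsStrictOrderedRing K]

theorem GN_abs (ι : K₀ →+* K) (h : ∀ a b, a ≤ b ↔ ι a ≤ ι b) (x : K₀) : ι |x| = |ι x| := by
  rcases le_total 0 x with h0 | h0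
  · have h1 := (h _ _).1 h0
    rw [map_zero] at h1
    rw [abs_of_nonneg h0, abs_of_nonneg h1]
  · have h1 := (h _ _).1 h0
    rw [map_zero] at h1
    rw [abs_of_nonpos h0, abs_of_nonpos h1, map_neg]

theorem GN_comap (ι : K₀ →+* K) (h : ∀ a b, a ≤ b ↔ ι a ≤ ι b) :
    natV K₀ = (natV K).comap ι := by
  ext x
  rw [mem_comap', mem_natV, mem_natV]
  constructor
  · rintro ⟨n, hn⟩
    refine ⟨n, ?_⟩
    have h1 := (h _ _).1 hn
    rw [GN_abs ι h, map_natCast] at h1
    exact h1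
  · rintro ⟨n, hn⟩
    refine ⟨n, (h _ _).2 ?_⟩
    rw [GN_abs ι h, map_natCast]
    exact hn

theorem GN_eval (ι : K₀ →+* K) (f : K₀[X]) (b : K₀) : ι (f.eval b) = (f.map ι).eval (ι b) := by
  rw [eval_map, eval₂_at_apply]

end GNlemmas

/-- countable subfields with the properties of the conclusion -/
theorem GN_sub (h1 : T_EL) (h2 : T_NE2) (h3 : T_EC) (h4 : T_FA) (h5 : T_GD) (h6 : T_M2)
    (K : Type) [Field K] [LinearOrder K] [IsStrictOrderedRing K] [Ring.CompatibleRing K]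
    [Language.order.Structure K] [Language.order.OrderedStructure K] (hN : NFV.NIP K)
    (hF : FinA K) (s : Set K) (hs : s.Countable) :
    ∃ (K₀ : Type) (_ : Field K₀) (_ : LinearOrder K₀) (_ : IsStrictOrderedRing K₀)
      (ι : K₀ →+* K), natV K₀ = (natV K).comap ι ∧ s ⊆ Set.range ι ∧ Hen (natV K₀) ∧
      RCr (natV K₀) := by
  obtain ⟨K₀, i1, i2, i3, i4, i5, i6, ι, e, hc, hm, hs', he⟩ := h1 K s hs
  have n0 : NFV.NIP K₀ := h2 K₀ K e hN
  have e0 : EC ι := h3 K₀ K ι e he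
  have f0 : FinA K₀ := h4 K₀ K ι e0 hm hF
  have m0 := h6 K₀ (fun W hW k _ _ _ π hπ => h5 K₀ n0 f0 W hW k π hπ)
  exact ⟨K₀, i1, i2, i3, ι, GN_comap ι hm, hs', m0.1, m0.2⟩

theorem GN_lift {K₀ K : Type} [Field K₀] [Field K] (ι : K₀ →+* K) (f : K[X]) (hf : f.Monic)
    (h : Set.range f.coeff ⊆ Set.range ι) : ∃ f₀ : K₀[X], f₀.map ι = f ∧ f₀.Monic := by
  have h1 : f ∈ lifts ι := by
    rw [lifts_iff_coeff_lifts]
    intro n
    exact h ⟨n, rfl⟩
  obtain ⟨f₀, hf₀⟩ := (mem_lifts f).1 h1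
  refine ⟨f₀, hf₀, ?_⟩
  rw [ι.injective.monic_map_iff, hf₀]
  exact hf

theorem p_GN (h1 : T_EL) (h2 : T_NE2) (h3 : T_EC) (h4 : T_FA) (h5 : T_GD) (h6 : T_M2) :
    T_GN := by
  intro K _ _ _ _ _ _ hN hF
  refine ⟨?_, ?_, ?_⟩
  · intro f hf hc a₀ ha₀ h7 h8
    obtain ⟨K₀, _, _, _, ι, hV, hs, hH, _⟩ := GN_sub h1 h2 h3 h4 h5 h6 K hN hF
      (Set.range f.coeff ∪ {a₀}) ((Set.countable_range _).union (Set.countable_singleton _))
    obtain ⟨f₀, rfl, hf₀⟩ := GN_lift ι f hf (Set.subset_union_left.trans hs)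
    obtain ⟨b₀, rfl⟩ := hs (Or.inr rfl)
    have h9 := hH f₀ hf₀ (by
      intro i
      rw [hV, mem_comap']
      have h10 := hc i
      rw [coeff_map] at h10
      exact h10) b₀ (by
      rw [hV]
      exact ha₀) (by
      rw [hV, nu_comap, GN_eval]
      exact h7) (by
      rw [hV, nu_comap, GN_eval]
      rw [derivative_map] at h8
      exact h8)
    obtain ⟨a, ha, ha'⟩ := h9
    refine ⟨ι a, ?_, ?_⟩
    · rw [← GN_eval, ha, map_zero]
    · rw [hV, nu_comap, map_sub] at ha'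
      exact ha'
  · intro c hc
    obtain ⟨K₀, _, _, _, ι, hV, hs, _, hR⟩ := GN_sub h1 h2 h3 h4 h5 h6 K hN hF {c}
      (Set.countable_singleton _)
    obtain ⟨c₀, rfl⟩ := hs rfl
    obtain ⟨b, hb, hb'⟩ := hR.1 c₀ (by
      rw [hV]
      exact hc)
    refine ⟨ι b, ?_, ?_⟩
    · rw [hV] at hb
      exact hb
    · rcases hb' with hb' | hb'
      · left
        rw [hV, nu_comap, map_sub, map_pow] at hb'
        exact hb'
      · right
        rw [hV, nu_comap, map_add, map_pow] at hb'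
        exact hb'
  · intro p hp hodd hc
    obtain ⟨K₀, _, _, _, ι, hV, hs, _, hR⟩ := GN_sub h1 h2 h3 h4 h5 h6 K hN hF
      (Set.range p.coeff) (Set.countable_range _)
    obtain ⟨p₀, rfl, hp₀⟩ := GN_lift ι p hp hs
    obtain ⟨x, hx, hx'⟩ := hR.2 p₀ hp₀ (by
      rw [natDegree_map] at hodd
      exact hodd) (by
      intro i
      rw [hV, mem_comap']
      have h10 := hc i
      rw [coeff_map] at h10
      exact h10)
    refine ⟨ι x, ?_, ?_⟩
    · rw [hV] at hx
      exact hx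
    · rw [hV, nu_comap, GN_eval] at hx'
      exact hx'

end NST
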