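import Pool.Agent.NST.TD

/-!
# Project NST: target T_HE (the valuation ring of a henselian valuation is a henselian local ring)
-/

set_option autoImplicit false

namespace NST

open Polynomial

theorem p_HE : T_HE := by
  intro K _ O hO
  refine { toIsLocalRing := inferInstance, is_henselian := ?_ }
  intro f hf a₀ h1 h2
  have e1 : ∀ (g : O[X]) (b : O), (g.map O.subtype).eval (b : K) = ((g.eval b : O) : K) := by
    intro g b
    rw [show (b : K) = O.subtype b from rfl, eval_map, eval₂_at_apply]
    rfl
  have h3 : (f.map O.subtype).eval (a₀ : K) ∈ O.nonunits := by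
    rw [e1]
    exact O.coe_mem_nonunits_iff.2 h1
  have h4 : (f.map O.subtype).derivative.eval (a₀ : K) ∉ O.nonunits := by
    rw [derivative_map, e1]
    intro h5
    have h6 := O.coe_mem_nonunits_iff.1 h5
    exact (IsLocalRing.mem_maximalIdeal _).1 h6 h2
  obtain ⟨a, ha, hb⟩ := hO (f.map O.subtype) (hf.map _) (fun i => by
    rw [coeff_map]; exact (f.coeff i).2) (a₀ : K) a₀.2 h3 h4
  have hmem : a ∈ O := by
    have h7 : a - a₀ ∈ O := O.nonunits_subset hb
    have h8 := O.add_mem _ _ h7 a₀.2
    simpa using h8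
  refine ⟨⟨a, hmem⟩, ?_, ?_⟩
  · have h9 := e1 f ⟨a, hmem⟩
    have h10 : ((f.eval (⟨a, hmem⟩ : O) : O) : K) = 0 := by
      rw [← h9]; exact ha
    exact Subtype.ext h10
  · rw [← O.coe_mem_nonunits_iff]
    exact hb

end NST
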