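import Pool.Agent.NST.TD

/-!
# NST-HN: unsplit implies Hensel
-/

set_option autoImplicit false

noncomputable section

namespace NST

open Filter Polynomial

section HNsec

variable {N : Type} [Field N] (V : ValuationSubring N)

theorem HN_prime {x y : N} (hx : x ∉ V.nonunits) (hy : y ∉ V.nonunits) : x * y ∉ V.nonunits := by
  rw [ValuationSubring.mem_nonunits_iff, not_lt] at hx hy ⊢
  rw [map_mul]
  calc (1 : V.ValueGroup) = 1 * 1 := (one_mul 1).symm
    _ ≤ V.valuation x * V.valuation y := mul_le_mul' hx hy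

/-- if all factors are no nonunits, the product is none -/
theorem HN_prod (x : N) (t : Multiset N) (h : ∀ γ ∈ t, x - γ ∉ V.nonunits) :
    ((t.map fun γ => X - C γ).prod).eval x ∉ V.nonunits := by
  induction t using Multiset.induction with
  | empty =>
    simp only [Multiset.map_zero, Multiset.prod_zero, eval_one]
    exact one_notMem_nu
  | cons γ t ih =>
    rw [Multiset.map_cons, Multiset.prod_cons, eval_mul, eval_sub, eval_X, eval_C]
    exact HN_prime V (h γ (Multiset.mem_cons_self γ t))
      (ih fun γ' hγ' => h γ' (Multiset.mem_cons_of_mem hγ'))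

theorem HN_int (x : N) (hx : x ∈ V) (t : Multiset N) (h : ∀ γ ∈ t, γ ∈ V) :
    ((t.map fun γ => X - C γ).prod).eval x ∈ V ∧
    (derivative ((t.map fun γ => X - C γ).prod)).eval x ∈ V := by
  induction t using Multiset.induction with
  | empty =>
    simp only [Multiset.map_zero, Multiset.prod_zero, eval_one, derivative_one, eval_zero]
    exact ⟨V.one_mem, V.zero_mem⟩
  | cons γ t ih =>
    obtain ⟨h1, h2⟩ := ih fun γ' hγ' => h γ' (Multiset.mem_cons_of_mem hγ')
    have h3 : x - γ ∈ V := V.sub_mem hx (h γ (Multiset.mem_cons_self γ t))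
    rw [Multiset.map_cons, Multiset.prod_cons, derivative_mul, derivative_sub, derivative_X, derivative_C,
      sub_zero, one_mul, eval_add, eval_mul, eval_mul, eval_sub, eval_X, eval_C]
    exact ⟨V.mul_mem _ _ h3 h1, V.add_mem _ _ h1 (V.mul_mem _ _ h3 h2)⟩

/-- uniqueness of the root near `x` -/
theorem HN_uniq (x : N) (hx : x ∈ V) (α : N) (t : Multiset N) (h : ∀ γ ∈ t, γ ∈ V)
    (hα : x - α ∈ V.nonunits)
    (hd : (derivative (((α ::ₘ t).map fun γ => X - C γ).prod)).eval x ∉ V.nonunits) :
    ∀ β ∈ t, x - β ∉ V.nonunits := by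
  intro β hβ hβn
  obtain ⟨t', rfl⟩ := Multiset.exists_cons_of_mem hβ
  refine hd ?_
  obtain ⟨h1, h2⟩ := HN_int V x hx (β ::ₘ t') h
  obtain ⟨h3, -⟩ := HN_int V x hx t' fun γ hγ => h γ (Multiset.mem_cons_of_mem hγ)
  rw [Multiset.map_cons, Multiset.prod_cons, derivative_mul, derivative_sub, derivative_X, derivative_C,
    sub_zero, one_mul, eval_add, eval_mul, eval_sub, eval_X, eval_C]
  refine V.nonunits.add_mem ?_ (nu_mul' hα h2)
  rw [Multiset.map_cons, Multiset.prod_cons, eval_mul, eval_sub, eval_X, eval_C]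
  exact nu_mul' hβn h3

end HNsec

theorem p_HN (h1 : T_CH) : T_HN := by
  classical
  intro K _ _ O hO f hf hfc a₀ ha₀ hfa hda
  have hN : Normal K f.SplittingField := Normal.of_isSplittingField f
  have hG : IsGalois K f.SplittingField := ⟨⟩
  obtain ⟨V, hV⟩ := h1 K f.SplittingField (algebraMap K f.SplittingField) O
  set φ := algebraMap K f.SplittingField with hφ
  have hprod : f.map φ = ((f.map φ).roots.map fun γ => X - C γ).prod :=
    (SplittingField.splits f).eq_prod_roots_of_monic (hf.map φ)
  have hx : φ a₀ ∈ V := by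
    have : a₀ ∈ V.comap φ := by rwa [hV]
    exact this
  have hroot : ∀ γ ∈ (f.map φ).roots, γ ∈ V := by
    intro γ hγ
    refine mem_of_root φ hf (fun i _ => ?_) (z := γ) ?_
    · have : f.coeff i ∈ V.comap φ := by
        rw [hV]
        exact hfc i
      exact this
    · have h2 := (mem_roots'.1 hγ).2
      rwa [IsRoot.def, eval_map] at h2
  have hfx : (f.map φ).eval (φ a₀) ∈ V.nonunits := by
    rw [eval_map, eval₂_at_apply, ← nu_comap, hV]
    exact hfa
  have hdx : (derivative (f.map φ)).eval (φ a₀) ∉ V.nonunits := by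
    rw [derivative_map, eval_map, eval₂_at_apply, ← nu_comap, hV]
    exact hda
  -- a root near `a₀`
  obtain ⟨α, hα, hαn⟩ : ∃ α ∈ (f.map φ).roots, φ a₀ - α ∈ V.nonunits := by
    by_contra hcon
    push Not at hcon
    rw [hprod] at hfx
    exact HN_prod V (φ a₀) _ hcon hfx
  obtain ⟨t, ht⟩ := Multiset.exists_cons_of_mem hα
  have huniq : ∀ β ∈ t, φ a₀ - β ∉ V.nonunits := by
    refine HN_uniq V (φ a₀) hx α t (fun γ hγ => hroot γ ?_) hαn ?_
    · rw [ht]
      exact Multiset.mem_cons_of_mem hγ
    · rw [← ht, ← hprod]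
      exact hdx
  -- it is fixed
  have hfix : ∀ σ : f.SplittingField ≃ₐ[K] f.SplittingField, σ α = α := by
    intro σ
    by_contra hne
    have hσV : V.comap (σ : f.SplittingField →+* f.SplittingField) = V := by
      refine hO f.SplittingField _ _ ?_ hV
      rw [← hV]
      ext y
      change σ (φ y) ∈ V ↔ φ y ∈ V
      rw [hφ, AlgEquiv.commutes]
    have hσroot : σ α ∈ (f.map φ).roots := by
      rw [mem_roots'] at hα ⊢
      refine ⟨hα.1, ?_⟩
      have h2 := hα.2
      rw [IsRoot.def, eval_map, ← aeval_def] at h2 ⊢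
      have h3 : aeval (σ α) f = σ (aeval α f) := aeval_algHom_apply (σ : f.SplittingField →ₐ[K] f.SplittingField) α f
      rw [h3, h2, map_zero]
    rw [ht] at hσroot
    rcases Multiset.mem_cons.1 hσroot with h4 | h4
    · exact hne h4
    · refine huniq (σ α) h4 ?_
      have h5 : φ a₀ - α ∈ (V.comap (σ : f.SplittingField →+* f.SplittingField)).nonunits := by
        rw [hσV]
        exact hαn
      rw [nu_comap] at h5
      have h6 : (σ : f.SplittingField →+* f.SplittingField) (φ a₀ - α) = φ a₀ - σ α := by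
        change σ (φ a₀ - α) = φ a₀ - σ α
        rw [map_sub, hφ, AlgEquiv.commutes]
      rwa [h6] at h5
  obtain ⟨a, ha⟩ := (IsGalois.mem_range_algebraMap_iff_fixed α).2 hfix
  refine ⟨a, ?_, ?_⟩
  · have h2 := (mem_roots'.1 hα).2
    rw [IsRoot.def, ← ha, eval_map, eval₂_at_apply] at h2
    exact (map_eq_zero (algebraMap K f.SplittingField)).1 h2
  · rw [← hV, nu_comap, map_sub]
    have h7 : φ a - φ a₀ = -(φ a₀ - α) := by
      rw [← ha]
      ring
    rw [h7]
    exact V.nonunits.neg_mem hαn

end NST
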