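import Pool.Agent.NST.TG
import Pool.Agent.NST.P_HN

/-!
# NST-HQ: elements congruent to 1 are q-th powers

The extension `A` of `O` to `E` is unsplit again, so `T_HN` gives Hensel's lemma for `A`, which is
applied to `X ^ q - (1 + ε)` at the point `1`.
-/

set_option autoImplicit false

noncomputable section

namespace NST

open Filter Polynomial

/-- an extension of an unsplit valuation ring to a finite extension is unsplit -/
theorem HQ_uns (h1 : T_CH) {K : Type} [Field K] [CharZero K] {O : ValuationSubring K} (hO : UnsS O)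
    {E : Type} [Field E] [Algebra K E] [FiniteDimensional K E] {A : ValuationSubring E}
    (hA : A.comap (algebraMap K E) = O) : UnsS A := by
  intro N _ _ _ _ V₁ V₂ hV₁ hV₂
  let _ : Algebra K N := ((algebraMap E N).comp (algebraMap K E)).toAlgebra
  have : IsScalarTower K E N := IsScalarTower.of_algebraMap_eq fun _ => rfl
  have : FiniteDimensional K N := FiniteDimensional.trans K E N
  have : CharZero N := charZero_of_injective_algebraMap (algebraMap K N).injective
  let P := IntermediateField.normalClosure K N (AlgebraicClosure N)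
  have : Normal K (AlgebraicClosure N) :=  by
    have : IsAlgClosure K (AlgebraicClosure N) := by
      refine ⟨inferInstance, ?_⟩
      exact Algebra.IsAlgebraic.trans K N (AlgebraicClosure N)
    exact IsAlgClosure.normal K (AlgebraicClosure N)
  have : FiniteDimensional K P := inferInstance
  have : Normal K P := inferInstance
  have : IsGalois K P := ⟨⟩
  let φ : N →ₐ[K] P := IsScalarTower.toAlgHom K N P
  obtain ⟨W₁, hW₁⟩ := h1 N P (φ : N →+* P) V₁
  obtain ⟨W₂, hW₂⟩ := h1 N P (φ : N →+* P) V₂
  have key : ∀ (V : ValuationSubring N) (W : ValuationSubring P),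
      V.comap (algebraMap E N) = A → W.comap (φ : N →+* P) = V →
      W.comap (algebraMap K P) = O := by
    intro V W hV hW
    ext x
    rw [← hA, ← hV, ← hW]
    change algebraMap K P x ∈ W ↔ φ (algebraMap K N x) ∈ W
    rw [φ.commutes]
  have h2 : W₁ = W₂ := hO P W₁ W₂ (key V₁ W₁ hV₁ hW₁) (key V₂ W₂ hV₂ hW₂)
  rw [← hW₁, ← hW₂, h2]

theorem p_HQ (h1 : T_CH) : T_HQ := by
  intro K _ _ O hRC hO E _ _ _ A hA q hq ε hε
  have : CharZero E := charZero_of_injective_algebraMap (algebraMap K E).injective
  have hH : Hen A := p_HN h1 E A (HQ_uns h1 hO hA)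
  have hεA : ε ∈ A := nu_mem hε
  have hq0 : (q : E) ≠ 0 := Nat.cast_ne_zero.2 hq.ne_zero
  have hqinv : ((q : E))⁻¹ ∈ A := by
    have h3 : ((q : K))⁻¹ ∈ A.comap (algebraMap K E) := by
      rw [hA]
      exact hRC q hq.pos
    have h4 : algebraMap K E ((q : K))⁻¹ ∈ A := h3
    rwa [map_inv₀, map_natCast] at h4
  set f : E[X] := X ^ q - C (1 + ε) with hf
  have hmon : f.Monic := monic_X_pow_sub_C _ hq.ne_zero
  have hc : ∀ i, f.coeff i ∈ A := by
    intro i
    rw [hf, coeff_sub, coeff_X_pow, coeff_C]
    refine A.sub_mem ?_ ?_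
    · split_ifs
      · exact A.one_mem
      · exact A.zero_mem
    · split_ifs
      · exact A.add_mem _ _ A.one_mem hεA
      · exact A.zero_mem
  obtain ⟨y, hy, -⟩ := hH f hmon hc 1 A.one_mem (by
    have h5 : f.eval 1 = -ε := by
      rw [hf]
      simp
    rw [h5]
    exact A.nonunits.neg_mem hε) (by
    have h6 : f.derivative.eval 1 = (q : E) := by
      rw [hf, derivative_sub, derivative_C, derivative_X_pow]
      simp
    rw [h6, nu_iff]
    rintro (h | h)
    · exact hq0 h
    · exact h hqinv)
  refine ⟨y, ?_⟩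
  rw [hf, eval_sub, eval_pow, eval_X, eval_C, sub_eq_zero] at hy
  exact hy.symm

end NST
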