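import Pool.Agent.NST.TG

/-!
# NST-LI: unramified lifts
-/

set_option autoImplicit false
set_option linter.unusedSectionVars false

noncomputable section

namespace NST

open Polynomial

namespace LI_

section

variable {K k F : Type} [Field K] [Field k] [Field F] [Algebra k F] (W : ValuationSubring K)
  (π : W →+* k) (α : F) (g : W[X])

/-- evaluation in the residue extension -/
def psi : W[X] →+* F := (aeval α : k[X] →ₐ[k] F).toRingHom.comp (mapRingHom π)

lemma psi_apply (p : W[X]) : psi W π α p = aeval α (p.map π) := rfl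

/-- evaluation in the extension -/
def phi : W[X] →+* AdjoinRoot (g.map (algebraMap W K)) :=
  (AdjoinRoot.mk (g.map (algebraMap W K))).comp (mapRingHom (algebraMap W K))

lemma phi_apply (p : W[X]) : phi W g p = AdjoinRoot.mk (g.map (algebraMap W K)) (p.map (algebraMap W K)) := rfl

variable {W π α g}

lemma map_inj : Function.Injective (mapRingHom (algebraMap W K)) :=
  Polynomial.map_injective _ (IsFractionRing.injective W K)

lemma psi_eq_zero_of_phi (hg : g.Monic) (hgα : psi W π α g = 0) {p : W[X]} (hp : phi W g p = 0) :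
    psi W π α p = 0 := by
  rw [phi_apply, AdjoinRoot.mk_eq_zero] at hp
  have h1 : (p %ₘ g).map (algebraMap W K) = 0 := by
    rw [Polynomial.map_modByMonic _ hg]
    exact (modByMonic_eq_zero_iff_dvd (hg.map _)).2 hp
  have h2 : p %ₘ g = 0 := by
    apply map_inj (W := W)
    rw [map_zero]
    exact h1
  have h3 := modByMonic_add_div p g
  rw [← h3, h2, zero_add, map_mul, hgα, zero_mul]

lemma psi_eq_of_phi (hg : g.Monic) (hgα : psi W π α g = 0) {p q : W[X]}
    (h : phi W g p = phi W g q) : psi W π α p = psi W π α q := by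
  rw [← sub_eq_zero, ← map_sub]
  apply psi_eq_zero_of_phi hg hgα
  rw [map_sub, h, sub_self]

/-- the coordinates -/
def bas (hg : g.Monic) :
    Module.Basis (Fin (g.map (algebraMap W K)).natDegree) K (AdjoinRoot (g.map (algebraMap W K))) :=
  AdjoinRoot.powerBasisAux' (hg.map (algebraMap W K))

lemma bas_phi (hg : g.Monic) (p : W[X]) (i : Fin (g.map (algebraMap W K)).natDegree) :
    (bas hg).repr (phi W g p) i = algebraMap W K ((p %ₘ g).coeff i) := by
  rw [bas, AdjoinRoot.powerBasisAux'_repr_apply_to_fun, phi_apply, AdjoinRoot.modByMonicHom_mk,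
    ← Polynomial.map_modByMonic _ hg, Polynomial.coeff_map]

/-- the polynomial with given coordinates -/
def pol {n : ℕ} (c : Fin n → W) : W[X] := ∑ i : Fin n, monomial (i : ℕ) (c i)

lemma pol_coeff {n : ℕ} (c : Fin n → W) (i : Fin n) : (pol c).coeff i = c i := by
  rw [pol, finsetSum_coeff]
  simp only [coeff_monomial]
  rw [Finset.sum_eq_single i]
  · simp
  · intro j _ hj
    rw [if_neg]
    intro h
    exact hj (Fin.ext h)
  · intro h
    exact absurd (Finset.mem_univ _) h

lemma pol_degree {n : ℕ} (c : Fin n → W) : (pol c).degree < n := by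
  rw [Polynomial.degree_lt_iff_coeff_zero]
  intro m hm
  rw [pol, finsetSum_coeff]
  refine Finset.sum_eq_zero fun i _ => ?_
  rw [coeff_monomial, if_neg]
  have := i.2
  omega

lemma pol_mod (hg : g.Monic) (c : Fin (g.map (algebraMap W K)).natDegree → W) :
    pol c %ₘ g = pol c := by
  rw [modByMonic_eq_self_iff hg]
  have h := pol_degree c
  have h2 : ((g.map (algebraMap W K)).natDegree : WithBot ℕ) = g.degree := by
    rw [hg.natDegree_map, ← degree_eq_natDegree hg.ne_zero]
  exact h2 ▸ h

lemma phi_pol (hg : g.Monic) (c : Fin (g.map (algebraMap W K)).natDegree → W)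
    (z : AdjoinRoot (g.map (algebraMap W K)))
    (h : ∀ i, (bas hg).repr z i = algebraMap W K (c i)) : phi W g (pol c) = z := by
  apply (bas hg).repr.injective
  ext i
  rw [bas_phi, pol_mod hg, pol_coeff, h]

lemma mem_iff (hg : g.Monic) (z : AdjoinRoot (g.map (algebraMap W K))) :
    (∃ p, phi W g p = z) ↔ ∀ i, (bas hg).repr z i ∈ W := by
  constructor
  · rintro ⟨p, rfl⟩ i
    rw [bas_phi]
    exact ((p %ₘ g).coeff i).2
  · intro h
    exact ⟨pol fun i => ⟨_, h i⟩, phi_pol hg _ z fun i => rfl⟩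

lemma psi_pol_ne (hα : IsIntegral k α) (hgd : g.natDegree = (minpoly k α).natDegree)
    (hg : g.Monic) (c : Fin (g.map (algebraMap W K)).natDegree → W) {i}
    (hi : π (c i) ≠ 0) : psi W π α (pol c) ≠ 0 := by
  rw [psi_apply]
  intro h0
  have h1 : ((pol c).map π).degree < (minpoly k α).degree := by
    refine lt_of_le_of_lt (degree_map_le) ?_
    rw [degree_eq_natDegree (minpoly.ne_zero hα), ← hgd, ← hg.natDegree_map (algebraMap W K)]
    exact pol_degree c
  have h2 : (pol c).map π = 0 := by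
    by_contra hne
    exact absurd (minpoly.degree_le_of_ne_zero k α hne h0) (not_le.2 h1)
  apply hi
  have := congrArg (fun q => q.coeff i) h2
  simpa [coeff_map, pol_coeff] using this

lemma psi_pol_zero (c : Fin (g.map (algebraMap W K)).natDegree → W)
    (hi : ∀ i, π (c i) = 0) : psi W π α (pol c) = 0 := by
  rw [psi_apply]
  have : (pol c).map π = 0 := by
    rw [pol, Polynomial.map_sum]
    refine Finset.sum_eq_zero fun i _ => ?_
    rw [map_monomial, hi, map_zero]
  rw [this, map_zero]

variable [Fact (Irreducible (g.map (algebraMap W K)))]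

lemma dec (hα : IsIntegral k α) (hgd : g.natDegree = (minpoly k α).natDegree)
    (hg : g.Monic) (z : AdjoinRoot (g.map (algebraMap W K))) (hz : z ≠ 0) :
    ∃ c : K, c ≠ 0 ∧ ∃ p : W[X], psi W π α p ≠ 0 ∧
      z = algebraMap K (AdjoinRoot (g.map (algebraMap W K))) c * phi W g p := by
  have hne : Nonempty (Fin (g.map (algebraMap W K)).natDegree) := by
    by_contra hE
    rw [not_nonempty_iff] at hE
    apply hz
    apply (bas hg).repr.injective
    ext i
    exact hE.elim i
  obtain ⟨i0, _, hi0⟩ := Finset.exists_max_image Finset.univ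
    (fun i => W.valuation ((bas hg).repr z i)) ⟨Classical.arbitrary _, Finset.mem_univ _⟩
  have hc : (bas hg).repr z i0 ≠ 0 := by
    intro h0
    apply hz
    apply (bas hg).repr.injective
    ext i
    have := hi0 i (Finset.mem_univ _)
    rw [h0, map_zero, le_zero_iff, map_eq_zero] at this
    rw [this, map_zero]
    rfl
  have hcoord : ∀ i, (bas hg).repr z i / (bas hg).repr z i0 ∈ W := by
    intro i
    rw [← ValuationSubring.valuation_le_one_iff, map_div₀]
    exact div_le_one_of_le₀ (hi0 i (Finset.mem_univ _)) zero_le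
  refine ⟨(bas hg).repr z i0, hc, pol fun i => ⟨_, hcoord i⟩, ?_, ?_⟩
  · apply psi_pol_ne hα hgd hg _ (i := i0)
    have : (⟨(bas hg).repr z i0 / (bas hg).repr z i0, hcoord i0⟩ : W) = 1 :=
      Subtype.ext (div_self hc)
    rw [this, map_one]
    exact one_ne_zero
  · rw [phi_pol hg _ ((((bas hg).repr z i0)⁻¹) • z)]
    · rw [Algebra.smul_def, ← mul_assoc, ← map_mul, mul_inv_cancel₀ hc, map_one, one_mul]
    · intro i
      rw [map_smul, Finsupp.smul_apply, smul_eq_mul, mul_comm, ← div_eq_mul_inv]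
      rfl

lemma coord_alg (hg : g.Monic) (hr : 0 < (g.map (algebraMap W K)).natDegree) (c : K) (i) :
    (bas hg).repr (algebraMap K (AdjoinRoot (g.map (algebraMap W K))) c) i =
      if (i : ℕ) = 0 then c else 0 := by
  have h1 : algebraMap K (AdjoinRoot (g.map (algebraMap W K))) c =
      c • phi W g 1 := by
    rw [map_one, Algebra.smul_def, mul_one]
  rw [h1, map_smul, Finsupp.smul_apply, bas_phi, smul_eq_mul]
  have h2 : (1 : W[X]) %ₘ g = 1 := by
    rw [modByMonic_eq_self_iff hg, degree_one, degree_eq_natDegree hg.ne_zero,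
      ← hg.natDegree_map (algebraMap W K)]
    exact WithBot.coe_lt_coe.2 hr
  rw [h2, coeff_one]
  by_cases hi : (i : ℕ) = 0
  · simp [hi]
  · simp [hi]

lemma unit (hker : ∀ a : W, π a = 0 ↔ (a : K) ∈ W.nonunits) (hα : IsIntegral k α)
    (hgd : g.natDegree = (minpoly k α).natDegree) (hg : g.Monic) (hgα : psi W π α g = 0)
    (hr : 0 < (g.map (algebraMap W K)).natDegree)
    (p : W[X]) (hp : psi W π α p ≠ 0) : ∃ q, phi W g p * phi W g q = 1 := by
  have hp0 : phi W g p ≠ 0 := fun h => hp (psi_eq_zero_of_phi hg hgα h)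
  obtain ⟨c, hc, q', hq', hz⟩ := dec hα hgd hg _ (inv_ne_zero hp0)
  have h1 : algebraMap K (AdjoinRoot (g.map (algebraMap W K))) c⁻¹ = phi W g (p * q') := by
    rw [map_mul, map_inv₀]
    have hcc : algebraMap K (AdjoinRoot (g.map (algebraMap W K))) c ≠ 0 := by
      rw [Ne, map_eq_zero]
      exact hc
    have h2 : phi W g p * (algebraMap K (AdjoinRoot (g.map (algebraMap W K))) c * phi W g q') = 1 := by
      rw [← hz, mul_inv_cancel₀ hp0]
    rw [inv_eq_of_mul_eq_one_right]
    rw [← h2]
    ring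
  have hcW : c⁻¹ ∈ W := by
    have h3 := (mem_iff hg _).1 ⟨_, h1.symm⟩ ⟨0, hr⟩
    rwa [coord_alg hg hr, if_pos rfl] at h3
  have h4 : phi W g (C ⟨c⁻¹, hcW⟩) = phi W g (p * q') := by
    rw [← h1, phi_apply, map_C]
    rfl
  have h5 := psi_eq_of_phi (π := π) (α := α) hg hgα h4
  have h6 : π ⟨c⁻¹, hcW⟩ ≠ 0 := by
    intro h0
    rw [psi_apply, map_C, h0, map_zero, map_zero, map_mul] at h5
    exact mul_ne_zero hp hq' h5.symm
  have hcW2 : c ∈ W := by
    rw [Ne, hker, nu_iff, not_or, not_not, inv_inv] at h6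
    exact h6.2
  refine ⟨C ⟨c, hcW2⟩ * q', ?_⟩
  have h7 : phi W g (C ⟨c, hcW2⟩) = algebraMap K (AdjoinRoot (g.map (algebraMap W K))) c := by
    rw [phi_apply, map_C]
    rfl
  rw [map_mul, h7, ← hz, mul_inv_cancel₀ hp0]

/-- the valuation ring -/
def ring (hker : ∀ a : W, π a = 0 ↔ (a : K) ∈ W.nonunits) (hα : IsIntegral k α)
    (hgd : g.natDegree = (minpoly k α).natDegree) (hg : g.Monic) (hgα : psi W π α g = 0)
    (hr : 0 < (g.map (algebraMap W K)).natDegree) :
    ValuationSubring (AdjoinRoot (g.map (algebraMap W K))) where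
  toSubring := (phi W g).range
  mem_or_inv_mem' z := by
    by_cases hz : z = 0
    · left
      rw [hz]
      exact Subring.zero_mem _
    obtain ⟨c, hc, p, hp, hzp⟩ := dec hα hgd hg z hz
    obtain ⟨q, hq⟩ := unit hker hα hgd hg hgα hr p hp
    rcases W.mem_or_inv_mem c with h | h
    · left
      refine ⟨C ⟨c, h⟩ * p, ?_⟩
      rw [hzp, map_mul, phi_apply _ _ (C _), map_C]
      rfl
    · right
      refine ⟨C ⟨c⁻¹, h⟩ * q, ?_⟩
      rw [hzp, mul_inv, inv_eq_of_mul_eq_one_right hq, ← map_inv₀, map_mul, phi_apply _ _ (C _), map_C]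
      rfl

/-- the residue map, as a function -/
def rhoF (z : (phi W g).range) : F := psi W π α (Classical.choose z.2)

lemma rhoF_eq (hg : g.Monic) (hgα : psi W π α g = 0) (z : (phi W g).range) (p : W[X])
    (h : phi W g p = z) : rhoF (π := π) (α := α) z = psi W π α p :=
  psi_eq_of_phi hg hgα ((Classical.choose_spec z.2).trans h.symm)

/-- the residue map -/
def rho (hg : g.Monic) (hgα : psi W π α g = 0) : (phi W g).range →+* F where
  toFun := rhoF (π := π) (α := α)
  map_one' := by
    rw [rhoF_eq hg hgα _ 1 (by rw [map_one]; rfl), map_one]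
  map_zero' := by
    rw [rhoF_eq hg hgα _ 0 (by rw [map_zero]; rfl), map_zero]
  map_mul' x y := by
    obtain ⟨x, p, rfl⟩ := x
    obtain ⟨y, q, rfl⟩ := y
    rw [rhoF_eq hg hgα _ (p * q) (by rw [map_mul]; rfl), rhoF_eq hg hgα _ p rfl,
      rhoF_eq hg hgα _ q rfl, map_mul]
  map_add' x y := by
    obtain ⟨x, p, rfl⟩ := x
    obtain ⟨y, q, rfl⟩ := y
    rw [rhoF_eq hg hgα _ (p + q) (by rw [map_add]; rfl), rhoF_eq hg hgα _ p rfl,
      rhoF_eq hg hgα _ q rfl, map_add]

end

end LI_

open LI_

theorem p_LI : T_LI := by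
  intro K k _ _ _ _ W π hπ hker F _ _ _
  let pb := Field.powerBasisOfFiniteOfSeparable k F
  obtain ⟨α, hαd⟩ : ∃ α, α = pb.gen := ⟨_, rfl⟩
  have hα : IsIntegral k α := IsIntegral.of_finite k α
  obtain ⟨g, hg1, hg2, hg3⟩ := Polynomial.lifts_and_natDegree_eq_and_monic
    (f := π) (p := minpoly k α)
    ((Polynomial.mem_lifts _).2 (Polynomial.map_surjective π hπ _)) (minpoly.monic hα)
  have hgα : psi W π α g = 0 := by
    rw [psi_apply, hg1, minpoly.aeval]
  have hirr : Irreducible (g.map (algebraMap W K)) := by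
    rw [← Polynomial.Monic.irreducible_iff_irreducible_map_fraction_map hg3]
    apply Polynomial.Monic.irreducible_of_irreducible_map π g hg3
    rw [hg1]
    exact minpoly.irreducible hα
  have : Fact (Irreducible (g.map (algebraMap W K))) := ⟨hirr⟩
  have hr : 0 < (g.map (algebraMap W K)).natDegree := by
    rw [hg3.natDegree_map, hg2]
    exact minpoly.natDegree_pos hα
  let A := LI_.ring hker hα hg2 hg3 hgα hr
  let ρ : A →+* F := rho (π := π) (α := α) hg3 hgα
  have hρ : ∀ (p : W[X]) (hp : phi W g p ∈ A), ρ ⟨phi W g p, hp⟩ = psi W π α p :=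
    fun p hp => rhoF_eq hg3 hgα _ p rfl
  have hA : ∀ z, z ∈ A ↔ ∃ p, phi W g p = z := fun z => Iff.rfl
  have hAc : ∀ z, z ∈ A ↔ ∀ i, (bas hg3).repr z i ∈ W := fun z => mem_iff hg3 z
  have hρ0 : ∀ a : A, ρ a = 0 ↔ (a : AdjoinRoot (g.map (algebraMap W K))) ∈ A.nonunits := by
    rintro ⟨z, hz⟩
    obtain ⟨p, rfl⟩ := (hA z).1 hz
    rw [hρ]
    constructor
    · intro h
      rw [nu_iff]
      by_contra hcon
      rw [not_or, not_not] at hcon
      obtain ⟨h1, h2⟩ := hcon
      obtain ⟨q, hq⟩ := (hA _).1 h2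
      have h3 : phi W g (p * q) = phi W g 1 := by
        rw [map_mul, hq, map_one]
        exact mul_inv_cancel₀ h1
      have h4 := psi_eq_of_phi (π := π) (α := α) hg3 hgα h3
      rw [map_mul, h, zero_mul, map_one] at h4
      exact zero_ne_one h4
    · intro h
      by_contra hne
      obtain ⟨q, hq⟩ := LI_.unit hker hα hg2 hg3 hgα hr p hne
      rw [nu_iff] at h
      rcases h with h | h
      · rw [show phi W g p = 0 from h, zero_mul] at hq
        exact zero_ne_one hq
      · apply h
        have : (phi W g p)⁻¹ = phi W g q := inv_eq_of_mul_eq_one_right hq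
        exact (hA _).2 ⟨q, this.symm⟩
  refine ⟨AdjoinRoot (g.map (algebraMap W K)), inferInstance, inferInstance, _, bas hg3, A, ρ, hr,
    hAc, ?_, ?_, hρ0, ?_, ?_⟩
  · intro z
    constructor
    · intro hz
      have hzA : z ∈ A := nu_mem hz
      have hc := (hAc z).1 hzA
      have hz0 : ρ ⟨z, hzA⟩ = 0 := (hρ0 ⟨z, hzA⟩).2 hz
      have he : phi W g (pol fun i => ⟨_, hc i⟩) = z := phi_pol hg3 _ z fun i => rfl
      intro i
      by_contra hi
      have h1 : π ⟨(bas hg3).repr z i, hc i⟩ ≠ 0 := fun h => hi ((hker _).1 h)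
      have h2 := psi_pol_ne (α := α) hα hg2 hg3 (fun i => ⟨(bas hg3).repr z i, hc i⟩) h1
      apply h2
      rw [← hρ _ (by rw [he]; exact hzA)]
      rw [← hz0]
      congr 1
      exact Subtype.ext he
    · intro h
      have hc : ∀ i, (bas hg3).repr z i ∈ W := fun i => nu_mem (h i)
      have hzA : z ∈ A := (hAc z).2 hc
      have he : phi W g (pol fun i => ⟨_, hc i⟩) = z := phi_pol hg3 _ z fun i => rfl
      rw [← hρ0 ⟨z, hzA⟩]
      have h2 : psi W π α (pol fun i => (⟨(bas hg3).repr z i, hc i⟩ : W)) = 0 :=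
        psi_pol_zero _ fun i => (hker _).2 (h i)
      rw [← h2, ← hρ _ (by rw [he]; exact hzA)]
      congr 1
      exact Subtype.ext he.symm
  · intro y
    obtain ⟨f, hf⟩ := pb.exists_eq_aeval' y
    obtain ⟨p, hp⟩ := Polynomial.map_surjective π hπ f
    refine ⟨⟨phi W g p, (hA _).2 ⟨p, rfl⟩⟩, ?_⟩
    rw [hρ, psi_apply, hp, hf, hαd]
  · ext x
    rw [ValuationSubring.mem_comap, hAc]
    constructor
    · intro h
      have := h ⟨0, hr⟩
      rwa [coord_alg hg3 hr, if_pos rfl] at this
    · intro h i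
      rw [coord_alg hg3 hr]
      split_ifs
      · exact h
      · exact W.zero_mem
  · intro a ha
    have he : phi W g (C a) = algebraMap K (AdjoinRoot (g.map (algebraMap W K))) a := by
      rw [phi_apply, map_C]
      rfl
    have h1 : ρ ⟨algebraMap K _ a, ha⟩ = ρ ⟨phi W g (C a), by rw [he]; exact ha⟩ := by
      congr 1
      exact Subtype.ext he.symm
    rw [h1, hρ, psi_apply, map_C, aeval_C]

end NST
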