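import Pool.Agent.NST.TD

/-!
# NST, target M1: the natural valuation ring does not split; archimedean residue field
-/

set_option autoImplicit false

noncomputable section

namespace NST

open Filter Polynomial

namespace M1_

section

variable {K : Type} [Field K] [LinearOrder K] [IsStrictOrderedRing K]
variable {k : Type} [Field k] [LinearOrder k] [IsStrictOrderedRing k]

theorem natCast_pi {W : ValuationSubring K} (π : W →+* k) (m : ℕ) :
    π ⟨(m : K), natCast_mem W m⟩ = (m : k) := by
  have h : (⟨(m : K), natCast_mem W m⟩ : W) = ((m : ℕ) : W) := by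
    apply Subtype.ext
    simp
  rw [h, map_natCast]

/-- upper bounds pass to the residue field -/
theorem bd_le {W : ValuationSubring K} {π : W →+* k} (h : OR W k π) (x : W) (m : ℕ)
    (hx : |(x : K)| ≤ m) : |π x| ≤ m := by
  rw [_root_.abs_le] at hx ⊢
  constructor
  · have h1 := h.mono ⟨-(m : K), W.neg_mem _ (natCast_mem W m)⟩ x hx.1
    have h2 : (⟨-(m : K), W.neg_mem _ (natCast_mem W m)⟩ : W) = -⟨(m : K), natCast_mem W m⟩ := rfl
    rw [h2, map_neg, natCast_pi] at h1
    exact h1
  · have h1 := h.mono x ⟨(m : K), natCast_mem W m⟩ hx.2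
    rw [natCast_pi] at h1
    exact h1

/-- unbounded elements have unbounded residues -/
theorem not_abs_le {W : ValuationSubring K} {π : W →+* k} (h : OR W k π) (x : W)
    (hx : (x : K) ∉ natV K) (m : ℕ) : ¬ |π x| ≤ m := by
  intro hm
  have h0 : ¬ |(x : K)| ≤ ((m + 1 : ℕ) : K) := fun h' => hx (mem_natV.2 ⟨m + 1, h'⟩)
  have h1 : ((m + 1 : ℕ) : K) ≤ |(x : K)| := le_of_lt (not_le.1 h0)
  rw [_root_.abs_le] at hm
  have h3 : ((m + 1 : ℕ) : k) = (m : k) + 1 := by push_cast; ring
  rcases le_total 0 (x : K) with hs | hs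
  · rw [abs_of_nonneg hs] at h1
    have h2 := h.mono ⟨((m + 1 : ℕ) : K), natCast_mem W (m + 1)⟩ x h1
    rw [natCast_pi, h3] at h2
    linarith [hm.2]
  · rw [abs_of_nonpos hs] at h1
    have h2 := h.mono ⟨((m + 1 : ℕ) : K), natCast_mem W (m + 1)⟩ (-x) h1
    rw [natCast_pi, h3, map_neg] at h2
    linarith [hm.1]

end

end M1_

open M1_

theorem p_M1 (h1 : T_AR) (h2 : T_F1) (h3 : T_CH) (h4 : T_RO) (h5 : T_RF) (h6 : T_F2)
    (h7 : T_F3) (h8 : T_DI) (h9 : T_F4) : T_M1 := by
  intro K _ _ _ _ hGd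
  constructor
  · intro N _ _ _ _
    have hf : (algebraMap K N).IsIntegral := by
      rw [algebraMap_isIntegral_iff]
      infer_instance
    have hfin : (algebraMap K N).Finite := by
      rw [RingHom.finite_algebraMap]
      infer_instance
    obtain ⟨W, hW1, hW2, hW3⟩ := h2 K N (algebraMap K N) hf (natV K)
    by_cases hW : W = natV K
    · rw [hW] at hW2
      exact hW2
    exfalso
    have hWc : Cvx W := Cvx.of_le hW1
    obtain ⟨k, _, _, _, π, hOR⟩ := h4 K W hWc
    obtain ⟨A, hA⟩ := h3 K N (algebraMap K N) W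
    obtain ⟨n, _, ρ, g, hρs, hρk, hρg, hgf⟩ :=
      h5 K N (algebraMap K N) hfin W A hA k π hOR.surj hOR.ker
    let _ : Algebra k n := g.toAlgebra
    have halg : algebraMap k n = g := rfl
    have : FiniteDimensional k n := hgf
    have gd : Gd k := hGd W hWc k π hOR
    have := gd.cnt
    have hnt : natV k ≠ ⊤ := by
      intro htop
      have hex : ∃ x, x ∈ W ∧ x ∉ natV K := by
        by_contra hcon
        push Not at hcon
        exact hW (le_antisymm hcon hW1)
      obtain ⟨x, hxW, hx⟩ := hex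
      have hmem : π ⟨x, hxW⟩ ∈ natV k := by rw [htop]; trivial
      obtain ⟨m, hm⟩ := mem_natV.1 hmem
      exact not_abs_le hOR ⟨x, hxW⟩ hx m hm
    have hkey : ∀ O : ValuationSubring k, Cvx O → O ≠ ⊤ → ¬ UnI (algebraMap k n) O := by
      intro O hO hOt hUn
      rw [halg] at hUn
      obtain ⟨P, hP, hPU⟩ := h6 K N k n (algebraMap K N) g W A π ρ hOR.surj hρs hOR.ker hρk hA
        hρg hW2 O hUn
      have hle : natV K ≤ P := by
        intro x hx
        obtain ⟨m, hm⟩ := mem_natV.1 hx
        have hxW : x ∈ W := hW1 hx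
        refine (hP x).2 ⟨hxW, hO.natV_le (mem_natV.2 ⟨m, ?_⟩)⟩
        exact M1_.bd_le hOR ⟨x, hxW⟩ m hm
      have hWP := hW3 P hle hPU
      apply hOt
      rw [eq_top_iff]
      intro y _
      obtain ⟨x, rfl⟩ := hOR.surj y
      obtain ⟨h, hy⟩ := (hP x).1 (hWP x.2)
      exact hy
    have hns : ¬ Uns (Vord k) := h7 k n hnt hkey
    have hrc : IsRealClosed k := (h8 k gd).resolve_right hns
    exact hkey (natV k) natV_cvx hnt (h9 k hrc (natV k) natV_cvx n)
  · intro k _ _ _ π hOR
    have gd : Gd k := hGd (natV K) natV_cvx k π hOR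
    have harch : Archimedean k := by
      rw [archimedean_iff_nat_le]
      intro c
      obtain ⟨a, rfl⟩ := hOR.surj c
      obtain ⟨m, hm⟩ := mem_natV.1 a.2
      exact ⟨m, le_trans (le_abs_self _) (M1_.bd_le hOR a m hm)⟩
    exact h1 k gd harch

end NST
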