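import Pool.Agent.NST.TD

/-!
# NST-M2: countable fields
-/

set_option autoImplicit false

noncomputable section

namespace NST

open Filter Polynomial

namespace M2_

/-- lift squares and roots from a real closed residue field -/
theorem rcr {K : Type} [Field K] {k : Type} [Field k] (hR : IsRealClosed k)
    (O : ValuationSubring K) (π : O →+* k) (hs : Function.Surjective π)
    (hk : ∀ a : O, π a = 0 ↔ (a : K) ∈ O.nonunits) : RCr O := by
  constructor
  · intro c hc
    rcases hR.isSquare_or_isSquare_neg (π ⟨c, hc⟩) with ⟨s, h⟩ | ⟨s, h⟩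
    · obtain ⟨b, rfl⟩ := hs s
      refine ⟨b, b.2, Or.inl ?_⟩
      have h1 : π (b ^ 2 - ⟨c, hc⟩) = 0 := by
        rw [map_sub, map_pow, h]
        ring
      exact (hk _).1 h1
    · obtain ⟨b, rfl⟩ := hs s
      refine ⟨b, b.2, Or.inr ?_⟩
      have h1 : π (b ^ 2 + ⟨c, hc⟩) = 0 := by
        rw [map_add, map_pow, sq, ← h]
        ring
      exact (hk _).1 h1
  · intro p hp ho hc
    have hl : p ∈ Polynomial.lifts (algebraMap O K) := by
      rw [Polynomial.lifts_iff_coeff_lifts]
      intro n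
      exact ⟨⟨p.coeff n, hc n⟩, rfl⟩
    obtain ⟨q, hq, hqd, hqm⟩ := Polynomial.lifts_and_natDegree_eq_and_monic hl hp
    have h1 : Odd (q.map π).natDegree := by
      rw [hqm.natDegree_map, hqd]
      exact ho
    obtain ⟨y, hy⟩ := hR.exists_isRoot_of_odd_natDegree h1
    obtain ⟨x, rfl⟩ := hs y
    refine ⟨x, x.2, ?_⟩
    have h2 : π (q.eval x) = 0 := by
      rw [IsRoot.def, eval_map, eval₂_at_apply] at hy
      exact hy
    have h3 : ((q.eval x : O) : K) = p.eval (x : K) := by
      rw [← hq, eval_map]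
      exact (eval₂_at_apply (algebraMap O K) x).symm
    rw [← h3]
    exact (hk _).1 h2

end M2_

theorem p_M2 (h1 : T_M1) (h2 : T_HN) (h3 : T_RO) : T_M2 := by
  intro K _ _ _ _ hK
  obtain ⟨hU, hC⟩ := h1 K hK
  refine ⟨h2 K (natV K) hU, ?_⟩
  obtain ⟨k, _, _, _, π, hπ⟩ := h3 K (natV K) natV_cvx
  exact M2_.rcr (hC k π hπ) (natV K) π hπ.surj hπ.ker

end NST
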