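import Pool.Agent.NST.TG

/-!
# NST-NC: the condition is necessary
-/

set_option autoImplicit false

noncomputable section

namespace NST

open Filter Polynomial

namespace NC_

lemma res_iff {N : Type} [Field N] (A : ValuationSubring N) (a : A) :
    IsLocalRing.residue A a = 0 ↔ (a : N) ∈ A.nonunits := by
  rw [IsLocalRing.residue_eq_zero_iff, ValuationSubring.mem_nonunits_iff_exists_mem_maximalIdeal]
  constructor
  · intro h
    exact ⟨a.2, h⟩
  · rintro ⟨h, h'⟩
    exact h'

/-- characteristic zero of the residue field -/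
lemma rc0 {K : Type} [Field K] (O : ValuationSubring K)
    (h : ∀ (n : ℕ) (f : Fin n → IsLocalRing.ResidueField O), ∑ i, f i ^ 2 ≠ -1) : RC0 O := by
  intro c hc
  refine inv_mem_of_notMem_nu ?_
  intro hn
  obtain ⟨m, rfl⟩ : ∃ m, c = m + 1 := ⟨c - 1, by omega⟩
  refine h m (fun _ => 1) ?_
  have h1 : IsLocalRing.residue O ((m + 1 : ℕ) : O) = 0 := by
    rw [res_iff]
    simpa using hn
  rw [map_natCast] at h1
  push_cast at h1
  simp only [one_pow, Finset.sum_const, Finset.card_univ, Fintype.card_fin, nsmul_eq_mul, mul_one]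
  linear_combination h1

/-- small elements are bounded by `1` -/
lemma small {K : Type} [Field K] [LinearOrder K] [IsStrictOrderedRing K] (O : ValuationSubring K)
    (h0 : RC0 O) (hH : Hen O) {x : K} (hx : x ∈ O.nonunits) : -1 ≤ x := by
  have h2 : (2 : K) ∉ O.nonunits := by
    rw [nu_iff]
    push Not
    exact ⟨two_ne_zero, by simpa using h0 2 (by norm_num)⟩
  have hm : (X ^ 2 - C (1 + x) : K[X]).Monic := monic_X_pow_sub_C _ (by norm_num)
  obtain ⟨a, ha, -⟩ := hH (X ^ 2 - C (1 + x)) hm (by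
    intro i
    rw [coeff_sub, coeff_X_pow, coeff_C]
    have h3 : (1 + x) ∈ O := O.add_mem _ _ O.one_mem (nu_mem hx)
    refine O.sub_mem ?_ ?_
    · split_ifs
      · exact O.one_mem
      · exact O.zero_mem
    · split_ifs
      · exact h3
      · exact O.zero_mem) 1 O.one_mem (by
    have : (X ^ 2 - C (1 + x) : K[X]).eval 1 = -x := by simp
    rw [this]
    exact O.nonunits.neg_mem hx) (by
    have : (X ^ 2 - C (1 + x) : K[X]).derivative.eval 1 = 2 := by
      simp [one_add_one_eq_two]
    rw [this]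
    exact h2)
  have h3 : a ^ 2 = 1 + x := by
    have := ha
    simp only [eval_sub, eval_pow, eval_X, eval_C] at this
    linear_combination this
  nlinarith [sq_nonneg a]

lemma cvx {K : Type} [Field K] [LinearOrder K] [IsStrictOrderedRing K] (O : ValuationSubring K)
    (h0 : RC0 O) (hH : Hen O) : Cvx O := by
  intro x y hxy hy
  by_contra hx
  have hx0 : x ≠ 0 := by
    rintro rfl
    exact hx O.zero_mem
  have h1 : 2 * y * x⁻¹ ∈ O.nonunits := by
    refine nu_mul (O.mul_mem _ _ ?_ hy) (inv_nu_of_notMem hx)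
    exact_mod_cast natCast_mem O 2
  have h2 := small O h0 hH h1
  have h3 := small O h0 hH (O.nonunits.neg_mem h1)
  have h4 : |2 * y * x⁻¹| ≤ 1 := abs_le.2 ⟨h2, by linarith⟩
  have h5 : 0 < |x| := abs_pos.2 hx0
  have h6 : |2 * y * x⁻¹| = 2 * |y| / |x| := by
    rw [abs_mul, abs_mul, abs_inv, div_eq_mul_inv, abs_of_pos (by norm_num : (0 : K) < 2)]
  rw [h6, div_le_one h5] at h4
  linarith

/-- the ordered residue field is real closed -/
lemma rcf {K : Type} [Field K] [LinearOrder K] [IsStrictOrderedRing K] (O : ValuationSubring K)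
    (k : Type) [Field k] [LinearOrder k] [IsStrictOrderedRing k] (π : O →+* k) (hπ : OR O k π)
    (h1 : ∀ c : IsLocalRing.ResidueField O, ∃ b, b ^ 2 = c ∨ b ^ 2 = -c)
    (h2 : ∀ p : Polynomial (IsLocalRing.ResidueField O), Odd p.natDegree → ∃ x, p.IsRoot x) :
    IsRealClosed k := by
  have hk : RingHom.ker π = IsLocalRing.maximalIdeal O := by
    ext a
    rw [RingHom.mem_ker, hπ.ker, ← res_iff, IsLocalRing.residue_eq_zero_iff]
  let e : IsLocalRing.ResidueField O ≃+* k :=
    (Ideal.quotEquivOfEq hk.symm).trans (RingHom.quotientKerEquivOfSurjective hπ.surj)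
  refine IsRealClosed.of_linearOrderedField ?_ ?_
  · intro x hx
    obtain ⟨b, hb⟩ := h1 (e.symm x)
    rcases hb with hb | hb
    · refine ⟨e b, ?_⟩
      rw [← sq, ← map_pow, hb, e.apply_symm_apply]
    · have h3 : e b ^ 2 = -x := by
        rw [← map_pow, hb, map_neg, e.apply_symm_apply]
      have h4 : x = 0 := by nlinarith [sq_nonneg (e b)]
      exact ⟨0, by simp [h4]⟩
  · intro f hf
    obtain ⟨x, hx⟩ := h2 (f.map e.symm.toRingHom) (by
      rwa [natDegree_map_eq_of_injective e.symm.injective])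
    refine ⟨e x, ?_⟩
    have h3 : e ((f.map e.symm.toRingHom).eval x) = 0 := by
      rw [hx.eq_zero, map_zero]
    rw [eval_map] at h3
    have h4 : e (eval₂ e.symm.toRingHom x f) = eval₂ (e.toRingHom.comp e.symm.toRingHom) (e x) f :=
      hom_eval₂ f e.symm.toRingHom e.toRingHom x
    have h5 : e.toRingHom.comp e.symm.toRingHom = RingHom.id k := by
      ext y
      exact e.apply_symm_apply y
    rw [h4, h5] at h3
    exact h3

/-- elements of finite extensions of real closed fields are powers up to the sign -/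
lemma pw (h7 : T_RK) (k : Type) [Field k] [LinearOrder k] [IsStrictOrderedRing k]
    (hk : IsRealClosed k) (n : Type) [Field n] (g : k →+* n) (hg : g.Finite) (q : ℕ) (hq : 0 < q)
    (z : n) : ∃ y : n, z = y ^ q ∨ z = -y ^ q := by
  let _ : Algebra k n := g.toAlgebra
  have : FiniteDimensional k n := hg
  have hf := h7 k hk n
  have hpos : 0 < Module.finrank k n := Module.finrank_pos
  by_cases h1 : Module.finrank k n = 1
  · obtain ⟨c, hc⟩ : ∃ c : k, algebraMap k n c = z := by
      have h2 : Function.Surjective (algebraMap k n) :=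
        (Algebra.finrank_eq_one_iff_bijective_algebraMap.mp h1).2
      exact h2 z
    rcases le_total 0 c with h | h
    · obtain ⟨d, hd⟩ := IsRealClosed.exists_eq_pow_of_nonneg h hq.ne'
      exact ⟨algebraMap k n d, Or.inl (by rw [← hc, hd, map_pow])⟩
    · obtain ⟨d, hd⟩ := IsRealClosed.exists_eq_pow_of_nonneg (neg_nonneg.2 h) hq.ne'
      refine ⟨algebraMap k n d, Or.inr ?_⟩
      rw [← map_pow, ← hd, ← hc, map_neg, neg_neg]
  · have h2 : Module.finrank k n = 2 := by omega
    have : IsAlgClosed n := by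
      refine IsAlgClosed.of_exists_root _ ?_
      intro p hm hp
      have : Fact (Irreducible p) := ⟨hp⟩
      have : Module.Finite n (AdjoinRoot p) := hm.finite_adjoinRoot
      have : FiniteDimensional k (AdjoinRoot p) := Module.Finite.trans n (AdjoinRoot p)
      have h3 := h7 k hk (AdjoinRoot p)
      rw [← Module.finrank_mul_finrank k n (AdjoinRoot p), h2] at h3
      have h4 : Module.finrank n (AdjoinRoot p) = p.natDegree := by
        rw [(AdjoinRoot.powerBasis hp.ne_zero).finrank]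
        rfl
      rw [h4] at h3
      have h5 : 0 < p.natDegree := hp.natDegree_pos
      have h6 : p.natDegree = 1 := by omega
      have h8 : p.degree = 1 := by
        rw [degree_eq_natDegree hp.ne_zero, h6]
        rfl
      obtain ⟨x, hx⟩ := exists_root_of_degree_eq_one h8
      exact ⟨x, hx⟩
    obtain ⟨y, hy⟩ := IsAlgClosed.exists_pow_nat_eq z hq
    exact ⟨y, Or.inl hy.symm⟩

end NC_

theorem p_NC (h1 : T_EH) (h2 : T_UH) (h3 : T_HQ) (h4 : T_RO) (h5 : T_CH) (h6 : T_RF)
    (h7 : T_RK) : T_NC := by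
  intro K _ _ _ O hO hs hsq hod E _ _ _ q hq
  have h0 : RC0 O := NC_.rc0 O hs
  have hH : Hen O := h1 K O hO
  have hU : UnsS O := h2 K O h0 hH
  have hC : Cvx O := NC_.cvx O h0 hH
  obtain ⟨k, i1, i2, i3, π, hπ⟩ := h4 K O hC
  have hk : IsRealClosed k := NC_.rcf O k π hπ hsq hod
  obtain ⟨A, hA⟩ := h5 K E (algebraMap K E) O
  have hfin : (algebraMap K E).Finite := by
    have : FiniteDimensional K E := inferInstance
    exact RingHom.finite_algebraMap.2 this
  obtain ⟨n, i4, ρ, g, hρ, hρ0, hρg, hg⟩ := h6 K E (algebraMap K E) hfin O A hA k π hπ.surj hπ.ker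
  have hmem : ∀ x : E, Itg K x → x ∈ A := by
    rintro x ⟨p, hp, hc, hx⟩
    refine mem_of_root (algebraMap K E) hp (fun i _ => ?_) (z := x) ?_
    · have h8 : p.coeff i ∈ O := hC.natV_le (mem_natV.2 (hc i))
      rw [← hA] at h8
      exact h8
    · exact hx
  classical
  refine ⟨{1, -1}, ?_⟩
  rintro x ⟨hx0, hx1, hx2⟩
  have hxA := hmem x hx1
  have hxA' := hmem x⁻¹ hx2
  have hxn : x ∉ A.nonunits := by
    rw [nu_iff]
    push Not
    exact ⟨hx0, hxA'⟩
  obtain ⟨yb, hy⟩ := NC_.pw h7 k hk n g hg q hq.pos (ρ ⟨x, hxA⟩)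
  obtain ⟨y, rfl⟩ := hρ yb
  have hx' : ρ ⟨x, hxA⟩ ≠ 0 := by
    intro h
    exact hxn ((hρ0 _).1 h)
  have key : ∀ s : A, s * s = 1 → ρ ⟨x, hxA⟩ = ρ s * ρ y ^ q →
      ∃ w : E, x = (s : E) * w ^ q := by
    intro s hs1 hρs
    have hyn : (y : E) ∉ A.nonunits := by
      intro h
      have h8 := (hρ0 y).2 h
      rw [h8, zero_pow hq.pos.ne', mul_zero] at hρs
      exact hx' hρs
    have hy0 : (y : E) ≠ 0 := by
      intro h
      exact hyn (nu_iff.2 (Or.inl h))
    have hyi : (y : E)⁻¹ ∈ A := inv_mem_of_notMem_nu hyn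
    have hs2 : (s : E) * s = 1 := by
      have := congrArg (fun a : A => (a : E)) hs1
      simpa using this
    have hd : x - s * (y : E) ^ q ∈ A.nonunits := by
      have h9 : ρ (⟨x, hxA⟩ - s * y ^ q) = 0 := by
        rw [map_sub, map_mul, map_pow, hρs, sub_self]
      have h10 := (hρ0 _).1 h9
      simpa using h10
    have he : x * (s * (y : E)⁻¹ ^ q) - 1 ∈ A.nonunits := by
      have h8 : x * (s * (y : E)⁻¹ ^ q) - 1 = (s * (y : E)⁻¹ ^ q) * (x - s * (y : E) ^ q) := by
        have h9 : (y : E)⁻¹ ^ q * (y : E) ^ q = 1 := by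
          rw [← mul_pow, inv_mul_cancel₀ hy0, one_pow]
        linear_combination ((y : E)⁻¹ ^ q * (y : E) ^ q) * hs2 + h9
      rw [h8]
      exact nu_mul (A.mul_mem _ _ s.2 (pow_mem hyi _)) hd
    obtain ⟨w, hw⟩ := h3 K O h0 hU E A hA q hq _ he
    refine ⟨y * w, ?_⟩
    have h9 : (y : E)⁻¹ ^ q * (y : E) ^ q = 1 := by
      rw [← mul_pow, inv_mul_cancel₀ hy0, one_pow]
    rw [mul_pow, ← hw]
    linear_combination (-x * (y : E)⁻¹ ^ q * (y : E) ^ q) * hs2 - x * h9
  rcases hy with hy | hy
  · obtain ⟨w, hw⟩ := key 1 (by simp) (by rw [hy, map_one, one_mul])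
    exact ⟨1, by simp, w, by simpa using hw⟩
  · obtain ⟨w, hw⟩ := key (-1) (by simp) (by rw [hy, map_neg, map_one, neg_one_mul])
    exact ⟨-1, by simp, w, by simpa using hw⟩

end NST
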