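import Pool.Agent.NST.TG

/-!
NST, target NE2: NIP passes to elementary substructures.
-/

set_option autoImplicit false

noncomputable section

namespace NST

open FirstOrder

theorem p_NE2 : T_NE2 := by
  intro K₀ K _ _ e h m k φ
  obtain ⟨n, hn⟩ := h m k φ
  refine ⟨n, fun a => ?_⟩
  obtain ⟨S, hS⟩ := hn (fun i => e ∘ a i)
  refine ⟨S, fun x hx => hS (e ∘ x) fun i => ?_⟩
  have h1 := e.map_formula φ (Sum.elim x (a i))
  rw [Sum.comp_elim] at h1
  rw [h1]
  exact hx i

end NST
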