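import Pool.Agent.NST.TG

set_option autoImplicit false

noncomputable section

namespace NST

open scoped Classical

namespace NU_

/-- refinement -/
def Ref {d N : ℕ} (ι : Fin d → Fin N) (s : Finset (Fin d) → Finset (Fin N)) : Prop :=
  Function.Injective ι ∧ ∀ T i, (ι i ∈ s T ↔ i ∈ T)

lemma Ref.comp {d N M : ℕ} {ι : Fin d → Fin N} {s : Finset (Fin d) → Finset (Fin N)} {ι' : Fin N → Fin M}
    {s' : Finset (Fin N) → Finset (Fin M)} (h : Ref ι s) (h' : Ref ι' s') :
    Ref (ι' ∘ ι) (s' ∘ s) :=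
  ⟨h'.1.comp h.1, fun T i => (h'.2 (s T) (ι i)).trans (h.2 T i)⟩

lemma adt_ref {F : Type} [Field F] {V : ValuationSubring F} {d N : ℕ} {x : Fin N → F}
    {y : Finset (Fin N) → F} (h : Adt V x y) (ι : Fin d → Fin N) (s : Finset (Fin d) → Finset (Fin N)) :
    Adt V (fun i => x (ι i)) (fun T => y (s T)) := by
  rcases h with h | h
  · exact Or.inl fun i j S => h (ι i) (ι j) (s S)
  · exact Or.inr fun i S T => h (ι i) (s S) (s T)

/-- step 2: all the valuations -/
theorem step2 (h2 : T_TRE) (m : ℕ) : ∀ d : ℕ, ∃ N : ℕ, ∀ (F : Type) [Field F] (V : Fin m → ValuationSubring F)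
    (x : Fin N → F) (y : Finset (Fin N) → F), ∃ (ι : Fin d → Fin N) (s : Finset (Fin d) → Finset (Fin N)),
      Ref ι s ∧ ∀ j, Adt (V j) (fun i => x (ι i)) (fun T => y (s T)) := by
  induction m with
  | zero =>
    intro d
    refine ⟨d, fun F _ V x y => ⟨id, id, ⟨Function.injective_id, fun T i => Iff.rfl⟩, fun j => j.elim0⟩⟩
  | succ m ih =>
    intro d
    obtain ⟨N1, hN1⟩ := ih d
    obtain ⟨N, hN⟩ := h2 N1
    refine ⟨N, fun F _ V x y => ?_⟩
    obtain ⟨ι, s, hι, hs, hA⟩ := hN F (V (Fin.last m)) x y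
    obtain ⟨ι', s', hr, hA'⟩ := hN1 F (fun j => V j.castSucc) (fun i => x (ι i)) (fun T => y (s T))
    refine ⟨ι ∘ ι', s ∘ s', hr.comp ⟨hι, hs⟩, fun j => ?_⟩
    refine Fin.lastCases ?_ (fun j => ?_) j
    · exact adt_ref hA ι' s'
    · exact hA' j

/-- step 1: values different from zero -/
theorem step1 (h1 : T_SSH) (d : ℕ) : ∃ N : ℕ, ∀ (F : Type) [Field F] (x : Fin N → F)
    (y : Finset (Fin N) → F), Function.Injective x → ∃ (ι : Fin d → Fin N) (s : Finset (Fin d) → Finset (Fin N)),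
      Ref ι s ∧ ∀ i S, x (ι i) + y (s S) ≠ 0 := by
  obtain ⟨N, hN2, hN⟩ := h1 d 2
  refine ⟨N, fun F _ x y hx => ?_⟩
  obtain ⟨c, ι, hι, hI, hT⟩ := hN (Option (Fin N)) (by
      rw [Fintype.card_option, Fintype.card_fin]
      nlinarith)
    (fun S => if h : ∃ i, x i + y S = 0 then some (Classical.choose h) else none)
    (fun c => match c with
      | none => Finset.univ
      | some i => Finset.univ.erase i) (by
      intro c
      match c with
      | none =>
        simp only [Finset.card_univ, Fintype.card_fin]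
        omega
      | some i =>
        simp only [Finset.card_erase_of_mem (Finset.mem_univ i), Finset.card_univ, Fintype.card_fin]
        omega)
  choose s hs hs' using hT
  refine ⟨ι, s, ⟨hι, hs'⟩, fun i S h0 => ?_⟩
  have hex : ∃ i, x i + y (s S) = 0 := ⟨ι i, h0⟩
  have h3 := hs S
  rw [dif_pos hex] at h3
  have h4 := Classical.choose_spec hex
  have h5 : Classical.choose hex = ι i := hx (add_right_cancel (h4.trans h0.symm))
  rw [h5] at h3
  have h6 := hI i
  rw [← h3] at h6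
  exact (Finset.mem_erase.1 h6).1 rfl

/-- steps 3 and 4 -/
theorem step4 (h1 : T_SSH) (c d : ℕ) (hc : 0 < c) : ∃ N : ℕ, ∀ (F : Type) [Field F] (G : Type)
    [CommGroupWithZero G] [Fintype G], Fintype.card G ≤ c → ∀ (m : ℕ) (V : Fin m → ValuationSubring F)
    (Φ : F →*₀ G) (x : Fin N → F) (y : Finset (Fin N) → F) (g : G), (∀ i S, (Φ (x i + y S) = g ↔ i ∈ S)) →
    (∀ i S, x i + y S ≠ 0) → (∀ j, Adt (V j) x y) →
    ∃ (x' t : Fin d → F) (y' s : Finset (Fin d) → F) (h : G), (∀ i, t i ≠ 0) ∧ (∀ S, s S ≠ 0) ∧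
      (∀ i S, x' i + y' S ≠ 0) ∧
      (∀ i S j, (x' i + y' S) / (s S * t i) ∈ V j ∧ ((x' i + y' S) / (s S * t i))⁻¹ ∈ V j) ∧
      ∀ i S, (Φ ((x' i + y' S) / (s S * t i)) = h ↔ i ∈ S) := by
  obtain ⟨N, hN2, hN⟩ := h1 d c
  refine ⟨N, fun F _ G _ _ hG m V Φ x y g hg h0 hA => ?_⟩
  have hN0 : 0 < N := by omega
  set z : Fin N := ⟨0, hN0⟩ with hz
  set t : Fin N → F := fun i => (x i + y ∅) / (x z + y ∅) with ht
  set s : Finset (Fin N) → F := fun S => x z + y S with hsdef
  have ht0 : ∀ i, t i ≠ 0 := fun i => div_ne_zero (h0 i ∅) (h0 z ∅)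
  have hs0 : ∀ S, s S ≠ 0 := fun S => h0 z S
  obtain ⟨τ, hτ⟩ : ∃ τ : G, N ≤ c * (Finset.univ.filter fun i => Φ (t i) = τ).card := by
    by_contra hcon
    push Not at hcon
    have h5 : N = ∑ τ : G, (Finset.univ.filter fun i => Φ (t i) = τ).card := by
      have := Finset.card_eq_sum_card_fiberwise (s := (Finset.univ : Finset (Fin N))) (t := (Finset.univ : Finset G))
        (f := fun i => Φ (t i)) (fun i _ => Finset.mem_coe.2 (Finset.mem_univ _))
      rw [Finset.card_univ, Fintype.card_fin] at this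
      exact this
    have h6 : c * N < Fintype.card G * N := by
      calc c * N = ∑ τ : G, c * (Finset.univ.filter fun i => Φ (t i) = τ).card := by
            rw [← Finset.mul_sum, ← h5]
        _ < ∑ _τ : G, N := Finset.sum_lt_sum_of_nonempty ⟨0, Finset.mem_univ _⟩ fun τ _ => hcon τ
        _ = Fintype.card G * N := by
            rw [Finset.sum_const, Finset.card_univ, smul_eq_mul]
    have h7 : Fintype.card G * N ≤ c * N := Nat.mul_le_mul_right _ hG
    omega
  obtain ⟨σ, ι, hι, hI, hT⟩ := hN G (by nlinarith [Nat.one_le_iff_ne_zero.2 (show (N + 1) ^ 2 ≠ 0 by positivity)])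
    (fun S => Φ (s S)) (fun _ => Finset.univ.filter fun i => Φ (t i) = τ) (fun _ => hτ)
  choose r hr hr' using hT
  have hσ0 : σ ≠ 0 := by
    rw [← hr ∅]
    exact (map_ne_zero Φ).2 (hs0 _)
  refine ⟨fun i => x (ι i), fun i => t (ι i), fun T => y (r T), fun T => s (r T), g / (σ * τ), fun i => ht0 _,
    fun S => hs0 _, fun i S => h0 _ _, ?_, ?_⟩
  · intro i S j
    dsimp only
    have hval : (V j).valuation (x (ι i) + y (r S)) =
        (V j).valuation (s (r S) * t (ι i)) := by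
      rw [map_mul, ht, hsdef]
      dsimp only
      rw [map_div₀]
      rcases hA j with h | h
      · rw [h (ι i) z (r S), h (ι i) z ∅, div_self ((map_ne_zero _).2 (h0 z ∅)), mul_one]
      · rw [h (ι i) (r S) ∅, h z (r S) ∅]
        rw [mul_div_cancel₀]
        exact (map_ne_zero _).2 (h0 z ∅)
    have hne : (V j).valuation (s (r S) * t (ι i)) ≠ 0 :=
      (map_ne_zero _).2 (mul_ne_zero (hs0 _) (ht0 _))
    have h1' : (V j).valuation ((x (ι i) + y (r S)) / (s (r S) * t (ι i))) = 1 := by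
      rw [map_div₀, hval, div_self hne]
    refine ⟨?_, ?_⟩
    · rw [← ValuationSubring.valuation_le_one_iff, h1']
    · rw [← ValuationSubring.valuation_le_one_iff, map_inv₀, h1', inv_one]
  · intro i S
    dsimp only
    have hti : Φ (t (ι i)) = τ := (Finset.mem_filter.1 (hI i)).2
    have hτ0 : τ ≠ 0 := by
      rw [← hti]
      exact (map_ne_zero Φ).2 (ht0 _)
    rw [map_div₀, map_mul, hr S, hti, div_left_inj' (mul_ne_zero hσ0 hτ0), hg, hr']

end NU_

open NU_ in
theorem p_NU (h1 : T_SSH) (h2 : T_TRE) : T_NU := by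
  intro m c d
  rcases Nat.eq_zero_or_pos c with hc | hc
  · refine ⟨0, fun F _ V G _ _ hG => ?_⟩
    have : 0 < Fintype.card G := Fintype.card_pos_iff.2 ⟨0⟩
    omega
  obtain ⟨N4, hN4⟩ := step4 h1 c d hc
  obtain ⟨N2, hN2⟩ := step2 h2 m N4
  obtain ⟨N1, hN1⟩ := step1 h1 N2
  refine ⟨N1, fun F _ V G _ _ hG Φ x y g hg0 hg => ?_⟩
  have hx : Function.Injective x := by
    intro i j hij
    have h3 : Φ (x j + y {i}) = g := by
      rw [← hij]
      exact (hg i {i}).2 (Finset.mem_singleton_self i)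
    have h4 := (hg j {i}).1 h3
    exact (Finset.mem_singleton.1 h4).symm
  obtain ⟨ι1, s1, hr1, hz⟩ := hN1 F x y hx
  obtain ⟨ι2, s2, hr2, hA⟩ := hN2 F V (fun i => x (ι1 i)) (fun T => y (s1 T))
  refine hN4 F G hG m V Φ (fun i => x (ι1 (ι2 i))) (fun T => y (s1 (s2 T))) g ?_ ?_ hA
  · intro i S
    rw [hg]
    exact (hr2.comp hr1).2 S i
  · intro i S
    exact hz _ _

end NST
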