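import Pool.Agent.NST.TG

/-!
# NST: OF, finitely many valuation rings control the powers (helper49)
-/

set_option autoImplicit false

namespace NST

open Filter Polynomial

theorem OF_countable (K E : Type) [Field K] [Countable K] [Field E] [Algebra K E]
    [FiniteDimensional K E] : Countable E :=
  (Module.finBasis K E).equivFun.toEquiv.countable_iff.2 inferInstance

theorem p_OF (h1 : T_VF) (h2 : T_STB) (h3 : T_VM) (h4 : T_EM) (h5 : T_UT) : T_OF := by
  intro K E _ _ _ _ _ _ _ q hq hfin hvc
  obtain ⟨G, _, _, Φ, d, hΦ, hpow⟩ := h1 K E q hq hfin hvc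
  have : CharZero K := IsStrictOrderedRing.toCharZero
  have : CharZero E := charZero_of_injective_algebraMap (algebraMap K E).injective
  have : Countable E := OF_countable K E
  obtain ⟨s, hs1, hs2, hs3⟩ := h2 E G Φ d hΦ
  obtain ⟨he1, he2⟩ := h4 K E (Vord K) (h3 K).1
  refine ⟨s ∪ {V' : ValuationSubring (Lx E) | V'.comap (mapR (algebraMap K E)) = Vord K},
    ⟨hs1.union he1, ?_, ?_⟩⟩
  · rintro V (h | h)
    · exact hs2 V h
    · exact he2 V h
  · intro x hx hV
    obtain ⟨x', rfl⟩ := exists_mk x
    have a := hs3 (mk x') hx (fun V h => hV V (Or.inl h))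
    rw [Fs_mk_iff] at a
    have b := h5 K E x' (fun V' h => hV V' (Or.inr h))
    have c : ∀ᶠ n in (Uf : Filter ℕ), ∃ y, x' n = y ^ q := by
      filter_upwards [a, b] with n ha hb
      exact hpow _ hb ha
    exact mk_pow_iff.2 c

end NST
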