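import Pool.Agent.NST.TD

/-!
# NST-OV: extensions above a given valuation ring
-/

set_option autoImplicit false

noncomputable section

namespace NST

/-- the subring of the `x` with `x / f a ∈ A₁` for some nonzero `a ∈ O₂` -/
def OV_S (L L' : Type) [Field L] [Field L'] (f : L →+* L') (O₁ O₂ : ValuationSubring L)
    (A₁ : ValuationSubring L') (hc : A₁.comap f = O₁) : Subring L' where
  carrier := {x | ∃ a ∈ O₂, a ≠ 0 ∧ x / f a ∈ A₁}
  one_mem' := ⟨1, O₂.one_mem, one_ne_zero, by rw [map_one, div_one]; exact A₁.one_mem⟩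
  zero_mem' := ⟨1, O₂.one_mem, one_ne_zero, by rw [zero_div]; exact A₁.zero_mem⟩
  mul_mem' := by
    rintro x y ⟨a, ha, ha0, hxa⟩ ⟨b, hb, hb0, hyb⟩
    refine ⟨a * b, O₂.mul_mem _ _ ha hb, mul_ne_zero ha0 hb0, ?_⟩
    rw [map_mul, mul_div_mul_comm]
    exact A₁.mul_mem _ _ hxa hyb
  neg_mem' := by
    rintro x ⟨a, ha, ha0, hxa⟩
    refine ⟨a, ha, ha0, ?_⟩
    rw [neg_div]
    exact A₁.neg_mem _ hxa
  add_mem' := by
    have key : ∀ (x y : L') (a b : L), a ≠ 0 → b ≠ 0 → b ∈ O₂ → x / f a ∈ A₁ → y / f b ∈ A₁ →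
        a / b ∈ O₁ → ∃ c ∈ O₂, c ≠ 0 ∧ (x + y) / f c ∈ A₁ := by
      intro x y a b ha0 hb0 hb hxa hyb hab
      refine ⟨b, hb, hb0, ?_⟩
      have hfa : f a ≠ 0 := (map_ne_zero f).2 ha0
      have hfb : f b ≠ 0 := (map_ne_zero f).2 hb0
      have h1 : f (a / b) ∈ A₁ := by
        rw [← hc, ValuationSubring.mem_comap] at hab
        exact hab
      have h2 : (x + y) / f b = f (a / b) * (x / f a) + y / f b := by
        rw [map_div₀]
        field_simp
      rw [h2]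
      exact A₁.add_mem _ _ (A₁.mul_mem _ _ h1 hxa) hyb
    rintro x y ⟨a, ha, ha0, hxa⟩ ⟨b, hb, hb0, hyb⟩
    rcases O₁.mem_or_inv_mem (a / b) with h | h
    · exact key x y a b ha0 hb0 hb hxa hyb h
    · rw [inv_div] at h
      rw [add_comm x y]
      exact key y x b a hb0 ha0 ha hyb hxa h

theorem p_OV : T_OV := by
  intro L L' _ _ f O₁ O₂ A₁ hle hc
  have h1 : A₁.toSubring ≤ OV_S L L' f O₁ O₂ A₁ hc := by
    intro x hx
    exact ⟨1, O₂.one_mem, one_ne_zero, by rw [map_one, div_one]; exact hx⟩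
  refine ⟨ValuationSubring.ofLE A₁ _ h1, fun x hx => h1 hx, ?_⟩
  ext c
  rw [ValuationSubring.mem_comap]
  constructor
  · rintro ⟨a, ha, ha0, hxa⟩
    rw [← map_div₀, ← ValuationSubring.mem_comap, hc] at hxa
    have := O₂.mul_mem _ _ (hle hxa) ha
    rwa [div_mul_cancel₀ _ ha0] at this
  · intro h
    by_cases h0 : c = 0
    · rw [h0, map_zero]
      exact (OV_S L L' f O₁ O₂ A₁ hc).zero_mem
    · refine ⟨c, h, h0, ?_⟩
      rw [div_self ((map_ne_zero f).2 h0)]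
      exact A₁.one_mem

end NST
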