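import Pool.Agent.NST.TD

/-!
# NST-RF: residue field extension
-/

set_option autoImplicit false

noncomputable section

namespace NST

open Filter

namespace RF_

/-- the residue map kills exactly the nonunits -/
lemma res_iff {N : Type} [Field N] (A : ValuationSubring N) (a : A) :
    IsLocalRing.residue A a = 0 ↔ (a : N) ∈ A.nonunits := by
  rw [IsLocalRing.residue_eq_zero_iff, ValuationSubring.mem_nonunits_iff_exists_mem_maximalIdeal]
  constructor
  · intro h
    exact ⟨a.2, h⟩
  · rintro ⟨h, h'⟩
    exact h'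

/-- restriction of `f` to the valuation rings -/
def res {K N : Type} [Field K] [Field N] (f : K →+* N) (W : ValuationSubring K)
    (A : ValuationSubring N) (h : A.comap f = W) : W →+* A :=
  (f.comp W.subtype).codRestrict A.toSubring (fun a => by
    have h1 : (a : K) ∈ A.comap f := by rw [h]; exact a.2
    exact h1)

lemma res_coe {K N : Type} [Field K] [Field N] (f : K →+* N) (W : ValuationSubring K)
    (A : ValuationSubring N) (h : A.comap f = W) (a : W) : ((res f W A h a : A) : N) = f a := rfl

/-- linear independence lifts from the residue field -/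
lemma lift_li {K N : Type} [Field K] [Field N] (f : K →+* N) (W : ValuationSubring K)
    (A : ValuationSubring N) (k n : Type) [Field k] [Field n] (π : W →+* k)
    (ρ : A →+* n) (g : k →+* n) (hg : ∀ (a : W) (ha : f a ∈ A), ρ ⟨f a, ha⟩ = g (π a))
    (hA : A.comap f = W) {m : ℕ} (a : Fin m → A)
    (hli : ∀ c : Fin m → k, ∑ i, g (c i) * ρ (a i) = 0 → ∀ i, c i = 0)
    (c : Fin m → K) (hc : ∑ i, f (c i) * (a i : N) = 0) : ∀ i, c i = 0 := by
  by_contra hne
  push Not at hne
  obtain ⟨i1, hi1⟩ := hne
  obtain ⟨i0, -, hmax⟩ := Finset.exists_max_image Finset.univ (fun i => W.valuation (c i))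
    ⟨i1, Finset.mem_univ _⟩
  have h0 : c i0 ≠ 0 := by
    intro h
    have h1 := hmax i1 (Finset.mem_univ _)
    rw [h, map_zero] at h1
    exact hi1 ((W.valuation).zero_iff.1 (le_antisymm h1 zero_le))
  have hr : ∀ i, c i / c i0 ∈ W := by
    intro i
    rw [← ValuationSubring.valuation_le_one_iff, map_div₀]
    exact div_le_one_of_le₀ (hmax i (Finset.mem_univ _)) zero_le
  have hfr : ∀ i, f (c i / c i0) ∈ A := by
    intro i
    have h1 : c i / c i0 ∈ A.comap f := by rw [hA]; exact hr i
    exact h1
  have h2 : ∑ i, (⟨f (c i / c i0), hfr i⟩ : A) * a i = 0 := by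
    apply Subtype.ext
    have h3 : ((∑ i, (⟨f (c i / c i0), hfr i⟩ : A) * a i : A) : N) =
        ∑ i, f (c i / c i0) * (a i : N) := by
      rw [← ValuationSubring.subtype_apply, map_sum]
      rfl
    rw [h3]
    have h4 : ∑ i, f (c i / c i0) * (a i : N) = (f (c i0))⁻¹ * ∑ i, f (c i) * (a i : N) := by
      rw [Finset.mul_sum]
      refine Finset.sum_congr rfl fun i _ => ?_
      rw [map_div₀]
      field_simp
    rw [h4, hc, mul_zero]
    rfl
  have h5 : ∑ i, g (π ⟨c i / c i0, hr i⟩) * ρ (a i) = 0 := by
    have h6 := congrArg ρ h2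
    rw [map_sum, map_zero] at h6
    rw [← h6]
    refine Finset.sum_congr rfl fun i _ => ?_
    rw [map_mul, ← hg ⟨c i / c i0, hr i⟩ (hfr i)]
  have h7 := hli _ h5 i0
  have h8 : (⟨c i0 / c i0, hr i0⟩ : W) = 1 := Subtype.ext (div_self h0)
  rw [h8, map_one] at h7
  exact one_ne_zero h7

end RF_

theorem p_RF : T_RF := by
  intro K N _ _ f hf W A hA k _ π hπ hπ0
  have hker : RingHom.ker π ≤ RingHom.ker ((IsLocalRing.residue A).comp (RF_.res f W A hA)) := by
    intro a ha
    rw [RingHom.mem_ker] at ha ⊢
    rw [RingHom.comp_apply, RF_.res_iff, RF_.res_coe]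
    have h1 : (a : K) ∈ (A.comap f).nonunits := by
      have h2 := (hπ0 a).1 ha
      rwa [hA]
    exact (nu_comap f).1 h1
  set g : k →+* IsLocalRing.ResidueField A := π.liftOfSurjective hπ ⟨_, hker⟩ with hg
  have hg1 : ∀ (a : W) (ha : f a ∈ A), IsLocalRing.residue A ⟨f a, ha⟩ = g (π a) := by
    intro a ha
    rw [hg, RingHom.liftOfRightInverse_comp_apply]
    rfl
  refine ⟨IsLocalRing.ResidueField A, inferInstance, IsLocalRing.residue A, g,
    IsLocalRing.residue_surjective, RF_.res_iff A, hg1, ?_⟩
  let _ := f.toAlgebra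
  let _ := g.toAlgebra
  have hfin : Module.Finite K N := hf
  show Module.Finite k (IsLocalRing.ResidueField A)
  set b := Module.Basis.ofVectorSpace k (IsLocalRing.ResidueField A) with hb
  by_contra hnf
  have hinf : Infinite (Module.Basis.ofVectorSpaceIndex k (IsLocalRing.ResidueField A)) := by
    rw [← not_finite_iff_infinite]
    intro h
    exact hnf (Module.Finite.of_basis b)
  obtain ⟨e⟩ : Nonempty (Fin (Module.finrank K N + 1) ↪
      Module.Basis.ofVectorSpaceIndex k (IsLocalRing.ResidueField A)) :=
    ⟨Fin.valEmbedding.trans (Infinite.natEmbedding _)⟩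
  have hli := b.linearIndependent.comp e e.injective
  choose a ha using fun i : Fin (Module.finrank K N + 1) =>
    IsLocalRing.residue_surjective (R := A) (b (e i))
  have hN : LinearIndependent K (fun i => (a i : N)) := by
    rw [Fintype.linearIndependent_iff]
    intro c hc
    refine RF_.lift_li f W A k _ π (IsLocalRing.residue A) g hg1 hA a ?_ c hc
    intro c' hc'
    rw [Fintype.linearIndependent_iff] at hli
    refine hli c' ?_
    rw [← hc']
    refine Finset.sum_congr rfl fun i _ => ?_
    rw [ha i]
    rfl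
  have := hN.fintype_card_le_finrank
  rw [Fintype.card_fin] at this
  omega

end NST
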