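import Pool.Agent.NST.TD

set_option autoImplicit false

noncomputable section

namespace NST

open Polynomial

namespace RK_

/-- an automorphism group of order `2 ^ (m + 1)` has a nonsquare in its fixed field -/
theorem quad {A N : Type} [Group A] [Finite A] [Field N] [CharZero N] [MulSemiringAction A N]
    [FaithfulSMul A N] (m : ℕ) (hcard : Nat.card A = 2 ^ (m + 1))
    (hsq : ∀ x : N, (∀ a : A, a • x = x) → ∃ s : N, (∀ a : A, a • s = s) ∧ s ^ 2 = x) :
    False := by
  classical
  have : Fact (Nat.Prime 2) := ⟨Nat.prime_two⟩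
  obtain ⟨K, hK⟩ := Sylow.exists_subgroup_card_pow_prime (G := A) 2 (n := m)
    (by rw [hcard]; exact pow_dvd_pow 2 (Nat.le_succ m))
  have hidx : K.index = 2 := by
    have h1 := K.card_mul_index
    rw [hK, hcard, pow_succ] at h1
    exact Nat.eq_of_mul_eq_mul_left (by positivity) h1
  have hnorm : K.Normal := Subgroup.normal_of_index_eq_two hidx
  have hex : ∃ x : N, (∀ k ∈ K, k • x = x) ∧ ∃ a : A, a • x ≠ x := by
    by_contra hcon
    push Not at hcon
    have hAf : Fintype A := Fintype.ofFinite A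
    have hKf : Fintype K := Fintype.ofFinite K
    have h1 := FixedPoints.finrank_eq_card A N
    have h2 := FixedPoints.finrank_eq_card K N
    have h3 : FixedPoints.subfield K N = FixedPoints.subfield A N := by
      ext x
      constructor
      · intro hx a
        exact hcon x (fun k hk => hx ⟨k, hk⟩) a
      · intro hx k
        exact hx k
    rw [h3, h1, ← Nat.card_eq_fintype_card, ← Nat.card_eq_fintype_card, hK, hcard] at h2
    have h4 : 2 ^ (m + 1) = 2 ^ m * 2 := pow_succ 2 m
    have h5 : 0 < 2 ^ m := by positivity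
    omega
  obtain ⟨x, hxK, a, hax⟩ := hex
  have haK : a ∉ K := fun h => hax (hxK a h)
  have ha2 : a • a • x = x := by
    rw [smul_smul]
    exact hxK _ (Subgroup.mul_self_mem_of_index_two hidx a)
  have hkax : ∀ k ∈ K, k • a • x = a • x := by
    intro k hk
    have h1 : a⁻¹ * k * a ∈ K := by
      have := hnorm.conj_mem k hk a⁻¹
      rwa [inv_inv] at this
    have h2 := hxK _ h1
    have h3 : k * a = a * (a⁻¹ * k * a) := by group
    rw [smul_smul, h3, ← smul_smul, h2]
  have hy0 : x - a • x ≠ 0 := fun h => hax (sub_eq_zero.1 h).symm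
  have hay : a • (x - a • x) = -(x - a • x) := by
    rw [smul_sub, ha2]
    ring
  have hky : ∀ k ∈ K, k • (x - a • x) = x - a • x := by
    intro k hk
    rw [smul_sub, hxK k hk, hkax k hk]
  obtain ⟨s, hs, hs2⟩ := hsq ((x - a • x) ^ 2) (by
    intro g
    by_cases hg : g ∈ K
    · rw [smul_pow', hky g hg]
    · have h1 : g * a⁻¹ ∈ K := by
        rw [Subgroup.mul_mem_iff_of_index_two hidx, K.inv_mem_iff]
        exact ⟨fun h => absurd h hg, fun h => absurd h haK⟩
      have h2 : g = g * a⁻¹ * a := by group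
      rw [smul_pow', h2, ← smul_smul, hay, smul_neg, hky _ h1, neg_sq])
  have h1 : s = x - a • x ∨ s = -(x - a • x) := sq_eq_sq_iff_eq_or_eq_neg.1 hs2
  have h2 : a • (x - a • x) = x - a • x := by
    rcases h1 with h1 | h1
    · rw [← h1]
      exact hs a
    · have h3 : x - a • x = -s := by rw [h1, neg_neg]
      rw [h3, smul_neg, hs a]
  rw [hay] at h2
  have h3 : (2 : N) * (x - a • x) = 0 := by linear_combination -h2
  rcases mul_eq_zero.1 h3 with h4 | h4
  · exact two_ne_zero h4
  · exact hy0 h4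

/-- nonnegative elements have square roots -/
theorem sqr {K : Type} [Field K] [LinearOrder K] [IsStrictOrderedRing K] (hK : IsRealClosed K)
    (x : K) (hx : 0 ≤ x) : ∃ y, 0 ≤ y ∧ y ^ 2 = x := by
  obtain ⟨y, hy⟩ := IsRealClosed.nonneg_iff_isSquare.1 hx
  exact ⟨|y|, abs_nonneg y, by rw [sq_abs, hy, sq]⟩

/-- square roots in `K(i)` -/
theorem sqi {K : Type} [Field K] [LinearOrder K] [IsStrictOrderedRing K] (hK : IsRealClosed K)
    (a b : K) : ∃ u v : K, u ^ 2 - v ^ 2 = a ∧ 2 * u * v = b := by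
  obtain ⟨c, hc0, hc⟩ := sqr hK (a ^ 2 + b ^ 2) (by positivity)
  have hac : |a| ≤ c := abs_le_of_sq_le_sq (by rw [hc]; nlinarith [sq_nonneg b]) hc0
  obtain ⟨h1, h2⟩ := abs_le.1 hac
  obtain ⟨u, -, hu⟩ := sqr hK ((c + a) / 2) (by linarith)
  obtain ⟨v, -, hv⟩ := sqr hK ((c - a) / 2) (by linarith)
  have huv : (2 * u * v) ^ 2 = b ^ 2 := by
    have : (2 * u * v) ^ 2 = 4 * u ^ 2 * v ^ 2 := by ring
    rw [this, hu, hv]
    linear_combination hc
  rcases sq_eq_sq_iff_eq_or_eq_neg.1 huv with h5 | h5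
  · exact ⟨u, v, by rw [hu, hv]; ring, h5⟩
  · exact ⟨u, -v, by rw [neg_sq, hu, hv]; ring, by linear_combination -h5⟩

/-- a finite extension of odd degree is trivial -/
theorem odd {K : Type} [Field K] [CharZero K] (hK : IsRealClosed K) (E : Type) [Field E]
    [Algebra K E] [FiniteDimensional K E] (hodd : Odd (Module.finrank K E)) :
    Module.finrank K E = 1 := by
  obtain ⟨α, hα⟩ := Field.exists_primitive_element K E
  have hint : IsIntegral K α := IsIntegral.of_finite K α
  have h1 := IntermediateField.adjoin.finrank hint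
  rw [hα, IntermediateField.finrank_top'] at h1
  obtain ⟨x, hx⟩ := IsRealClosed.exists_isRoot_of_odd_natDegree (f := minpoly K α)
    (by rw [← h1]; exact hodd)
  have h2 := Polynomial.degree_eq_one_of_irreducible_of_root (minpoly.irreducible hint) hx
  rw [h1]
  exact Polynomial.natDegree_eq_of_degree_eq_some h2

theorem main {K : Type} [Field K] [LinearOrder K] [IsStrictOrderedRing K] (hK : IsRealClosed K)
    (P : Type) [Field P] [Algebra K P] [FiniteDimensional K P] [IsGalois K P] (J : P)
    (hJ : J ^ 2 = -1) : Module.finrank K P ≤ 2 := by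
  classical
  have : Fact (Nat.Prime 2) := ⟨Nat.prime_two⟩
  have hch : CharZero P := charZero_of_injective_algebraMap (algebraMap K P).injective
  have hJ0 : J ≠ 0 := by
    rintro rfl
    norm_num at hJ
  have hgJ : ∀ g : P ≃ₐ[K] P, g J = J ∨ g J = -J := by
    intro g
    apply sq_eq_sq_iff_eq_or_eq_neg.1
    rw [← map_pow, hJ, map_neg, map_one]
  -- an automorphism moving `J`
  obtain ⟨τ, hτ⟩ : ∃ τ : P ≃ₐ[K] P, τ J = -J := by
    by_contra hcon
    push Not at hcon
    have h1 : ∀ g : P ≃ₐ[K] P, g J = J := fun g => (hgJ g).resolve_right (hcon g)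
    obtain ⟨x, hx⟩ := (IsGalois.mem_range_algebraMap_iff_fixed J).2 h1
    have h2 : x ^ 2 = -1 := by
      apply (algebraMap K P).injective
      rw [map_pow, hx, hJ, map_neg, map_one]
    nlinarith [sq_nonneg x]
  have hτ' : τ⁻¹ J = -J := by
    have h1 : τ⁻¹ (τ J) = J := by
      rw [← AlgEquiv.mul_apply, inv_mul_cancel, AlgEquiv.one_apply]
    rw [hτ, map_neg] at h1
    exact neg_eq_iff_eq_neg.1 h1
  -- the group is a 2-group
  obtain ⟨S⟩ : Nonempty (Sylow 2 (P ≃ₐ[K] P)) := inferInstance
  obtain ⟨n, hn⟩ := (IsPGroup.iff_card).1 S.isPGroup'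
  have hidx1 : S.1.index = 1 := by
    have h1 : Module.finrank K (IntermediateField.fixedField S.1) = S.1.index := by
      have h2 := Module.finrank_mul_finrank K (IntermediateField.fixedField S.1) P
      rw [IntermediateField.finrank_fixedField_eq_card, ← IsGalois.card_aut_eq_finrank K P,
        ← S.1.card_mul_index, mul_comm] at h2
      exact Nat.eq_of_mul_eq_mul_left Nat.card_pos h2
    rw [← h1]
    apply odd hK
    rw [h1, ← Nat.not_even_iff_odd, even_iff_two_dvd]
    exact S.not_dvd_index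
  have hcardG : Nat.card (P ≃ₐ[K] P) = 2 ^ n := by
    rw [← S.1.card_mul_index, hidx1, mul_one]
    exact hn
  -- the stabilizer of `J`
  have hmem : ∀ g : P ≃ₐ[K] P, g ∈ MulAction.stabilizer (P ≃ₐ[K] P) J ↔ g J = J :=
    fun g => Iff.rfl
  have hJne : J ≠ -J := by
    intro h
    have h2 : (2 : P) * J = 0 := by linear_combination h
    rcases mul_eq_zero.1 h2 with h3 | h3
    · exact two_ne_zero h3
    · exact hJ0 h3
  have hidx : (MulAction.stabilizer (P ≃ₐ[K] P) J).index = 2 := by
    rw [Subgroup.index_eq_two_iff]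
    refine ⟨τ, fun b => ?_⟩
    have e1 : b * τ ∈ MulAction.stabilizer (P ≃ₐ[K] P) J ↔ b (τ J) = J := Iff.rfl
    have e2 : b ∈ MulAction.stabilizer (P ≃ₐ[K] P) J ↔ b J = J := Iff.rfl
    rw [e1, e2, hτ, map_neg]
    rcases hgJ b with h | h
    · rw [h]
      exact Or.inr ⟨rfl, fun h' => hJne h'.symm⟩
    · rw [h, neg_neg]
      exact Or.inl ⟨rfl, fun h' => hJne h'.symm⟩
  have hcard := (MulAction.stabilizer (P ≃ₐ[K] P) J).card_mul_index
  rw [hidx, hcardG] at hcard
  -- squares
  have hsq : ∀ x : P, (∀ g : P ≃ₐ[K] P, g J = J → g x = x) →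
      ∃ s : P, (∀ g : P ≃ₐ[K] P, g J = J → g s = s) ∧ s ^ 2 = x := by
    intro x hx
    have key : ∀ g : P ≃ₐ[K] P, (g J = J ∧ g x = x ∧ g (τ x) = τ x) ∨
        (g J = -J ∧ g x = τ x ∧ g (τ x) = x) := by
      intro g
      have hback : ∀ y z : P, τ⁻¹ y = z → y = τ z := by
        intro y z h
        rw [← h, ← AlgEquiv.mul_apply, mul_inv_cancel, AlgEquiv.one_apply]
      rcases hgJ g with h | h
      · refine Or.inl ⟨h, hx g h, ?_⟩
        have h3 := hx (τ⁻¹ * g * τ) (by
          rw [AlgEquiv.mul_apply, AlgEquiv.mul_apply, hτ, map_neg, h, map_neg, hτ', neg_neg])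
        rw [AlgEquiv.mul_apply, AlgEquiv.mul_apply] at h3
        exact hback _ _ h3
      · refine Or.inr ⟨h, ?_, ?_⟩
        · have h3 := hx (τ⁻¹ * g) (by
            rw [AlgEquiv.mul_apply, h, map_neg, hτ', neg_neg])
          rw [AlgEquiv.mul_apply] at h3
          exact hback _ _ h3
        · have h3 := hx (g * τ) (by
            rw [AlgEquiv.mul_apply, hτ, map_neg, h, neg_neg])
          rw [AlgEquiv.mul_apply] at h3
          exact h3
    have h2 : (2 : P) ≠ 0 := two_ne_zero
    have hα : ∀ g : P ≃ₐ[K] P, g ((x + τ x) / 2) = (x + τ x) / 2 := by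
      intro g
      rw [map_div₀, map_add, map_ofNat]
      rcases key g with ⟨-, h3, h4⟩ | ⟨-, h3, h4⟩
      · rw [h3, h4]
      · rw [h3, h4, add_comm]
    have hβ : ∀ g : P ≃ₐ[K] P, g ((x - τ x) / (2 * J)) = (x - τ x) / (2 * J) := by
      intro g
      rw [map_div₀, map_sub, map_mul, map_ofNat]
      rcases key g with ⟨h1, h3, h4⟩ | ⟨h1, h3, h4⟩
      · rw [h1, h3, h4]
      · rw [h1, h3, h4]
        field_simp
        ring
    obtain ⟨a, ha⟩ := (IsGalois.mem_range_algebraMap_iff_fixed _).2 hα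
    obtain ⟨b, hb⟩ := (IsGalois.mem_range_algebraMap_iff_fixed _).2 hβ
    obtain ⟨u, v, huv, huv'⟩ := sqi hK a b
    refine ⟨algebraMap K P u + algebraMap K P v * J, fun g h => ?_, ?_⟩
    · rw [map_add, map_mul, g.commutes, g.commutes, h]
    · have h5 : (algebraMap K P u) ^ 2 - (algebraMap K P v) ^ 2 = (x + τ x) / 2 := by
        rw [← ha, ← huv, map_sub, map_pow, map_pow]
      have h6 : 2 * algebraMap K P u * algebraMap K P v = (x - τ x) / (2 * J) := by
        rw [← hb, ← huv', map_mul, map_mul, map_ofNat]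
      have h7 : (x + τ x) / 2 + (x - τ x) / (2 * J) * J = x := by
        field_simp
        ring
      linear_combination h5 + J * h6 + (algebraMap K P v) ^ 2 * hJ + h7
  have hn1 : n = 1 := by
    rcases n with _ | _ | m
    · exfalso
      rw [pow_zero] at hcard
      omega
    · rfl
    · exfalso
      have h1 : Nat.card (MulAction.stabilizer (P ≃ₐ[K] P) J) = 2 ^ (m + 1) := by
        have h3 : 2 ^ (m + 1 + 1) = 2 ^ (m + 1) * 2 := pow_succ 2 (m + 1)
        omega
      refine quad (A := MulAction.stabilizer (P ≃ₐ[K] P) J) (N := P) m h1 fun x hx => ?_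
      obtain ⟨s, hs, hs2⟩ := hsq x fun g h => hx ⟨g, h⟩
      exact ⟨s, fun a => hs a.1 a.2, hs2⟩
  rw [← IsGalois.card_aut_eq_finrank, hcardG, hn1, pow_one]

end RK_

theorem p_RK : T_RK := by
  classical
  intro K _ _ _ hK N _ _ _
  obtain ⟨t, ht⟩ := Field.exists_primitive_element K N
  have hint : IsIntegral K t := IsIntegral.of_finite K t
  let Ω := AlgebraicClosure N
  let q : K[X] := minpoly K t * (X ^ 2 + 1)
  have hq2 : (X ^ 2 + 1 : K[X]) ≠ 0 := by
    intro h
    have := congrArg (Polynomial.eval 0) h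
    simp at this
  have hq : q ≠ 0 := mul_ne_zero (minpoly.ne_zero hint) hq2
  let P : IntermediateField K Ω := IntermediateField.adjoin K (q.rootSet Ω)
  have hsplit : q.IsSplittingField K P :=
    IntermediateField.adjoin_rootSet_isSplittingField (IsAlgClosed.splits _)
  have h1 : FiniteDimensional K P := IsSplittingField.finiteDimensional _ q
  have h2 : Normal K P := Normal.of_isSplittingField q
  have h3 : IsGalois K P := ⟨⟩
  obtain ⟨j, hj⟩ : ∃ j : Ω, j ^ 2 = -1 := by
    obtain ⟨j, hj⟩ := IsAlgClosed.exists_pow_nat_eq (-1 : Ω) (n := 2) (by norm_num)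
    exact ⟨j, hj⟩
  have hjP : j ∈ P := by
    apply IntermediateField.subset_adjoin
    rw [mem_rootSet]
    refine ⟨hq, ?_⟩
    simp [q, hj]
  have htP : algebraMap N Ω t ∈ P := by
    apply IntermediateField.subset_adjoin
    rw [mem_rootSet]
    refine ⟨hq, ?_⟩
    simp only [q, map_mul]
    rw [aeval_algebraMap_apply, minpoly.aeval, map_zero, zero_mul]
  have hP := RK_.main hK P ⟨j, hjP⟩ (Subtype.ext hj)
  refine le_trans ?_ hP
  -- the inclusion
  have hle : (IsScalarTower.toAlgHom K N Ω).fieldRange ≤ P := by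
    rintro _ ⟨x, rfl⟩
    have hx : x ∈ IntermediateField.adjoin K {t} := by rw [ht]; trivial
    have h4 : IntermediateField.adjoin K {t} ≤ P.comap (IsScalarTower.toAlgHom K N Ω) := by
      rw [IntermediateField.adjoin_simple_le_iff]
      exact htP
    exact h4 hx
  let φ : N →ₐ[K] P := (IsScalarTower.toAlgHom K N Ω).codRestrict P.toSubalgebra
    (fun x => hle ⟨x, rfl⟩)
  exact LinearMap.finrank_le_finrank_of_injective (f := φ.toLinearMap) φ.injective

end NST
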