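import Pool.Agent.NST.TD

/-!
# NST-RO: the ordered residue field of a convex valuation ring
-/

set_option autoImplicit false

namespace NST

open Polynomial

namespace RO_

variable {K : Type} [Field K] [LinearOrder K] [IsStrictOrderedRing K]

lemma nonunits_cvx {O : ValuationSubring K} (hC : Cvx O) {x y : K} (h : |x| ≤ |y|)
    (hy : y ∈ O.nonunits) : x ∈ O.nonunits := by
  rw [ValuationSubring.mem_nonunits_iff] at hy ⊢
  by_contra hx
  push Not at hx
  have hx0 : x ≠ 0 := by
    rintro rfl
    rw [map_zero] at hx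
    exact absurd hx (not_le.2 zero_lt_one)
  have hxp : 0 < |x| := abs_pos.2 hx0
  have hyp : 0 < |y| := lt_of_lt_of_le hxp h
  have hy0 : y ≠ 0 := abs_pos.1 hyp
  have hxi : x⁻¹ ∈ O := by
    rw [← ValuationSubring.valuation_le_one_iff, map_inv₀]
    exact inv_le_one_of_one_le₀ hx
  have hyi : y⁻¹ ∈ O := by
    refine hC _ _ ?_ hxi
    rw [abs_inv, abs_inv]
    exact inv_anti₀ hxp h
  rw [← ValuationSubring.valuation_le_one_iff, map_inv₀] at hyi
  have hv0 : 0 < O.valuation y := by
    rw [zero_lt_iff]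
    exact (Valuation.ne_zero_iff _).2 hy0
  have : (1 : O.ValueGroup) ≤ O.valuation y := by
    have := (inv_le_one₀ hv0).1 hyi
    exact this
  exact absurd hy (not_lt.2 this)

lemma res_zero_iff {O : ValuationSubring K} (a : O) :
    IsLocalRing.residue O a = 0 ↔ (a : K) ∈ O.nonunits := by
  rw [IsLocalRing.residue_eq_zero_iff]
  constructor
  · intro h
    exact ValuationSubring.mem_nonunits_iff_exists_mem_maximalIdeal.2 ⟨a.2, h⟩
  · intro h
    obtain ⟨ha, h1⟩ := ValuationSubring.mem_nonunits_iff_exists_mem_maximalIdeal.1 h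
    exact h1

/-- the cone of residues of nonnegative elements -/
def cone (O : ValuationSubring K) (hC : Cvx O) : RingCone (IsLocalRing.ResidueField O) where
  carrier := {c | ∃ a : O, (0 : K) ≤ a ∧ IsLocalRing.residue O a = c}
  mul_mem' := by
    rintro _ _ ⟨a, ha, rfl⟩ ⟨b, hb, rfl⟩
    exact ⟨a * b, by push_cast; exact mul_nonneg ha hb, map_mul _ _ _⟩
  one_mem' := ⟨1, by push_cast; exact zero_le_one, map_one _⟩
  add_mem' := by
    rintro _ _ ⟨a, ha, rfl⟩ ⟨b, hb, rfl⟩
    exact ⟨a + b, by push_cast; exact add_nonneg ha hb, map_add _ _ _⟩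
  zero_mem' := ⟨0, by push_cast; exact le_refl _, map_zero _⟩
  eq_zero_of_mem_of_neg_mem' := by
    rintro c ⟨a, ha, rfl⟩ ⟨b, hb, hbc⟩
    have h1 : IsLocalRing.residue O (a + b) = 0 := by
      rw [map_add, hbc]; ring
    rw [res_zero_iff] at h1
    rw [res_zero_iff]
    refine nonunits_cvx hC ?_ h1
    push_cast
    rw [abs_of_nonneg ha, abs_of_nonneg (add_nonneg ha hb)]
    linarith

lemma mem_cone (O : ValuationSubring K) (hC : Cvx O) (c : IsLocalRing.ResidueField O) :
    c ∈ cone O hC ↔ ∃ a : O, (0 : K) ≤ a ∧ IsLocalRing.residue O a = c := Iff.rfl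

instance total (O : ValuationSubring K) (hC : Cvx O) : HasMemOrNegMem (cone O hC) where
  mem_or_neg_mem := by
    intro c
    obtain ⟨a, rfl⟩ := IsLocalRing.residue_surjective c
    rcases le_total (0 : K) a with h | h
    · exact Or.inl ⟨a, h, rfl⟩
    · exact Or.inr ⟨-a, by push_cast; linarith, map_neg _ _⟩

end RO_

open RO_ in
open scoped Classical in
/-- the ordered residue field -/
theorem p_RO : T_RO := by
  intro K _ _ _ O hC
  letI lo : LinearOrder (IsLocalRing.ResidueField O) := LinearOrder.mkOfAddGroupCone (cone O hC)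
  haveI : IsOrderedRing (IsLocalRing.ResidueField O) := IsOrderedRing.mkOfCone (cone O hC)
  haveI : IsStrictOrderedRing (IsLocalRing.ResidueField O) := IsOrderedRing.toIsStrictOrderedRing _
  refine ⟨IsLocalRing.ResidueField O, inferInstance, lo, inferInstance, IsLocalRing.residue O, ?_⟩
  refine ⟨IsLocalRing.residue_surjective, fun a => res_zero_iff a, ?_⟩
  intro a b hab
  show IsLocalRing.residue O b - IsLocalRing.residue O a ∈ cone O hC
  exact ⟨b - a, by push_cast; linarith, map_sub _ _ _⟩

end NST
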