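import Pool.Agent.NST.TG

/-!
# NST, target SN1: strongly NIP structures satisfy NIP for formulas in one variable
-/

set_option autoImplicit false

noncomputable section

namespace NST

open Filter Polynomial FirstOrder

namespace SN1_

/-- the ultrapower -/
abbrev UP (K : Type) : Type := (((Filter.hyperfilter ℕ : Ultrafilter ℕ) : Filter ℕ)).Product (fun _ : ℕ => K)

theorem ee (K : Type) [Nonempty K] [NFV.Lor.Structure K] :
    NFV.Lor.ElementarilyEquivalent (UP K) K := by
  rw [FirstOrder.Language.elementarilyEquivalent_iff]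
  intro φ
  rw [FirstOrder.Language.Ultraproduct.sentence_realize]
  simp

end SN1_

theorem p_SN1 : T_SN1 := by
  classical
  intro K _ _ hS
  by_contra hN
  unfold NIP1 at hN
  push Not at hN
  obtain ⟨m, φ, hN⟩ := hN
  choose a ha using hN
  let A : ℕ → ℕ → ℕ → Fin m → K := fun i j n k =>
    if h : Nat.pair i j < n then a n ⟨Nat.pair i j, h⟩ k else Classical.arbitrary K
  refine hS (SN1_.UP K) (SN1_.ee K) (fun _ => m) (fun _ => φ)
    (fun i j k => ((fun n => A i j n k : ℕ → K) : SN1_.UP K)) ?_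
  intro η N
  choose x hx using fun n => ha n {p : Fin n | ∃ i j, (p : ℕ) = Nat.pair i j ∧ j = η i}
  refine ⟨((x : ℕ → K) : SN1_.UP K), fun i _ j _ => ?_⟩
  have h1 : (Sum.elim (fun _ : Unit => ((x : ℕ → K) : SN1_.UP K))
      (fun k => ((fun n => A i j n k : ℕ → K) : SN1_.UP K)) : Unit ⊕ Fin m → SN1_.UP K) =
      fun v => (((Sum.elim (fun _ : Unit => x) (fun (k : Fin m) (n : ℕ) => A i j n k) :
        Unit ⊕ Fin m → ℕ → K) v : ℕ → K) : SN1_.UP K) := by
    funext v
    cases v <;> rfl
  refine (iff_of_eq (congrArg φ.Realize h1)).trans ?_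
  refine (FirstOrder.Language.Ultraproduct.realize_formula_cast (M := fun _ : ℕ => K)
    (u := Filter.hyperfilter ℕ) φ
    (Sum.elim (fun _ : Unit => x) (fun (k : Fin m) (n : ℕ) => A i j n k))).trans ?_
  have h2 : ∀ᶠ n in ((Filter.hyperfilter ℕ : Ultrafilter ℕ) : Filter ℕ), Nat.pair i j < n := by
    apply Filter.Eventually.filter_mono (Nat.hyperfilter_le_atTop)
    exact Filter.eventually_gt_atTop _
  have h3 : ∀ᶠ n in ((Filter.hyperfilter ℕ : Ultrafilter ℕ) : Filter ℕ),
      (φ.Realize (fun v => (Sum.elim (fun _ : Unit => x) (fun (k : Fin m) (n : ℕ) => A i j n k) :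
        Unit ⊕ Fin m → ℕ → K) v n) ↔ j = η i) := by
    filter_upwards [h2] with n hn
    have h4 := hx n ⟨Nat.pair i j, hn⟩
    have h5 : (fun v => (Sum.elim (fun _ : Unit => x) (fun (k : Fin m) (n : ℕ) => A i j n k) :
        Unit ⊕ Fin m → ℕ → K) v n) = Sum.elim (fun _ => x n) (a n ⟨Nat.pair i j, hn⟩) := by
      funext v
      cases v with
      | inl _ => rfl
      | inr k =>
        show A i j n k = a n ⟨Nat.pair i j, hn⟩ k
        simp only [A, dif_pos hn]
    rw [h5, h4]
    constructor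
    · rintro ⟨i', j', h6, h7⟩
      have h8 := Nat.pair_eq_pair.1 h6
      rw [h8.1, h8.2]
      exact h7
    · intro h
      exact ⟨i, j, rfl, h⟩
  rw [Filter.eventually_congr h3]
  simp

end NST
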