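import Pool.Agent.NST.TG

/-!
# NST: NIP for formulas in one variable implies NIP (job SN2)
-/

set_option autoImplicit false

noncomputable section

namespace NST

open FirstOrder

namespace SN2_

theorem vcd_mono {X Y : Type} {R : X → Y → Prop} {d e : ℕ} (hde : d ≤ e) (h : VCd R d) :
    VCd R e := by
  intro a
  obtain ⟨S, hS⟩ := h fun i => a (Fin.castLE hde i)
  refine ⟨{i | ∃ j ∈ S, Fin.castLE hde j = i}, fun x hx => hS x fun i => ?_⟩
  rw [hx (Fin.castLE hde i)]
  constructor
  · rintro ⟨j, hj, hji⟩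
    rwa [Fin.castLE_injective hde hji] at hj
  · intro hi
    exact ⟨i, hi, rfl⟩

variable {K : Type} [NFV.Lor.Structure K]

/-- renaming of the variables: the first variable becomes a parameter -/
def r1 (m k : ℕ) : Fin (m + 1) ⊕ Fin k → Fin m ⊕ Fin (k + 1) :=
  Sum.elim (Fin.cons (Sum.inr 0) fun i => Sum.inl i) fun j => Sum.inr j.succ

theorem realize_r1 {m k : ℕ} (φ : NFV.Lor.Formula (Fin (m + 1) ⊕ Fin k)) (z : K)
    (x' : Fin m → K) (y : Fin k → K) :
    (φ.relabel (r1 m k)).Realize (Sum.elim x' (Fin.cons z y : Fin (k + 1) → K)) ↔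
      φ.Realize (Sum.elim (Fin.cons z x' : Fin (m + 1) → K) y) := by
  rw [Language.Formula.realize_relabel]
  have h : (Sum.elim x' (Fin.cons z y : Fin (k + 1) → K)) ∘ r1 m k =
      Sum.elim (Fin.cons z x' : Fin (m + 1) → K) y := by
    funext i
    rcases i with i | j
    · refine Fin.cases ?_ (fun i => ?_) i
      · simp [r1]
      · simp [r1]
    · simp [r1]
  rw [h]

/-- renaming of the variables for the `i`-th parameter tuple -/
def r2 (m k d : ℕ) (i : Fin d) : Fin (m + 1) ⊕ Fin k → (Unit ⊕ Fin (d * k)) ⊕ Fin m :=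
  Sum.elim (Fin.cons (Sum.inl (Sum.inl ())) fun j => Sum.inr j)
    fun l => Sum.inl (Sum.inr (finProdFinEquiv (i, l)))

theorem realize_r2 {m k d : ℕ} (i : Fin d) (φ : NFV.Lor.Formula (Fin (m + 1) ⊕ Fin k)) (z : K)
    (x' : Fin m → K) (w : Fin (d * k) → K) :
    (φ.relabel (r2 m k d i)).Realize (Sum.elim (Sum.elim (fun _ => z) w) x') ↔
      φ.Realize (Sum.elim (Fin.cons z x' : Fin (m + 1) → K)
        fun l => w (finProdFinEquiv (i, l))) := by
  rw [Language.Formula.realize_relabel]
  have h : (Sum.elim (Sum.elim (fun _ => z) w) x') ∘ r2 m k d i =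
      Sum.elim (Fin.cons z x' : Fin (m + 1) → K) fun l => w (finProdFinEquiv (i, l)) := by
    funext i
    rcases i with i | j
    · refine Fin.cases ?_ (fun i => ?_) i
      · simp [r2]
      · simp [r2]
    · simp [r2]
  rw [h]

open Classical in
/-- some `x'` has the pattern `P` on the `d` parameter tuples -/
def pat {m k d : ℕ} (φ : NFV.Lor.Formula (Fin (m + 1) ⊕ Fin k)) (P : Set (Fin d)) :
    NFV.Lor.Formula (Unit ⊕ Fin (d * k)) :=
  Language.Formula.iExs (Fin m) (Language.Formula.iInf fun i : Fin d =>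
    if i ∈ P then φ.relabel (r2 m k d i) else (φ.relabel (r2 m k d i)).not)

theorem realize_pat {m k d : ℕ} (φ : NFV.Lor.Formula (Fin (m + 1) ⊕ Fin k)) (P : Set (Fin d))
    (z : K) (w : Fin (d * k) → K) :
    (pat φ P).Realize (Sum.elim (fun _ => z) w) ↔ ∃ x' : Fin m → K, ∀ i,
      (φ.Realize (Sum.elim (Fin.cons z x' : Fin (m + 1) → K)
        fun l => w (finProdFinEquiv (i, l))) ↔ i ∈ P) := by
  unfold pat
  rw [Language.Formula.realize_iExs]
  refine exists_congr fun x' => ?_
  rw [Language.Formula.realize_iInf]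
  refine forall_congr' fun i => ?_
  by_cases hi : i ∈ P
  · rw [if_pos hi, realize_r2]
    simp only [hi, iff_true]
  · rw [if_neg hi, Language.Formula.realize_not, realize_r2]
    simp only [hi, iff_false]

end SN2_

open SN2_ in
/-- **SN2.** -/
theorem p_SN2 (h1 : T_SNC) : T_SN2 := by
  intro K _ hK m
  induction m with
  | zero =>
    intro k φ
    refine ⟨1, fun a => ?_⟩
    by_cases h : φ.Realize (Sum.elim (Fin.elim0 : Fin 0 → K) (a 0))
    · refine ⟨∅, fun x hx => ?_⟩
      have h2 : x = Fin.elim0 := Subsingleton.elim _ _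
      have h3 := hx 0
      rw [h2] at h3
      exact (h3.mp h).elim
    · refine ⟨Set.univ, fun x hx => ?_⟩
      have h2 : x = Fin.elim0 := Subsingleton.elim _ _
      have h3 := hx 0
      rw [h2] at h3
      exact h (h3.mpr (Set.mem_univ _))
  | succ m ih =>
    intro k φ
    obtain ⟨d, hd⟩ := ih (k + 1) (φ.relabel (r1 m k))
    choose n hn using fun P : Set (Fin d) => hK (d * k) (pat φ P)
    obtain ⟨e, he⟩ : ∃ e, ∀ P, n P ≤ e := by
      obtain ⟨e, he⟩ := (Set.finite_range n).bddAbove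
      exact ⟨e, fun P => he ⟨P, rfl⟩⟩
    obtain ⟨N, hN⟩ := h1 d e
    have key := hN K (Fin m → K) (Fin k → K)
      (fun z x' y => φ.Realize (Sum.elim (Fin.cons z x' : Fin (m + 1) → K) y)) ?_ ?_
    · refine ⟨N, fun a => ?_⟩
      obtain ⟨S, hS⟩ := key a
      refine ⟨S, fun x hx => hS (x 0, Fin.tail x) fun i => ?_⟩
      have h2 : (Fin.cons (x 0) (Fin.tail x) : Fin (m + 1) → K) = x := Fin.cons_self_tail x
      show φ.Realize (Sum.elim (Fin.cons (x 0) (Fin.tail x) : Fin (m + 1) → K) (a i)) ↔ i ∈ S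
      rw [h2]
      exact hx i
    · intro z a
      obtain ⟨S, hS⟩ := hd fun i => (Fin.cons z (a i) : Fin (k + 1) → K)
      refine ⟨S, fun x' hx => hS x' fun i => ?_⟩
      rw [realize_r1]
      exact hx i
    · intro P
      refine vcd_mono (he P) ?_
      intro a
      obtain ⟨S, hS⟩ := hn P fun j q =>
        a j (finProdFinEquiv.symm q).1 (finProdFinEquiv.symm q).2
      refine ⟨S, fun z hz => hS z fun j => ?_⟩
      rw [realize_pat, ← hz j]
      simp only [Equiv.symm_apply_apply]

end NST
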