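import Pool.Agent.NST.TG

set_option autoImplicit false

/-!
# NST, target SSH: pigeonhole and Sauer-Shelah
-/

namespace NST

namespace SSH_

open Finset Filter Topology

/-- A large number. -/
theorem exists_N (d K : ℕ) (hK : 1 ≤ K) :
    ∃ N : ℕ, 2 ≤ N ∧ (K * (N + 1) ^ (d + 2)) ^ K < 2 ^ N := by
  have h1 := tendsto_pow_const_div_const_pow_of_one_lt ((d + 2) * K) (r := (2 : ℝ)) (by norm_num)
  have h2 := h1.comp (tendsto_add_atTop_nat 1)
  have hc : (0 : ℝ) < 1 / (2 * (K : ℝ) ^ K) := by
    have : (0 : ℝ) < (K : ℝ) := by exact_mod_cast hK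
    positivity
  have h3 := h2.eventually (gt_mem_nhds hc)
  obtain ⟨N, hN⟩ := (h3.and (eventually_ge_atTop 2)).exists
  refine ⟨N, hN.2, ?_⟩
  have h4 := hN.1
  simp only [Function.comp] at h4
  rw [div_lt_div_iff₀ (by positivity) (by positivity)] at h4
  have h5 : (((K * (N + 1) ^ (d + 2)) ^ K : ℕ) : ℝ) < ((2 ^ N : ℕ) : ℝ) := by
    push_cast
    have e : ((K : ℝ) * ((N : ℝ) + 1) ^ (d + 2)) ^ K = (K : ℝ) ^ K * ((N : ℝ) + 1) ^ ((d + 2) * K) := by
      rw [mul_pow, ← pow_mul]
    rw [e]
    push_cast at h4
    have e2 : (2 : ℝ) ^ (N + 1) = 2 * 2 ^ N := by ring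
    rw [e2] at h4
    nlinarith
  exact_mod_cast h5

/-- Bound for the family of sets, when no set with `d` elements is shattered. -/
theorem card_le {N d : ℕ} (A : Finset (Finset (Fin N)))
    (h : ∀ s : Finset (Fin N), A.Shatters s → s.card < d) : A.card ≤ (N + 1) ^ d := by
  rcases Nat.eq_zero_or_pos d with h0 | h0
  · subst h0
    have h1 : A.shatterer = ∅ := by
      rw [Finset.eq_empty_iff_forall_notMem]
      intro s hs
      exact absurd (h s (mem_shatterer.1 hs)) (Nat.not_lt_zero _)
    have h2 := A.card_le_card_shatterer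
    rw [h1, card_empty] at h2
    omega
  · have hv : A.vcDim ≤ d - 1 := by
      unfold Finset.vcDim
      refine Finset.sup_le fun s hs => ?_
      have := h s (mem_shatterer.1 hs)
      omega
    have h1 : A.card ≤ ∑ k ∈ Iic A.vcDim, (Fintype.card (Fin N)).choose k :=
      le_trans A.card_le_card_shatterer card_shatterer_le_sum_vcDim
    have h2 : ∑ k ∈ Iic A.vcDim, (Fintype.card (Fin N)).choose k ≤
        ∑ k ∈ range (d - 1 + 1), N ^ k * 1 ^ (d - 1 - k) * (d - 1).choose k := by
      rw [Fintype.card_fin]
      calc ∑ k ∈ Iic A.vcDim, N.choose k ≤ ∑ k ∈ range (d - 1 + 1), N.choose k := by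
            refine Finset.sum_le_sum_of_subset ?_
            intro k hk
            rw [Finset.mem_Iic] at hk
            rw [Finset.mem_range]
            omega
        _ ≤ _ := by
            refine Finset.sum_le_sum fun k hk => ?_
            rw [Finset.mem_range] at hk
            have h3 : 1 ≤ (d - 1).choose k := Nat.choose_pos (by omega)
            have h4 : N.choose k ≤ N ^ k := Nat.choose_le_pow N k
            rw [one_pow, mul_one]
            exact le_trans h4 (Nat.le_mul_of_pos_right _ h3)
    have h5 : (N + 1) ^ (d - 1) =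
        ∑ k ∈ range (d - 1 + 1), N ^ k * 1 ^ (d - 1 - k) * (d - 1).choose k := by
      rw [add_pow]
      simp
    rw [← h5] at h2
    calc A.card ≤ (N + 1) ^ (d - 1) := le_trans h1 h2
      _ ≤ (N + 1) ^ d := Nat.pow_le_pow_right (by omega) (by omega)

/-- The family of sets is controlled by the traces. -/
theorem card_fib {N : ℕ} (F : Finset (Finset (Fin N))) (J : Finset (Fin N)) :
    F.card * 2 ^ J.card ≤ (F.image fun S => S ∩ J).card * 2 ^ N := by
  have h1 : F.card ≤ ((F.image fun S => S ∩ J) ×ˢ (Jᶜ).powerset).card := by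
    refine Finset.card_le_card_of_injOn (fun S => (S ∩ J, S ∩ Jᶜ)) ?_ ?_
    · intro S hS
      simp only [Finset.coe_product, Set.mem_prod, Finset.mem_coe, Finset.mem_image,
        Finset.mem_powerset]
      exact ⟨⟨S, hS, rfl⟩, Finset.inter_subset_right⟩
    · intro S _ S' _ he
      simp only [Prod.mk.injEq] at he
      obtain ⟨e1, e2⟩ := he
      have e3 : ∀ X : Finset (Fin N), X = (X ∩ J) ∪ (X ∩ Jᶜ) := by
        intro X
        rw [← Finset.inter_union_distrib_left, Finset.union_compl, Finset.inter_univ]
      rw [e3 S, e3 S', e1, e2]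
  rw [Finset.card_product, Finset.card_powerset, Finset.card_compl, Fintype.card_fin] at h1
  have h2 : J.card ≤ N := by
    have := Finset.card_le_univ J
    rwa [Fintype.card_fin] at this
  calc F.card * 2 ^ J.card
      ≤ ((F.image fun S => S ∩ J).card * 2 ^ (N - J.card)) * 2 ^ J.card :=
        Nat.mul_le_mul_right _ h1
    _ = (F.image fun S => S ∩ J).card * 2 ^ N := by
        rw [mul_assoc, ← pow_add, Nat.sub_add_cancel h2]

end SSH_

open SSH_ in
theorem p_SSH : T_SSH := by
  intro d K
  classical
  rcases Nat.eq_zero_or_pos K with h0 | hK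
  · refine ⟨2, le_rfl, ?_⟩
    intro κ _ hc col I _
    subst h0
    rw [Nat.zero_mul] at hc
    have := Fintype.card_pos_iff.2 ⟨col ∅⟩
    omega
  · obtain ⟨N, hN2, hN⟩ := exists_N d K hK
    refine ⟨N, hN2, ?_⟩
    intro κ _ hc col I hI
    by_contra hcon
    -- no trace family shatters a set with `d` elements
    have hsh : ∀ c : κ, ∀ s : Finset (Fin N),
        (((Finset.univ.filter fun S => col S = c).image fun S => S ∩ I c).Shatters s) →
        s.card < d := by
      intro c s hs
      by_contra hd
      apply hcon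
      obtain ⟨s', hs', hcard⟩ := Finset.exists_subset_card_eq (not_lt.1 hd)
      have hs2 := Finset.Shatters.mono_right hs' hs
      let e := s'.orderIsoOfFin hcard
      refine ⟨c, fun i => (e i : Fin N), ?_, ?_, ?_⟩
      · intro i j hij
        exact e.injective (Subtype.ext hij)
      · intro i
        obtain ⟨u, hu, hsu⟩ := hs2 (Finset.Subset.refl s')
        obtain ⟨S, hS, rfl⟩ := Finset.mem_image.1 hu
        have : (e i : Fin N) ∈ s' ∩ (S ∩ I c) := by
          rw [hsu]
          exact (e i).2
        exact (Finset.mem_inter.1 (Finset.mem_inter.1 this).2).2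
      · intro T
        have hI' : ∀ i, (e i : Fin N) ∈ I c := by
          intro i
          obtain ⟨u, hu, hsu⟩ := hs2 (Finset.Subset.refl s')
          obtain ⟨S, hS, rfl⟩ := Finset.mem_image.1 hu
          have : (e i : Fin N) ∈ s' ∩ (S ∩ I c) := by
            rw [hsu]
            exact (e i).2
          exact (Finset.mem_inter.1 (Finset.mem_inter.1 this).2).2
        have hsub : T.image (fun i => (e i : Fin N)) ⊆ s' := by
          intro x hx
          obtain ⟨i, _, rfl⟩ := Finset.mem_image.1 hx
          exact (e i).2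
        obtain ⟨u, hu, hsu⟩ := hs2 hsub
        obtain ⟨S, hS, rfl⟩ := Finset.mem_image.1 hu
        refine ⟨S, (Finset.mem_filter.1 hS).2, ?_⟩
        intro i
        constructor
        · intro hi
          have : (e i : Fin N) ∈ s' ∩ (S ∩ I c) :=
            Finset.mem_inter.2 ⟨(e i).2, Finset.mem_inter.2 ⟨hi, hI' i⟩⟩
          rw [hsu] at this
          obtain ⟨j, hj, hij⟩ := Finset.mem_image.1 this
          have : j = i := e.injective (Subtype.ext hij)
          rwa [← this]
        · intro hi
          have : (e i : Fin N) ∈ T.image (fun i => (e i : Fin N)) := Finset.mem_image_of_mem _ hi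
          rw [← hsu] at this
          exact (Finset.mem_inter.1 (Finset.mem_inter.1 this).2).1
    have hfib : ∀ c : κ, (Finset.univ.filter fun S => col S = c).card * (K * (N + 1) ^ 2) <
        2 ^ N := by
      intro c
      have h1 := card_fib (Finset.univ.filter fun S => col S = c) (I c)
      have h2 := card_le _ (hsh c)
      have h3 : K * (N + 1) ^ (d + 2) < 2 ^ (I c).card := by
        by_contra h
        have h4 : (2 ^ (I c).card) ^ K ≤ (K * (N + 1) ^ (d + 2)) ^ K :=
          Nat.pow_le_pow_left (not_lt.1 h) K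
        have h5 : 2 ^ N ≤ (2 ^ (I c).card) ^ K := by
          rw [← pow_mul]
          apply Nat.pow_le_pow_right (by norm_num)
          rw [mul_comm]
          exact hI c
        exact absurd (lt_of_le_of_lt (le_trans h5 h4) hN) (lt_irrefl _)
      rcases Nat.eq_zero_or_pos (Finset.univ.filter fun S => col S = c).card with h0 | hp
      · rw [h0, Nat.zero_mul]
        positivity
      · have h6 : (Finset.univ.filter fun S => col S = c).card * (K * (N + 1) ^ (d + 2)) <
            (N + 1) ^ d * 2 ^ N :=
          calc (Finset.univ.filter fun S => col S = c).card * (K * (N + 1) ^ (d + 2))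
              < (Finset.univ.filter fun S => col S = c).card * 2 ^ (I c).card :=
                Nat.mul_lt_mul_of_pos_left h3 hp
            _ ≤ _ := le_trans h1 (Nat.mul_le_mul_right _ h2)
        have h7 : (Finset.univ.filter fun S => col S = c).card * (K * (N + 1) ^ (d + 2)) =
            (N + 1) ^ d * ((Finset.univ.filter fun S => col S = c).card * (K * (N + 1) ^ 2)) := by
          ring
        rw [h7] at h6
        exact Nat.lt_of_mul_lt_mul_left h6
    have hsum : ∑ c : κ, (Finset.univ.filter fun S => col S = c).card = 2 ^ N := by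
      have h1 : (Finset.univ : Finset (Finset (Fin N))).card =
          ∑ c ∈ (Finset.univ : Finset κ), (Finset.univ.filter fun S => col S = c).card :=
        Finset.card_eq_sum_card_fiberwise (fun x _ => by simp)
      rw [← h1, Finset.card_univ, Fintype.card_finset, Fintype.card_fin]
    have hlt : ∑ c : κ, (Finset.univ.filter fun S => col S = c).card * (K * (N + 1) ^ 2) <
        ∑ _c : κ, 2 ^ N :=
      Finset.sum_lt_sum_of_nonempty ⟨col ∅, Finset.mem_univ _⟩ (fun c _ => hfib c)
    rw [← Finset.sum_mul, hsum, Finset.sum_const, Finset.card_univ, smul_eq_mul, mul_comm] at hlt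
    have h8 : Fintype.card κ * 2 ^ N ≤ K * (N + 1) ^ 2 * 2 ^ N := Nat.mul_le_mul_right _ hc
    exact absurd (lt_of_lt_of_le hlt h8) (lt_irrefl _)

end NST
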