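import Pool.Agent.NST.TG
import Pool.Agent.NST.P_SSH

set_option autoImplicit false

/-!
# NST, target SNC: counting for pairs of variables
-/

namespace NST

namespace SNC_

open Finset

/-- Sauer-Shelah in the form used here. -/
theorem card_le {α : Type} [Fintype α] [DecidableEq α] (m : ℕ) (A : Finset (Finset α))
    (h : ¬ ∃ g : Fin m → α, Function.Injective g ∧
      ∀ S : Set (Fin m), ∃ u ∈ A, ∀ j, (g j ∈ u ↔ j ∈ S)) :
    A.card ≤ (Fintype.card α + 1) ^ m := by
  classical
  have key : ∀ s : Finset α, A.Shatters s → s.card < m := by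
    intro s hs
    by_contra hlt
    push Not at hlt
    apply h
    obtain ⟨t, hts, htc⟩ := Finset.exists_subset_card_eq hlt
    have e : Fin m ≃ t := (Fintype.equivFinOfCardEq (by simp [htc])).symm
    refine ⟨fun j => (e j : α), fun i j hij => e.injective (Subtype.ext hij), ?_⟩
    intro S
    obtain ⟨u, hu, hsu⟩ := hs (t := (Finset.univ.filter (fun j => j ∈ S)).image (fun j => (e j : α)))
      (by
        intro x hx
        rw [Finset.mem_image] at hx
        obtain ⟨j, -, rfl⟩ := hx
        exact hts (e j).2)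
    refine ⟨u, hu, fun j => ?_⟩
    constructor
    · intro hj
      have h1 : (e j : α) ∈ s ∩ u := Finset.mem_inter.2 ⟨hts (e j).2, hj⟩
      rw [hsu, Finset.mem_image] at h1
      obtain ⟨i, hi, hij⟩ := h1
      have h2 : i = j := e.injective (Subtype.ext hij)
      subst h2
      exact (Finset.mem_filter.1 hi).2
    · intro hj
      have h1 : (e j : α) ∈ s ∩ u := by
        rw [hsu, Finset.mem_image]
        exact ⟨j, Finset.mem_filter.2 ⟨Finset.mem_univ _, hj⟩, rfl⟩
      exact (Finset.mem_inter.1 h1).2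
  rcases Nat.eq_zero_or_pos m with h0 | h0
  · subst h0
    have h1 : A.shatterer = ∅ := by
      rw [Finset.eq_empty_iff_forall_notMem]
      intro s hs
      exact absurd (key s (mem_shatterer.1 hs)) (Nat.not_lt_zero _)
    have h2 := A.card_le_card_shatterer
    rw [h1, card_empty] at h2
    omega
  · have hv : A.vcDim ≤ m - 1 := by
      unfold Finset.vcDim
      refine Finset.sup_le fun s hs => ?_
      have := key s (mem_shatterer.1 hs)
      omega
    have h1 : A.card ≤ ∑ k ∈ Iic A.vcDim, (Fintype.card α).choose k :=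
      le_trans A.card_le_card_shatterer card_shatterer_le_sum_vcDim
    have h2 : ∑ k ∈ Iic A.vcDim, (Fintype.card α).choose k ≤
        ∑ k ∈ range (m - 1 + 1), (Fintype.card α) ^ k * 1 ^ (m - 1 - k) * (m - 1).choose k := by
      calc ∑ k ∈ Iic A.vcDim, (Fintype.card α).choose k
          ≤ ∑ k ∈ range (m - 1 + 1), (Fintype.card α).choose k := by
            refine Finset.sum_le_sum_of_subset ?_
            intro k hk
            rw [Finset.mem_Iic] at hk
            rw [Finset.mem_range]
            omega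
        _ ≤ _ := by
            refine Finset.sum_le_sum fun k hk => ?_
            rw [Finset.mem_range] at hk
            have h3 : 1 ≤ (m - 1).choose k := Nat.choose_pos (by omega)
            have h4 : (Fintype.card α).choose k ≤ (Fintype.card α) ^ k := Nat.choose_le_pow _ k
            rw [one_pow, mul_one]
            exact le_trans h4 (Nat.le_mul_of_pos_right _ h3)
    have h5 : (Fintype.card α + 1) ^ (m - 1) =
        ∑ k ∈ range (m - 1 + 1), (Fintype.card α) ^ k * 1 ^ (m - 1 - k) * (m - 1).choose k := by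
      rw [add_pow]
      simp
    rw [← h5] at h2
    calc A.card ≤ (Fintype.card α + 1) ^ (m - 1) := le_trans h1 h2
      _ ≤ (Fintype.card α + 1) ^ m := Nat.pow_le_pow_right (by omega) (by omega)

/-- The choice of the number. -/
theorem exists_N (d e : ℕ) : ∃ N : ℕ,
    (N + 1) ^ d * (((N ^ d + 1) ^ e) ^ (2 ^ d)) < 2 ^ N := by
  obtain ⟨N, -, hN⟩ := SSH_.exists_N d (e * 2 ^ d + 1) (by omega)
  refine ⟨N, lt_of_le_of_lt ?_ hN⟩
  have h1 : N ^ d + 1 ≤ (N + 1) ^ (d + 2) := by
    have h2 : N ^ d ≤ (N + 1) ^ d := Nat.pow_le_pow_left (by omega) d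
    have h3 : 1 ≤ (N + 1) ^ d := Nat.one_le_pow _ _ (by omega)
    rcases Nat.eq_zero_or_pos N with h0 | h0
    · subst h0
      rcases Nat.eq_zero_or_pos d with h4 | h4
      · exfalso
        subst h4
        simp at hN
      · rw [zero_pow (by omega)]
        simp
    · calc N ^ d + 1 ≤ (N + 1) ^ d + (N + 1) ^ d := by omega
        _ = (N + 1) ^ d * 2 := by ring
        _ ≤ (N + 1) ^ d * (N + 1) ^ 2 := by
            refine Nat.mul_le_mul le_rfl ?_
            nlinarith
        _ = (N + 1) ^ (d + 2) := by rw [pow_add]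
  have h2 : (N + 1) ^ d ≤ (N + 1) ^ (d + 2) := Nat.pow_le_pow_right (by omega) (by omega)
  calc (N + 1) ^ d * (((N ^ d + 1) ^ e) ^ (2 ^ d))
      ≤ (N + 1) ^ (d + 2) * ((((N + 1) ^ (d + 2)) ^ e) ^ (2 ^ d)) := by
        refine Nat.mul_le_mul h2 ?_
        exact Nat.pow_le_pow_left (Nat.pow_le_pow_left h1 e) _
    _ = ((N + 1) ^ (d + 2)) ^ (e * 2 ^ d + 1) := by
        generalize (N + 1) ^ (d + 2) = X
        rw [← pow_mul, ← pow_succ']
    _ ≤ ((e * 2 ^ d + 1) * (N + 1) ^ (d + 2)) ^ (e * 2 ^ d + 1) := by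
        refine Nat.pow_le_pow_left ?_ _
        exact Nat.le_mul_of_pos_left _ (by omega)

end SNC_

theorem p_SNC : T_SNC := by
  classical
  intro d e
  obtain ⟨N, hN⟩ := SNC_.exists_N d e
  refine ⟨N, ?_⟩
  intro X₀ X' Y R h1 h2 a
  by_contra hcon
  push Not at hcon
  choose p hp using hcon
  -- the codes
  let c : X₀ → Finset (Fin d) → Finset (Fin d → Fin N) := fun z P =>
    Finset.univ.filter (fun D => ∃ x', ∀ i, (R z x' (a (D i)) ↔ i ∈ P))
  have hc : ∀ z P D, D ∈ c z P ↔ ∃ x', ∀ i, (R z x' (a (D i)) ↔ i ∈ P) := by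
    intro z P D
    simp [c]
  let F : Finset (Fin N) → Finset (Fin d) → Finset (Fin d → Fin N) :=
    fun S => c (p (S : Set (Fin N))).1
  let C : Finset (Fin d) → Finset (Finset (Fin d → Fin N)) := fun P =>
    Finset.univ.image (fun S => F S P)
  have hC : ∀ P, (C P).card ≤ (N ^ d + 1) ^ e := by
    intro P
    have h3 := SNC_.card_le e (C P) (by
      rintro ⟨g, -, hg⟩
      obtain ⟨S', hS'⟩ := h2 (P : Set (Fin d)) (fun j => a ∘ g j)
      obtain ⟨u, hu, huj⟩ := hg S'
      simp only [C, Finset.mem_image] at hu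
      obtain ⟨S, -, rfl⟩ := hu
      refine hS' (p (S : Set (Fin N))).1 (fun j => ?_)
      rw [← huj j, hc]
      simp)
    simpa using h3
  have himg : (Finset.univ.image F).card ≤ ((N ^ d + 1) ^ e) ^ (2 ^ d) := by
    have h3 : Finset.univ.image F ⊆ Fintype.piFinset C := by
      intro f hf
      rw [Finset.mem_image] at hf
      obtain ⟨S, -, rfl⟩ := hf
      rw [Fintype.mem_piFinset]
      intro P
      exact Finset.mem_image.2 ⟨S, Finset.mem_univ _, rfl⟩
    calc (Finset.univ.image F).card ≤ (Fintype.piFinset C).card := Finset.card_le_card h3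
      _ = ∏ P, (C P).card := Fintype.card_piFinset C
      _ ≤ ∏ _P : Finset (Fin d), (N ^ d + 1) ^ e := Finset.prod_le_prod' (fun P _ => hC P)
      _ = ((N ^ d + 1) ^ e) ^ (2 ^ d) := by simp
  have hfib : ∀ f ∈ (Finset.univ : Finset (Finset (Fin N))).image F,
      ((Finset.univ : Finset (Finset (Fin N))).filter (fun S => F S = f)).card ≤ (N + 1) ^ d := by
    intro f hf
    rw [Finset.mem_image] at hf
    obtain ⟨S₀, -, rfl⟩ := hf
    have h3 := SNC_.card_le d (Finset.univ.filter (fun S => F S = F S₀)) (by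
      rintro ⟨g, -, hg⟩
      obtain ⟨P, hP⟩ := h1 (p (S₀ : Set (Fin N))).1 (a ∘ g)
      obtain ⟨S, hS, hSj⟩ := hg P
      have hS2 : F S = F S₀ := (Finset.mem_filter.1 hS).2
      have h4 : g ∈ F S (Finset.univ.filter (fun i => i ∈ P)) := by
        rw [hc]
        refine ⟨(p (S : Set (Fin N))).2, fun i => ?_⟩
        rw [hp (S : Set (Fin N)) (g i)]
        simpa using hSj i
      rw [hS2, hc] at h4
      obtain ⟨x', hx'⟩ := h4
      exact hP x' (fun i => by simpa using hx' i))
    simpa using h3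
  have hfin := Finset.card_le_mul_card_image (Finset.univ : Finset (Finset (Fin N))) ((N + 1) ^ d) hfib
  have h5 : (Finset.univ : Finset (Finset (Fin N))).card = 2 ^ N := by simp
  rw [h5] at hfin
  have h6 : (N + 1) ^ d * (Finset.univ.image F).card ≤ (N + 1) ^ d * (((N ^ d + 1) ^ e) ^ (2 ^ d)) :=
    Nat.mul_le_mul le_rfl himg
  omega

end NST
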