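import Pool.Agent.NST.TG

/-!
# NST: elements near `-1` meet finitely many square classes
-/

set_option autoImplicit false

noncomputable section

namespace NST

open Filter Polynomial FirstOrder

namespace SQ_

theorem itg (k : Type) [Field k] [LinearOrder k] [IsStrictOrderedRing k] (x : k)
    (hx : |x| ≤ 2) : Itg k x := by
  refine ⟨X - C x, monic_X_sub_C x, fun i => ⟨2, ?_⟩, by simp⟩
  rw [coeff_sub, coeff_X, coeff_C]
  push_cast
  by_cases h0 : i = 0
  · subst h0
    simpa using hx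
  · by_cases h1 : 1 = i
    · subst h1
      simp
    · simp [h0, h1]

end SQ_

theorem p_SQ : T_SQ := by
  intro k _ _ _ hF
  obtain ⟨B, hB⟩ := hF
  refine ⟨B, fun x hx => ?_⟩
  rw [abs_le] at hx
  have h1 : x < 0 := by linarith [hx.2, (by norm_num : (1 : k) / 2 < 1)]
  have h2 : |x| ≤ 2 := by
    rw [abs_of_neg h1]
    linarith [hx.1, (by norm_num : (1 : k) / 2 < 1)]
  have h3 : |x⁻¹| ≤ 2 := by
    rw [abs_inv, abs_of_neg h1]
    have h4 : (1 : k) / 2 ≤ -x := by
      have := hx.2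
      have h5 : (1 : k) / 2 + 1 / 2 = 1 := by norm_num
      linarith
    calc (-x)⁻¹ ≤ ((1 : k) / 2)⁻¹ := inv_anti₀ (by norm_num) h4
      _ = 2 := by norm_num
  obtain ⟨b, hb, y, hy⟩ := hB x ⟨h1.ne, SQ_.itg k x h2, SQ_.itg k x⁻¹ h3⟩
  exact ⟨b, hb, y, hy⟩

end NST
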