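import Pool.Agent.NST.TD

set_option autoImplicit false

/-! # NST-TE (MP_32850b_lc) -/

noncomputable section

namespace NST

open Filter

theorem TE_small {N : Type} [Field N] (B' : ValuationSubring N) (e : ℕ → N) (he : ∀ i, e i ≠ 0)
    (i : ℕ) : ∃ w : N, w ≠ 0 ∧ ∀ l ≤ i, w / e l ∈ B' := by
  induction i with
  | zero =>
    refine ⟨e 0, he 0, fun l hl => ?_⟩
    obtain rfl : l = 0 := by omega
    rw [div_self (he 0)]
    exact B'.one_mem
  | succ i ih =>
    obtain ⟨w, hw0, hw⟩ := ih
    rcases B'.mem_or_inv_mem (w / e (i + 1)) with h | h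
    · refine ⟨w, hw0, fun l hl => ?_⟩
      rcases Nat.lt_or_ge l (i + 1) with h1 | h1
      · exact hw l (by omega)
      · obtain rfl : l = i + 1 := by omega
        exact h
    · refine ⟨e (i + 1), he (i + 1), fun l hl => ?_⟩
      rcases Nat.lt_or_ge l (i + 1) with h1 | h1
      · have h2 := B'.mul_mem _ _ h (hw l (by omega))
        have h3 : (w / e (i + 1))⁻¹ * (w / e l) = e (i + 1) / e l := by
          have := he l
          have := he (i + 1)
          field_simp
        rwa [h3] at h2
      · obtain rfl : l = i + 1 := by omega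
        rw [div_self (he (i + 1))]
        exact B'.one_mem

theorem TE_e {N : Type} [Field N] [Countable N] (B B' : ValuationSubring N) (h : tV B = tV B') :
    ∃ e : N, e ≠ 0 ∧ ∀ b ∈ B, b * e ∈ B' := by
  classical
  by_contra hcon
  push Not at hcon
  obtain ⟨u, hu⟩ := exists_surjective_nat N
  set e : ℕ → N := fun i => if u i = 0 then 1 else u i with he
  have he0 : ∀ i, e i ≠ 0 := by
    intro i
    simp only [he]
    split_ifs with h1
    · exact one_ne_zero
    · exact h1
  have h1 : ∀ i, ∃ b ∈ B, ∀ l ≤ i, b * e l ∉ B' := by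
    intro i
    obtain ⟨w, hw0, hw⟩ := TE_small B' e he0 i
    obtain ⟨b, hb, hbw⟩ := hcon w hw0
    refine ⟨b, hb, fun l hl hbl => hbw ?_⟩
    have h2 := B'.mul_mem _ _ hbl (hw l hl)
    have h3 : b * e l * (w / e l) = b * w := by
      have := he0 l
      field_simp
    rwa [h3] at h2
  choose b hb hbl using h1
  have h2 : mk b ∈ tV B := by
    refine mem_tV.2 ⟨1, one_ne_zero, mem_St.2 (Eventually.of_forall fun n => ?_)⟩
    change b n * 1 ∈ B
    rw [mul_one]
    exact hb n
  rw [h] at h2
  obtain ⟨d, hd0, hd⟩ := mem_tV.1 h2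
  obtain ⟨l, hl⟩ := hu d
  have hel : e l = d := by
    simp only [he]
    rw [hl, if_neg hd0]
  rw [mem_St] at hd
  obtain ⟨n, hn1, hn2⟩ := (hd.and (eventually_ge l)).exists
  have h3 : b n * d ∈ B' := hn1
  rw [← hel] at h3
  exact hbl n l hn2 h3

theorem p_TE : T_TE := by
  intro N _ _ B B' hB hB' h
  obtain ⟨e, he0, he⟩ := TE_e B B' h
  set J : Set N := {x | ∀ b ∈ B, b * x ∈ B'} with hJ
  have heJ : e ∈ J := he
  have hBJ : ∀ c ∈ B, ∀ x ∈ J, c * x ∈ J := by
    intro c hc x hx b hb
    have h1 := hx (b * c) (B.mul_mem _ _ hb hc)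
    rwa [mul_assoc] at h1
  have hB'J : ∀ c ∈ B', ∀ x ∈ J, c * x ∈ J := by
    intro c hc x hx b hb
    have h1 := B'.mul_mem _ _ hc (hx b hb)
    have h2 : b * (c * x) = c * (b * x) := by ring
    rw [h2]
    exact h1
  let C : ValuationSubring N :=
    { carrier := {x | ∀ y ∈ J, x * y ∈ J}
      mul_mem' := by
        intro x z hx hz y hy
        have h1 := hx _ (hz y hy)
        rwa [← mul_assoc] at h1
      one_mem' := by
        intro y hy
        rwa [one_mul]
      add_mem' := by
        intro x z hx hz y hy b hb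
        have h1 := B'.add_mem _ _ (hx y hy b hb) (hz y hy b hb)
        have h2 : b * ((x + z) * y) = b * (x * y) + b * (z * y) := by ring
        rw [h2]
        exact h1
      zero_mem' := by
        intro y _ b _
        rw [zero_mul, mul_zero]
        exact B'.zero_mem
      neg_mem' := by
        intro x hx y hy b hb
        have h1 := B'.neg_mem _ (hx y hy b hb)
        have h2 : b * (-x * y) = -(b * (x * y)) := by ring
        rw [h2]
        exact h1
      mem_or_inv_mem' := by
        intro x
        rcases B.mem_or_inv_mem x with h1 | h1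
        · exact Or.inl fun y hy => hBJ x h1 y hy
        · exact Or.inr fun y hy => hBJ x⁻¹ h1 y hy }
  refine ⟨C, ?_, fun x hx y hy => hBJ x hx y hy, fun x hx y hy => hB'J x hx y hy⟩
  intro hC
  refine hB' (top_le_iff.1 fun y _ => ?_)
  have h1 : y / e ∈ C := by
    rw [hC]
    exact ValuationSubring.mem_top _
  have h2 := h1 e heJ 1 B.one_mem
  rwa [one_mul, div_mul_cancel₀ _ he0] at h2

end NST
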