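import Pool.Agent.NST.TG

set_option autoImplicit false

noncomputable section

namespace NST

open scoped Classical

namespace TRE_

variable {F : Type} [Field F] (V : ValuationSubring F) {N : ℕ} (x : Fin N → F) (y : Finset (Fin N) → F)

/-- index of minimal value -/
def i0 (hN : 0 < N) (S : Finset (Fin N)) : Fin N :=
  Classical.choose (Finset.exists_min_image (Finset.univ : Finset (Fin N)) (fun i => V.valuation (x i + y S))
    ⟨⟨0, hN⟩, Finset.mem_univ _⟩)

lemma i0_min (hN : 0 < N) (S : Finset (Fin N)) (i : Fin N) :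
    V.valuation (x (i0 V x y hN S) + y S) ≤ V.valuation (x i + y S) :=
  (Classical.choose_spec (Finset.exists_min_image (Finset.univ : Finset (Fin N)) (fun i => V.valuation (x i + y S))
    ⟨⟨0, hN⟩, Finset.mem_univ _⟩)).2 i (Finset.mem_univ _)

/-- the close indices -/
def P (hN : 0 < N) (S : Finset (Fin N)) : Finset (Fin N) :=
  Finset.univ.filter fun i => V.valuation (x i - x (i0 V x y hN S)) ≤ V.valuation (x (i0 V x y hN S) + y S)

lemma val_in (hN : 0 < N) (S : Finset (Fin N)) (i : Fin N) (hi : i ∈ P V x y hN S) :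
    V.valuation (x i + y S) = V.valuation (x (i0 V x y hN S) + y S) := by
  refine le_antisymm ?_ (i0_min V x y hN S i)
  have h1 : x i + y S = (x i - x (i0 V x y hN S)) + (x (i0 V x y hN S) + y S) := by ring
  rw [h1]
  refine le_trans (V.valuation.map_add _ _) (max_le ?_ le_rfl)
  exact (Finset.mem_filter.1 hi).2

lemma val_out (hN : 0 < N) (S : Finset (Fin N)) (i : Fin N) (hi : i ∉ P V x y hN S) :
    V.valuation (x i + y S) = V.valuation (x i - x (i0 V x y hN S)) := by
  have h0 : V.valuation (x (i0 V x y hN S) + y S) < V.valuation (x i - x (i0 V x y hN S)) := by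
    rw [← not_le]
    intro h
    exact hi (Finset.mem_filter.2 ⟨Finset.mem_univ _, h⟩)
  have h1 : x i + y S = (x i - x (i0 V x y hN S)) + (x (i0 V x y hN S) + y S) := by ring
  rw [h1]
  exact Valuation.map_add_eq_of_lt_left _ h0

lemma P_eq (hN : 0 < N) (S S' : Finset (Fin N)) (h0 : i0 V x y hN S = i0 V x y hN S')
    (hc : (P V x y hN S).card = (P V x y hN S').card) : P V x y hN S = P V x y hN S' := by
  rcases le_total (V.valuation (x (i0 V x y hN S) + y S)) (V.valuation (x (i0 V x y hN S') + y S')) with h | h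
  · refine Finset.eq_of_subset_of_card_le ?_ (le_of_eq hc.symm)
    intro i hi
    rw [P, Finset.mem_filter] at hi ⊢
    refine ⟨hi.1, ?_⟩
    rw [← h0]
    rw [← h0] at h
    exact le_trans hi.2 h
  · refine (Finset.eq_of_subset_of_card_le ?_ (le_of_eq hc)).symm
    intro i hi
    rw [P, Finset.mem_filter] at hi ⊢
    refine ⟨hi.1, ?_⟩
    rw [h0]
    rw [h0] at h
    exact le_trans hi.2 h

/-- the colour -/
def col (hN : 0 < N) (S : Finset (Fin N)) : Fin N × Fin (N + 1) :=
  (i0 V x y hN S, ⟨(P V x y hN S).card, by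
    have := Finset.card_le_univ (P V x y hN S)
    rw [Fintype.card_fin] at this
    omega⟩)

lemma P_eq' (hN : 0 < N) (S S' : Finset (Fin N)) (h : col V x y hN S = col V x y hN S') :
    P V x y hN S = P V x y hN S' := by
  have e1 : i0 V x y hN S = i0 V x y hN S' := congrArg Prod.fst h
  have e2 : (P V x y hN S).card = (P V x y hN S').card := congrArg (fun p => (p.2 : ℕ)) h
  exact P_eq V x y hN S S' e1 e2

/-- the close indices of a colour -/
def Pc (hN : 0 < N) (c : Fin N × Fin (N + 1)) : Finset (Fin N) :=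
  if h : ∃ S, col V x y hN S = c then P V x y hN (Classical.choose h) else Finset.univ

lemma Pc_eq (hN : 0 < N) (c : Fin N × Fin (N + 1)) (S : Finset (Fin N)) (h : col V x y hN S = c) :
    Pc V x y hN c = P V x y hN S := by
  have hex : ∃ S, col V x y hN S = c := ⟨S, h⟩
  unfold Pc
  rw [dif_pos hex]
  exact P_eq' V x y hN _ _ ((Classical.choose_spec hex).trans h.symm)

end TRE_

open TRE_ in
theorem p_TRE (h1 : T_SSH) : T_TRE := by
  intro d
  obtain ⟨N, hN2, hN⟩ := h1 d 2
  refine ⟨N, fun F _ V x y => ?_⟩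
  have hN0 : 0 < N := by omega
  obtain ⟨c, ι, hι, hI, hT⟩ := hN (Fin N × Fin (N + 1)) (by
      rw [Fintype.card_prod, Fintype.card_fin, Fintype.card_fin]
      nlinarith) (col V x y hN0)
    (fun c => if N ≤ 2 * (Pc V x y hN0 c).card then Pc V x y hN0 c else (Pc V x y hN0 c)ᶜ) (by
      intro c
      split_ifs with h
      · exact h
      · rw [Finset.card_compl, Fintype.card_fin]
        omega)
  choose s hs hs' using hT
  refine ⟨ι, s, hι, fun T i => hs' T i, ?_⟩
  by_cases h : N ≤ 2 * (Pc V x y hN0 c).card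
  · left
    intro i j S
    have hi := hI i
    have hj := hI j
    rw [if_pos h, Pc_eq V x y hN0 c _ (hs S)] at hi hj
    dsimp only
    rw [val_in V x y hN0 _ _ hi, val_in V x y hN0 _ _ hj]
  · right
    intro i S T
    have hi := hI i
    have hi' := hI i
    rw [if_neg h, Finset.mem_compl, Pc_eq V x y hN0 c _ (hs S)] at hi
    rw [if_neg h, Finset.mem_compl, Pc_eq V x y hN0 c _ (hs T)] at hi'
    dsimp only
    rw [val_out V x y hN0 _ _ hi, val_out V x y hN0 _ _ hi']
    have h2 : i0 V x y hN0 (s S) = i0 V x y hN0 (s T) := congrArg Prod.fst ((hs S).trans (hs T).symm)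
    rw [h2]

end NST
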