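import Pool.Agent.NST.TD

set_option autoImplicit false

noncomputable section

namespace NST

open Filter Polynomial

namespace TT_

/-- no element of an algebraic extension dominates all constants -/
theorem dom {K N : Type} [Field K] [Field N] [Algebra K N] [FiniteDimensional K N]
    (B : ValuationSubring N) (u : N) (hu : 1 < B.valuation u)
    (h : ∀ c : K, B.valuation (algebraMap K N c) < B.valuation u) : False := by
  classical
  have hint : IsIntegral K u := Algebra.IsIntegral.isIntegral u
  set p := minpoly K u with hp
  have hmon : p.Monic := minpoly.monic hint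
  have hzero : aeval u p = 0 := minpoly.aeval K u
  have hu0 : B.valuation u ≠ 0 := fun h0 => by rw [h0] at hu; exact absurd hu (by simp)
  have hsum : u ^ p.natDegree = - ∑ i ∈ Finset.range p.natDegree,
      algebraMap K N (p.coeff i) * u ^ i := by
    have h1 := hzero
    rw [aeval_eq_sum_range, Finset.sum_range_succ, hmon.coeff_natDegree, one_smul] at h1
    rw [eq_neg_iff_add_eq_zero, add_comm, ← h1]
    congr 1
    refine Finset.sum_congr rfl fun i _ => ?_
    rw [Algebra.smul_def]
  have hlt : B.valuation (∑ i ∈ Finset.range p.natDegree,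
      algebraMap K N (p.coeff i) * u ^ i) < B.valuation u ^ p.natDegree := by
    apply Valuation.map_sum_lt
    · exact pow_ne_zero _ hu0
    · intro i hi
      rw [Finset.mem_range] at hi
      rw [map_mul, map_pow]
      calc B.valuation (algebraMap K N (p.coeff i)) * B.valuation u ^ i
          < B.valuation u * B.valuation u ^ i := by
            apply mul_lt_mul_of_pos_right (h _)
            exact pow_pos (lt_of_le_of_ne (zero_le) (Ne.symm hu0)) i
        _ = B.valuation u ^ (i + 1) := by rw [pow_succ, mul_comm]
        _ ≤ B.valuation u ^ p.natDegree := pow_le_pow_right₀ hu.le hi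
  have h2 := congrArg B.valuation hsum
  rw [map_pow, Valuation.map_neg] at h2
  rw [← h2] at hlt
  exact lt_irrefl _ hlt

end TT_

theorem p_TT : T_TT := by
  intro K N _ _ _ _ _ _ B hB hC
  classical
  have hval : ∀ x : N, x ∈ B ↔ B.valuation x ≤ 1 := fun x => (B.valuation_le_one_iff x).symm
  -- an element of `K` outside `B`
  obtain ⟨d, hd⟩ : ∃ d : K, algebraMap K N d ∉ B := by
    by_contra hcon
    push Not at hcon
    apply hB
    rw [eq_top_iff]
    intro u _
    by_contra hu
    rw [hval, not_le] at hu
    exact TT_.dom (K := K) B u hu fun c => lt_of_le_of_lt ((hval _).1 (hcon c)) hu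
  ext x
  obtain ⟨x, rfl⟩ := exists_mk x
  rw [ValuationSubring.mem_comap, mapR_mk]
  constructor
  · rintro ⟨e, he0, he⟩
    rw [mem_St] at he
    obtain ⟨c, hc0, hc⟩ : ∃ c : K, c ≠ 0 ∧ algebraMap K N c * e⁻¹ ∈ B := by
      by_contra hcon
      push Not at hcon
      have h1 : ∀ c : K, c ≠ 0 → 1 < B.valuation (algebraMap K N c) * B.valuation e⁻¹ := by
        intro c hc
        have := hcon c hc
        rw [hval, not_le, map_mul] at this
        exact this
      have h2 : 1 < B.valuation e⁻¹ := by
        have := h1 1 one_ne_zero
        rwa [map_one, map_one, one_mul] at this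
      refine TT_.dom (K := K) B e⁻¹ h2 fun c => ?_
      by_cases hc : c = 0
      · rw [hc, map_zero, map_zero]
        exact lt_trans zero_lt_one h2
      · have h3 := h1 c⁻¹ (inv_ne_zero hc)
        have hcv : B.valuation (algebraMap K N c) ≠ 0 := by
          rw [Valuation.ne_zero_iff]
          exact (_root_.map_ne_zero _).2 hc
        have h4 := mul_lt_mul_of_pos_left h3 (lt_of_le_of_ne (zero_le) (Ne.symm hcv))
        have h7 : algebraMap K N c * (algebraMap K N c⁻¹) = 1 := by
          rw [← map_mul, mul_inv_cancel₀ hc, map_one]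
        rw [mul_one, ← mul_assoc, ← map_mul, h7, map_one, one_mul] at h4
        exact h4
    refine ⟨|d / c|, ?_⟩
    rw [mem_St]
    filter_upwards [he] with n hn
    replace hn : algebraMap K N (x n) * e ∈ B := hn
    have h5 : algebraMap K N (x n * c) ∈ B := by
      have : algebraMap K N (x n * c) = (algebraMap K N (x n) * e) * (algebraMap K N c * e⁻¹) := by
        rw [map_mul]
        field_simp
      rw [this]
      exact B.mul_mem _ _ hn hc
    change |x n| ≤ |d / c|
    by_contra hcon
    rw [not_le] at hcon
    apply hd
    have h6 : |d| ≤ |x n * c| := by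
      rw [abs_div, div_lt_iff₀ (abs_pos.2 hc0)] at hcon
      rw [abs_mul]
      exact hcon.le
    exact hC d (x n * c) h6 h5
  · rintro ⟨e, he⟩
    rw [mem_St] at he
    have hc : (0 : K) < |e| + 1 := by positivity
    refine ⟨algebraMap K N (|e| + 1)⁻¹, (_root_.map_ne_zero _).2 (inv_ne_zero hc.ne'), ?_⟩
    rw [mem_St]
    filter_upwards [he] with n hn
    replace hn : |x n| ≤ e := hn
    change algebraMap K N (x n) * algebraMap K N (|e| + 1)⁻¹ ∈ B
    rw [← map_mul]
    have h1 : |x n * (|e| + 1)⁻¹| ≤ |(1 : K)| := by
      rw [abs_mul, abs_inv, abs_of_pos hc, abs_one, ← div_eq_mul_inv, div_le_one hc]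
      exact hn.trans ((le_abs_self e).trans (by linarith))
    exact hC _ 1 h1 (by
      rw [ValuationSubring.mem_comap, map_one]
      exact B.one_mem)

end NST
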