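import Pool.Agent.NST.TG

set_option autoImplicit false

noncomputable section

namespace NST

open Filter Polynomial

theorem p_UC (h1 : T_CI) : T_UC := by
  intro K E _ _ _ _ _ x
  constructor
  · rintro ⟨p, hp, hc, hx⟩ V' hV'
    refine mem_of_root (algebraMap K E) hp (fun i _ => ?_) (z := x) ?_
    · have h2 : p.coeff i ∈ V'.comap (algebraMap K E) := by
        rw [hV']
        exact mem_natV.2 (hc i)
      exact h2
    · rw [← aeval_def]
      exact hx
  · intro h
    obtain ⟨p, hp, hc, hx⟩ := h1 K E (algebraMap K E) (natV K) x h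
    refine ⟨p, hp, fun i => mem_natV.1 (hc i), ?_⟩
    rw [aeval_def]
    exact hx

end NST
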