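import Pool.Agent.NST.TG

set_option autoImplicit false

namespace NST

open Polynomial

section UHs

variable {N : Type} [Field N]

theorem UH_prodcoeff {V : ValuationSubring N} (s : Finset N) (hs : ∀ b ∈ s, b ∈ V) :
    ∀ i, (∏ b ∈ s, (X - C b)).coeff i ∈ V := by
  classical
  induction s using Finset.induction_on with
  | empty =>
    intro i
    rw [Finset.prod_empty, coeff_one]
    split_ifs
    · exact V.one_mem
    · exact V.zero_mem
  | insert b s hb ih =>
    have ih' := ih fun c hc => hs c (Finset.mem_insert_of_mem hc)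
    have hbV := hs b (Finset.mem_insert_self b s)
    intro i
    rw [Finset.prod_insert hb, sub_mul, coeff_sub, coeff_C_mul]
    refine V.toSubring.sub_mem ?_ (V.mul_mem _ _ hbV (ih' i))
    cases i with
    | zero => rw [mul_coeff_zero, coeff_X_zero, zero_mul]; exact V.zero_mem
    | succ i => rw [coeff_X_mul]; exact ih' i

theorem UH_evalone {V : ValuationSubring N} {p : N[X]} (h : ∀ i, p.coeff i ∈ V) :
    p.eval 1 ∈ V := by
  rw [eval_eq_sum_range]
  refine V.toSubring.sum_mem fun i _ => ?_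
  rw [one_pow, mul_one]
  exact h i

theorem UH_der {V : ValuationSubring N} {p : N[X]} (h : ∀ i, p.coeff i ∈ V) :
    ∀ i, p.derivative.coeff i ∈ V := by
  intro i
  rw [coeff_derivative]
  refine V.mul_mem _ _ (h _) (V.add_mem _ _ (natCast_mem V i) V.one_mem)

theorem UH_prod_one {ι : Type} {V : ValuationSubring N} (s : Finset ι) (f : ι → N)
    (h : ∀ b ∈ s, f b - 1 ∈ V.nonunits) : ∏ b ∈ s, f b - 1 ∈ V.nonunits := by
  classical
  induction s using Finset.induction_on with
  | empty => simp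
  | insert b s hb ih =>
    rw [Finset.prod_insert hb]
    exact one_mul' (h b (Finset.mem_insert_self b s))
      (ih fun c hc => h c (Finset.mem_insert_of_mem hc))

theorem UH_prod_nu {ι : Type} {V : ValuationSubring N} (s : Finset ι) (f : ι → N)
    (h : ∀ b ∈ s, f b ∈ V) (b0 : ι) (hb0 : b0 ∈ s) (h0 : f b0 ∈ V.nonunits) :
    ∏ b ∈ s, f b ∈ V.nonunits := by
  classical
  rw [← Finset.mul_prod_erase s f hb0]
  refine nu_mul' h0 (V.toSubring.prod_mem fun b hb => h b (Finset.mem_of_mem_erase hb))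

end UHs

theorem p_UH (h1 : T_FE) (h2 : T_IC) (h3 : T_CR) : T_UH := by
  intro K _ _ O hRC hHen N _ _ _ _ V₁ V₂ hV₁ hV₂
  classical
  by_contra hne
  have : CharZero N := charZero_of_injective_algebraMap (algebraMap K N).injective
  have hfin := h1 K N (algebraMap K N) (RingHom.finite_algebraMap.2 inferInstance) O hRC
  obtain ⟨n, V, hVinj, hVr⟩ := hfin.fin_param
  have hVk : ∀ k, (V k).comap (algebraMap K N) = O := by
    intro k
    have : V k ∈ Set.range V := ⟨k, rfl⟩
    rw [hVr] at this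
    exact this
  have hinc : ∀ k l, k ≠ l → ¬ V k ≤ V l := by
    intro k l hkl hle
    have := h2 K N (algebraMap K N) (algebraMap_isIntegral_iff.2 inferInstance) (V k) (V l) hle
      (by rw [hVk k, hVk l])
    exact hkl (hVinj this)
  have hrc : ∀ k, ∀ c : ℕ, 0 < c → ((c : N))⁻¹ ∈ V k := by
    intro k c hc
    have h4 := hRC c hc
    rw [← hVk k] at h4
    have h5 : algebraMap K N ((c : K))⁻¹ ∈ V k := h4
    rwa [map_inv₀, map_natCast] at h5
  obtain ⟨x, hxV, hxa⟩ := (h3 N n V hinc hrc).2 (fun k => if V k = V₁ then 1 else 0) (by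
    intro k
    by_cases hk : V k = V₁
    · simp only [hk, if_true]
      exact V₁.one_mem
    · simp only [hk, if_false]
      exact (V k).zero_mem)
  have hS : ∀ W : ValuationSubring N, W.comap (algebraMap K N) = O → ∃ k, V k = W := by
    intro W hW
    have : W ∈ {V' : ValuationSubring N | V'.comap (algebraMap K N) = O} := hW
    rw [← hVr] at this
    exact this
  have hx1 : x - 1 ∈ V₁.nonunits := by
    obtain ⟨k, hk⟩ := hS V₁ hV₁
    have := hxa k
    simp only [hk, if_true] at this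
    exact this
  have hx0 : ∀ W : ValuationSubring N, W.comap (algebraMap K N) = O → W ≠ V₁ →
      x ∈ W.nonunits := by
    intro W hW hW1
    obtain ⟨k, hk⟩ := hS W hW
    have := hxa k
    simp only [hk, hW1, if_false, sub_zero] at this
    exact this
  have hxW : ∀ W : ValuationSubring N, W.comap (algebraMap K N) = O → x ∈ W := by
    intro W hW
    obtain ⟨k, hk⟩ := hS W hW
    rw [← hk]
    exact hxV k
  -- the action of the Galois group
  let cm : (N ≃ₐ[K] N) → ValuationSubring N → ValuationSubring N := fun σ W =>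
    W.comap (σ : N →+* N)
  have mcm : ∀ (σ : N ≃ₐ[K] N) (W : ValuationSubring N) (y : N), y ∈ cm σ W ↔ σ y ∈ W :=
    fun _ _ _ => Iff.rfl
  have ncm : ∀ (σ : N ≃ₐ[K] N) (W : ValuationSubring N) (y : N),
      y ∈ (cm σ W).nonunits ↔ σ y ∈ W.nonunits := fun σ W y => nu_comap (σ : N →+* N)
  have hcm : ∀ (σ : N ≃ₐ[K] N) (W : ValuationSubring N), W.comap (algebraMap K N) = O →
      (cm σ W).comap (algebraMap K N) = O := by
    intro σ W hW
    rw [← hW]
    ext y
    change σ (algebraMap K N y) ∈ W ↔ algebraMap K N y ∈ W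
    rw [AlgEquiv.commutes]
  have hmul : ∀ (σ τ : N ≃ₐ[K] N) (W : ValuationSubring N), cm (σ * τ) W = cm τ (cm σ W) := by
    intro σ τ W
    ext y
    rw [mcm, mcm, mcm]
    rfl
  let D : Finset (N ≃ₐ[K] N) := Finset.univ.filter fun σ => cm σ V₁ = V₁
  have hD : ∀ σ, σ ∈ D ↔ cm σ V₁ = V₁ := by
    intro σ
    simp [D]
  have hD1 : (1 : N ≃ₐ[K] N) ∈ D := by
    rw [hD]
    ext y
    rw [mcm]
    rfl
  have hDmul : ∀ σ τ, σ ∈ D → (τ * σ ∈ D ↔ τ ∈ D) := by
    intro σ τ hσ
    rw [hD] at hσ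
    rw [hD, hD, hmul]
    constructor
    · intro h
      rw [← hσ] at h
      have e : cm σ⁻¹ (cm σ (cm τ V₁)) = cm σ⁻¹ (cm σ V₁) := by
        have h' : cm σ (cm τ V₁) = cm σ V₁ := by
          rw [hσ] at h ⊢
          exact h
        rw [h']
      have e1 : ∀ W : ValuationSubring N, cm 1 W = W := by
        intro W
        ext y
        rw [mcm]
        rfl
      have e2 : ∀ W : ValuationSubring N, cm σ⁻¹ (cm σ W) = W := by
        intro W
        rw [← hmul, mul_inv_cancel, e1]
      rwa [e2, e2] at e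
    · intro h
      rw [h, hσ]
  set α : N := ∏ σ ∈ D, σ x with hα
  have hα1 : α - 1 ∈ V₁.nonunits := by
    refine UH_prod_one D (fun σ => σ x) ?_
    intro σ hσ
    have h4 := (ncm σ V₁ (x - 1)).1 (by rw [(hD σ).1 hσ]; exact hx1)
    rwa [map_sub, map_one] at h4
  have hα2 : α ∈ V₂.nonunits := by
    refine UH_prod_nu D (fun σ => σ x) ?_ 1 hD1 ?_
    · intro σ _
      exact (mcm σ V₂ x).1 (hxW _ (hcm σ V₂ hV₂))
    · exact hx0 V₂ hV₂ (Ne.symm hne)
  have hατ : ∀ τ, τ ∉ D → τ α ∈ V₁.nonunits := by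
    intro τ hτ
    rw [hα, map_prod]
    have h4 : ∀ σ ∈ D, τ (σ x) ∈ V₁.nonunits := by
      intro σ hσ
      have h5 : τ * σ ∉ D := fun h => hτ ((hDmul σ τ hσ).1 h)
      rw [hD] at h5
      exact (ncm (τ * σ) V₁ x).1 (hx0 _ (hcm _ V₁ hV₁) h5)
    exact UH_prod_nu D (fun σ => τ (σ x)) (fun σ hσ => nu_mem (h4 σ hσ)) 1 hD1 (h4 1 hD1)
  have hασ : ∀ τ, τ ∈ D → τ α = α := by
    intro τ hτ
    rw [hα, map_prod]
    refine Finset.prod_bij (fun σ _ => τ * σ) ?_ ?_ ?_ ?_
    · intro σ hσ
      exact (hDmul σ τ hσ).2 hτ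
    · intro σ _ σ' _ h
      exact mul_left_cancel h
    · intro σ hσ
      refine ⟨τ⁻¹ * σ, ?_, by rw [mul_inv_cancel_left]⟩
      have hτi : τ⁻¹ ∈ D := by
        have h4 := (hDmul τ τ⁻¹ hτ).1
        rw [inv_mul_cancel] at h4
        exact h4 hD1
      exact (hDmul σ τ⁻¹ hσ).2 hτi
    · intro σ _
      rfl
  -- the polynomial
  let A : Finset N := Finset.univ.image fun τ : N ≃ₐ[K] N => τ α
  have hA : ∀ b, b ∈ A ↔ ∃ τ : N ≃ₐ[K] N, τ α = b := by
    intro b
    simp [A]
  have hαA : α ∈ A := (hA α).2 ⟨1, rfl⟩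
  have hαV : α ∈ V₁ := mem_of_one hα1
  have hAn : ∀ b ∈ A.erase α, b ∈ V₁.nonunits := by
    intro b hb
    obtain ⟨hb1, hb2⟩ := Finset.mem_erase.1 hb
    obtain ⟨τ, rfl⟩ := (hA b).1 hb2
    refine hατ τ fun hτ => hb1 (hασ τ hτ)
  have hAV : ∀ b ∈ A, b ∈ V₁ := by
    intro b hb
    by_cases h : b = α
    · rw [h]
      exact hαV
    · exact nu_mem (hAn b (Finset.mem_erase.2 ⟨h, hb⟩))
  set F : N[X] := ∏ b ∈ A, (X - C b) with hF
  have hFm : F.Monic := monic_prod_of_monic _ _ fun b _ => monic_X_sub_C b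
  have hFl : F ∈ Polynomial.lifts (algebraMap K N) := by
    rw [Polynomial.lifts_iff_coeff_lifts]
    intro i
    rw [IsGalois.mem_range_algebraMap_iff_fixed]
    intro τ
    have h4 : F.map (τ : N →+* N) = F := by
      rw [hF, Polynomial.map_prod]
      refine Finset.prod_bij (fun b _ => τ b) ?_ ?_ ?_ ?_
      · intro b hb
        obtain ⟨σ, rfl⟩ := (hA b).1 hb
        exact (hA _).2 ⟨τ * σ, rfl⟩
      · intro b _ c _ h
        exact τ.injective h
      · intro b hb
        obtain ⟨σ, rfl⟩ := (hA b).1 hb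
        refine ⟨(τ⁻¹ * σ) α, (hA _).2 ⟨_, rfl⟩, ?_⟩
        change (τ * (τ⁻¹ * σ)) α = σ α
        rw [mul_inv_cancel_left]
      · intro b _
        rw [Polynomial.map_sub, Polynomial.map_X, Polynomial.map_C]
        rfl
    have h5 := congrArg (fun p : N[X] => p.coeff i) h4
    simp only [coeff_map] at h5
    exact h5
  obtain ⟨f, hf, -, hfm⟩ := Polynomial.lifts_and_natDegree_eq_and_monic hFl hFm
  set g : N[X] := ∏ b ∈ A.erase α, (X - C b) with hg
  have hFg : F = (X - C α) * g := (Finset.mul_prod_erase A (fun b => (X - C b : N[X])) hαA).symm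
  have hgV : ∀ i, g.coeff i ∈ V₁ := UH_prodcoeff _ fun b hb => nu_mem (hAn b hb)
  have hg1 : g.eval 1 - 1 ∈ V₁.nonunits := by
    rw [hg, eval_prod]
    refine UH_prod_one (A.erase α) (fun b => (X - C b : N[X]).eval 1) ?_
    intro b hb
    simp only [eval_sub, eval_X, eval_C]
    have h4 := V₁.nonunits.neg_mem (hAn b hb)
    have e : (1 : N) - b - 1 = -b := by ring
    rw [e]
    exact h4
  have hα1' : (1 : N) - α ∈ V₁.nonunits := by
    have h4 := V₁.nonunits.neg_mem hα1
    rwa [neg_sub] at h4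
  have hcoef : ∀ i, f.coeff i ∈ O := by
    intro i
    rw [← hV₁]
    change algebraMap K N (f.coeff i) ∈ V₁
    rw [← coeff_map, hf]
    exact UH_prodcoeff A hAV i
  have hev : f.eval 1 ∈ O.nonunits := by
    rw [← hV₁, nu_comap]
    have e : algebraMap K N (f.eval 1) = F.eval 1 := by
      rw [← hf, eval_map_algebraMap, ← map_one (algebraMap K N), aeval_algebraMap_apply]
      simp
    rw [e, hFg, eval_mul, eval_sub, eval_X, eval_C]
    exact nu_mul' hα1' (UH_evalone hgV)
  have hder : f.derivative.eval 1 ∉ O.nonunits := by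
    rw [← hV₁, nu_comap]
    have e : algebraMap K N (f.derivative.eval 1) = F.derivative.eval 1 := by
      rw [← hf, derivative_map, eval_map_algebraMap, ← map_one (algebraMap K N),
        aeval_algebraMap_apply]
      simp
    rw [e, hFg, derivative_mul, eval_add, eval_mul, eval_mul, derivative_sub, derivative_X,
      derivative_C, sub_zero, eval_one, one_mul, eval_sub, eval_X, eval_C]
    intro h
    have h4 : (1 - α) * g.derivative.eval 1 ∈ V₁.nonunits := nu_mul' hα1' (UH_evalone (UH_der hgV))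
    have h5 := V₁.nonunits.sub_mem h h4
    rw [add_sub_cancel_right] at h5
    exact notMem_nu_of_one hg1 h5
  obtain ⟨a, ha, -⟩ := hHen f hfm hcoef 1 O.one_mem hev hder
  have haF : F.eval (algebraMap K N a) = 0 := by
    rw [← hf, eval_map_algebraMap, aeval_algebraMap_apply]
    simp [ha]
  rw [hF, eval_prod, Finset.prod_eq_zero_iff] at haF
  obtain ⟨b, hb, hb0⟩ := haF
  rw [eval_sub, eval_X, eval_C, sub_eq_zero] at hb0
  obtain ⟨τ, hτ⟩ := (hA b).1 hb
  have hαa : α = algebraMap K N a := by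
    have h4 : τ α = τ (algebraMap K N a) := by
      rw [hτ, ← hb0, AlgEquiv.commutes]
    exact τ.injective h4
  have h6 : a ∈ O.nonunits := by
    rw [← hV₂, nu_comap, ← hαa]
    exact hα2
  have h7 : a - 1 ∈ O.nonunits := by
    rw [← hV₁, nu_comap, map_sub, map_one, ← hαa]
    exact hα1
  exact notMem_nu_of_one h7 h6

end NST
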