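import Pool.Agent.NST.TG

/-!
# NST-UT: elements near `1` are units
-/

set_option autoImplicit false

noncomputable section

namespace NST

open Filter Polynomial

section UTsec

variable {K E : Type} [Field K] [LinearOrder K] [IsStrictOrderedRing K] [Field E] [Algebra K E]

theorem UT_itg [FiniteDimensional K E] (y : E) (n : ℕ) (b : Module.Basis (Fin n) K E)
    (h : ∀ i, i < n → |(Algebra.leftMulMatrix b y).charpoly.coeff i| ≤ 1) : Itg K y := by
  refine ⟨(Algebra.leftMulMatrix b y).charpoly, Matrix.charpoly_monic _, fun i => ?_, ?_⟩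
  · refine ⟨1, ?_⟩
    rw [Nat.cast_one]
    have hdeg : (Algebra.leftMulMatrix b y).charpoly.natDegree = n := by
      rw [Matrix.charpoly_natDegree_eq_dim, Fintype.card_fin]
    rcases lt_trichotomy i n with hi | hi | hi
    · exact h i hi
    · subst hi
      have h1 : (Algebra.leftMulMatrix b y).charpoly.coeff i = 1 := by
        have h2 := (Matrix.charpoly_monic (Algebra.leftMulMatrix b y)).coeff_natDegree
        rwa [hdeg] at h2
      rw [h1, abs_one]
    · rw [coeff_eq_zero_of_natDegree_lt (by rw [hdeg]; exact hi), abs_zero]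
      exact zero_le_one
  · apply Algebra.leftMulMatrix_injective b
    have h3 := aeval_algHom_apply (Algebra.leftMulMatrix b) y (Algebra.leftMulMatrix b y).charpoly
    rw [Matrix.aeval_self_charpoly] at h3
    rw [← h3, map_zero]

theorem UT_A [Countable K] [FiniteDimensional K E] (h1 : T_CN) (h2 : T_VM) (y : ℕ → E)
    (hy : ∀ V' : ValuationSubring (Lx E), V'.comap (mapR (algebraMap K E)) = Vord K →
      mk y ∈ V'.nonunits) : ∀ᶠ n in (Uf : Filter ℕ), Itg K (y n) := by
  have b := Module.finBasis K E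
  have h3 := (h1 K E _ b (Vord K) (mk y)).1 hy
  have h4 : ∀ᶠ m in (Uf : Filter ℕ), ∀ i ∈ Finset.range (Module.finrank K E),
      |(Algebra.leftMulMatrix b (y m)).charpoly.coeff i| ≤ 1 := by
    refine (Finset.eventually_all _).2 fun i hi => ?_
    have h5 := h3 i (Finset.mem_range.1 hi)
    rw [mapL_mk, (h2 K).2] at h5
    have h6 := h5 1 one_pos
    rw [mem_St] at h6
    exact h6
  exact h4.mono fun m hm => UT_itg (y m) _ b fun i hi => hm i (Finset.mem_range.2 hi)

theorem UT_sub (h4 : T_UC) (x : E) (h : Itg K (x - 1)) : Itg K x := by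
  rw [h4 K E] at h ⊢
  intro V' hV'
  have h1 := V'.add_mem _ _ (h V' hV') V'.one_mem
  rwa [sub_add_cancel] at h1

end UTsec

theorem p_UT (h1 : T_CN) (h2 : T_VM) (h3 : T_CH) (h4 : T_UC) : T_UT := by
  intro K E _ _ _ _ _ _ _ x hx
  obtain ⟨V, hV⟩ := h3 (Lx K) (Lx E) (mapR (algebraMap K E)) (Vord K)
  have hx0 : mk x ≠ 0 := ne_zero_of_one (hx V hV)
  have e0 := mk_ne_zero.1 hx0
  have e1 := UT_A (K := K) h1 h2 (fun n => x n - 1) (fun V' hV' => hx V' hV')
  have e2 := UT_A (K := K) h1 h2 (fun n => (x n)⁻¹ - 1) (fun V' hV' => one_inv (hx V' hV'))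
  filter_upwards [e0, e1, e2] with n g0 g1 g2
  exact ⟨g0, UT_sub h4 _ g1, UT_sub h4 _ g2⟩

end NST
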