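import Pool.Agent.NST.TG

/-!
# NST: VCK, finite VC dimension from NIP (helper70)
-/

set_option autoImplicit false

open FirstOrder FirstOrder.Language FirstOrder.Ring

noncomputable section

namespace NST

namespace VCK_

/-- multiplication in coordinates -/
def mulV {m : ℕ} {R : Type} [CommRing R] (g : Fin m → Fin m → Fin m → R) (u v : Fin m → R) :
    Fin m → R :=
  fun l => ∑ i, ∑ j, g i j l * u i * v j

/-- powers in coordinates -/
def powV {m : ℕ} {R : Type} [CommRing R] (g : Fin m → Fin m → Fin m → R) (o u : Fin m → R) :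
    ℕ → Fin m → R
  | 0 => o
  | q + 1 => mulV g (powV g o u q) u

theorem map_mulV {m : ℕ} {R R' : Type} [CommRing R] [CommRing R'] (f : R →+* R')
    (g : Fin m → Fin m → Fin m → R) (u v : Fin m → R) (l : Fin m) :
    f (mulV g u v l) = mulV (fun i j l => f (g i j l)) (fun i => f (u i)) (fun i => f (v i)) l := by
  unfold mulV
  simp only [map_sum, map_mul]

theorem map_powV {m : ℕ} {R R' : Type} [CommRing R] [CommRing R'] (f : R →+* R')
    (g : Fin m → Fin m → Fin m → R) (o u : Fin m → R) (q : ℕ) (l : Fin m) :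
    f (powV g o u q l) =
      powV (fun i j l => f (g i j l)) (fun i => f (o i)) (fun i => f (u i)) q l := by
  induction q generalizing l with
  | zero => rfl
  | succ q ih =>
    show f (mulV g (powV g o u q) u l) = mulV _ (powV _ _ _ q) _ l
    rw [map_mulV]
    unfold mulV
    simp only [ih]

theorem repr_mul {K M : Type} [Field K] [Field M] [Algebra K M] {m : ℕ}
    (b : Module.Basis (Fin m) K M) (u v : M) (l : Fin m) :
    b.repr (u * v) l = mulV (fun i j l => b.repr (b i * b j) l) (b.repr u) (b.repr v) l := by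
  have h : u * v = ∑ i, ∑ j, (b.repr u i * b.repr v j) • (b i * b j) := by
    conv_lhs => rw [← b.sum_repr u, ← b.sum_repr v]
    rw [Finset.sum_mul_sum]
    refine Finset.sum_congr rfl fun i _ => Finset.sum_congr rfl fun j _ => ?_
    rw [smul_mul_smul_comm]
  conv_lhs => rw [h]
  unfold mulV
  simp only [map_sum, map_smul, Finsupp.coe_finsetSum, Finset.sum_apply, Finsupp.smul_apply,
    smul_eq_mul]
  refine Finset.sum_congr rfl fun i _ => Finset.sum_congr rfl fun j _ => ?_
  ring

theorem repr_pow {K M : Type} [Field K] [Field M] [Algebra K M] {m : ℕ}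
    (b : Module.Basis (Fin m) K M) (u : M) (q : ℕ) (l : Fin m) :
    b.repr (u ^ q) l =
      powV (fun i j l => b.repr (b i * b j) l) (b.repr 1) (b.repr u) q l := by
  induction q generalizing l with
  | zero => rw [pow_zero]; rfl
  | succ q ih =>
    rw [pow_succ, repr_mul]
    show _ = mulV _ (powV _ _ _ q) _ l
    unfold mulV
    simp only [ih]

/-- the polynomials -/
def pl {m : ℕ} {R : Type} [CommRing R] (g : Fin m → Fin m → Fin m → R)
    (o bb x t y s z : Fin m → R) (q : ℕ) (l : Fin m) : R :=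
  x l + y l - mulV g (mulV g (mulV g bb s) t) (powV g o z q) l

theorem map_pl {m : ℕ} {R R' : Type} [CommRing R] [CommRing R'] (f : R →+* R')
    (g : Fin m → Fin m → Fin m → R) (o bb x t y s z : Fin m → R) (q : ℕ) (l : Fin m) :
    f (pl g o bb x t y s z q l) =
      pl (fun i j l => f (g i j l)) (fun i => f (o i)) (fun i => f (bb i)) (fun i => f (x i))
        (fun i => f (t i)) (fun i => f (y i)) (fun i => f (s i)) (fun i => f (z i)) q l := by
  unfold pl
  rw [map_sub, map_add, map_mulV]
  simp only [map_mulV, map_powV]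

theorem repr_pl {K M : Type} [Field K] [Field M] [Algebra K M] {m : ℕ}
    (b : Module.Basis (Fin m) K M) (b0 x t y s z : M) (q : ℕ) (l : Fin m) :
    b.repr (x + y - b0 * s * t * z ^ q) l =
      pl (fun i j l => b.repr (b i * b j) l) (b.repr 1) (b.repr b0) (b.repr x) (b.repr t)
        (b.repr y) (b.repr s) (b.repr z) q l := by
  unfold pl
  rw [map_sub, map_add, Finsupp.sub_apply, Finsupp.add_apply, repr_mul]
  congr 1
  have h2 : ∀ l, b.repr (z ^ q) l =
      powV (fun i j l => b.repr (b i * b j) l) (b.repr 1) (b.repr z) q l := repr_pow b z q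
  have h0 : (b.repr (b0 * s) : Fin m → K) = mulV (fun i j l => b.repr (b i * b j) l)
      (b.repr b0) (b.repr s) := funext (repr_mul b b0 s)
  have h3 : (b.repr (b0 * s * t) : Fin m → K) = mulV (fun i j l => b.repr (b i * b j) l)
      (mulV (fun i j l => b.repr (b i * b j) l) (b.repr b0) (b.repr s)) (b.repr t) :=
    funext fun l => by rw [repr_mul, h0]
  have h4 : (b.repr (z ^ q) : Fin m → K) =
      powV (fun i j l => b.repr (b i * b j) l) (b.repr 1) (b.repr z) q := funext h2
  rw [h3, h4]

/-- the object variables `y, s, c` -/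
abbrev Ob (m : ℕ) : Type := (Fin m ⊕ Fin m) ⊕ Unit

/-- the parameters `x, t, b0, 1`, structure constants -/
abbrev Pm (m : ℕ) : Type :=
  (Fin m ⊕ Fin m) ⊕ ((Fin m ⊕ Fin m) ⊕ (Fin m × Fin m × Fin m))

/-- all variables -/
abbrev Vr (m : ℕ) : Type := (Ob m ⊕ Pm m) ⊕ Fin m

def iY {m : ℕ} (l : Fin m) : Vr m := Sum.inl (Sum.inl (Sum.inl (Sum.inl l)))
def iS {m : ℕ} (l : Fin m) : Vr m := Sum.inl (Sum.inl (Sum.inl (Sum.inr l)))
def iC {m : ℕ} : Vr m := Sum.inl (Sum.inl (Sum.inr ()))
def iX {m : ℕ} (l : Fin m) : Vr m := Sum.inl (Sum.inr (Sum.inl (Sum.inl l)))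
def iT {m : ℕ} (l : Fin m) : Vr m := Sum.inl (Sum.inr (Sum.inl (Sum.inr l)))
def iB {m : ℕ} (l : Fin m) : Vr m := Sum.inl (Sum.inr (Sum.inr (Sum.inl (Sum.inl l))))
def iO {m : ℕ} (l : Fin m) : Vr m := Sum.inl (Sum.inr (Sum.inr (Sum.inl (Sum.inr l))))
def iG {m : ℕ} (i j l : Fin m) : Vr m := Sum.inl (Sum.inr (Sum.inr (Sum.inr (i, j, l))))
def iZ {m : ℕ} (l : Fin m) : Vr m := Sum.inr l

/-- the polynomial in the free ring -/
def po (m q : ℕ) (l : Fin m) : FreeCommRing (Vr m) :=
  pl (fun i j l => FreeCommRing.of (iG i j l)) (fun l => FreeCommRing.of (iO l))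
    (fun l => FreeCommRing.of (iB l)) (fun l => FreeCommRing.of (iX l))
    (fun l => FreeCommRing.of (iT l)) (fun l => FreeCommRing.of (iY l))
    (fun l => FreeCommRing.of (iS l)) (fun l => FreeCommRing.of (iZ l)) q l

/-- comparison of two polynomials -/
def leF {α : Type} (p p' : FreeCommRing α) : NFV.Lor.Formula α :=
  Relations.formula₂ ((LHom.sumInr : Language.order →ᴸ NFV.Lor).onRelation
      (leSymb : Language.order.Relations 2))
    ((LHom.sumInl : Language.ring →ᴸ NFV.Lor).onTerm (termOfFreeCommRing p))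
    ((LHom.sumInl : Language.ring →ᴸ NFV.Lor).onTerm (termOfFreeCommRing p'))

theorem leF_realize {K : Type} [Field K] [LinearOrder K] [IsStrictOrderedRing K]
    [Ring.CompatibleRing K] [Language.order.Structure K] [Language.order.OrderedStructure K]
    {α : Type} (p p' : FreeCommRing α) (v : α → K) :
    (leF p p').Realize v ↔ FreeCommRing.lift v p ≤ FreeCommRing.lift v p' := by
  unfold leF
  rw [Formula.realize_rel₂, LHom.map_onRelation, relMap_leSymb]
  simp only [Matrix.cons_val_zero, Matrix.cons_val_one, LHom.realize_onTerm,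
    realize_termOfFreeCommRing]

/-- the formula without the quantifier -/
def fo (m q : ℕ) : NFV.Lor.Formula (Vr m) :=
  Formula.iInf fun l : Fin m =>
    leF (po m q l) (FreeCommRing.of iC) ⊓ leF (-po m q l) (FreeCommRing.of iC)

theorem fo_realize {K : Type} [Field K] [LinearOrder K] [IsStrictOrderedRing K]
    [Ring.CompatibleRing K] [Language.order.Structure K] [Language.order.OrderedStructure K]
    {m q : ℕ} (v : Vr m → K) :
    (fo m q).Realize v ↔ ∀ l, |pl (fun i j l => v (iG i j l)) (fun l => v (iO l))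
      (fun l => v (iB l)) (fun l => v (iX l)) (fun l => v (iT l)) (fun l => v (iY l))
      (fun l => v (iS l)) (fun l => v (iZ l)) q l| ≤ v iC := by
  unfold fo
  rw [Formula.realize_iInf]
  refine forall_congr' fun l => ?_
  rw [Formula.realize_inf, leF_realize, leF_realize, map_neg, abs_le']
  unfold po
  rw [map_pl]
  simp only [FreeCommRing.lift_of]

/-- the formula -/
def fm (m q a k : ℕ) (eO : Ob m ≃ Fin a) (eP : Pm m ≃ Fin k) :
    NFV.Lor.Formula (Fin a ⊕ Fin k) :=
  (Formula.iExs (Fin m) (fo m q)).relabel (Sum.map eO eP)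

theorem fm_realize {K M : Type} [Field K] [LinearOrder K] [IsStrictOrderedRing K]
    [Ring.CompatibleRing K] [Language.order.Structure K] [Language.order.OrderedStructure K]
    [Field M] [Algebra K M] {m : ℕ} (b : Module.Basis (Fin m) K M) (q a k : ℕ)
    (eO : Ob m ≃ Fin a) (eP : Pm m ≃ Fin k) (b0 x t y s : M) (c : K) :
    (fm m q a k eO eP).Realize (Sum.elim
      ((Sum.elim (Sum.elim (b.repr y) (b.repr s)) (fun _ => c)) ∘ eO.symm)
      ((Sum.elim (Sum.elim (b.repr x) (b.repr t))
        (Sum.elim (Sum.elim (b.repr b0) (b.repr 1))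
          fun p => b.repr (b p.1 * b p.2.1) p.2.2)) ∘ eP.symm)) ↔
      ∃ z : M, ∀ j, |b.repr (x + y - b0 * s * t * z ^ q) j| ≤ c := by
  unfold fm
  rw [Formula.realize_relabel, Formula.realize_iExs]
  simp only [fo_realize, iG, iO, iB, iX, iT, iY, iS, iZ, iC, Function.comp_def, Sum.elim_inl,
    Sum.elim_inr, Sum.map_inl, Sum.map_inr, Equiv.symm_apply_apply]
  constructor
  · rintro ⟨z, hz⟩
    refine ⟨b.equivFun.symm z, fun j => ?_⟩
    have h3 : (b.repr (b.equivFun.symm z) : Fin m → K) = z := b.equivFun.apply_symm_apply z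
    rw [repr_pl, h3]
    exact hz j
  · rintro ⟨z, hz⟩
    refine ⟨b.repr z, fun j => ?_⟩
    have := hz j
    rw [repr_pl] at this
    exact this

end VCK_

open VCK_ in
theorem p_VCK : T_VCK := by
  classical
  intro K E _ _ _ _ _ _ _ _ r b hNIP q b0
  have eO : Ob r ≃ Fin (Fintype.card (Ob r)) := Fintype.equivFin (Ob r)
  have eP : Pm r ≃ Fin (Fintype.card (Pm r)) := Fintype.equivFin (Pm r)
  obtain ⟨n, hn⟩ := hNIP _ _ (fm r q _ _ eO eP)
  refine ⟨n, fun x t => ?_⟩
  obtain ⟨S, hS⟩ := hn fun i => (Sum.elim (Sum.elim (b.repr (x i)) (b.repr (t i)))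
        (Sum.elim (Sum.elim (b.repr b0) (b.repr 1))
          fun p => b.repr (b p.1 * b p.2.1) p.2.2)) ∘ eP.symm
  refine ⟨S.toFinset, fun y s c h => hS
    ((Sum.elim (Sum.elim (b.repr y) (b.repr s)) (fun _ => c)) ∘ eO.symm) fun i => ?_⟩
  rw [fm_realize, h i, Set.mem_toFinset]

end NST
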