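import Pool.Agent.NST.TG

/-!
# NST: the class function of the units has NIP translates (VF)
-/

set_option autoImplicit false

noncomputable section

namespace NST

open Filter Polynomial FirstOrder

theorem VF_une {K E : Type} [Field K] [LinearOrder K] [IsStrictOrderedRing K] [Field E]
    [Algebra K E] (h2 : T_UC) {m : ℕ} (V : Fin m → ValuationSubring E)
    (hV : ∀ V' : ValuationSubring E, V'.comap (algebraMap K E) = natV K ↔ ∃ j, V j = V') (x : E) :
    UnE K x ↔ x ≠ 0 ∧ ∀ j, x ∈ V j ∧ x⁻¹ ∈ V j := by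
  have h : ∀ z : E, Itg K z ↔ ∀ j, z ∈ V j := by
    intro z
    rw [h2 K E z]
    constructor
    · intro h j
      exact h (V j) ((hV _).2 ⟨j, rfl⟩)
    · intro h V' hV'
      obtain ⟨j, rfl⟩ := (hV V').1 hV'
      exact h j
  unfold UnE
  rw [h, h]
  constructor
  · rintro ⟨h0, h1, h2⟩
    exact ⟨h0, fun j => ⟨h1 j, h2 j⟩⟩
  · rintro ⟨h0, h1⟩
    exact ⟨h0, fun j => (h1 j).1, fun j => (h1 j).2⟩

theorem VF_enum {K E : Type} [Field K] [LinearOrder K] [IsStrictOrderedRing K] [Field E]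
    [Algebra K E] [FiniteDimensional K E] (h3 : T_FE) :
    ∃ (m : ℕ) (V : Fin m → ValuationSubring E), ∀ V' : ValuationSubring E,
      V'.comap (algebraMap K E) = natV K ↔ ∃ j, V j = V' := by
  have hRC : RC0 (natV K) := by
    intro c hc
    rw [mem_natV]
    refine ⟨1, ?_⟩
    have hc' : (1 : K) ≤ c := by exact_mod_cast hc
    rw [abs_inv, Nat.abs_cast, Nat.cast_one]
    exact inv_le_one_of_one_le₀ hc'
  have hfin : (algebraMap K E).Finite := RingHom.finite_algebraMap.2 inferInstance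
  have hf := h3 K E (algebraMap K E) hfin (natV K) hRC
  have hf' : Finite {V' : ValuationSubring E | V'.comap (algebraMap K E) = natV K} := hf
  obtain ⟨m, ⟨e⟩⟩ := Finite.exists_equiv_fin
    {V' : ValuationSubring E | V'.comap (algebraMap K E) = natV K}
  refine ⟨m, fun j => (e.symm j : ValuationSubring E), fun V' => ⟨fun h => ?_, ?_⟩⟩
  · refine ⟨e ⟨V', h⟩, ?_⟩
    change ((e.symm (e ⟨V', h⟩) : _) : ValuationSubring E) = V'
    rw [Equiv.symm_apply_apply]
  · rintro ⟨j, rfl⟩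
    exact (e.symm j).2

theorem p_VF (h1 : T_CLS) (h2 : T_UC) (h3 : T_FE) (h4 : T_NU) : T_VF := by
  classical
  intro K E _ _ _ _ _ _ q hq hfin hVC
  obtain ⟨m, V, hV⟩ := VF_enum (K := K) (E := E) h3
  have hU := VF_une h2 V hV
  have hmul : ∀ x y : E, UnE K x → UnE K y → UnE K (x * y) := by
    intro x y hx hy
    rw [hU] at hx hy ⊢
    refine ⟨mul_ne_zero hx.1 hy.1, fun j => ⟨(V j).mul_mem _ _ (hx.2 j).1 (hy.2 j).1, ?_⟩⟩
    rw [mul_inv]
    exact (V j).mul_mem _ _ (hx.2 j).2 (hy.2 j).2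
  have hinv : ∀ x : E, UnE K x → UnE K x⁻¹ := by
    intro x hx
    rw [hU] at hx ⊢
    refine ⟨inv_ne_zero hx.1, fun j => ⟨(hx.2 j).2, ?_⟩⟩
    rw [inv_inv]
    exact (hx.2 j).1
  have hone : UnE K (1 : E) := by
    rw [hU]
    refine ⟨one_ne_zero, fun j => ⟨(V j).one_mem, ?_⟩⟩
    rw [inv_one]
    exact (V j).one_mem
  let U : Subgroup Eˣ :=
    { carrier := {u | UnE K (u : E)}
      mul_mem' := by
        intro a b ha hb
        change UnE K ((a * b : Eˣ) : E)
        rw [Units.val_mul]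
        exact hmul _ _ ha hb
      one_mem' := by
        change UnE K ((1 : Eˣ) : E)
        rw [Units.val_one]
        exact hone
      inv_mem' := by
        intro a ha
        change UnE K ((a⁻¹ : Eˣ) : E)
        rw [Units.val_inv_eq_inv_val]
        exact hinv _ ha }
  obtain ⟨B, hB⟩ := hfin
  obtain ⟨G, iG, fG, Φ, hΦ1, hΦ2⟩ := h1 E q hq U ⟨B, fun x hx => hB x hx⟩
  have hΦ3 : ∀ x, UnE K x → Φ x = 1 → ∃ y, x = y ^ q := by
    intro x hx hx1
    exact hΦ2 (Units.mk0 x hx.1) hx hx1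
  have : Fintype G := Fintype.ofFinite G
  let d : G → ℕ := fun h => if H : ∃ b, UnE K b ∧ Φ b = h then
    Classical.choose (hVC (Classical.choose H) (Classical.choose_spec H).1) else 0
  let D : ℕ := max 1 (Finset.univ.sup d)
  have hdD : ∀ h, d h ≤ D := fun h =>
    le_trans (Finset.le_sup (Finset.mem_univ h)) (le_max_right _ _)
  have hD1 : 1 ≤ D := le_max_left _ _
  obtain ⟨N, hN⟩ := h4 m (Fintype.card G) D
  refine ⟨G, iG, fG, Φ, N, ?_, hΦ3⟩
  intro x y g hg hS
  obtain ⟨x', t, y', s, h, ht, hs, hne, hval, hh⟩ := hN E V G le_rfl Φ x y g hg hS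
  have hu : ∀ i S, UnE K ((x' i + y' S) / (s S * t i)) := by
    intro i S
    rw [hU]
    exact ⟨div_ne_zero (hne i S) (mul_ne_zero (hs S) (ht i)), fun j => hval i S j⟩
  let i0 : Fin D := ⟨0, hD1⟩
  have H : ∃ b, UnE K b ∧ Φ b = h :=
    ⟨_, hu i0 {i0}, (hh i0 {i0}).2 (Finset.mem_singleton_self _)⟩
  have hd : d h = Classical.choose (hVC (Classical.choose H) (Classical.choose_spec H).1) :=
    dif_pos H
  have hb := (Classical.choose_spec H)
  have hspec := Classical.choose_spec (hVC (Classical.choose H) (Classical.choose_spec H).1)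
  rw [← hd] at hspec
  set b := Classical.choose H with hbdef
  have hb0 : b ≠ 0 := hb.1.1
  let κ : Fin (d h) ↪ Fin D := Fin.castLEEmb (hdD h)
  refine hspec (fun i => x' (κ i)) (fun i => t (κ i)) (fun S => y' (S.map κ))
    (fun S => s (S.map κ)) (fun i => ht _) (fun S => hs _) (fun i S => hne _ _) ?_
  intro i S
  have h5 : i ∈ S ↔ κ i ∈ S.map κ := (Finset.mem_map' κ).symm
  rw [h5, ← hh (κ i) (S.map κ)]
  have hst : s (S.map κ) * t (κ i) ≠ 0 := mul_ne_zero (hs _) (ht _)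
  constructor
  · rintro ⟨z, hz⟩
    have hz0 : z ≠ 0 := by
      rintro rfl
      rw [zero_pow hq.ne_zero, mul_zero] at hz
      exact hne _ _ hz
    have h6 : (x' (κ i) + y' (S.map κ)) / (s (S.map κ) * t (κ i)) = b * z ^ q := by
      rw [div_eq_iff hst, hz]
      ring
    rw [h6, map_mul, hΦ1 z hz0, mul_one]
    exact hb.2
  · intro hz
    have h7 : Φ ((x' (κ i) + y' (S.map κ)) / (s (S.map κ) * t (κ i)) * b⁻¹) = 1 := by
      rw [map_mul, hz, map_inv₀, hb.2]
      have : h ≠ 0 := by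
        rw [← hb.2]
        exact (map_ne_zero Φ).2 hb0
      exact mul_inv_cancel₀ this
    obtain ⟨z, hz'⟩ := hΦ3 _ (hmul _ _ (hu (κ i) (S.map κ)) (hinv _ hb.1)) h7
    refine ⟨z, ?_⟩
    have h8 : (x' (κ i) + y' (S.map κ)) / (s (S.map κ) * t (κ i)) = z ^ q * b := by
      rw [← hz', inv_mul_cancel_right₀ hb0]
    rw [div_eq_iff hst] at h8
    rw [h8]
    ring

end NST
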