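import Pool.Agent.NST.TD

set_option autoImplicit false

namespace NST

open Filter

theorem VM_nu {K : Type} [Field K] [LinearOrder K] [IsStrictOrderedRing K] (x : Lx K) :
    x ∈ (Vord K).nonunits ↔ ∀ e : K, 0 < e → x ∈ St {a | |a| ≤ e} := by
  obtain ⟨x, rfl⟩ := exists_mk x
  rw [nu_iff]
  constructor
  · rintro (h | h) e he
    · rw [mk_zero, mk_eq] at h
      rw [mem_St]
      filter_upwards [h] with n hn
      change |x n| ≤ e
      rw [hn, abs_zero]
      exact he.le
    · rw [mk_inv, mem_Vord] at h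
      have h1 : mk (fun n => (x n)⁻¹) ∉ St {a : K | |a| ≤ e⁻¹} := fun h' => h ⟨e⁻¹, h'⟩
      rw [notMem_St, mem_St] at h1
      rw [mem_St]
      filter_upwards [h1] with n hn
      replace hn : ¬ |(x n)⁻¹| ≤ e⁻¹ := hn
      rw [abs_inv, not_le] at hn
      change |x n| ≤ e
      have h2 : 0 < |x n| := by
        by_contra hc
        have h3 : |x n| = 0 := le_antisymm (not_lt.1 hc) (abs_nonneg _)
        rw [h3, inv_zero] at hn
        exact absurd hn (not_lt.2 (inv_pos.2 he).le)
      exact ((inv_lt_inv₀ he h2).1 hn).le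
  · intro h
    by_cases hx : mk x = 0
    · exact Or.inl hx
    right
    rintro ⟨c, hc⟩
    rw [mk_inv, mem_St] at hc
    have hx' := mk_ne_zero.1 hx
    have hc' : 0 < |c| + 1 := by positivity
    have he := h ((|c| + 1)⁻¹) (inv_pos.2 hc')
    rw [mem_St] at he
    obtain ⟨n, h1, h2, h3⟩ := (hc.and (hx'.and he)).exists
    replace h1 : |(x n)⁻¹| ≤ c := h1
    replace h3 : |x n| ≤ (|c| + 1)⁻¹ := h3
    have h4 : 0 < |x n| := abs_pos.2 h2
    rw [abs_inv] at h1
    have h5 := (le_inv_comm₀ h4 hc').1 h3
    have h6 := le_abs_self c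
    linarith

theorem p_VM : T_VM := by
  intro K _ _ _ _
  obtain ⟨u, hu⟩ := exists_surjective_nat K
  refine ⟨⟨?_, ?_, ?_⟩, VM_nu⟩
  · intro v
    exact ⟨|v|, cst_mem_St.2 le_rfl⟩
  · intro htop
    have h1 : mk (fun n => 1 + ∑ j ∈ Finset.range (n + 1), |u j|) ∈ Vord K := by
      rw [htop]
      trivial
    obtain ⟨e, he⟩ := mem_Vord.1 h1
    obtain ⟨j, rfl⟩ := hu e
    rw [mem_St] at he
    obtain ⟨n, h2, h3⟩ := (he.and (eventually_ge j)).exists
    replace h2 : abs (1 + ∑ i ∈ Finset.range (n + 1), |u i|) ≤ u j := h2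
    have h4 : |u j| ≤ ∑ i ∈ Finset.range (n + 1), |u i| :=
      Finset.single_le_sum (f := fun i => |u i|) (fun i _ => abs_nonneg (u i))
        (Finset.mem_range.2 (by omega))
    have h5 := le_abs_self (1 + ∑ i ∈ Finset.range (n + 1), |u i|)
    have h6 := le_abs_self (u j)
    linarith
  · refine ⟨fun i => {a | ∀ j, j < i → 0 < u j → |a| ≤ u j}, ?_, ?_⟩
    · intro i i' hi a ha j hj hj'
      exact ha j (lt_of_lt_of_le hj hi) hj'
    · intro x
      rw [VM_nu]
      obtain ⟨x, rfl⟩ := exists_mk x
      constructor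
      · intro h i
        rw [mem_St]
        have h1 : ∀ᶠ n in (Uf : Filter ℕ), ∀ j ∈ Finset.range i, 0 < u j → |x n| ≤ u j := by
          rw [Finset.eventually_all]
          intro j _
          by_cases hj : 0 < u j
          · have := h (u j) hj
            rw [mem_St] at this
            filter_upwards [this] with n hn _
            exact hn
          · exact Eventually.of_forall fun n hn => absurd hn hj
        filter_upwards [h1] with n hn j hj hj'
        exact hn j (Finset.mem_range.2 hj) hj'
      · intro h e he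
        obtain ⟨j, rfl⟩ := hu e
        have h1 := h (j + 1)
        rw [mem_St] at h1 ⊢
        filter_upwards [h1] with n hn
        exact hn j (Nat.lt_succ_self j) he

end NST
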