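import Pool.Agent.NST.TG

/-!
# NST: VN, the VC property in finite extensions of residue fields
-/

set_option autoImplicit false

namespace NST

open FirstOrder

/-- the maximal ideal of a convex valuation ring is convex -/
theorem VN_cvx {K : Type} [Field K] [LinearOrder K] [IsStrictOrderedRing K]
    {W : ValuationSubring K} (hW : Cvx W) {x y : K} (h : |x| ≤ |y|) (hy : y ∈ W.nonunits) :
    x ∈ W.nonunits := by
  by_contra hx
  have h1 : x⁻¹ ∈ W := inv_mem_of_notMem_nu hx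
  have hx0 : x ≠ 0 := by
    rintro rfl
    exact hx W.nonunits.zero_mem
  have hy0 : y ≠ 0 := by
    rintro rfl
    rw [abs_zero] at h
    exact hx0 (abs_eq_zero.1 (le_antisymm h (abs_nonneg _)))
  have h2 : y⁻¹ ∈ W := by
    refine hW y⁻¹ x⁻¹ ?_ h1
    rw [abs_inv, abs_inv]
    exact inv_anti₀ (abs_pos.2 hx0) h
  rcases nu_iff.1 hy with h3 | h3
  · exact hy0 h3
  · exact h3 h2

/-- a bound in the maximal ideal for finitely many elements of the maximal ideal -/
theorem VN_bound {K : Type} [Field K] [LinearOrder K] [IsStrictOrderedRing K]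
    {W : ValuationSubring K} (hW : Cvx W) {ι : Type} (s : Finset ι) (f : ι → K)
    (h : ∀ i ∈ s, f i ∈ W.nonunits) :
    ∃ c : K, 0 ≤ c ∧ c ∈ W.nonunits ∧ ∀ i ∈ s, |f i| ≤ c := by
  refine ⟨∑ i ∈ s, |f i|, Finset.sum_nonneg fun i _ => abs_nonneg _,
    W.nonunits.sum_mem fun i hi => VN_cvx hW (le_of_eq (abs_abs _)) (h i hi), fun i hi => ?_⟩
  exact Finset.single_le_sum (f := fun i => |f i|) (fun j _ => abs_nonneg _) hi

theorem p_VN (h1 : T_LI) (h2 : T_VCK) : T_VN := by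
  classical
  intro K _ _ _ _ _ _ hNIP W hW k _ _ _ π hOR F _ _ _ q b0 hq hb0
  obtain ⟨E, iE, iA, r, b, A, ρ, hr, hA, hAn, hsurj, hρ, hAW, hc⟩ :=
    h1 K k W π hOR.surj hOR.ker F
  letI := iE
  letI := iA
  obtain ⟨b1, hb1⟩ := hsurj b0
  obtain ⟨n, hn⟩ := h2 K E r b hNIP q (b1 : E)
  refine ⟨n, ?_⟩
  intro x t y s ht hs hxy hcon
  choose x1 hx1 using fun i => hsurj (x i)
  choose t1 ht1 using fun i => hsurj (t i)
  choose y1 hy1 using fun S => hsurj (y S)
  choose s1 hs1 using fun S => hsurj (s S)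
  obtain ⟨S, hS⟩ := hn (fun i => (x1 i : E)) (fun i => (t1 i : E))
  -- the chosen solutions
  have hz : ∀ i, ∃ z : A, i ∈ S → x i + y S = b0 * s S * t i * (ρ z) ^ q := by
    intro i
    by_cases hi : i ∈ S
    · obtain ⟨z, hz⟩ := (hcon i S).2 hi
      obtain ⟨z1, hz1⟩ := hsurj z
      exact ⟨z1, fun _ => by rw [hz1]; exact hz⟩
    · exact ⟨0, fun h => absurd h hi⟩
  choose z hz using hz
  -- the elements of the maximal ideal
  have hρu : ∀ i (w : A), ρ (x1 i + y1 S - b1 * s1 S * t1 i * w ^ q) =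
      x i + y S - b0 * s S * t i * (ρ w) ^ q := by
    intro i w
    rw [map_sub, map_add, map_mul, map_mul, map_mul, map_pow, hx1, hy1, hb1, hs1, ht1]
  have hnu : ∀ i ∈ S, ((x1 i : E) + y1 S - b1 * s1 S * t1 i * (z i : E) ^ q) ∈ A.nonunits := by
    intro i hi
    have h3 : ρ (x1 i + y1 S - b1 * s1 S * t1 i * z i ^ q) = 0 := by
      rw [hρu, ← hz i hi, sub_self]
    exact (hρ _).1 h3
  obtain ⟨c, hc0, hcn, hcb⟩ := VN_bound hW (Finset.univ : Finset (Fin n × Fin r))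
    (fun p => if p.1 ∈ S then
      b.repr ((x1 p.1 : E) + y1 S - b1 * s1 S * t1 p.1 * (z p.1 : E) ^ q) p.2 else 0) (by
      rintro ⟨i, j⟩ _
      show (if i ∈ S then
        b.repr ((x1 i : E) + y1 S - b1 * s1 S * t1 i * (z i : E) ^ q) j else 0) ∈ W.nonunits
      split_ifs with hi
      · exact (hAn _).1 (hnu i hi) j
      · exact W.nonunits.zero_mem)
  refine hS (y1 S) (s1 S) c fun i => ⟨?_, ?_⟩
  · rintro ⟨w, hw⟩
    have hw' : ∀ j, |b.repr ((x1 i : E) + y1 S - b1 * s1 S * t1 i * w ^ q) j| ≤ c := hw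
    set u : E := (x1 i : E) + y1 S - b1 * s1 S * t1 i * w ^ q with hu
    have hun : u ∈ A.nonunits := by
      rw [hAn]
      intro j
      refine VN_cvx hW ?_ hcn
      rw [abs_of_nonneg hc0]
      exact hw' j
    -- the other factor is a unit
    have hβρ : ρ (b1 * s1 S * t1 i) ≠ 0 := by
      rw [map_mul, map_mul, hb1, hs1, ht1]
      exact mul_ne_zero (mul_ne_zero hb0 (hs S)) (ht i)
    have hβn : ((b1 * s1 S * t1 i : A) : E) ∉ A.nonunits := fun h => hβρ ((hρ _).2 h)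
    have hβi : ((b1 * s1 S * t1 i : A) : E)⁻¹ ∈ A := inv_mem_of_notMem_nu hβn
    have hβ0 : ((b1 * s1 S * t1 i : A) : E) ≠ 0 := by
      intro h
      exact hβn (by rw [h]; exact A.nonunits.zero_mem)
    have hβe : ((b1 * s1 S * t1 i : A) : E) = (b1 : E) * s1 S * t1 i := rfl
    have hwq : w ^ q = ((b1 * s1 S * t1 i : A) : E)⁻¹ * (((x1 i + y1 S : A) : E) - u) := by
      rw [eq_inv_mul_iff_mul_eq₀ hβ0, hu, hβe]
      show _ = ((x1 i : E) + y1 S) - _
      ring
    have hwA : w ∈ A := by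
      refine nu_pow_mem q ?_ hq
      rw [hwq]
      exact A.mul_mem _ _ hβi (A.toSubring.sub_mem (x1 i + y1 S).2 (nu_mem hun))
    have h4 : ρ (x1 i + y1 S - b1 * s1 S * t1 i * (⟨w, hwA⟩ : A) ^ q) = 0 :=
      (hρ _).2 hun
    rw [hρu, sub_eq_zero] at h4
    exact (hcon i S).1 ⟨_, h4⟩
  · intro hi
    refine ⟨(z i : E), fun j => ?_⟩
    have h3 := hcb (i, j) (Finset.mem_univ _)
    simp only [if_pos hi] at h3
    exact h3

end NST
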