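import Mathlib

/-!
# Definitions for the statement of MP_32850b_lc.UnitClasses

An ordered field is a structure in the language `Lor` of ordered rings (the language of the frozen
statement S14553).  `StronglyNIP` is word for word the hypothesis of S14553 and
`AlmostRealClosed` word for word its conclusion.
-/

set_option autoImplicit false

open FirstOrder FirstOrder.Language

namespace Pool.Agent.NST.State

/-- the language of ordered rings -/
abbrev Lor : Language := Language.ring.sum Language.order

/-- The complete theory of `K` is strongly NIP (no ict-pattern of depth `ω` in one variable), as in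
S14553. -/
def StronglyNIP (K : Type) [Lor.Structure K] : Prop :=
  ∀ (M : Type) [Lor.Structure M], Lor.ElementarilyEquivalent M K →
    ∀ (m : ℕ → ℕ) (φ : ∀ i, Lor.Formula (Unit ⊕ Fin (m i))) (a : ∀ i, ℕ → Fin (m i) → M),
      ¬ ∀ η : ℕ → ℕ, ∀ n : ℕ, ∃ x : M, ∀ i < n, ∀ j < n,
        ((φ i).Realize (Sum.elim (fun _ => x) (a i j)) ↔ j = η i)

/-- The complete theory of `K` is NIP: for each formula `φ(x; y)` (`x`, `y` tuples) there is a
number `n` such that no `n` parameter tuples are shattered. -/
def NIP (K : Type) [Lor.Structure K] : Prop :=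
  ∀ (m k : ℕ) (φ : Lor.Formula (Fin m ⊕ Fin k)), ∃ n : ℕ, ∀ a : Fin n → Fin k → K,
    ∃ S : Set (Fin n), ∀ x : Fin m → K, ¬ ∀ i, (φ.Realize (Sum.elim x (a i)) ↔ i ∈ S)

/-- `K` is almost real closed, as in S14553: it has a henselian valuation ring (possibly `K`) whose
residue field is real closed. -/
def AlmostRealClosed (K : Type) [Field K] : Prop :=
  ∃ O : ValuationSubring K, HenselianLocalRing O ∧
    (∀ (n : ℕ) (f : Fin n → IsLocalRing.ResidueField O), ∑ i, f i ^ 2 ≠ -1) ∧
    (∀ c : IsLocalRing.ResidueField O, ∃ b, b ^ 2 = c ∨ b ^ 2 = -c) ∧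
    (∀ p : Polynomial (IsLocalRing.ResidueField O), Odd p.natDegree → ∃ x, p.IsRoot x)

/-- `x` is integral over the natural valuation ring `{a | |a| ≤ n for some natural number n}` of the
ordered field `K`: it is a root of a monic polynomial with coefficients in this ring. -/
def NatIntegral (K : Type) {E : Type} [Field K] [LinearOrder K] [Field E] [Algebra K E] (x : E) :
    Prop :=
  ∃ p : Polynomial K, p.Monic ∧ (∀ i, ∃ n : ℕ, |p.coeff i| ≤ n) ∧ Polynomial.aeval x p = 0

/-- In each finite extension `E` of `K` and for each prime `q`, the units of the integral closure of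
the natural valuation ring of `K` in `E` meet only finitely many classes of `E` modulo `q`-th
powers. -/
def FiniteUnitClasses (K : Type) [Field K] [LinearOrder K] : Prop :=
  ∀ (E : Type) [Field E] [Algebra K E] [FiniteDimensional K E] (q : ℕ), q.Prime →
    ∃ B : Finset E, ∀ x : E, x ≠ 0 → NatIntegral K x → NatIntegral K x⁻¹ →
      ∃ b ∈ B, ∃ y : E, x = b * y ^ q

end Pool.Agent.NST.State
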