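import Pool.Agent.NST.MainA
import Pool.Agent.NST.State
import Pool.Agent.NST.P_AR
import Pool.Agent.NST.P_CI
import Pool.Agent.NST.P_CLS
import Pool.Agent.NST.P_DI
import Pool.Agent.NST.P_EC
import Pool.Agent.NST.P_EH
import Pool.Agent.NST.P_EL
import Pool.Agent.NST.P_EQ
import Pool.Agent.NST.P_EX
import Pool.Agent.NST.P_F1
import Pool.Agent.NST.P_F2
import Pool.Agent.NST.P_F3
import Pool.Agent.NST.P_F4
import Pool.Agent.NST.P_FA
import Pool.Agent.NST.P_FR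
import Pool.Agent.NST.P_GD
import Pool.Agent.NST.P_GN
import Pool.Agent.NST.P_HE
import Pool.Agent.NST.P_HN
import Pool.Agent.NST.P_HQ
import Pool.Agent.NST.P_LI
import Pool.Agent.NST.P_M1
import Pool.Agent.NST.P_M2
import Pool.Agent.NST.P_NC
import Pool.Agent.NST.P_NE2
import Pool.Agent.NST.P_NU
import Pool.Agent.NST.P_OF
import Pool.Agent.NST.P_OV
import Pool.Agent.NST.P_RF
import Pool.Agent.NST.P_RK
import Pool.Agent.NST.P_RO
import Pool.Agent.NST.P_RR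
import Pool.Agent.NST.P_SN1
import Pool.Agent.NST.P_SN2
import Pool.Agent.NST.P_SNC
import Pool.Agent.NST.P_SQ
import Pool.Agent.NST.P_SSH
import Pool.Agent.NST.P_TE
import Pool.Agent.NST.P_TRE
import Pool.Agent.NST.P_TT
import Pool.Agent.NST.P_UC
import Pool.Agent.NST.P_UH
import Pool.Agent.NST.P_UT
import Pool.Agent.NST.P_VCK
import Pool.Agent.NST.P_VF
import Pool.Agent.NST.P_VM
import Pool.Agent.NST.P_VN

/-!
# NST: assembly of parts D, E and the main theorem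
-/

set_option autoImplicit false

open FirstOrder

namespace NST

theorem b_EQ : T_EQ := p_EQ a_AA p_VM p_CH
theorem b_DI : T_DI := p_DI p_AC a_UNS a_RS b_EQ
theorem b_AR : T_AR := p_AR p_AC a_UNS a_RS b_EQ
theorem b_F1 : T_F1 := p_F1 p_OV p_IC
theorem b_F2 : T_F2 := p_F2 p_OV
theorem b_F3 : T_F3 := p_F3 a_FE p_CH p_TT p_TE p_CO p_IC
theorem b_F4 : T_F4 := p_F4 p_RK
theorem b_HN : T_HN := p_HN p_CH
theorem b_M1 : T_M1 := p_M1 b_AR b_F1 p_CH p_RO p_RF b_F2 b_F3 b_DI b_F4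
theorem b_M2 : T_M2 := p_M2 b_M1 b_HN p_RO
theorem b_TRE : T_TRE := p_TRE p_SSH
theorem b_NU : T_NU := p_NU p_SSH b_TRE
theorem b_UC : T_UC := p_UC p_CI
theorem b_VF : T_VF := p_VF p_CLS b_UC a_FE b_NU
theorem b_UT : T_UT := p_UT a_CN p_VM p_CH b_UC
theorem b_OF : T_OF := p_OF b_VF a_STB p_VM a_EM b_UT
theorem b_VN : T_VN := p_VN p_LI p_VCK
theorem b_FR : T_FR := p_FR p_LI b_UC a_CC
theorem b_GD : T_GD := p_GD b_OF b_VN b_FR p_SQ
theorem b_FA : T_FA := p_FA p_EX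
theorem b_GN : T_GN := p_GN p_EL p_NE2 p_EC b_FA b_GD b_M2
theorem b_SN2 : T_SN2 := p_SN2 p_SNC
theorem b_UH : T_UH := p_UH a_FE p_IC p_CR
theorem b_HQ : T_HQ := p_HQ p_CH
theorem b_NC : T_NC := p_NC p_EH b_UH b_HQ p_RO p_CH p_RF p_RK

open Pool.Agent.NST.State

theorem finA_iff (K : Type) [Field K] [LinearOrder K] [IsStrictOrderedRing K] :
    FinA K ↔ FiniteUnitClasses K := by
  constructor
  · intro h E _ _ _ q hq
    obtain ⟨B, hB⟩ := h E q hq
    exact ⟨B, fun x h0 h1 h2 => hB x ⟨h0, h1, h2⟩⟩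
  · intro h E _ _ _ q hq
    obtain ⟨B, hB⟩ := h E q hq
    exact ⟨B, fun x hx => hB x hx.1 hx.2.1 hx.2.2⟩

theorem main : ∀ (K : Type) [Field K] [LinearOrder K] [IsStrictOrderedRing K]
    [Ring.CompatibleRing K] [Language.order.Structure K] [Language.order.OrderedStructure K],
    (StronglyNIP K ∨ NIP K) → (AlmostRealClosed K ↔ FiniteUnitClasses K) := by
  intro K _ _ _ _ _ _ h
  have hN : NFV.NIP K := by
    rcases h with h | h
    · exact b_SN2 K (p_SN1 K h)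
    · exact h
  rw [← finA_iff]
  constructor
  · rintro ⟨O, h1, h2, h3, h4⟩
    exact b_NC K O h1 h2 h3 h4
  · intro hF
    obtain ⟨h1, h2⟩ := b_GN K hN hF
    obtain ⟨h3, h4, h5⟩ := p_RR K (natV K) natV_cvx h2
    exact ⟨natV K, p_HE K (natV K) h1, h3, h4, h5⟩

end NST
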