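import Pool.Agent.NST.TB
import Pool.Agent.NST.P_CR

/-!
# NST: target AA (approximation theorem)
-/

set_option autoImplicit false

noncomputable section

namespace NST

open Filter Polynomial

theorem AA_natCast_inv {M : Type} [Field M] (V : ValuationSubring (Lx M))
    (hV : ∀ u : M, cst u ∈ V) (c : ℕ) : ((c : Lx M))⁻¹ ∈ V := by
  rw [← cst_natCast, ← cst_inv]
  exact hV _

theorem AA_natCast {M : Type} [Field M] (V : ValuationSubring (Lx M))
    (hV : ∀ u : M, cst u ∈ V) (c : ℕ) : (c : Lx M) ∈ V := by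
  rw [← cst_natCast]
  exact hV _

/-- a common small denominator -/
theorem AA_den {L : Type} [Field L] {n : ℕ} (V : Fin n → ValuationSubring L)
    (h : ∀ d : L, d ≠ 0 → ∃ r : L, r ≠ 0 ∧ ∀ k, r ∈ V k ∧ r / d ∈ V k) {ι : Type} (s : Finset ι)
    (d : ι → L) (hd : ∀ i ∈ s, d i ≠ 0) :
    ∃ r : L, r ≠ 0 ∧ (∀ k, r ∈ V k) ∧ ∀ i ∈ s, ∀ k, r / d i ∈ V k := by
  classical
  induction s using Finset.induction_on with
  | empty => exact ⟨1, one_ne_zero, fun k => (V k).one_mem, fun i hi => absurd hi (by simp)⟩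
  | insert j s hj ih =>
    obtain ⟨r, hr, hrV, hrd⟩ := ih fun i hi => hd i (Finset.mem_insert_of_mem hi)
    obtain ⟨r', hr', hrd'⟩ := h (d j) (hd j (Finset.mem_insert_self j s))
    refine ⟨r * r', mul_ne_zero hr hr', fun k => (V k).mul_mem _ _ (hrV k) (hrd' k).1, ?_⟩
    intro i hi k
    rcases Finset.mem_insert.1 hi with rfl | hi
    · rw [mul_div_assoc]
      exact (V k).mul_mem _ _ (hrV k) (hrd' k).2
    · rw [mul_comm, mul_div_assoc]
      exact (V k).mul_mem _ _ (hrd' k).1 (hrd i hi k)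

theorem AA_inter {M : Type} [Field M] (n : ℕ) (V : Fin n → ValuationSubring (Lx M))
    (hV : ∀ k, Mon (V k)) : ∃ D : ℕ → Set M, Antitone D ∧
      ∀ x, (∀ k, x ∈ (V k).nonunits) ↔ ∀ i, x ∈ St (D i) := by
  choose D hD hx using fun k => (hV k).mon
  refine ⟨fun i => ⋂ k, D k i, ?_, ?_⟩
  · intro i j hij
    exact Set.iInter_mono fun k => hD k hij
  · intro x
    have h1 : ∀ i, x ∈ St (⋂ k, D k i) ↔ ∀ k, x ∈ St (D k i) := by
      intro i
      obtain ⟨f, rfl⟩ := exists_mk x
      simp only [mem_St, Set.mem_iInter]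
      exact eventually_all
    simp only [h1, hx]
    exact forall_comm

/-- the main step, for a family -/
theorem AA_main (h3 : T_LF) (M : Type) [Field M] [CharZero M] (n : ℕ)
    (V : Fin n → ValuationSubring (Lx M)) (hV : ∀ k, Mon (V k))
    (hinc : ∀ k l, k ≠ l → ¬ V k ≤ V l) (a c : Fin n → Lx M) (hc : ∀ k, c k ≠ 0) :
    ∃ x : Lx M, ∀ k, (x - a k) / c k ∈ (V k).nonunits := by
  classical
  have hcst : ∀ k (u : M), cst u ∈ V k := fun k => (hV k).cst_mem
  obtain ⟨hCR1, hCR2⟩ := p_CR0 (Lx M) n V hinc fun k m _ => AA_natCast_inv (V k) (hcst k) m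
  obtain ⟨D, hD, hDx⟩ := AA_inter n V hV
  -- (1) the denominator
  have hden : ∀ d : Lx M, d ≠ 0 → ∃ r : Lx M, r ≠ 0 ∧ ∀ k, r ∈ V k ∧ r / d ∈ V k := by
    intro d hd
    obtain ⟨m, hm, hne, hmV⟩ := hCR1 d⁻¹
    refine ⟨(d⁻¹ + m)⁻¹, inv_ne_zero hne, fun k => ⟨hmV k, ?_⟩⟩
    have h4 : (d⁻¹ + (m : Lx M))⁻¹ / d = 1 - m * (d⁻¹ + (m : Lx M))⁻¹ := by
      rw [eq_sub_iff_add_eq, div_eq_mul_inv, mul_comm _ d⁻¹, ← add_mul, mul_inv_cancel₀ hne]
    rw [h4]
    exact sub_mem (V k).one_mem ((V k).mul_mem _ _ (AA_natCast (V k) (hcst k) m) (hmV k))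
  obtain ⟨C, hC0, _, hCd⟩ := AA_den V hden
    ((Finset.univ : Finset (Fin n × Fin n)).filter fun p => a p.1 ≠ 0)
    (fun p => c p.2 / a p.1) fun p hp => div_ne_zero (hc _) (Finset.mem_filter.1 hp).2
  have hCk : ∀ i k j, a i * C / c k ∈ V j := by
    intro i k j
    by_cases hi : a i = 0
    · rw [hi, zero_mul, zero_div]
      exact (V j).zero_mem
    · have h4 := hCd (i, k) (Finset.mem_filter.2 ⟨Finset.mem_univ _, hi⟩) j
      have h5 : C / (c k / a i) = a i * C / c k := by
        rw [div_div_eq_mul_div, mul_comm]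
      rwa [← h5]
  -- (2) idempotents
  have he : ∀ i, ∃ e : Lx M, ∀ k, (e - if i = k then 1 else 0) / C ∈ (V k).nonunits := by
    intro i
    obtain ⟨f, hfV, hf⟩ := hCR2 (fun k => if i = k then 1 else 0) fun k => by
      split_ifs
      · exact (V k).one_mem
      · exact (V k).zero_mem
    have hff : ∀ k, f * f - f ∈ (V k).nonunits := by
      intro k
      have h4 := hf k
      by_cases hik : i = k
      · rw [if_pos hik] at h4
        have h5 : f * f - f = f * (f - 1) := by ring
        rw [h5]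
        exact nu_mul (hfV k) h4
      · rw [if_neg hik, sub_zero] at h4
        have h5 : f * f - f = (f - 1) * f := by ring
        rw [h5]
        exact nu_mul (sub_mem (hfV k) (V k).one_mem) h4
    obtain ⟨e, he1, he2⟩ := h3 M n V D hD hDx hcst f hff C hC0
    refine ⟨e, fun k => ?_⟩
    have h4 := (V k).nonunits.add_mem (he1 k) (hf k)
    have h5 := he2 k
    by_cases hik : i = k
    · rw [if_pos hik] at h4 ⊢
      have h6 : e - 1 ∈ (V k).nonunits := by
        have : e - f + (f - 1) = e - 1 := by ring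
        rwa [this] at h4
      have h7 : (e - 1) / C = -e⁻¹ * (e * (1 - e) / C) := by
        have := ne_zero_of_one h6
        field_simp
        ring
      rw [h7]
      exact nu_mul ((V k).neg_mem _ (inv_mem_of_one h6)) h5
    · rw [if_neg hik] at h4 ⊢
      have h6 : e ∈ (V k).nonunits := by
        have : e - f + (f - 0) = e := by ring
        rwa [this] at h4
      have h8 : (1 - e) - 1 ∈ (V k).nonunits := by
        have : (1 - e) - 1 = -e := by ring
        rw [this]
        exact (V k).nonunits.neg_mem h6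
      have h7 : (e - 0) / C = (1 - e)⁻¹ * (e * (1 - e) / C) := by
        have := ne_zero_of_one h8
        field_simp
        ring
      rw [h7]
      exact nu_mul (inv_mem_of_one h8) h5
  choose e he using he
  refine ⟨∑ i, a i * e i, fun k => ?_⟩
  have h4 : (∑ i, a i * e i - a k) / c k =
      ∑ i, (a i * C / c k) * ((e i - if i = k then 1 else 0) / C) := by
    have h5 : ∑ i, a i * e i - a k = ∑ i, a i * (e i - if i = k then 1 else 0) := by
      simp only [mul_sub, Finset.sum_sub_distrib, mul_ite, mul_one, mul_zero,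
        Finset.sum_ite_eq', Finset.mem_univ, if_true]
    rw [h5, Finset.sum_div]
    refine Finset.sum_congr rfl fun i _ => ?_
    have := hc k
    field_simp
  rw [h4]
  exact (V k).nonunits.sum_mem fun i _ => nu_mul (hCk i k k) (he i k)

theorem p_AA (h2 : T_CM) (h3 : T_LF) : T_AA := by
  intro M _ _ s hs hMon a c hc
  classical
  have : Finite s := hs
  obtain ⟨n, ⟨e⟩⟩ := Finite.exists_equiv_fin s
  obtain ⟨x, hx⟩ := AA_main h3 M n (fun k => (e.symm k : ValuationSubring (Lx M)))
    (fun k => hMon _ (e.symm k).2) (fun k l hkl hle => hkl (by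
      have := h2 M _ _ (hMon _ (e.symm k).2) (hMon _ (e.symm l).2) hle
      exact e.symm.injective (Subtype.ext this)))
    (fun k => a (e.symm k)) (fun k => c (e.symm k)) (fun k => hc _ (e.symm k).2)
  refine ⟨x, fun V hV => ?_⟩
  have h4 := hx (e ⟨V, hV⟩)
  simpa using h4

end NST
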