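import Pool.Agent.NST.TA

/-!
# NST-FG: the finitary Gallai theorem
-/

set_option autoImplicit false

namespace NST

open Combinatorics

theorem p_FG : T_FG := by
  classical
  intro M κ _ _ _ T
  obtain ⟨ι, _inst, hι⟩ := Line.exists_mono_in_high_dimension (insert (0 : M) T : Finset M) κ
  refine ⟨Finset.univ.image fun v : ι → (insert (0 : M) T : Finset M) => ∑ i, (v i : M), ?_⟩
  intro C
  obtain ⟨l, c, hl⟩ := hι fun v => C (∑ i, (v i : M))
  have h0 : (0 : M) ∈ insert (0 : M) T := Finset.mem_insert_self _ _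
  refine ⟨∑ i, (l ⟨0, h0⟩ i : M), Finset.mem_image.2 ⟨l ⟨0, h0⟩, Finset.mem_univ _, rfl⟩, ?_⟩
  set s : Finset ι := {i | l.idxFun i = none} with hs
  refine ⟨s.card, Finset.card_pos.mpr ⟨l.proper.choose, ?_⟩, ?_⟩
  · rw [hs, Finset.mem_filter]
    exact ⟨Finset.mem_univ _, l.proper.choose_spec⟩
  intro t ht
  have ht' : t ∈ insert (0 : M) T := Finset.mem_insert_of_mem ht
  have key : ∑ i, (l ⟨t, ht'⟩ i : M) = ∑ i, (l ⟨0, h0⟩ i : M) + s.card * t := by
    have h1 : ∀ i, (l ⟨t, ht'⟩ i : M) = (l ⟨0, h0⟩ i : M) + (if i ∈ s then t else 0) := by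
      intro i
      by_cases hi : i ∈ s
      · rw [if_pos hi]
        rw [hs, Finset.mem_filter] at hi
        rw [l.apply_none _ _ hi.2, l.apply_none _ _ hi.2]
        simp
      · rw [if_neg hi]
        rw [hs, Finset.mem_filter] at hi
        have hi' : l.idxFun i ≠ none := fun h => hi ⟨Finset.mem_univ _, h⟩
        obtain ⟨y, hy⟩ := Option.ne_none_iff_exists.mp hi'
        rw [l.apply_some hy.symm, l.apply_some hy.symm, add_zero]
    rw [Finset.sum_congr rfl fun i _ => h1 i, Finset.sum_add_distrib, Finset.sum_ite_mem,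
      Finset.univ_inter, Finset.sum_const, nsmul_eq_mul]
  rw [← key]
  exact (hl ⟨t, ht'⟩).trans (hl ⟨0, h0⟩).symm

end NST
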