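import Pool.Agent.NST.TG

/-!
# NST: unit classes in finite extensions of residue fields
-/

set_option autoImplicit false

namespace NST

open Polynomial

/-- lower coefficients of the characteristic polynomial of a matrix which reduces to zero -/
theorem FR_charpoly {K k : Type} [Field K] [Field k] (W : ValuationSubring K) (π : W →+* k)
    (hker : ∀ a : W, π a = 0 ↔ (a : K) ∈ W.nonunits) {r : ℕ} (M : Matrix (Fin r) (Fin r) K)
    (hM : ∀ i j, M i j ∈ W.nonunits) : ∀ i, i < r → M.charpoly.coeff i ∈ W.nonunits := by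
  intro i hi
  set N : Matrix (Fin r) (Fin r) W := fun a c => ⟨M a c, nu_mem (hM a c)⟩ with hN
  have h1 : N.map W.subtype = M := by
    ext a c
    rfl
  have h2 : N.map π = 0 := by
    ext a c
    rw [Matrix.map_apply, Matrix.zero_apply]
    exact (hker _).2 (hM a c)
  have h3 : M.charpoly = N.charpoly.map W.subtype := by
    rw [← Matrix.charpoly_map, h1]
  have h4 : N.charpoly.map π = X ^ r := by
    rw [← Matrix.charpoly_map, h2, Matrix.charpoly_zero, Fintype.card_fin]
  have h5 : π (N.charpoly.coeff i) = 0 := by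
    rw [← coeff_map, h4, coeff_X_pow, if_neg (by omega)]
  rw [h3, coeff_map]
  exact (hker _).1 h5

/-- bounded lifts of bounded elements -/
theorem FR_bound {K k : Type} [Field K] [LinearOrder K] [IsStrictOrderedRing K] [Field k]
    [LinearOrder k] [IsStrictOrderedRing k] (W : ValuationSubring K) (π : W →+* k)
    (hmono : ∀ a b : W, (a : K) ≤ b → π a ≤ π b) (c : W) (n : ℕ) (h : |π c| ≤ n) :
    |(c : K)| ≤ ((n + 1 : ℕ) : K) := by
  by_contra hcon
  push Not at hcon
  have key : ∀ e : W, |π e| ≤ n → ((n + 1 : ℕ) : K) < (e : K) → False := by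
    intro e he hlt
    have h1 : (((n + 1 : ℕ) : W) : K) ≤ (e : K) := by
      have : (((n + 1 : ℕ) : W) : K) = ((n + 1 : ℕ) : K) := by
        simp
      rw [this]
      exact hlt.le
    have h2 := hmono _ _ h1
    rw [map_natCast] at h2
    have h3 : π e ≤ |π e| := le_abs_self _
    have h4 : ((n + 1 : ℕ) : k) ≤ (n : k) := h2.trans (h3.trans he)
    have h5 : (n + 1 : ℕ) ≤ n := by exact_mod_cast h4
    omega
  rcases le_total 0 (c : K) with h0 | h0
  · rw [abs_of_nonneg h0] at hcon
    exact key c h hcon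
  · rw [abs_of_nonpos h0] at hcon
    refine key (-c) ?_ ?_
    · rw [map_neg, abs_neg]
      exact h
    · have : ((-c : W) : K) = -(c : K) := by simp
      rw [this]
      exact hcon

/-- elements of `A` which reduce to integral elements are integral -/
theorem FR_itg (h2 : T_UC) (h3 : T_CC) {K k : Type} [Field K] [LinearOrder K]
    [IsStrictOrderedRing K] [Field k] [LinearOrder k] [IsStrictOrderedRing k]
    (W : ValuationSubring K) (hW : Cvx W) (π : W →+* k) (hOR : OR W k π) {F : Type} [Field F]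
    [Algebra k F] {E : Type} [Field E] [Algebra K E] {r : ℕ} (b : Module.Basis (Fin r) K E)
    (A : ValuationSubring E) (ρ : A →+* F) (hr : 0 < r) (hA : ∀ z, z ∈ A ↔ ∀ i, b.repr z i ∈ W)
    (hAn : ∀ z, z ∈ A.nonunits ↔ ∀ i, b.repr z i ∈ W.nonunits)
    (hρ : ∀ a : A, ρ a = 0 ↔ (a : E) ∈ A.nonunits) (hAW : A.comap (algebraMap K E) = W)
    (hc : ∀ (a : W) (ha : algebraMap K E a ∈ A), ρ ⟨algebraMap K E a, ha⟩ = algebraMap k F (π a))
    (x : A) (hx : Itg k (ρ x)) : Itg K (x : E) := by
  classical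
  obtain ⟨p, hpm, hpb, hp0⟩ := hx
  rw [h2 K E (x : E)]
  intro V' hV'
  -- the embedding of `W` into `A`
  have hmem : ∀ a : W, algebraMap K E a ∈ A := by
    intro a
    have h4 : (a : K) ∈ A.comap (algebraMap K E) := by
      rw [hAW]
      exact a.2
    exact h4
  set φ : W →+* A := ((algebraMap K E).comp W.subtype).codRestrict A.toSubring hmem with hφ
  have hφv : ∀ a : W, ((φ a : A) : E) = algebraMap K E a := fun a => rfl
  have hρφ : ρ.comp φ = (algebraMap k F).comp π := by
    ext a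
    exact hc a (hmem a)
  -- lift the polynomial
  have hlift : p ∈ Polynomial.lifts π := by
    rw [Polynomial.lifts_iff_coeff_lifts]
    intro n
    exact hOR.surj _
  obtain ⟨P, hP1, hP2, hP3⟩ := Polynomial.lifts_and_natDegree_eq_and_monic hlift hpm
  have hPb : ∀ i, ∃ n : ℕ, |((P.coeff i : W) : K)| ≤ n := by
    intro i
    obtain ⟨n, hn⟩ := hpb i
    refine ⟨n + 1, FR_bound W π hOR.mono _ n ?_⟩
    rw [← coeff_map, hP1]
    exact hn
  have hdeg : 0 < P.natDegree := by
    rw [hP2]
    rcases Nat.eq_zero_or_pos p.natDegree with h4 | h4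
    · exfalso
      have h5 : p = 1 := Polynomial.Monic.natDegree_eq_zero hpm |>.1 h4
      rw [h5, map_one] at hp0
      exact one_ne_zero hp0
    · exact h4
  -- the value of the lift
  set e : A := P.eval₂ φ x with he
  have hρe : ρ e = 0 := by
    rw [he, Polynomial.hom_eval₂, hρφ, ← Polynomial.eval₂_map, hP1]
    exact hp0
  have hen : (e : E) ∈ A.nonunits := (hρ e).1 hρe
  set θ : W →+* E := (algebraMap K E).comp W.subtype with hθ
  have hev : (e : E) = P.eval₂ θ (x : E) := by
    have h4 := Polynomial.hom_eval₂ P φ A.subtype x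
    exact h4
  -- it is in the maximal ideal of `V'`
  set M : Matrix (Fin r) (Fin r) K := fun i j => b.repr ((e : E) * b j) i with hM
  have hbA : ∀ j, b j ∈ A := by
    intro j
    rw [hA]
    intro i
    rw [b.repr_self, Finsupp.single_apply]
    split_ifs
    · exact W.one_mem
    · exact W.zero_mem
  have hMn : ∀ i j, M i j ∈ W.nonunits := by
    intro i j
    have h4 : (e : E) * b j ∈ A.nonunits := nu_mul' hen (hbA j)
    exact (hAn _).1 h4 i
  have hch := FR_charpoly W π hOR.ker M hMn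
  have heV : (e : E) ∈ V'.nonunits := by
    have h4 := h3 K E (algebraMap K E) (natV K) r (fun i => b i) M (e : E) hr ?_ ?_
    · exact h4.2 (fun i hi => nu_of_le hW.natV_le (hch i hi)) V' hV'
    · intro c hcs i
      have h5 : ∑ i, c i • b i = 0 := by
        rw [← hcs]
        refine Finset.sum_congr rfl fun i _ => ?_
        rw [Algebra.smul_def]
      exact (Fintype.linearIndependent_iff.1 b.linearIndependent) c h5 i
    · intro j
      have h5 := b.sum_repr ((e : E) * b j)
      rw [← h5]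
      refine Finset.sum_congr rfl fun i _ => ?_
      rw [Algebra.smul_def]
  -- conclusion
  set P' : E[X] := P.map θ with hP'
  have hP'm : P'.Monic := hP3.map θ
  have hP'd : P'.natDegree = P.natDegree := hP3.natDegree_map θ
  have hsub : (P' - C (e : E)).Monic := by
    refine Polynomial.Monic.sub_of_left hP'm ?_
    refine lt_of_le_of_lt Polynomial.degree_C_le ?_
    rw [Polynomial.degree_eq_natDegree hP'm.ne_zero, hP'd]
    exact_mod_cast hdeg
  refine mem_of_root (RingHom.id E) hsub ?_ (z := (x : E)) ?_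
  · intro i _
    rw [RingHom.id_apply, coeff_sub]
    have h5 : P'.coeff i ∈ V' := by
      rw [hP', coeff_map]
      have h6 : ((P.coeff i : W) : K) ∈ V'.comap (algebraMap K E) := by
        rw [hV']
        exact mem_natV.2 (hPb i)
      exact h6
    have h6 : (C (e : E)).coeff i ∈ V' := by
      rw [coeff_C]
      split_ifs
      · exact nu_mem heV
      · exact V'.zero_mem
    exact V'.toSubring.sub_mem h5 h6
  · rw [eval₂_id, eval_sub, eval_C, hP', eval_map, ← hev, sub_self]

theorem p_FR (h1 : T_LI) (h2 : T_UC) (h3 : T_CC) : T_FR := by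
  classical
  intro K _ _ _ hFA W hW k _ _ _ π hOR F _ _ _ q hq
  obtain ⟨E, iE, iA, r, b, A, ρ, hr, hA, hAn, hsurj, hρ, hAW, hc⟩ :=
    h1 K k W π hOR.surj hOR.ker F
  letI := iE
  letI := iA
  haveI : FiniteDimensional K E := Module.Finite.of_basis b
  obtain ⟨B, hB⟩ := hFA E q hq
  have hitg : ∀ x : A, Itg k (ρ x) → Itg K (x : E) :=
    fun x hx => FR_itg h2 h3 W hW π hOR b A ρ hr hA hAn hρ hAW hc x hx
  have hun : ∀ x : A, UnE k (ρ x) → (x : E) ≠ 0 ∧ (x : E)⁻¹ ∈ A ∧ UnE K (x : E) := by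
    intro x hx
    obtain ⟨hx0, hx1, hx2⟩ := hx
    have h4 : (x : E) ∉ A.nonunits := fun h => hx0 ((hρ x).2 h)
    have h5 : (x : E) ≠ 0 := by
      intro h
      exact h4 (nu_iff.2 (Or.inl h))
    have h6 : (x : E)⁻¹ ∈ A := inv_mem_of_notMem_nu h4
    have h7 : ρ x * ρ ⟨(x : E)⁻¹, h6⟩ = 1 := by
      rw [← map_mul]
      have : x * ⟨(x : E)⁻¹, h6⟩ = 1 := by
        apply Subtype.ext
        show (x : E) * (x : E)⁻¹ = 1
        exact mul_inv_cancel₀ h5
      rw [this, map_one]
    have h8 : ρ ⟨(x : E)⁻¹, h6⟩ = (ρ x)⁻¹ := by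
      rw [eq_inv_of_mul_eq_one_right h7]
    refine ⟨h5, h6, h5, hitg x hx1, ?_⟩
    have h9 := hitg ⟨(x : E)⁻¹, h6⟩ (by rw [h8]; exact hx2)
    exact h9
  set g : E → F := fun β => if h : ∃ u : A, (u : E) ≠ 0 ∧ (u : E)⁻¹ ∈ A ∧ ∃ y : E, (u : E) = β * y ^ q then
    ρ (Classical.choose h) else 0 with hg
  refine ⟨B.image g, ?_⟩
  intro x hx
  obtain ⟨x₁, hx₁⟩ := hsurj x
  obtain ⟨h4, h5, h6⟩ := hun x₁ (by rw [hx₁]; exact hx)
  obtain ⟨β, hβ, y, hy⟩ := hB (x₁ : E) h6
  have hex : ∃ u : A, (u : E) ≠ 0 ∧ (u : E)⁻¹ ∈ A ∧ ∃ y : E, (u : E) = β * y ^ q := ⟨x₁, h4, h5, y, hy⟩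
  refine ⟨g β, Finset.mem_image_of_mem g hβ, ?_⟩
  have hgβ : g β = ρ (Classical.choose hex) := by
    rw [hg]
    exact dif_pos hex
  obtain ⟨hu0, huA, y', hy'⟩ := Classical.choose_spec hex
  set u : A := Classical.choose hex with hu
  have hβ0 : β ≠ 0 := by
    rintro rfl
    rw [zero_mul] at hy'
    exact hu0 hy'
  have hy0 : y' ≠ 0 := by
    rintro rfl
    rw [zero_pow hq.ne_zero, mul_zero] at hy'
    exact hu0 hy'
  set z : E := y / y' with hz
  have hzq : (x₁ : E) = u * z ^ q := by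
    rw [hy, hy', hz, div_pow]
    have : y' ^ q ≠ 0 := pow_ne_zero _ hy0
    field_simp
  have hzA : z ∈ A := by
    refine nu_pow_mem q ?_ hq.pos
    have h7 : z ^ q = (u : E)⁻¹ * x₁ := by
      rw [hzq]
      field_simp
    rw [h7]
    exact A.mul_mem _ _ huA x₁.2
  refine ⟨ρ ⟨z, hzA⟩, ?_⟩
  rw [hgβ, ← hx₁, ← map_pow, ← map_mul]
  congr 1
  apply Subtype.ext
  exact hzq

end NST
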