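import Pool.Agent.NST.TC

/-!
# NST-LO: outside the control set everything is a local power
-/

set_option autoImplicit false

noncomputable section

namespace NST

theorem p_LO (h1 : T_AA) : T_LO := by
  classical
  intro E _ _ q s hs V hV hVs w hw
  obtain ⟨x, hx⟩ := h1 E (insert V s) (hs.fin.insert V) (fun W hW => by
      rcases Set.mem_insert_iff.1 hW with h | h
      · rw [h]
        exact hV
      · exact hs.mon W h)
    (fun W => if W = V then w else 1) (fun W => if W = V then w else 1) (fun W _ => by
      by_cases h : W = V
      · simp only [h, if_true]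
        exact hw
      · simp only [h, if_false]
        exact one_ne_zero)
  have h2 : x / w - 1 ∈ V.nonunits := by
    have h := hx V (Set.mem_insert V s)
    simp only [if_true] at h
    rwa [sub_div, div_self hw] at h
  have h3 : ∀ W ∈ s, x - 1 ∈ W.nonunits := by
    intro W hW
    have hne : W ≠ V := fun h => hVs (h ▸ hW)
    have h := hx W (Set.mem_insert_of_mem V hW)
    simp only [hne, if_false, div_one] at h
    exact h
  have hx0 : x ≠ 0 := by
    rintro rfl
    exact ne_zero_of_one h2 (zero_div w)
  obtain ⟨y, hy⟩ := hs.pow x hx0 h3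
  refine ⟨y⁻¹, ?_⟩
  have h4 : w * y⁻¹ ^ q = (x / w)⁻¹ := by
    rw [inv_pow, ← hy, inv_div, div_eq_mul_inv]
  rw [h4]
  exact one_inv h2

end NST
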