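import Pool.Agent.NST.TD

/-!
# NST-RR: the residue field of a convex valuation ring with `RCr`
-/

set_option autoImplicit false

namespace NST

open Polynomial

namespace RR_

variable {K : Type} [Field K] [LinearOrder K] [IsStrictOrderedRing K]

omit [LinearOrder K] [IsStrictOrderedRing K] in
lemma res_zero {O : ValuationSubring K} (a : O) (h : (a : K) ∈ O.nonunits) :
    IsLocalRing.residue O a = 0 := by
  rw [IsLocalRing.residue_eq_zero_iff]
  obtain ⟨ha, h1⟩ := ValuationSubring.mem_nonunits_iff_exists_mem_maximalIdeal.1 h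
  exact h1

lemma unit {O : ValuationSubring K} (hC : Cvx O) (a : O) (h : (1 : K) ≤ a) : IsUnit a := by
  have h0 : (0 : K) < a := lt_of_lt_of_le one_pos h
  have h1 : (a : K)⁻¹ ∈ O := by
    refine hC _ 1 ?_ O.one_mem
    rw [abs_one, abs_of_pos (inv_pos.2 h0)]
    exact inv_le_one_of_one_le₀ h
  refine IsUnit.of_mul_eq_one ⟨(a : K)⁻¹, h1⟩ ?_
  apply Subtype.ext
  show (a : K) * (a : K)⁻¹ = 1
  exact mul_inv_cancel₀ h0.ne'

end RR_

open RR_ in
/-- the residue field is real closed -/
theorem p_RR : T_RR := by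
  intro K _ _ _ O hC hR
  refine ⟨?_, ?_, ?_⟩
  · intro n f hf
    have hs : ∀ i, ∃ a : O, IsLocalRing.residue O a = f i := fun i =>
      IsLocalRing.residue_surjective (f i)
    choose a ha using hs
    have h1 : IsLocalRing.residue O (1 + ∑ i, a i ^ 2) = 0 := by
      rw [map_add, map_one, map_sum]
      simp only [map_pow, ha]
      rw [hf]
      ring
    rw [IsLocalRing.residue_eq_zero_iff, IsLocalRing.mem_maximalIdeal, mem_nonunits_iff] at h1
    refine h1 (unit hC _ ?_)
    have h2 : ((1 + ∑ i, a i ^ 2 : O) : K) = 1 + ∑ i, (a i : K) ^ 2 := by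
      push_cast
      rfl
    rw [h2]
    have h3 : 0 ≤ ∑ i, (a i : K) ^ 2 := Finset.sum_nonneg fun i _ => sq_nonneg _
    linarith
  · intro c
    obtain ⟨c0, rfl⟩ := IsLocalRing.residue_surjective c
    obtain ⟨b, hb, h⟩ := hR.1 c0 c0.2
    refine ⟨IsLocalRing.residue O ⟨b, hb⟩, ?_⟩
    rcases h with h | h
    · left
      have h1 := res_zero (O := O) (⟨b, hb⟩ ^ 2 - c0) h
      rw [map_sub, map_pow, sub_eq_zero] at h1
      exact h1
    · right
      have h1 := res_zero (O := O) (⟨b, hb⟩ ^ 2 + c0) h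
      rw [map_add, map_pow] at h1
      exact eq_neg_of_add_eq_zero_left h1
  · intro p hp
    have hp0 : p ≠ 0 := by
      rintro rfl
      simp at hp
    have hl : p.leadingCoeff ≠ 0 := leadingCoeff_ne_zero.2 hp0
    set q : (IsLocalRing.ResidueField O)[X] := C p.leadingCoeff⁻¹ * p with hq
    have hqm : q.Monic := by
      rw [Monic, hq, leadingCoeff_mul, leadingCoeff_C, inv_mul_cancel₀ hl]
    have hqd : q.natDegree = p.natDegree := by
      rw [hq, natDegree_C_mul (inv_ne_zero hl)]
    have hlift : q ∈ lifts (IsLocalRing.residue O) := by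
      rw [lifts_iff_coeff_lifts]
      intro i
      obtain ⟨r, hr⟩ := IsLocalRing.residue_surjective (q.coeff i)
      exact ⟨r, hr⟩
    obtain ⟨P, hP1, hP2, hP3⟩ := lifts_and_natDegree_eq_and_monic hlift hqm
    have hinj : Function.Injective (algebraMap O K) := Subtype.val_injective
    obtain ⟨x, hx, h⟩ := hR.2 (P.map (algebraMap O K)) (hP3.map _)
      (by rw [natDegree_map_eq_of_injective hinj, hP2, hqd]; exact hp)
      (by
        intro i
        rw [coeff_map]
        exact (P.coeff i).2)
    have h1 : (P.map (algebraMap O K)).eval x = algebraMap O K (P.eval ⟨x, hx⟩) := by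
      have h2 : x = algebraMap O K ⟨x, hx⟩ := rfl
      conv_lhs => rw [h2]
      rw [eval_map, eval₂_at_apply]
    rw [h1] at h
    have h3 := res_zero (O := O) (P.eval ⟨x, hx⟩) h
    have h4 : q.eval (IsLocalRing.residue O ⟨x, hx⟩) = 0 := by
      rw [← hP1, eval_map, eval₂_at_apply]
      exact h3
    refine ⟨IsLocalRing.residue O ⟨x, hx⟩, ?_⟩
    rw [hq, eval_mul, eval_C] at h4
    exact (mul_eq_zero.1 h4).resolve_left (inv_ne_zero hl)

end NST
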