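import Pool.Agent.NST.TB

/-!
# NST-STB: the structure theorem for multiplicative functions with NIP translates
-/

set_option autoImplicit false

noncomputable section

namespace NST

open Filter Polynomial

theorem p_STB (h1 : T_ST) (h2 : T_IM) (h3 : T_SP) : T_STB := by
  intro M G _ _ _ _ _ F d hV
  by_cases hN : Ntr F
  · obtain ⟨n, V, hV1, hV2, hV3, hV4⟩ := h1 M G F d hV hN
    obtain ⟨D, hD, hD2⟩ := h2 M G F
    have hmon := h3 M n V D hD (fun x => (hV4 x).symm.trans (hD2 x)) hV1 hV2 hV3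
    refine ⟨Set.range V, Set.finite_range V, ?_, ?_⟩
    · rintro _ ⟨k, rfl⟩
      exact hmon k
    · intro x _ h
      have h4 : x - 1 ∈ II F := (hV4 _).2 fun k => h _ ⟨k, rfl⟩
      have h5 : Fs F (1 + (x - 1) * cst 1) = 1 := h4 1
      rwa [cst_one, mul_one, add_sub_cancel] at h5
  · refine ⟨∅, Set.finite_empty, fun V hV => absurd hV (Set.notMem_empty V), ?_⟩
    intro x hx _
    obtain ⟨f, rfl⟩ := exists_mk x
    rw [Fs_mk_iff]
    filter_upwards [mk_ne_zero.1 hx] with n hn
    by_contra hc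
    exact hN ⟨f n, hn, hc⟩

end NST
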