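import Pool.Agent.NST.Base

/-!
# NST: targets, part A: the structure theorem for multiplicative functions with NIP translates

`F : M →*₀ G`, `M` a field of characteristic `0`, `G` a finite commutative group with zero;
`L = Lx M` is the ultrapower, `Fs F` the extension of `F`.  `F m = 0` iff `m = 0`.
Complete proofs are in the docstrings.  Paper proof: ideas row 1782.
-/

set_option autoImplicit false

noncomputable section

namespace NST

open Filter Polynomial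

/-- no `d` points are shattered by the sets `{x | F (x + y) = g}`, `g ≠ 0` -/
def VCf {M G : Type} [Field M] [Zero G] (F : M → G) (d : ℕ) : Prop :=
  ∀ (x : Fin d → M) (y : Finset (Fin d) → M) (g : G), g ≠ 0 → ¬ ∀ i S, (F (x i + y S) = g ↔ i ∈ S)

/-- `F` is not trivial -/
def Ntr {M G : Type} [Field M] [CommGroupWithZero G] (F : M →*₀ G) : Prop :=
  ∃ m : M, m ≠ 0 ∧ F m ≠ 1

/-- `e` is a good point of the colouring `C` for the finite set `T` -/
def Good {M κ : Type} [Field M] (C : M → κ) (T : Finset M) (e : M) : Prop :=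
  ∃ n : ℕ, 0 < n ∧ ∀ t ∈ T, C (e + n * t) = C e

section Defs

variable {M G : Type} [Field M] [CommGroupWithZero G] [Finite G]

/-- the infinitesimals of `F` -/
def II (F : M →*₀ G) : Set (Lx M) := {e | ∀ u : M, Fs F (1 + e * cst u) = 1}

/-- the bounded elements of `F` -/
def RR (F : M →*₀ G) : Set (Lx M) := {b | ∀ e ∈ II F, Fs F (1 + e * b) = 1}

/-- the main property: infinitesimals are bounded -/
def C1 (F : M →*₀ G) : Prop := ∀ e ∈ II F, ∀ e' ∈ II F, Fs F (1 + e * e') = 1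

/-- the finite set `S` forces boundedness -/
def SB (F : M →*₀ G) (S : Finset M) : Prop :=
  ∀ x : Lx M, (∀ s ∈ S, Fs F (1 + x * cst s) = 1) → x ∈ RR F

/-- `R` is the ring of bounded elements, and its properties -/
structure Rg (F : M →*₀ G) (R : Subring (Lx M)) : Prop where
  mem : ∀ b, b ∈ R ↔ b ∈ RR F
  cst : ∀ u : M, cst u ∈ R
  sub : ∀ e ∈ II F, e ∈ R
  zero : (0 : Lx M) ∈ II F
  neg : ∀ e ∈ II F, -e ∈ II F
  add : ∀ e ∈ II F, ∀ e' ∈ II F, e + e' ∈ II F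
  mul : ∀ b ∈ R, ∀ e ∈ II F, b * e ∈ II F
  one : ∀ e ∈ II F, Fs F (1 + e) = 1
  inv : ∀ e ∈ II F, (1 + e)⁻¹ ∈ R
  ne : (1 : Lx M) ∉ II F
  colon : ∀ b, (∀ e ∈ II F, b * e ∈ II F) → b ∈ R

end Defs

/-! ## The two applications of NIP -/

/-- L1 (first use of NIP).  PROOF.  If `c1 = 0` or `c2 = 0` take `U = {0, 1}`: `F (a + u) = 0` means
`a + u = 0`.  Let both be nonzero, and suppose that every finite `U` admits `a`, `b`.  By induction
on `k`: there are `a b : ℕ → M` such that for all `j < k` and `S ⊆ {0, …, k - 1}`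
`F (a j + y S)` is `c2` if `j ∈ S`, `c1` if `j ∉ S`, where `y S = ∑ l ∈ S, b l`.  Step: take
`(a k, b k)` for `U` = all `y S` and all `(a j + y S)⁻¹` (`j < k`, `S ⊆ {0, …, k - 1}`).  For `j < k`
and `k ∈ S'`, `S' = S ∪ {k}`: `a j + y S' = v + b k = v (1 + b k v⁻¹)`, `v = a j + y S ≠ 0`, so `F`
does not change.  For `j = k`: `F (a k + y S) = c1` resp. `F (a k + b k + y S) = c2`.
For `k = d` this contradicts `VCf F d` with `g = c2` (`x i = a i`, `y S` = sum over `S`). -/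
def T_L1 : Prop :=
  ∀ (M G : Type) [Field M] [CommGroupWithZero G] [Finite G] (F : M →*₀ G) (d : ℕ),
    VCf F d → ∀ c1 c2 : G, c1 ≠ c2 → ∃ U : Finset M, ∀ a b : M,
      ¬ ∀ u ∈ U, F (a + u) = c1 ∧ F (a + b + u) = c2 ∧ F (1 + b * u) = 1

/-- L1L (transfer of L1).  PROOF.  The same `U`: if `a = mk a'`, `b = mk b'` satisfy the finitely
many conditions then almost all `(a' n, b' n)` do (`Fs_mk_iff`, `mk_add`, …). -/
def T_L1L : Prop :=
  ∀ (M G : Type) [Field M] [CommGroupWithZero G] [Finite G] (F : M →*₀ G) (d : ℕ),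
    VCf F d → ∀ c1 c2 : G, c1 ≠ c2 → ∃ U : Finset M, ∀ a b : Lx M,
      ¬ ∀ u ∈ U, Fs F (a + cst u) = c1 ∧ Fs F (a + b + cst u) = c2 ∧ Fs F (1 + b * cst u) = 1

/-- L2 (second use of NIP).  PROOF.  Suppose that every finite `Q` of nonzero elements admits
`w, e0, e1`.  Put `κ = c / c0 ≠ 1`.  By induction on `k` there are `z, e0, e1 : ℕ → M` such that
with `y S = 1 + ∑_{l < k} e_l z_l` (`e_l = e1 l` if `l ∈ S`, `e0 l` if not) and `x j = - e1 j * z j`: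
for all `S ⊆ {0, …, k - 1}` `F (y S) = κ ^ k`, and for `j < k`: `F (x j + y S)` is `κ ^ (k - 1)` if
`j ∈ S`, `κ ^ k` if `j ∉ S`.  Step: let `P` run over the finitely many values `y S`, `x j + y S`
(nonzero); take `w, e0 k, e1 k` for `Q` = all `P⁻¹`, `z k = w⁻¹` (`w ≠ 0`).  For
`e ∈ {e0 k, e1 k, e0 k - e1 k}`: `P + e z k = P w⁻¹ (w + e P⁻¹)`, so `F (P + e z k) = F P * κ`.
New values: `y S' = y S + e z k`; `x j + y S' = (x j + y S) + e z k` for `j < k`; `x k + y S'` is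
`y S` if `k ∈ S'`, and `y S + (e0 k - e1 k) z k` if `k ∉ S'`.  For `k = d ≥ 1` this
contradicts `VCf F d` with `g = κ ^ (d - 1)`; `d = 0`: `VCf F 0` is false (`g = 1`). -/
def T_L2 : Prop :=
  ∀ (M G : Type) [Field M] [CommGroupWithZero G] [Finite G] (F : M →*₀ G) (d : ℕ),
    VCf F d → ∀ c0 c : G, c0 ≠ 0 → c ≠ 0 → c0 ≠ c → ∃ Q : Finset M, (∀ P ∈ Q, P ≠ 0) ∧
      ∀ w e0 e1 : M, ¬ (F w = c0 ∧ ∀ P ∈ Q, F (w + e0 * P) = c ∧ F (w + e1 * P) = c ∧
        F (w + (e0 - e1) * P) = c)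

/-- L2L (transfer of L2).  PROOF.  As L1L; `e0`, `e1` stay in `M`. -/
def T_L2L : Prop :=
  ∀ (M G : Type) [Field M] [CommGroupWithZero G] [Finite G] (F : M →*₀ G) (d : ℕ),
    VCf F d → ∀ c0 c : G, c0 ≠ 0 → c ≠ 0 → c0 ≠ c → ∃ Q : Finset M, (∀ P ∈ Q, P ≠ 0) ∧
      ∀ (w : Lx M) (e0 e1 : M), ¬ (Fs F w = c0 ∧ ∀ P ∈ Q, Fs F (w + cst (e0 * P)) = c ∧
        Fs F (w + cst (e1 * P)) = c ∧ Fs F (w + cst ((e0 - e1) * P)) = c)

/-! ## Gallai -/

/-- G0 (Gallai).  PROOF.  `Combinatorics.exists_mono_homothetic_copy` for `insert 0 T`: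
`C (n • s + b)` is constant for `s` in it; `e = b`. -/
def T_G0 : Prop :=
  ∀ (M κ : Type) [Field M] [CharZero M] [Finite κ] (C : M → κ) (T : Finset M), ∃ e, Good C T e

/-- FG (finitary Gallai).  PROOF.  `α = {t // t ∈ insert 0 T}`; `ι` from Hales-Jewett
(`Combinatorics.Line.exists_mono_in_high_dimension α κ`); `T'` = the set of all `∑ i, (v i : M)`,
`v : ι → α`.  Given `C`, a monochromatic line `l` of `v ↦ C (∑ i, v i)`: `∑ i, l x i = n x + b` with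
`n` = number of active coordinates `≥ 1`; `b` is the value for `x = 0`. -/
def T_FG : Prop :=
  ∀ (M κ : Type) [Field M] [CharZero M] [Finite κ] (T : Finset M), ∃ T' : Finset M,
    ∀ C : M → κ, ∃ b ∈ T', Good C T b

/-- GB (Brauer form).  PROOF.  `T'` from FG for `T`.  `T₂` = all `t + s`, `t ∈ insert 0 T'`,
`s ∈ insert 0 T`.  G0 for `T₂`: `e`, `n` with `C (e + n τ) = C e` for `τ ∈ T₂`.  For `t ∈ insert 0 T'`
the point `e + n t` is good (`C (e + n t + n s) = C e = C (e + n t)`).  FG for the colouring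
`x ↦ C (n x)`: some `b ∈ T'` and `k > 0` with `C (n (b + k s)) = C (n b)`, so `n b` is good (with `n k`).
Take `e0 = e + n b`, `e1 = e`. -/
def T_GB : Prop :=
  ∀ (M κ : Type) [Field M] [CharZero M] [Finite κ] (C : M → κ) (T : Finset M),
    ∃ e0 e1 : M, Good C T e0 ∧ Good C T e1 ∧ Good C T (e0 - e1)

/-! ## The ring of bounded elements -/

/-- C1.  PROOF.  Let `e, e' ∈ II F`.  If `e = 0` trivial.  `a = e⁻¹`, `w = a + e' = a (1 + e e')`,
`c = Fs F a ≠ 0`; to show `Fs F w = c`.  `Fs F (a + v) = c` for all `v ∈ M` (`a + v = a (1 + e v)`).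
(1) `Fs F w ≠ 0`: otherwise `1 + e e' = 0`, `e' = - a`, so for each `r ≠ 0` in `M`
`1 = Fs F (1 + e' (-r)) = Fs F (1 + a r) = F r * Fs F (a + r⁻¹) = F r * c`; `r = 1` gives `c = 1`, so
`F r = 1` for all `r ≠ 0`, against `Ntr F`.
(2) Let `U` be the union of the sets of L1L over all pairs `c1 ≠ c2`, and suppose `Fs F w ≠ c`; let
`Q` be the set of L2L for `c0 = Fs F w` and `c`.  Colouring `C m = (P ↦ Fs F (w + cst (m P)))`
(`κ = Q → G`, `P ∈ Q`), `T = {u P⁻¹ | u ∈ U, P ∈ Q}`.  GB gives good `e0, e1, e0 - e1`.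
Claim: if `m` is good, `n` its number, `P ∈ Q`, then `g := Fs F (w + cst (m P))` is `c`.  For `u ∈ U`:
`Fs F (w + cst (m P) + cst (n u)) = g`.  Put `a' = (a + cst (m P)) / n`, `b' = e' / n`.  Then
`Fs F (a' + u) = c / F n`, `Fs F (a' + b' + u) = g / F n`, `Fs F (1 + b' u) = 1`, so by the choice of
`U` we get `c / F n = g / F n`.  So L2L is contradicted. -/
def T_C1 : Prop :=
  ∀ (M G : Type) [Field M] [CharZero M] [CommGroupWithZero G] [Finite G] (F : M →*₀ G) (d : ℕ),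
    VCf F d → Ntr F → C1 F

/-- RG (the ring).  Write `I = II F`, `R = RR F`.  PROOF.  (a) `e ∈ I`, `u ∈ M` imply `e u ∈ I`;
`0 ∈ I`; `- e ∈ I`; `Fs F (1 + e) = 1` (`u = 1`); `M ⊆ R`; `1 ∉ I` (`u = - 1` gives `Fs F 0 = 0`).
(b) `I ⊆ R` is `C1 F`.  (c) `e / (1 + e) ∈ I`: `1 + u e / (1 + e) = (1 + (1 + u) e) / (1 + e)`.
(d) `1 + e ∈ R`: for `δ ∈ I`, `1 + δ (1 + e) = (1 + δ) (1 + (δ / (1 + δ)) e)`, use (c), C1.
`(1 + e)⁻¹ = 1 + (- e / (1 + e))` is of the same form, so in `R`.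
(e) `b ∈ R`, `e ∈ I` imply `b e ∈ I`: `1 + b e u = 1 + (e u) b` with `e u ∈ I`.
(f) `e, e' ∈ I`: `1 + (e + e') u = (1 + e u) (1 + (1 + e u)⁻¹ (e' u))`, `(1 + e u)⁻¹ ∈ R` by (d), so by
(e) the second factor is in `1 + I`.  (g) `b, b' ∈ R`: `1 + e (b + b') = 1 + (e b + e b')`, and
`e b + e b' ∈ I` by (e), (f).  `1 + e (b b') = 1 + (e b) b'`, `e b ∈ I`.
(h) if `b I ⊆ I` then `b ∈ R` (`u = 1`). -/
def T_RG : Prop :=
  ∀ (M G : Type) [Field M] [CommGroupWithZero G] [Finite G] (F : M →*₀ G),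
    C1 F → ∃ R : Subring (Lx M), Rg F R

/-- NE (`I ≠ 0`).  PROOF.  Let `U n` be an increasing sequence of finite subsets of `M` with union
`M`, `0, 1 ∈ U n`.  G0 for `C = F`, `T = U n`: `e n`, `k n > 0` with `F (e n + k n u) = F (e n)` for
`u ∈ U n`; `e n ≠ 0` (otherwise `F (k n) = 0`).  `ε n = k n / e n`: `F (1 + ε n u) = 1` for `u ∈ U n`.
`mk ε ∈ II F`, and it is not `0`. -/
def T_NE : Prop :=
  ∀ (M G : Type) [Field M] [CharZero M] [Countable M] [CommGroupWithZero G] [Finite G]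
    (F : M →*₀ G), ∃ e ∈ II F, e ≠ 0

/-- S0 (compactness).  PROOF.  Suppose not.  Let `U n` be as in NE.  For each `n` there is
`x : Lx M` not in `RR F` with `Fs F (1 + x s) = 1` for `s ∈ U n`; so there is `e ∈ II F` with
`Fs F (1 + e x) ≠ 1`, and `Fs F (1 + e s) = 1` for `s ∈ U n`.  Looking at a suitable component we get
`x n, e n : M` with `F (1 + x n s) = 1`, `F (1 + e n s) = 1` for `s ∈ U n` and
`F (1 + e n x n) ≠ 1`.  `mk x, mk e ∈ II F` contradict C1 (the values `F (1 + e n x n)` are almost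
everywhere equal to some `g ≠ 1`, or use `Fs_mk_iff` directly). -/
def T_S0 : Prop :=
  ∀ (M G : Type) [Field M] [Countable M] [CommGroupWithZero G] [Finite G] (F : M →*₀ G),
    C1 F → ∃ S : Finset M, SB F S

/-- IN (some translate has a bounded inverse).  PROOF.  G0 for `C m = Fs F (w + cst m)`,
`T = insert 1 S`: `m`, `n > 0` with `Fs F (w + m + n s) = Fs F (w + m)` for `s ∈ T`.  `w + m ≠ 0`
(otherwise `s = 1` gives `F n = 0`).  `x = n / (w + m)` satisfies `Fs F (1 + x s) = 1` for `s ∈ S`, so it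
is bounded, and `(w + m)⁻¹ = x / n`. -/
def T_IN : Prop :=
  ∀ (M G : Type) [Field M] [CharZero M] [CommGroupWithZero G] [Finite G] (F : M →*₀ G)
    (R : Subring (Lx M)) (S : Finset M), Rg F R → SB F S →
    ∀ w : Lx M, ∃ m : M, w + cst m ≠ 0 ∧ (w + cst m)⁻¹ ∈ R

/-- SE (elements which are not infinitesimal are seen).  PROOF.  `z ≠ 0`.  There is `u ∈ M` with
`Fs F (1 + z u) ≠ 1`.  If `1 + z u = 0` then `z = cst z'`; choose `x ≠ 0` in `M` with `F x ≠ 1` and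
`m = (x - 1) / z'`.  Otherwise suppose that (*) `Fs F (1 + z m) = 1` for all `m ∈ M` with
`1 + z m ≠ 0` and `z / (1 + z m) ∈ R`.  Put `w = z⁻¹ + u`, `c = Fs F z⁻¹`,
`c0 = Fs F w = c * Fs F (1 + z u)`, so `c0 ≠ 0`, `c0 ≠ c`.  `Q` from L2L; colouring
`C m = (P ↦ Fs F (w + cst (m P)))`, `P ∈ Q`, `T = {s P⁻¹ | s ∈ insert 1 S, P ∈ Q}`; GB gives
`e0, e1`.  Claim: if `m` is good then `Fs F (w + cst (m P)) = c` for `P ∈ Q`: as in IN,
`w + m P ≠ 0` and `(w + m P)⁻¹ ∈ R`; and `w + m P = (1 + z (u + m P)) / z`, so by (*)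
`Fs F (w + m P) = Fs F z⁻¹`.  Contradiction with L2L. -/
def T_SE : Prop :=
  ∀ (M G : Type) [Field M] [CharZero M] [CommGroupWithZero G] [Finite G] (F : M →*₀ G) (d : ℕ),
    VCf F d → Ntr F → ∀ (R : Subring (Lx M)) (S : Finset M), Rg F R → SB F S →
    ∀ z : Lx M, z ∉ II F → ∃ m : M, 1 + z * cst m ≠ 0 ∧ z / (1 + z * cst m) ∈ R ∧
      Fs F (1 + z * cst m) ≠ 1

/-- BZ (Bezout).  PROOF.  For `a, b ∈ R`, `b ≠ 0`: IN for `w = a / b`: `r = (w + m)⁻¹ ∈ R`.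
`d = a + m b = b (w + m)`: `b = r d`, `a = d - m b = (1 - m r) d`, so `(a, b) = (d)`.
(`IsBezout.iff_span_pair_isPrincipal`.) -/
def T_BZ : Prop :=
  ∀ (L : Type) [Field L] (R : Subring L), (∀ w : L, ∃ m ∈ R, w + m ≠ 0 ∧ (w + m)⁻¹ ∈ R) →
    IsBezout R

/-- CX (boundedly many pairwise comaximal nonunits).  PROOF.  `N = (d + 1) * |G| + 2`.  Let `p i`,
`i < N`, be pairwise comaximal nonunits; they are nonzero (`N ≥ 2`: `0` is comaximal only to units).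
Let `q i = ∏_{j ≠ i} p j`; `α q i + β p i = 1` with `α, β ∈ R`.  `(p i)⁻¹ ∉ R`, so there is `ε ∈ II F`
with `Fs F (1 + ε / p i) ≠ 1`; `1 + ε / p i = (1 + ε β) (1 + ε' q i / p i)`, `ε' = ε α / (1 + ε β) ∈ II F`.
Put `b i = ε' q i`, `z i = b i / p i`; `Fs F (1 + z i) ≠ 1`, so `z i ∉ II F`, and SE gives `m i ∈ M` with
`Fs F (1 + z i m i) ≠ 1`, `z i / (1 + z i m i) ∈ R`, so `(1 + z i m i)⁻¹ = 1 - m i z i / (1 + z i m i) ∈ R`.
For `S` a set of indices let `y S = ∑_{j ∈ S} m j b j`.  For `j ≠ i` `b j / p i ∈ II F` (`p i` divides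
`q j`).  So `Fs F (p i + y S) = Fs F (p i)` if `i ∉ S`; and if `i ∈ S`,
`p i + y S = p i (1 + z i m i) (1 + t)`, `t ∈ II F`, so `Fs F (p i + y S) ≠ Fs F (p i)`.  Among the
`N` values `Fs F (p i)` some `g` is taken at least `d` times; choose `d` such indices
(`Fin d → Fin N` injective); using the complements of the sets we get `x : Fin d → Lx M` and
`y : Finset (Fin d) → Lx M` with `Fs F (x i + y S) = g ↔ i ∈ S`, `g ≠ 0`; a suitable component of
representatives contradicts `VCf F d`. -/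
def T_CX : Prop :=
  ∀ (M G : Type) [Field M] [CharZero M] [CommGroupWithZero G] [Finite G] (F : M →*₀ G) (d : ℕ),
    VCf F d → Ntr F → ∀ (R : Subring (Lx M)) (S : Finset M), Rg F R → SB F S →
    ∃ N : ℕ, ∀ p : Fin N → R, (∀ i, ¬ IsUnit (p i)) → ∃ i j, i ≠ j ∧ ¬ IsCoprime (p i) (p j)

/-- FM (finitely many maximal ideals).  PROOF.  Let `P 0, …, P (N-1)` be distinct maximal ideals; for
`i ≠ j` choose `x i j ∈ P i`, `x j i ∈ P j` with `x i j + x j i = 1`, and let `p i` generate the ideal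
generated by the `x i j`, `j ≠ i` (Bezout: finitely generated ideals are principal).  `p i ∈ P i` is
not a unit, and `p i`, `p j` are coprime (they divide `x i j`, `x j i`). -/
def T_FM : Prop :=
  ∀ (R : Type) [CommRing R] [IsDomain R] [IsBezout R] (N : ℕ),
    (∀ p : Fin N → R, (∀ i, ¬ IsUnit (p i)) → ∃ i j, i ≠ j ∧ ¬ IsCoprime (p i) (p j)) →
    Finite (MaximalSpectrum R)

/-- RA (`I` is radical).  PROOF.  Let `b ∈ R`, `b b ∈ II F`.  For `r ∈ R` `1 - r² b² ∈ 1 + II F` is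
invertible in `R` and it is `(1 + r b) (1 - r b)`, so `(1 + r b)⁻¹ ∈ R`.  For `u, v ∈ M`
`(1 + b u) (1 + b v) = (1 + b (u + v)) (1 + u v b² (1 + b (u + v))⁻¹)`, the last factor is in `1 + II F`;
so `h u = Fs F (1 + b u)` satisfies `h (u + v) = h u * h v`, `h u ≠ 0`.  With `k = |Gˣ|`,
`h u = h (u / k) ^ k = 1`. -/
def T_RA : Prop :=
  ∀ (M G : Type) [Field M] [CharZero M] [CommGroupWithZero G] [Finite G] (F : M →*₀ G)
    (R : Subring (Lx M)), Rg F R → ∀ b ∈ R, b * b ∈ II F → b ∈ II F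

/-- V0 (semilocal rings with many inverses are intersections of valuation rings).  PROOF.  For
a maximal ideal `P` let `V P = {x | ∃ s : R, s ∉ P ∧ s * x ∈ R}`, a subring of `L`.  It is a
valuation ring: given `x`, take `m ∈ R` with `r = (x + m)⁻¹ ∈ R`; `r x = 1 - m r`.  If `r ∉ P` then
`x ∈ V P`; otherwise `1 - m r ∉ P` and `(1 - m r) x⁻¹ = r`, so `x⁻¹ ∈ V P` (`x ≠ 0`).  `R` is the
intersection: for `x` in all `V P` the ideal `{s | s x ∈ R}` is in no maximal ideal.  If `P ≠ Q`,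
`s ∈ Q`, `s ∉ P`: `s⁻¹ ∈ V P`, and `s⁻¹ ∉ V Q` (else `t s⁻¹ = r ∈ R` with `t ∉ Q`, but
`t = s r ∈ Q`).  Number the maximal ideals. -/
def T_V0 : Prop :=
  ∀ (L : Type) [Field L] (R : Subring L), Finite (MaximalSpectrum R) →
    (∀ w : L, ∃ m ∈ R, w + m ≠ 0 ∧ (w + m)⁻¹ ∈ R) →
    ∃ (n : ℕ) (V : Fin n → ValuationSubring L), (∀ x, x ∈ R ↔ ∀ k, x ∈ V k) ∧
      ∀ k l, k ≠ l → ¬ V k ≤ V l

/-- CR (Chinese remainder theorem).  The residue fields have characteristic `0`.  PROOF.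
`R` = intersection of the `V k`.  (1) For `x : L` there is `c ∈ {1, …, n + 1}` with `x + c ≠ 0` and
`(x + c)⁻¹ ∈ R`: if `x ∉ V k` then `x + c ∉ V k`, so `(x + c)⁻¹ ∈ V k`; if `x ∈ V k`, at most one `c` has
`x + c ∈ (V k).nonunits` (differences of two numbers `c` are units), and for the other `c`
`(x + c)⁻¹ ∈ V k`.  (2) For `i ≠ j` there is `e ∈ R` with `e ∈ (V i).nonunits`, `e - 1 ∈ (V j).nonunits`:
choose `a ∈ V i`, `a ∉ V j`, `c` as in (1), `r = (a + c)⁻¹ ∈ R`: `r ∈ (V j).nonunits`, `r` is a unit of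
`V i`; in the same way `s ∈ R`, `s ∈ (V i).nonunits`, a unit of `V j`; `y = r / s`: `y ∉ V i`,
`y ∈ (V j).nonunits`; `e = c' (y + c')⁻¹` with `c'` from (1) for `y`.  (3) Products:
`f j ∈ R`, `f j - 1 ∈ (V j).nonunits`, `f j ∈ (V i).nonunits` for `i ≠ j`.  (4) Each `a ∈ V k` is
congruent modulo `(V k).nonunits` to an element of `R`: `r = (a + c)⁻¹ ∈ R` as in (1) is a unit of
`V k`, `a = (1 - c r) r⁻¹`, and `u = r f k + (1 - f k)` is a unit of all `V i`, `u ≡ r` in `V k`;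
so `a ≡ (1 - c r) u⁻¹ ∈ R`.  (5) `x = ∑ f k a' k`. -/
def T_CR : Prop :=
  ∀ (L : Type) [Field L] [CharZero L] (n : ℕ) (V : Fin n → ValuationSubring L),
    (∀ k l, k ≠ l → ¬ V k ≤ V l) → (∀ k, ∀ c : ℕ, 0 < c → ((c : L))⁻¹ ∈ V k) →
    (∀ x : L, ∃ c : ℕ, 0 < c ∧ x + c ≠ 0 ∧ ∀ k, (x + c)⁻¹ ∈ V k) ∧
    ∀ a : Fin n → L, (∀ k, a k ∈ V k) →
      ∃ x : L, (∀ k, x ∈ V k) ∧ ∀ k, x - a k ∈ (V k).nonunits

/-- JC (`I` is the Jacobson radical).  PROOF.  `⊆`: let `e ∈ II F`; `e ∈ R ⊆ V k`.  If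
`e⁻¹ ∈ V k`, CR gives `b ∈ R` with `b + e⁻¹ ∈ (V k).nonunits`, so `1 + b e ∈ (V k).nonunits`; but
`(1 + b e)⁻¹ ∈ R`.  `⊇`: suppose `b ∈ (V k).nonunits` for all `k` (so `b ∈ R`) and `b ∉ II F`.  For each
`k` either (A) some power `b ^ N` is in `II F · V k`, i.e. `s b ^ N ∈ II F` for some `s ∈ R`,
`s ∉ (V k).nonunits`, or (B) not.  If (A) for all `k`, with a common `N`, then the ideal
`{s ∈ R | s b ^ N ∈ II F}` is not in the maximal ideal of any `V k`, so it contains `1`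
(by CR `∑ s k f k x k = 1 + (element of all nonunits)`, a unit of `R`), so `b ^ N ∈ II F`, and `b ∈ II F`
by RA (for powers of `2`).  So the set `K₁` of the `k` of type (B) is not empty.  For `k ∈ K₁` and
`x ∈ II F`: `x / b ^ 2 ∈ V k` (otherwise `b ^ 2 / x ∈ V k`; write `b ^ 2 / x = t / s`, `t, s ∈ R`, `s` a
unit of `V k`, as in CR (4); then `s b ^ 2 = t x ∈ II F`).  CR: `e ∈ R` with `e ∈ (V k).nonunits`
for `k ∈ K₁` and `e - 1 ∈ (V j).nonunits` for `j ∉ K₁`.  For some `c ∈ {1, …, n + 1}`, `b' = b + c e`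
satisfies `b / b' ∈ V k` for all `k ∈ K₁` (at most one bad `c` for each `k`: if
`b / (b + c e)`, `b / (b + c' e) ∉ V k` then `(b + c e) / b, (b + c' e) / b ∈ (V k).nonunits` and
`(c' - c) = c' (b + c e) / b - c (b + c' e) / b`, a contradiction), `b' ≠ 0`.  At `j ∉ K₁` `b'` is a unit.
So `x / b' ^ 2 ∈ R` for all `x ∈ II F`; then `y = x / b' = b' (x / b' ^ 2) ∈ R` and
`y * y = x (x / b' ^ 2) ∈ II F`, so `y ∈ II F` by RA.  By `colon`, `b'⁻¹ ∈ R`, but
`b' ∈ (V k).nonunits` for `k ∈ K₁`, `b' ≠ 0`. -/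
def T_JC : Prop :=
  ∀ (M G : Type) [Field M] [CharZero M] [CommGroupWithZero G] [Finite G] (F : M →*₀ G)
    (R : Subring (Lx M)), Rg F R → ∀ (n : ℕ) (V : Fin n → ValuationSubring (Lx M)),
    (∀ x, x ∈ R ↔ ∀ k, x ∈ V k) → (∀ k l, k ≠ l → ¬ V k ≤ V l) →
    ∀ x, x ∈ II F ↔ ∀ k, x ∈ (V k).nonunits

/-- ST (first form of the structure theorem).  PROOF.  Assembly: C1, RG, S0, IN, BZ, CX, FM, V0,
JC, NE (if `V k = ⊤` then, by incomparability, `n = 1`, so `II F = {0}`). -/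
def T_ST : Prop :=
  ∀ (M G : Type) [Field M] [CharZero M] [Countable M] [CommGroupWithZero G] [Finite G]
    (F : M →*₀ G) (d : ℕ), VCf F d → Ntr F →
    ∃ (n : ℕ) (V : Fin n → ValuationSubring (Lx M)), (∀ k, V k ≠ ⊤) ∧
      (∀ k (u : M), cst u ∈ V k) ∧ (∀ k l, k ≠ l → ¬ V k ≤ V l) ∧
      ∀ x, x ∈ II F ↔ ∀ k, x ∈ (V k).nonunits

/-- IM (`I` is monadic).  PROOF.  Enumerate `M = {u 0, u 1, …}`;
`D i = {x | ∀ j ≤ i, F (1 + x * u j) = 1}`. -/
def T_IM : Prop :=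
  ∀ (M G : Type) [Field M] [Countable M] [CommGroupWithZero G] [Finite G] (F : M →*₀ G),
    ∃ D : ℕ → Set M, Antitone D ∧ ∀ x, x ∈ II F ↔ ∀ i, x ∈ St (D i)

end NST
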