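import Pool.Agent.NST.BaseB

/-!
# NST: targets, part B: monadic valuation rings of the ultrapower

A valuation ring `V ≠ ⊤` of `Lx M` containing the constants is *monadic* (`Mon V`) if its maximal
ideal is an intersection of standard sets `St (D 0) ⊇ St (D 1) ⊇ …` (this is a `V`-topology on `M`).
API for valuation rings: `BaseB.lean` (`nu_iff`, `nu_mul`, `one_div`, `nu_comap`, …).
-/

set_option autoImplicit false

noncomputable section

namespace NST

open Filter Polynomial

/-- residue characteristic zero -/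
def RC0 {L : Type} [Field L] (V : ValuationSubring L) : Prop := ∀ c : ℕ, 0 < c → ((c : L))⁻¹ ∈ V

/-- monadic valuation rings -/
structure Mon {M : Type} [Field M] (V : ValuationSubring (Lx M)) : Prop where
  cst_mem : ∀ u : M, cst u ∈ V
  ne_top : V ≠ ⊤
  mon : ∃ D : ℕ → Set M, Antitone D ∧ ∀ x, x ∈ V.nonunits ↔ ∀ i, x ∈ St (D i)

/-! ## Splitting the structure theorem into single valuation rings -/

/-- AP (idempotents are approximated by standard elements).  PROOF.  Suppose that for some `j` no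
`φ ∈ M` has `cst φ - f ∈ St (D j)`.  `f = mk f'`.  (1) For all `N` and `m` there are
`φ 0, …, φ N ∈ M` with `φ k * φ k - φ k ∈ D m` and `φ i - φ k ∉ D j` for `i < k`: by induction on
`N`, the next one is `f' r` for a suitable `r` (almost all `r` have `f' r * f' r - f' r ∈ D m`, and,
for each of the finitely many old `φ i`, `φ i - f' r ∉ D j`).  (2) `N = 2 ^ n`; let `g k = mk` of
the sequence (in `m`) of the `k`-th elements.  `g k * g k - g k ∈ St (D i)` for all `i`
(`D` is antitone), so it is in all nonunits, so `g k ∈ V l` (it is integral: a root of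
`X² - X - c`) and `g k` or `g k - 1` is in `(V l).nonunits`.  Two of the `2 ^ n + 1` elements, `g i` and
`g k`, `i < k`, have the same pattern `{l | g ∈ (V l).nonunits}`, so `g i - g k` is in all nonunits, so in
`St (D j)`, but `g i - g k ∉ St (D j)`, a contradiction. -/
def T_AP : Prop :=
  ∀ (M : Type) [Field M] (n : ℕ) (V : Fin n → ValuationSubring (Lx M)) (D : ℕ → Set M),
    Antitone D → (∀ x, (∀ k, x ∈ (V k).nonunits) ↔ ∀ i, x ∈ St (D i)) →
    ∀ f : Lx M, (∀ k, f * f - f ∈ (V k).nonunits) → ∀ j, ∃ φ : M, cst φ - f ∈ St (D j)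

/-- SC (shrinking).  PROOF.  Otherwise for each `j` there are `a j, b j, c j ∈ D j` with
`a j - b j - c j ∉ D k`; `mk a, mk b, mk c ∈ St (D i)` for all `i`, so `mk a - mk b - mk c ∈ St (D k)`,
a contradiction. -/
def T_SC : Prop :=
  ∀ (M : Type) [Field M] (D : ℕ → Set M), Antitone D →
    (∀ x y z : Lx M, (∀ i, x ∈ St (D i)) → (∀ i, y ∈ St (D i)) → (∀ i, z ∈ St (D i)) →
      ∀ i, x - y - z ∈ St (D i)) →
    ∀ k, ∃ j, ∀ a ∈ D j, ∀ b ∈ D j, ∀ c ∈ D j, a - b - c ∈ D k

/-- SP (splitting).  PROOF.  Write `I` for the intersection of the nonunits and fix `k`.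
`RC0 (V k)` holds by `cst_inv`.  CR gives `f` with `f - 1 ∈ (V k).nonunits`, `f ∈ (V j).nonunits` for
`j ≠ k`; `f * f - f ∈ I`.
(1) `z ∈ (V k).nonunits` iff there is `e` with `e - f ∈ I` and `e z ∈ I`.  `⇐`: `e` is congruent to
`1` modulo `(V k).nonunits`, so it is a unit.  `⇒`: CR gives `c > 0`, `z + c ≠ 0`,
`r = (z + c)⁻¹ ∈` all `V j`; `r` is a unit of `V k` (`z + c ∈ V k`); CR gives `b'`
in all `V j` with `b' - r⁻¹ ∈ (V k).nonunits`; `e = r b' f`.  `e - f ∈ I` (at `k` both are congruent to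
`1`, at `j ≠ k` both are nonunits) and `e z = (1 - c r) b' f`: at `j ≠ k` because of `f`, at `k` since
`1 - c r = z r ∈ (V k).nonunits`.
(2) AP gives `φ j ∈ M` with `cst (φ j) - f ∈ St (D j)` for all `j`.  SC holds for `D` (`I` is closed
under subtraction).  Let `N i` be the set of the `z ∈ M` such that some `e ∈ M` satisfies
`e * z ∈ D i` and, for all `j ≤ i`, `φ j - e = a - b` with `a, b ∈ D j`.  Antitone.
(3) `z ∈ (V k).nonunits` implies `z ∈ St (N i)`: `z = mk z'`, `e = mk e'` as in (1); for almost all `n`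
`e' n * z' n ∈ D i` and `φ j - e' n = (φ j - f' n) - (e' n - f' n)`.
(4) `z ∈ St (N i)` for all `i` implies `z ∈ (V k).nonunits`: by `exists_level` (applied to
`P i n` := `i = 0 ∨ z' n ∈ N (i - 1)`) we get `e'` with: for each `i`, almost all `n` satisfy
`e' n * z' n ∈ D i` and `φ j - e' n ∈ D j - D j` for `j ≤ i`.  `e = mk e'`: `e z ∈ I`; and
`f - e = (φ j - e) - (φ j - f)` is `a - b - c` with `a, b, c` (componentwise) in `D j`, so in `I` by SC.
Apply (1). -/
def T_SP : Prop :=
  ∀ (M : Type) [Field M] [CharZero M] (n : ℕ) (V : Fin n → ValuationSubring (Lx M))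
    (D : ℕ → Set M), Antitone D → (∀ x, (∀ k, x ∈ (V k).nonunits) ↔ ∀ i, x ∈ St (D i)) →
    (∀ k, V k ≠ ⊤) → (∀ k (u : M), cst u ∈ V k) → (∀ k l, k ≠ l → ¬ V k ≤ V l) → ∀ k, Mon (V k)

/-- CM (monadic valuation rings are minimal).  PROOF.  Let `D`, `G` be the standard sets for `V`,
`W`.  As `V ≤ W` we have `W.nonunits ⊆ V.nonunits`; we show the converse (`le_of_nu`), for which it
is enough that each `G i` contains some `D j`.  Suppose not, for `i`.  Let `s ≠ 0`, `s ∈ W.nonunits`
(`ne_top_iff`), `s = mk s'`, WLOG all `s' n ≠ 0`.  For each `n` there is `z n ∈ M`, `z n ∉ G i`,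
`z n / s' n ∈ D n`: the standard element `s' n` is a unit of `V`, so `(s' n)⁻¹ V.nonunits ⊆ V.nonunits`,
so by compactness some `D j` satisfies `(s' n)⁻¹ D j ⊆ D n` (else `x j ∈ D j`, `(s' n)⁻¹ x j ∉ D n` for
all `j` and `mk x` is a contradiction); take `z n ∈ D j` not in `G i`.  `z = mk z`:
`z / s ∈ V.nonunits`, so `z / s ∈ W`, `z = s (z / s) ∈ W.nonunits ⊆ St (G i)`, a contradiction. -/
def T_CM : Prop :=
  ∀ (M : Type) [Field M] (V W : ValuationSubring (Lx M)), Mon V → Mon W → V ≤ W → V = W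

/-- LF (improving idempotents).  PROOF.  `I` = intersection of the nonunits.  AP gives `φ j` with
`cst (φ j) - f ∈ St (D j)`.  `f = mk f'`, `c = mk c'`, WLOG `c' n ≠ 0` for all `n`.  For each `n`:
`f (1 - f) / cst (c' n) ∈ I`, so almost all `m` satisfy `f' m * (1 - f' m) / c' n ∈ D n` and
`φ j - f' m ∈ D j` for `j ≤ n`; let `e' n = f' m` for one such `m`, `e = mk e'`.  Then
`e (1 - e) / c ∈ St (D i)` for all `i`, so it is in `I`; and `e - f = (φ j - f) - (φ j - e)` is in
`I` by SC (`a - b - 0`; `0 ∈ D j` because `0 ∈ I`). -/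
def T_LF : Prop :=
  ∀ (M : Type) [Field M] (n : ℕ) (V : Fin n → ValuationSubring (Lx M)) (D : ℕ → Set M),
    Antitone D → (∀ x, (∀ k, x ∈ (V k).nonunits) ↔ ∀ i, x ∈ St (D i)) →
    (∀ k (u : M), cst u ∈ V k) → ∀ f : Lx M, (∀ k, f * f - f ∈ (V k).nonunits) →
    ∀ c : Lx M, c ≠ 0 → ∃ e : Lx M, (∀ k, e - f ∈ (V k).nonunits) ∧
      ∀ k, e * (1 - e) / c ∈ (V k).nonunits

/-- AA (approximation theorem).  PROOF.  Write `s = {V 0, …, V (n - 1)}` without repetitions; by CM
they are pairwise incomparable.  `RC0` by `cst_inv`.  The intersection of the nonunits is given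
by the intersections of the standard sets (`St_inter`).  (1) for each `d ≠ 0` there is `r ≠ 0` with
`r` and `r / d` in all `V k`: CR gives a number `m > 0`, `d⁻¹ + m ≠ 0`, `r = (d⁻¹ + m)⁻¹ ∈ V k`;
`r / d = 1 - m r`.  By products: for finitely many `d ≠ 0` one `c ≠ 0` with `c / d ∈` all `V k`; take
it for all `c k / a i`, `a i ≠ 0`: so `a i c / c k ∈` all `V j` for all `i, k`.  (2) Let `f k` be the
idempotents of CR (`f k - 1 ∈ (V k).nonunits`, `f k ∈ (V j).nonunits` for `j ≠ k`) and
`e k` from LF for `f k` and `c`.  At `k`: `e k` is a unit, so `(1 - e k) / c ∈ (V k).nonunits`; at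
`j ≠ k`: `1 - e k` is a unit, so `e k / c ∈ (V j).nonunits`.  (3) `x = ∑ a k e k`. -/
def T_AA : Prop :=
  ∀ (M : Type) [Field M] [CharZero M] (s : Set (ValuationSubring (Lx M))), s.Finite →
    (∀ V ∈ s, Mon V) → ∀ a c : ValuationSubring (Lx M) → Lx M, (∀ V ∈ s, c V ≠ 0) →
    ∃ x : Lx M, ∀ V ∈ s, (x - a V) / c V ∈ V.nonunits

/-- STB (structure theorem).  PROOF.  If `F` is not `Ntr`, `s = ∅`: by `Fs_mk_iff` `Fs F x = 1` for
`x ≠ 0`.  Otherwise ST, IM, SP, `s = range V`; `x - 1 ∈ II F` gives `Fs F (1 + (x - 1) * cst 1) = 1`. -/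
def T_STB : Prop :=
  ∀ (M G : Type) [Field M] [CharZero M] [Countable M] [CommGroupWithZero G] [Finite G]
    (F : M →*₀ G) (d : ℕ), VCf F d → ∃ s : Set (ValuationSubring (Lx M)), s.Finite ∧
      (∀ V ∈ s, Mon V) ∧ ∀ x, x ≠ 0 → (∀ V ∈ s, x - 1 ∈ V.nonunits) → Fs F x = 1

/-! ## Extensions of valuation rings (general fields; `f : L →+* L'`) -/

/-- IC (comparable extensions are equal).  PROOF.  Let `x ∈ W`, `x ∉ V`; then `x⁻¹ ∈ V.nonunits`.  `x` is
a root of a nonzero polynomial over `L`; divide by a coefficient of largest value for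
`U = V.comap f`: all coefficients `c i` are in `U` and some are units.  Let `m` be the largest index
with `c m ∉ U.nonunits` (`m ≥ 1`: if `m = 0` then `c 0 = -∑_{i ≥ 1} c i x ^ i ∈ W.nonunits`, as
`f (c i) ∈ W.nonunits` (`nu_comap` for `W`), `x ∈ W`, so `c 0 ∈ U.nonunits`).  Then
`x = -∑_{i < m} (c i / c m) x^(i - m + 1) - ∑_{i > m} (c i / c m) x^(i - m + 1)`; the first sum is in `V`
(`x⁻¹ ∈ V`), the second in `W.nonunits ⊆ V.nonunits`.  So `x ∈ V`, a contradiction. -/
def T_IC : Prop :=
  ∀ (L L' : Type) [Field L] [Field L'] (f : L →+* L'), f.IsIntegral →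
    ∀ V W : ValuationSubring L', V ≤ W → V.comap f = W.comap f → V = W

/-- CH (Chevalley).  PROOF.  `LocalSubring.exists_le_valuationSubring` or
`Ideal.image_subset_nonunits_valuationSubring` for the image of `V` and of its maximal ideal. -/
def T_CH : Prop :=
  ∀ (L L' : Type) [Field L] [Field L'] (f : L →+* L') (V : ValuationSubring L),
    ∃ V' : ValuationSubring L', V'.comap f = V

/-- CO (extensions below a given one).  PROOF.  Let `R = f(O₁) + A₂.nonunits`, a subring of `A₂`, and
`P = f(O₁.nonunits) + A₂.nonunits`, an ideal of `R`.  It is proper: `1 = f a + z`, `z ∈ A₂.nonunits`,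
`a ∈ O₁.nonunits` gives `1 - a ∈ (A₂.comap f).nonunits = O₂.nonunits ⊆ O₁.nonunits`.
`Ideal.image_subset_nonunits_valuationSubring`: `A₁ ⊇ R` with `P ⊆ A₁.nonunits`.
`A₂.nonunits ⊆ A₁.nonunits` gives `A₁ ≤ A₂`; `f(O₁) ⊆ A₁`, `f(O₁.nonunits) ⊆ A₁.nonunits` gives
`A₁.comap f = O₁`. -/
def T_CO : Prop :=
  ∀ (L L' : Type) [Field L] [Field L'] (f : L →+* L') (O₁ O₂ : ValuationSubring L)
    (A₂ : ValuationSubring L'), O₁ ≤ O₂ → A₂.comap f = O₂ → ∃ A₁, A₁ ≤ A₂ ∧ A₁.comap f = O₁

/-- CV (elements small at all extensions).  PROOF.  If `z = 0` take `X`.  Let `B` be the subring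
generated by `f(V)` and `z⁻¹`, `J` the ideal of `B` generated by `f(V.nonunits)`.  If `J ≠ B`,
`Ideal.image_subset_nonunits_valuationSubring` gives `V' ⊇ B` with `J ⊆ V'.nonunits`, so
`V'.comap f = V` and `z⁻¹ ∈ V'`, so `z ∉ V'.nonunits`, a contradiction.  So
`1 = ∑_{i ≤ N} f (b i) z⁻¹ ^ i` with `b i ∈ V.nonunits` (the elements of `J` are of this form);
multiply by `z ^ N` and divide by the unit `1 - b 0`. -/
def T_CV : Prop :=
  ∀ (L L' : Type) [Field L] [Field L'] (f : L →+* L') (V : ValuationSubring L) (z : L'),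
    (∀ V' : ValuationSubring L', V'.comap f = V → z ∈ V'.nonunits) →
    ∃ p : L[X], p.Monic ∧ (∀ i, i < p.natDegree → p.coeff i ∈ V.nonunits) ∧ p.eval₂ f z = 0

/-- FE (finitely many extensions).  PROOF.  Let `m` be the dimension of `L'` over `L` and suppose there
are `m + 1` different extensions `V' k`; they are pairwise incomparable by IC, and `RC0`.  CR gives
`e k` with `e k - 1 ∈ (V' k).nonunits`, `e k ∈ (V' j).nonunits` for `j ≠ k`.  They are linearly
independent over `L`: if `∑ f (c k) e k = 0`, not all `c k = 0`, divide by a coefficient of largest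
value: all `c k ∈ V` and some `c l = 1`; at `V' l` this is impossible. -/
def T_FE : Prop :=
  ∀ (L L' : Type) [Field L] [CharZero L] [Field L'] (f : L →+* L'), f.Finite → ∀ V : ValuationSubring L,
    RC0 V → {V' : ValuationSubring L' | V'.comap f = V}.Finite

/-- GS (Gauss).  PROOF.  `V` is integrally closed with fraction field `L`
(`IsIntegrallyClosed.eq_map_mul_C_of_dvd`), so the coefficients of the monic factor `P` of `R` are in
`V`, same for `Q`; modulo the maximal ideal `X ^ N = P Q` in the polynomial ring over the residue field,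
so `P` is a power of `X` there. -/
def T_GS : Prop :=
  ∀ (L : Type) [Field L] (V : ValuationSubring L) (P Q R : L[X]), P.Monic → Q.Monic → P * Q = R →
    (∀ i, i < R.natDegree → R.coeff i ∈ V.nonunits) → ∀ i, i < P.natDegree → P.coeff i ∈ V.nonunits

/-- CC (coefficient criterion).  PROOF.  `⇐`: `B 0 ≠ 0` and the vector `(B j)` is in the kernel of
`z - f(A)ᵀ`, so `z` is a root of `f(A.charpoly)` (`det (z - f(A)) = 0`, `Matrix.eval_charpoly` or
Cayley-Hamilton); `nu_of_root`.  `⇒`: CV gives a monic `p` with `p(z) = 0`, lower coefficients in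
`V.nonunits`.  `p(z) B j = ∑ f (p(A) i j) B i`, so `p(A) = 0`.  In the ring of matrices over `L[X]`,
`p(X) 1 = p(X) 1 - p(A) = (X - A) C` for some `C`, so `p ^ n = A.charpoly * det C`; `det C` is monic;
the lower coefficients of `p ^ n` are in `V.nonunits` (GS or modulo the maximal ideal); GS. -/
def T_CC : Prop :=
  ∀ (L L' : Type) [Field L] [Field L'] (f : L →+* L') (V : ValuationSubring L) (n : ℕ)
    (B : Fin n → L') (A : Matrix (Fin n) (Fin n) L) (z : L'), 0 < n →
    (∀ c : Fin n → L, ∑ i, f (c i) * B i = 0 → ∀ i, c i = 0) →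
    (∀ j, z * B j = ∑ i, f (A i j) * B i) →
    ((∀ V' : ValuationSubring L', V'.comap f = V → z ∈ V'.nonunits) ↔
      ∀ i, i < n → A.charpoly.coeff i ∈ V.nonunits)

/-- TRG (a finite group acts transitively on the extensions).  PROOF.  Suppose that `V₂` is not of the
form `V₁.comap (ρ g)`.  The finitely many rings `V₁.comap (ρ g)`, `V₂.comap (ρ g)` restrict to `V`
(`ρ g (f a) = f a`) and are pairwise incomparable or equal by IC; the two families are disjoint.
`RC0`.  CR: `x ∈ (V₁.comap (ρ g)).nonunits`, `x - 1 ∈ (V₂.comap (ρ g)).nonunits` for all `g`.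
`f a = ∏ ρ g x`: it is in `V₁.nonunits`, and `f a - 1 ∈ V₂.nonunits`; so `a ∈ V.nonunits` and
`a - 1 ∈ V.nonunits`, a contradiction. -/
def T_TRG : Prop :=
  ∀ (L L' : Type) [Field L] [CharZero L] [Field L'] (f : L →+* L'), f.IsIntegral →
    ∀ (H : Type) [Group H] [Fintype H] (ρ : H →* (L' ≃+* L')), (∀ g a, ρ g (f a) = f a) →
    (∀ x, ∃ a, f a = ∏ g, ρ g x) → ∀ (V : ValuationSubring L) (V₁ V₂ : ValuationSubring L'),
    RC0 V → V₁.comap f = V → V₂.comap f = V → ∃ g, V₂ = V₁.comap (ρ g : L' →+* L')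

/-! ## Extensions in the ultrapower -/

/-- UB (bases of the ultrapower).  PROOF.  Take representatives and use the coordinates of `b`
componentwise (finitely many conditions hold simultaneously almost everywhere); `z * b j =
∑ (leftMulMatrix b z) i j • b i` (`Algebra.leftMulMatrix_eq_repr_mul`).  The last claim:
`Lx E'` is generated by the `cst (b i)`. -/
def T_UB : Prop :=
  ∀ (E E' : Type) [Field E] [Field E'] [Algebra E E'] (n : ℕ) (b : Module.Basis (Fin n) E E'),
    (∀ c : Fin n → Lx E, ∑ i, mapR (algebraMap E E') (c i) * cst (b i) = 0 → ∀ i, c i = 0) ∧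
    (∀ z : Lx E', ∃ c : Fin n → Lx E, z = ∑ i, mapR (algebraMap E E') (c i) * cst (b i)) ∧
    (∀ (z : Lx E') (j : Fin n), z * cst (b j) =
      ∑ i, mapR (algebraMap E E') (mapL (fun x => Algebra.leftMulMatrix b x i j) z) *
        cst (b i)) ∧ (mapR (algebraMap E E')).Finite

/-- UM (matrices over the ultrapower).  PROOF.  `mk : (ℕ → E) → Lx E` is a ring homomorphism and the
evaluations `(ℕ → E) → E` are ring homomorphisms; `Matrix.charpoly_map`, `RingHom.map_det`. -/
def T_UM : Prop :=
  ∀ (E : Type) [Field E] (n : ℕ) (A : ℕ → Matrix (Fin n) (Fin n) E),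
    (Matrix.of fun i j => (mk fun m => A m i j : Lx E)).det = mk (fun m => (A m).det) ∧
    ∀ k, (Matrix.of fun i j => (mk fun m => A m i j : Lx E)).charpoly.coeff k =
      mk (fun m => (A m).charpoly.coeff k)

/-- CN (coefficient criterion in the ultrapower).  PROOF.  UB, UM, CC (`n > 0` as `E'` is
nontrivial). -/
def T_CN : Prop :=
  ∀ (E E' : Type) [Field E] [Field E'] [Algebra E E'] (n : ℕ) (b : Module.Basis (Fin n) E E')
    (V : ValuationSubring (Lx E)) (z : Lx E'),
    (∀ V' : ValuationSubring (Lx E'), V'.comap (mapR (algebraMap E E')) = V → z ∈ V'.nonunits) ↔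
      ∀ i, i < n → mapL (fun x => (Algebra.leftMulMatrix b x).charpoly.coeff i) z ∈ V.nonunits

/-- NM (norms).  PROOF.  Let `b` be a basis, `A` the matrix of `z` as in UB, UM;
`mapL (Algebra.norm E) (1 + z)` is `det (1 + A) = (-1) ^ n A.charpoly(-1)`
(`Algebra.norm_eq_matrix_det`), which is `1 +` a combination of the lower coefficients with
coefficients `± 1`; CN. -/
def T_NM : Prop :=
  ∀ (E E' : Type) [Field E] [Field E'] [Algebra E E'] [FiniteDimensional E E']
    (V : ValuationSubring (Lx E)) (z : Lx E'),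
    (∀ V' : ValuationSubring (Lx E'), V'.comap (mapR (algebraMap E E')) = V → z ∈ V'.nonunits) →
    mapL (fun x => Algebra.norm E x) (1 + z) - 1 ∈ V.nonunits

/-- EM (extensions of monadic rings).  PROOF.  By UB, FE (`RC0 V` by `cst_inv`) the set of extensions is
`{W 0, …, W (m - 1)}`, pairwise incomparable by IC.  Constants: `u ∈ E'` is a root of a monic polynomial
over `E`, so `cst u ∈ W k` (`mem_of_root`).  `W k ≠ ⊤` since `(⊤).comap = ⊤`.  The intersection of the
nonunits is `⋂ St (D' i)`, `D' i = {z | ∀ j < n, coefficient j of the characteristic polynomial of z is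
in D i}` by CN.  SP. -/
def T_EM : Prop :=
  ∀ (E E' : Type) [Field E] [CharZero E] [Field E'] [Algebra E E'] [FiniteDimensional E E']
    (V : ValuationSubring (Lx E)), Mon V →
    {V' : ValuationSubring (Lx E') | V'.comap (mapR (algebraMap E E')) = V}.Finite ∧
    ∀ V' : ValuationSubring (Lx E'), V'.comap (mapR (algebraMap E E')) = V → Mon V'

/-- RS (restriction).  PROOF.  `nu_comap`: the standard sets are the inverse images of those of `V'`.
If `V'.comap = ⊤` then `V'` contains `Lx E` and `Lx E'` is integral over it (UB), so `V' = ⊤`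
(`mem_of_root`). -/
def T_RS : Prop :=
  ∀ (E E' : Type) [Field E] [Field E'] [Algebra E E'] [FiniteDimensional E E']
    (V' : ValuationSubring (Lx E')), Mon V' → Mon (V'.comap (mapR (algebraMap E E')))

/-- SG (isomorphisms).  PROOF.  Inverse images of the standard sets. -/
def T_SG : Prop :=
  ∀ (E E' : Type) [Field E] [Field E'] (σ : E ≃+* E') (V : ValuationSubring (Lx E')), Mon V →
    Mon (V.comap (mapR (σ : E →+* E')))

/-- TRL (Galois extensions).  PROOF.  TRG for `f = mapR (algebraMap E E')` (integral by UB),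
`H = Gal(E' / E)`, `ρ σ = mapR σ`; `Algebra.norm_eq_prod_automorphisms`. -/
def T_TRL : Prop :=
  ∀ (E E' : Type) [Field E] [CharZero E] [Field E'] [Algebra E E'] [FiniteDimensional E E']
    [IsGalois E E'] (V : ValuationSubring (Lx E)) (V₁ V₂ : ValuationSubring (Lx E')), Mon V →
    V₁.comap (mapR (algebraMap E E')) = V → V₂.comap (mapR (algebraMap E E')) = V →
    ∃ σ : E' ≃ₐ[E] E', V₂ = V₁.comap (mapR (σ : E' →+* E'))

end NST
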