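import Pool.Agent.NST.TB
import Pool.Agent.NFV.Targets3

/-!
# NST: targets, part C: `q`-th powers, one topology, its behaviour in finite extensions

`Ctl q s`: the finite set `s` of monadic valuation rings of `Lx E` controls the `q`-th powers.
`Opn q V`: every element congruent to `1` modulo `V` is a `q`-th power.
`NFV.T_KUM` (Kummer theory) is proved in `Pool/Agent/NFV/P_KUM.lean`.
-/

set_option autoImplicit false

noncomputable section

namespace NST

open Filter Polynomial

/-- every element of `E` is a `q`-th power -/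
def Ful (E : Type) [Field E] (q : ℕ) : Prop := ∀ x : E, ∃ y, x = y ^ q

/-- the finite set `s` of monadic valuation rings controls the `q`-th powers -/
structure Ctl {E : Type} [Field E] (q : ℕ) (s : Set (ValuationSubring (Lx E))) : Prop where
  fin : s.Finite
  mon : ∀ V ∈ s, Mon V
  pow : ∀ x : Lx E, x ≠ 0 → (∀ V ∈ s, x - 1 ∈ V.nonunits) → ∃ y, x = y ^ q

/-- some finite set controls the `q`-th powers -/
def OpF (E : Type) [Field E] (q : ℕ) : Prop := ∃ s : Set (ValuationSubring (Lx E)), Ctl q s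

/-- `OpF` for all finite extensions -/
def OpA (K : Type) [Field K] (q : ℕ) : Prop :=
  ∀ (E : Type) [Field E] [Algebra K E] [FiniteDimensional K E], OpF E q

/-- the `q`-th powers are open for `V` -/
structure Opn {E : Type} [Field E] (q : ℕ) (V : ValuationSubring (Lx E)) : Prop where
  mon : Mon V
  pow : ∀ x : Lx E, x - 1 ∈ V.nonunits → ∃ y, x = y ^ q

/-- `w` is a local `q`-th power at `V` -/
def LP {E : Type} [Field E] (q : ℕ) (V : ValuationSubring (Lx E)) (w : Lx E) : Prop :=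
  ∃ z, w * z ^ q - 1 ∈ V.nonunits

/-- the valuation ring `T` of `Lx K` has only one extension to each finite extension of `K` -/
def Uns {K : Type} [Field K] (T : ValuationSubring (Lx K)) : Prop :=
  ∀ (N : Type) [Field N] [Algebra K N] [FiniteDimensional K N] (V₁ V₂ : ValuationSubring (Lx N)),
    V₁.comap (mapR (algebraMap K N)) = T → V₂.comap (mapR (algebraMap K N)) = T → V₁ = V₂

section API

variable {E : Type} [Field E] {q : ℕ} {V : ValuationSubring (Lx E)} {w w' : Lx E}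

theorem mk_pow_iff {x : ℕ → E} : (∃ y, mk x = y ^ q) ↔ ∀ᶠ n in (Uf : Filter ℕ), ∃ y, x n = y ^ q := by
  constructor
  · rintro ⟨y, hy⟩
    obtain ⟨y, rfl⟩ := exists_mk y
    rw [mk_pow, mk_eq] at hy
    exact hy.mono fun n hn => ⟨y n, hn⟩
  · intro h
    obtain ⟨y, hy⟩ := h.choice
    exact ⟨mk y, by rw [mk_pow, mk_eq]; exact hy⟩

theorem cst_pow_iff {x : E} : (∃ y, cst x = y ^ q) ↔ ∃ y, x = y ^ q := by
  unfold cst
  rw [mk_pow_iff]
  constructor
  · intro h
    exact h.exists.choose_spec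
  · intro h
    exact Eventually.of_forall fun _ => h

theorem LP.mul (h : LP q V w) (h' : LP q V w') : LP q V (w * w') := by
  obtain ⟨z, hz⟩ := h
  obtain ⟨z', hz'⟩ := h'
  refine ⟨z * z', ?_⟩
  have h1 : w * w' * (z * z') ^ q = (w * z ^ q) * (w' * z' ^ q) := by
    rw [mul_pow]
    ring
  rw [h1]
  exact one_mul' hz hz'

theorem LP.inv (h : LP q V w) : LP q V w⁻¹ := by
  obtain ⟨z, hz⟩ := h
  refine ⟨z⁻¹, ?_⟩
  have h1 : w⁻¹ * z⁻¹ ^ q = (w * z ^ q)⁻¹ := by
    rw [mul_inv, inv_pow]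
  rw [h1]
  exact one_inv hz

theorem LP.of_pow {y : Lx E} (hy : y ≠ 0) : LP q V (y ^ q) := by
  refine ⟨y⁻¹, ?_⟩
  rw [inv_pow, mul_inv_cancel₀ (pow_ne_zero _ hy), sub_self]
  exact V.nonunits.zero_mem

theorem LP.one : LP q V 1 := ⟨1, by simp⟩

theorem LP.pow (h : LP q V w) (k : ℕ) : LP q V (w ^ k) := by
  induction k with
  | zero => simpa using LP.one
  | succ k ih =>
    rw [pow_succ]
    exact ih.mul h

theorem LP.ne_zero (h : LP q V w) : w ≠ 0 := by
  obtain ⟨z, hz⟩ := h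
  intro h0
  apply ne_zero_of_one hz
  rw [h0, zero_mul]

end API

/-! ## Local and global `q`-th powers -/

/-- FU (local everywhere implies global).  PROOF.  If `s = ∅` use `pow` of `Ctl` for `w`.  Otherwise
AA for `a V = c V = z V` where `w * z V ^ q - 1 ∈ V.nonunits` (`z V ≠ 0` or `q = 0`; for `q = 0`
replace `z V` by `1`): `x` with `x / z V - 1 ∈ V.nonunits`, `x ≠ 0`, and
`w x ^ q = (w z V ^ q) (x / z V) ^ q`; `w x ^ q = y ^ q`, `w = (y / x) ^ q`. -/
def T_FU : Prop :=
  ∀ (E : Type) [Field E] [CharZero E] (q : ℕ) (s : Set (ValuationSubring (Lx E))), Ctl q s →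
    ∀ w : Lx E, w ≠ 0 → (∀ V ∈ s, LP q V w) → ∃ y, w = y ^ q

/-- LO (outside the control set everything is a local power).  PROOF.  AA for `insert V s`: `x` with
`x / w - 1 ∈ V.nonunits` and `x - 1 ∈ W.nonunits` for `W ∈ s`.  `x ≠ 0`, `x = y ^ q`,
`w * (y⁻¹) ^ q = (x / w)⁻¹`, congruent to `1`. -/
def T_LO : Prop :=
  ∀ (E : Type) [Field E] [CharZero E] (q : ℕ) (s : Set (ValuationSubring (Lx E))), Ctl q s →
    ∀ V : ValuationSubring (Lx E), Mon V → V ∉ s → ∀ w : Lx E, w ≠ 0 → LP q V w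

/-- UQ (uniqueness).  PROOF.  `Ctl q {V}`, `Ctl q {W}`; for `x ≠ 0` LO for `{W}` gives
`LP q V (cst x)`, FU for `{V}` gives `cst x = y ^ q`; `cst_pow_iff`.  `0 = 0 ^ q`. -/
def T_UQ : Prop :=
  ∀ (E : Type) [Field E] [CharZero E] (q : ℕ) (V W : ValuationSubring (Lx E)), 0 < q →
    Opn q V → Opn q W → V ≠ W → Ful E q

/-- SX (standard witnesses).  PROOF.  `D V` = the standard sets of `V ∈ s`.  (1) There is `i` such
that each `x ≠ 0` with `x - 1 ∈ St (D V i)` for all `V ∈ s` is a `q`-th power: otherwise for each `i`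
there is a counterexample in `Lx E`, hence (`mk_pow_iff`, finitely many conditions) an element
`x i ∈ E`, `x i ≠ 0`, `x i - 1 ∈ D V i`, not a `q`-th power; `mk x` contradicts `Ctl`.
(2) SC (`a - b - 0`) gives `j` with `a - b ∈ D V i` for `a, b ∈ D V j`, all `V ∈ s`.
`x₁ = mk x'`; let `a = x' n` for some `n` with `x' n ≠ 0`, not a `q`-th power, `x' n - 1 ∈ D V j` for
`V ∈ s`, `V ≠ V₁`.  (3) Let `V ∈ s`, `V ≠ V₁`.  AA: `x` with `(x - cst a) / cst a ∈ V.nonunits`,
`x - 1 ∈ W.nonunits` for `W ∈ s`, `W ≠ V`.  `x - cst a ∈ V.nonunits` (`cst a ∈ V`), and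
`x - 1 = (cst a - 1) - (cst a - x) ∈ St (D V i)`; `x ≠ 0`.  By (1) `x = y ^ q`;
`cst a * (y⁻¹) ^ q = (x / cst a)⁻¹` is congruent to `1` modulo `V`. -/
def T_SX : Prop :=
  ∀ (E : Type) [Field E] [CharZero E] (q : ℕ) (s : Set (ValuationSubring (Lx E))), Ctl q s →
    ∀ V₁ ∈ s, ∀ x₁ : Lx E, x₁ ≠ 0 → (¬ ∃ y, x₁ = y ^ q) →
    (∀ V ∈ s, V ≠ V₁ → x₁ - 1 ∈ V.nonunits) →
    ∃ a : E, a ≠ 0 ∧ (¬ ∃ y, a = y ^ q) ∧ ∀ V ∈ s, V ≠ V₁ → LP q V (cst a)

/-- ON (one topology is enough).  PROOF.  Take `s` with `Ctl q s` and `s.ncard` minimal (`OpA` for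
`E` itself).  If `s = ∅` then `Ful E q` (`cst_pow_iff`); if `s = {V}` then `Opn q V`.  Otherwise let
`V₁ ≠ V₂` in `s`.  By minimality `s \ {V i}` does not control, so there is `x i ≠ 0`, not a `q`-th power,
congruent to `1` at all `V ∈ s`, `V ≠ V i`; SX: `a i ∈ E`, not a `q`-th power, `LP q V (cst (a i))` for
`V ∈ s`, `V ≠ V i`.  `d = a₁ a₂`; `E'` = `IntermediateField.adjoin E {δ}` in an algebraic closure,
`δ ^ q = d`; `Ctl q s'` for `E'`.  Claim: `a₁` is a `q`-th power in `E'`.  By FU for `E'`: let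
`V' ∈ s'`, `V = V'.comap`, `Mon V` by RS.  If `V ≠ V₁` then `LP q V (cst a₁)` (by choice if `V ∈ s`,
by LO if not); apply `mapR`.  If `V = V₁`: `LP q V₁ (cst a₂)`, `cst a₂ z ^ q` congruent to `1`; then with
`z' = (cst δ * mapR z)⁻¹` `a₁ z' ^ q = (a₂ z ^ q)⁻¹` (as `a₁ / d = a₂⁻¹`) is congruent to `1`.
By KUM `a₁ = d ^ j u ^ q`, `u ≠ 0` in `E`.  `q` does not divide `j`.  At `V₂`: `LP q V₂ (cst a₁)`,
so `LP q V₂ (cst d ^ j)` and `LP q V₂ (cst a₂ ^ j)`, and since `j` is invertible modulo `q`,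
`LP q V₂ (cst a₂)`.  By FU `a₂` is a `q`-th power, a contradiction. -/
def T_ON : Prop :=
  ∀ (E : Type) [Field E] [CharZero E] (q : ℕ) (ζ : E), q.Prime → IsPrimitiveRoot ζ q → OpA E q →
    Ful E q ∨ ∃ V : ValuationSubring (Lx E), Opn q V

/-! ## Going up -/

/-- OT.  PROOF.  A finite extension of `E` is a finite extension of `K`
(`Algebra` by composition of the algebra maps, `FiniteDimensional.trans`). -/
def T_OT : Prop :=
  ∀ (K E : Type) [Field K] [Field E] [Algebra K E] [FiniteDimensional K E] (q : ℕ),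
    OpA K q → OpA E q

/-- PE (persistence).  Write `φ = mapR (algebraMap E E')`, `N = mapL (Algebra.norm E)`
(multiplicative).  PROOF.  Suppose `V'.comap φ ≠ V`.  Let `s` be the finite set of the extensions of `V`
(EM), all `Mon`; `V' ∉ s`.  `z ≠ 0` (`norm 0 = 0 = 0 ^ q`).  AA for `insert V' s`: `y` with
`y - 1 ∈ V'.nonunits` and `(y - cst z) / cst z ∈ W.nonunits` for `W ∈ s`.  `y = t ^ q`, so
`N y = (N t) ^ q`.  `y = cst z (1 + ε)` with `ε` in the nonunits of all extensions of `V`, so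
`N (1 + ε) - 1 ∈ V.nonunits` by NM and `N (1 + ε) = u ^ q`.  `cst (norm z) = (N t / u) ^ q`,
so `norm z` is a `q`-th power (`cst_pow_iff`), a contradiction. -/
def T_PE : Prop :=
  ∀ (E E' : Type) [Field E] [CharZero E] [Field E'] [Algebra E E'] [FiniteDimensional E E']
    (q : ℕ) (V : ValuationSubring (Lx E)) (V' : ValuationSubring (Lx E')) (z : E'), 0 < q →
    Opn q V → Opn q V' → (¬ ∃ y : E, Algebra.norm E z = y ^ q) →
    V'.comap (mapR (algebraMap E E')) = V

/-- STP (one step).  PROOF.  `E'` is not `Ful`: `z = y ^ q` would give `norm z = (norm y) ^ q`.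
OT, ON for `E'` (with the image of `ζ`), PE. -/
def T_STP : Prop :=
  ∀ (E E' : Type) [Field E] [CharZero E] [Field E'] [Algebra E E'] [FiniteDimensional E E']
    (q : ℕ) (ζ : E) (V : ValuationSubring (Lx E)) (z : E'), q.Prime → IsPrimitiveRoot ζ q →
    OpA E q → Opn q V → (¬ ∃ y : E, Algebra.norm E z = y ^ q) →
    ¬ Ful E' q ∧ ∃ V' : ValuationSubring (Lx E'), Opn q V' ∧
      V'.comap (mapR (algebraMap E E')) = V

/-- NZ1 (degree prime to `q`).  PROOF.  `a ∈ E` not a `q`-th power, `z = algebraMap a`,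
`norm z = a ^ n`.  If `a ^ n = y ^ q` and `u n + v q = 1` then `a = (y ^ u a ^ v) ^ q`. -/
def T_NZ1 : Prop :=
  ∀ (E E' : Type) [Field E] [Field E'] [Algebra E E'] [FiniteDimensional E E'] (q : ℕ),
    0 < q → (Module.finrank E E').Coprime q → ¬ Ful E q →
    ∃ z : E', ¬ ∃ y : E, Algebra.norm E z = y ^ q

/-- NZ2 (cyclic extensions of degree `q`).  PROOF.  Kummer theory
(`exists_root_adjoin_eq_top_of_isCyclic`): `E' = E(δ)`, `δ ^ q = d ∈ E`; the minimal polynomial of `δ`
is `X ^ q - d`, the norm of `δ` is `(-1) ^ (q + 1) d` (`PowerBasis.norm_gen_eq_coeff_zero_minpoly`).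
If it is a `q`-th power then `d = u ^ q` with `u ∈ E` (for `q = 2` use `-1 = j ^ 2`), so
`δ = ζ ^ l u ∈ E`, a contradiction. -/
def T_NZ2 : Prop :=
  ∀ (E E' : Type) [Field E] [CharZero E] [Field E'] [Algebra E E'] [FiniteDimensional E E']
    [IsGalois E E'] (q : ℕ) (ζ j : E), q.Prime → IsPrimitiveRoot ζ q → j ^ 2 = -1 →
    Module.finrank E E' = q → ∃ z : E', ¬ ∃ y : E, Algebra.norm E z = y ^ q

/-- GA1 (Galois extensions of `q`-power degree).  PROOF.  Induction on `m`.  `m = 0`: `algebraMap` is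
bijective; transport `V` (SG).  `m > 0`: the Galois group is a nontrivial `q`-group, so it has a normal
subgroup of index `q`; `F` = its fixed field, `F / E` is Galois of degree `q`; NZ2, STP: `¬ Ful F q`
and `V_F`; `N / F` is Galois of degree `q ^ (m - 1)`; OT; induction; the restrictions compose. -/
def T_GA1 : Prop :=
  ∀ (m : ℕ) (E N : Type) [Field E] [CharZero E] [Field N] [Algebra E N] [FiniteDimensional E N]
    [IsGalois E N] (q : ℕ) (ζ j : E) (V : ValuationSubring (Lx E)), q.Prime →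
    IsPrimitiveRoot ζ q → j ^ 2 = -1 → Module.finrank E N = q ^ m → OpA E q → ¬ Ful E q →
    Opn q V → ¬ Ful N q ∧ ∃ V' : ValuationSubring (Lx N), Opn q V' ∧
      V'.comap (mapR (algebraMap E N)) = V

/-- GA (Galois extensions).  PROOF.  `F` = fixed field of a Sylow `q`-subgroup of the Galois group:
`[F : E]` is prime to `q`; NZ1, STP for `F / E`, then GA1 for `N / F` (OT; images of `ζ`, `j`). -/
def T_GA : Prop :=
  ∀ (E N : Type) [Field E] [CharZero E] [Field N] [Algebra E N] [FiniteDimensional E N]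
    [IsGalois E N] (q : ℕ) (ζ j : E) (V : ValuationSubring (Lx E)), q.Prime →
    IsPrimitiveRoot ζ q → j ^ 2 = -1 → OpA E q → ¬ Ful E q →
    Opn q V → ¬ Ful N q ∧ ∃ V' : ValuationSubring (Lx N), Opn q V' ∧
      V'.comap (mapR (algebraMap E N)) = V

/-- CG (common Galois extension).  PROOF.  Splitting field of the product of the minimal polynomials of
primitive elements. -/
def T_CG : Prop :=
  ∀ (K E N : Type) [Field K] [CharZero K] [Field E] [Field N] [Algebra K E] [Algebra K N]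
    [FiniteDimensional K E] [FiniteDimensional K N],
    ∃ (P : Type) (_ : Field P) (_ : Algebra K P), FiniteDimensional K P ∧ IsGalois K P ∧
      Nonempty (E →ₐ[K] P) ∧ Nonempty (N →ₐ[K] P)

/-- UNS (the topology does not split in finite extensions of the base field).  PROOF.  ON (with OT)
gives `V` on `Lx E`; `T` = its restriction to `Lx K`.  Let `N / K` be finite, `V₁, V₂` extensions of
`T`.  CG: `P`; make `P` an algebra over `E` and over `N` by the embeddings; `P / E` is Galois.  GA: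
`¬ Ful P q` and `V' ` on `Lx P` with `Opn q V'`, restricting to `V` and so to `T` (`mapR` composes).
For `σ ∈ Gal(P / K)` `Opn q (V'.comap (mapR σ))` (SG, and `x` is a `q`-th power iff `σ x` is), so
`V'.comap (mapR σ) = V'` by UQ.  By TRL `V'` is the only extension of `T` to `Lx P`.  CH: extensions
of `V₁`, `V₂` to `Lx P`; both extend `T`, so they are `V'`, and `V₁ = V₂`. -/
def T_UNS : Prop :=
  ∀ (K E : Type) [Field K] [CharZero K] [Field E] [Algebra K E] [FiniteDimensional K E]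
    (q : ℕ) (ζ j : E), q.Prime → IsPrimitiveRoot ζ q → j ^ 2 = -1 → OpA K q → ¬ Ful E q →
    ∃ V : ValuationSubring (Lx E), Opn q V ∧ Uns (V.comap (mapR (algebraMap K E)))

/-- AC (when everything is a `q`-th power).  PROOF.  Let `A` be an algebraic closure of `K`, `j ∈ A`,
`j ^ 2 = - 1`, `C = K(j)`.  (1) `C = A`.  Otherwise there is a finite Galois extension `N ≠ C` of `C` in
`A`; `q` a prime divisor of `[N : C]`, `ζ ∈ A` a primitive `q`-th root of unity, `N' = N(ζ)`, Galois over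
`C`, `Q` a subgroup of order `q` of `Gal(N' / C)` (Cauchy), `E` its fixed field.  `ζ ∈ E`: `[E(ζ) : E]`
divides `q` and is at most `q - 1`.  Kummer theory: `N' = E(δ)`, `δ ^ q ∈ E`; by hypothesis
`δ ^ q = u ^ q`, `u ∈ E`, so `δ = ζ ^ l u ∈ E`, a contradiction.  (2) `a > 0` in `K`: in `C`
`a = (x + y j) ^ 2` with `x, y ∈ K`, `x y = 0`, `a = x ^ 2` or `a = - y ^ 2 ≤ 0`.  A polynomial of odd
degree over `K` has an irreducible factor of odd degree, which divides `[C : K] = 2`.
`IsRealClosed.of_linearOrderedField`. -/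
def T_AC : Prop :=
  ∀ (K : Type) [Field K] [LinearOrder K] [IsStrictOrderedRing K],
    (∀ (E : Type) [Field E] [Algebra K E] [FiniteDimensional K E] (q : ℕ) (ζ j : E), q.Prime →
      IsPrimitiveRoot ζ q → j ^ 2 = -1 → Ful E q) → IsRealClosed K

end NST
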