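import Pool.Agent.NST.BaseD

/-!
# NST: targets, part D: ordered fields, convex valuation rings, the splitting argument

Definitions and API: `BaseD.lean` (`Vord K`, `natV K`, `Cvx`, `OR`, `Gd`, `tV`, `UnI`, `UnsS`, `Hen`,
`RCr`).
-/

set_option autoImplicit false

noncomputable section

namespace NST

open Filter Polynomial

/-! ## The order topology -/

/-- VM.  PROOF.  `nu_iff`: `x = mk x'` is in `(Vord K).nonunits` iff `x = 0` or `x⁻¹` is bounded by no
constant, iff for each `e > 0` almost all `n` satisfy `|x' n| ≤ e` (use `e / 2` to pass from `<` to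
`≤`).  Constants are in `Vord K`.  Enumerate `K`, and let `e i > 0` be the minimum of `1` and the
positive ones among the first `i` elements; `D i = {a | |a| ≤ e i}`.  `Vord K ≠ ⊤`: with `K = {u 0, u 1, …}`
the class of `n ↦ 1 + ∑_{j ≤ n} |u j|` is not bounded by a constant. -/
def T_VM : Prop :=
  ∀ (K : Type) [Field K] [LinearOrder K] [IsStrictOrderedRing K] [Countable K],
    Mon (Vord K) ∧ ∀ x, x ∈ (Vord K).nonunits ↔ ∀ e : K, 0 < e → x ∈ St {a | |a| ≤ e}

/-- EQ (the unsplit topology is the order topology).  PROOF.  Suppose `T ≠ Vord K`.  AA for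
`{T, Vord K}` gives `x` with `x - 1 ∈ T.nonunits`, `x + 1 ∈ (Vord K).nonunits` (`c V = 1`); by VM
`|x' n + 1| ≤ 1 / 2` for almost all `n` (`x = mk x'`).  By `SqU` and finiteness of the set there is
`c ∈ K` with `x' n = c * y n ^ 2` for almost all `n`; `x = cst c * y ^ 2`.  `x' n < 0`, so `c < 0`; `c` is
not a square in `K`.  `N` = a quadratic extension of `K` with `s ^ 2 = c` (e.g. in an algebraic
closure), `σ` its automorphism with `σ s = - s`.  `φ = mapR (algebraMap K N)`,
`w = cst s * φ y`, `w ^ 2 = φ x`.  CH: `V'` with `V'.comap φ = T`.  `(w - 1) (w + 1) = φ (x - 1)` is in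
`V'.nonunits`, so one of `w - 1`, `w + 1` is (`w ∈ V'`, a root of a monic polynomial).
`V'.comap (mapR σ)` also restricts to `T` (`σ` fixes `K`), so it is `V'` (`Uns T`).  `mapR σ w = - w`, so
also `- w - 1` resp. `- w + 1` is in `V'.nonunits`; the sum is `∓ 2`, a unit: a contradiction. -/
def T_EQ : Prop :=
  ∀ (K : Type) [Field K] [LinearOrder K] [IsStrictOrderedRing K] [Countable K], SqU K →
    ∀ T : ValuationSubring (Lx K), Mon T → Uns T → T = Vord K

/-- DI (dichotomy).  PROOF.  If the hypothesis of AC holds, `K` is real closed.  Otherwise UNS gives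
`V`, and `T = V.comap` is `Mon` by RS, `Uns`; EQ. -/
def T_DI : Prop :=
  ∀ (K : Type) [Field K] [LinearOrder K] [IsStrictOrderedRing K], Gd K →
    IsRealClosed K ∨ Uns (Vord K)

/-- AR (archimedean fields).  PROOF.  By AC it is enough to show `Ful E q` for `E / K` finite,
`ζ, j ∈ E`.  Suppose not.  UNS, RS, EQ: `V` on `Lx E`, `Opn q V`, `V.comap = Vord K`, `Uns (Vord K)`.
`ι₀ : K → ℝ` an order embedding (`Archimedean`), `ι : E → ℂ` an extension (`IsAlgClosed.lift`).
`V' = {x | ∃ m : ℕ, x ∈ St {a | ‖ι a‖ ≤ m}}` is a valuation ring of `Lx E` (as for `Vord`) with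
`V'.comap = Vord K` (archimedean); so `V = V'` by `Uns`.  `x ∈ V'.nonunits` iff for all `m : ℕ`
`x ∈ St {a | ‖ι a‖ * (m + 1) ≤ 1}`.  Let `x ∈ E`, `x ≠ 0`.  `ι(E)` contains `ℚ + ℚ I` (`ι j = ± I`), so it
is dense in `ℂ`, and by continuity there are `z n ∈ E` with `‖ι (x * z n ^ q - 1)‖ * (n + 1) ≤ 1`
(`ℂ` has a `q`-th root of `(ι x)⁻¹`).  So `cst x * (mk z) ^ q - 1 ∈ V.nonunits`, `cst x * (mk z) ^ q` is
a `q`-th power, so is `cst x`, and `x` (`cst_pow_iff`). -/
def T_AR : Prop :=
  ∀ (K : Type) [Field K] [LinearOrder K] [IsStrictOrderedRing K], Gd K → Archimedean K →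
    IsRealClosed K

/-! ## Coarsenings -/

/-- OV (extensions above a given one).  PROOF.  `A₂ = {x | ∃ a ∈ O₂, a ≠ 0 ∧ x / f a ∈ A₁}`.  Closed
under products (`a b`), and under sums: for `a, b ∈ O₂`, `a / b` or `b / a` is in `O₁`, say `a / b`,
then `x + y = f b (f (a / b) (x / f a) + y / f b)`.  It contains `A₁` (`a = 1`), so it is a valuation
ring.  If `f c ∈ A₂` then `f (c / a) ∈ A₁`, `c / a ∈ O₁ ≤ O₂`, `c ∈ O₂`; if `c ∈ O₂`, `c ≠ 0` take
`a = c`. -/
def T_OV : Prop :=
  ∀ (L L' : Type) [Field L] [Field L'] (f : L →+* L') (O₁ O₂ : ValuationSubring L)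
    (A₁ : ValuationSubring L'), O₁ ≤ O₂ → A₁.comap f = O₁ → ∃ A₂, A₁ ≤ A₂ ∧ A₂.comap f = O₂

/-- F1 (finest unsplit coarsening).  PROOF.  `W` = the intersection of all `W' ≥ O` with `UnI f W'`
(a valuation ring, it contains `O`).  Let `V₁, V₂` restrict to `W`.  For each such `W'` OV gives
`A' ≥ V₁` restricting to `W'`; by `UnI` it is the unique extension of `W'`, and `V₂ ≤ A'` as well.  The
intersection `A''` of all these `A'` contains `V₁` and `V₂` and restricts to `W`; by IC
`V₁ = A'' = V₂`. -/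
def T_F1 : Prop :=
  ∀ (K N : Type) [Field K] [Field N] (f : K →+* N), f.IsIntegral → ∀ O : ValuationSubring K,
    ∃ W, O ≤ W ∧ UnI f W ∧ ∀ W', O ≤ W' → UnI f W' → W ≤ W'

/-- F2 (residue translation).  PROOF.  `P = {x | x ∈ W, π x ∈ O₁}`: if `x ∉ W` then `x⁻¹ ∈ W.nonunits`,
`π x⁻¹ = 0`; if `x, x⁻¹ ∈ W` then `π x` or its inverse is in `O₁`.  `P ≤ W`.  Let `V₁, V₂` restrict to
`P`.  OV: `V i ≤ B i`, `B i` restricts to `W`, so `B i = A` by `UnI f W`.  So `A.nonunits ⊆ V i`.
`ρ(V i) = {ρ a | a ∈ V i}` is a valuation ring of `n`, and it restricts to `O₁` along `g`: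
if `g c = ρ v`, `v ∈ V i`, `c = π a` then `f a - v ∈ A.nonunits ⊆ V i`, so `f a ∈ V i`, `a ∈ P`,
`c = π a ∈ O₁`; the converse is clear.  So `ρ(V₁) = ρ(V₂)` by `UnI g O₁`, and `V₁ = V₂` as both
contain the kernel of `ρ`. -/
def T_F2 : Prop :=
  ∀ (K N k n : Type) [Field K] [Field N] [Field k] [Field n] (f : K →+* N) (g : k →+* n)
    (W : ValuationSubring K) (A : ValuationSubring N) (π : W →+* k) (ρ : A →+* n),
    Function.Surjective π → Function.Surjective ρ → (∀ a : W, π a = 0 ↔ (a : K) ∈ W.nonunits) →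
    (∀ a : A, ρ a = 0 ↔ (a : N) ∈ A.nonunits) → A.comap f = W →
    (∀ (a : W) (ha : f a ∈ A), ρ ⟨f a, ha⟩ = g (π a)) → UnI f W →
    ∀ O₁ : ValuationSubring k, UnI g O₁ →
      ∃ P : ValuationSubring K, (∀ x, x ∈ P ↔ ∃ h : x ∈ W, π ⟨x, h⟩ ∈ O₁) ∧ UnI f P

/-- TT.  Let `O = B.comap`, convex, `≠ ⊤` (otherwise `B = ⊤` by integrality).  PROOF.  Let
`x = mk x'`, `x' : ℕ → K`.  If `|x' n| ≤ c` for almost all `n`, `c > 0`, then `x' n * c⁻¹ ∈ O` by convexity
(`1 ∈ O`), so `e = c⁻¹` works.  If `x' n * e ∈ B` for almost all `n` (`e ∈ N`, `e ≠ 0`): `e⁻¹` is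
algebraic over `K`, the fraction field of `O`, so `c e⁻¹` is integral over `O` for some `c ≠ 0` in `K`, so
`c e⁻¹ ∈ B`, so `x' n * c ∈ O`; choose `d ∈ K`, `d ∉ O`; by convexity `|x' n * c| ≤ |d|`, so
`|x' n| ≤ |d / c|`. -/
def T_TT : Prop :=
  ∀ (K N : Type) [Field K] [LinearOrder K] [IsStrictOrderedRing K] [Field N] [Algebra K N]
    [FiniteDimensional K N] (B : ValuationSubring N), B ≠ ⊤ →
    Cvx (B.comap (algebraMap K N)) → (tV B).comap (mapR (algebraMap K N)) = Vord K

/-- TE.  PROOF.  (1) There is `e ≠ 0` with `b * e ∈ B'` for all `b ∈ B`.  Otherwise enumerate the nonzero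
elements `e 0, e 1, …`; for each `i` let `j ≤ i` be such that `e j / e l ∈ B'` for all `l ≤ i` (`e j` of
smallest value), and `b i ∈ B` with `b i * e j ∉ B'`; then `b i * e l ∉ B'` for all `l ≤ i`
(`b i * e j = (b i * e l) * (e j / e l)`).  `mk b ∈ St B ⊆ tV B = tV B'`, so for some `l` almost all `n` satisfy
`b n * e l ∈ B'`, a contradiction.  (2) `J = {x | ∀ b ∈ B, b * x ∈ B'}` contains `e`, and
`B J ⊆ J`, `B' J ⊆ J`, `J + J ⊆ J`.  `C = {x | ∀ y ∈ J, x * y ∈ J}` is a subring containing `B` and `B'`, so a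
valuation ring.  If `C = ⊤` then `J = ⊤` (as `e ∈ J`), so `B' = ⊤` (`b = 1`), a contradiction. -/
def T_TE : Prop :=
  ∀ (N : Type) [Field N] [Countable N] (B B' : ValuationSubring N), B ≠ ⊤ → B' ≠ ⊤ →
    tV B = tV B' → ∃ C : ValuationSubring N, C ≠ ⊤ ∧ B ≤ C ∧ B' ≤ C

/-- F3 (if all nontrivial convex valuation rings split, the order topology splits).  PROOF.  Suppose
`Uns (Vord K)`.  `N` is countable.  Let `s` be the finite nonempty (FE, CH) set of the extensions of
`natV K` to `N`; `B ∈ s` is `≠ ⊤`.  By TT and `Uns` all `tV B`, `B ∈ s`, are equal.  Fix `B₀ ∈ s`; TE: for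
`B ∈ s` some `C B ≠ ⊤` contains `B₀` and `B`.  The `C B` contain `B₀`, so they form a chain
(overrings of a valuation ring); let `A` be the largest: `A ≠ ⊤` and `B ≤ A` for all `B ∈ s`.
`O₂ = A.comap ≥ natV K` is convex, and `≠ ⊤` (integrality).  By hypothesis there are two different
extensions of `O₂`, so there is one, `A₂ ≠ A`.  CO (for `natV K ≤ O₂`): `B ≤ A₂`, `B ∈ s`.  `A` and `A₂`
contain `B`, so they are comparable, and equal by IC: a contradiction. -/
def T_F3 : Prop :=
  ∀ (K N : Type) [Field K] [LinearOrder K] [IsStrictOrderedRing K] [Countable K] [Field N]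
    [Algebra K N] [FiniteDimensional K N], natV K ≠ ⊤ →
    (∀ O : ValuationSubring K, Cvx O → O ≠ ⊤ → ¬ UnI (algebraMap K N) O) → ¬ Uns (Vord K)

/-- RK (finite extensions of real closed fields).  PROOF.  Every element of `C = K(i)` is a square:
`a + b i`, `c = √(a² + b²)`, `(c + a) / 2`, `(c - a) / 2 ≥ 0` are squares in `K`.  Let `N / K` be finite,
contained in a finite Galois extension `P ∋ i` of `K` (in an algebraic closure), `G` its group.  The
fixed field of a Sylow 2-subgroup has odd degree over `K`, so it is `K` (primitive element; polynomials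
of odd degree have roots), so `G` is a 2-group, and `Gal(P / K(i))` too; if it is not trivial it has a
subgroup of index 2 and `K(i)` has a quadratic extension, impossible.  So `P = K(i)`.  (Compare
`Pool/Agent/NFV/P_GA2.lean`.) -/
def T_RK : Prop :=
  ∀ (K : Type) [Field K] [LinearOrder K] [IsStrictOrderedRing K], IsRealClosed K →
    ∀ (N : Type) [Field N] [Algebra K N] [FiniteDimensional K N], Module.finrank K N ≤ 2

/-- F4 (convex valuation rings of real closed fields do not split).  PROOF.  RK.  Degree `1`: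
`algebraMap` is bijective.  Degree `2`: `N = K(s)`, `s ^ 2 ∈ K` (complete the square), not a square, so
`s ^ 2 = - c ^ 2`; so there is `j ∈ N` with `j ^ 2 = - 1`, and each `z ∈ N` is `a + b j`, `a, b ∈ K`.
Let `V` restrict to `O`.  Then `a + b j ∈ V` iff `a, b ∈ O`: `⇐`: `j ∈ V`.  `⇒`: let `m` be the one of
`a, b` of larger absolute value, `m ≠ 0`, `z = m z'`, `z' = a' + b' j`, `|a'|, |b'| ≤ 1`,
`1 ≤ a' ^ 2 + b' ^ 2`, so `a', b'` and `(a' ^ 2 + b' ^ 2)⁻¹` are in `O`; `z'⁻¹ = (a' - b' j) / (a'^2 + b'^2) ∈ V`,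
so `m = z z'⁻¹ ∈ V`, `m ∈ O`, and `a, b ∈ O` by convexity.  So `V` is determined. -/
def T_F4 : Prop :=
  ∀ (K : Type) [Field K] [LinearOrder K] [IsStrictOrderedRing K], IsRealClosed K →
    ∀ O : ValuationSubring K, Cvx O → ∀ (N : Type) [Field N] [Algebra K N]
    [FiniteDimensional K N], UnI (algebraMap K N) O

/-! ## Hensel's lemma and residue fields -/

/-- HN (unsplit implies Hensel).  PROOF.  Let `f`, `a₀` be given, `N` the splitting field of `f`, Galois
over `K`, `f = ∏ (X - α i)`, `O'` an extension of `O` (CH).  `α i ∈ O'` (`mem_of_root`).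
`∏ (a₀ - α i) ∈ O'.nonunits`, so `a₀ - α 1 ∈ O'.nonunits` for some root; it is the only index with this
property, since otherwise every term of `f'(a₀) = ∑_j ∏_{l ≠ j} (a₀ - α l)` is in `O'.nonunits`.
For `σ ∈ Gal(N / K)` `O'.comap σ = O'` (`UnsS`), so `a₀ - σ (α 1) = σ (a₀ - α 1) ∈ O'.nonunits` and
`σ (α 1) = α 1`.  So `α 1 ∈ K`. -/
def T_HN : Prop :=
  ∀ (K : Type) [Field K] [CharZero K] (O : ValuationSubring K), UnsS O → Hen O

/-- HE.  PROOF.  `HenselianLocalRing.is_henselian`: map the polynomial to `K[X]`; the root is in `O`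
(`mem_of_root` or `a = (a - a₀) + a₀`); `coe_mem_nonunits_iff`. -/
def T_HE : Prop :=
  ∀ (K : Type) [Field K] (O : ValuationSubring K), Hen O → HenselianLocalRing O

/-- RR.  PROOF.  Lift to `O`.  `∑ f_i ^ 2 = - 1` would give `1 + ∑ a_i ^ 2 ∈ O.nonunits`, but it is
`≥ 1`, so its inverse is in `O` by convexity.  For `p` divide by the leading coefficient and lift to a
monic polynomial of the same degree. -/
def T_RR : Prop :=
  ∀ (K : Type) [Field K] [LinearOrder K] [IsStrictOrderedRing K] (O : ValuationSubring K),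
    Cvx O → RCr O →
    (∀ (n : ℕ) (f : Fin n → IsLocalRing.ResidueField O), ∑ i, f i ^ 2 ≠ -1) ∧
    (∀ c : IsLocalRing.ResidueField O, ∃ b, b ^ 2 = c ∨ b ^ 2 = -c) ∧
    (∀ p : Polynomial (IsLocalRing.ResidueField O), Odd p.natDegree → ∃ x, p.IsRoot x)

/-- RO (ordered residue field).  PROOF.  `k` = residue field; `O.nonunits` is convex: if `|y| ≤ |x|`,
`x ∈ O.nonunits`, `y⁻¹ ∈ O` then `|x⁻¹| ≤ |y⁻¹|`, so `x⁻¹ ∈ O`.  `0 ≤ c` iff `c` is the residue of some
`a ≥ 0`. -/
def T_RO : Prop :=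
  ∀ (K : Type) [Field K] [LinearOrder K] [IsStrictOrderedRing K] (O : ValuationSubring K),
    Cvx O → ∃ (k : Type) (_ : Field k) (_ : LinearOrder k) (_ : IsStrictOrderedRing k)
      (π : O →+* k), OR O k π

/-- RF (residue field extension).  PROOF.  `n` = residue field of `A`; `g (π a) = ρ (f a)`, well
defined.  Finite: if `ρ (a_1), …, ρ (a_m)` are linearly independent over `k` then `a_1, …, a_m` are
linearly independent over `K`: in a relation divide by a coefficient of largest value and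
reduce. -/
def T_RF : Prop :=
  ∀ (K N : Type) [Field K] [Field N] (f : K →+* N), f.Finite → ∀ (W : ValuationSubring K)
    (A : ValuationSubring N), A.comap f = W → ∀ (k : Type) [Field k] (π : W →+* k),
    Function.Surjective π → (∀ a : W, π a = 0 ↔ (a : K) ∈ W.nonunits) →
    ∃ (n : Type) (_ : Field n) (ρ : A →+* n) (g : k →+* n), Function.Surjective ρ ∧
      (∀ a : A, ρ a = 0 ↔ (a : N) ∈ A.nonunits) ∧
      (∀ (a : W) (ha : f a ∈ A), ρ ⟨f a, ha⟩ = g (π a)) ∧ g.Finite

/-- M1.  PROOF.  Second claim: `k` is archimedean (`k ∋ π a`, `|a| ≤ n` so `|π a| ≤ n`), AR.  First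
claim: let `N / K` be Galois, `f = algebraMap K N`, `W` from F1 for `natV K`.  If `W = natV K` we are
done.  Otherwise: `W` is convex (`Cvx.of_le`); RO: `k, π`; `A` an extension of `W` (CH); RF: `n, ρ, g`;
make `n` a `k`-algebra by `g`.  `Gd k`.  (1) `natV k ≠ ⊤`: take `x ∈ W`, `x ∉ natV K`; if
`|π x| ≤ m` then `|x| ≤ m + 1` (otherwise `π |x| ≥ m + 1`).  (2) If `O ≠ ⊤` is convex in `k`
then `UnI g O` is false: otherwise F2 gives `P` with `UnI f P`; `natV K ≤ P` (`|x| ≤ m` implies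
`|π x| ≤ m`, `Cvx.natV_le`), so `W ≤ P`, and each `y = π x`, `x ∈ W ≤ P`, is in `O`: `O = ⊤`.
(3) F3: `¬ Uns (Vord k)`; DI: `k` is real closed; F4: `UnI g (natV k)`, which contradicts (2). -/
def T_M1 : Prop :=
  ∀ (K : Type) [Field K] [LinearOrder K] [IsStrictOrderedRing K] [Countable K],
    (∀ W : ValuationSubring K, Cvx W → ∀ (k : Type) [Field k] [LinearOrder k]
      [IsStrictOrderedRing k] (π : W →+* k), OR W k π → Gd k) →
    UnsS (natV K) ∧ ∀ (k : Type) [Field k] [LinearOrder k] [IsStrictOrderedRing k]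
      (π : natV K →+* k), OR (natV K) k π → IsRealClosed k

/-- M2 (countable fields).  PROOF.  `Hen`: M1, HN.  `RCr (natV K)`: RO gives `k, π`, real closed by M1;
lift squares and roots. -/
def T_M2 : Prop :=
  ∀ (K : Type) [Field K] [LinearOrder K] [IsStrictOrderedRing K] [Countable K],
    (∀ W : ValuationSubring K, Cvx W → ∀ (k : Type) [Field k] [LinearOrder k]
      [IsStrictOrderedRing k] (π : W →+* k), OR W k π → Gd k) →
    Hen (natV K) ∧ RCr (natV K)

end NST
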