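import Pool.Agent.NST.TD

/-!
# NST: targets, part E: NIP, unit classes, residue fields, countable subfields, strong NIP,
the converse
-/

set_option autoImplicit false

noncomputable section

namespace NST

open Filter Polynomial FirstOrder

/-! ## E1. Combinatorics -/

/-- SSH (pigeonhole and Sauer-Shelah).  PROOF.  `K ≥ 1` (otherwise take `N = 1`, the hypothesis is
impossible).  `N` large: `K * (N + 1) ^ (d + 2) < 2 ^ (N / K)` (real exponent; or
`(K * (N + 1) ^ (d + 2)) ^ K < 2 ^ N`).  Some colour `c` is taken by at least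
`2 ^ N / (K (N + 1) ^ 2)` sets.  The family of the traces `S ∩ I c`, `col S = c`, has at least
`2 ^ |I c| / (K (N + 1) ^ 2)` members (each trace comes from at most `2 ^ (N - |I c|)` sets).  If it
shatters no set with `d` elements, Sauer-Shelah (`Finset.card_le_card_shatterer`,
`Finset.card_shatterer_le_sum_vcDim`) bounds it by `∑_{j < d} (N choose j) ≤ (N + 1) ^ d`: a
contradiction.  `ι` enumerates a shattered set with `d` elements (it is contained in `I c`). -/
def T_SSH : Prop :=
  ∀ d K : ℕ, ∃ N : ℕ, 2 ≤ N ∧ ∀ (κ : Type) [Fintype κ], Fintype.card κ ≤ K * (N + 1) ^ 2 →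
    ∀ (col : Finset (Fin N) → κ) (I : κ → Finset (Fin N)), (∀ c, N ≤ K * (I c).card) →
    ∃ (c : κ) (ι : Fin d → Fin N), Function.Injective ι ∧ (∀ i, ι i ∈ I c) ∧
      ∀ T : Finset (Fin d), ∃ S, col S = c ∧ ∀ i, (ι i ∈ S ↔ i ∈ T)

/-- the value of `x i + y S` depends only on `S` or only on `i` -/
def Adt {F : Type} [Field F] (V : ValuationSubring F) {d : ℕ} (x : Fin d → F)
    (y : Finset (Fin d) → F) : Prop :=
  (∀ i j S, V.valuation (x i + y S) = V.valuation (x j + y S)) ∨
    ∀ i S T, V.valuation (x i + y S) = V.valuation (x i + y T)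

/-- TRE (one valuation).  PROOF.  `N` from SSH for `d` and `K = 2`.  `v = V.valuation`.  For `S` let
`i₀ = i₀(S)` be an index with `v (x i₀ + y S)` minimal, `P(S) = {i | v (x i - x i₀) ≤ v (x i₀ + y S)}`.
For `i ∈ P(S)` `v (x i + y S) = v (x i₀ + y S)` (ultrametric inequality and minimality); for
`i ∉ P(S)` `v (x i + y S) = v (x i - x i₀)` (`Valuation.map_add_eq_of_lt_left`).  Colour
`col S = (i₀(S), |P(S)|)`, at most `N (N + 1)` colours.  For sets `S` of the same colour `P(S)` is the
same (the sets `{i | v (x i - x i₀) ≤ γ}` form a chain), call it `P c`; `I c` = `P c` or its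
complement, whichever is larger.  On `I c` the value depends only on `S` resp. only on `i`. -/
def T_TRE : Prop :=
  ∀ d : ℕ, ∃ N : ℕ, ∀ (F : Type) [Field F] (V : ValuationSubring F) (x : Fin N → F)
    (y : Finset (Fin N) → F), ∃ (ι : Fin d → Fin N) (s : Finset (Fin d) → Finset (Fin N)),
    Function.Injective ι ∧ (∀ T i, (ι i ∈ s T ↔ i ∈ T)) ∧
      Adt V (fun i => x (ι i)) (fun T => y (s T))

/-- NU (normalisation).  A *refinement* of `(x, y)` is `(x ∘ ι, y ∘ s)` with `ι`, `s` as in TRE; the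
property `Φ (x i + y S) = g ↔ i ∈ S` and `Adt V` pass to refinements; WLOG `c, d ≥ 1`.  PROOF.  Four
steps (choose the numbers of points backwards).  (1) Refinement with `x i + y S ≠ 0`: `x` is
injective (`S = {i}`); SSH with `κ = Option (Fin N)`, `col S = some i` if `x i + y S = 0`, `none` if
there is no such `i`; `I none = univ`, `I (some i) = univ \ {i}`.  (2) TRE for `V 0`, …, `V (m - 1)` one
after the other.  (3) Put `t i = (x i + y ∅) / (x 0 + y ∅)`, `s S = x 0 + y S`; in both cases of `Adt`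
`v (x i + y S) = v (s S) v (t i)`, so the quotient is a unit of `V j`.  (4) SSH with `κ = G`,
`col S = Φ (s S)`, `I` = the set of the indices `i` with `Φ (t i) = τ`, the most frequent value, `K = c`.
Let `σ` be the resulting colour, `h = g / (σ τ)`.  (`t`, `s` are restricted too.) -/
def T_NU : Prop :=
  ∀ m c d : ℕ, ∃ N : ℕ, ∀ (F : Type) [Field F] (V : Fin m → ValuationSubring F) (G : Type)
    [CommGroupWithZero G] [Fintype G], Fintype.card G ≤ c → ∀ (Φ : F →*₀ G) (x : Fin N → F)
    (y : Finset (Fin N) → F) (g : G), g ≠ 0 → (∀ i S, (Φ (x i + y S) = g ↔ i ∈ S)) →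
    ∃ (x' t : Fin d → F) (y' s : Finset (Fin d) → F) (h : G), (∀ i, t i ≠ 0) ∧ (∀ S, s S ≠ 0) ∧
      (∀ i S, x' i + y' S ≠ 0) ∧
      (∀ i S j, (x' i + y' S) / (s S * t i) ∈ V j ∧ ((x' i + y' S) / (s S * t i))⁻¹ ∈ V j) ∧
      ∀ i S, (Φ ((x' i + y' S) / (s S * t i)) = h ↔ i ∈ S)

/-! ## E2. The class function on units -/

/-- CLS.  PROOF.  `A = Fˣ / (q-th powers)` is a vector space over `ZMod q`; the image of `U` is finite; choose
a complement (`Submodule.exists_isCompl`) and let `p : A → (image of U)` be the projection;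
`G = WithZero (image of U)`, `Φ x = p(class of x)`. -/
def T_CLS : Prop :=
  ∀ (F : Type) [Field F] (q : ℕ), q.Prime → ∀ U : Subgroup Fˣ,
    (∃ B : Finset F, ∀ x ∈ U, ∃ b ∈ B, ∃ y : F, (x : F) = b * y ^ q) →
    ∃ (G : Type) (_ : CommGroupWithZero G) (_ : Finite G) (Φ : F →*₀ G),
      (∀ y : F, y ≠ 0 → Φ (y ^ q) = 1) ∧ ∀ x ∈ U, Φ (x : F) = 1 → ∃ y : F, (x : F) = y ^ q

/-- CI (integral closure).  PROOF.  Let `z ≠ 0` be not integral.  `B` = the subring generated by `f(V)`
and `z⁻¹`, `J` = the ideal generated by `z⁻¹` and `f(V.nonunits)`.  If `1 ∈ J` then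
`1 = f (b 0) + ∑_{i = 1}^N f (a i) z⁻¹ ^ i` with `b 0 ∈ V.nonunits`, `a i ∈ V`; multiply by `z ^ N` and
divide by `1 - b 0`: `z` is integral, a contradiction.  So
`Ideal.image_subset_nonunits_valuationSubring` gives `V'` with `V'.comap f = V` and
`z⁻¹ ∈ V'.nonunits`, so `z ∉ V'`.  (Compare `P_CV.lean`.) -/
def T_CI : Prop :=
  ∀ (L L' : Type) [Field L] [Field L'] (f : L →+* L') (V : ValuationSubring L) (z : L'),
    (∀ V' : ValuationSubring L', V'.comap f = V → z ∈ V') →
    ∃ p : L[X], p.Monic ∧ (∀ i, p.coeff i ∈ V) ∧ p.eval₂ f z = 0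

/-- UC.  PROOF.  CI, `mem_of_root`, `mem_natV`. -/
def T_UC : Prop :=
  ∀ (K E : Type) [Field K] [LinearOrder K] [IsStrictOrderedRing K] [Field E] [Algebra K E] (x : E),
    Itg K x ↔ ∀ V' : ValuationSubring E, V'.comap (algebraMap K E) = natV K → x ∈ V'

/-- the VC property for `q`-th powers: no `d` pairs `(x i, t i)` are shattered by the pairs `(y, s)`
through the relation `∃ z, x + y = b s t z ^ q` -/
def VCq (F : Type) [Field F] (q : ℕ) (b : F) : Prop :=
  ∃ d : ℕ, ∀ (x t : Fin d → F) (y s : Finset (Fin d) → F), (∀ i, t i ≠ 0) → (∀ S, s S ≠ 0) →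
    (∀ i S, x i + y S ≠ 0) → ¬ ∀ i S, ((∃ z, x i + y S = b * s S * t i * z ^ q) ↔ i ∈ S)

/-- VF (the class function of the units has NIP translates).  PROOF.  `U` = the group of the units
`UnE K x` (a group by UC), `Φ : E → G` from CLS.  `V j`, `j < m`: the extensions of `natV K` to `E` (FE; `RC0`,
characteristic zero).  For each `h ∈ G` which is `Φ b` for some `b` with `UnE K b` fix such a `b`, and a bound
`d h` from `VCq`; `d` = the maximum of all `d h` and `1`; `N` from NU for `m, |G|, d`.  Claim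
`VCf Φ N`.  Otherwise NU gives `x', t, y', s, h`.  The quotients
`u i S = (x' i + y' S) / (s S * t i)` satisfy `UnE K` (UC), and `h = Φ (u i {i})`, so we have `b` with
`Φ b = h`.  `Φ (u i S) = h` iff `Φ (u i S / b) = 1` iff `u i S / b` is a `q`-th power iff
`∃ z, x' i + y' S = b s t z ^ q`.  Restricting to the first `d h` points (`T ↦` its image in `Fin d`)
contradicts the choice of `d h`. -/
def T_VF : Prop :=
  ∀ (K E : Type) [Field K] [LinearOrder K] [IsStrictOrderedRing K] [Field E] [Algebra K E]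
    [FiniteDimensional K E] (q : ℕ), q.Prime → FinU K E q → (∀ b : E, UnE K b → VCq E q b) →
    ∃ (G : Type) (_ : CommGroupWithZero G) (_ : Finite G) (Φ : E →*₀ G) (d : ℕ), VCf Φ d ∧
      ∀ x, UnE K x → Φ x = 1 → ∃ y, x = y ^ q

/-- UT (elements near `1` are units).  PROOF.  Let `b` be a basis of `E` over `K`.  By CN (with
`E' = E`, `E = K`, `V = Vord K`) and VM, for `z = mk x - 1` and each `i < n`, almost all `m` satisfy
`|coefficient i of the characteristic polynomial of x m - 1| ≤ 1`; `x m - 1` is a root of its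
characteristic polynomial (Cayley-Hamilton), so `Itg K (x m - 1)`, `Itg K (x m)` (substitute `X - 1`
or use UC).  The same for `(mk x)⁻¹` (`one_inv`; `mk x ≠ 0` as there is an extension, CH). -/
def T_UT : Prop :=
  ∀ (K E : Type) [Field K] [LinearOrder K] [IsStrictOrderedRing K] [Countable K] [Field E]
    [Algebra K E] [FiniteDimensional K E] (x : ℕ → E),
    (∀ V' : ValuationSubring (Lx E), V'.comap (mapR (algebraMap K E)) = Vord K →
      mk x - 1 ∈ V'.nonunits) → ∀ᶠ n in (Uf : Filter ℕ), UnE K (x n)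

/-- OF.  PROOF.  `E` is countable of characteristic zero.  VF gives `Φ`; STB gives `s`; `s'` = the set of the
extensions of `Vord K` to `Lx E`, finite and `Mon` by VM, EM.  `s ∪ s'` controls: if `x = mk x' ≠ 0` is
congruent to `1` at all of them, `Fs Φ x = 1`, so `Φ (x' n) = 1` for almost all `n`, and
`UnE K (x' n)` for almost all `n` by UT; so `x' n` is a `q`-th power; `mk_pow_iff`. -/
def T_OF : Prop :=
  ∀ (K E : Type) [Field K] [LinearOrder K] [IsStrictOrderedRing K] [Countable K] [Field E]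
    [Algebra K E] [FiniteDimensional K E] (q : ℕ), q.Prime → FinU K E q →
    (∀ b : E, UnE K b → VCq E q b) → OpF E q

/-! ## E3. Formulas -/

/-- VCK (finite VC dimension from NIP).  PROOF.  The relation `∃ z, ∀ j, |coordinate j of
x + y - b0 s t z ^ q| ≤ c` between `(y, s, c)` (`2 r + 1` variables) and `(x, t)` (`2 r` variables) is
given by a formula with parameters in `K` (structure constants of `b`, coordinates of `b0`): each
coordinate is a polynomial with integer coefficients in the variables and the structure constants;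
`|u| ≤ c` iff `u ≤ c ∧ - u ≤ c`.  Treat the structure constants and the coordinates of `b0` as
further variables on the side of `(y, s, c)`.  `NIP K`.  (See `Pool/Agent/NFV/P_VCM.lean` for the
same construction for the relation `∃ y ≠ 0, x + a = c y ^ q`.) -/
def T_VCK : Prop :=
  ∀ (K E : Type) [Field K] [LinearOrder K] [IsStrictOrderedRing K] [Ring.CompatibleRing K]
    [Language.order.Structure K] [Language.order.OrderedStructure K] [Field E] [Algebra K E]
    (r : ℕ) (b : Module.Basis (Fin r) K E), NFV.NIP K → ∀ (q : ℕ) (b0 : E), ∃ n : ℕ,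
    ∀ x t : Fin n → E, ∃ S : Finset (Fin n), ∀ (y s : E) (c : K),
      ¬ ∀ i, ((∃ z : E, ∀ j, |b.repr (x i + y - b0 * s * t i * z ^ q) j| ≤ c) ↔ i ∈ S)

/-! ## E4. Residue fields -/

/-- LI (unramified lifts).  PROOF.  `F = k(α)`, `g` = minimal polynomial of `α`, degree `r`; `g̃ ∈ W[X]`
monic lifting `g` (`Polynomial.lifts_and_natDegree_eq_and_monic`).  `g̃` is irreducible over `K`: a
factorisation into monic polynomials of smaller degree has coefficients in `W` (Gauss,
`IsIntegrallyClosed.eq_map_mul_C_of_dvd`, or irreducibility over `W` first) and reduces to a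
factorisation of `g`.  `E = AdjoinRoot g̃` (over `K`), `θ` the root, `b i = θ ^ i`.
`A = {z | all coordinates in W}` is a subring (it is the image of `W[X]`, division by the monic
`g̃`), and `ρ (∑ c_i θ^i) = ∑ π(c_i) α^i` is a ring homomorphism `A → F`, surjective, its kernel is the set of the
`z` with coordinates in `W.nonunits`.  Each `z ≠ 0` is `c u`, `c ∈ K`, `u ∈ A`, `ρ u ≠ 0` (`c` = a
coordinate of largest value).  If `u ∈ A`, `ρ u ≠ 0` then `u⁻¹ ∈ A`: `u⁻¹ = c u'`, `ρ u' ≠ 0`,
`1 = c (u u')` and `ρ (u u') ≠ 0`; the coordinates of `u u'` are `c⁻¹, 0, …, 0`, so `c⁻¹` is a unit of `W`.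
So `A` is a valuation ring: `z = c u ∈ A` iff `c ∈ W`. -/
def T_LI : Prop :=
  ∀ (K k : Type) [Field K] [CharZero K] [Field k] [CharZero k] (W : ValuationSubring K)
    (π : W →+* k), Function.Surjective π → (∀ a : W, π a = 0 ↔ (a : K) ∈ W.nonunits) →
    ∀ (F : Type) [Field F] [Algebra k F] [FiniteDimensional k F],
    ∃ (E : Type) (_ : Field E) (_ : Algebra K E) (r : ℕ) (b : Module.Basis (Fin r) K E)
      (A : ValuationSubring E) (ρ : A →+* F), 0 < r ∧ (∀ z, z ∈ A ↔ ∀ i, b.repr z i ∈ W) ∧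
      (∀ z, z ∈ A.nonunits ↔ ∀ i, b.repr z i ∈ W.nonunits) ∧ Function.Surjective ρ ∧
      (∀ a : A, ρ a = 0 ↔ (a : E) ∈ A.nonunits) ∧ A.comap (algebraMap K E) = W ∧
      ∀ (a : W) (ha : algebraMap K E a ∈ A), ρ ⟨algebraMap K E a, ha⟩ = algebraMap k F (π a)

/-- VN (the VC property in finite extensions of residue fields).  PROOF.  LI: `E, b, A, ρ`.  Lift the given
element to `b₁ ∈ A` (a unit of `A`).  `n` from VCK.  Suppose `x, t, y, s` violate `VCq` for `d = n`;
lift them to `A`: `x₁, t₁, y₁, s₁` (`t₁`, `s₁`, `x₁ i + y₁ S` are units of `A`).  For `i ∈ S` take `z` with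
`x i + y S = b s t z ^ q` and lift it: `x₁ i + y₁ S - b₁ s₁ t₁ z₁ ^ q ∈ A.nonunits`; let `c S ∈ K` be the
maximum of `0` and of the absolute values of all coordinates of these elements for all `i ∈ S`:
`c S ∈ W.nonunits`.  `W.nonunits` is convex.  Claim: the relation of VCK for
`(x₁ i, t₁ i)`, `(y₁ S, s₁ S, c S)` holds iff `i ∈ S`.  `⇐` by choice.  `⇒`: let `z ∈ E` with
`u = x₁ i + y₁ S - b₁ s₁ t₁ z ^ q`, coordinates `≤ c S`; so `u ∈ A.nonunits`, `z ^ q ∈ A`
(the other factors are units), `z ∈ A` (`nu_pow_mem`), and `x i + y S = b s t (ρ z) ^ q`, so `i ∈ S`.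
So VCK is violated (all `S` occur). -/
def T_VN : Prop :=
  ∀ (K : Type) [Field K] [LinearOrder K] [IsStrictOrderedRing K] [Ring.CompatibleRing K]
    [Language.order.Structure K] [Language.order.OrderedStructure K], NFV.NIP K →
    ∀ (W : ValuationSubring K), Cvx W → ∀ (k : Type) [Field k] [LinearOrder k]
    [IsStrictOrderedRing k] (π : W →+* k), OR W k π →
    ∀ (F : Type) [Field F] [Algebra k F] [FiniteDimensional k F] (q : ℕ) (b : F), 0 < q → b ≠ 0 →
      VCq F q b

/-- FR (unit classes in finite extensions of residue fields).  PROOF.  LI: `E, b, A, ρ`; `B` from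
`FinA K`.  (1) Let `x ∈ F`, `Itg k x` by `p`, `|p_i| ≤ n`, and `x₁ ∈ A` with `ρ x₁ = x`.  Claim
`Itg K x₁`.  By UC let `V'` be an extension of `natV K`; to show `x₁ ∈ V'`.  Lift `p` to a monic
`p₁ ∈ K[X]` of the same degree (`≥ 1`) with coefficients in `W`, `|p₁_i| ≤ n + 1` (otherwise
`|p_i| = π |p₁_i| ≥ n + 1`).  `ε = p₁(x₁) ∈ A`, `ρ ε = 0`, `ε ∈ A.nonunits`.  The matrix of
multiplication by `ε` in the basis `b` has entries in `W.nonunits` (`b j ∈ A`), so the lower
coefficients of its characteristic polynomial are in `W.nonunits ⊆ (natV K).nonunits`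
(`nu_of_le`, `Cvx.natV_le`), and `ε ∈ V'.nonunits` by CC.  `x₁` is a root of the monic polynomial
`p₁ - ε` with coefficients in `V'`, so `x₁ ∈ V'` (`mem_of_root`).  (2) So if `UnE k x` and `x₁` lifts
`x` then `UnE K x₁` (`x₁⁻¹` lifts `x⁻¹`).  For each `β ∈ B` for which there is a `u ∈ A`, `u⁻¹ ∈ A` of the form
`β y ^ q` fix one, `u β`; take the set of the `ρ (u β)`.  `x₁ = β y ^ q`, so
`x₁ / u β = z ^ q`, `z` a unit of `A` (`nu_pow_mem`), `x = ρ (u β) (ρ z) ^ q`. -/
def T_FR : Prop :=
  ∀ (K : Type) [Field K] [LinearOrder K] [IsStrictOrderedRing K], FinA K →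
    ∀ (W : ValuationSubring K), Cvx W → ∀ (k : Type) [Field k] [LinearOrder k]
    [IsStrictOrderedRing k] (π : W →+* k), OR W k π →
    ∀ (F : Type) [Field F] [Algebra k F] [FiniteDimensional k F] (q : ℕ), q.Prime → FinU k F q

/-- SQ.  PROOF.  If `|x + 1| ≤ 1 / 2` then `x` and `x⁻¹` are bounded by `2`, roots of `X - x`, `X - x⁻¹`. -/
def T_SQ : Prop :=
  ∀ (k : Type) [Field k] [LinearOrder k] [IsStrictOrderedRing k], FinU k k 2 → SqU k

/-- GD.  PROOF.  `k` is countable; OF with FR and VN (`b ≠ 0` by `UnE`); SQ with FR for `F = k`. -/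
def T_GD : Prop :=
  ∀ (K : Type) [Field K] [LinearOrder K] [IsStrictOrderedRing K] [Ring.CompatibleRing K]
    [Language.order.Structure K] [Language.order.OrderedStructure K] [Countable K], NFV.NIP K →
    FinA K → ∀ (W : ValuationSubring K), Cvx W → ∀ (k : Type) [Field k] [LinearOrder k]
    [IsStrictOrderedRing k] (π : W →+* k), OR W k π → Gd k

/-! ## E5. Countable subfields -/

/-- finite systems of polynomial equations over `K₀` solvable in `K` are solvable in `K₀` -/
def EC {K₀ K : Type} [Field K₀] [Field K] (ι : K₀ →+* K) : Prop :=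
  ∀ (n m : ℕ) (P : Fin m → MvPolynomial (Fin n) K₀),
    (∃ a : Fin n → K, ∀ j, MvPolynomial.eval₂ ι a (P j) = 0) →
    ∃ a : Fin n → K₀, ∀ j, MvPolynomial.eval a (P j) = 0

/-- EL (downward Löwenheim-Skolem).  PROOF.  `FirstOrder.Language.exists_elementarySubstructure_card_eq`
or the Skolem hull: a countable elementary substructure containing `s`; it is a subfield (closed under
the ring operations; inverses by elementarity of `∃ y, x y = 1`, or apply the same to a countable
subfield-closed set alternately); take the induced field structure and order.  Its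
`Lor`-structure from `Ring.CompatibleRing` (`Ring.compatibleRingOfRing`) and the order is the induced
one. -/
def T_EL : Prop :=
  ∀ (K : Type) [Field K] [LinearOrder K] [IsStrictOrderedRing K] [Ring.CompatibleRing K]
    [Language.order.Structure K] [Language.order.OrderedStructure K] (s : Set K), s.Countable →
    ∃ (K₀ : Type) (_ : Field K₀) (_ : LinearOrder K₀) (_ : IsStrictOrderedRing K₀)
      (_ : Ring.CompatibleRing K₀) (_ : Language.order.Structure K₀)
      (_ : Language.order.OrderedStructure K₀) (ι : K₀ →+* K) (e : K₀ ↪ₑ[NFV.Lor] K),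
      Countable K₀ ∧ (∀ a b, a ≤ b ↔ ι a ≤ ι b) ∧ s ⊆ Set.range ι ∧ ∀ a, e a = ι a

/-- NE2 (NIP passes to elementary substructures).  PROOF.  A family shattered in `K₀` is shattered in
`K` by the same formula (`ElementaryEmbedding.map_formula`). -/
def T_NE2 : Prop :=
  ∀ (K₀ K : Type) [NFV.Lor.Structure K₀] [NFV.Lor.Structure K], (K₀ ↪ₑ[NFV.Lor] K) →
    NFV.NIP K → NFV.NIP K₀

/-- EC.  PROOF.  Each `P j` is obtained from a polynomial with integer coefficients in the variables and
finitely many further variables by substituting elements `c l ∈ K₀`.  The formula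
`∃ x, ∧ Q j (x, c) = 0` (terms: `FirstOrder.Ring.termOfFreeCommRing`, `LHom.onFormula`; see
`Pool/Agent/NFV/P_VCM.lean`) holds in `K` for the parameters `e (c l)`, so it holds in `K₀`. -/
def T_EC : Prop :=
  ∀ (K₀ K : Type) [Field K₀] [LinearOrder K₀] [Ring.CompatibleRing K₀]
    [Language.order.Structure K₀] [Language.order.OrderedStructure K₀] [Field K] [LinearOrder K]
    [Ring.CompatibleRing K] [Language.order.Structure K] [Language.order.OrderedStructure K]
    (ι : K₀ →+* K) (e : K₀ ↪ₑ[NFV.Lor] K), (∀ a, e a = ι a) → EC ι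

/-- EX (extension of finite extensions).  PROOF.  `E₀ = K₀(θ₀)`, `f` the minimal polynomial of degree `r`.
(a) `f.map ι` is irreducible: if it is a product of monic polynomials of degrees `a, b ≥ 1`, the
coefficients solve a system of polynomial equations over `K₀`; by `EC` there is a solution in `K₀`, and `f` is
reducible.  (b) `E = AdjoinRoot (f.map ι)`, `j` sends `θ₀` to the root `θ`.  (c) Let
`j z = w ^ q`, `z = ∑ z_i θ₀ ^ i`, `w = ∑ w_i θ ^ i`.  In `R = MvPolynomial (Fin r) K₀` let `P i` be the coefficient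
of `X ^ i` in `(∑ X_i X ^ i) ^ q %ₘ f` (in `R[X]`) minus `z_i`; `%ₘ` commutes with ring
homomorphisms (`Polynomial.map_modByMonic`), so `(w_i)` is a solution in `K`; a solution in
`K₀` gives `z = w₀ ^ q`. -/
def T_EX : Prop :=
  ∀ (K₀ K : Type) [Field K₀] [CharZero K₀] [Field K] (ι : K₀ →+* K), EC ι →
    ∀ (E₀ : Type) [Field E₀] [Algebra K₀ E₀] [FiniteDimensional K₀ E₀],
    ∃ (E : Type) (_ : Field E) (_ : Algebra K E) (j : E₀ →+* E), FiniteDimensional K E ∧
      (∀ a, j (algebraMap K₀ E₀ a) = algebraMap K E (ι a)) ∧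
      ∀ (q : ℕ) (z : E₀), (∃ w, j z = w ^ q) → ∃ w, z = w ^ q

/-- FA.  PROOF.  EX.  `UnE K₀ x` implies `UnE K (j x)` (map the polynomials by `ι`; `|ι a| = ι |a|`).
For each `b ∈ B` (the set for `E`) for which there is `x ∈ E₀`, `x ≠ 0`, with `j x = b y ^ q` fix one. -/
def T_FA : Prop :=
  ∀ (K₀ K : Type) [Field K₀] [LinearOrder K₀] [IsStrictOrderedRing K₀] [Field K] [LinearOrder K]
    [IsStrictOrderedRing K] (ι : K₀ →+* K), EC ι → (∀ a b, a ≤ b ↔ ι a ≤ ι b) → FinA K → FinA K₀

/-- GN (the main theorem).  PROOF.  `Hen (natV K)`: let `f`, `a₀` be given; EL for the set of the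
coefficients of `f` and `a₀`: `K₀`, countable, NIP by NE2, `FinA K₀` by EC, FA; so `Gd` for its
residue fields (GD) and `Hen (natV K₀)` by M2.  `natV K₀ = (natV K).comap ι`; apply `nu_comap`.
`RCr` in the same way. -/
def T_GN : Prop :=
  ∀ (K : Type) [Field K] [LinearOrder K] [IsStrictOrderedRing K] [Ring.CompatibleRing K]
    [Language.order.Structure K] [Language.order.OrderedStructure K], NFV.NIP K → FinA K →
    Hen (natV K) ∧ RCr (natV K)

/-! ## E6. Strong NIP implies NIP -/

/-- strongly NIP, as in `S14553` -/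
def SNIP (K : Type) [NFV.Lor.Structure K] : Prop :=
  ∀ (M : Type) [NFV.Lor.Structure M], NFV.Lor.ElementarilyEquivalent M K →
    ∀ (m : ℕ → ℕ) (φ : ∀ i, NFV.Lor.Formula (Unit ⊕ Fin (m i))) (a : ∀ i, ℕ → Fin (m i) → M),
      ¬ ∀ η : ℕ → ℕ, ∀ n : ℕ, ∃ x : M, ∀ i < n, ∀ j < n,
        ((φ i).Realize (Sum.elim (fun _ => x) (a i j)) ↔ j = η i)

/-- NIP for formulas in one variable -/
def NIP1 (K : Type) [NFV.Lor.Structure K] : Prop :=
  ∀ (m : ℕ) (φ : NFV.Lor.Formula (Unit ⊕ Fin m)), ∃ n : ℕ, ∀ a : Fin n → Fin m → K,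
    ∃ S : Set (Fin n), ∀ x : K, ¬ ∀ i, (φ.Realize (Sum.elim (fun _ => x) (a i)) ↔ i ∈ S)

/-- SN1.  PROOF.  If not, there are `m`, `φ` and for each `n` a shattered `a n : Fin n → Fin m → K`.  `M` = the
ultrapower `(hyperfilter ℕ).Product` of `K` (Łoś: `FirstOrder.Language.Ultraproduct`), elementarily
equivalent to `K`.  For `i, j` let `a' i j : Fin m → M` be the class of `n ↦ a n (pair i j)`
(`Nat.pair`; arbitrary if `pair i j ≥ n`).  Given `η`, `N`, for all large `n` there is `x n ∈ K` with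
`φ(x n, a n (pair i j)) ↔ j = η i` for `i, j < N`; its class works by Łoś. -/
def T_SN1 : Prop := ∀ (K : Type) [Nonempty K] [NFV.Lor.Structure K], SNIP K → NIP1 K

/-- no `d` elements of `Y` are shattered by the sets `R x`, `x ∈ X` -/
def VCd {X Y : Type} (R : X → Y → Prop) (d : ℕ) : Prop :=
  ∀ a : Fin d → Y, ∃ S : Set (Fin d), ∀ x, ¬ ∀ i, (R x (a i) ↔ i ∈ S)

/-- SNC (counting).  PROOF.  Let `a : Fin N → Y` be shattered by the pairs.  For `z : X₀` let `c z` be the
set of all pairs `(D, P)`, `D : Fin d → Fin N`, `P : Set (Fin d)`, such that some `x'` satisfies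
`R z x' (a (D i)) ↔ i ∈ P` for all `i`.  (1) By the first hypothesis, for each `D` some `P` is not in
`c z`.  So the family of the `S ⊆ Fin N` such that `(D, {i | D i ∈ S}) ∈ c z` for all `D` shatters no
set with `d` elements, so it has at most `(N + 1) ^ d` members (Sauer-Shelah), and it contains all `S`
realised by `(z, x')`.  (2) The number of different sets `c z` is at most `(N ^ d + 1) ^ (e 2 ^ d)`:
for each `P` the set `{D | (D, P) ∈ c z}` is a trace on the `N ^ d` points `a ∘ D` of a family which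
shatters no `e` of them (second hypothesis; Sauer-Shelah).  So
`2 ^ N ≤ (N ^ d + 1) ^ (e 2 ^ d) (N + 1) ^ d`, false for large `N`. -/
def T_SNC : Prop :=
  ∀ (d e : ℕ), ∃ N : ℕ, ∀ (X₀ X' Y : Type) (R : X₀ → X' → Y → Prop),
    (∀ z : X₀, VCd (R z) d) →
    (∀ P : Set (Fin d), VCd (fun (z : X₀) (D : Fin d → Y) => ∃ x', ∀ i, (R z x' (D i) ↔ i ∈ P)) e) →
    VCd (fun (p : X₀ × X') y => R p.1 p.2 y) N

/-- SN2.  PROOF.  Induction on the number of `x`-variables of `φ(x; y)`.  `0`: `n = 1`.  Step
`φ(x₀, x'; y)`: `VCd` of `φ` as a relation between `x'` and `(x₀, y)` for some `d` by induction (so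
`R z` has it for each `z = x₀`); for each `P ⊆ Fin d` the formula
`∃ x', ∧_i (φ(x₀, x'; y_i) ↔ i ∈ P)` has one variable `x₀` on the left: `NIP1`; `e` = the maximum of the
bounds (`VCd` is monotone in `d`).  SNC.  (Reindex variables with `Formula.relabel`, `Formula.iExs`,
finite conjunctions.) -/
def T_SN2 : Prop := ∀ (K : Type) [NFV.Lor.Structure K], NIP1 K → NFV.NIP K

/-! ## E7. The converse -/

/-- EH.  PROOF.  Converse of HE: a monic polynomial over `K` with coefficients in `O` is the image of one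
over `O`. -/
def T_EH : Prop :=
  ∀ (K : Type) [Field K] (O : ValuationSubring K), HenselianLocalRing O → Hen O

/-- UH (Hensel implies unsplit).  PROOF.  Let `N / K` be Galois with group `G` and `V₁ ≠ V₂` extensions of
`O`.  The extensions of `O` to `N` are finitely many (FE) and pairwise incomparable (IC); `RC0`.
`D = {σ | V₁.comap σ = V₁}`.  CR: `x` with `x - 1 ∈ V₁.nonunits`, `x ∈ V'.nonunits` for the other
extensions.  `α = ∏_{σ ∈ D} σ x`: `α - 1 ∈ V₁.nonunits`, `α ∈ V'.nonunits` for `V' ≠ V₁`, `σ α = α` for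
`σ ∈ D`, and `τ α ∈ V₁.nonunits` for `τ ∉ D`.  `f` = the minimal polynomial of `α` over `K`, the product
of the `X - α'` over the different conjugates `α'`: all of them except `α` are in `V₁.nonunits`.
Its coefficients are in `V₁ ∩ K = O`; `f(1) ∈ O.nonunits`, and `f'(1) ∉ O.nonunits`.  By `Hen` `f` has a
root in `K`, `f` is irreducible, so `α ∈ K`.  But `α - 1 ∈ V₁.nonunits`, `α ∈ V₂.nonunits`: both in
`O.nonunits`, a contradiction. -/
def T_UH : Prop :=
  ∀ (K : Type) [Field K] [CharZero K] (O : ValuationSubring K), RC0 O → Hen O → UnsS O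

/-- HQ (elements congruent to `1` are `q`-th powers).  PROOF.  Let `w ^ q = 1 + ε`, `P / K` finite Galois
containing `E`, `w` and a primitive `q`-th root of unity `ζ`; `A'` the extension of `O` to `P`, unique,
so `A'.comap = A`.  `∏_l (w - ζ ^ l) = ε ∈ A'.nonunits`, so `w - ζ ^ l ∈ A'.nonunits` for some `l`;
replace `w` by `ζ ^ (- l) w`: `w - 1 ∈ A'.nonunits`.  For `σ ∈ Gal(P / E)` `A'.comap σ = A'`, so
`σ w - 1 ∈ A'.nonunits`; `σ w = ζ ^ m w`, so `ζ ^ m - 1 ∈ A'.nonunits`, which is possible only for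
`ζ ^ m = 1` (`∏_{0 < l < q} (1 - ζ ^ l) = q` is a unit).  So `w ∈ E`. -/
def T_HQ : Prop :=
  ∀ (K : Type) [Field K] [CharZero K] (O : ValuationSubring K), RC0 O → UnsS O →
    ∀ (E : Type) [Field E] [Algebra K E] [FiniteDimensional K E] (A : ValuationSubring E),
    A.comap (algebraMap K E) = O → ∀ q : ℕ, q.Prime → ∀ ε ∈ A.nonunits, ∃ y : E, 1 + ε = y ^ q

/-- NC (the condition is necessary).  PROOF.  (1) `RC0 O`: the residue field has characteristic zero, as
`1 + 1 + ⋯ + 1 = - 1` is impossible.  `Hen O` by EH, `UnsS O` by UH.  (2) `O` is convex: for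
`x ∈ O.nonunits`, `1 + x` is a square (`Hen` for `X ^ 2 - (1 + x)` at `1`), so `|x| ≤ 1`; if
`|x| ≤ |y|`, `y ∈ O`, `x ∉ O` then `2 y / x ∈ O.nonunits`, but `|2 y / x| ≥ 2`.  RO: `k, π`; `k` is real
closed by the conditions on the residue field (isomorphic to `k`).  (3) Let `E / K` be finite, `A` an
extension of `O` (CH), `n` its residue field, finite over `k` (RF), of degree `≤ 2` (RK).  Each element of
`n` is `± ȳ ^ q`: if `n = k` because nonnegative elements of `k` are `q`-th powers
(`IsRealClosed.exists_eq_pow_of_nonneg`); if `[n : k] = 2`, `n` is algebraically closed (its finite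
extensions have degree `≤ 2` over `k` by RK).  (4) Let `UnE K x`; as `natV K ≤ O`, `x, x⁻¹ ∈ A`
(`mem_of_root`).  So `x = ± y ^ q (1 + ε)`, `ε ∈ A.nonunits`, and by HQ `x = ± y' ^ q`.
Take `B = {1, -1}`. -/
def T_NC : Prop :=
  ∀ (K : Type) [Field K] [LinearOrder K] [IsStrictOrderedRing K] (O : ValuationSubring K),
    HenselianLocalRing O → (∀ (n : ℕ) (f : Fin n → IsLocalRing.ResidueField O), ∑ i, f i ^ 2 ≠ -1) →
    (∀ c : IsLocalRing.ResidueField O, ∃ b, b ^ 2 = c ∨ b ^ 2 = -c) →
    (∀ p : Polynomial (IsLocalRing.ResidueField O), Odd p.natDegree → ∃ x, p.IsRoot x) → FinA K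

end NST
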